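import Pool.Agent.INDB.W

/-!
# INDB, module KernB: integrability of kernels, bounds of potentials

PROOFS. Split `ℝ = [-1,1] ∪ {|u| ≥ 1}`: on `[-1,1]` `k` is integrable with `∫|k| ≤ C`, and `e^{κ u}` is bounded by `e^{|κ|}`; on `|u| ≥ 1`, `|k u| e^{κ u} ≤ C w(u) e^{κ u}` is integrable by `integrable_w_exp`.
`int_abs_le`: `∫ |k| ≤ C + C ∫ w`. `unit_le` (substitute `v = x - y`, `v₀ = α - y`): `∫_{v₀}^{v₀+1} |k| ≤ ∫_{[v₀,v₀+1], |v| ≥ 1} C w + ∫_{[-1,1]} |k| 1{[v₀,v₀+1] meets [-1,1]}`; first term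
`≤ C e w(v₀)` (`w_shift`), second one: if the intervals meet then `|v₀| ≤ 2`, `w(v₀) ≥ e^{-2}`, so it is `≤ C ≤ C e² w(v₀)`; `e + e² ≤ 11`.
`unit_le'` is the same for the integral in `y` (substitute `v = x - y`, which runs over `[x-α-1, x-α]`).
`integrable_mul_of_le` : `|k(x-y) N(y)| ≤ |k(x-y)| B e^{κ (y-x)⁺ + μ (x-y)⁺}`, substitute `u = x - y` : `|k u| e^{κ u⁻ + μ u⁺}` is integrable because `κ < b`, `μ < a` (on `u ≥ 0` compare with `e^{μ u}`, on `u ≤ 0` with `e^{-κ u}`).
`U_abs_le`: on `[-1,1]` the exponential is `≤ e^{max κ μ} ≤ e ≤ 3`; on `u ≥ 1`: `C ∫_{u ≥ 0} e^{(μ-a) u} = C/(a-μ)`; on `u ≤ -1`: `C/(b-κ)`.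
`Lin` case: `1 + |y| ≤ (1+|x|)(1+|y-x|) ≤ (1+|x|) (1 + 1/κ) e^{κ|y-x|}` for a small `κ < min a b` (`t ≤ e^{κ t}/κ`).
`continuous_U`: `U k N x = ∫ k(u) N(x-u) du` (`integral_sub_left_eq_self`), `continuous_of_dominated` is local: for `|x - x₀| ≤ 1` `|k u N(x-u)| ≤ K |k u| (2 + |x₀| + |u|)`; use `continuous_iff_continuousAt` and
`continuousAt_of_dominated`.
`tendsto_U`: `N` vanishes outside `[A, B]` and `|N| ≤ R`: for `x ≥ B + 1`: `|U k N x| ≤ C R (B-A) w(x-B) → 0`, for `x ≤ A - 1` the same with `w(x-A)`.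
-/

open MeasureTheory Set Filter Topology

namespace INDB

variable {a b C : ℝ} {k : ℝ → ℝ}

lemma Kern.nonnegC (hk : Kern a b C k) : 0 ≤ C :=
  (integral_nonneg (fun _ => abs_nonneg _)).trans hk.loc

/-- outside of `[-1,1]` -/
lemma Kern.abs_out (hk : Kern a b C k) {u : ℝ} (hu : u ∉ Icc (-1 : ℝ) 1) :
    |k u| ≤ C * w a b u := by
  apply hk.abs
  by_contra h
  exact hu (abs_le.1 (not_le.1 h).le)

/-- the basic estimate -/
lemma Kern.int_bound (hk : Kern a b C k) {f : ℝ → ℝ} {a' b' D E : ℝ} (ha' : 0 < a') (hb' : 0 < b')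
    (hD : 0 ≤ D) (hE : 0 ≤ E) (hf : AEStronglyMeasurable f)
    (h1 : ∀ u ∈ Icc (-1 : ℝ) 1, |f u| ≤ D * |k u|)
    (h2 : ∀ u, u ∉ Icc (-1 : ℝ) 1 → |f u| ≤ E * w a' b' u) :
    Integrable f ∧ ∫ u, |f u| ≤ D * C + E * (1 / a' + 1 / b') := by
  set g : ℝ → ℝ := fun u => D * (Icc (-1 : ℝ) 1).indicator (fun v => |k v|) u + E * w a' b' u
    with hg
  have hgi1 : Integrable ((Icc (-1 : ℝ) 1).indicator (fun v => |k v|)) := by
    rw [integrable_indicator_iff measurableSet_Icc]
    exact hk.int.abs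
  have hgi : Integrable g := (hgi1.const_mul D).add ((integrable_w ha' hb').const_mul E)
  have hb : ∀ u, |f u| ≤ g u := by
    intro u
    by_cases hu : u ∈ Icc (-1 : ℝ) 1
    · have h3 := mul_nonneg hE (w_pos a' b' u).le
      simp only [hg, indicator_of_mem hu]
      linarith [h1 u hu]
    · simp only [hg, indicator_of_notMem hu, mul_zero, zero_add]
      exact h2 u hu
  have hfi : Integrable f := hgi.mono' hf (Eventually.of_forall (fun u => by
    rw [Real.norm_eq_abs]; exact hb u))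
  refine ⟨hfi, ?_⟩
  calc ∫ u, |f u| ≤ ∫ u, g u := integral_mono hfi.abs hgi hb
    _ = D * (∫ u in Icc (-1 : ℝ) 1, |k u|) + E * (1 / a' + 1 / b') := by
        rw [hg, integral_add (hgi1.const_mul D) ((integrable_w ha' hb').const_mul E),
          integral_const_mul, integral_const_mul, int_w ha' hb',
          integral_indicator measurableSet_Icc]
    _ ≤ _ := by
        have := mul_le_mul_of_nonneg_left hk.loc hD
        linarith

lemma w_mul_exp (a b κ μ u : ℝ) :
    w a b u * Real.exp (κ * max (-u) 0 + μ * max u 0) = w (a - μ) (b - κ) u := by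
  rw [w, w, ← Real.exp_add]
  congr 1
  ring

lemma Kern.integrable_exp (hk : Kern a b C k) {κ : ℝ} (h1 : -b < κ) (h2 : κ < a) :
    Integrable (fun u => k u * Real.exp (κ * u)) := by
  have hC := hk.nonnegC
  have hw : ∀ u, w a b u * Real.exp (κ * u) = w (a - κ) (b + κ) u := by
    intro u
    have h3 : κ * u = (-κ) * max (-u) 0 + κ * max u 0 := by
      rcases le_total 0 u with hu | hu
      · rw [max_eq_left hu, max_eq_right (by linarith : -u ≤ 0)]; ring
      · rw [max_eq_right hu, max_eq_left (by linarith : 0 ≤ -u)]; ring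
    rw [h3, w_mul_exp, sub_neg_eq_add]
  refine (hk.int_bound (f := fun u => k u * Real.exp (κ * u)) (a' := a - κ) (b' := b + κ)
    (D := Real.exp |κ|) (E := C) (by linarith)
    (by linarith) (Real.exp_pos _).le hC
    ((hk.meas.mul (by fun_prop)).aestronglyMeasurable) ?_ ?_).1
  · intro u hu
    rw [abs_mul, abs_of_pos (Real.exp_pos _), mul_comm]
    refine mul_le_mul_of_nonneg_right (Real.exp_le_exp.2 ?_) (abs_nonneg _)
    calc κ * u ≤ |κ * u| := le_abs_self _
      _ = |κ| * |u| := abs_mul _ _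
      _ ≤ |κ| * 1 := mul_le_mul_of_nonneg_left (abs_le.2 hu) (abs_nonneg _)
      _ = |κ| := mul_one _
  · intro u hu
    rw [abs_mul, abs_of_pos (Real.exp_pos _), ← hw, ← mul_assoc]
    exact mul_le_mul_of_nonneg_right (hk.abs_out hu) (Real.exp_pos _).le

lemma Kern.integrable (hk : Kern a b C k) (ha : 0 < a) (hb : 0 < b) : Integrable k := by
  have h := hk.integrable_exp (κ := 0) (by linarith) ha
  simpa using h

lemma Kern.int_abs_le (hk : Kern a b C k) (ha : 0 < a) (hb : 0 < b) :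
    ∫ u, |k u| ≤ C * (1 + 1 / a + 1 / b) := by
  have h := (hk.int_bound (f := k) (D := 1) (E := C) ha hb zero_le_one hk.nonnegC
    hk.meas.aestronglyMeasurable (fun u _ => by rw [one_mul]) (fun u hu => hk.abs_out hu)).2
  linarith

lemma Kern.integrable_sub (hk : Kern a b C k) (ha : 0 < a) (hb : 0 < b) (x : ℝ) :
    Integrable (fun y => k (x - y)) :=
  (hk.integrable ha hb).comp_sub_left x

lemma Kern.unit_gen (hk : Kern a b C k) (ha : 0 < a) (hb : 0 < b) (ha1 : a ≤ 1) (hb1 : b ≤ 1)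
    (v₀ v₁ : ℝ) (h : ∀ v ∈ Icc v₀ (v₀ + 1), |v - v₁| ≤ 1) :
    ∫ v in Icc v₀ (v₀ + 1), |k v| ≤ 11 * C * w a b v₁ := by
  have hC := hk.nonnegC
  have hw := w_pos a b v₁
  have hi1 : Integrable ((Icc (-1 : ℝ) 1).indicator (fun v => |k v|)) := by
    rw [integrable_indicator_iff measurableSet_Icc]
    exact hk.int.abs
  have he1 : Real.exp 1 ≤ 2.7182818286 := Real.exp_one_lt_d9.le
  have hE : 0 < Real.exp 1 := Real.exp_pos 1
  have he2 : Real.exp 2 ≤ 8 := by
    have h4 : Real.exp 2 = Real.exp 1 * Real.exp 1 := by rw [← Real.exp_add]; norm_num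
    rw [h4]
    nlinarith
  have hci : Integrable (fun _ : ℝ => C * (Real.exp 1 * w a b v₁))
      (volume.restrict (Icc v₀ (v₀ + 1))) := integrable_const _
  have h1 : ∫ v in Icc v₀ (v₀ + 1), |k v| ≤
      ∫ v in Icc v₀ (v₀ + 1), (C * (Real.exp 1 * w a b v₁) +
        (Icc (-1 : ℝ) 1).indicator (fun v => |k v|) v) := by
    refine setIntegral_mono_on (hk.integrable ha hb).abs.integrableOn ?_ measurableSet_Icc ?_
    · exact hci.add hi1.integrableOn
    · intro v hv
      by_cases hv1 : v ∈ Icc (-1 : ℝ) 1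
      · rw [indicator_of_mem hv1]
        have : 0 ≤ C * (Real.exp 1 * w a b v₁) := by positivity
        linarith
      · rw [indicator_of_notMem hv1, add_zero]
        refine (hk.abs_out hv1).trans (mul_le_mul_of_nonneg_left ?_ hC)
        have h5 := w_shift ha.le hb.le ha1 hb1 v₁ (v - v₁)
        rw [add_sub_cancel] at h5
        exact h5.trans (mul_le_mul_of_nonneg_right (Real.exp_le_exp.2 (h v hv)) hw.le)
  have h2 : ∫ v in Icc v₀ (v₀ + 1), (C * (Real.exp 1 * w a b v₁) +
        (Icc (-1 : ℝ) 1).indicator (fun v => |k v|) v) = C * (Real.exp 1 * w a b v₁) +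
        ∫ v in Icc v₀ (v₀ + 1), (Icc (-1 : ℝ) 1).indicator (fun v => |k v|) v := by
    rw [integral_add hci hi1.integrableOn, setIntegral_const]
    simp
  have h3 : ∫ v in Icc v₀ (v₀ + 1), (Icc (-1 : ℝ) 1).indicator (fun v => |k v|) v ≤
      C * (Real.exp 2 * w a b v₁) := by
    by_cases hv2 : |v₁| ≤ 2
    · calc ∫ v in Icc v₀ (v₀ + 1), (Icc (-1 : ℝ) 1).indicator (fun v => |k v|) v
          ≤ ∫ v, (Icc (-1 : ℝ) 1).indicator (fun v => |k v|) v :=
            setIntegral_le_integral hi1 (Eventually.of_forall (fun v =>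
              indicator_nonneg (fun _ _ => abs_nonneg _) v))
        _ = ∫ v in Icc (-1 : ℝ) 1, |k v| := integral_indicator measurableSet_Icc
        _ ≤ C := hk.loc
        _ = C * 1 := (mul_one C).symm
        _ ≤ C * (Real.exp 2 * w a b v₁) := by
            refine mul_le_mul_of_nonneg_left ?_ hC
            have h5 := w_shift_ge ha.le hb.le ha1 hb1 0 v₁
            rw [zero_add, w_nonneg_eq le_rfl, mul_zero, neg_zero, Real.exp_zero, mul_one] at h5
            calc (1 : ℝ) = Real.exp 2 * Real.exp (-2) := by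
                  rw [← Real.exp_add]; norm_num
              _ ≤ Real.exp 2 * w a b v₁ := by
                  refine mul_le_mul_of_nonneg_left (le_trans (Real.exp_le_exp.2 ?_) h5)
                    (Real.exp_pos _).le
                  linarith
    · have hz : ∫ v in Icc v₀ (v₀ + 1), (Icc (-1 : ℝ) 1).indicator (fun v => |k v|) v = 0 := by
        rw [setIntegral_congr_fun (g := fun _ => (0 : ℝ)) measurableSet_Icc]
        · simp
        · intro v hv
          refine indicator_of_notMem (fun hv1 => hv2 ?_) _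
          have h6 := abs_le.1 (h v hv)
          rw [abs_le]
          constructor <;> linarith [hv1.1, hv1.2, h6.1, h6.2]
      rw [hz]
      positivity
  have h7 : 0 ≤ C * w a b v₁ := mul_nonneg hC hw.le
  calc ∫ v in Icc v₀ (v₀ + 1), |k v| ≤ C * (Real.exp 1 * w a b v₁) +
        C * (Real.exp 2 * w a b v₁) := by linarith
    _ = (Real.exp 1 + Real.exp 2) * (C * w a b v₁) := by ring
    _ ≤ 11 * (C * w a b v₁) := mul_le_mul_of_nonneg_right (by linarith) h7
    _ = 11 * C * w a b v₁ := by ring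

lemma Kern.unit_le (hk : Kern a b C k) (ha : 0 < a) (hb : 0 < b) (ha1 : a ≤ 1) (hb1 : b ≤ 1)
    (α y : ℝ) : ∫ x in Icc α (α + 1), |k (x - y)| ≤ 11 * C * w a b (α - y) := by
  have h1 : ∫ x in Icc α (α + 1), |k (x - y)| = ∫ v in Icc (α - y) (α - y + 1), |k v| := by
    rw [integral_Icc_eq_integral_Ioc, integral_Icc_eq_integral_Ioc,
      ← intervalIntegral.integral_of_le (by linarith), ← intervalIntegral.integral_of_le
      (by linarith), intervalIntegral.integral_comp_sub_right (fun v => |k v|) y]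
    congr 1
    ring
  rw [h1]
  refine hk.unit_gen ha hb ha1 hb1 _ _ (fun v hv => ?_)
  rw [abs_le]
  constructor <;> linarith [hv.1, hv.2]

lemma Kern.unit_le' (hk : Kern a b C k) (ha : 0 < a) (hb : 0 < b) (ha1 : a ≤ 1) (hb1 : b ≤ 1)
    (α x : ℝ) : ∫ y in Icc α (α + 1), |k (x - y)| ≤ 31 * C * w a b (x - α) := by
  have h1 : ∫ y in Icc α (α + 1), |k (x - y)| =
      ∫ v in Icc (x - α - 1) (x - α - 1 + 1), |k v| := by
    rw [integral_Icc_eq_integral_Ioc, integral_Icc_eq_integral_Ioc,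
      ← intervalIntegral.integral_of_le (by linarith), ← intervalIntegral.integral_of_le
      (by linarith), intervalIntegral.integral_comp_sub_left (fun v => |k v|) x]
    congr 1 <;> ring
  rw [h1]
  have hCw : 0 ≤ C * w a b (x - α) := mul_nonneg hk.nonnegC (w_pos a b (x - α)).le
  refine (hk.unit_gen ha hb ha1 hb1 _ (x - α) (fun v hv => ?_)).trans (by linarith)
  rw [abs_le]
  constructor <;> linarith [hv.1, hv.2]

lemma Kern.aux_of_le (hk : Kern a b C k) {κ μ : ℝ} (hκ : 0 ≤ κ) (hκb : κ < b)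
    (hμ : 0 ≤ μ) (hμa : μ < a) {N : ℝ → ℝ} (hN : Measurable N) {x B : ℝ}
    (h : ∀ y, |N y| ≤ B * Real.exp (κ * max (y - x) 0 + μ * max (x - y) 0)) :
    Integrable (fun u => k u * N (x - u)) ∧ ∫ u, |k u * N (x - u)| ≤
      B * Real.exp (max κ μ) * C + C * B * (1 / (a - μ) + 1 / (b - κ)) := by
  have hC := hk.nonnegC
  have hB : 0 ≤ B := by
    have h1 := h x
    simp only [sub_self, max_self, mul_zero, add_zero, Real.exp_zero, mul_one] at h1
    exact (abs_nonneg _).trans h1
  have h' : ∀ u, |N (x - u)| ≤ B * Real.exp (κ * max (-u) 0 + μ * max u 0) := by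
    intro u
    have h2 := h (x - u)
    rwa [show x - u - x = -u by ring, show x - (x - u) = u by ring] at h2
  refine hk.int_bound (f := fun u => k u * N (x - u)) (a' := a - μ) (b' := b - κ)
    (D := B * Real.exp (max κ μ)) (E := C * B)
    (by linarith) (by linarith) (by positivity) (by positivity)
    ((hk.meas.mul (hN.comp (measurable_const.sub measurable_id))).aestronglyMeasurable) ?_ ?_
  · intro u hu
    rw [abs_mul, mul_comm]
    refine mul_le_mul_of_nonneg_right ((h' u).trans ?_) (abs_nonneg _)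
    refine mul_le_mul_of_nonneg_left (Real.exp_le_exp.2 ?_) hB
    rcases le_total 0 u with h0 | h0
    · rw [max_eq_left h0, max_eq_right (by linarith : -u ≤ 0)]
      have h3 : μ * u ≤ μ * 1 := mul_le_mul_of_nonneg_left hu.2 hμ
      linarith [le_max_right κ μ]
    · rw [max_eq_right h0, max_eq_left (by linarith : 0 ≤ -u)]
      have h3 : κ * (-u) ≤ κ * 1 := mul_le_mul_of_nonneg_left (by linarith [hu.1]) hκ
      linarith [le_max_left κ μ]
  · intro u hu
    rw [abs_mul]
    calc |k u| * |N (x - u)| ≤ (C * w a b u) * (B * Real.exp (κ * max (-u) 0 + μ * max u 0)) :=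
          mul_le_mul (hk.abs_out hu) (h' u) (abs_nonneg _)
            (mul_nonneg hC (w_pos a b u).le)
      _ = C * B * (w a b u * Real.exp (κ * max (-u) 0 + μ * max u 0)) := by ring
      _ = C * B * w (a - μ) (b - κ) u := by rw [w_mul_exp]

lemma Kern.integrable_mul_of_le (hk : Kern a b C k) {κ μ : ℝ} (hκ : 0 ≤ κ) (hκb : κ < b)
    (hμ : 0 ≤ μ) (hμa : μ < a) {N : ℝ → ℝ} (hN : Measurable N) {x B : ℝ}
    (h : ∀ y, |N y| ≤ B * Real.exp (κ * max (y - x) 0 + μ * max (x - y) 0)) :
    Integrable (fun y => k (x - y) * N y) := by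
  have h1 := ((hk.aux_of_le hκ hκb hμ hμa hN h).1).comp_sub_left x
  simpa using h1

lemma U_eq (k N : ℝ → ℝ) (x : ℝ) : U k N x = ∫ u, k u * N (x - u) := by
  rw [U, ← integral_sub_left_eq_self (fun u => k u * N (x - u)) volume x]
  simp

lemma Kern.U_abs_le (hk : Kern a b C k) (ha1 : a ≤ 1) (hb1 : b ≤ 1) {κ μ : ℝ} (hκ : 0 ≤ κ)
    (hκb : κ < b) (hμ : 0 ≤ μ) (hμa : μ < a) {N : ℝ → ℝ} (hN : Measurable N) {x B : ℝ} (hB : 0 ≤ B)
    (h : ∀ y, |N y| ≤ B * Real.exp (κ * max (y - x) 0 + μ * max (x - y) 0)) :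
    |U k N x| ≤ C * (3 + 1 / (b - κ) + 1 / (a - μ)) * B := by
  have hC := hk.nonnegC
  rw [U_eq]
  have h1 := (hk.aux_of_le hκ hκb hμ hμa hN h).2
  have h2 : Real.exp (max κ μ) ≤ 3 := by
    have h3 : Real.exp (max κ μ) ≤ Real.exp 1 :=
      Real.exp_le_exp.2 (max_le (by linarith) (by linarith))
    linarith [Real.exp_one_lt_d9]
  have h4 : B * Real.exp (max κ μ) * C ≤ B * 3 * C :=
    mul_le_mul_of_nonneg_right (mul_le_mul_of_nonneg_left h2 hB) hC
  calc |∫ u, k u * N (x - u)| ≤ ∫ u, |k u * N (x - u)| := abs_integral_le_integral_abs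
    _ ≤ _ := h1
    _ ≤ B * 3 * C + C * B * (1 / (a - μ) + 1 / (b - κ)) := by linarith
    _ = _ := by ring

lemma exp_lin {κ t : ℝ} (hκ : 0 < κ) (ht : 0 ≤ t) : 1 + t ≤ (1 + 1 / κ) * Real.exp (κ * t) := by
  have h1 : 1 ≤ Real.exp (κ * t) := Real.one_le_exp (by positivity)
  have h2 : κ * t ≤ Real.exp (κ * t) := by linarith [Real.add_one_le_exp (κ * t)]
  have h3 : t ≤ 1 / κ * Real.exp (κ * t) := by
    rw [div_mul_eq_mul_div, one_mul, le_div_iff₀ hκ]
    linarith
  linarith

lemma lin_exp_bound {κ K x : ℝ} (hκ : 0 < κ) (hK : 0 ≤ K) {N : ℝ → ℝ}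
    (hN : ∀ y, |N y| ≤ K * (1 + |y|)) (y : ℝ) :
    |N y| ≤ (K * (1 + |x|) * (1 + 1 / κ)) *
      Real.exp (κ * max (y - x) 0 + κ * max (x - y) 0) := by
  have h1 : κ * max (y - x) 0 + κ * max (x - y) 0 = κ * |y - x| := by
    rcases le_total 0 (y - x) with h | h
    · rw [max_eq_left h, max_eq_right (by linarith : x - y ≤ 0), abs_of_nonneg h]; ring
    · rw [max_eq_right h, max_eq_left (by linarith : 0 ≤ x - y), abs_of_nonpos h]; ring
  rw [h1]
  have h2 : 1 + |y| ≤ (1 + |x|) * (1 + |y - x|) := by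
    have h3 : |y| ≤ |y - x| + |x| := by
      calc |y| = |(y - x) + x| := by ring_nf
        _ ≤ _ := abs_add_le _ _
    have h4 : 0 ≤ |x| * |y - x| := by positivity
    linarith
  have h5 := exp_lin hκ (abs_nonneg (y - x))
  calc |N y| ≤ K * (1 + |y|) := hN y
    _ ≤ K * ((1 + |x|) * ((1 + 1 / κ) * Real.exp (κ * |y - x|))) := by
        refine mul_le_mul_of_nonneg_left (h2.trans ?_) hK
        exact mul_le_mul_of_nonneg_left h5 (by positivity)
    _ = _ := by ring

lemma Kern.integrable_lin (hk : Kern a b C k) (ha : 0 < a) (hb : 0 < b) {N : ℝ → ℝ}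
    (hN : Measurable N) (hl : Lin N) (x : ℝ) : Integrable (fun y => k (x - y) * N y) := by
  obtain ⟨K, hK, hl⟩ := hl
  have hm : 0 < min a b := lt_min ha hb
  have hκ : 0 < min a b / 2 := by positivity
  have h1 : min a b / 2 < a := by linarith [min_le_left a b]
  have h2 : min a b / 2 < b := by linarith [min_le_right a b]
  exact hk.integrable_mul_of_le hκ.le h2 hκ.le h1 hN (fun y => lin_exp_bound hκ hK hl y)

lemma Kern.integrable_lin' (hk : Kern a b C k) (ha : 0 < a) (hb : 0 < b) {N : ℝ → ℝ}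
    (hN : Measurable N) (hl : Lin N) (x : ℝ) : Integrable (fun u => k u * N (x - u)) := by
  have h := (hk.integrable_lin ha hb hN hl x).comp_sub_left x
  simpa using h

lemma Kern.continuous_U (hk : Kern a b C k) (ha : 0 < a) (hb : 0 < b) {N : ℝ → ℝ}
    (hN : Continuous N) (hl : Lin N) : Continuous (U k N) := by
  obtain ⟨K, hK, hl⟩ := hl
  have hU : U k N = fun x => ∫ u, k u * N (x - u) := funext (fun x => U_eq k N x)
  rw [hU, continuous_iff_continuousAt]
  intro x₀
  have hint : Integrable (fun u => k u * (K * (2 + |x₀| + |u|))) := by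
    have h1 : Integrable (fun u => k u * (K * (2 + |x₀| + |0 - u|))) := by
      refine hk.integrable_lin' ha hb (N := fun y => K * (2 + |x₀| + |y|))
        (by fun_prop) ⟨K * (2 + |x₀|), by positivity, fun y => ?_⟩ 0
      rw [abs_of_nonneg (by positivity), mul_assoc]
      refine mul_le_mul_of_nonneg_left ?_ hK
      have h2 : 0 ≤ (1 + |x₀|) * |y| := by positivity
      linarith
    simpa using h1
  refine continuousAt_of_dominated (bound := fun u => |k u * (K * (2 + |x₀| + |u|))|) ?_ ?_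
    hint.abs ?_
  · exact Eventually.of_forall (fun x => (hk.meas.mul
      (hN.measurable.comp (measurable_const.sub measurable_id))).aestronglyMeasurable)
  · have h1 : ∀ᶠ x in 𝓝 x₀, |x - x₀| < 1 := by
      have := Metric.ball_mem_nhds x₀ (zero_lt_one' ℝ)
      filter_upwards [this] with x hx
      rwa [Metric.mem_ball, Real.dist_eq] at hx
    filter_upwards [h1] with x hx
    refine Eventually.of_forall (fun u => ?_)
    rw [Real.norm_eq_abs, abs_mul, abs_mul]
    refine mul_le_mul_of_nonneg_left ?_ (abs_nonneg _)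
    rw [abs_of_nonneg (by positivity : 0 ≤ K * (2 + |x₀| + |u|))]
    refine (hl _).trans (mul_le_mul_of_nonneg_left ?_ hK)
    have h2 : |x - u| ≤ |x - x₀| + |x₀| + |u| := by
      calc |x - u| = |(x - x₀) + x₀ + (-u)| := by ring_nf
        _ ≤ |x - x₀| + |x₀| + |-u| := abs_add_three _ _ _
        _ = _ := by rw [abs_neg]
    linarith
  · exact Eventually.of_forall (fun u => by fun_prop)

lemma Kern.tendsto_U (hk : Kern a b C k) (ha : 0 < a) (hb : 0 < b) {N : ℝ → ℝ}
    (hN : Continuous N) {A B : ℝ} (hs : ∀ y, y ≤ A ∨ B ≤ y → N y = 0) :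
    Tendsto (U k N) atTop (𝓝 0) ∧ Tendsto (U k N) atBot (𝓝 0) := by
  have hU : U k N = fun x => ∫ u, k u * N (x - u) := funext (fun x => U_eq k N x)
  obtain ⟨R, hR⟩ : ∃ R, ∀ y, |N y| ≤ R := by
    obtain ⟨R, hR⟩ := (isCompact_Icc (a := A) (b := B)).exists_bound_of_continuousOn
      hN.continuousOn
    refine ⟨max R 0, fun y => ?_⟩
    by_cases hy : y ∈ Icc A B
    · exact (hR y hy).trans (le_max_left _ _)
    · have : N y = 0 := by
        apply hs
        by_contra h
        push Not at h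
        exact hy ⟨h.1.le, h.2.le⟩
      rw [this, abs_zero]
      exact le_max_right _ _
  have key : ∀ l : Filter ℝ, l.IsCountablyGenerated → (∀ u, ∀ᶠ x in l, N (x - u) = 0) →
      Tendsto (U k N) l (𝓝 0) := by
    intro l hl hz
    rw [hU]
    have h0 : (0 : ℝ) = ∫ u : ℝ, (0 : ℝ) := by simp
    rw [h0]
    refine tendsto_integral_filter_of_dominated_convergence (fun u => |k u| * R) ?_ ?_
      ((hk.integrable ha hb).abs.mul_const R) ?_
    · exact Eventually.of_forall (fun x => (hk.meas.mul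
        (hN.measurable.comp (measurable_const.sub measurable_id))).aestronglyMeasurable)
    · refine Eventually.of_forall (fun x => Eventually.of_forall (fun u => ?_))
      rw [Real.norm_eq_abs, abs_mul]
      exact mul_le_mul_of_nonneg_left (hR _) (abs_nonneg _)
    · refine Eventually.of_forall (fun u => ?_)
      refine tendsto_const_nhds.congr' ?_
      filter_upwards [hz u] with x hx
      rw [hx, mul_zero]
  constructor
  · refine key atTop inferInstance (fun u => ?_)
    filter_upwards [eventually_ge_atTop (B + u)] with x hx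
    exact hs _ (Or.inr (by linarith))
  · refine key atBot inferInstance (fun u => ?_)
    filter_upwards [eventually_le_atBot (A + u)] with x hx
    exact hs _ (Or.inl (by linarith))

lemma U_add (hk : Kern a b C k) (ha : 0 < a) (hb : 0 < b) {N N' : ℝ → ℝ}
    (hN : Measurable N) (hl : Lin N) (hN' : Measurable N') (hl' : Lin N') (x : ℝ) :
    U k (fun y => N y + N' y) x = U k N x + U k N' x := by
  rw [U, U, U, ← integral_add (hk.integrable_lin ha hb hN hl x)
    (hk.integrable_lin ha hb hN' hl' x)]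
  congr 1
  ext y
  ring

lemma U_smul (k N : ℝ → ℝ) (r x : ℝ) : U k (fun y => r * N y) x = r * U k N x := by
  rw [U, U, ← integral_const_mul]
  congr 1
  ext y
  ring

lemma lin_of_dec_gro {μ κ : ℝ} {N : ℝ → ℝ} (hN : ∀ y, 0 ≤ N y) (hd : Dec μ N) (hg : Gro κ N)
    (hμ : 0 ≤ μ) (hκ : 0 ≤ κ) (x y : ℝ) :
    |N y| ≤ N x * Real.exp (κ * max (y - x) 0 + μ * max (x - y) 0) := by
  rw [abs_of_nonneg (hN y)]
  rcases le_total x y with h | h
  · rw [max_eq_left (by linarith : 0 ≤ y - x), max_eq_right (by linarith : x - y ≤ 0), mul_zero,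
      add_zero]
    exact hg x y h
  · rw [max_eq_right (by linarith : y - x ≤ 0), max_eq_left (by linarith : 0 ≤ x - y), mul_zero,
      zero_add]
    have h1 := hd y x h
    calc N y = N y * Real.exp (-(μ * (x - y))) * Real.exp (μ * (x - y)) := by
          rw [mul_assoc, ← Real.exp_add]; simp
      _ ≤ N x * Real.exp (μ * (x - y)) :=
          mul_le_mul_of_nonneg_right h1 (Real.exp_pos _).le

end INDB
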