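import Pool.Agent.INDB.CatG
import Pool.Agent.INDB.KernB

/-!
# INDB, module CatE: the potentials of the global density are close to those of the windows

PROOF. `g = min a b`. `far_mass`: if `D` vanishes for `|x-y| < 1`, is locally integrable and `∫_{[m,m+1]} |D| ≤ A_m` for integers `m`, then `∫ |k(x-y)| |D y| dy ≤ C ∑_m e · e^{-g |x-m|} A_m` (`|k u| ≤ C w u ≤ C e^{-g|u|}` for `|u| ≥ 1`).
Let `i` be large, `x ∈ [3 X_i/4, 3 X_{i+1}/4]`, `Mf y = N i (y - X i)` (model), `D = Nf - Mf`. By `local_eq` (with `j = i-1`) `D y = 0` for `r ≤ y < q (i+1)`, `r = X (i-1) + L (i-1) ≤ X_i/8`; `q (i+1) ≥ (15/16) X_{i+1}`. So `D y ≠ 0` implies `y < X_i/8` (then `x - y ≥ X_i/2`) or `y ≥ (15/16) X_{i+1}` (then `y - x ≥ X_{i+1}/8`, `y - x ≥ y/8`).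
Left part: `|D y| ≤ Nf y + be i * max y (c0 i)`; `∫_{[m,m+1]} Nf ≤ C e^{g m/8}` for `m ≥ 0` (`glob_mass`), zero for `m ≤ -1`; `be i ≤ exp (X (i-1)/i)` (`sm (i-1)`), `max y (c0 i) ≤ X_i` for `y ≤ r` : contribution `≤ C' e^{g X_i/64} X_i e^{-g X_i/2}`-like, tends to `0`. (`∫_{y ≤ r} e^{-g(x-y)} dy ≤ e^{-g X_i/2}/g`.)
Right part: `|D y| ≤ Nf y + be (i+1) y`, `be (i+1) ≤ exp (X_i/(i+1))`; `∫_{[m,m+1]} ≤ C e^{g m/16}` for large `i`; weight `e^{-g (m - x) + g} ≤ e^{g} e^{-g m/8}`: the sum over `m ≥ (15/16) X_{i+1} - 1` tends to `0`. Both `Nf` and `Mf` are integrable against `k(x-·)` (growth, local boundedness), so `U k Nf x - U k (N i) (x - X i) = ∫ k(x-y) D y dy`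
(`U k (N i) (x - X i) = ∫ k(x - X i - y) N i y dy = ∫ k(x-y) N i (y - X i) dy`).
-/

open MeasureTheory Set Filter Topology

namespace INDB

variable {X be c0 L Q : ℕ → ℝ} {N : ℕ → ℝ → ℝ}

private lemma ce_lin {ε : ℝ} (hε : 0 < ε) (y : ℝ) : y ≤ 1 / ε * Real.exp (ε * y) := by
  have h1 := Real.add_one_le_exp (ε * y)
  rw [one_div, inv_mul_eq_div, le_div_iff₀ hε]
  linarith

private lemma ce_bdd (h : Chain X be c0 L Q N) {Nf : ℝ → ℝ} (hg : Glob X be L N Nf) (b : ℝ) :
    ∃ R : ℝ, 0 ≤ R ∧ ∀ y, y ≤ b → Nf y ≤ R := by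
  obtain ⟨C, hC⟩ := glob_sup h hg 1 one_pos
  refine ⟨Real.exp (|C| * Real.exp (1 * b)), (Real.exp_pos _).le, fun y hy => ?_⟩
  rcases le_total y 0 with h1 | h1
  · rw [hg.zero y h1]
    exact (Real.exp_pos _).le
  · refine (hC y h1).trans (Real.exp_le_exp.mpr ?_)
    exact mul_le_mul (le_abs_self C) (Real.exp_le_exp.mpr (by linarith)) (Real.exp_pos _).le
      (abs_nonneg C)

private lemma ce_w {a b : ℝ} (u : ℝ) : w a b u ≤ Real.exp (-(min a b * |u|)) := by
  rcases le_total 0 u with h | h
  · rw [w_nonneg_eq h, abs_of_nonneg h]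
    exact Real.exp_le_exp.mpr (neg_le_neg (mul_le_mul_of_nonneg_right (min_le_left a b) h))
  · rw [w_nonpos_eq h, abs_of_nonpos h]
    refine Real.exp_le_exp.mpr ?_
    have := mul_le_mul_of_nonneg_right (min_le_right a b) (neg_nonneg.mpr h)
    linarith

/-- the weighted density is integrable -/
private lemma ce_int (h : Chain X be c0 L Q N) {Nf : ℝ → ℝ} (hg : Glob X be L N Nf) {η : ℝ}
    (hη : 0 < η) : Integrable (fun y => Real.exp (-(η * |y|)) * (Nf y + 1)) := by
  obtain ⟨A, hA0, hA⟩ := glob_mass h hg (η / 2) (half_pos hη)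
  have hmeas : Measurable (fun y => Real.exp (-(η * y)) * Nf y) := by
    have := hg.meas
    fun_prop
  have hnn : ∀ y, 0 ≤ Real.exp (-(η * y)) * Nf y := fun y =>
    mul_nonneg (Real.exp_pos _).le (hg.nn y)
  have hIoc : ∀ a' b' : ℝ, 0 ≤ a' → IntegrableOn (fun y => Real.exp (-(η * y)) * Nf y)
      (Ioc a' b') := by
    intro a' b' ha'
    obtain ⟨R, hR0, hR⟩ := ce_bdd h hg b'
    refine Measure.integrableOn_of_bounded (M := R) (by simp) hmeas.aestronglyMeasurable ?_
    refine (ae_restrict_iff' measurableSet_Ioc).mpr (Eventually.of_forall fun t ht => ?_)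
    rw [Real.norm_of_nonneg (hnn t)]
    have h1 : Real.exp (-(η * t)) ≤ 1 := by
      rw [Real.exp_le_one_iff, neg_nonpos]
      exact mul_nonneg hη.le (ha'.trans ht.1.le)
    calc Real.exp (-(η * t)) * Nf t ≤ 1 * Nf t := mul_le_mul_of_nonneg_right h1 (hg.nn t)
      _ ≤ R := by rw [one_mul]; exact hR t ht.2
  set r : ℝ := Real.exp (-(η / 2)) with hr
  have hr0 : 0 < r := Real.exp_pos _
  have hr1 : r < 1 := by
    rw [hr, Real.exp_lt_one_iff]
    linarith
  have hmain : IntegrableOn (fun y => Real.exp (-(η * y)) * Nf y) (Ioi 0) := by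
    refine integrableOn_Ioi_of_intervalIntegral_norm_bounded (l := atTop)
      (b := fun n : ℕ => (n : ℝ)) (A * (1 - r)⁻¹) 0 (fun n => hIoc 0 n le_rfl)
      tendsto_natCast_atTop_atTop (Eventually.of_forall fun n => ?_)
    have hII : ∀ m : ℕ, IntervalIntegrable (fun y => ‖Real.exp (-(η * y)) * Nf y‖) volume
        ((m : ℕ) : ℝ) ((m + 1 : ℕ) : ℝ) := by
      intro m
      rw [intervalIntegrable_iff_integrableOn_Ioc_of_le (by push_cast; linarith)]
      exact (hIoc _ _ (Nat.cast_nonneg m)).norm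
    have hsum := intervalIntegral.sum_integral_adjacent_intervals (n := n)
      (a := fun m : ℕ => (m : ℝ)) (f := fun y => ‖Real.exp (-(η * y)) * Nf y‖) (μ := volume)
      (fun m _ => hII m)
    rw [Nat.cast_zero] at hsum
    rw [← hsum]
    have hterm : ∀ m ∈ Finset.range n, ∫ y in ((m : ℕ) : ℝ)..((m + 1 : ℕ) : ℝ),
        ‖Real.exp (-(η * y)) * Nf y‖ ≤ A * r ^ m := by
      intro m _
      have hm0 : (0 : ℝ) ≤ m := Nat.cast_nonneg m
      rw [intervalIntegral.integral_of_le (by push_cast; linarith),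
        ← integral_Icc_eq_integral_Ioc]
      push_cast
      obtain ⟨hi1, hi2⟩ := hA m hm0
      calc ∫ y in Icc (m : ℝ) (m + 1), ‖Real.exp (-(η * y)) * Nf y‖
          ≤ ∫ y in Icc (m : ℝ) (m + 1), Real.exp (-(η * m)) * Nf y := by
            refine setIntegral_mono_on ?_ (hi1.const_mul _) measurableSet_Icc fun y hy => ?_
            · have h5 : IntegrableOn (fun y => ‖Real.exp (-(η * y)) * Nf y‖)
                  (Ioc (m : ℝ) (m + 1)) := (hIoc m (m + 1) hm0).norm
              rw [IntegrableOn, ← restrict_Ioc_eq_restrict_Icc]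
              exact h5
            · rw [Real.norm_of_nonneg (hnn y)]
              refine mul_le_mul_of_nonneg_right (Real.exp_le_exp.mpr (neg_le_neg ?_)) (hg.nn y)
              exact mul_le_mul_of_nonneg_left hy.1 hη.le
        _ = Real.exp (-(η * m)) * ∫ y in Icc (m : ℝ) (m + 1), Nf y := integral_const_mul _ _
        _ ≤ Real.exp (-(η * m)) * (A * Real.exp (η / 2 * m)) :=
            mul_le_mul_of_nonneg_left hi2 (Real.exp_pos _).le
        _ = A * r ^ m := by
            rw [hr, ← Real.exp_nat_mul, mul_left_comm, ← Real.exp_add]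
            congr 2
            ring
    refine (Finset.sum_le_sum hterm).trans ?_
    rw [← Finset.mul_sum]
    refine mul_le_mul_of_nonneg_left ?_ hA0
    rw [← tsum_geometric_of_lt_one hr0.le hr1]
    exact (summable_geometric_of_lt_one hr0.le hr1).sum_le_tsum _
      (fun m _ => pow_nonneg hr0.le m)
  have h2 : Integrable (indicator (Ioi 0) (fun y => Real.exp (-(η * y)) * Nf y)) :=
    (integrable_indicator_iff measurableSet_Ioi).mpr hmain
  refine (h2.add (integrable_w hη hη)).congr (Eventually.of_forall fun y => ?_)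
  change indicator (Ioi 0) (fun y => Real.exp (-(η * y)) * Nf y) y + w η η y =
    Real.exp (-(η * |y|)) * (Nf y + 1)
  rcases le_or_gt y 0 with h3 | h3
  · rw [indicator_of_notMem (by simpa using h3), w_nonpos_eq h3, hg.zero y h3, abs_of_nonpos h3,
      zero_add, zero_add, mul_one]
    congr 1
    ring
  · rw [indicator_of_mem (mem_Ioi.mpr h3), w_nonneg_eq h3.le, abs_of_pos h3]
    ring

lemma Glob.integrable_k {a b C : ℝ} {k : ℝ → ℝ} (hk : Kern a b C k) (ha : 0 < a) (hb : 0 < b)
    (h : Chain X be c0 L Q N) {Nf : ℝ → ℝ} (hg : Glob X be L N Nf) (x : ℝ) :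
    Integrable (fun y => k (x - y) * Nf y) := by
  have hC := hk.nonnegC
  have hg0 : 0 < min a b := lt_min ha hb
  obtain ⟨R, hR0, hR⟩ := ce_bdd h hg (x + 1)
  have h1 := ce_int h hg hg0
  have h2 := (hk.integrable_sub ha hb x).abs
  refine ((h2.const_mul R).add (h1.const_mul (C * Real.exp (min a b * |x|)))).mono'
    ((hk.meas.comp (measurable_const.sub measurable_id)).mul hg.meas).aestronglyMeasurable
    (Eventually.of_forall fun y => ?_)
  rw [norm_mul, Real.norm_of_nonneg (hg.nn y), Real.norm_eq_abs]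
  change |k (x - y)| * Nf y ≤ R * |k (x - y)| +
    C * Real.exp (min a b * |x|) * (Real.exp (-(min a b * |y|)) * (Nf y + 1))
  have hn := hg.nn y
  have hp2 : 0 ≤ C * Real.exp (min a b * |x|) * (Real.exp (-(min a b * |y|)) * (Nf y + 1)) := by
    positivity
  have hp1 : 0 ≤ R * |k (x - y)| := mul_nonneg hR0 (abs_nonneg _)
  by_cases hy : x - y ∈ Icc (-1 : ℝ) 1
  · have h3 : Nf y ≤ R := hR y (by linarith [hy.1])
    have h4 : |k (x - y)| * Nf y ≤ R * |k (x - y)| := by
      rw [mul_comm R]
      exact mul_le_mul_of_nonneg_left h3 (abs_nonneg _)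
    linarith
  · have h3 := hk.abs_out hy
    have h4 : |k (x - y)| * Nf y ≤
        C * Real.exp (min a b * |x|) * (Real.exp (-(min a b * |y|)) * (Nf y + 1)) := by
      calc |k (x - y)| * Nf y ≤ (C * Real.exp (-(min a b * |x - y|))) * (Nf y + 1) :=
            mul_le_mul (h3.trans (mul_le_mul_of_nonneg_left (ce_w _) hC)) (by linarith) hn
              (by positivity)
        _ ≤ (C * (Real.exp (min a b * |x|) * Real.exp (-(min a b * |y|)))) * (Nf y + 1) := by
            refine mul_le_mul_of_nonneg_right (mul_le_mul_of_nonneg_left ?_ hC) (by linarith)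
            rw [← Real.exp_add]
            refine Real.exp_le_exp.mpr ?_
            have h5 : |y| ≤ |x| + |x - y| := by
              calc |y| = |x + (-(x - y))| := by ring_nf
                _ ≤ |x| + |-(x - y)| := abs_add_le _ _
                _ = _ := by rw [abs_neg]
            have h6 := mul_le_mul_of_nonneg_left h5 hg0.le
            linarith
        _ = _ := by ring
    linarith

/-- the pointwise bound -/
private lemma ce_pt {a b C : ℝ} {k : ℝ → ℝ} (hk : Kern a b C k) (ha : 0 < a) (hb : 0 < b)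
    (h : Chain X be c0 L Q N) {Nf : ℝ → ℝ} (hg : Glob X be L N Nf) (j : ℕ)
    (hj : 2 ≤ min a b * ((j : ℝ) + 1)) {x : ℝ} (hx1 : 3 * X (j + 1) / 4 ≤ x)
    (hx2 : x ≤ 3 * X (j + 2) / 4) (y : ℝ) :
    |k (x - y) * (Nf y - N (j + 1) (y - X (j + 1)))| ≤
      C * (20 / min a b) * Real.exp (-(min a b * X (j + 1) / 4)) *
        (Real.exp (-(min a b / 20 * |y|)) * (Nf y + 1)) := by
  have hC := hk.nonnegC
  set g := min a b with hgdef
  have hg0 : 0 < g := lt_min ha hb
  have e1 := h.L1 j
  have e2 := h.XL j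
  have e3 := h.XX j
  have e4 := h.XL (j + 1)
  have e5 := h.L1 (j + 1)
  have e6 := h.XX (j + 1)
  have e7 := h.XL (j + 2)
  have e8 := h.L1 (j + 2)
  have e9 := h.Xc j
  have e10 := h.be1 (j + 1)
  have e11 := h.be1 (j + 2)
  have e12 := h.be1 j
  have hQ : ∀ i, 0 ≤ Q i := fun i =>
    le_trans (integral_nonneg fun y => (h.sh i).nn y) (h.sh i).mass
  have hn := hg.nn y
  have e6' : 16 * X (j + 1) ≤ X (j + 2) := e6
  have hj0 : (0 : ℝ) < (j : ℝ) + 1 := by positivity
  rw [abs_mul]
  rcases lt_or_ge y (X j + L j) with hy | hy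
  · -- left part
    have hN0 := (h.sh (j + 1)).nn (y - X (j + 1))
    have hN1 : N (j + 1) (y - X (j + 1)) ≤ be (j + 1) * X (j + 1) := by
      rw [(h.sh (j + 1)).left (y - X (j + 1)) (by linarith), sub_add_cancel]
      refine mul_le_mul_of_nonneg_left (max_le (by linarith) (by linarith)) (by linarith)
    have hbX : 1 ≤ be (j + 1) * X (j + 1) := by (first | linarith | nlinarith)
    have hD : |Nf y - N (j + 1) (y - X (j + 1))| ≤ (Nf y + 1) * (be (j + 1) * X (j + 1)) := by
      rw [abs_le]
      constructor <;> (first | linarith | nlinarith)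
    have hr8 : X j + L j ≤ X (j + 1) / 8 := by linarith
    have hxy : X (j + 1) / 2 + |y| ≤ x - y := by
      rcases le_total 0 y with h1 | h1
      · rw [abs_of_nonneg h1]; linarith
      · rw [abs_of_nonpos h1]; linarith
    have hxy0 : 0 ≤ x - y := by
      have := abs_nonneg y
      linarith
    have hkb : |k (x - y)| ≤ C * Real.exp (-(g * (X (j + 1) / 2 + |y|))) := by
      have h1 : 1 ≤ |x - y| := by
        rw [abs_of_nonneg hxy0]
        have := abs_nonneg y
        linarith
      refine (hk.abs _ h1).trans (mul_le_mul_of_nonneg_left ((ce_w _).trans ?_) hC)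
      rw [abs_of_nonneg hxy0]
      exact Real.exp_le_exp.mpr (neg_le_neg (mul_le_mul_of_nonneg_left hxy hg0.le))
    have hbe : be (j + 1) ≤ Real.exp (g / 16 * X (j + 1)) := by
      have h1 := h.sm j
      have h2 := hQ j
      have h3 : be (j + 1) ≤ Real.exp (X j / ((j : ℝ) + 1)) := by linarith
      refine h3.trans (Real.exp_le_exp.mpr ?_)
      rw [div_le_iff₀ hj0]
      (first | linarith | nlinarith)
    have hX : X (j + 1) ≤ 1 / (g / 16) * Real.exp (g / 16 * X (j + 1)) := ce_lin (by positivity) _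
    calc |k (x - y)| * |Nf y - N (j + 1) (y - X (j + 1))|
        ≤ (C * Real.exp (-(g * (X (j + 1) / 2 + |y|)))) *
          ((Nf y + 1) * (Real.exp (g / 16 * X (j + 1)) *
            (1 / (g / 16) * Real.exp (g / 16 * X (j + 1))))) := by
          refine mul_le_mul hkb (hD.trans ?_) (abs_nonneg _) (by positivity)
          refine mul_le_mul_of_nonneg_left ?_ (by linarith)
          exact mul_le_mul hbe hX (by linarith) (Real.exp_pos _).le
      _ = C * (16 / g) * (Real.exp (-(g * (X (j + 1) / 2 + |y|))) *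
          Real.exp (g / 16 * X (j + 1)) * Real.exp (g / 16 * X (j + 1))) * (Nf y + 1) := by
          field_simp
      _ = C * (16 / g) * Real.exp (-(g * (X (j + 1) / 2 + |y|)) + g / 16 * X (j + 1) +
          g / 16 * X (j + 1)) * (Nf y + 1) := by
          rw [← Real.exp_add, ← Real.exp_add]
      _ ≤ C * (20 / g) * Real.exp (-(g * X (j + 1) / 4) + -(g / 20 * |y|)) * (Nf y + 1) := by
          refine mul_le_mul_of_nonneg_right ?_ (by linarith)
          refine mul_le_mul (mul_le_mul_of_nonneg_left ?_ hC) (Real.exp_le_exp.mpr ?_)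
            (Real.exp_pos _).le (by positivity)
          · exact div_le_div_of_nonneg_right (by norm_num) hg0.le
          · have h1 : 0 ≤ g * |y| := by positivity
            have h2 : 0 ≤ g * X (j + 1) := mul_nonneg hg0.le (by linarith)
            linarith
      _ = _ := by
          rw [Real.exp_add]
          ring
  · rcases lt_or_ge y (X (j + 2) - L (j + 2)) with hy2 | hy2
    · rw [hg.local_eq h j hy hy2, sub_self, abs_zero, mul_zero]
      have h1 : 0 ≤ N (j + 1) (y - X (j + 1)) := (h.sh (j + 1)).nn _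
      positivity
    · -- right part
      have hyX : X (j + 2) ≤ 16 / 15 * y := by linarith
      have hy15 : 15 * X (j + 1) ≤ y := by linarith
      have hN0 := (h.sh (j + 1)).nn (y - X (j + 1))
      have hN1 : N (j + 1) (y - X (j + 1)) = be (j + 2) * y := by
        rw [(h.sh (j + 1)).right (y - X (j + 1)) (by linarith), sub_add_cancel]
      have hy1 : 30 ≤ y := by linarith
      have hbX : 1 ≤ be (j + 2) * y := by (first | linarith | nlinarith)
      have hD : |Nf y - N (j + 1) (y - X (j + 1))| ≤ (Nf y + 1) * (be (j + 2) * y) := by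
        rw [hN1, abs_le]
        constructor <;> (first | linarith | nlinarith)
      have hxy : y / 5 ≤ y - x := by linarith
      have hkb : |k (x - y)| ≤ C * Real.exp (-(g * (y / 5))) := by
        have h0 : |x - y| = y - x := by rw [abs_sub_comm, abs_of_nonneg (by linarith)]
        have h1 : 1 ≤ |x - y| := by rw [h0]; linarith
        refine (hk.abs _ h1).trans (mul_le_mul_of_nonneg_left ((ce_w _).trans ?_) hC)
        rw [h0]
        exact Real.exp_le_exp.mpr (neg_le_neg (mul_le_mul_of_nonneg_left hxy hg0.le))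
      have hbe : be (j + 2) ≤ Real.exp (g / 20 * y) := by
        have h1 := h.sm (j + 1)
        have h2 := hQ (j + 1)
        push_cast at h1
        have h3 : be (j + 2) ≤ Real.exp (X (j + 1) / ((j : ℝ) + 1 + 1)) := by
          have h4 : be (j + 2) = be (j + 1 + 1) := rfl
          rw [h4]
          linarith
        refine h3.trans (Real.exp_le_exp.mpr ?_)
        rw [div_le_iff₀ (by positivity)]
        (first | linarith | nlinarith)
      have hX : y ≤ 1 / (g / 20) * Real.exp (g / 20 * y) := ce_lin (by positivity) _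
      calc |k (x - y)| * |Nf y - N (j + 1) (y - X (j + 1))|
          ≤ (C * Real.exp (-(g * (y / 5)))) *
            ((Nf y + 1) * (Real.exp (g / 20 * y) *
              (1 / (g / 20) * Real.exp (g / 20 * y)))) := by
            refine mul_le_mul hkb (hD.trans ?_) (abs_nonneg _) (by positivity)
            refine mul_le_mul_of_nonneg_left ?_ (by linarith)
            exact mul_le_mul hbe hX (by linarith) (Real.exp_pos _).le
        _ = C * (20 / g) * (Real.exp (-(g * (y / 5))) *
            Real.exp (g / 20 * y) * Real.exp (g / 20 * y)) * (Nf y + 1) := by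
            field_simp
        _ = C * (20 / g) * Real.exp (-(g * (y / 5)) + g / 20 * y + g / 20 * y) * (Nf y + 1) := by
            rw [← Real.exp_add, ← Real.exp_add]
        _ ≤ C * (20 / g) * Real.exp (-(g * X (j + 1) / 4) + -(g / 20 * |y|)) * (Nf y + 1) := by
            refine mul_le_mul_of_nonneg_right ?_ (by linarith)
            refine mul_le_mul_of_nonneg_left (Real.exp_le_exp.mpr ?_) (by positivity)
            rw [abs_of_nonneg (by linarith : 0 ≤ y)]
            have h1 : g * (15 * X (j + 1)) ≤ g * y := mul_le_mul_of_nonneg_left hy15 hg0.le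
            have h2 : 0 ≤ g * X (j + 1) := mul_nonneg hg0.le (by linarith)
            linarith
        _ = _ := by
            rw [Real.exp_add]
            ring

theorem glob_pot {a b C : ℝ} {k : ℝ → ℝ} (hk : Kern a b C k) (ha : 0 < a) (hb : 0 < b)
    (h : Chain X be c0 L Q N) {Nf : ℝ → ℝ} (hg : Glob X be L N Nf) :
    ∀ ε : ℝ, 0 < ε → ∃ i₀ : ℕ, ∀ i, i₀ ≤ i → ∀ x, 3 * X i / 4 ≤ x → x ≤ 3 * X (i + 1) / 4 →
      |U k Nf x - U k (N i) (x - X i)| ≤ ε := by
  intro ε hε
  have hg0 : 0 < min a b := lt_min ha hb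
  have hI := ce_int h hg (show 0 < min a b / 20 by positivity)
  set I : ℝ := ∫ y, Real.exp (-(min a b / 20 * |y|)) * (Nf y + 1) with hIdef
  have hlim : Tendsto (fun i => C * (20 / min a b) * Real.exp (-(min a b * X i / 4)) * I)
      atTop (𝓝 (C * (20 / min a b) * 0 * I)) := by
    refine Tendsto.mul_const _ (Tendsto.const_mul _ ?_)
    refine Real.tendsto_exp_neg_atTop_nhds_zero.comp ?_
    exact (h.tendsto.const_mul_atTop hg0).atTop_div_const (by norm_num)
  rw [mul_zero, zero_mul] at hlim
  have hev := (hlim.eventually (eventually_le_nhds hε)).and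
    ((tendsto_natCast_atTop_atTop (R := ℝ)).eventually (eventually_ge_atTop (2 / min a b)))
  obtain ⟨i₁, hi₁⟩ := eventually_atTop.mp hev
  refine ⟨i₁ + 1, fun i hi x hx1 hx2 => ?_⟩
  obtain ⟨j, rfl⟩ : ∃ j, i = j + 1 := ⟨i - 1, by omega⟩
  obtain ⟨h1, h2⟩ := hi₁ (j + 1) (by omega)
  have hj : 2 ≤ min a b * ((j : ℝ) + 1) := by
    rw [div_le_iff₀ hg0] at h2
    push_cast at h2
    linarith
  have hpt := ce_pt hk ha hb h hg j hj hx1 hx2
  set δ := C * (20 / min a b) * Real.exp (-(min a b * X (j + 1) / 4)) with hδ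
  have hm : Measurable fun y => k (x - y) * (Nf y - N (j + 1) (y - X (j + 1))) :=
    (hk.meas.comp (measurable_const.sub measurable_id)).mul
      (hg.meas.sub ((h.sh (j + 1)).meas.comp (measurable_id.sub_const _)))
  have hD : Integrable (fun y => k (x - y) * (Nf y - N (j + 1) (y - X (j + 1)))) :=
    (hI.const_mul δ).mono' hm.aestronglyMeasurable (Eventually.of_forall fun y => hpt y)
  have h3 := hg.integrable_k hk ha hb h x
  have h4 : Integrable (fun y => k (x - y) * N (j + 1) (y - X (j + 1))) := by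
    refine (h3.sub hD).congr (Eventually.of_forall fun y => ?_)
    change k (x - y) * Nf y - k (x - y) * (Nf y - N (j + 1) (y - X (j + 1))) = _
    ring
  have h5 : U k (N (j + 1)) (x - X (j + 1)) = ∫ y, k (x - y) * N (j + 1) (y - X (j + 1)) := by
    unfold U
    rw [← integral_sub_right_eq_self (fun y => k (x - X (j + 1) - y) * N (j + 1) y) (X (j + 1))]
    refine integral_congr_ae (Eventually.of_forall fun y => ?_)
    change k (x - X (j + 1) - (y - X (j + 1))) * N (j + 1) (y - X (j + 1)) = _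
    congr 2
    ring
  have h6 : U k Nf x - U k (N (j + 1)) (x - X (j + 1)) =
      ∫ y, k (x - y) * (Nf y - N (j + 1) (y - X (j + 1))) := by
    rw [h5]
    unfold U
    rw [← integral_sub h3 h4]
    refine integral_congr_ae (Eventually.of_forall fun y => ?_)
    change k (x - y) * Nf y - k (x - y) * N (j + 1) (y - X (j + 1)) = _
    ring
  rw [h6]
  have h7 := norm_integral_le_of_norm_le
    (f := fun y => k (x - y) * (Nf y - N (j + 1) (y - X (j + 1)))) (hI.const_mul δ)
    (Eventually.of_forall fun y => hpt y)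
  rw [integral_const_mul, Real.norm_eq_abs] at h7
  exact h7.trans h1

end INDB
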