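import Pool.Agent.INDB.CDefs

/-!
# INDB, module SeqC: choice of the chain

PROOF. Recursion: `be 0 = b2 0`; given `be j` and `X (j-1)` (use `1` for `j = 0`) choose `X j` larger than: `X₀ j`, `be j`, `b2 (j+1)`, `16 X (j-1)`, `c0 (j+1)`, `2`, and so large that `16 (CC j log X + 1) ≤ X`, `1 ≤ CC j log X`, `2 exp (CC j log X) + be j ≤ exp (X/(j+1))`
(possible since `log X / X → 0`). Then `hst j` gives `be (j+1) = be'` and `N j`; `be (j+1) ≥ X j ≥ b2 (j+1)`. Formally: a sequence of states `(X_j, be_j, be_{j+1}, N_j)` by `Nat.rec` on a subtype, or `exists_seq_of_forall...`-style dependent choice. `L j = CC j log (X j)`, `Q j = exp (CC j log (X j))`.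
`sm`: `Q j + be j + be (j+1) ≤ 2 exp(CC j log X j) + be j ≤ exp (X j/(j+1))`.
-/

open MeasureTheory Set Filter Topology

namespace INDB

private theorem ev_log {c e : ℝ} (hc : 0 < c) (he : 0 < e) :
    ∀ᶠ X : ℝ in atTop, c * Real.log X ≤ e * X := by
  have h := Real.isLittleO_log_id_atTop.def (c := e / c) (by positivity)
  filter_upwards [h, eventually_ge_atTop 1] with X hX hX1
  rw [Real.norm_eq_abs, Real.norm_eq_abs, id] at hX
  have h1 : Real.log X ≤ e / c * X := by
    have h2 := le_abs_self (Real.log X)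
    rw [abs_of_nonneg (by linarith : 0 ≤ X)] at hX
    linarith
  calc c * Real.log X ≤ c * (e / c * X) := mul_le_mul_of_nonneg_left h1 hc.le
    _ = e * X := by field_simp

theorem exists_chain (P : ℕ → ℝ → ℝ → (ℝ → ℝ) → Prop) (c0 b2 CC X₀ : ℕ → ℝ)
    (hc0 : ∀ j, 1 ≤ c0 j) (hb2 : ∀ j, 1 ≤ b2 j) (hCC : ∀ j, 1 ≤ CC j)
    (hst : ∀ j X be, X₀ j ≤ X → b2 j ≤ be → be ≤ X → ∃ (be' : ℝ) (N : ℝ → ℝ),
      Shape be X (c0 j) be' (CC j * Real.log X) (Real.exp (CC j * Real.log X)) N ∧ X ≤ be' ∧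
      be' ≤ Real.exp (CC j * Real.log X) ∧ P j X be' N) :
    ∃ (X be L Q : ℕ → ℝ) (N : ℕ → ℝ → ℝ), Chain X be c0 L Q N ∧
      ∀ j, P j (X j) (be (j + 1)) (N j) := by
  have key : ∀ (j : ℕ) (be xp : ℝ), ∃ (X be' : ℝ) (N : ℝ → ℝ), b2 j ≤ be →
      (Shape be X (c0 j) be' (CC j * Real.log X) (Real.exp (CC j * Real.log X)) N ∧ X ≤ be' ∧
        P j X be' N) ∧ b2 (j + 1) ≤ X ∧ 16 * xp ≤ X ∧ c0 (j + 1) ≤ X ∧ 1 ≤ CC j * Real.log X ∧
        16 * (CC j * Real.log X + 1) ≤ X ∧
        Real.exp (CC j * Real.log X) + be + be' ≤ Real.exp (X / ((j : ℝ) + 1)) := by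
    intro j be xp
    by_cases hb : b2 j ≤ be
    · have hbe1 : 1 ≤ be := (hb2 j).trans hb
      have hC0 : 0 < CC j := by linarith [hCC j]
      have hj : (0 : ℝ) < (j : ℝ) + 1 := by positivity
      have e1 := ev_log hC0 (show (0 : ℝ) < 1 / 32 by norm_num)
      have e2 := ev_log hC0 (show (0 : ℝ) < 1 / (2 * ((j : ℝ) + 1)) by positivity)
      have e3 : ∀ᶠ X : ℝ in atTop, 2 + be ≤ Real.exp (1 / (2 * ((j : ℝ) + 1)) * X) := by
        have h1 : Tendsto (fun X : ℝ => Real.exp (1 / (2 * ((j : ℝ) + 1)) * X)) atTop atTop :=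
          Real.tendsto_exp_atTop.comp
            (tendsto_id.const_mul_atTop (show (0 : ℝ) < 1 / (2 * ((j : ℝ) + 1)) by positivity))
        exact h1.eventually_ge_atTop _
      have e4 : ∀ᶠ X : ℝ in atTop, 1 ≤ Real.log X := Real.tendsto_log_atTop.eventually_ge_atTop 1
      obtain ⟨X, h1, h2, h3, h4, h5, h6, h7, h8, h9, h10⟩ := (e1.and (e2.and (e3.and (e4.and
        ((eventually_ge_atTop (X₀ j)).and ((eventually_ge_atTop be).and
          ((eventually_ge_atTop (b2 (j + 1))).and ((eventually_ge_atTop (16 * xp)).and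
            ((eventually_ge_atTop (c0 (j + 1))).and (eventually_ge_atTop (32 : ℝ))))))))))).exists
      obtain ⟨be', N, k1, k2, k3, k4⟩ := hst j X be h5 hb h6
      refine ⟨X, be', N, fun _ => ⟨⟨k1, k2, k4⟩, h7, h8, h9, ?_, ?_, ?_⟩⟩
      · calc (1 : ℝ) = 1 * 1 := (one_mul 1).symm
          _ ≤ CC j * Real.log X := mul_le_mul (hCC j) h4 zero_le_one hC0.le
      · linarith
      · have hE1 : 1 ≤ Real.exp (CC j * Real.log X) :=
          Real.one_le_exp (mul_nonneg hC0.le (by linarith))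
        have m1 : Real.exp (CC j * Real.log X) + be + be' ≤
            (2 + be) * Real.exp (CC j * Real.log X) := by
          have : be ≤ be * Real.exp (CC j * Real.log X) :=
            le_mul_of_one_le_right (by linarith) hE1
          linarith
        refine m1.trans ?_
        have m2 : Real.exp (X / ((j : ℝ) + 1)) = Real.exp (1 / (2 * ((j : ℝ) + 1)) * X) *
            Real.exp (1 / (2 * ((j : ℝ) + 1)) * X) := by
          rw [← Real.exp_add]
          congr 1
          field_simp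
          ring
        rw [m2]
        exact mul_le_mul h3 (Real.exp_le_exp.2 h2) (Real.exp_pos _).le (Real.exp_pos _).le
    · exact ⟨0, 0, fun _ => 0, fun h => absurd h hb⟩
  choose FX Fb FN hF using key
  obtain ⟨st, hs0, hs1⟩ : ∃ st : ℕ → ℝ × ℝ, st 0 = (b2 0, 1) ∧
      ∀ j, st (j + 1) = (Fb j (st j).1 (st j).2, FX j (st j).1 (st j).2) :=
    ⟨fun n => Nat.rec (b2 0, 1) (fun j p => (Fb j p.1 p.2, FX j p.1 p.2)) n, rfl, fun _ => rfl⟩
  have hinv : ∀ j, b2 j ≤ (st j).1 := by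
    intro j
    induction j with
    | zero => rw [hs0]
    | succ j ih =>
      obtain ⟨⟨_, h2, _⟩, h4, _⟩ := hF j (st j).1 (st j).2 ih
      rw [hs1]
      exact h4.trans h2
  have hbe : ∀ j, (st (j + 1)).1 = Fb j (st j).1 (st j).2 := fun j => by rw [hs1]
  have hxp : ∀ j, (st (j + 1)).2 = FX j (st j).1 (st j).2 := fun j => by rw [hs1]
  refine ⟨fun j => FX j (st j).1 (st j).2, fun j => (st j).1,
    fun j => CC j * Real.log (FX j (st j).1 (st j).2),
    fun j => Real.exp (CC j * Real.log (FX j (st j).1 (st j).2)),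
    fun j => FN j (st j).1 (st j).2, ?_, ?_⟩
  · refine ⟨?_, ?_, hc0, ?_, ?_, ?_, ?_, ?_⟩
    · intro j
      show Shape _ _ _ (st (j + 1)).1 _ _ _
      rw [hbe]
      exact (hF j _ _ (hinv j)).1.1
    · intro j
      exact (hb2 j).trans (hinv j)
    · intro j
      exact (hF j _ _ (hinv j)).2.2.2.2.1
    · intro j
      exact (hF j _ _ (hinv j)).2.2.2.2.2.1
    · intro j
      have h1 := (hF (j + 1) (st (j + 1)).1 (st (j + 1)).2 (hinv (j + 1))).2.2.1
      have h2 := hxp j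
      show 16 * FX j (st j).1 (st j).2 ≤ FX (j + 1) (st (j + 1)).1 (st (j + 1)).2
      rw [← h2]
      exact h1
    · intro j
      exact (hF j _ _ (hinv j)).2.2.2.1
    · intro j
      have h1 := (hF j (st j).1 (st j).2 (hinv j)).2.2.2.2.2.2
      show Real.exp (CC j * Real.log (FX j (st j).1 (st j).2)) + (st j).1 + (st (j + 1)).1 ≤
        Real.exp (FX j (st j).1 (st j).2 / ((j : ℝ) + 1))
      rw [hbe]
      exact h1
  · intro j
    show P j _ (st (j + 1)).1 _
    rw [hbe]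
    exact (hF j _ _ (hinv j)).1.2.2

end INDB
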