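import Pool.Agent.INDB.Meas

/-!
# INDB, module CDefs: shapes of finished windows, chains of windows
-/

open MeasureTheory Set Filter Topology

namespace INDB

/-- shape of a finished window (local coordinate `y`, the global coordinate is `y + X`) -/
structure Shape (be X c0 be' L Q : ℝ) (N : ℝ → ℝ) : Prop where
  meas : Measurable N
  nn : ∀ y, 0 ≤ N y
  left : ∀ y, y ≤ -L → N y = be * max (y + X) c0
  right : ∀ y, L ≤ y → N y = be' * (y + X)
  mass : ∫ y in Icc (-L) L, N y ≤ Q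
  sup : ∀ y, -L ≤ y → y ≤ L → N y ≤ Real.exp Q

/-- a chain of windows: `X j` positions, `be j` slopes, `L j` half lengths -/
structure Chain (X be c0 L Q : ℕ → ℝ) (N : ℕ → ℝ → ℝ) : Prop where
  sh : ∀ j, Shape (be j) (X j) (c0 j) (be (j + 1)) (L j) (Q j) (N j)
  be1 : ∀ j, 1 ≤ be j
  c01 : ∀ j, 1 ≤ c0 j
  L1 : ∀ j, 1 ≤ L j
  XL : ∀ j, 16 * (L j + 1) ≤ X j
  XX : ∀ j, 16 * X j ≤ X (j + 1)
  Xc : ∀ j, c0 (j + 1) ≤ X j
  sm : ∀ j, Q j + be j + be (j + 1) ≤ Real.exp (X j / ((j : ℝ) + 1))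

/-- `Nf` is the concatenation of the windows -/
structure Glob (X be L : ℕ → ℝ) (N : ℕ → ℝ → ℝ) (Nf : ℝ → ℝ) : Prop where
  meas : Measurable Nf
  nn : ∀ y, 0 ≤ Nf y
  zero : ∀ y, y ≤ 0 → Nf y = 0
  first : ∀ y, 0 < y → y < X 0 - L 0 → Nf y = be 0 * y
  win : ∀ j y, X j - L j ≤ y → y < X (j + 1) - L (j + 1) → Nf y = N j (y - X j)

end INDB
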