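import Pool.Agent.INDB.KernB

/-!
# INDB, module Prim: kernels of kind L: monotone densities, primitive

PROOFS. `lref`: `U k N x = ∫ k u N(x-u) du = ∫ k u (N(x-u) - N(x-s)) du` because `∫ k = 0` (substitution `u = x - y`). The integrand is `≤ 0` for all `u` (`u ≤ s`: `k u ≤ 0`, `N(x-u) ≥ N(x-s)`; `u ≥ s`: the opposite), and for `u ∈ [s-2, s-1]` it is
`≤ -c w(u) (N(x-s+1) - N(x-s))` with `w(u) ≥ e^{-|u|} ≥ e^{-(|s|+2)}`. Integrate over `[s-2,s-1]` only.
`prim_bounds`, `Λ v = ∫_{u ≤ v} k`. Lower bound `-(C₂ w v) ≤ Λ v`, `C₂ = 3 C (1 + 1/a + 1/b)`: for `v ≤ -1`: `|Λ| ≤ ∫_{-∞}^v C e^{b u} = (C/b) e^{b v}`; for `v ≥ 1`: `Λ v = -∫_{u > v} k` (`∫ k = 0`), `|.| ≤ (C/a) e^{-a v}`; for `|v| ≤ 1`: `|Λ| ≤ ∫ |k|`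
(`Kern.int_abs_le`), `w v ≥ e^{-1} ≥ 1/3`. Upper bound `Λ v ≤ -(c e^{-2} w v)`: for `v ≤ s`: let `m = min v (s-1) ∈ [v-1, v]`; `k ≤ 0` on `(-∞, v]`, so `Λ v ≤ ∫_{m-1}^m k ≤ -c ∫_{m-1}^m w ≤ -c e^{-2} w v` (`w_shift_ge`, distance at most 2);
for `v ≥ s`: `Λ v = -∫_{u>v} k ≤ -∫_m^{m+1} k`, `m = max v (s+1) ∈ [v, v+1]`.
`int_prim`: `∫_{x ∈ [α,β]} k(x-y) dx = ∫_{α-y}^{β-y} k = Λ(β-y) - Λ(α-y)`.
-/

open MeasureTheory Set Filter Topology

namespace INDB

variable {a b c C s : ℝ} {k : ℝ → ℝ}

private lemma unit_ge {f : ℝ → ℝ} {m K : ℝ} (hf : IntegrableOn f (Ioc m (m + 1)))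
    (h : ∀ u ∈ Ioc m (m + 1), K ≤ f u) : K ≤ ∫ u in Ioc m (m + 1), f u := by
  have h1 : ∫ _ in Ioc m (m + 1), K ≤ ∫ u in Ioc m (m + 1), f u :=
    setIntegral_mono_on (integrableOn_const (by simp)) hf measurableSet_Ioc h
  rw [setIntegral_const, Measure.real, Real.volume_Ioc] at h1
  simpa using h1

private lemma unit_le {f : ℝ → ℝ} {m K : ℝ} (hf : IntegrableOn f (Ioc m (m + 1)))
    (h : ∀ u ∈ Ioc m (m + 1), f u ≤ K) : ∫ u in Ioc m (m + 1), f u ≤ K := by
  have h1 : ∫ u in Ioc m (m + 1), f u ≤ ∫ _ in Ioc m (m + 1), K :=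
    setIntegral_mono_on hf (integrableOn_const (by simp)) measurableSet_Ioc h
  rw [setIntegral_const, Measure.real, Real.volume_Ioc] at h1
  simpa using h1

private lemma w_ge_exp (ha : 0 < a) (hb : 0 < b) (ha1 : a ≤ 1) (hb1 : b ≤ 1) (v : ℝ) :
    Real.exp (-|v|) ≤ w a b v := by
  have h1 := w_shift_ge ha.le hb.le ha1 hb1 0 v
  have h2 : w a b 0 = 1 := by
    rw [w_nonneg_eq le_rfl]
    simp
  rwa [h2, mul_one, zero_add] at h1

lemma lref (hk : Kern a b C k) (ha : 0 < a) (hb : 0 < b) (ha1 : a ≤ 1) (hb1 : b ≤ 1) (hc : 0 < c)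
    (hp : PatMP a b c s k) (hi : ∫ u, k u = 0) {N : ℝ → ℝ} (hN : Monotone N) (x : ℝ)
    (hint : Integrable (fun y => k (x - y) * N y)) :
    U k N x ≤ -(c * Real.exp (-(|s| + 2)) * (N (x - s + 1) - N (x - s))) := by
  have hki : Integrable (fun y => k (x - y)) := hk.integrable_sub ha hb x
  have hfi : Integrable (fun y => k (x - y) * N (x - s) - k (x - y) * N y) :=
    (hki.mul_const _).sub hint
  have hf0 : ∀ y, 0 ≤ k (x - y) * N (x - s) - k (x - y) * N y := by
    intro y
    rcases le_total (x - y) s with h | h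
    · have h1 := hp.left _ h
      have h2 : N (x - s) ≤ N y := hN (by linarith)
      nlinarith
    · have h1 := hp.right _ h
      have h2 : N y ≤ N (x - s) := hN (by linarith)
      nlinarith
  have hU : ∫ y, (k (x - y) * N (x - s) - k (x - y) * N y) = - U k N x := by
    rw [integral_sub (hki.mul_const _) hint, integral_mul_const,
      integral_sub_left_eq_self k volume x, hi, zero_mul, zero_sub]
    rfl
  have hΔ : 0 ≤ N (x - s + 1) - N (x - s) := sub_nonneg.2 (hN (by linarith))
  have h1 : c * Real.exp (-(|s| + 2)) * (N (x - s + 1) - N (x - s)) ≤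
      ∫ y in Ioc (x - s + 1) (x - s + 1 + 1), (k (x - y) * N (x - s) - k (x - y) * N y) := by
    refine unit_ge hfi.integrableOn ?_
    rintro y ⟨hy1, hy2⟩
    have h2 := hp.lower (x - y) (by linarith)
    have h3 : Real.exp (-(|s| + 2)) ≤ w a b (x - y) := by
      refine le_trans ?_ (w_ge_exp ha hb ha1 hb1 (x - y))
      rw [Real.exp_le_exp]
      have h4 : |x - y| ≤ |s| + 2 := by
        rw [abs_le]
        constructor
        · linarith [neg_abs_le s]
        · linarith [le_abs_self s]
      linarith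
    have h5 : N (x - s + 1) ≤ N y := hN hy1.le
    have h6 : c * Real.exp (-(|s| + 2)) ≤ -k (x - y) := by
      have := mul_le_mul_of_nonneg_left h3 hc.le
      linarith
    have h7 : 0 ≤ c * Real.exp (-(|s| + 2)) := by positivity
    calc c * Real.exp (-(|s| + 2)) * (N (x - s + 1) - N (x - s))
        ≤ -k (x - y) * (N (x - s + 1) - N (x - s)) := mul_le_mul_of_nonneg_right h6 hΔ
      _ ≤ -k (x - y) * (N y - N (x - s)) :=
          mul_le_mul_of_nonneg_left (by linarith) (h7.trans h6)
      _ = _ := by ring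
  have h2 : ∫ y in Ioc (x - s + 1) (x - s + 1 + 1), (k (x - y) * N (x - s) - k (x - y) * N y) ≤
      ∫ y, (k (x - y) * N (x - s) - k (x - y) * N y) :=
    setIntegral_le_integral hfi (Eventually.of_forall hf0)
  rw [hU] at h2
  linarith

private lemma Iic_eq (hk : Kern a b C k) (ha : 0 < a) (hb : 0 < b) (hi : ∫ u, k u = 0) (v : ℝ) :
    ∫ u in Iic v, k u = -∫ u in Ioi v, k u := by
  have h := integral_add_compl (measurableSet_Iic (a := v)) (hk.integrable ha hb)
  rw [compl_Iic, hi] at h
  linarith

lemma prim_bounds (hk : Kern a b C k) (ha : 0 < a) (hb : 0 < b) (ha1 : a ≤ 1) (hb1 : b ≤ 1)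
    (hc : 0 < c) (hp : PatMP a b c s k) (hi : ∫ u, k u = 0) (v : ℝ) :
    -(3 * C * (1 + 1 / a + 1 / b) * w a b v) ≤ ∫ u in Iic v, k u ∧
      ∫ u in Iic v, k u ≤ -(c * Real.exp (-2) * w a b v) := by
  have hC := hk.nonnegC
  have hki := hk.integrable ha hb
  have hw := w_pos a b v
  constructor
  · suffices h : |∫ u in Iic v, k u| ≤ 3 * C * (1 + 1 / a + 1 / b) * w a b v by
      linarith [neg_abs_le (∫ u in Iic v, k u)]
    have hab : 0 < 1 / a := by positivity
    have hbb : 0 < 1 / b := by positivity
    have hCw : 0 ≤ C * w a b v := mul_nonneg hC hw.le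
    rcases le_total v (-1) with h1 | h1
    · have h2 : |∫ u in Iic v, k u| ≤ ∫ u in Iic v, C * Real.exp (b * u) := by
        refine (abs_integral_le_integral_abs).trans ?_
        refine setIntegral_mono_on hki.abs.integrableOn
          ((integrableOn_exp_mul_Iic hb v).const_mul C) measurableSet_Iic fun u hu => ?_
        have hu' : u ≤ -1 := le_trans hu h1
        have h3 := hk.abs u (by rw [abs_of_nonpos (by linarith)]; linarith)
        rwa [w_nonpos_eq (by linarith)] at h3
      rw [integral_const_mul, integral_exp_mul_Iic hb, ← w_nonpos_eq (a := a) (by linarith)] at h2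
      have h3 : C * (w a b v / b) = C * w a b v * (1 / b) := by ring
      rw [h3] at h2
      have h4 : 3 * C * (1 + 1 / a + 1 / b) * w a b v =
          C * w a b v * (3 * (1 + 1 / a + 1 / b)) := by ring
      rw [h4]
      exact h2.trans (mul_le_mul_of_nonneg_left (by linarith) hCw)
    · rcases le_total 1 v with h5 | h5
      · rw [Iic_eq hk ha hb hi, abs_neg]
        have h2 : |∫ u in Ioi v, k u| ≤ ∫ u in Ioi v, C * Real.exp (-a * u) := by
          refine (abs_integral_le_integral_abs).trans ?_
          refine setIntegral_mono_on hki.abs.integrableOn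
            ((integrableOn_exp_mul_Ioi (a := -a) (by linarith) v).const_mul C) measurableSet_Ioi
            fun u hu => ?_
          have hu' : 1 ≤ u := le_trans h5 (le_of_lt hu)
          have h3 := hk.abs u (by rw [abs_of_nonneg (by linarith)]; exact hu')
          rw [w_nonneg_eq (by linarith)] at h3
          rwa [neg_mul]
        rw [integral_const_mul, integral_exp_mul_Ioi (a := -a) (by linarith), neg_mul,
          ← w_nonneg_eq (b := b) (by linarith)] at h2
        have h3 : C * (-w a b v / -a) = C * w a b v * (1 / a) := by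
          rw [neg_div_neg_eq]
          ring
        rw [h3] at h2
        have h4 : 3 * C * (1 + 1 / a + 1 / b) * w a b v =
            C * w a b v * (3 * (1 + 1 / a + 1 / b)) := by ring
        rw [h4]
        exact h2.trans (mul_le_mul_of_nonneg_left (by linarith) hCw)
      · have h2 : |∫ u in Iic v, k u| ≤ C * (1 + 1 / a + 1 / b) := by
          refine (abs_integral_le_integral_abs).trans ?_
          refine le_trans ?_ (hk.int_abs_le ha hb)
          exact setIntegral_le_integral hki.abs (Eventually.of_forall fun u => abs_nonneg _)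
        have h3 : 1 / 3 ≤ w a b v := by
          refine le_trans ?_ (w_ge_exp ha hb ha1 hb1 v)
          have h4 : |v| ≤ 1 := abs_le.2 ⟨h1, h5⟩
          have h6 : Real.exp (-1) ≤ Real.exp (-|v|) := Real.exp_le_exp.2 (by linarith)
          refine le_trans ?_ h6
          rw [Real.exp_neg, one_div]
          exact inv_anti₀ (Real.exp_pos _) (by linarith [Real.exp_one_lt_d9])
        have h6 : 0 ≤ C * (1 + 1 / a + 1 / b) := mul_nonneg hC (by positivity)
        nlinarith [mul_le_mul_of_nonneg_left h3 h6]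
  · have hce : 0 < c * Real.exp (-2) * w a b v := by positivity
    have hwu : ∀ u, |u - v| ≤ 2 → Real.exp (-2) * w a b v ≤ w a b u := by
      intro u hu
      have h1 := w_shift_ge ha.le hb.le ha1 hb1 v (u - v)
      rw [add_sub_cancel] at h1
      refine le_trans ?_ h1
      exact mul_le_mul_of_nonneg_right (Real.exp_le_exp.2 (by linarith)) hw.le
    rcases le_total v s with h1 | h1
    · set m := min v (s - 1) - 1 with hm
      have hm1 : m + 1 ≤ v := by rw [hm]; linarith [min_le_left v (s - 1)]
      have hm2 : m + 1 ≤ s - 1 := by rw [hm]; linarith [min_le_right v (s - 1)]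
      have hm3 : v - 2 ≤ m := by
        have : v - 1 ≤ min v (s - 1) := le_min (by linarith) (by linarith)
        rw [hm]
        linarith
      have h2 : ∫ u in Ioc m (m + 1), k u ≤ -(c * Real.exp (-2) * w a b v) := by
        refine unit_le hki.integrableOn ?_
        rintro u ⟨hu1, hu2⟩
        have h3 := hp.lower u (by linarith)
        have h4 := hwu u (by rw [abs_le]; constructor <;> linarith)
        have h5 := mul_le_mul_of_nonneg_left h4 hc.le
        linarith
      refine le_trans ?_ h2
      have h3 : ∫ u in Ioc m (m + 1), -k u ≤ ∫ u in Iic v, -k u := by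
        refine setIntegral_mono_set hki.neg.integrableOn ?_ ?_
        · rw [EventuallyLE, ae_restrict_iff' measurableSet_Iic]
          refine Eventually.of_forall fun u hu => ?_
          have := hp.left u (le_trans hu h1)
          simp only [Pi.zero_apply]
          linarith
        · refine Eventually.of_forall fun u hu => ?_
          exact le_trans hu.2 hm1
      rw [integral_neg, integral_neg] at h3
      linarith
    · set m := max v (s + 1) with hm
      have hm1 : v ≤ m := le_max_left _ _
      have hm2 : s + 1 ≤ m := le_max_right _ _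
      have hm3 : m ≤ v + 1 := max_le (by linarith) (by linarith)
      have h2 : c * Real.exp (-2) * w a b v ≤ ∫ u in Ioc m (m + 1), k u := by
        refine unit_ge hki.integrableOn ?_
        rintro u ⟨hu1, hu2⟩
        have h3 := hp.upper u (by linarith)
        have h4 := hwu u (by rw [abs_le]; constructor <;> linarith)
        have h5 := mul_le_mul_of_nonneg_left h4 hc.le
        linarith
      rw [Iic_eq hk ha hb hi]
      have h3 : ∫ u in Ioc m (m + 1), k u ≤ ∫ u in Ioi v, k u := by
        refine setIntegral_mono_set hki.integrableOn ?_ ?_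
        · rw [EventuallyLE, ae_restrict_iff' measurableSet_Ioi]
          refine Eventually.of_forall fun u hu => ?_
          exact hp.right u (le_trans h1 (le_of_lt hu))
        · refine Eventually.of_forall fun u hu => ?_
          exact lt_of_le_of_lt hm1 hu.1
      linarith

lemma int_prim (hk : Kern a b C k) (ha : 0 < a) (hb : 0 < b) {α β : ℝ} (h : α ≤ β) (y : ℝ) :
    ∫ x in Icc α β, k (x - y) = (∫ u in Iic (β - y), k u) - ∫ u in Iic (α - y), k u := by
  have hki := hk.integrable ha hb
  rw [integral_Icc_eq_integral_Ioc, ← intervalIntegral.integral_of_le h,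
    intervalIntegral.integral_comp_sub_right,
    intervalIntegral.integral_Iic_sub_Iic hki.integrableOn hki.integrableOn]

end INDB
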