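import Pool.Agent.INDB.ProfE
import Pool.Agent.INDB.Prim

/-!
# INDB, module MassB: bound of the mass of a solution (monotone flux)

PROOF. `k = k_{l0}`, `Λ v = ∫_{u≤v} k`, `C₂ = 3 C (1+1/a+1/b)`, `c₂ = c e^{-2}`: `-C₂ w v ≤ Λ v ≤ -c₂ w v` (`prim_bounds`). `N` a solution, `F x = -∫ Λ(x-y) N y dy` (finite: `N` is continuous with linear growth because `N = E` outside a compact set). For `-X/2 ≤ x₁ ≤ x₂`:
`F x₂ - F x₁ = -∫ (∫_{x₁}^{x₂} k(x-y) dx) N y dy = -∫_{x₁}^{x₂} U k N x dx ≥ 0` (`int_prim`, Fubini on `[x₁,x₂] × ℝ`, `Kern.integrable_lin`, `unit_le`; `U k N x < gam l0 < 0`).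
Let `m = ∫_{[-M,M']} N`. `F 0 ≥ c₂ ∫_{[-M,M']} w(-y) N y dy ≥ c₂ e^{-M'} m` (`w(-y) ≥ e^{-|y|}`, `M ≤ M'`). For `x = M' + R`, `R ≥ 0`: `F x ≤ C₂ ∫ w(x-y) N y dy`: window: `≤ C₂ e^{-aR} m`; `y < -M`: `N = E ≤ G1 ≤ E M'`; `y > M'`: `N y = E M' + slope (y-M') ≤ E M' (1 + |y - M'|) ≤ E M' (1 + R + |x - y|)`.
So `F x ≤ C₂ e^{-aR} m + K E M' (1+R)`. Choose `R = (M' + log (2 C₂/c₂))/a` (`C₂ ≥ c₂`): `C₂ e^{-aR} ≤ (c₂/2) e^{-M'}`. Then `c₂ e^{-M'} m ≤ F 0 ≤ F x` gives `m ≤ (2/c₂) e^{M'} K E M' (1 + R) ≤ K' X² e^{4 M'}` (`E M' = G1 e^{sg (M+M')} ≤ X² e^{2M'}`, `1 + R ≤ K'' e^{M'}`).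
-/

open MeasureTheory Set Filter Topology

namespace INDB

section mass

variable {a b c C s : ℝ} {k N : ℝ → ℝ}

private lemma mb_kern_w (ha : 0 < a) (hb : 0 < b) : Kern a b 2 (w a b) := by
  refine ⟨(continuous_w a b).measurable, fun u => ?_, fun u _ => ?_,
    (integrable_w ha hb).integrableOn, ?_⟩
  · linarith [w_pos a b u]
  · rw [abs_of_pos (w_pos a b u)]
    linarith [w_pos a b u]
  · have h1 : ∫ u in Icc (-1 : ℝ) 1, |w a b u| ≤ ∫ _ in Icc (-1 : ℝ) 1, (1 : ℝ) := by
      refine setIntegral_mono_on (integrable_w ha hb).abs.integrableOn (by simp)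
        measurableSet_Icc fun u _ => ?_
      rw [abs_of_pos (w_pos a b u)]
      exact w_le_one ha.le hb.le u
    refine h1.trans (le_of_eq ?_)
    rw [setIntegral_const, measureReal_def, Real.volume_Icc, ENNReal.toReal_ofReal (by norm_num)]
    norm_num

private lemma mb_w_lin (ha : 0 < a) (hb : 0 < b) : Integrable (fun u => w a b u * (1 + |u|)) := by
  have h := (mb_kern_w ha hb).integrable_lin ha hb (N := fun y => 1 + |y|) (by fun_prop)
    ⟨1, zero_le_one, fun y => by rw [abs_of_nonneg (by positivity), one_mul]⟩ 0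
  have h2 := h.comp_neg
  simpa using h2

private lemma mb_prim_cont (hk : Kern a b C k) (ha : 0 < a) (hb : 0 < b) :
    Continuous fun v => ∫ u in Iic v, k u := by
  have hki := hk.integrable ha hb
  have h1 : (fun v => ∫ u in Iic v, k u) = fun v => (∫ u in Iic (0 : ℝ), k u) +
      ∫ u in (0 : ℝ)..v, k u := by
    funext v
    rw [← intervalIntegral.integral_Iic_sub_Iic hki.integrableOn hki.integrableOn]
    ring
  rw [h1]
  exact continuous_const.add
    (intervalIntegral.continuous_primitive (fun _ _ => hki.intervalIntegrable) 0)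

/-- the flux is monotone -/
private lemma mb_flux (hk : Kern a b C k) (ha : 0 < a) (hb : 0 < b) (hN : Continuous N)
    (hl : Lin N) {x₁ x₂ : ℝ} (h12 : x₁ ≤ x₂) (hU : ∀ x, x₁ ≤ x → x ≤ x₂ → U k N x ≤ 0) :
    ∫ y, ((∫ u in Iic (x₂ - y), k u) - ∫ u in Iic (x₁ - y), k u) * N y ≤ 0 := by
  have hμ : IsFiniteMeasure (volume.restrict (Icc x₁ x₂)) := ⟨by
    rw [Measure.restrict_apply_univ, Real.volume_Icc]
    exact ENNReal.ofReal_lt_top⟩
  have h2 : Integrable (fun x => ∫ y, |k (x - y)| * |N y|) (volume.restrict (Icc x₁ x₂)) := by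
    obtain ⟨K, hK, hlK⟩ := hl
    have hm : 0 < min a b := lt_min ha hb
    have hκ : 0 < min a b / 2 := by positivity
    have ha2 : min a b / 2 < a := by linarith [min_le_left a b]
    have hb2 : min a b / 2 < b := by linarith [min_le_right a b]
    have hb3 : ∀ x, ∫ y, |k (x - y)| * |N y| ≤
        (K * (1 + |x|) * (1 + 1 / (min a b / 2))) * Real.exp (max (min a b / 2) (min a b / 2)) * C
        + C * (K * (1 + |x|) * (1 + 1 / (min a b / 2))) *
          (1 / (a - min a b / 2) + 1 / (b - min a b / 2)) := by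
      intro x
      have h3 := (hk.aux_of_le hκ.le hb2 hκ.le ha2 hN.measurable
        (lin_exp_bound (x := x) hκ hK hlK)).2
      have h4 : ∫ y, |k (x - y)| * |N y| = ∫ u, |k u * N (x - u)| := by
        rw [← integral_sub_left_eq_self (fun u => |k u * N (x - u)|) volume x]
        refine integral_congr_ae (Eventually.of_forall fun y => ?_)
        simp only
        rw [sub_sub_cancel, abs_mul]
      rw [h4]
      exact h3
    have hmeas : StronglyMeasurable (fun x => ∫ y, |k (x - y)| * |N y|) := by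
      have h5 : StronglyMeasurable (fun p : ℝ × ℝ => |k (p.1 - p.2)| * |N p.2|) :=
        (((hk.meas.comp (measurable_fst.sub measurable_snd)).abs).mul
          (hN.measurable.comp measurable_snd).abs).stronglyMeasurable
      exact h5.integral_prod_right'
    set T := max |x₁| |x₂| with hT
    refine Measure.integrableOn_of_bounded (M :=
      (K * (1 + T) * (1 + 1 / (min a b / 2))) * Real.exp (max (min a b / 2) (min a b / 2)) * C
        + C * (K * (1 + T) * (1 + 1 / (min a b / 2))) *
          (1 / (a - min a b / 2) + 1 / (b - min a b / 2)))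
      (by rw [Real.volume_Icc]; exact ENNReal.ofReal_ne_top)
      hmeas.aestronglyMeasurable ?_
    refine (ae_restrict_iff' measurableSet_Icc).2 (Eventually.of_forall fun x hx => ?_)
    rw [Real.norm_eq_abs, abs_of_nonneg (integral_nonneg fun y => by positivity)]
    have hxT : |x| ≤ T := by
      rw [abs_le, hT]
      constructor
      · have := neg_abs_le x₁
        have := le_max_left |x₁| |x₂|
        linarith [hx.1]
      · exact (hx.2.trans (le_abs_self x₂)).trans (le_max_right _ _)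
    refine (hb3 x).trans ?_
    have hC := hk.nonnegC
    have e1 : 0 < a - min a b / 2 := by linarith
    have e2 : 0 < b - min a b / 2 := by linarith
    gcongr
  have h3 := (hk.fubini_abs ha hb (volume.restrict (Icc x₁ x₂)) hN.measurable
    (hk.integrable_lin ha hb hN.measurable hl) h2).2.2
  have h4 : ∫ x in Icc x₁ x₂, U k N x ≤ 0 :=
    setIntegral_nonpos measurableSet_Icc fun x hx => hU x hx.1 hx.2
  rw [h3] at h4
  refine le_trans (le_of_eq ?_) h4
  refine integral_congr_ae (Eventually.of_forall fun y => ?_)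
  simp only
  rw [int_prim hk ha hb h12]

end mass

theorem mass_bound {ι : Type} [Fintype ι] (S : Sys ι) :
    ∃ K : ℝ, 1 ≤ K ∧ ∀ (κ : ℝ) (p : Par) (N : ℝ → ℝ), p.OK κ S.C → S.Sol p N →
      ∫ y in Icc (-p.M) p.M', N y ≤ K * (p.X ^ 2 * Real.exp (4 * p.M')) := by
  have ha := S.ha
  have hb := S.hb
  have ha1 : S.a ≤ 1 := by linarith [S.hab]
  have hb1 : S.b ≤ 1 := by linarith [S.hab]
  have hk := S.hk S.l0
  have hC := S.hC
  obtain ⟨C₂, hC₂⟩ : ∃ C₂, C₂ = 3 * S.C * (1 + 1 / S.a + 1 / S.b) := ⟨_, rfl⟩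
  obtain ⟨c₂, hc₂⟩ : ∃ c₂, c₂ = S.c * Real.exp (-2) := ⟨_, rfl⟩
  have hC₂0 : 0 < C₂ := by
    rw [hC₂]
    have : 0 < S.C := by linarith
    positivity
  have hc₂0 : 0 < c₂ := by
    rw [hc₂]
    have := S.hc
    positivity
  have hΛ := prim_bounds hk ha hb ha1 hb1 S.hc (S.patL _ S.hl0) (S.intL _ S.hl0)
  rw [← hC₂, ← hc₂] at hΛ
  have hcC : c₂ ≤ C₂ := by
    have h1 := hΛ 0
    have h2 := w_pos S.a S.b 0
    have h3 : c₂ * w S.a S.b 0 ≤ C₂ * w S.a S.b 0 := by linarith [h1.1, h1.2]
    exact le_of_mul_le_mul_right h3 h2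
  obtain ⟨W2, hW2⟩ : ∃ W2, W2 = ∫ u, w S.a S.b u * (1 + |u|) := ⟨_, rfl⟩
  have hW20 : 0 ≤ W2 := by
    rw [hW2]
    exact integral_nonneg fun u => mul_nonneg (w_pos _ _ _).le (by positivity)
  obtain ⟨L, hL⟩ : ∃ L, L = Real.log (2 * C₂ / c₂) := ⟨_, rfl⟩
  have hL0 : 0 ≤ L := by
    rw [hL]
    refine Real.log_nonneg ?_
    rw [le_div_iff₀ hc₂0]
    linarith
  refine ⟨max 1 (2 / c₂ * (C₂ * W2) * (1 + 1 / S.a + L / S.a)), le_max_left _ _, ?_⟩
  intro κ p N hp hN
  obtain ⟨b1, -, -, b4, b5, b6, b7, b8, b9⟩ := hp.basic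
  have hM' : 0 < p.M' := by
    have := hp.M1
    linarith
  have hM : 0 < p.M := by
    have := hp.M1
    linarith
  -- linear growth of `N`
  have hNl : Lin N := by
    obtain ⟨K, hK, hE⟩ := hp.lin_E
    obtain ⟨B, hB⟩ := (isCompact_Icc (a := -p.M) (b := p.M')).exists_bound_of_continuousOn
      hN.cont.continuousOn
    refine ⟨K + |B|, by positivity, fun y => ?_⟩
    by_cases hy : y ∈ Icc (-p.M) p.M'
    · have h1 := hB y hy
      rw [Real.norm_eq_abs] at h1
      have h2 := le_abs_self B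
      have h3 : 0 ≤ (K + |B|) * |y| := by positivity
      linarith
    · have h1 : y ≤ -p.M ∨ p.M' ≤ y := by
        by_contra hc
        push Not at hc
        exact hy ⟨hc.1.le, hc.2.le⟩
      rw [hN.out y h1]
      have h2 : 0 ≤ |B| * (1 + |y|) := by positivity
      linarith [hE y]
  obtain ⟨m, hm⟩ : ∃ m, m = ∫ y in Icc (-p.M) p.M', N y := ⟨_, rfl⟩
  have hm0 : 0 ≤ m := by
    rw [hm]
    exact integral_nonneg fun y => hN.nonneg y
  obtain ⟨R, hR⟩ : ∃ R, R = (p.M' + L) / S.a := ⟨_, rfl⟩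
  have hR0 : 0 ≤ R := by rw [hR]; positivity
  have hcont := mb_prim_cont hk ha hb
  have hwN : ∀ x, Integrable (fun y => w S.a S.b (x - y) * N y) := fun x =>
    (mb_kern_w ha hb).integrable_lin ha hb hN.cont.measurable hNl x
  have hΛN : ∀ x, Integrable (fun y => (∫ u in Iic (x - y), S.k S.l0 u) * N y) := by
    intro x
    refine ((hwN x).const_mul C₂).mono' ?_ (Eventually.of_forall fun y => ?_)
    · exact ((hcont.comp (continuous_const.sub continuous_id)).mul hN.cont).aestronglyMeasurable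
    · rw [Real.norm_eq_abs, abs_mul, abs_of_nonneg (hN.nonneg y), ← mul_assoc]
      refine mul_le_mul_of_nonneg_right ?_ (hN.nonneg y)
      have h1 := hΛ (x - y)
      have h2 : 0 ≤ c₂ * w S.a S.b (x - y) := mul_nonneg hc₂0.le (w_pos _ _ _).le
      rw [abs_of_nonpos (by linarith [h1.2])]
      linarith [h1.1]
  have hflux := mb_flux hk ha hb hN.cont hNl (x₁ := 0) (x₂ := p.M' + R) (by linarith)
    (fun x hx _ => by
      have h1 := hN.con S.l0 x (by linarith)
      linarith [S.gam0])
  have hflux2 : ∫ y, (∫ u in Iic (p.M' + R - y), S.k S.l0 u) * N y ≤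
      ∫ y, (∫ u in Iic (0 - y), S.k S.l0 u) * N y := by
    have h1 : ∫ y, ((∫ u in Iic (p.M' + R - y), S.k S.l0 u) -
        ∫ u in Iic (0 - y), S.k S.l0 u) * N y =
        (∫ y, (∫ u in Iic (p.M' + R - y), S.k S.l0 u) * N y) -
        ∫ y, (∫ u in Iic (0 - y), S.k S.l0 u) * N y := by
      rw [← integral_sub (hΛN _) (hΛN _)]
      refine integral_congr_ae (Eventually.of_forall fun y => ?_)
      simp only
      ring
    linarith
  -- lower bound at `0`
  have hind : Integrable ((Icc (-p.M) p.M').indicator N) := by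
    rw [integrable_indicator_iff measurableSet_Icc]
    exact hN.cont.integrableOn_Icc
  have hindv : ∫ y, (Icc (-p.M) p.M').indicator N y = m := by
    rw [hm, integral_indicator measurableSet_Icc]
  have hlow : c₂ * Real.exp (-p.M') * m ≤ -∫ y, (∫ u in Iic (0 - y), S.k S.l0 u) * N y := by
    rw [← hindv, ← integral_const_mul, ← integral_neg]
    refine integral_mono (hind.const_mul _) (hΛN 0).neg fun y => ?_
    simp only
    have h1 := (hΛ (0 - y)).2
    have h2 := w_pos S.a S.b (0 - y)
    by_cases hy : y ∈ Icc (-p.M) p.M'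
    · rw [indicator_of_mem hy, ← neg_mul]
      refine mul_le_mul_of_nonneg_right ?_ (hN.nonneg y)
      have h3 : Real.exp (-p.M') ≤ w S.a S.b (0 - y) := by
        have h4 := w_shift_ge ha.le hb.le ha1 hb1 0 (0 - y)
        rw [zero_add, w_nonneg_eq le_rfl, mul_zero, neg_zero, Real.exp_zero, mul_one] at h4
        refine le_trans (Real.exp_le_exp.2 ?_) h4
        rw [neg_le_neg_iff, zero_sub, abs_neg, abs_le]
        exact ⟨by linarith [hy.1], hy.2⟩
      have h5 := mul_le_mul_of_nonneg_left h3 hc₂0.le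
      linarith
    · rw [indicator_of_notMem hy, mul_zero, ← neg_mul]
      refine mul_nonneg ?_ (hN.nonneg y)
      have h5 := mul_nonneg hc₂0.le h2.le
      linarith
  -- upper bound at `M' + R`
  have hEM' : 0 < p.E p.M' := hp.pos_E _
  have hup : -∫ y, (∫ u in Iic (p.M' + R - y), S.k S.l0 u) * N y ≤
      C₂ * (Real.exp (-(S.a * R)) * m + p.E p.M' * ((1 + R) * W2)) := by
    have hI2 : Integrable (fun y => w S.a S.b (p.M' + R - y) * (1 + |p.M' + R - y|)) :=
      (mb_w_lin ha hb).comp_sub_left (p.M' + R)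
    have hI2v : ∫ y, w S.a S.b (p.M' + R - y) * (1 + |p.M' + R - y|) = W2 := by
      rw [hW2]
      exact integral_sub_left_eq_self (fun u => w S.a S.b u * (1 + |u|)) volume (p.M' + R)
    have h1 : -∫ y, (∫ u in Iic (p.M' + R - y), S.k S.l0 u) * N y ≤
        ∫ y, C₂ * (Real.exp (-(S.a * R)) * (Icc (-p.M) p.M').indicator N y +
          p.E p.M' * ((1 + R) * (w S.a S.b (p.M' + R - y) * (1 + |p.M' + R - y|)))) := by
      rw [← integral_neg]
      refine integral_mono (hΛN _).neg (((hind.const_mul _).add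
        ((hI2.const_mul _).const_mul _)).const_mul _) fun y => ?_
      simp only
      have h1 := (hΛ (p.M' + R - y)).1
      have h2 := w_pos S.a S.b (p.M' + R - y)
      have h3 : -((∫ u in Iic (p.M' + R - y), S.k S.l0 u) * N y) ≤
          C₂ * (w S.a S.b (p.M' + R - y) * N y) := by
        rw [← neg_mul, ← mul_assoc]
        exact mul_le_mul_of_nonneg_right (by linarith) (hN.nonneg y)
      refine h3.trans (mul_le_mul_of_nonneg_left ?_ hC₂0.le)
      by_cases hy : y ∈ Icc (-p.M) p.M'
      · rw [indicator_of_mem hy]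
        have h4 : w S.a S.b (p.M' + R - y) ≤ Real.exp (-(S.a * R)) := by
          rw [← w_nonneg_eq (b := S.b) hR0]
          exact w_anti_right ha.le (by linarith [hy.2]) hR0
        have h5 := mul_le_mul_of_nonneg_right h4 (hN.nonneg y)
        have h6 : 0 ≤ p.E p.M' * ((1 + R) * (w S.a S.b (p.M' + R - y) *
          (1 + |p.M' + R - y|))) := by positivity
        linarith
      · rw [indicator_of_notMem hy, mul_zero, zero_add]
        have hout : y ≤ -p.M ∨ p.M' ≤ y := by
          by_contra hc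
          push Not at hc
          exact hy ⟨hc.1.le, hc.2.le⟩
        have h4 : N y ≤ p.E p.M' * ((1 + R) * (1 + |p.M' + R - y|)) := by
          rw [hN.out y hout]
          have h8 : 1 ≤ (1 + R) * (1 + |p.M' + R - y|) := by
            have : 0 ≤ R * |p.M' + R - y| := by positivity
            have := abs_nonneg (p.M' + R - y)
            linarith
          rcases hout with h | h
          · have h7 : p.E y ≤ p.E p.M' := hp.mono_E (by linarith)
            refine h7.trans (le_mul_of_one_le_right hEM'.le h8)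
          · have e1 := Par.E_right hp h
            have e2 := Par.E_right hp (le_refl p.M')
            have h9 : p.slope ≤ p.E p.M' := by
              rw [e2]
              refine le_mul_of_one_le_right b6.le ?_
              linarith
            have h10 : p.E y = p.E p.M' + p.slope * (y - p.M') := by
              rw [e1, e2]
              ring
            have h11 : y - p.M' ≤ R + |p.M' + R - y| := by
              have := neg_abs_le (p.M' + R - y)
              linarith
            have h12 : p.slope * (y - p.M') ≤ p.E p.M' * (R + |p.M' + R - y|) :=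
              mul_le_mul h9 h11 (by linarith) hEM'.le
            have h13 : 0 ≤ p.E p.M' * (R * |p.M' + R - y|) := by positivity
            have h14 : p.E p.M' * ((1 + R) * (1 + |p.M' + R - y|)) =
                p.E p.M' + p.E p.M' * (R + |p.M' + R - y|) +
                p.E p.M' * (R * |p.M' + R - y|) := by ring
            rw [h14, h10]
            linarith
        have h5 := mul_le_mul_of_nonneg_left h4 h2.le
        refine h5.trans (le_of_eq (by ring))
    refine h1.trans (le_of_eq ?_)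
    rw [integral_const_mul, integral_add (hind.const_mul _) ((hI2.const_mul _).const_mul _),
      integral_const_mul, integral_const_mul, integral_const_mul, hindv, hI2v]
  -- the choice of `R`
  have hexp : C₂ * Real.exp (-(S.a * R)) = c₂ / 2 * Real.exp (-p.M') := by
    have h1 : S.a * R = p.M' + L := by
      rw [hR]
      field_simp
    have h2 : Real.exp L = 2 * C₂ / c₂ := by
      rw [hL]
      exact Real.exp_log (by positivity)
    rw [h1, neg_add, Real.exp_add, Real.exp_neg L, h2]
    field_simp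
  have hmain : c₂ / 2 * Real.exp (-p.M') * m ≤ C₂ * (p.E p.M' * ((1 + R) * W2)) := by
    have h1 : C₂ * (Real.exp (-(S.a * R)) * m + p.E p.M' * ((1 + R) * W2)) =
        c₂ / 2 * Real.exp (-p.M') * m + C₂ * (p.E p.M' * ((1 + R) * W2)) := by
      rw [mul_add, ← mul_assoc C₂, hexp]
    rw [h1] at hup
    have h2 : c₂ * Real.exp (-p.M') * m = c₂ / 2 * Real.exp (-p.M') * m +
        c₂ / 2 * Real.exp (-p.M') * m := by ring
    linarith
  have hmain2 : m ≤ 2 / c₂ * Real.exp p.M' * (C₂ * (p.E p.M' * ((1 + R) * W2))) := by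
    have h1 := mul_le_mul_of_nonneg_left hmain
      (show 0 ≤ 2 / c₂ * Real.exp p.M' by positivity)
    refine le_trans (le_of_eq ?_) h1
    rw [Real.exp_neg]
    field_simp
  have hE : p.E p.M' ≤ p.X ^ 2 * Real.exp (2 * p.M') := by
    rw [Par.E_mid hp (by linarith) le_rfl]
    have h1 : Real.exp (p.sg * (p.M' + p.M)) ≤ Real.exp (2 * p.M') := by
      refine Real.exp_le_exp.2 ?_
      have h2 : p.sg ≤ 1 := by linarith [hp.sgκ, hp.κ1]
      have h3 := mul_le_mul_of_nonneg_right h2 (show 0 ≤ p.M' + p.M by linarith)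
      linarith
    exact mul_le_mul b9 h1 (Real.exp_pos _).le (by positivity)
  have hR1 : 1 + R ≤ (1 + 1 / S.a + L / S.a) * Real.exp p.M' := by
    have h1 : 1 ≤ Real.exp p.M' := Real.one_le_exp hM'.le
    have h2 : p.M' ≤ Real.exp p.M' := by linarith [Real.add_one_le_exp p.M']
    have h3 : R = p.M' * (1 / S.a) + L / S.a := by
      rw [hR]
      ring
    have h4 : 0 ≤ 1 / S.a := by positivity
    have h5 : 0 ≤ L / S.a := by positivity
    have h6 := mul_le_mul_of_nonneg_right h2 h4
    have h7 := mul_le_mul_of_nonneg_left h1 h5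
    rw [h3]
    linarith
  rw [← hm]
  calc m ≤ 2 / c₂ * Real.exp p.M' * (C₂ * (p.E p.M' * ((1 + R) * W2))) := hmain2
    _ ≤ 2 / c₂ * Real.exp p.M' * (C₂ * (p.X ^ 2 * Real.exp (2 * p.M') *
        (((1 + 1 / S.a + L / S.a) * Real.exp p.M') * W2))) := by gcongr
    _ = (2 / c₂ * (C₂ * W2) * (1 + 1 / S.a + L / S.a)) * (p.X ^ 2 *
        (Real.exp p.M' * Real.exp (2 * p.M') * Real.exp p.M')) := by ring
    _ = (2 / c₂ * (C₂ * W2) * (1 + 1 / S.a + L / S.a)) * (p.X ^ 2 * Real.exp (4 * p.M')) := by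
        rw [← Real.exp_add, ← Real.exp_add]
        congr 3
        ring
    _ ≤ _ := mul_le_mul_of_nonneg_right (le_max_right _ _) (by positivity)

end INDB
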