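import Pool.Agent.INDB.MolA

/-!
# INDB, module MolB: averaging and the target

`Mol B` says that averaging lowers the target kernel by at most `B (w + kt^- 1_{|u| ≤ 1})/log(1/ε)` (true for kernels which are Lipschitz or have a logarithmic singularity at `0`).
PROOF. `U kt N 0 = ∫ kt(-y) N y dy`, `U kt (avg ε N) 0 = ∫ (avg ε kt)(-y) N y dy` (`U_avg'`). The difference is at most `(B/log(1/ε)) ∫ (w(-y) + 1_{|y|≤1} max (-kt(-y)) 0) N y dy` (a.e. bound, `N ≥ 0`). Further `∫ max (-kt(-y)) 0 · N = ∫ max (kt(-y)) 0 · N - ∫ kt(-y) N ≤ C ∫ w(-y) N - t` because `kt ≤ C w` and `t ≤ U kt N 0`.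
-/

open MeasureTheory Set Filter Topology

namespace INDB

/-- averaging lowers the kernel at most a little, relative to the negative part -/
def Sys.Mol {ι : Type} [Fintype ι] (S : Sys ι) (B : ℝ) : Prop :=
  ∀ ε : ℝ, 0 < ε → ε < 1 / 4 → ∀ᵐ u : ℝ, S.kt u - avg ε S.kt u ≤
    B * (w S.a S.b u + if |u| ≤ 1 then max (-S.kt u) 0 else 0) / Real.log (1 / ε)

private lemma kern_w {a b : ℝ} (ha : 0 < a) (hb : 0 < b) : Kern a b 2 (w a b) := by
  have hw1 : ∀ u, w a b u ≤ 1 := by
    intro u
    unfold w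
    rw [← Real.exp_zero]
    refine Real.exp_le_exp.2 ?_
    have h1 := mul_nonneg ha.le (le_max_right u 0)
    have h2 := mul_nonneg hb.le (le_max_right (-u) 0)
    linarith
  refine ⟨?_, fun u => ?_, fun u _ => ?_, (integrable_w ha hb).integrableOn, ?_⟩
  · unfold w
    fun_prop
  · linarith [w_pos a b u]
  · rw [abs_of_pos (w_pos a b u)]
    linarith [w_pos a b u]
  · have h1 : ∫ u in Icc (-1 : ℝ) 1, |w a b u| ≤ ∫ _ in Icc (-1 : ℝ) 1, (1 : ℝ) := by
      refine setIntegral_mono_on (integrable_w ha hb).abs.integrableOn (by simp)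
        measurableSet_Icc fun u _ => ?_
      rw [abs_of_pos (w_pos a b u)]
      exact hw1 u
    refine h1.trans (le_of_eq ?_)
    rw [setIntegral_const, measureReal_def, Real.volume_Icc, ENNReal.toReal_ofReal (by norm_num)]
    norm_num

theorem mol_target {ι : Type} [Fintype ι] (S : Sys ι) {B : ℝ} (hB : 0 ≤ B) (hm : S.Mol B) {ε : ℝ}
    (hε : 0 < ε) (hε4 : ε < 1 / 4) {N : ℝ → ℝ} (hN : Continuous N) (hl : Lin N) (h0 : ∀ y, 0 ≤ N y)
    (ht : S.t ≤ U S.kt N 0) :
    U S.kt N 0 - U S.kt (avg ε N) 0 ≤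
      B * ((1 + S.C) * (∫ y, w S.a S.b (-y) * N y) + |S.t|) / Real.log (1 / ε) := by
  have hlog : 0 < Real.log (1 / ε) := by
    refine Real.log_pos ?_
    rw [lt_div_iff₀ hε]
    linarith
  obtain ⟨h1, h2⟩ := U_avg' S.hkt S.ha S.hb hε hN hl 0
  have h3 := S.hkt.integrable_lin S.ha S.hb hN.measurable hl 0
  have hw := (kern_w S.ha S.hb).integrable_lin S.ha S.hb hN.measurable hl 0
  simp only [zero_sub] at h1 h2 h3 hw
  have hU : U S.kt N 0 = ∫ y, S.kt (-y) * N y := by
    unfold U
    simp only [zero_sub]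
  have hneg : Integrable (fun y => max (-S.kt (-y)) 0 * N y) := by
    refine h3.mono ?_ (Eventually.of_forall fun y => ?_)
    · exact (((S.hkt.meas.comp measurable_neg).neg.max measurable_const).mul
        hN.measurable).aestronglyMeasurable
    · rw [norm_mul, norm_mul]
      refine mul_le_mul_of_nonneg_right ?_ (norm_nonneg _)
      rw [Real.norm_eq_abs, Real.norm_eq_abs, abs_of_nonneg (le_max_right _ _)]
      exact max_le (neg_le_abs _) (abs_nonneg _)
  have hpos : Integrable (fun y => max (S.kt (-y)) 0 * N y) := by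
    refine h3.mono ?_ (Eventually.of_forall fun y => ?_)
    · exact (((S.hkt.meas.comp measurable_neg).max measurable_const).mul
        hN.measurable).aestronglyMeasurable
    · rw [norm_mul, norm_mul]
      refine mul_le_mul_of_nonneg_right ?_ (norm_nonneg _)
      rw [Real.norm_eq_abs, Real.norm_eq_abs, abs_of_nonneg (le_max_right _ _)]
      exact max_le (le_abs_self _) (abs_nonneg _)
  have h4 : ∫ y, max (-S.kt (-y)) 0 * N y ≤ S.C * (∫ y, w S.a S.b (-y) * N y) + |S.t| := by
    have h5 : ∫ y, max (-S.kt (-y)) 0 * N y =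
        ∫ y, (max (S.kt (-y)) 0 * N y - S.kt (-y) * N y) := by
      refine integral_congr_ae (Eventually.of_forall fun y => ?_)
      simp only
      rcases le_total 0 (S.kt (-y)) with h | h
      · rw [max_eq_left h, max_eq_right (by linarith : -S.kt (-y) ≤ 0)]
        ring
      · rw [max_eq_right h, max_eq_left (by linarith : 0 ≤ -S.kt (-y))]
        ring
    rw [h5, integral_sub hpos h3, ← hU]
    have h6 : ∫ y, max (S.kt (-y)) 0 * N y ≤ ∫ y, S.C * (w S.a S.b (-y) * N y) := by
      refine integral_mono hpos (hw.const_mul _) fun y => ?_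
      simp only
      rw [← mul_assoc]
      refine mul_le_mul_of_nonneg_right (max_le (S.hkt.up _) ?_) (h0 y)
      exact mul_nonneg (by linarith [S.hC]) (w_pos _ _ _).le
    rw [integral_const_mul] at h6
    linarith [neg_abs_le S.t]
  have h7 : ∀ᵐ y : ℝ, S.kt (-y) * N y - avg ε S.kt (-y) * N y ≤
      B / Real.log (1 / ε) * (w S.a S.b (-y) * N y + max (-S.kt (-y)) 0 * N y) := by
    have h8 := (Measure.measurePreserving_neg (volume : Measure ℝ)).quasiMeasurePreserving.ae (hm ε hε hε4)
    filter_upwards [h8] with y hy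
    have h9 : S.kt (-y) - avg ε S.kt (-y) ≤
        B / Real.log (1 / ε) * (w S.a S.b (-y) + max (-S.kt (-y)) 0) := by
      refine hy.trans ?_
      rw [mul_div_right_comm]
      refine mul_le_mul_of_nonneg_left ?_ (by positivity)
      have h10 : (if |-y| ≤ 1 then max (-S.kt (-y)) 0 else 0) ≤ max (-S.kt (-y)) 0 := by
        split_ifs
        · exact le_rfl
        · exact le_max_right _ _
      linarith
    calc S.kt (-y) * N y - avg ε S.kt (-y) * N y = (S.kt (-y) - avg ε S.kt (-y)) * N y := by ring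
      _ ≤ (B / Real.log (1 / ε) * (w S.a S.b (-y) + max (-S.kt (-y)) 0)) * N y :=
          mul_le_mul_of_nonneg_right h9 (h0 y)
      _ = _ := by ring
  calc U S.kt N 0 - U S.kt (avg ε N) 0
      = ∫ y, (S.kt (-y) * N y - avg ε S.kt (-y) * N y) := by
        rw [integral_sub h3 h1, h2, hU]
    _ ≤ ∫ y, B / Real.log (1 / ε) * (w S.a S.b (-y) * N y + max (-S.kt (-y)) 0 * N y) :=
        integral_mono_ae (h3.sub h1) ((hw.add hneg).const_mul _) h7
    _ = B / Real.log (1 / ε) * ((∫ y, w S.a S.b (-y) * N y) +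
          ∫ y, max (-S.kt (-y)) 0 * N y) := by
        rw [integral_const_mul, integral_add hw hneg]
    _ ≤ B / Real.log (1 / ε) * ((1 + S.C) * (∫ y, w S.a S.b (-y) * N y) + |S.t|) := by
        refine mul_le_mul_of_nonneg_left ?_ (by positivity)
        linarith
    _ = _ := by rw [mul_div_right_comm]

end INDB
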