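import Pool.Agent.INDB.Stage
import Pool.Agent.INDB.MassB
import Pool.Agent.INDB.MolB
import Pool.Agent.INDB.CDefs

/-!
# INDB, module StageM: finished windows

PROOF. Constants `κ, sg, c0, CM, lam, b₂, X₀` of `stage`, `K` of `mass_bound`. `X` large, `be ∈ [b₂, X]`, `p` the parameters, `N₀` the solution, `M = CM log X`, `M' = lam M`. `N₀` is continuous, `≥ 0`, `Lin` (`N₀ = E` outside a compact set). `m₀ := K X² e^{4M'} ≤ e^{C₃ log X}` bounds its mass on `[-M, M']`. Let `ε = exp(-e^{C₄ log X})` with `C₄ = C₃ + 4`.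
Define `N y = avg ε N₀ y` for `y > -M-1`, `N y = N₀ y` for `y ≤ -M-1`; `L = CC log X ≥ M' + 2`. Between `-X + c0 + ε` and `-M - ε` and to the right of `M' + ε`, `N₀ = E` is affine on `[y-ε,y+ε]`, so `avg ε N₀ = N₀` there (`avg_affine`): `N` has the shape: `left`: for `y ≤ -L`: `N y = be max (y+X) c0`; `right`: `N y = slope (y+X)`
(`Par.E_right`), `be' = slope`; `X ≤ be'` (`slope_ge`: `slope ≥ 2 X E 0`), `be' ≤ E M' ≤ X² e^{2M'}`. Mass on `[-L,L]` (`avg_mass`): `≤ ∫_{[-L-1,L+1]} N₀ ≤ m₀ + (2L+2) · 2 X slope`-type bound, polynomial in `X`. Sup: `avg ε N₀ y ≤ (1/(2ε)) ∫_{[-L-1,L+1]} N₀ ≤ exp(e^{CC log X})`.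
Constraints, `x ≥ -X/4`: `U (avg ε N₀) x = avg ε (U N₀) x ≤ gam i` (all points `x - v ≥ -X/2`; average of values `< gam i`). `N` and `avg ε N₀` differ only for `|y + X - c0| ≤ ε`, by at most `be ε` (`avg_close`), where `x - y ≥ X/2 ≥ 1`: `|U N x - U (avg ε N₀) x| ≤ C be ε · 2ε ≤ e'`. So `U N x < gam i + e'`.
Target: `mol_target` with `∫ w(-y) N₀ y dy ≤ m₀ + (outside the window, `E y ≤ slope X (1+|y|)`-type bound) ≤ e^{C₅ log X}` and `log(1/ε) = e^{C₄ log X}` with `C₄ > C₅`: the loss tends to `0`; the difference at the kink is tiny. So `t - e' < U kt N 0`. `Q = exp (CC log X)`.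
-/

open MeasureTheory Set Filter Topology

namespace INDB

section finish

variable {ι : Type} [Fintype ι]

private lemma sm_lin {S : Sys ι} {κ : ℝ} {p : Par} {N : ℝ → ℝ} (hp : p.OK κ S.C)
    (hN : S.Sol p N) : Lin N := by
  obtain ⟨K, hK, hE⟩ := hp.lin_E
  obtain ⟨B, hB⟩ := (isCompact_Icc (a := -p.M) (b := p.M')).exists_bound_of_continuousOn
    hN.cont.continuousOn
  refine ⟨K + |B|, by positivity, fun y => ?_⟩
  by_cases hy : y ∈ Icc (-p.M) p.M'
  · have h1 := hB y hy
    rw [Real.norm_eq_abs] at h1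
    have h2 := le_abs_self B
    have h3 : 0 ≤ (K + |B|) * |y| := by positivity
    linarith
  · have h1 : y ≤ -p.M ∨ p.M' ≤ y := by
      by_contra hc
      push Not at hc
      exact hy ⟨hc.1.le, hc.2.le⟩
    rw [hN.out y h1]
    have h2 : 0 ≤ |B| * (1 + |y|) := by positivity
    linarith [hE y]

private lemma sm_kern_w {a b : ℝ} (ha : 0 < a) (hb : 0 < b) : Kern a b 2 (w a b) := by
  refine ⟨(continuous_w a b).measurable, fun u => ?_, fun u _ => ?_,
    (integrable_w ha hb).integrableOn, ?_⟩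
  · linarith [w_pos a b u]
  · rw [abs_of_pos (w_pos a b u)]
    linarith [w_pos a b u]
  · have h1 : ∫ u in Icc (-1 : ℝ) 1, |w a b u| ≤ ∫ _ in Icc (-1 : ℝ) 1, (1 : ℝ) := by
      refine setIntegral_mono_on (integrable_w ha hb).abs.integrableOn (by simp)
        measurableSet_Icc fun u _ => ?_
      rw [abs_of_pos (w_pos a b u)]
      exact w_le_one ha.le hb.le u
    refine h1.trans (le_of_eq ?_)
    rw [setIntegral_const, measureReal_def, Real.volume_Icc, ENNReal.toReal_ofReal (by norm_num)]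
    norm_num

private lemma sm_w_lin {a b : ℝ} (ha : 0 < a) (hb : 0 < b) :
    Integrable (fun u => w a b (-u) * (1 + |u|)) := by
  have h := (sm_kern_w ha hb).integrable_lin ha hb (N := fun y => 1 + |y|) (by fun_prop)
    ⟨1, zero_le_one, fun y => by rw [abs_of_nonneg (by positivity), one_mul]⟩ 0
  simpa using h

/-- the solution is at most `E` outside of the window -/
private lemma sm_le {S : Sys ι} {κ : ℝ} {p : Par} {N : ℝ → ℝ} (hp : p.OK κ S.C)
    (hN : S.Sol p N) {y z : ℝ} (hyz : y ≤ z) :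
    N y ≤ (Icc (-p.M) p.M').indicator N y + p.E z := by
  by_cases hy : y ∈ Icc (-p.M) p.M'
  · rw [indicator_of_mem hy]
    linarith [hp.pos_E z]
  · have h1 : y ≤ -p.M ∨ p.M' ≤ y := by
      by_contra hc
      push Not at hc
      exact hy ⟨hc.1.le, hc.2.le⟩
    rw [indicator_of_notMem hy, zero_add, hN.out y h1]
    exact hp.mono_E hyz

private lemma sm_intM {S : Sys ι} {p : Par} {N : ℝ → ℝ} (hN : S.Sol p N) :
    Integrable ((Icc (-p.M) p.M').indicator N) := by
  rw [integrable_indicator_iff measurableSet_Icc]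
  exact hN.cont.integrableOn_Icc

/-- mass of the solution on a large interval -/
private lemma sm_mass {S : Sys ι} {κ : ℝ} {p : Par} {N : ℝ → ℝ} (hp : p.OK κ S.C)
    (hN : S.Sol p N) {m : ℝ} (hm : ∫ y in Icc (-p.M) p.M', N y ≤ m) {T : ℝ} (hT : 0 ≤ T) :
    ∫ y in Icc (-T) T, N y ≤ m + 2 * T * p.E T := by
  have hc : Integrable (fun _ : ℝ => p.E T) (volume.restrict (Icc (-T) T)) := by simp
  have h1 : ∫ y in Icc (-T) T, N y ≤
      ∫ y in Icc (-T) T, ((Icc (-p.M) p.M').indicator N y + p.E T) := by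
    refine setIntegral_mono_on hN.cont.integrableOn_Icc
      ((sm_intM hN).integrableOn.add hc) measurableSet_Icc
      fun y hy => sm_le hp hN hy.2
  have h2 : ∫ y in Icc (-T) T, (Icc (-p.M) p.M').indicator N y ≤
      ∫ y, (Icc (-p.M) p.M').indicator N y :=
    setIntegral_le_integral (sm_intM hN) (Eventually.of_forall fun y =>
      indicator_nonneg (fun y _ => hN.nonneg y) y)
  have h3 : ∫ y, (Icc (-p.M) p.M').indicator N y = ∫ y in Icc (-p.M) p.M', N y :=
    integral_indicator measurableSet_Icc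
  rw [h3] at h2
  rw [integral_add (sm_intM hN).integrableOn hc, setIntegral_const, measureReal_def,
    Real.volume_Icc, ENNReal.toReal_ofReal (by linarith), smul_eq_mul] at h1
  linarith

/-- the weighted mass of the solution -/
private lemma sm_wmass {S : Sys ι} {κ : ℝ} {p : Par} {N : ℝ → ℝ} (hp : p.OK κ S.C)
    (hN : S.Sol p N) {m : ℝ} (hm : ∫ y in Icc (-p.M) p.M', N y ≤ m) :
    ∫ y, w S.a S.b (-y) * N y ≤
      m + p.E p.M' * ∫ u, w S.a S.b (-u) * (1 + |u|) := by
  obtain ⟨b1, -, -, b4, b5, b6, b7, b8, b9⟩ := hp.basic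
  have hM' : 0 < p.M' := by
    have := hp.M1
    have := hp.C1
    linarith
  have hEM' := hp.pos_E p.M'
  have hwN : Integrable (fun y => w S.a S.b (-y) * N y) := by
    have h := (sm_kern_w S.ha S.hb).integrable_lin S.ha S.hb hN.cont.measurable (sm_lin hp hN) 0
    simpa using h
  have h1 : ∫ y, w S.a S.b (-y) * N y ≤ ∫ y, ((Icc (-p.M) p.M').indicator N y +
      p.E p.M' * (w S.a S.b (-y) * (1 + |y|))) := by
    refine integral_mono hwN ((sm_intM hN).add ((sm_w_lin S.ha S.hb).const_mul _)) fun y => ?_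
    simp only
    have hw := w_pos S.a S.b (-y)
    have hw1 := w_le_one S.ha.le S.hb.le (-y)
    by_cases hy : y ∈ Icc (-p.M) p.M'
    · rw [indicator_of_mem hy]
      have h2 := mul_le_mul_of_nonneg_right hw1 (hN.nonneg y)
      have h3 : 0 ≤ p.E p.M' * (w S.a S.b (-y) * (1 + |y|)) := by positivity
      linarith
    · rw [indicator_of_notMem hy, zero_add]
      have hout : y ≤ -p.M ∨ p.M' ≤ y := by
        by_contra hc
        push Not at hc
        exact hy ⟨hc.1.le, hc.2.le⟩
      have h4 : N y ≤ p.E p.M' * (1 + |y|) := by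
        rw [hN.out y hout]
        rcases hout with h | h
        · have h7 : p.E y ≤ p.E p.M' := hp.mono_E (by linarith [hp.M1, hp.C1])
          have h8 : 0 ≤ p.E p.M' * |y| := by positivity
          linarith
        · have e1 := Par.E_right hp h
          have e2 := Par.E_right hp (le_refl p.M')
          have h9 : p.slope ≤ p.E p.M' := by
            rw [e2]
            refine le_mul_of_one_le_right b6.le ?_
            linarith
          have h10 : p.E y = p.E p.M' + p.slope * (y - p.M') := by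
            rw [e1, e2]
            ring
          have h12 : p.slope * (y - p.M') ≤ p.E p.M' * |y| :=
            mul_le_mul h9 (by linarith [le_abs_self y]) (by linarith) hEM'.le
          rw [h10]
          linarith
      have h5 := mul_le_mul_of_nonneg_left h4 hw.le
      exact h5.trans (le_of_eq (by ring))
  rw [integral_add (sm_intM hN) ((sm_w_lin S.ha S.hb).const_mul _), integral_const_mul,
    integral_indicator measurableSet_Icc] at h1
  linarith

/-- the finished density -/
private noncomputable def fin (ε : ℝ) (p : Par) (N : ℝ → ℝ) (y : ℝ) : ℝ :=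
  if y ≤ -p.M - 1 then N y else avg ε N y

private lemma fin_meas {ε : ℝ} (hε : 0 < ε) (p : Par) {N : ℝ → ℝ} (hN : Continuous N) :
    Measurable (fin ε p N) := by
  unfold fin
  exact Measurable.ite measurableSet_Iic hN.measurable (avg_cont hε hN).measurable

/-- difference of the finished density and the average -/
private lemma fin_diff {S : Sys ι} {κ : ℝ} {p : Par} {N : ℝ → ℝ} (hp : p.OK κ S.C)
    (hN : S.Sol p N) {ε : ℝ} (hε : 0 < ε) (hε1 : ε ≤ 1) (y : ℝ) :
    |fin ε p N y - avg ε N y| ≤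
      (Icc (-p.X + p.c0 - ε) (-p.X + p.c0 + ε)).indicator (fun _ => p.be * ε) y := by
  have hbe : 0 < p.be := by linarith [hp.be1]
  unfold fin
  by_cases hy : y ≤ -p.M - 1
  · rw [if_pos hy]
    have hNv : ∀ v, |v| ≤ ε → N (y - v) = p.be * max (y - v + p.X) p.c0 := by
      intro v hv
      have h1 := abs_le.1 hv
      have h2 : y - v ≤ -p.M := by linarith [h1.1]
      rw [hN.out _ (Or.inl h2)]
      unfold Par.E Par.bg
      rw [if_pos h2]
    have hN0 : N y = p.be * max (y + p.X) p.c0 := by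
      have := hNv 0 (by simpa using hε.le)
      simpa using this
    by_cases hk : y ∈ Icc (-p.X + p.c0 - ε) (-p.X + p.c0 + ε)
    · rw [indicator_of_mem hk, abs_sub_comm]
      refine avg_close hε hN.cont fun v hv => ?_
      rw [hNv v hv, hN0, ← mul_sub, abs_mul, abs_of_pos hbe]
      refine mul_le_mul_of_nonneg_left ?_ hbe.le
      refine (abs_max_sub_max_le_abs _ _ _).trans ?_
      rw [show y - v + p.X - (y + p.X) = -v by ring, abs_neg]
      exact hv
    · rw [indicator_of_notMem hk]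
      have h3 : avg ε N y = N y := by
        rcases lt_or_ge y (-p.X + p.c0 - ε) with h | h
        · rw [avg_affine hε (A := p.be * p.c0) (B := 0) fun v hv => ?_]
          · rw [hN0, max_eq_right (by linarith)]
            ring
          · rw [hNv v hv, max_eq_right (by linarith [(abs_le.1 hv).1])]
            ring
        · have h' : -p.X + p.c0 + ε < y := by
            by_contra hc
            exact hk ⟨h, not_lt.1 hc⟩
          rw [avg_affine hε (A := p.be * p.X) (B := p.be) fun v hv => ?_]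
          · rw [hN0, max_eq_left (by linarith)]
            ring
          · rw [hNv v hv, max_eq_left (by linarith [(abs_le.1 hv).2])]
            ring
      rw [h3, sub_self, abs_zero]
  · rw [if_neg hy, sub_self, abs_zero]
    exact indicator_nonneg (fun _ _ => by positivity) _

private lemma fin_U {S : Sys ι} {κ : ℝ} {p : Par} {N : ℝ → ℝ} (hp : p.OK κ S.C)
    (hN : S.Sol p N) {ε : ℝ} (hε : 0 < ε) (hε1 : ε ≤ 1) (hlf : Lin (fin ε p N))
    (hla : Lin (avg ε N)) {k : ℝ → ℝ} (hk : Kern S.a S.b S.C k) {x : ℝ} (hx : -(p.X / 4) ≤ x) :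
    |U k (fin ε p N) x - U k (avg ε N) x| ≤ 2 * S.C * p.be * ε ^ 2 := by
  have hbe : 0 < p.be := by linarith [hp.be1]
  have hC := hp.C1
  have i1 := hk.integrable_lin S.ha S.hb (fin_meas hε p hN.cont) hlf x
  have i2 := hk.integrable_lin S.ha S.hb (avg_cont hε hN.cont).measurable hla x
  unfold U
  rw [← integral_sub i1 i2]
  have i3 : Integrable ((Icc (-p.X + p.c0 - ε) (-p.X + p.c0 + ε)).indicator
      (fun _ => S.C * (p.be * ε))) := by
    rw [integrable_indicator_iff measurableSet_Icc]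
    exact integrableOn_const (by rw [Real.volume_Icc]; exact ENNReal.ofReal_ne_top)
  refine (abs_integral_le_integral_abs).trans ?_
  have h1 : ∫ y, |k (x - y) * fin ε p N y - k (x - y) * avg ε N y| ≤
      ∫ y, (Icc (-p.X + p.c0 - ε) (-p.X + p.c0 + ε)).indicator (fun _ => S.C * (p.be * ε)) y := by
    refine integral_mono (i1.sub i2).abs i3 fun y => ?_
    change |k (x - y) * fin ε p N y - k (x - y) * avg ε N y| ≤ _
    rw [← mul_sub, abs_mul]
    have h2 := fin_diff hp hN hε hε1 y
    by_cases hy : y ∈ Icc (-p.X + p.c0 - ε) (-p.X + p.c0 + ε)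
    · rw [indicator_of_mem hy] at h2 ⊢
      refine mul_le_mul ?_ h2 (abs_nonneg _) (by linarith)
      have h3 : 1 ≤ x - y := by
        have := hp.X8
        have := hp.M1
        have := hp.basic.1
        have := hp.c01
        linarith [hy.2]
      refine (hk.abs _ (by rw [abs_of_nonneg (by linarith)]; exact h3)).trans ?_
      exact mul_le_of_le_one_right (by linarith) (w_le_one S.ha.le S.hb.le _)
    · rw [indicator_of_notMem hy] at h2 ⊢
      have h3 : |fin ε p N y - avg ε N y| = 0 := le_antisymm h2 (abs_nonneg _)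
      rw [h3, mul_zero]
  refine h1.trans (le_of_eq ?_)
  rw [integral_indicator measurableSet_Icc, setIntegral_const, measureReal_def, Real.volume_Icc,
    ENNReal.toReal_ofReal (by linarith), smul_eq_mul]
  ring

private lemma finish {S : Sys ι} {κ : ℝ} {p : Par} {N : ℝ → ℝ} (hp : p.OK κ S.C)
    (hN : S.Sol p N) {B ε m L Q : ℝ} (hB : 0 ≤ B) (hmol : S.Mol B) (hε : 0 < ε) (hε4 : ε < 1 / 4)
    (hm : ∫ y in Icc (-p.M) p.M', N y ≤ m) (hL : p.M' + 2 ≤ L)
    (hQ1 : 2 * (m + 2 * (L + 1) * p.E (L + 1)) ≤ Q)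
    (hQ2 : p.E (L + 1) ≤ Real.exp Q)
    (hQ3 : 1 / (2 * ε) * (m + 2 * (L + 1) * p.E (L + 1)) ≤ Real.exp Q) :
    Shape p.be p.X p.c0 p.slope L Q (fin ε p N) ∧
      (∀ i x, -(p.X / 4) ≤ x → U (S.k i) (fin ε p N) x ≤ S.gam i + 2 * S.C * p.be * ε ^ 2) ∧
      S.t < U S.kt (fin ε p N) 0 + 2 * S.C * p.be * ε ^ 2 +
        B * ((1 + S.C) * (m + p.E p.M' * ∫ u, w S.a S.b (-u) * (1 + |u|)) + |S.t|) /
          Real.log (1 / ε) := by
  have hbe : 0 < p.be := by linarith [hp.be1]
  have hC := hp.C1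
  have hX8 := hp.X8
  have hM1 := hp.M1
  have hMM' := hp.basic.1
  have hc01 := hp.c01
  have hnl := sm_lin hp hN
  have hla : Lin (avg ε N) := avg_lin hε (by linarith) hN.cont hnl
  have hnn : ∀ y, 0 ≤ fin ε p N y := by
    intro y
    unfold fin
    split_ifs
    · exact hN.nonneg y
    · exact avg_nonneg hε hN.nonneg y
  have hle : ∀ y, fin ε p N y ≤ N y + avg ε N y := by
    intro y
    unfold fin
    have h1 := hN.nonneg y
    have h2 := avg_nonneg hε hN.nonneg y
    split_ifs <;> linarith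
  have hlf : Lin (fin ε p N) := by
    obtain ⟨K, hK, h1⟩ := hnl
    obtain ⟨K', hK', h2⟩ := hla
    refine ⟨K + K', by positivity, fun y => ?_⟩
    rw [abs_of_nonneg (hnn y)]
    have h3 := le_abs_self (N y)
    have h4 := le_abs_self (avg ε N y)
    linarith [h1 y, h2 y, hle y]
  have hL1 : 0 ≤ L + 1 := by linarith
  have hbig := sm_mass hp hN hm hL1
  refine ⟨⟨fin_meas hε p hN.cont, hnn, ?_, ?_, ?_, ?_⟩, ?_, ?_⟩
  · intro y hy
    unfold fin
    rw [if_pos (by linarith), hN.out y (Or.inl (by linarith))]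
    unfold Par.E Par.bg
    rw [if_pos (by linarith)]
  · intro y hy
    unfold fin
    rw [if_neg (by linarith), avg_affine hε (A := p.slope * p.X) (B := p.slope) fun v hv => ?_]
    · ring
    · have h1 := (abs_le.1 hv).2
      rw [hN.out _ (Or.inr (by linarith)), Par.E_right hp (by linarith)]
      ring
  · have h1 : ∫ y in Icc (-L) L, fin ε p N y ≤ ∫ y in Icc (-L) L, (N y + avg ε N y) := by
      refine setIntegral_mono_on ?_ (hN.cont.add (avg_cont hε hN.cont)).integrableOn_Icc
        measurableSet_Icc fun y _ => hle y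
      refine (hN.cont.add (avg_cont hε hN.cont)).integrableOn_Icc.mono'
        (fin_meas hε p hN.cont).aestronglyMeasurable (Eventually.of_forall fun y => ?_)
      rw [Real.norm_eq_abs, abs_of_nonneg (hnn y)]
      exact hle y
    rw [integral_add hN.cont.integrableOn_Icc (avg_cont hε hN.cont).integrableOn_Icc] at h1
    have h2 := avg_mass hε hN.cont hN.nonneg (α := -L) (β := L) (by linarith)
    have h3 : ∫ y in Icc (-L - ε) (L + ε), N y ≤ ∫ y in Icc (-(L + 1)) (L + 1), N y := by
      refine setIntegral_mono_set hN.cont.integrableOn_Icc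
        (Eventually.of_forall fun y => hN.nonneg y) ?_
      exact LE.le.eventuallyLE (Icc_subset_Icc (by linarith) (by linarith))
    have h4 : ∫ y in Icc (-L) L, N y ≤ ∫ y in Icc (-(L + 1)) (L + 1), N y := by
      refine setIntegral_mono_set hN.cont.integrableOn_Icc
        (Eventually.of_forall fun y => hN.nonneg y) ?_
      exact LE.le.eventuallyLE (Icc_subset_Icc (by linarith) (by linarith))
    linarith
  · intro y hy1 hy2
    unfold fin
    split_ifs with h
    · rw [hN.out y (Or.inl (by linarith))]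
      exact (hp.mono_E (by linarith)).trans hQ2
    · rw [avg_eq hε]
      refine le_trans ?_ hQ3
      refine mul_le_mul_of_nonneg_left ?_ (by positivity)
      refine le_trans ?_ hbig
      refine setIntegral_mono_set hN.cont.integrableOn_Icc
        (Eventually.of_forall fun y => hN.nonneg y) ?_
      exact LE.le.eventuallyLE (Icc_subset_Icc (by linarith) (by linarith))
  · intro i x hx
    have h1 := fin_U hp hN hε (by linarith) hlf hla (S.hk i) hx
    have h2 : U (S.k i) (avg ε N) x ≤ S.gam i := by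
      rw [U_avg (S.hk i) S.ha S.hb hε hN.cont hnl, avg]
      have hUc := (S.hk i).continuous_U S.ha S.hb hN.cont hnl
      have h3 : ∫ v in Icc (-ε) ε, U (S.k i) N (x - v) ≤ ∫ _ in Icc (-ε) ε, S.gam i := by
        refine setIntegral_mono_on ?_ (by simp) measurableSet_Icc fun v hv => ?_
        · exact (hUc.comp (continuous_const.sub continuous_id)).integrableOn_Icc
        · refine (hN.con i _ ?_).le
          linarith [hv.2]
      rw [setIntegral_const, measureReal_def, Real.volume_Icc, ENNReal.toReal_ofReal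
        (by linarith), smul_eq_mul] at h3
      calc 1 / (2 * ε) * ∫ v in Icc (-ε) ε, U (S.k i) N (x - v)
          ≤ 1 / (2 * ε) * ((ε - -ε) * S.gam i) := mul_le_mul_of_nonneg_left h3 (by positivity)
        _ = S.gam i := by
            rw [sub_neg_eq_add, ← two_mul]
            field_simp
    linarith [(abs_le.1 h1).2]
  · have h1 := fin_U hp hN hε (by linarith) hlf hla S.hkt (x := 0) (by linarith)
    have h2 := mol_target S hB hmol hε hε4 hN.cont hnl hN.nonneg hN.tar.le
    have h3 := sm_wmass hp hN hm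
    have hlog : 0 < Real.log (1 / ε) := by
      refine Real.log_pos ?_
      rw [lt_div_iff₀ hε]
      linarith
    have h4 : B * ((1 + S.C) * (∫ y, w S.a S.b (-y) * N y) + |S.t|) / Real.log (1 / ε) ≤
        B * ((1 + S.C) * (m + p.E p.M' * ∫ u, w S.a S.b (-u) * (1 + |u|)) + |S.t|) /
          Real.log (1 / ε) := by
      refine div_le_div_of_nonneg_right ?_ hlog.le
      refine mul_le_mul_of_nonneg_left ?_ hB
      have := mul_le_mul_of_nonneg_left h3 (show 0 ≤ 1 + S.C by linarith)
      linarith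
    linarith [hN.tar, (abs_le.1 h1).1]

end finish

theorem stage_m {ι : Type} [Fintype ι] (S : Sys ι) {e B e' : ℝ} (he : 0 < e) (hcert : S.Cert e)
    (hB : 0 ≤ B) (hm : S.Mol B) (he' : 0 < e') :
    ∃ c0 b₂ CC X₀ : ℝ, 1 ≤ c0 ∧ 1 ≤ b₂ ∧ 1 ≤ CC ∧ 1 ≤ X₀ ∧
      ∀ X be : ℝ, X₀ ≤ X → b₂ ≤ be → be ≤ X → ∃ (be' : ℝ) (N : ℝ → ℝ),
        Shape be X c0 be' (CC * Real.log X) (Real.exp (CC * Real.log X)) N ∧ X ≤ be' ∧
        be' ≤ Real.exp (CC * Real.log X) ∧
        (∀ i x, -(X / 4) ≤ x → U (S.k i) N x < S.gam i + e') ∧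
        S.t - e' < U S.kt N 0 := by
  obtain ⟨κ, sg, c0, CM, lam, b₂, X₀', hSub, hsg0, hsgκ, hCM, hlam, hb2, hX0', H⟩ :=
    stage S he hcert
  obtain ⟨K, hK1, HK⟩ := mass_bound S
  obtain ⟨D, hD⟩ : ∃ D, D = lam * CM := ⟨_, rfl⟩
  have hD0 : 0 < D := by
    rw [hD]
    exact mul_pos (by linarith) hCM
  obtain ⟨A, hA⟩ : ∃ A, A = 2 + 4 * D := ⟨_, rfl⟩
  have hA0 : 2 ≤ A := by linarith
  obtain ⟨W2, hW2⟩ : ∃ W2, W2 = ∫ u, w S.a S.b (-u) * (1 + |u|) := ⟨_, rfl⟩
  have hW20 : 0 ≤ W2 := by
    rw [hW2]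
    exact integral_nonneg fun u => mul_nonneg (w_pos _ _ _).le (by positivity)
  obtain ⟨Kt, hKt⟩ : ∃ Kt, Kt = B * ((1 + S.C) * (K + W2) + |S.t|) := ⟨_, rfl⟩
  have hC := S.hC
  have hKt0 : 0 ≤ Kt := by
    rw [hKt]
    have : 0 < K := by linarith
    have : 0 < S.C := by linarith
    positivity
  have hCC0 : 0 < A + 4 := by linarith
  obtain ⟨X₁, hX₁⟩ := eventually_atTop.1
    (Real.isLittleO_log_id_atTop.bound (show 0 < 1 / (2 * (A + 4)) by positivity))
  have hc0 : 1 ≤ c0 := by
    have h1 := (H (max X₀' b₂) b₂ (le_max_left _ _) le_rfl (le_max_right _ _)).1.c01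
    exact h1
  refine ⟨c0, b₂, A + 4, max (max (max X₀' 3) (max X₁ (2 * (K + 4))))
    (max (16 * S.C / e') (8 * Kt / e')), hc0, hb2, by linarith, ?_, ?_⟩
  · exact hX0'.trans (((le_max_left _ _).trans (le_max_left _ _)).trans (le_max_left _ _))
  intro X be hX hbe hbeX
  have g1 : X₀' ≤ X := (((le_max_left _ _).trans (le_max_left _ _)).trans (le_max_left _ _)).trans hX
  have g2 : 3 ≤ X := (((le_max_right _ _).trans (le_max_left _ _)).trans (le_max_left _ _)).trans hX
  have g3 : X₁ ≤ X := (((le_max_left _ _).trans (le_max_right _ _)).trans (le_max_left _ _)).trans hX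
  have g4 : 2 * (K + 4) ≤ X :=
    (((le_max_right _ _).trans (le_max_right _ _)).trans (le_max_left _ _)).trans hX
  have g5 : 16 * S.C / e' ≤ X := ((le_max_left _ _).trans (le_max_right _ _)).trans hX
  have g6 : 8 * Kt / e' ≤ X := ((le_max_right _ _).trans (le_max_right _ _)).trans hX
  have hX0 : 0 < X := by linarith
  obtain ⟨l, hl⟩ : ∃ l, l = Real.log X := ⟨_, rfl⟩
  have hXl : Real.exp l = X := by
    rw [hl]
    exact Real.exp_log hX0
  have hl1 : 1 ≤ l := by
    rw [hl, Real.le_log_iff_exp_le hX0]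
    linarith [Real.exp_one_lt_d9]
  have hlX : (A + 4) * l + 1 ≤ X := by
    have h1 := hX₁ X g3
    rw [id_eq, Real.norm_eq_abs, Real.norm_eq_abs, ← hl, abs_of_nonneg (by linarith),
      abs_of_pos hX0] at h1
    have h2 := mul_le_mul_of_nonneg_left h1 hCC0.le
    have h3 : (A + 4) * (1 / (2 * (A + 4)) * X) = X / 2 := by field_simp
    linarith
  rw [← hl]
  obtain ⟨hp, N, hN⟩ := H X be g1 hbe hbeX
  rw [← hl] at hp hN
  have hmass := HK κ _ N hp hN
  obtain ⟨p, hpd⟩ : ∃ p : Par, p = ⟨be, X, c0, sg, CM * l, lam * (CM * l)⟩ := ⟨_, rfl⟩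
  rw [← hpd] at hp hN hmass
  have ebe : p.be = be := by rw [hpd]
  have eX : p.X = X := by rw [hpd]
  have ec0 : p.c0 = c0 := by rw [hpd]
  have eM' : p.M' = D * l := by
    rw [hpd, hD]
    ring
  obtain ⟨b1, -, -, b4, b5, b6, b7, b8, b9⟩ := hp.basic
  rw [eX] at b9 b7 b4
  have hM'0 : 0 < p.M' := by
    rw [eM']
    positivity
  have hexpA : X ^ 2 * Real.exp (4 * p.M') = Real.exp (A * l) := by
    rw [eM', ← hXl, ← Real.exp_nat_mul, ← Real.exp_add, hA]
    congr 1
    push_cast
    ring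
  rw [eX, hexpA] at hmass
  have hexp0 := Real.exp_pos (A * l)
  have hEM' : p.E p.M' ≤ Real.exp (A * l) := by
    have hMM : -p.M ≤ p.M' := by linarith [hp.M1, hp.C1]
    rw [Par.E_mid hp hMM le_rfl, ← hexpA]
    have h1 : Real.exp (p.sg * (p.M' + p.M)) ≤ Real.exp (4 * p.M') := by
      refine Real.exp_le_exp.2 ?_
      have h2 : p.sg ≤ 1 := by linarith [hp.sgκ, hp.κ1]
      have h4 : 0 ≤ p.M' + p.M := by linarith [hp.M1, hp.C1]
      have h3 := mul_le_mul_of_nonneg_right h2 h4
      linarith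
    exact mul_le_mul b9 h1 (Real.exp_pos _).le (by positivity)
  have hslope : p.slope ≤ Real.exp (A * l) := by
    refine le_trans ?_ hEM'
    rw [Par.E_right hp (le_refl p.M')]
    refine le_mul_of_one_le_right b6.le ?_
    rw [eX]
    linarith
  obtain ⟨L, hL⟩ : ∃ L, L = (A + 4) * l := ⟨_, rfl⟩
  rw [← hL] at hlX ⊢
  have hL2 : p.M' + 2 ≤ L := by
    rw [hL, eM', hA]
    have : 0 ≤ D * l := by positivity
    linarith
  have hEL : p.E (L + 1) ≤ Real.exp (A * l) * (2 * X) := by
    rw [Par.E_right hp (by linarith), eX]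
    refine mul_le_mul hslope (by linarith) (by linarith) hexp0.le
  have hEL0 := hp.pos_E (L + 1)
  obtain ⟨V, hV⟩ : ∃ V, V = K * Real.exp (A * l) + 2 * (L + 1) * p.E (L + 1) := ⟨_, rfl⟩
  obtain ⟨Z, hZ⟩ : ∃ Z, Z = Real.exp ((A + 3) * l) := ⟨_, rfl⟩
  have hZ2 : Z = X * (X ^ 2 * Real.exp (A * l)) := by
    rw [hZ, ← hXl, ← Real.exp_nat_mul, ← Real.exp_add, ← Real.exp_add]
    congr 1
    push_cast
    ring
  have hZ0 : 0 < Z := by
    rw [hZ]
    exact Real.exp_pos _
  have hVZ : 2 * V ≤ Z := by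
    have h1 : 2 * (L + 1) * p.E (L + 1) ≤ (2 * X) * (Real.exp (A * l) * (2 * X)) :=
      mul_le_mul (by linarith) hEL hEL0.le (by linarith)
    have h2 : K * Real.exp (A * l) ≤ K * (X ^ 2 * Real.exp (A * l)) := by
      refine mul_le_mul_of_nonneg_left ?_ (by linarith)
      refine le_mul_of_one_le_left hexp0.le ?_
      exact one_le_pow₀ (by linarith only [g2])
    have h3 : V ≤ (K + 4) * (X ^ 2 * Real.exp (A * l)) := by
      rw [hV]
      have h4 : (2 * X) * (Real.exp (A * l) * (2 * X)) = 4 * (X ^ 2 * Real.exp (A * l)) := by ring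
      linarith
    have h5 : 0 ≤ X ^ 2 * Real.exp (A * l) := by positivity
    rw [hZ2]
    have h6 := mul_le_mul_of_nonneg_right g4 h5
    linarith
  obtain ⟨Q, hQ⟩ : ∃ Q, Q = Real.exp L := ⟨_, rfl⟩
  have hQZ : Q = X * Z := by
    rw [hQ, hL, hZ, ← hXl, ← Real.exp_add]
    congr 1
    ring
  have hQZ2 : 2 * Z ≤ Q := by
    rw [hQZ]
    exact mul_le_mul_of_nonneg_right (by linarith) hZ0.le
  have hEV : p.E (L + 1) ≤ V := by
    have h1 : 1 * p.E (L + 1) ≤ 2 * (L + 1) * p.E (L + 1) :=
      mul_le_mul_of_nonneg_right (by linarith) hEL0.le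
    have h2 : 0 ≤ K * Real.exp (A * l) := by
      have : 0 < K := by linarith
      positivity
    linarith
  have hV0 : 0 < V := by linarith
  -- the choice of `ε`
  obtain ⟨Y, hY⟩ : ∃ Y, Y = Real.exp ((A + 1) * l) := ⟨_, rfl⟩
  have hY2 : Y = X * Real.exp (A * l) := by
    rw [hY, ← hXl, ← Real.exp_add]
    congr 1
    ring
  have hYX : X ≤ Y := by
    rw [hY2]
    refine le_mul_of_one_le_right hX0.le (Real.one_le_exp (by positivity))
  have hYZ : Y ≤ Z := by
    rw [hY, hZ]
    refine Real.exp_le_exp.2 (mul_le_mul_of_nonneg_right (by linarith) (by linarith))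
  obtain ⟨ε, hεd⟩ : ∃ ε, ε = Real.exp (-Y) := ⟨_, rfl⟩
  have hε : 0 < ε := by
    rw [hεd]
    exact Real.exp_pos _
  have hεX : ε ≤ 1 / (X + 1) := by
    rw [hεd, Real.exp_neg, one_div]
    refine inv_anti₀ (by linarith) ?_
    exact (Real.add_one_le_exp X).trans (Real.exp_le_exp.2 hYX)
  have hε4 : ε < 1 / 4 := by
    rw [hεd, Real.exp_neg, one_div]
    refine inv_strictAnti₀ (by norm_num) ?_
    have h1 := Real.add_one_lt_exp (show Y ≠ 0 by linarith)
    linarith
  have hεX2 : X * ε ≤ 1 := by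
    have h1 := mul_le_mul_of_nonneg_left hεX hX0.le
    have h2 : X * (1 / (X + 1)) ≤ 1 := by
      rw [mul_one_div, div_le_one (by linarith)]
      linarith
    linarith
  have hinv : 1 / ε = Real.exp Y := by
    rw [hεd, Real.exp_neg, one_div, inv_inv]
  have hlog : Real.log (1 / ε) = Y := by
    rw [hinv, Real.log_exp]
  have hQ1 : 2 * (K * Real.exp (A * l) + 2 * (L + 1) * p.E (L + 1)) ≤ Q := by
    rw [← hV]
    linarith
  have hQe : Q ≤ Real.exp Q := by linarith [Real.add_one_le_exp Q]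
  have hQ2 : p.E (L + 1) ≤ Real.exp Q := by linarith
  have hQ3 : 1 / (2 * ε) * (K * Real.exp (A * l) + 2 * (L + 1) * p.E (L + 1)) ≤ Real.exp Q := by
    rw [← hV]
    have h1 : 1 / (2 * ε) * V = Real.exp Y * (V / 2) := by
      rw [← hinv]
      field_simp
    rw [h1]
    calc Real.exp Y * (V / 2) ≤ Real.exp Z * Real.exp Z := by
          refine mul_le_mul (Real.exp_le_exp.2 hYZ) ?_ (by positivity) (Real.exp_pos _).le
          linarith [Real.add_one_le_exp Z]
      _ = Real.exp (2 * Z) := by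
          rw [← Real.exp_add]
          congr 1
          ring
      _ ≤ Real.exp Q := Real.exp_le_exp.2 hQZ2
  obtain ⟨f1, f2, f3⟩ := finish hp hN hB hm hε hε4 hmass (L := L) (Q := Q) hL2 hQ1 hQ2 hQ3
  have herr : 2 * S.C * p.be * ε ^ 2 ≤ e' / 8 := by
    have h1 : p.be * ε ^ 2 ≤ ε := by
      rw [ebe]
      have h2 : be * ε ≤ 1 := by
        have := mul_le_mul_of_nonneg_right hbeX hε.le
        linarith
      have h3 := mul_le_mul_of_nonneg_right h2 hε.le
      have h4 : be * ε ^ 2 = be * ε * ε := by ring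
      rw [h4]
      linarith
    have h5 : 16 * S.C ≤ X * e' := by
      rw [div_le_iff₀ he'] at g5
      exact g5
    have h6 : 16 * S.C * ε ≤ e' := by
      have h7 := mul_le_mul_of_nonneg_right h5 hε.le
      have h8 := mul_le_mul_of_nonneg_right hεX2 he'.le
      have h9 : X * e' * ε = X * ε * e' := by ring
      linarith
    have h10 := mul_le_mul_of_nonneg_left h1 (show 0 ≤ 2 * S.C by linarith)
    have h11 : 2 * S.C * p.be * ε ^ 2 = 2 * S.C * (p.be * ε ^ 2) := by ring
    rw [h11]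
    linarith
  have herr2 : B * ((1 + S.C) * (K * Real.exp (A * l) + p.E p.M' * W2) + |S.t|) /
      Real.log (1 / ε) ≤ e' / 8 := by
    rw [hlog, div_le_iff₀ (by linarith)]
    have h1 : p.E p.M' * W2 ≤ Real.exp (A * l) * W2 := mul_le_mul_of_nonneg_right hEM' hW20
    have h2 : |S.t| ≤ Real.exp (A * l) * |S.t| :=
      le_mul_of_one_le_left (abs_nonneg _) (Real.one_le_exp (by positivity))
    have h3 : B * ((1 + S.C) * (K * Real.exp (A * l) + p.E p.M' * W2) + |S.t|) ≤
        Kt * Real.exp (A * l) := by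
      rw [hKt]
      have h4 := mul_le_mul_of_nonneg_left h1 (show 0 ≤ 1 + S.C by linarith)
      have h5 : (1 + S.C) * (K * Real.exp (A * l) + p.E p.M' * W2) + |S.t| ≤
          ((1 + S.C) * (K + W2) + |S.t|) * Real.exp (A * l) := by linarith
      have h6 := mul_le_mul_of_nonneg_left h5 hB
      linarith
    have h5 : 8 * Kt ≤ X * e' := by
      rw [div_le_iff₀ he'] at g6
      exact g6
    have h6 := mul_le_mul_of_nonneg_right h5 hexp0.le
    have h7 : e' / 8 * Y = X * e' * Real.exp (A * l) / 8 := by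
      rw [hY2]
      ring
    rw [h7]
    linarith
  rw [← hW2] at f3
  rw [ebe, eX, ec0] at f1
  refine ⟨p.slope, fin ε p N, ?_, ?_, ?_, ?_, ?_⟩
  · rw [← hQ]
    exact f1
  · have h1 := hp.slope_ge
    have h2 := hp.E_ge (x := 0) (by rw [eX]; linarith only [hX0])
    rw [eX] at h1 h2
    rw [ebe] at h2
    have h3 : 1 ≤ be * (X / 2) :=
      one_le_mul_of_one_le_of_one_le (hb2.trans hbe) (by linarith only [g2])
    have h5 : 1 ≤ p.E 0 := h3.trans h2
    have h6 : 2 * X * 1 ≤ 2 * X * p.E 0 := mul_le_mul_of_nonneg_left h5 (by linarith only [hX0])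
    linarith only [h1, h6, hX0]
  · refine hslope.trans (Real.exp_le_exp.2 ?_)
    rw [hL]
    exact mul_le_mul_of_nonneg_right (by linarith) (by linarith)
  · intro i x hx
    have h1 := f2 i x (by rw [eX]; exact hx)
    linarith
  · linarith

end INDB
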