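import Pool.Agent.INDB.InstS
import Pool.Agent.INDB.StageM
import Pool.Agent.INDB.CatE
import Pool.Agent.INDB.SeqC
import Pool.Agent.Helper25.Ind2.PatchA
import Pool.Agent.Helper25.Ind2.Ident
import Pool.Agent.Helper25.Ind2.RDens
import Pool.Agent.Helper25.Ind2.Finish

/-!
# INDB, module ClassB: sufficiency, class B, `p ≥ 1`

PROOF. `D = range e` (`hD.cnt`, `π ∈ D`). `up v i = -i` if `v = ⊥`, else `v.toReal + 1/(i+1)`; `dn v i = i` if `v = ⊤`, else `v.toReal - 1/(i+1)` (as in `Helper25.Ind2.SuffA`). `l` with `LE ρ l`, `h l < 0`; choose `i₁` with `up (h l) (i + i₁) < 0` for all `i`. Stage `i`: `J i` = `{l, e 0, ..., e i}` filtered by `h ≠ ⊤`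
(contains `l`), `γ i θ = up (h θ) (i + i₁)`, `τ i = e (Nat.unpair i).1`, `t i = dn (h (τ i)) i` if `h (τ i) ≠ ⊥`; otherwise `τ i = d₀` with `h d₀ = ⊤`, `t i = 0`.
`inst_sys` and `stage_m` (with `e' = 1/(i+1)`) give for every `i` constants `c0 i, b2 i, CC i, X₀ i`, such that for `X ≥ X₀ i`, `b2 i ≤ be ≤ X` there are `be'`, `N` with `Shape ...`, `X ≤ be' ≤ exp (CC i log X)` and `P i X be' N` := (∀ θ ∈ J i, ∀ x ≥ -(X/4), `U ρ θ N x < γ i θ + 1/(i+1)`) ∧ `t i - 1/(i+1) < U ρ (τ i) N 0` (`U_kq`).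
`exists_chain` gives the chain, `exists_glob` gives `Nf`; `DensOK Nf` by `Glob` and `CatG`. `limsup_eq_of` for `θ = e k ∈ D`: `hup`: let `h θ < c` real (so `h θ ≠ ⊤`, `θ ∈ J i` for `i ≥ k`): for `i` large `γ i θ + 1/(i+1) + ε ≤ c`, and every large `x` lies in some `[3X_i/4, 3X_{i+1}/4]` with `i` large: `glob_pot` (kernel `kq ρ θ`, `inst_kern`):
`U ρ θ Nf x ≤ U ρ θ (N i) (x - X i) + ε < c` (`x - X_i ≥ -X_i/4`). `hlow`: `c < h θ`: for infinitely many `i` `(Nat.unpair i).1 = k`, `τ i = θ`, `t i - 1/(i+1) - ε ≥ c`, and `U ρ θ Nf (X i) ≥ U ρ θ (N i) 0 - ε > c`; `X i → ∞`.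
-/

open MeasureTheory Set Filter Topology Helper25.Ind

namespace INDB

open Classical in
private noncomputable def up (v : EReal) (i : ℕ) : ℝ :=
  if v = ⊥ then -(i : ℝ) else v.toReal + 1 / ((i : ℝ) + 1)

open Classical in
private noncomputable def dn (v : EReal) (i : ℕ) : ℝ :=
  if v = ⊤ then (i : ℝ) else v.toReal - 1 / ((i : ℝ) + 1)

private lemma lt_up {v : EReal} (hv : v ≠ ⊤) (i : ℕ) : v < ((up v i : ℝ) : EReal) := by
  unfold up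
  split_ifs with h
  · rw [h]; exact EReal.bot_lt_coe _
  · have e : ((v.toReal : ℝ) : EReal) = v := EReal.coe_toReal hv h
    conv_lhs => rw [← e]
    rw [EReal.coe_lt_coe_iff]
    have : (0 : ℝ) < 1 / ((i : ℝ) + 1) := by positivity
    linarith

private lemma dn_lt {v : EReal} (hv : v ≠ ⊥) (i : ℕ) : ((dn v i : ℝ) : EReal) < v := by
  unfold dn
  split_ifs with h
  · rw [h]; exact EReal.coe_lt_top _
  · have e : ((v.toReal : ℝ) : EReal) = v := EReal.coe_toReal h hv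
    conv_rhs => rw [← e]
    rw [EReal.coe_lt_coe_iff]
    have : (0 : ℝ) < 1 / ((i : ℝ) + 1) := by positivity
    linarith

private lemma inv_le_of {δ : ℝ} (hδ : 0 < δ) {i : ℕ} (hi : ⌈1 / δ⌉₊ ≤ i) :
    1 / ((i : ℝ) + 1) ≤ δ := by
  have h1 : 1 / δ ≤ (i : ℝ) := (Nat.le_ceil _).trans (by exact_mod_cast hi)
  rw [div_le_iff₀ (by positivity)]
  rw [div_le_iff₀ hδ] at h1
  nlinarith

private lemma up_ev {v : EReal} {c : ℝ} (hc : v < (c : EReal)) :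
    ∃ δ : ℝ, 0 < δ ∧ ∃ i₁ : ℕ, ∀ i, i₁ ≤ i → up v i + δ ≤ c := by
  unfold up
  split_ifs with h
  · refine ⟨1, one_pos, ⌈1 - c⌉₊, fun i hi => ?_⟩
    have h1 : 1 - c ≤ (i : ℝ) := (Nat.le_ceil _).trans (by exact_mod_cast hi)
    linarith
  · have hv : v ≠ ⊤ := fun e => by rw [e] at hc; exact absurd hc (not_lt.2 le_top)
    have e : ((v.toReal : ℝ) : EReal) = v := EReal.coe_toReal hv h
    rw [← e, EReal.coe_lt_coe_iff] at hc
    refine ⟨(c - v.toReal) / 2, by linarith, ⌈1 / ((c - v.toReal) / 2)⌉₊, fun i hi => ?_⟩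
    have := inv_le_of (by linarith : 0 < (c - v.toReal) / 2) hi
    linarith

private lemma dn_ev {v : EReal} {c : ℝ} (hc : (c : EReal) < v) :
    ∃ δ : ℝ, 0 < δ ∧ ∃ i₁ : ℕ, ∀ i, i₁ ≤ i → c + δ ≤ dn v i := by
  unfold dn
  split_ifs with h
  · refine ⟨1, one_pos, ⌈c + 1⌉₊, fun i hi => ?_⟩
    exact (Nat.le_ceil _).trans (by exact_mod_cast hi)
  · have hv : v ≠ ⊥ := fun e => by rw [e] at hc; exact absurd hc (not_lt.2 bot_le)
    have e : ((v.toReal : ℝ) : EReal) = v := EReal.coe_toReal h hv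
    rw [← e, EReal.coe_lt_coe_iff] at hc
    refine ⟨(v.toReal - c) / 2, by linarith, ⌈1 / ((v.toReal - c) / 2)⌉₊, fun i hi => ?_⟩
    have := inv_le_of (by linarith : 0 < (v.toReal - c) / 2) hi
    linarith

/-- one stage -/
private lemma cb_stage {ρ : ℝ} (hρ : 0 < ρ) (hint : ¬ ∃ n : ℕ, ρ = n) (hp : 1 ≤ ⌊ρ⌋₊)
    {h : ℝ → EReal} (hh : InfCond ρ h) (hR : ∀ r, RE ρ r → h r = ⊤) (J : Finset ℝ) (γ : ℝ → ℝ)
    (hJ : ∀ θ ∈ J, θ ∈ Icc (0 : ℝ) Real.pi ∧ h θ < (γ θ : EReal)) {l : ℝ} (hlJ : l ∈ J)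
    (hl : LE ρ l) (hγl : γ l < 0) {τ t e' : ℝ} (hτ : τ ∈ Icc (0 : ℝ) Real.pi)
    (ht : (t : EReal) < h τ) (he' : 0 < e') :
    ∃ c0 b₂ CC X₀ : ℝ, 1 ≤ c0 ∧ 1 ≤ b₂ ∧ 1 ≤ CC ∧
      ∀ X be : ℝ, X₀ ≤ X → b₂ ≤ be → be ≤ X → ∃ (be' : ℝ) (N : ℝ → ℝ),
        Shape be X c0 be' (CC * Real.log X) (Real.exp (CC * Real.log X)) N ∧ X ≤ be' ∧
        be' ≤ Real.exp (CC * Real.log X) ∧
        (∀ θ ∈ J, ∀ x, -(X / 4) ≤ x → Helper25.Ind.U ρ θ N x < γ θ + e') ∧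
        t - e' < Helper25.Ind.U ρ τ N 0 := by
  obtain ⟨S, -, -, hk, hkt, hgam, hSt, ⟨e, he, hcert⟩, B, hB, hm⟩ :=
    inst_sys hρ hint hp hh hR J γ hJ hlJ hl hγl hτ ht
  obtain ⟨c0, b₂, CC, X₀, h1, h2, h3, -, h5⟩ := stage_m S he hcert hB hm he'
  refine ⟨c0, b₂, CC, X₀, h1, h2, h3, fun X be hX hb1 hb2 => ?_⟩
  obtain ⟨be', N, h6, h7, h8, h9, h10⟩ := h5 X be hX hb1 hb2
  refine ⟨be', N, h6, h7, h8, ?_, ?_⟩
  · intro θ hθ x hx
    have := h9 ⟨θ, hθ⟩ x hx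
    rwa [hk, hgam, U_kq] at this
  · rwa [hkt, hSt, U_kq] at h10

theorem suff_b {ρ : ℝ} (hρ : 0 < ρ) (hint : ¬ ∃ n : ℕ, ρ = n) (hp : 1 ≤ ⌊ρ⌋₊) {h : ℝ → EReal}
    (hh : InfCond ρ h) (h1 : ∃ l, LE ρ l ∧ h l < 0) (h2 : ∀ r, RE ρ r → h r = ⊤) {D : Set ℝ}
    (hD : DSet ρ h D) :
    ∃ N, DensOK N ∧ ∀ θ ∈ D,
      limsup (fun x : ℝ => ((Helper25.Ind.U ρ θ N x : ℝ) : EReal)) atTop = h θ := by
  classical
  obtain ⟨l, hl, hneg⟩ := h1
  have hltop : h l ≠ ⊤ := ne_top_of_lt hneg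
  have hlI : l ∈ Icc (0 : ℝ) Real.pi := ⟨hl.1, hl.2.1⟩
  obtain ⟨e, he⟩ := hD.cnt.exists_eq_range ⟨Real.pi, hD.pi⟩
  have heD : ∀ k, e k ∈ D := fun k => by rw [he]; exact mem_range_self k
  obtain ⟨d₀, hd₀, hd₀t⟩ : ∃ d₀ ∈ D, h d₀ = ⊤ := by
    obtain ⟨a, b, h0, h1, h2, h3⟩ := exists_sg_pos hρ
    obtain ⟨d, hd, h4, h5⟩ := hD.dense a b h0 h1 h2
    exact ⟨d, hd, hh.off d (hD.sub hd) (h3 d h4 h5)⟩
  obtain ⟨δ₁, hδ₁, i₁, hi₁⟩ := up_ev (v := h l) (c := 0) (by exact_mod_cast hneg)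
  set J : ℕ → Finset ℝ := fun i =>
    (insert l ((Finset.range (i + 1)).image e)).filter (fun θ => h θ ≠ ⊤) with hJ
  set γ : ℕ → ℝ → ℝ := fun i θ => up (h θ) (i + i₁) with hγ
  have hJmem : ∀ i θ, θ ∈ J i → θ ∈ Icc (0 : ℝ) Real.pi ∧ h θ < ((γ i θ : ℝ) : EReal) := by
    intro i θ hθ
    rw [hJ] at hθ
    obtain ⟨h1, h2⟩ := Finset.mem_filter.1 hθ
    refine ⟨?_, lt_up h2 _⟩
    rcases Finset.mem_insert.1 h1 with h3 | h3
    · rw [h3]; exact hlI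
    · obtain ⟨k, _, rfl⟩ := Finset.mem_image.1 h3
      exact hD.sub (heD k)
  have hlJ : ∀ i, l ∈ J i := fun i =>
    Finset.mem_filter.2 ⟨Finset.mem_insert_self _ _, hltop⟩
  have hγl : ∀ i, γ i l < 0 := fun i => by
    have := hi₁ (i + i₁) (by omega)
    show up (h l) (i + i₁) < 0
    linarith
  set P : ℕ → ℝ → ℝ → (ℝ → ℝ) → Prop := fun i X _ N =>
    (∀ θ ∈ J i, ∀ x, -(X / 4) ≤ x → Helper25.Ind.U ρ θ N x < γ i θ + 1 / ((i : ℝ) + 1)) ∧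
    (h (e (Nat.unpair i).1) ≠ ⊥ → dn (h (e (Nat.unpair i).1)) i - 1 / ((i : ℝ) + 1) <
      Helper25.Ind.U ρ (e (Nat.unpair i).1) N 0) with hP
  have hst : ∀ i : ℕ, ∃ c0 b₂ CC X₀ : ℝ, 1 ≤ c0 ∧ 1 ≤ b₂ ∧ 1 ≤ CC ∧
      ∀ X be : ℝ, X₀ ≤ X → b₂ ≤ be → be ≤ X → ∃ (be' : ℝ) (N : ℝ → ℝ),
        Shape be X c0 be' (CC * Real.log X) (Real.exp (CC * Real.log X)) N ∧ X ≤ be' ∧
        be' ≤ Real.exp (CC * Real.log X) ∧ P i X be' N := by
    intro i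
    have he' : (0 : ℝ) < 1 / ((i : ℝ) + 1) := by positivity
    by_cases hb : h (e (Nat.unpair i).1) ≠ ⊥
    · obtain ⟨c0, b₂, CC, X₀, a1, a2, a3, a4⟩ := cb_stage hρ hint hp hh h2 (J i) (γ i) (hJmem i)
        (hlJ i) hl (hγl i) (hD.sub (heD (Nat.unpair i).1)) (dn_lt hb i) he'
      refine ⟨c0, b₂, CC, X₀, a1, a2, a3, fun X be hX b1 b2 => ?_⟩
      obtain ⟨be', N, a5, a6, a7, a8, a9⟩ := a4 X be hX b1 b2
      exact ⟨be', N, a5, a6, a7, a8, fun _ => a9⟩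
    · obtain ⟨c0, b₂, CC, X₀, a1, a2, a3, a4⟩ := cb_stage (t := 0) hρ hint hp hh h2 (J i) (γ i)
        (hJmem i) (hlJ i) hl (hγl i) (hD.sub hd₀) (by rw [hd₀t]; exact EReal.coe_lt_top _) he'
      refine ⟨c0, b₂, CC, X₀, a1, a2, a3, fun X be hX b1 b2 => ?_⟩
      obtain ⟨be', N, a5, a6, a7, a8, -⟩ := a4 X be hX b1 b2
      exact ⟨be', N, a5, a6, a7, a8, fun h' => absurd h' hb⟩
  choose c0 b2 CC X₀ hc0 hb2 hCC hst' using hst
  obtain ⟨X, be, L, Q, N, hch, hPj⟩ := exists_chain P c0 b2 CC X₀ hc0 hb2 hCC hst'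
  obtain ⟨Nf, hg⟩ := exists_glob hch
  have hXt := hch.tendsto
  have hXm : Monotone X := monotone_nat_of_le_succ fun j => by
    have h3 := hch.XX j
    have h4 := hch.X_ge j
    have h5 : (0 : ℝ) < 16 ^ (j + 1) := by positivity
    linarith
  have hXpos : ∀ j, 0 < X j := fun j => lt_of_lt_of_le (by positivity) (hch.X_ge j)
  obtain ⟨CK, hCK, hK⟩ := inst_kern hρ hint hp
  refine ⟨Nf, ⟨hg.meas, hg.nn, hg.zero, glob_sup hch hg, ?_, glob_low hch hg⟩, fun θ hθ => ?_⟩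
  · intro ε hε
    obtain ⟨C, -, hC⟩ := glob_mass hch hg ε hε
    exact ⟨C, fun y hy => (hC y hy).2⟩
  obtain ⟨k, rfl⟩ : ∃ k, e k = θ := by rw [he] at hθ; exact hθ
  have hθI := hD.sub hθ
  have hpot := glob_pot (hK (e k) hθI) (km_pos hρ hint) (kp_pos hρ.le) hch hg
  refine limsup_eq_of _ _ ?_ ?_
  · intro c hc
    obtain ⟨δ, hδ, i₂, hi₂⟩ := up_ev hc
    have htop : h (e k) ≠ ⊤ := fun e' => by
      rw [e'] at hc; exact absurd hc (not_lt.2 le_top)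
    obtain ⟨i₃, hi₃⟩ := hpot (δ / 2) (by positivity)
    set n := max (max i₂ i₃) (max k ⌈1 / (δ / 2)⌉₊) with hn
    refine eventually_atTop.2 ⟨3 * X n / 4, fun x hx => ?_⟩
    have hex : ∃ j, 4 * x / 3 < X j := by
      obtain ⟨j, hj⟩ := (hXt.eventually_gt_atTop (4 * x / 3)).exists
      exact ⟨j, hj⟩
    set m := Nat.find hex with hm
    have hm1 : 4 * x / 3 < X m := Nat.find_spec hex
    have hnm : n < m := by
      by_contra hcon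
      have := hXm (not_lt.1 hcon)
      linarith
    obtain ⟨i, hi⟩ : ∃ i, m = i + 1 := ⟨m - 1, by omega⟩
    have hi1 : X i ≤ 4 * x / 3 := by
      have := Nat.find_min hex (m := i) (by omega)
      exact not_lt.1 this
    have hni : n ≤ i := by omega
    rw [hi] at hm1
    have h3 := hi₃ i (by omega) x (by linarith) (by linarith)
    rw [U_kq, U_kq] at h3
    have h4 := (hPj i).1 (e k) (by
      rw [hJ]
      refine Finset.mem_filter.2 ⟨Finset.mem_insert_of_mem (Finset.mem_image.2 ⟨k, ?_, rfl⟩), htop⟩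
      rw [Finset.mem_range]; omega) (x - X i) (by linarith)
    have h5 := hi₂ (i + i₁) (by omega)
    have h6 := inv_le_of (show 0 < δ / 2 by positivity) (i := i) (by omega)
    have h7 := (abs_le.1 h3).2
    have h8 : γ i (e k) = up (h (e k)) (i + i₁) := rfl
    linarith
  · intro c hc
    obtain ⟨δ, hδ, i₂, hi₂⟩ := dn_ev hc
    have hbot : h (e k) ≠ ⊥ := fun e' => by
      rw [e'] at hc; exact absurd hc (not_lt.2 bot_le)
    obtain ⟨i₃, hi₃⟩ := hpot (δ / 2) (by positivity)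
    refine frequently_atTop.2 fun a => ?_
    obtain ⟨i₄, hi₄⟩ := eventually_atTop.1 (hXt.eventually_ge_atTop a)
    set n := max (max i₂ i₃) (max i₄ ⌈1 / (δ / 2)⌉₊) with hn
    set i := Nat.pair k n with hi
    have hni : n ≤ i := Nat.right_le_pair _ _
    have hun : (Nat.unpair i).1 = k := by rw [hi, Nat.unpair_pair]
    refine ⟨X i, hi₄ i (by omega), ?_⟩
    have h3 := (hPj i).2
    rw [hun] at h3
    have h4 := h3 hbot
    have h5 := hi₂ i (by omega)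
    have hXi := hXpos i
    have h6 := hi₃ i (by omega) (X i) (by linarith) (by
      have := hXm (Nat.le_succ i)
      have h9 := hch.XX i
      linarith)
    rw [U_kq, U_kq, sub_self] at h6
    have h7 := (abs_le.1 h6).1
    have h8 := inv_le_of (show 0 < δ / 2 by positivity) (i := i) (by omega)
    linarith

end INDB
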