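import Mathlib

/-!
# INDB, module AeNon: nonnegativity from tests

PROOF. Let `A < α < β < B`. The functions `thickenedIndicator δ [α, β]` are continuous test functions
for small `δ`, and tend to the indicator of `[α, β]`; dominated convergence gives `∫_{[α,β]} g ≥ 0`.
So the primitives of `g` are monotone on `(A, B)`, and `g` is the derivative almost everywhere
(`LocallyIntegrable.ae_hasDerivAt_integral`).
-/

open MeasureTheory Set Filter Topology

namespace INDB

/-- nonnegative integrals over compact subintervals -/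
lemma integral_nonneg_of_test {g : ℝ → ℝ} (hg : LocallyIntegrable g) {A B : ℝ}
    (h : ∀ φ : ℝ → ℝ, Continuous φ → (∀ y, 0 ≤ φ y) → (∀ y, y ≤ A ∨ B ≤ y → φ y = 0) →
      0 ≤ ∫ y, g y * φ y) {α β : ℝ} (hA : A < α) (hB : β < B) :
    0 ≤ ∫ y in Icc α β, g y := by
  set δ : ℕ → ℝ := fun n => min ((α - A) / 2) ((B - β) / 2) / (n + 1) with hδ
  have hm : 0 < min ((α - A) / 2) ((B - β) / 2) := lt_min (by linarith) (by linarith)
  have hδ0 : ∀ n, 0 < δ n := fun n => div_pos hm (by positivity)
  have hδm : ∀ n, δ n ≤ min ((α - A) / 2) ((B - β) / 2) := fun n => by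
    rw [hδ]
    exact div_le_self hm.le (by linarith [Nat.cast_nonneg (α := ℝ) n])
  have hδlim : Tendsto δ atTop (𝓝 0) := by
    have h1 := (tendsto_one_div_add_atTop_nhds_zero_nat (𝕜 := ℝ)).const_mul
      (min ((α - A) / 2) ((B - β) / 2))
    rw [mul_zero] at h1
    refine h1.congr fun n => ?_
    rw [hδ]
    ring
  set φ : ℕ → ℝ → ℝ := fun n y => (thickenedIndicator (hδ0 n) (Icc α β) y : ℝ) with hφ
  have hφc : ∀ n, Continuous (φ n) := fun n =>
    NNReal.continuous_coe.comp (thickenedIndicator (hδ0 n) (Icc α β)).continuous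
  have hφ0 : ∀ n y, 0 ≤ φ n y := fun n y => NNReal.coe_nonneg _
  have hφ1 : ∀ n y, φ n y ≤ 1 := fun n y => by
    have := thickenedIndicator_le_one (hδ0 n) (Icc α β) y
    exact_mod_cast this
  -- vanishing outside a compact interval
  have hφz : ∀ n y, y ∉ Icc ((A + α) / 2) ((B + β) / 2) → φ n y = 0 := by
    intro n y hy
    have h1 : y ∉ Metric.thickening (δ n) (Icc α β) := by
      intro h2
      rw [Metric.mem_thickening_iff] at h2
      obtain ⟨z, hz, hyz⟩ := h2
      rw [Real.dist_eq] at hyz
      have h3 := abs_lt.1 hyz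
      have h4 := (hδm n).trans (min_le_left _ _)
      have h5 := (hδm n).trans (min_le_right _ _)
      refine hy ⟨?_, ?_⟩
      · linarith [hz.1]
      · linarith [hz.2]
    have h2 := thickenedIndicator_zero (hδ0 n) (Icc α β) h1
    show ((thickenedIndicator (hδ0 n) (Icc α β) y : NNReal) : ℝ) = 0
    rw [h2]
    rfl
  have hnn : ∀ n, 0 ≤ ∫ y, g y * φ n y := by
    intro n
    refine h (φ n) (hφc n) (hφ0 n) fun y hy => hφz n y fun hy' => ?_
    rcases hy with hy | hy
    · linarith [hy'.1]
    · linarith [hy'.2]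
  have hlim : Tendsto (fun n => ∫ y, g y * φ n y) atTop
      (𝓝 (∫ y, (Icc α β).indicator g y)) := by
    refine tendsto_integral_of_dominated_convergence
      (fun y => (Icc ((A + α) / 2) ((B + β) / 2)).indicator (fun y => ‖g y‖) y) ?_ ?_ ?_ ?_
    · intro n
      exact hg.aestronglyMeasurable.mul (hφc n).aestronglyMeasurable
    · rw [integrable_indicator_iff measurableSet_Icc]
      exact (hg.integrableOn_isCompact isCompact_Icc).norm
    · intro n
      refine ae_of_all _ fun y => ?_
      by_cases hy : y ∈ Icc ((A + α) / 2) ((B + β) / 2)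
      · rw [indicator_of_mem hy, norm_mul]
        have h1 : ‖φ n y‖ ≤ 1 := by
          rw [Real.norm_of_nonneg (hφ0 n y)]
          exact hφ1 n y
        calc ‖g y‖ * ‖φ n y‖ ≤ ‖g y‖ * 1 := mul_le_mul_of_nonneg_left h1 (norm_nonneg _)
          _ = ‖g y‖ := mul_one _
      · rw [indicator_of_notMem hy, hφz n y hy, mul_zero, norm_zero]
    · refine ae_of_all _ fun y => ?_
      have h1 := thickenedIndicator_tendsto_indicator_closure hδ0 hδlim (Icc α β)
      rw [tendsto_pi_nhds] at h1
      have h2 := h1 y
      rw [isClosed_Icc.closure_eq] at h2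
      have h3 : Tendsto (fun n => φ n y) atTop
          (𝓝 (((Icc α β).indicator (fun _ => (1 : NNReal)) y : NNReal) : ℝ)) :=
        (NNReal.continuous_coe.tendsto _).comp h2
      have h4 : (Icc α β).indicator g y =
          g y * (((Icc α β).indicator (fun _ => (1 : NNReal)) y : NNReal) : ℝ) := by
        by_cases hy : y ∈ Icc α β
        · rw [indicator_of_mem hy, indicator_of_mem hy]
          simp
        · rw [indicator_of_notMem hy, indicator_of_notMem hy]
          simp
      rw [h4]
      exact h3.const_mul _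
  have h5 := ge_of_tendsto' hlim hnn
  rwa [integral_indicator measurableSet_Icc] at h5

/-- a locally integrable function with nonnegative integrals against all nonnegative continuous
functions vanishing outside `(A, B)` is nonnegative almost everywhere on `(A, B)` -/
lemma ae_nonneg_of_test {g : ℝ → ℝ} (hg : LocallyIntegrable g) {A B : ℝ}
    (h : ∀ φ : ℝ → ℝ, Continuous φ → (∀ y, 0 ≤ φ y) → (∀ y, y ≤ A ∨ B ≤ y → φ y = 0) →
      0 ≤ ∫ y, g y * φ y) : ∀ᵐ y : ℝ, A < y → y < B → 0 ≤ g y := by
  filter_upwards [_root_.LocallyIntegrable.ae_hasDerivAt_integral hg] with y hy hA hB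
  have h1 : HasDerivAt (fun x => ∫ t in y..x, g t) (g y) y := hy y
  -- right difference quotients
  have h2 : HasDerivWithinAt (fun x => ∫ t in y..x, g t) (g y) (Ioi y) y := h1.hasDerivWithinAt
  rw [hasDerivWithinAt_iff_tendsto_slope' self_notMem_Ioi] at h2
  refine ge_of_tendsto h2 ?_
  filter_upwards [Ioo_mem_nhdsGT hB] with x hx
  rw [slope_def_field]
  refine div_nonneg ?_ (by linarith [hx.1])
  rw [intervalIntegral.integral_same, sub_zero, intervalIntegral.integral_of_le hx.1.le,
    ← integral_Icc_eq_integral_Ioc]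
  exact integral_nonneg_of_test hg h hA hx.2

end INDB
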