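import Pool.Agent.INDB.LDefs
import Pool.Agent.INDB.KernB
import Pool.Agent.INDB.AeNon
import Pool.Agent.Helper25.Ind2.HB2

/-!
# INDB, module DualB: duality for one window

General statement. `E` continuous, `E ≥ 0`, `Lin E`; constraints at the points `x ≥ x₁`; `A < B` is the window.
PROOF. `V` = submodule of `ℝ → ℝ` of continuous functions which vanish on `Iic A ∪ Ici B` (they are bounded and compactly supported). `ψ x = x₁ + |x - x₁|` (folding `ℝ` onto `[x₁, ∞)`), `d i x = gam i - U (k i) E x ≥ d₀ > 0` for `x ≥ x₁`, continuous (`Kern.continuous_U`).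
`T i v x = U (k i) v (ψ x) / d i (ψ x)`, continuous, tends to `0` at `±∞` (`Kern.tendsto_U`, `ψ x → ∞`), `ℓ v = U kt v 0`, `D = {v | ∀ y, 0 ≤ E y + v y}` (convex, contains `0`), `c = t - U kt E 0`. If `v ∈ D` and `T i v < 1` everywhere then `N = E + v` satisfies all constraints
(`U_add`), so `U kt N 0 ≤ t` by `hfail`, i.e. `ℓ v ≤ c`. `Helper25.Ind.hb_line` (with `ι ≃ Fin (card ι)`, `Fintype.equivFin`; limits `0`) gives finite `μ i` on `ℝ` with `ℓ v - ∑ ∫ T i v dμ i ≤ c - ∑ μ i (ℝ)` for `v ∈ D`. Put `n i = (μ i with density 1/(d i ∘ ψ)).map ψ`.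
Then `n i` is finite (`1/d ≤ 1/d₀`), `∫ T i v dμ i = ∫ U (k i) v dn i`, `μ i(ℝ) = ∫ d i dn i`; in particular `d i` and so `U (k i) E` are integrable. Rewriting:
`∑ ∫ (gam i - U (k i) (E+v)) dn i ≤ t - U kt (E+v) 0` for `v ∈ D` (last claim with `v = N - E`).
Positivity: for `0 ≤ v ∈ V` and `r ≥ 0` insert `r v`, divide by `r → ∞`: `0 ≤ ∑ ∫ U (k i) v dn i - U kt v 0 = ∫ G n y v y dy` (`Kern.fubini_bdd`; `U kt v 0 = ∫ kt (-y) v y dy`). `G n` is integrable (`Kern.fubini_bdd` with `N = 1`), and `∫ G n v ≥ 0` for all continuous `v ≥ 0`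
vanishing outside `(A, B)` (these are elements of `V`, `E + r v ≥ 0`) gives `G n ≥ 0` a.e. on `(A, B)` by `ae_nonneg_of_test`.
-/

open MeasureTheory Set Filter Topology

namespace INDB

/-- the test functions of the window -/
def VW (A B : ℝ) : Submodule ℝ (ℝ → ℝ) where
  carrier := {v | Continuous v ∧ ∀ y, y ≤ A ∨ B ≤ y → v y = 0}
  add_mem' := by
    rintro u v ⟨hu, hu'⟩ ⟨hv, hv'⟩
    exact ⟨hu.add hv, fun y hy => by rw [Pi.add_apply, hu' y hy, hv' y hy, add_zero]⟩
  zero_mem' := ⟨continuous_const, fun _ _ => rfl⟩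
  smul_mem' := by
    rintro c v ⟨hv, hv'⟩
    exact ⟨hv.const_smul c, fun y hy => by rw [Pi.smul_apply, hv' y hy, smul_zero]⟩

lemma VW_bdd {A B : ℝ} (v : VW A B) : ∃ R : ℝ, 0 ≤ R ∧ ∀ y, |v.1 y| ≤ R := by
  obtain ⟨hc, hz⟩ := v.2
  obtain ⟨R, hR⟩ := (isCompact_Icc (a := A) (b := B)).exists_bound_of_continuousOn hc.continuousOn
  refine ⟨max R 0, le_max_right _ _, fun y => ?_⟩
  by_cases hy : y ∈ Icc A B
  · exact (hR y hy).trans (le_max_left _ _)
  · have h1 : y ≤ A ∨ B ≤ y := by
      by_contra h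
      push Not at h
      exact hy ⟨h.1.le, h.2.le⟩
    rw [hz y h1, abs_zero]
    exact le_max_right _ _

lemma lin_of_bdd {N : ℝ → ℝ} {R : ℝ} (hR0 : 0 ≤ R) (hR : ∀ y, |N y| ≤ R) : Lin N :=
  ⟨R, hR0, fun y => (hR y).trans (by nlinarith [abs_nonneg y])⟩

lemma VW_lin {A B : ℝ} (v : VW A B) : Lin v.1 := by
  obtain ⟨R, hR0, hR⟩ := VW_bdd v
  exact lin_of_bdd hR0 hR

/-- the potential as a linear map on the test functions -/
noncomputable def UW {a b C : ℝ} {k : ℝ → ℝ} (hk : Kern a b C k) (ha : 0 < a) (hb : 0 < b)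
    (A B : ℝ) : VW A B →ₗ[ℝ] (ℝ → ℝ) where
  toFun v x := U k v.1 x
  map_add' u v := by
    funext x
    exact U_add hk ha hb u.2.1.measurable (VW_lin u) v.2.1.measurable (VW_lin v) x
  map_smul' c v := by
    funext x
    exact U_smul k v.1 c x

theorem dual_window {ι : Type} [Fintype ι] {a b C : ℝ} (ha : 0 < a) (hb : 0 < b)
    (k : ι → ℝ → ℝ) (kt : ℝ → ℝ) (hk : ∀ i, Kern a b C (k i)) (hkt : Kern a b C kt)
    (gam : ι → ℝ) (t : ℝ) {E : ℝ → ℝ} (hE : Continuous E) (hE0 : ∀ y, 0 ≤ E y) (hl : Lin E)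
    {x₁ A B d₀ : ℝ} (hAB : A < B) (hd₀ : 0 < d₀)
    (hd : ∀ i x, x₁ ≤ x → d₀ ≤ gam i - U (k i) E x)
    (hfail : ∀ N : ℝ → ℝ, Continuous N → (∀ y, 0 ≤ N y) → (∀ y, y ≤ A ∨ B ≤ y → N y = E y) →
      (∀ i x, x₁ ≤ x → U (k i) N x < gam i) → U kt N 0 ≤ t) :
    ∃ n : ι → Measure ℝ, (∀ i, IsFiniteMeasure (n i)) ∧ (∀ i, n i (Iio x₁) = 0) ∧
      (∀ i, Integrable (U (k i) E) (n i)) ∧
      (∀ᵐ y : ℝ, A < y → y < B → 0 ≤ G k kt n y) ∧
      ∀ N : ℝ → ℝ, Continuous N → (∀ y, 0 ≤ N y) → (∀ y, y ≤ A ∨ B ≤ y → N y = E y) →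
        ∑ i, ∫ x, (gam i - U (k i) N x) ∂(n i) ≤ t - U kt N 0 := by
  classical
  set ψ : ℝ → ℝ := fun x => x₁ + |x - x₁| with hψ
  have hψc : Continuous ψ := by fun_prop
  have hψ1 : ∀ x, x₁ ≤ ψ x := fun x => by
    rw [hψ]
    linarith [abs_nonneg (x - x₁)]
  have hψid : ∀ x, x₁ ≤ x → ψ x = x := fun x hx => by
    show x₁ + |x - x₁| = x
    rw [abs_of_nonneg (by linarith)]
    ring
  have hψt : Tendsto ψ atTop atTop := by
    have h1 : Tendsto (fun x : ℝ => |x - x₁|) atTop atTop :=
      tendsto_abs_atTop_atTop.comp (tendsto_atTop_add_const_right _ _ tendsto_id)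
    exact tendsto_atTop_add_const_left _ _ h1
  have hψb : Tendsto ψ atBot atTop := by
    have h1 : Tendsto (fun x : ℝ => |x - x₁|) atBot atTop :=
      tendsto_abs_atBot_atTop.comp (tendsto_atBot_add_const_right _ _ tendsto_id)
    exact tendsto_atTop_add_const_left _ _ h1
  set d : ι → ℝ → ℝ := fun i x => gam i - U (k i) E x with hddef
  have hdc : ∀ i, Continuous (d i) := fun i =>
    continuous_const.sub ((hk i).continuous_U ha hb hE hl)
  have hdψ : ∀ i x, d₀ ≤ d i (ψ x) := fun i x => hd i _ (hψ1 x)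
  have hdψ0 : ∀ i x, 0 < d i (ψ x) := fun i x => hd₀.trans_le (hdψ i x)
  -- the linear maps
  let T : ι → VW A B →ₗ[ℝ] (ℝ → ℝ) := fun i =>
    { toFun := fun v x => UW (hk i) ha hb A B v (ψ x) / d i (ψ x)
      map_add' := by
        intro u v
        funext x
        rw [map_add, Pi.add_apply, Pi.add_apply, add_div]
      map_smul' := by
        intro c v
        funext x
        rw [map_smul, Pi.smul_apply, Pi.smul_apply, RingHom.id_apply, smul_eq_mul, smul_eq_mul,
          mul_div_assoc] }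
  have hTe : ∀ i v x, T i v x = U (k i) v.1 (ψ x) / d i (ψ x) := fun i v x => rfl
  have hUc : ∀ i (v : VW A B), Continuous (U (k i) v.1) := fun i v =>
    (hk i).continuous_U ha hb v.2.1 (VW_lin v)
  have hTc : ∀ i v, Continuous (T i v) := fun i v =>
    ((hUc i v).comp hψc).div ((hdc i).comp hψc) fun x => (hdψ0 i x).ne'
  have hTlim : ∀ i v (l : Filter ℝ), Tendsto ψ l atTop → Tendsto (T i v) l (𝓝 0) := by
    intro i v l hl'
    have h1 : Tendsto (fun x => U (k i) v.1 (ψ x)) l (𝓝 0) :=
      ((hk i).tendsto_U ha hb v.2.1 v.2.2).1.comp hl'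
    have h2 : Tendsto (fun x => |U (k i) v.1 (ψ x)| / d₀) l (𝓝 0) := by
      have := (h1.abs).div_const d₀
      simpa using this
    refine squeeze_zero_norm (fun x => ?_) h2
    rw [hTe, Real.norm_eq_abs, abs_div, abs_of_pos (hdψ0 i x)]
    exact div_le_div_of_nonneg_left (abs_nonneg _) hd₀ (hdψ i x)
  let ℓ : VW A B →ₗ[ℝ] ℝ := (LinearMap.proj 0).comp (UW hkt ha hb A B)
  have hℓ : ∀ v : VW A B, ℓ v = U kt v.1 0 := fun v => rfl
  let D : Set (VW A B) := {v | ∀ y, 0 ≤ E y + v.1 y}
  have hD : Convex ℝ D := by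
    intro u hu v hv p q hp hq hpq y
    have h1 := mul_nonneg hp (hu y)
    have h2 := mul_nonneg hq (hv y)
    have h3 : (p • u + q • v : VW A B).1 y = p * u.1 y + q * v.1 y := rfl
    rw [h3]
    have h4 : E y = p * E y + q * E y := by rw [← add_mul, hpq, one_mul]
    nlinarith
  have hD0 : (0 : VW A B) ∈ D := fun y => by
    have h3 : (0 : VW A B).1 y = 0 := rfl
    rw [h3, add_zero]
    exact hE0 y
  have hUadd : ∀ i (v : VW A B) x, U (k i) (fun y => E y + v.1 y) x =
      U (k i) E x + U (k i) v.1 x := fun i v x =>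
    U_add (hk i) ha hb hE.measurable hl v.2.1.measurable (VW_lin v) x
  have hUtadd : ∀ (v : VW A B) x, U kt (fun y => E y + v.1 y) x = U kt E x + U kt v.1 x :=
    fun v x => U_add hkt ha hb hE.measurable hl v.2.1.measurable (VW_lin v) x
  set e := Fintype.equivFin ι with he
  obtain ⟨μ, hμ, hμ'⟩ := Helper25.Ind.hb_line (fun j => T (e.symm j)) (fun _ _ => 0) (fun _ _ => 0)
    (fun j v => hTc _ v) (fun j v => hTlim _ v _ hψb) (fun j v => hTlim _ v _ hψt) ℓ D hD hD0
    (fun _ _ _ => le_rfl) (fun _ _ _ => le_rfl) (t - U kt E 0) (by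
      intro v hv hT1
      have h1 := hfail (fun y => E y + v.1 y) (hE.add v.2.1) hv (fun y hy => by
        rw [v.2.2 y hy, add_zero]) (fun i x hx => by
          have h2 := hT1 (e i) x
          rw [Equiv.symm_apply_apply, hTe, hψid x hx, div_lt_one (by
            have := hdψ0 i x
            rwa [hψid x hx] at this)] at h2
          rw [hUadd]
          have h3 : d i x = gam i - U (k i) E x := rfl
          rw [h3] at h2
          linarith)
      rw [hUtadd] at h1
      rw [hℓ]
      linarith)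
  -- the measures
  set gd : ι → ℝ → NNReal := fun i x => Real.toNNReal (1 / d i (ψ x)) with hgd
  have hgdm : ∀ i, Measurable (gd i) := fun i => by
    have h1 : Continuous fun x => 1 / d i (ψ x) :=
      continuous_const.div ((hdc i).comp hψc) fun x => (hdψ0 i x).ne'
    exact h1.measurable.real_toNNReal
  have hgde : ∀ i x, (gd i x : ℝ) = 1 / d i (ψ x) := fun i x =>
    Real.coe_toNNReal _ (one_div_pos.2 (hdψ0 i x)).le
  set n : ι → Measure ℝ := fun i =>
    ((μ (e i)).withDensity fun x => (gd i x : ENNReal)).map ψ with hn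
  have hfinμ : ∀ i, IsFiniteMeasure (μ (e i)) := fun i => hμ (e i)
  have hnfin : ∀ i, IsFiniteMeasure (n i) := by
    intro i
    have := hfinμ i
    have h1 : IsFiniteMeasure ((μ (e i)).withDensity fun x => (gd i x : ENNReal)) := by
      refine isFiniteMeasure_withDensity (ne_of_lt ?_)
      have h2 : ∫⁻ x, (gd i x : ENNReal) ∂(μ (e i)) ≤ ∫⁻ _x, ENNReal.ofReal (1 / d₀) ∂(μ (e i)) := by
        refine lintegral_mono fun x => ?_
        have h3 : (gd i x : ENNReal) = ENNReal.ofReal (1 / d i (ψ x)) := rfl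
        rw [h3]
        exact ENNReal.ofReal_le_ofReal (one_div_le_one_div_of_le hd₀ (hdψ i x))
      refine lt_of_le_of_lt h2 ?_
      rw [lintegral_const]
      exact ENNReal.mul_lt_top ENNReal.ofReal_lt_top (measure_lt_top _ _)
    exact Measure.isFiniteMeasure_map _ _
  -- integrals
  have hint : ∀ i (f : ℝ → ℝ), Continuous f →
      ∫ x, f x ∂(n i) = ∫ x, f (ψ x) / d i (ψ x) ∂(μ (e i)) := by
    intro i f hf
    rw [hn]
    simp only
    rw [integral_map hψc.measurable.aemeasurable hf.aestronglyMeasurable,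
      integral_withDensity_eq_integral_smul (hgdm i)]
    refine integral_congr_ae (ae_of_all _ fun x => ?_)
    show gd i x • f (ψ x) = f (ψ x) / d i (ψ x)
    rw [NNReal.smul_def, hgde, smul_eq_mul]
    ring
  have hintg : ∀ i (f : ℝ → ℝ), Continuous f →
      (Integrable f (n i) ↔ Integrable (fun x => f (ψ x) / d i (ψ x)) (μ (e i))) := by
    intro i f hf
    rw [hn]
    simp only
    rw [integrable_map_measure hf.aestronglyMeasurable hψc.measurable.aemeasurable,
      integrable_withDensity_iff_integrable_smul (hgdm i)]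
    refine integrable_congr (ae_of_all _ fun x => ?_)
    show gd i x • f (ψ x) = f (ψ x) / d i (ψ x)
    rw [NNReal.smul_def, hgde, smul_eq_mul]
    ring
  have hintd : ∀ i, Integrable (d i) (n i) := by
    intro i
    have := hfinμ i
    rw [hintg i _ (hdc i)]
    refine (integrable_const (1 : ℝ)).congr (ae_of_all _ fun x => ?_)
    exact (div_self (hdψ0 i x).ne').symm
  have hdint : ∀ i, ∫ x, d i x ∂(n i) = (μ (e i) univ).toReal := by
    intro i
    rw [hint i _ (hdc i)]
    have h1 : ∀ x, d i (ψ x) / d i (ψ x) = (1 : ℝ) := fun x => div_self (hdψ0 i x).ne'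
    simp only [h1]
    rw [integral_const, smul_eq_mul, mul_one]
    rfl
  have hUEint : ∀ i, Integrable (U (k i) E) (n i) := by
    intro i
    have := hnfin i
    refine ((integrable_const (gam i)).sub (hintd i)).congr (ae_of_all _ fun x => ?_)
    show gam i - (gam i - U (k i) E x) = U (k i) E x
    ring
  have hUvint : ∀ i (v : VW A B), Integrable (U (k i) v.1) (n i) := by
    intro i v
    have := hnfin i
    obtain ⟨R, hR0, hR⟩ := VW_bdd v
    -- bounded continuous function
    have h1 := (hk i).tendsto_U ha hb v.2.1 v.2.2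
    obtain ⟨K, hK⟩ : ∃ K, ∀ x, |U (k i) v.1 x| ≤ K := by
      refine ⟨(∫ u, |k i u|) * R, fun x => ?_⟩
      have h2 : |U (k i) v.1 x| ≤ ∫ y, |k i (x - y)| * R := by
        unfold U
        refine (abs_integral_le_integral_abs).trans ?_
        refine integral_mono_of_nonneg (ae_of_all _ fun y => abs_nonneg _)
          (((hk i).integrable_sub ha hb x).abs.mul_const R) (ae_of_all _ fun y => ?_)
        simp only
        rw [abs_mul]
        exact mul_le_mul_of_nonneg_left (hR y) (abs_nonneg _)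
      refine h2.trans (le_of_eq ?_)
      rw [integral_mul_const, integral_sub_left_eq_self (fun u => |k i u|) volume x]
    exact Integrable.of_bound (hUc i v).aestronglyMeasurable K (ae_of_all _ fun x => hK x)
  have hTint : ∀ i (v : VW A B), ∫ x, U (k i) v.1 x ∂(n i) = ∫ x, T i v x ∂(μ (e i)) := by
    intro i v
    rw [hint i _ (hUc i v)]
    rfl
  have hsumT : ∀ v : VW A B, ∑ j, ∫ x, T (e.symm j) v x ∂(μ j) =
      ∑ i, ∫ x, U (k i) v.1 x ∂(n i) := by
    intro v
    rw [← Equiv.sum_comp e]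
    refine Finset.sum_congr rfl fun i _ => ?_
    rw [Equiv.symm_apply_apply, hTint]
  have hsumμ : ∑ j, (μ j univ).toReal = ∑ i, ∫ x, d i x ∂(n i) := by
    rw [← Equiv.sum_comp e]
    exact Finset.sum_congr rfl fun i _ => (hdint i).symm
  have hmain : ∀ v ∈ D, U kt v.1 0 - ∑ i, ∫ x, U (k i) v.1 x ∂(n i) ≤
      t - U kt E 0 - ∑ i, ∫ x, d i x ∂(n i) := by
    intro v hv
    have h1 := hμ' v hv
    rw [hsumT, hsumμ, hℓ] at h1
    exact h1
  refine ⟨n, hnfin, fun i => ?_, hUEint, ?_, fun N hN hN0 hNE => ?_⟩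
  · rw [hn]
    simp only
    rw [Measure.map_apply hψc.measurable measurableSet_Iio]
    have h1 : ψ ⁻¹' Iio x₁ = ∅ := by
      ext x
      simp only [mem_preimage, mem_Iio, mem_empty_iff_false, iff_false, not_lt]
      exact hψ1 x
    rw [h1, measure_empty]
  · -- positivity
    have hGint : Integrable (G k kt n) := by
      have h1 : ∀ i, Integrable (fun y => ∫ x, k i (x - y) ∂(n i)) := by
        intro i
        have := hnfin i
        have h2 := ((hk i).fubini_bdd ha hb (n i) (N := fun _ => 1) measurable_const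
          (R := 1) (fun y => by simp)).2.1
        simpa using h2
      have h2 : Integrable (fun y => kt (-y)) := by
        have := hkt.integrable_sub ha hb 0
        simpa using this
      have h3 : Integrable (fun y => ∑ i, ∫ x, k i (x - y) ∂(n i)) :=
        integrable_finsetSum _ fun i _ => h1 i
      exact h3.sub h2
    refine ae_nonneg_of_test hGint.locallyIntegrable fun φ hφ hφ0 hφz => ?_
    let v : VW A B := ⟨φ, hφ, hφz⟩
    have hv : v.1 = φ := rfl
    -- the inequality for r v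
    have h1 : ∀ r : ℝ, 0 ≤ r → r * (U kt φ 0 - ∑ i, ∫ x, U (k i) φ x ∂(n i)) ≤
        t - U kt E 0 - ∑ i, ∫ x, d i x ∂(n i) := by
      intro r hr
      have h2 := hmain (r • v) (fun y => by
        have h3 : (r • v : VW A B).1 y = r * φ y := rfl
        rw [h3]
        exact add_nonneg (hE0 y) (mul_nonneg hr (hφ0 y)))
      have h3 : (r • v : VW A B).1 = fun y => r * φ y := rfl
      rw [h3, U_smul] at h2
      have h4 : ∀ i, ∫ x, U (k i) (fun y => r * φ y) x ∂(n i) = r * ∫ x, U (k i) φ x ∂(n i) := by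
        intro i
        rw [← integral_const_mul]
        exact integral_congr_ae (ae_of_all _ fun x => U_smul _ _ _ _)
      simp only [h4] at h2
      rw [← Finset.mul_sum] at h2
      linarith
    have h2 : U kt φ 0 - ∑ i, ∫ x, U (k i) φ x ∂(n i) ≤ 0 := by
      by_contra hcon
      push Not at hcon
      set s := U kt φ 0 - ∑ i, ∫ x, U (k i) φ x ∂(n i)
      set c := t - U kt E 0 - ∑ i, ∫ x, d i x ∂(n i)
      have h3 := h1 ((|c| + 1) / s) (by positivity)
      rw [div_mul_cancel₀ _ hcon.ne'] at h3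
      linarith [le_abs_self c]
    -- Fubini
    obtain ⟨R, hR0, hR⟩ := VW_bdd v
    have h3 : ∀ i, Integrable (fun y => (∫ x, k i (x - y) ∂(n i)) * φ y) ∧
        ∫ x, U (k i) φ x ∂(n i) = ∫ y, (∫ x, k i (x - y) ∂(n i)) * φ y := by
      intro i
      have := hnfin i
      exact ((hk i).fubini_bdd ha hb (n i) hφ.measurable hR).2
    have h4 : ∫ y, G k kt n y * φ y = ∑ i, ∫ x, U (k i) φ x ∂(n i) - U kt φ 0 := by
      have h5 : ∀ y, G k kt n y * φ y = ∑ i, (∫ x, k i (x - y) ∂(n i)) * φ y - kt (-y) * φ y := by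
        intro y
        unfold G
        rw [sub_mul, Finset.sum_mul]
      have h6 : Integrable (fun y => kt (-y) * φ y) := by
        have := hkt.integrable_lin ha hb hφ.measurable (VW_lin v) 0
        simpa using this
      simp only [h5]
      rw [integral_sub (integrable_finsetSum _ fun i _ => (h3 i).1) h6,
        integral_finsetSum _ fun i _ => (h3 i).1]
      congr 1
      · exact Finset.sum_congr rfl fun i _ => (h3 i).2.symm
      · unfold U
        simp
    rw [h4]
    linarith
  · -- the dual inequality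
    let v : VW A B := ⟨fun y => N y - E y, hN.sub hE, fun y hy => by
      show N y - E y = 0
      rw [hNE y hy, sub_self]⟩
    have hNv : N = fun y => E y + v.1 y := by
      funext y
      show N y = E y + (N y - E y)
      ring
    have h1 := hmain v (fun y => by
      have h2 : E y + v.1 y = N y := by
        show E y + (N y - E y) = N y
        ring
      rw [h2]
      exact hN0 y)
    have h2 : ∀ i, ∫ x, (gam i - U (k i) N x) ∂(n i) =
        ∫ x, d i x ∂(n i) - ∫ x, U (k i) v.1 x ∂(n i) := by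
      intro i
      rw [← integral_sub (hintd i) (hUvint i v)]
      refine integral_congr_ae (ae_of_all _ fun x => ?_)
      show gam i - U (k i) N x = gam i - U (k i) E x - U (k i) v.1 x
      rw [hNv, hUadd]
      ring
    simp only [h2]
    rw [Finset.sum_sub_distrib]
    have h3 : U kt N 0 = U kt E 0 + U kt v.1 0 := by
      rw [← hUtadd]
      congr 1
    rw [h3]
    linarith

end INDB
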