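import Pool.Agent.INDB.Dpos
import Pool.Agent.INDB.DualB

/-!
# INDB, module Apri: failing windows have dual certificates with a priori bounds

PROOF. `c₅, b₀` of `dpos`. For `x ≥ -X/2`: `gam i - U E x ≥ c₅ · min (E x) (rhoL ..) ≥ c₅` (`OK.E_ge`, `OK.rhoL_ge_one`; `be X/2 ≥ 1`). If there is no solution, `dual_window` (`x₁ = -X/2`, `A = -M`, `B = M'`, `d₀ = c₅`) gives `WC p n` .
Bounds: insert `N = E`: `∑ ∫ (gam i - U E) dn i ≤ t - U kt E 0`. `|U kt E 0| ≤ C (3 + 1/(b-κ) + 1/a) E 0` (`Kern.U_abs_le`, `x = 0`, `μ = 0`, `lin_of_dec_gro`), `|t| ≤ |t| E 0` (`E 0 ≥ G1 ≥ 1`). All integrands on the left are `≥ c₅ E` resp. `≥ c₅ rhoL(. - s i) ≥ 0` `n i`-almost everywhere (`n i` lives on `[-X/2, ∞)`), so every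
single one of them is bounded by `K₀ E 0`; integrability of `E` and `rhoL` by comparison (`Integrable.mono'`). `K = (C (3 + 1/(b-κ) + 1/a) + |t| + 1)/c₅`, at least `1`.
-/

open MeasureTheory Set Filter Topology

namespace INDB

theorem apri {ι : Type} [Fintype ι] (S : Sys ι) {κ sg : ℝ} (hκ : S.Sub κ) (hs0 : 0 < sg)
    (hsκ : sg < κ) :
    ∃ K b₀ : ℝ, 1 ≤ K ∧ 1 ≤ b₀ ∧ ∀ p : Par, p.OK κ S.C → p.sg = sg → b₀ ≤ p.be →
      (¬ ∃ N, S.Sol p N) → ∃ n : ι → Measure ℝ, S.WC p n ∧ S.AP p K n := by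
  obtain ⟨c₅, b₀, hc₅, hc₅1, hb₀, hd⟩ := dpos S hκ hs0 hsκ
  obtain ⟨hκ0, hκb, -⟩ := hκ
  have ha := S.ha
  have hb := S.hb
  have hab := S.hab
  have hC := S.hC
  have hQ : 0 ≤ S.C * (3 + 1 / (S.b - κ) + 1 / S.a) := by
    have h1 : 0 < S.b - κ := by linarith
    positivity
  obtain ⟨K', hK'⟩ : ∃ K', K' = S.C * (3 + 1 / (S.b - κ) + 1 / S.a) + |S.t| + 1 := ⟨_, rfl⟩
  have hK'1 : 1 ≤ K' := by
    rw [hK']
    have := abs_nonneg S.t
    linarith
  refine ⟨K' / c₅, b₀, ?_, hb₀, ?_⟩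
  · rw [le_div_iff₀ hc₅]
    linarith
  intro p h hsg hbe hno
  obtain ⟨hMM, -, -, -, hG1, hsl, hX16, -, -⟩ := h.basic
  have hbe1 := h.be1
  have hM1 := h.M1
  have hE1 : ∀ x, -(p.X / 2) ≤ x → 1 ≤ p.E x := by
    intro x hx
    refine le_trans ?_ (h.E_ge hx)
    nlinarith
  have hE0 : 1 ≤ p.E 0 := hE1 0 (by linarith)
  have hd' := hd p h hsg hbe
  have hmain : ∀ i x, -(p.X / 2) ≤ x → c₅ ≤ S.gam i - U (S.k i) p.E x := by
    intro i x hx
    by_cases hi : S.kind i = Kind.L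
    · refine le_trans ?_ ((hd' x hx).2 i hi)
      have := h.rhoL_ge_one (x - S.s i)
      nlinarith
    · refine le_trans ?_ ((hd' x hx).1 i hi)
      have := hE1 x hx
      nlinarith
  obtain ⟨n, hfin, hsupp, hint, hpos, hdual⟩ := dual_window ha hb S.k S.kt S.hk S.hkt S.gam S.t
    h.cont_E (fun y => (h.pos_E y).le) h.lin_E (x₁ := -(p.X / 2)) (A := -p.M) (B := p.M')
    (d₀ := c₅) (by linarith) hc₅ hmain (by
      intro N hN1 hN2 hN3 hN4
      by_contra hcon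
      exact hno ⟨N, ⟨hN1, hN2, hN3, hN4, not_le.1 hcon⟩⟩)
  refine ⟨n, ⟨hfin, hsupp, hint, hpos, hdual⟩, ?_⟩
  have hae : ∀ i, ∀ᵐ x ∂(n i), -(p.X / 2) ≤ x := by
    intro i
    rw [ae_iff]
    have h1 : {x : ℝ | ¬ -(p.X / 2) ≤ x} = Iio (-(p.X / 2)) := by
      ext x
      simp
    rw [h1]
    exact hsupp i
  have hfi : ∀ i, Integrable (fun x => S.gam i - U (S.k i) p.E x) (n i) := fun i => by
    have := hfin i
    exact (integrable_const _).sub (hint i)
  have hf0 : ∀ i, 0 ≤ ∫ x, (S.gam i - U (S.k i) p.E x) ∂(n i) := fun i => by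
    refine integral_nonneg_of_ae ?_
    filter_upwards [hae i] with x hx
    exact hc₅.le.trans (hmain i x hx)
  have hU : |U S.kt p.E 0| ≤ S.C * (3 + 1 / (S.b - κ) + 1 / S.a) * p.E 0 := by
    have h1 := S.hkt.U_abs_le (a := S.a) (b := S.b) (by linarith) (by linarith) hκ0.le hκb le_rfl
      ha h.cont_E.measurable (x := 0) (B := p.E 0) (h.pos_E 0).le
      (fun y => lin_of_dec_gro (fun y => (h.pos_E y).le) (fun x y hxy => by
        rw [zero_mul, neg_zero, Real.exp_zero, mul_one]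
        exact h.mono_E hxy) h.gro_E le_rfl hκ0.le 0 y)
    rwa [sub_zero] at h1
  have htot : ∑ i, ∫ x, (S.gam i - U (S.k i) p.E x) ∂(n i) ≤ K' * p.E 0 := by
    refine (hdual p.E h.cont_E (fun y => (h.pos_E y).le) (fun _ _ => rfl)).trans ?_
    have h1 := neg_abs_le (U S.kt p.E 0)
    have h2 := le_abs_self S.t
    have h3 : |S.t| ≤ |S.t| * p.E 0 := le_mul_of_one_le_right (abs_nonneg _) hE0
    rw [hK']
    nlinarith
  have hone : ∀ i, ∫ x, (S.gam i - U (S.k i) p.E x) ∂(n i) ≤ K' * p.E 0 := fun i =>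
    (Finset.single_le_sum (f := fun i => ∫ x, (S.gam i - U (S.k i) p.E x) ∂(n i))
      (fun j _ => hf0 j) (Finset.mem_univ i)).trans htot
  -- comparison
  have hcmp : ∀ (i : ι) (g : ℝ → ℝ), Measurable g → (∀ x, 0 ≤ g x) →
      (∀ x, -(p.X / 2) ≤ x → c₅ * g x ≤ S.gam i - U (S.k i) p.E x) →
      Integrable g (n i) ∧ ∫ x, g x ∂(n i) ≤ K' / c₅ * p.E 0 := by
    intro i g hg hg0 hgx
    have hb1 : ∀ x, -(p.X / 2) ≤ x → g x ≤ c₅⁻¹ * (S.gam i - U (S.k i) p.E x) := by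
      intro x hx
      have h1 := mul_le_mul_of_nonneg_left (hgx x hx) (inv_nonneg.2 hc₅.le)
      rwa [← mul_assoc, inv_mul_cancel₀ hc₅.ne', one_mul] at h1
    have hgi : Integrable g (n i) := by
      refine Integrable.mono' ((hfi i).const_mul c₅⁻¹) hg.aestronglyMeasurable ?_
      filter_upwards [hae i] with x hx
      rw [Real.norm_eq_abs, abs_of_nonneg (hg0 x)]
      exact hb1 x hx
    refine ⟨hgi, ?_⟩
    have h1 : ∫ x, g x ∂(n i) ≤ ∫ x, c₅⁻¹ * (S.gam i - U (S.k i) p.E x) ∂(n i) := by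
      refine integral_mono_ae hgi ((hfi i).const_mul c₅⁻¹) ?_
      filter_upwards [hae i] with x hx
      exact hb1 x hx
    rw [integral_const_mul] at h1
    refine h1.trans ((mul_le_mul_of_nonneg_left (hone i) (inv_nonneg.2 hc₅.le)).trans
      (le_of_eq ?_))
    rw [div_eq_mul_inv]
    ring
  refine ⟨fun i hi => ?_, fun i hi => ?_, fun i hi => ?_, fun i hi => ?_⟩
  · exact (hcmp i p.E h.cont_E.measurable (fun y => (h.pos_E y).le)
      (fun x hx => (hd' x hx).1 i hi)).1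
  · exact (hcmp i p.E h.cont_E.measurable (fun y => (h.pos_E y).le)
      (fun x hx => (hd' x hx).1 i hi)).2
  · exact (hcmp i (fun x => p.rhoL (x - S.s i))
      ((Par.measurable_rhoL h).comp (measurable_id.sub_const _))
      (fun x => zero_le_one.trans (h.rhoL_ge_one _)) (fun x hx => (hd' x hx).2 i hi)).1
  · exact (hcmp i (fun x => p.rhoL (x - S.s i))
      ((Par.measurable_rhoL h).comp (measurable_id.sub_const _))
      (fun x => zero_le_one.trans (h.rhoL_ge_one _)) (fun x hx => (hd' x hx).2 i hi)).2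

end INDB
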