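import Pool.Agent.INDB.KernB

/-!
# INDB, module Meas: kernels integrated against finite measures

PROOFS. `ae_integrable`: Fubini for `μ ⊗ volume`: `∫∫ |k (x-y)| dy dμ(x) = μ(ℝ) ∫|k| < ∞` (`Integrable` on the product: `(x, y) ↦ k (x - y)` is measurable; `MeasureTheory.integrable_prod_iff`), so for a.e. `y` the section `x ↦ k(x-y)` is integrable
(`Integrable.prod_left_ae` / `integrable_prod_iff'`). `fubini_bdd`: for `N` measurable with `|N| ≤ R` the function `k(x-y) N(y)` is integrable on the product, `integral_integral_swap`. `fubini_lin`: the same with the hypothesis of integrability of `x ↦ ∫ |k(x-y)| |N y| dy`.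
`G_add_density`: adding to `n j` the density `q` on `[α, β]` adds `q ∫_{α}^{β} k j (x-y) dx` at every `y` where all `x ↦ k i (x-y)` are `n i`-integrable (`integral_add_measure`, `Kern.integrable_sub` restricted to `Icc`).
`G_restrict`: `∫ over the restriction to A = ∫ - ∫ over the restriction to Aᶜ`.
-/

open MeasureTheory Set Filter Topology

namespace INDB

variable {a b C : ℝ}

private lemma Kern.meas_sub {k : ℝ → ℝ} (hk : Kern a b C k) :
    Measurable (fun p : ℝ × ℝ => k (p.1 - p.2)) :=
  hk.meas.comp (measurable_fst.sub measurable_snd)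

private lemma Kern.int_prod {k : ℝ → ℝ} (hk : Kern a b C k) (ha : 0 < a) (hb : 0 < b)
    (μ : Measure ℝ) [IsFiniteMeasure μ] :
    Integrable (fun p : ℝ × ℝ => k (p.1 - p.2)) (μ.prod volume) := by
  rw [integrable_prod_iff hk.meas_sub.aestronglyMeasurable]
  refine ⟨Eventually.of_forall fun x => hk.integrable_sub ha hb x, ?_⟩
  have h1 : (fun x : ℝ => ∫ y, ‖k (x - y)‖) = fun _ => ∫ u, ‖k u‖ := by
    funext x
    exact integral_sub_left_eq_self (fun u => ‖k u‖) volume x
  change Integrable (fun x : ℝ => ∫ y, ‖k (x - y)‖) μ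
  rw [h1]
  exact integrable_const _

private lemma fub_of_int {k : ℝ → ℝ} (μ : Measure ℝ) [IsFiniteMeasure μ] {N : ℝ → ℝ}
    (h : Integrable (fun p : ℝ × ℝ => k (p.1 - p.2) * N p.2) (μ.prod volume)) :
    Integrable (fun x => U k N x) μ ∧
      Integrable (fun y => (∫ x, k (x - y) ∂μ) * N y) ∧
      ∫ x, U k N x ∂μ = ∫ y, (∫ x, k (x - y) ∂μ) * N y := by
  refine ⟨h.integral_prod_left, ?_, ?_⟩
  · have h1 := h.integral_prod_right
    refine h1.congr (Eventually.of_forall fun y => ?_)
    exact integral_mul_const (N y) fun x => k (x - y)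
  · have h1 := integral_integral_swap (f := fun x y => k (x - y) * N y) (μ := μ)
      (ν := volume) h
    refine h1.trans (integral_congr_ae (Eventually.of_forall fun y => ?_))
    exact integral_mul_const (N y) fun x => k (x - y)

lemma Kern.ae_integrable {k : ℝ → ℝ} (hk : Kern a b C k) (ha : 0 < a) (hb : 0 < b)
    (μ : Measure ℝ) [IsFiniteMeasure μ] : ∀ᵐ y : ℝ, Integrable (fun x => k (x - y)) μ := by
  exact (hk.int_prod ha hb μ).prod_left_ae

lemma ae_integrable_all {ι : Type} [Fintype ι] {k : ι → ℝ → ℝ} (hk : ∀ i, Kern a b C (k i))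
    (ha : 0 < a) (hb : 0 < b) (n : ι → Measure ℝ) (hn : ∀ i, IsFiniteMeasure (n i)) :
    ∀ᵐ y : ℝ, ∀ i, Integrable (fun x => k i (x - y)) (n i) := by
  rw [ae_all_iff]
  intro i
  have := hn i
  exact (hk i).ae_integrable ha hb (n i)

lemma Kern.fubini_bdd {k : ℝ → ℝ} (hk : Kern a b C k) (ha : 0 < a) (hb : 0 < b)
    (μ : Measure ℝ) [IsFiniteMeasure μ] {N : ℝ → ℝ} (hN : Measurable N) {R : ℝ}
    (hR : ∀ y, |N y| ≤ R) :
    Integrable (fun x => U k N x) μ ∧
      Integrable (fun y => (∫ x, k (x - y) ∂μ) * N y) ∧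
      ∫ x, U k N x ∂μ = ∫ y, (∫ x, k (x - y) ∂μ) * N y := by
  refine fub_of_int μ ?_
  refine ((hk.int_prod ha hb μ).norm.const_mul R).mono'
    (hk.meas_sub.mul (hN.comp measurable_snd)).aestronglyMeasurable
    (Eventually.of_forall fun p => ?_)
  rw [norm_mul, mul_comm]
  exact mul_le_mul_of_nonneg_right (hR p.2) (norm_nonneg _)

lemma Kern.fubini_abs {k : ℝ → ℝ} (hk : Kern a b C k) (ha : 0 < a) (hb : 0 < b)
    (μ : Measure ℝ) [IsFiniteMeasure μ] {N : ℝ → ℝ} (hN : Measurable N)
    (h1 : ∀ x, Integrable (fun y => k (x - y) * N y))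
    (h2 : Integrable (fun x => ∫ y, |k (x - y)| * |N y|) μ) :
    Integrable (fun x => U k N x) μ ∧
      Integrable (fun y => (∫ x, k (x - y) ∂μ) * N y) ∧
      ∫ x, U k N x ∂μ = ∫ y, (∫ x, k (x - y) ∂μ) * N y := by
  have hm : AEStronglyMeasurable (fun p : ℝ × ℝ => k (p.1 - p.2) * N p.2) (μ.prod volume) :=
    (hk.meas_sub.mul (hN.comp measurable_snd)).aestronglyMeasurable
  refine fub_of_int μ ?_
  rw [integrable_prod_iff hm]
  refine ⟨Eventually.of_forall fun x => h1 x, ?_⟩
  refine h2.congr (Eventually.of_forall fun x => ?_)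
  refine integral_congr_ae (Eventually.of_forall fun y => ?_)
  change |k (x - y)| * |N y| = ‖k (x - y) * N y‖
  rw [norm_mul]
  rfl

/-- the density `q` on `[α, β]` -/
noncomputable def dens (q α β : ℝ) : Measure ℝ := ENNReal.ofReal q • volume.restrict (Icc α β)

lemma dens_finite (q α β : ℝ) : IsFiniteMeasure (dens q α β) := by
  unfold dens
  exact Measure.smul_finite _ ENNReal.ofReal_ne_top

private lemma dens_real_univ' {q α β : ℝ} (hq : 0 ≤ q) (h : α ≤ β) :
    (dens q α β).real univ = q * (β - α) := by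
  unfold dens
  rw [measureReal_def, Measure.smul_apply, Measure.restrict_apply_univ, Real.volume_Icc,
    smul_eq_mul, ENNReal.toReal_mul, ENNReal.toReal_ofReal hq,
    ENNReal.toReal_ofReal (sub_nonneg.2 h)]

lemma dens_real_le {q α β : ℝ} (hq : 0 ≤ q) (h : α ≤ β) (s : Set ℝ) :
    (dens q α β).real s ≤ q * (β - α) := by
  have := dens_finite q α β
  rw [← dens_real_univ' hq h]
  exact measureReal_mono (subset_univ s)

lemma dens_real_univ {q α β : ℝ} (hq : 0 ≤ q) (h : α ≤ β) :
    (dens q α β).real univ = q * (β - α) := by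
  exact dens_real_univ' hq h

lemma dens_apply_eq_zero {q α β : ℝ} {s : Set ℝ} (h : Disjoint s (Icc α β)) : dens q α β s = 0 := by
  unfold dens
  rw [Measure.smul_apply, Measure.restrict_apply' measurableSet_Icc, h.inter_eq, measure_empty,
    smul_zero]

lemma Kern.int_dens {k : ℝ → ℝ} (hk : Kern a b C k) (ha : 0 < a) (hb : 0 < b) {q : ℝ} (hq : 0 ≤ q)
    (α β y : ℝ) : Integrable (fun x => k (x - y)) (dens q α β) ∧
      ∫ x, k (x - y) ∂(dens q α β) = q * ∫ x in Icc α β, k (x - y) := by
  have h1 : Integrable (fun x => k (x - y)) (volume.restrict (Icc α β)) :=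
    ((hk.integrable ha hb).comp_sub_right y).restrict
  refine ⟨h1.smul_measure ENNReal.ofReal_ne_top, ?_⟩
  unfold dens
  rw [integral_smul_measure, ENNReal.toReal_ofReal hq, smul_eq_mul]

/-- restrict all measures (depending on the index) and add a density at the index `j` -/
lemma G_modify {ι : Type} [Fintype ι] [DecidableEq ι] {k : ι → ℝ → ℝ} {kt : ℝ → ℝ}
    (hk : ∀ i, Kern a b C (k i)) (ha : 0 < a) (hb : 0 < b) (n : ι → Measure ℝ)
    (hn : ∀ i, IsFiniteMeasure (n i)) (R : ι → Set ℝ) (hR : ∀ i, MeasurableSet (R i)) (j : ι)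
    {q : ℝ} (hq : 0 ≤ q) (α β : ℝ) :
    (∀ i, IsFiniteMeasure ((n i).restrict (R i) + if i = j then dens q α β else 0)) ∧
    ∀ᵐ y : ℝ, G k kt (fun i => (n i).restrict (R i) + if i = j then dens q α β else 0) y =
        ∑ i, ∫ x in R i, k i (x - y) ∂(n i) + q * (∫ x in Icc α β, k j (x - y)) - kt (-y) ∧
      G k kt n y = ∑ i, ∫ x in R i, k i (x - y) ∂(n i) + ∑ i, ∫ x in (R i)ᶜ, k i (x - y) ∂(n i)
        - kt (-y) := by
  have hfin : ∀ i, IsFiniteMeasure ((n i).restrict (R i) + if i = j then dens q α β else 0) := by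
    intro i
    have := hn i
    have : IsFiniteMeasure (if i = j then dens q α β else 0) := by
      split_ifs
      · exact dens_finite q α β
      · infer_instance
    infer_instance
  refine ⟨hfin, ?_⟩
  filter_upwards [ae_integrable_all hk ha hb n hn] with y hy
  constructor
  · unfold G
    congr 1
    have h1 : ∀ i, ∫ x, k i (x - y) ∂((n i).restrict (R i) + if i = j then dens q α β else 0) =
        (∫ x in R i, k i (x - y) ∂(n i)) +
          if i = j then q * (∫ x in Icc α β, k j (x - y)) else 0 := by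
      intro i
      by_cases hij : i = j
      · rw [if_pos hij, if_pos hij, integral_add_measure (hy i).restrict
          ((hk i).int_dens ha hb hq α β y).1, ((hk i).int_dens ha hb hq α β y).2, hij]
      · rw [if_neg hij, if_neg hij, add_zero, add_zero]
    rw [Finset.sum_congr rfl fun i _ => h1 i, Finset.sum_add_distrib, Finset.sum_ite_eq',
      if_pos (Finset.mem_univ j)]
  · unfold G
    congr 1
    rw [← Finset.sum_add_distrib]
    exact Finset.sum_congr rfl fun i _ => (integral_add_compl (hR i) (hy i)).symm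

end INDB
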