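import Pool.Agent.INDB.Prim
import Pool.Agent.INDB.Meas

/-!
# INDB, module Attach: a certificate with slack contradicts (Cert)

PROOF. Let `G n y ≥ η w(-y)` a.e., `Λ v = ∫_{u ≤ v} k_{l0}`, `C₂ = 3 C (1 + 1/a + 1/b)`, `ζ = η/C₂ > 0`. For `R > 0` let `n'` be `n` plus the density `ζ` on `[-R, 0]` at the index `l0` (`G_modify` with `R i = univ`). For a.e. `y`
`G n' y = G n y + ζ ∫_{x ∈ [-R,0]} k_{l0}(x-y) dx = G n y + ζ (Λ(-y) - Λ(-R-y)) ≥ η w(-y) - ζ C₂ w(-y) + 0 = 0` (`int_prim`, `prim_bounds`: `Λ(-y) ≥ -C₂ w(-y)`, `Λ(-R-y) ≤ 0`). So `n'` is exact and `Cert` gives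
`t + e ≤ ∑ γ_i n_i(ℝ) + γ_{l0} ζ R`. The right side tends to `-∞` as `R → ∞` (`γ_{l0} < 0`): contradiction.
-/

open MeasureTheory Set Filter Topology

namespace INDB

theorem attach {ι : Type} [Fintype ι] (S : Sys ι) {e : ℝ} (hcert : S.Cert e) (hs : S.Strict) :
    False := by
  classical
  obtain ⟨η, n, hη, hn, hG⟩ := hs
  have ha := S.ha
  have hb := S.hb
  have ha1 : S.a ≤ 1 := by linarith [S.hab]
  have hb1 : S.b ≤ 1 := by linarith [S.hab]
  have hC := S.hC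
  obtain ⟨C₂, hC₂⟩ : ∃ C₂, C₂ = 3 * S.C * (1 + 1 / S.a + 1 / S.b) := ⟨_, rfl⟩
  have hC₂0 : 0 < C₂ := by
    rw [hC₂]
    positivity
  obtain ⟨ζ, hζ⟩ : ∃ ζ, ζ = η / C₂ := ⟨_, rfl⟩
  have hζ0 : 0 < ζ := by
    rw [hζ]
    exact div_pos hη hC₂0
  have hζC : ζ * C₂ = η := by
    rw [hζ]
    exact div_mul_cancel₀ _ hC₂0.ne'
  have key : ∀ R : ℝ, 0 ≤ R → S.t + e ≤ ∑ i, S.gam i * (n i).real univ + S.gam S.l0 * (ζ * R) := by
    intro R hR
    obtain ⟨hfin, hae⟩ := G_modify S.hk (kt := S.kt) ha hb n hn (fun _ => univ)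
      (fun _ => MeasurableSet.univ) S.l0 hζ0.le (-R) 0
    have hnn : ∀ᵐ y, 0 ≤ G S.k S.kt
        (fun i => (n i).restrict univ + if i = S.l0 then dens ζ (-R) 0 else 0) y := by
      filter_upwards [hae, hG] with y hy hGy
      obtain ⟨h1, h2⟩ := hy
      simp only [compl_univ, Measure.restrict_empty, integral_zero_measure,
        Finset.sum_const_zero, add_zero] at h2
      rw [h1, int_prim (S.hk S.l0) ha hb (by linarith : -R ≤ (0 : ℝ)) y]
      have h3 := (prim_bounds (S.hk S.l0) ha hb ha1 hb1 S.hc (S.patL S.l0 S.hl0)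
        (S.intL S.l0 S.hl0) (0 - y)).1
      have h4 := (prim_bounds (S.hk S.l0) ha hb ha1 hb1 S.hc (S.patL S.l0 S.hl0)
        (S.intL S.l0 S.hl0) (-R - y)).2
      rw [← hC₂, zero_sub] at h3
      have h5 : 0 ≤ S.c * Real.exp (-2) * w S.a S.b (-R - y) := by
        have := S.hc
        have h6 : 0 < w S.a S.b (-R - y) := Real.exp_pos _
        positivity
      have h6 : ∫ u in Iic (-R - y), S.k S.l0 u ≤ 0 := by linarith
      have h7 : ζ * -(C₂ * w S.a S.b (-y)) ≤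
          ζ * ((∫ u in Iic (-y), S.k S.l0 u) - ∫ u in Iic (-R - y), S.k S.l0 u) :=
        mul_le_mul_of_nonneg_left (by linarith) hζ0.le
      have h8 : ζ * -(C₂ * w S.a S.b (-y)) = -(η * w S.a S.b (-y)) := by
        rw [← hζC]
        ring
      rw [zero_sub]
      linarith
    have h1 := hcert _ hfin hnn
    have h2 : ∀ i, ((n i).restrict univ + if i = S.l0 then dens ζ (-R) 0 else 0).real univ =
        (n i).real univ + if i = S.l0 then ζ * R else 0 := by
      intro i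
      have := hn i
      have := dens_finite ζ (-R) 0
      rw [Measure.restrict_univ]
      split_ifs with hi
      · rw [measureReal_add_apply, dens_real_univ hζ0.le (by linarith)]
        ring
      · rw [add_zero, add_zero]
    simp only [h2, mul_add, Finset.sum_add_distrib, mul_ite, mul_zero, Finset.sum_ite_eq',
      Finset.mem_univ, if_true] at h1
    exact h1
  obtain ⟨Q0, hQ0⟩ : ∃ Q0, Q0 = ∑ i, S.gam i * (n i).real univ := ⟨_, rfl⟩
  have hg := S.gam0
  have hpos : 0 < -S.gam S.l0 * ζ := mul_pos (by linarith) hζ0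
  obtain ⟨R, hR⟩ : ∃ R, R = max 0 ((Q0 - (S.t + e) + 1) / (-S.gam S.l0 * ζ)) := ⟨_, rfl⟩
  have h1 := key R (by rw [hR]; exact le_max_left _ _)
  rw [← hQ0] at h1
  have h2 : (Q0 - (S.t + e) + 1) / (-S.gam S.l0 * ζ) ≤ R := by
    rw [hR]
    exact le_max_right _ _
  rw [div_le_iff₀ hpos] at h2
  nlinarith

end INDB
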