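import Pool.Agent.INDB.Cmp

/-!
# INDB, module Const: uniform constants for slowly decaying densities

PROOFS. All statements: `N ≥ 0` measurable, `Dec μ N`, `Gro κ N`.
`const_M`: `F μ = ∫ k u e^{μ(u-s)} du` is continuous at `μ = 0` (dominated convergence, majorant `|k u| e^{μ₁ |u-s|}`, `μ₁ = min a b / 2`), `F 0 = ∫ k < 0`, so `F μ₀ ≤ (1/2) ∫ k` for some small `μ₀`. `cmp_MP` (with `μ₀`: `Dec μ` implies
`Dec μ₀` for `μ ≤ μ₀`) and `N(x-s) ≥ N x e^{-2|s|}` (`dec_shift`, `μ + κ ≤ 2`): `δ = -(1/2) ∫ k · e^{-2|s|}`.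
`const_L`: `F μ = ∫ k u (e^{μ(u-s)} - 1) du ≤ μ ∫ |k u| |u-s| e^{μ₁ |u-s|} du` for `μ ≤ μ₁ = min a b / 2` (`|e^t - 1| ≤ |t| e^{|t|}`), so `F μ ≤ K₀ μ`, and `N(x-s) ≤ e^{2|s|} N x`.
`const_P`: `e^{-κ s} ∫ k u e^{-κ(u-s)} du · ...`: `F κ = ∫ k u e^{-κ(u-s)} du`. For `κ < κ₁`, `k u (e^{-κ(u-s)} - e^{-κ₁ (u-s)}) ≤ 0` for all `u` (sign pattern) and `< 0` for `u ≥ s + 1`, and `F κ₁ = e^{κ₁ s} ∫ k u e^{-κ₁ u} = 0`, so `F κ < 0`. Then `cmp_PM` and `dec_shift`.
`const_N`: `cmp_N` with `δ = -e^{-2} ∫_{-1}^1 k`.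
`const_all`: minimum / maximum over the finite set `ι` (`Finset.univ`, or induction; for every `i` choose constants, then take the minimum of the `μ₀ i`, `δ i` and the maximum of the `K i`; note that smaller `μ₀`, `δ` and larger `K` remain valid).
-/

open MeasureTheory Set Filter Topology

namespace INDB

variable {a b c C : ℝ} {k : ℝ → ℝ}

private lemma cs_exp (t : ℝ) : |Real.exp t - 1| ≤ |t| * Real.exp |t| := by
  rcases le_total 0 t with h | h
  · have h1 := Real.add_one_le_exp (-t)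
    have h2 := mul_le_mul_of_nonneg_right h1 (Real.exp_pos t).le
    rw [← Real.exp_add, neg_add_cancel, Real.exp_zero] at h2
    have h3 := Real.add_one_le_exp t
    rw [abs_of_nonneg h, abs_of_nonneg (by linarith)]
    linarith
  · have h1 := Real.add_one_le_exp t
    have h2 : Real.exp t ≤ 1 := Real.exp_le_one_iff.2 h
    rw [abs_of_nonpos h, abs_of_nonpos (by linarith)]
    have h3 : 1 ≤ Real.exp (-t) := Real.one_le_exp (by linarith)
    have h4 : -t * 1 ≤ -t * Real.exp (-t) := mul_le_mul_of_nonneg_left h3 (by linarith)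
    linarith

private lemma cs_lin {m t : ℝ} (hm : 0 < m) (ht : 0 ≤ t) : t ≤ 1 / m * Real.exp (m * t) := by
  have h1 := Real.add_one_le_exp (m * t)
  rw [div_mul_eq_mul_div, one_mul, le_div_iff₀ hm]
  linarith

/-- a linear bound for the difference of the exponential moments -/
private lemma cs_diff (hk : Kern a b C k) (ha : 0 < a) (hb : 0 < b) (s : ℝ) :
    ∃ μ₁ K : ℝ, 0 < μ₁ ∧ μ₁ < a ∧ 0 < K ∧ ∀ μ, 0 ≤ μ → μ ≤ μ₁ →
      |(∫ u, k u * Real.exp (μ * (u - s))) - ∫ u, k u| ≤ μ * K := by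
  obtain ⟨m, hm⟩ : ∃ m, m = min a b / 2 := ⟨_, rfl⟩
  have hm0 : 0 < m := by rw [hm]; positivity
  have hma : m < a := by
    have := min_le_left a b
    rw [hm]
    have h2 : 0 < min a b := by positivity
    linarith
  have hmb : m < b := by
    have := min_le_right a b
    rw [hm]
    have h2 : 0 < min a b := by positivity
    linarith
  have hI1 := hk.integrable_exp (κ := m) (by linarith) hma
  have hI2 := hk.integrable_exp (κ := -m) (by linarith) (by linarith)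
  have hI0 := hk.integrable ha hb
  -- the majorant
  have hΦ : Integrable (fun u => |k u| * (|u - s| * Real.exp (m / 2 * |u - s|))) := by
    have h1 : Integrable (fun u => 2 / m * Real.exp (m * |s|) *
        (|k u * Real.exp (m * u)| + |k u * Real.exp (-m * u)|)) := (hI1.abs.add hI2.abs).const_mul _
    have hmeas : Measurable (fun u => |k u| * (|u - s| * Real.exp (m / 2 * |u - s|))) := by
      have := hk.meas
      fun_prop
    refine h1.mono' hmeas.aestronglyMeasurable (Eventually.of_forall fun u => ?_)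
    rw [Real.norm_of_nonneg (by positivity), abs_mul, abs_mul, abs_of_pos (Real.exp_pos _),
      abs_of_pos (Real.exp_pos _), ← mul_add]
    have h2 : |u - s| * Real.exp (m / 2 * |u - s|) ≤
        2 / m * Real.exp (m * |s|) * (Real.exp (m * u) + Real.exp (-m * u)) := by
      have h3 := cs_lin (m := m / 2) (half_pos hm0) (abs_nonneg (u - s))
      have h4 : Real.exp (m * |u - s|) ≤
          Real.exp (m * |s|) * (Real.exp (m * u) + Real.exp (-m * u)) := by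
        have h5 : |u - s| ≤ |u| + |s| := abs_sub u s
        have h6 : Real.exp (m * |u - s|) ≤ Real.exp (m * |s|) * Real.exp (m * |u|) := by
          rw [← Real.exp_add]
          apply Real.exp_le_exp.2
          nlinarith
        refine h6.trans (mul_le_mul_of_nonneg_left ?_ (Real.exp_pos _).le)
        rcases le_total 0 u with h | h
        · rw [abs_of_nonneg h]
          have := Real.exp_pos (-m * u)
          linarith
        · rw [abs_of_nonpos h]
          have := Real.exp_pos (m * u)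
          have h7 : m * -u = -m * u := by ring
          rw [h7]
          linarith
      calc |u - s| * Real.exp (m / 2 * |u - s|)
          ≤ 1 / (m / 2) * Real.exp (m / 2 * |u - s|) * Real.exp (m / 2 * |u - s|) := by gcongr
        _ = 2 / m * Real.exp (m * |u - s|) := by
            rw [mul_assoc, ← Real.exp_add]
            have h8 : m / 2 * |u - s| + m / 2 * |u - s| = m * |u - s| := by ring
            rw [h8]
            field_simp
        _ ≤ 2 / m * (Real.exp (m * |s|) * (Real.exp (m * u) + Real.exp (-m * u))) := by gcongr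
        _ = _ := by ring
    calc |k u| * (|u - s| * Real.exp (m / 2 * |u - s|))
        ≤ |k u| * (2 / m * Real.exp (m * |s|) * (Real.exp (m * u) + Real.exp (-m * u))) := by
          gcongr
      _ = _ := by ring
  refine ⟨m / 2, (∫ u, |k u| * (|u - s| * Real.exp (m / 2 * |u - s|))) + 1, half_pos hm0,
    by linarith, ?_, ?_⟩
  · have : 0 ≤ ∫ u, |k u| * (|u - s| * Real.exp (m / 2 * |u - s|)) :=
      integral_nonneg fun u => by positivity
    linarith
  · intro μ hμ hμm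
    have hIμ : Integrable (fun u => k u * Real.exp (μ * (u - s))) := by
      have h1 := (hk.integrable_exp (κ := μ) (by linarith) (by linarith)).mul_const
        (Real.exp (-(μ * s)))
      refine h1.congr (Eventually.of_forall fun u => ?_)
      simp only
      rw [mul_assoc, ← Real.exp_add]
      congr 2
      ring
    rw [← integral_sub hIμ hI0]
    refine (abs_integral_le_integral_abs).trans ?_
    have h2 : ∫ u, |k u * Real.exp (μ * (u - s)) - k u| ≤
        ∫ u, μ * (|k u| * (|u - s| * Real.exp (m / 2 * |u - s|))) := by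
      refine integral_mono (hIμ.sub hI0).abs (hΦ.const_mul μ) fun u => ?_
      simp only
      have h3 : k u * Real.exp (μ * (u - s)) - k u = k u * (Real.exp (μ * (u - s)) - 1) := by ring
      rw [h3, abs_mul]
      have h4 := cs_exp (μ * (u - s))
      rw [abs_mul, abs_of_nonneg hμ] at h4
      calc |k u| * |Real.exp (μ * (u - s)) - 1|
          ≤ |k u| * (μ * |u - s| * Real.exp (μ * |u - s|)) := by gcongr
        _ ≤ |k u| * (μ * |u - s| * Real.exp (m / 2 * |u - s|)) := by gcongr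
        _ = _ := by ring
    rw [integral_const_mul] at h2
    refine h2.trans ?_
    rw [mul_add, mul_one]
    linarith

private lemma cs_shift {μ κ : ℝ} {N : ℝ → ℝ} (h0 : ∀ y, 0 ≤ N y) (hμ : 0 ≤ μ) (hκ : 0 ≤ κ)
    (hμ1 : μ ≤ 1) (hκ1 : κ ≤ 1) (hd : Dec μ N) (hg : Gro κ N) (x s : ℝ) :
    N x * Real.exp (-(2 * |s|)) ≤ N (x - s) ∧ N (x - s) ≤ N x * Real.exp (2 * |s|) := by
  obtain ⟨h1, h2⟩ := dec_shift h0 hμ hκ hd hg x s
  have h3 : (μ + κ) * |s| ≤ 2 * |s| := mul_le_mul_of_nonneg_right (by linarith) (abs_nonneg s)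
  constructor
  · refine le_trans (mul_le_mul_of_nonneg_left (Real.exp_le_exp.2 ?_) (h0 x)) h1
    linarith
  · exact h2.trans (mul_le_mul_of_nonneg_left (Real.exp_le_exp.2 h3) (h0 x))

lemma const_M (hk : Kern a b C k) (ha : 0 < a) (hb : 0 < b) (ha1 : a ≤ 1) (hb1 : b ≤ 1) {s κ : ℝ}
    (hp : PatMP a b c s k) (hi : ∫ u, k u < 0) (hκ : 0 ≤ κ) (hκb : κ < b) :
    ∃ μ₀ δ : ℝ, 0 < μ₀ ∧ μ₀ < a ∧ 0 < δ ∧ ∀ N : ℝ → ℝ, Measurable N → (∀ y, 0 ≤ N y) →
      Dec μ₀ N → Gro κ N → ∀ x, U k N x ≤ -(δ * N x) := by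
  obtain ⟨μ₁, K, hμ₁, hμa, hK, hdiff⟩ := cs_diff hk ha hb s
  obtain ⟨I, hI⟩ : ∃ I, I = ∫ u, k u := ⟨_, rfl⟩
  rw [← hI] at hi hdiff
  obtain ⟨μ₀, hμ₀⟩ : ∃ μ₀, μ₀ = min μ₁ (-I / (2 * K)) := ⟨_, rfl⟩
  have h1 : 0 < μ₀ := by
    rw [hμ₀]
    exact lt_min hμ₁ (div_pos (by linarith) (by linarith))
  have h2 : μ₀ ≤ μ₁ := by rw [hμ₀]; exact min_le_left _ _
  have h3 : μ₀ * K ≤ -I / 2 := by
    have h4 : μ₀ ≤ -I / (2 * K) := by rw [hμ₀]; exact min_le_right _ _
    calc μ₀ * K ≤ -I / (2 * K) * K := mul_le_mul_of_nonneg_right h4 hK.le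
      _ = -I / 2 := by field_simp
  refine ⟨μ₀, -I / 2 * Real.exp (-(2 * |s|)), h1, lt_of_le_of_lt h2 hμa,
    mul_pos (by linarith) (Real.exp_pos _), ?_⟩
  intro N hN h0 hd hg x
  have h4 := cmp_MP hk hb hp h1.le (lt_of_le_of_lt h2 hμa) hκ hκb hN h0 hd hg x
  have h5 := (abs_le.1 (hdiff μ₀ h1.le h2)).2
  have h6 := (cs_shift h0 h1.le hκ (by linarith) (by linarith) hd hg x s).1
  have h7 : N (x - s) * ∫ u, k u * Real.exp (μ₀ * (u - s)) ≤ N (x - s) * (I / 2) :=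
    mul_le_mul_of_nonneg_left (by linarith) (h0 _)
  have h8 : N (x - s) * (I / 2) ≤ N x * Real.exp (-(2 * |s|)) * (I / 2) :=
    mul_le_mul_of_nonpos_right h6 (by linarith)
  calc U k N x ≤ _ := h4
    _ ≤ _ := h7
    _ ≤ _ := h8
    _ = _ := by ring

lemma const_L (hk : Kern a b C k) (ha : 0 < a) (hb : 0 < b) (ha1 : a ≤ 1) (hb1 : b ≤ 1) {s κ : ℝ}
    (hp : PatMP a b c s k) (hi : ∫ u, k u = 0) (hκ : 0 ≤ κ) (hκb : κ < b) :
    ∃ μ₀ K : ℝ, 0 < μ₀ ∧ μ₀ < a ∧ 0 < K ∧ ∀ μ : ℝ, 0 ≤ μ → μ ≤ μ₀ → ∀ N : ℝ → ℝ, Measurable N →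
      (∀ y, 0 ≤ N y) → Dec μ N → Gro κ N → ∀ x, U k N x ≤ K * μ * N x := by
  obtain ⟨μ₁, K, hμ₁, hμa, hK, hdiff⟩ := cs_diff hk ha hb s
  rw [hi] at hdiff
  refine ⟨μ₁, K * Real.exp (2 * |s|), hμ₁, hμa, mul_pos hK (Real.exp_pos _), ?_⟩
  intro μ hμ hμ1 N hN h0 hd hg x
  have h4 := cmp_MP hk hb hp hμ (lt_of_le_of_lt hμ1 hμa) hκ hκb hN h0 hd hg x
  have h5 := (abs_le.1 (hdiff μ hμ hμ1)).2
  have h6 := (cs_shift h0 hμ hκ (by linarith) (by linarith) hd hg x s).2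
  rw [sub_zero] at h5
  calc U k N x ≤ _ := h4
    _ ≤ N (x - s) * (μ * K) := mul_le_mul_of_nonneg_left h5 (h0 _)
    _ ≤ N x * Real.exp (2 * |s|) * (μ * K) :=
        mul_le_mul_of_nonneg_right h6 (mul_nonneg hμ hK.le)
    _ = _ := by ring

lemma const_P (hk : Kern a b C k) (ha : 0 < a) (hb : 0 < b) (ha1 : a ≤ 1) (hb1 : b ≤ 1)
    (hc : 0 < c) {s κ κ₁ : ℝ} (hp : PatPM a b c s k) (hi : ∫ u, k u * Real.exp (-(κ₁ * u)) = 0)
    (hκ : 0 ≤ κ) (hκ₁ : κ < κ₁) (hκb : κ₁ < b) :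
    ∃ μ₀ δ : ℝ, 0 < μ₀ ∧ μ₀ < a ∧ 0 < δ ∧ ∀ N : ℝ → ℝ, Measurable N → (∀ y, 0 ≤ N y) →
      Dec μ₀ N → Gro κ N → ∀ x, U k N x ≤ -(δ * N x) := by
  have hint : ∀ σ, 0 ≤ σ → σ < b → Integrable (fun u => k u * Real.exp (-(σ * (u - s)))) := by
    intro σ h1 h2
    have h3 := (hk.integrable_exp (κ := -σ) (by linarith) (by linarith)).mul_const
      (Real.exp (σ * s))
    refine h3.congr (Eventually.of_forall fun u => ?_)
    simp only
    rw [mul_assoc, ← Real.exp_add]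
    congr 2
    ring
  have hI1 := hint κ hκ (by linarith)
  have hI2 := hint κ₁ (by linarith) hκb
  have hz : ∫ u, k u * Real.exp (-(κ₁ * (u - s))) = 0 := by
    have h1 : ∀ u, k u * Real.exp (-(κ₁ * (u - s))) =
        Real.exp (κ₁ * s) * (k u * Real.exp (-(κ₁ * u))) := by
      intro u
      rw [mul_left_comm, ← Real.exp_add]
      congr 2
      ring
    simp only [h1]
    rw [integral_const_mul, hi, mul_zero]
  have hneg : ∫ u, k u * Real.exp (-(κ * (u - s))) < 0 := by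
    have h1 : 0 < ∫ u, (k u * Real.exp (-(κ₁ * (u - s))) - k u * Real.exp (-(κ * (u - s)))) := by
      have hI3 : Integrable (fun u => k u * Real.exp (-(κ₁ * (u - s))) -
          k u * Real.exp (-(κ * (u - s)))) := hI2.sub hI1
      rw [integral_pos_iff_support_of_nonneg ?_ hI3]
      · have h2 : Icc (s + 1) (s + 2) ⊆ Function.support
            (fun u => k u * Real.exp (-(κ₁ * (u - s))) - k u * Real.exp (-(κ * (u - s)))) := by
          intro u hu
          rw [Function.mem_support]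
          have h3 := hp.upper u hu.1
          have h4 : 0 < c * w a b u := mul_pos hc (Real.exp_pos _)
          have h5 : Real.exp (-(κ₁ * (u - s))) < Real.exp (-(κ * (u - s))) := by
            apply Real.exp_lt_exp.2
            nlinarith [hu.1]
          nlinarith
        refine lt_of_lt_of_le ?_ (measure_mono h2)
        rw [Real.volume_Icc]
        simp
      · intro u
        simp only [Pi.zero_apply]
        rcases le_total u s with h | h
        · have h3 := hp.left u h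
          have h4 : Real.exp (-(κ * (u - s))) ≤ Real.exp (-(κ₁ * (u - s))) := by
            apply Real.exp_le_exp.2
            nlinarith
          nlinarith
        · have h3 := hp.right u h
          have h4 : Real.exp (-(κ₁ * (u - s))) ≤ Real.exp (-(κ * (u - s))) := by
            apply Real.exp_le_exp.2
            nlinarith
          nlinarith
    rw [integral_sub hI2 hI1, hz] at h1
    linarith
  obtain ⟨I, hI⟩ : ∃ I, I = ∫ u, k u * Real.exp (-(κ * (u - s))) := ⟨_, rfl⟩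
  rw [← hI] at hneg
  refine ⟨a / 2, -I * Real.exp (-(2 * |s|)), half_pos ha, by linarith,
    mul_pos (by linarith) (Real.exp_pos _), ?_⟩
  intro N hN h0 hd hg x
  have h4 := cmp_PM hk hp (half_pos ha).le (by linarith) hκ (by linarith) hN h0 hd hg x
  rw [← hI] at h4
  have h6 := (cs_shift h0 (half_pos ha).le hκ (by linarith) (by linarith) hd hg x s).1
  calc U k N x ≤ _ := h4
    _ ≤ N x * Real.exp (-(2 * |s|)) * I := mul_le_mul_of_nonpos_right h6 hneg.le
    _ = _ := by ring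

lemma const_N (hk : Kern a b C k) (ha : 0 < a) (hb : 0 < b) (ha1 : a ≤ 1) (hb1 : b ≤ 1)
    {κ : ℝ} (hp : ∀ u, k u ≤ 0) (hi : ∫ u in Icc (-1 : ℝ) 1, k u < 0) (hκ : 0 ≤ κ) (hκb : κ < b) :
    ∃ μ₀ δ : ℝ, 0 < μ₀ ∧ μ₀ < a ∧ 0 < δ ∧ ∀ N : ℝ → ℝ, Measurable N → (∀ y, 0 ≤ N y) →
      Dec μ₀ N → Gro κ N → ∀ x, U k N x ≤ -(δ * N x) := by
  obtain ⟨I, hI⟩ : ∃ I, I = ∫ u in Icc (-1 : ℝ) 1, k u := ⟨_, rfl⟩
  rw [← hI] at hi
  refine ⟨a / 2, -I * Real.exp (-2), half_pos ha, by linarith,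
    mul_pos (by linarith) (Real.exp_pos _), ?_⟩
  intro N hN h0 hd hg x
  have h4 := cmp_N hk hp (half_pos ha).le (by linarith) hκ hκb hN h0 hd hg x
  rw [← hI] at h4
  have h5 : Real.exp (-2) ≤ Real.exp (-(a / 2 + κ)) := Real.exp_le_exp.2 (by linarith)
  have h6 : N x * Real.exp (-2) ≤ N x * Real.exp (-(a / 2 + κ)) :=
    mul_le_mul_of_nonneg_left h5 (h0 x)
  calc U k N x ≤ _ := h4
    _ ≤ N x * Real.exp (-2) * I := mul_le_mul_of_nonpos_right h6 hi.le
    _ = _ := by ring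

private lemma cs_dec {μ μ' : ℝ} {N : ℝ → ℝ} (h0 : ∀ y, 0 ≤ N y) (h : μ ≤ μ') (hd : Dec μ N) :
    Dec μ' N := by
  intro x y hxy
  refine le_trans (mul_le_mul_of_nonneg_left (Real.exp_le_exp.2 ?_) (h0 x)) (hd x y hxy)
  nlinarith

theorem const_all {ι : Type} [Fintype ι] (S : Sys ι) {κ : ℝ} (hκ : S.Sub κ) :
    ∃ μ₀ δ K : ℝ, 0 < μ₀ ∧ μ₀ < S.a ∧ 0 < δ ∧ 0 < K ∧ ∀ μ : ℝ, 0 ≤ μ → μ ≤ μ₀ →
      ∀ N : ℝ → ℝ, Measurable N → (∀ y, 0 ≤ N y) → Dec μ N → Gro κ N →
        (∀ i, S.kind i ≠ Kind.L → ∀ x, U (S.k i) N x ≤ -(δ * N x)) ∧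
        ∀ i, S.kind i = Kind.L → ∀ x, U (S.k i) N x ≤ K * μ * N x := by
  classical
  have ha := S.ha
  have hb := S.hb
  have hab := S.hab
  have ha1 : S.a ≤ 1 := by linarith
  have hb1 : S.b ≤ 1 := by linarith
  obtain ⟨hκ0, hκb, hκP⟩ := hκ
  have key : ∀ i, ∃ μ₀ δ K : ℝ, 0 < μ₀ ∧ μ₀ < S.a ∧ 0 < δ ∧ 0 < K ∧ ∀ μ : ℝ, 0 ≤ μ → μ ≤ μ₀ →
      ∀ N : ℝ → ℝ, Measurable N → (∀ y, 0 ≤ N y) → Dec μ N → Gro κ N →
        (S.kind i ≠ Kind.L → ∀ x, U (S.k i) N x ≤ -(δ * N x)) ∧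
        (S.kind i = Kind.L → ∀ x, U (S.k i) N x ≤ K * μ * N x) := by
    intro i
    have hk := S.hk i
    rcases hkind : S.kind i with _ | _ | _ | _
    · obtain ⟨μ₀, K, h1, h2, h3, h4⟩ := const_L hk ha hb ha1 hb1 (S.patL i hkind)
        (S.intL i hkind) hκ0.le hκb
      exact ⟨μ₀, 1, K, h1, h2, one_pos, h3, fun μ hμ hμ' N hN h0 hd hg =>
        ⟨fun h => absurd rfl h, fun _ => h4 μ hμ hμ' N hN h0 hd hg⟩⟩
    · obtain ⟨μ₀, δ, h1, h2, h3, h4⟩ := const_M hk ha hb ha1 hb1 (S.patM i hkind)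
        (S.intM i hkind) hκ0.le hκb
      exact ⟨μ₀, δ, 1, h1, h2, h3, one_pos, fun μ hμ hμ' N hN h0 hd hg =>
        ⟨fun _ => h4 N hN h0 (cs_dec h0 hμ' hd) hg, fun h => by simp at h⟩⟩
    · obtain ⟨μ₀, δ, h1, h2, h3, h4⟩ := const_P hk ha hb ha1 hb1 S.hc (S.patP i hkind)
        (S.intP i hkind) hκ0.le (hκP i hkind) (S.kapP i hkind).2
      exact ⟨μ₀, δ, 1, h1, h2, h3, one_pos, fun μ hμ hμ' N hN h0 hd hg =>
        ⟨fun _ => h4 N hN h0 (cs_dec h0 hμ' hd) hg, fun h => by simp at h⟩⟩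
    · obtain ⟨μ₀, δ, h1, h2, h3, h4⟩ := const_N hk ha hb ha1 hb1 (S.patN i hkind)
        (S.intN i hkind) hκ0.le hκb
      exact ⟨μ₀, δ, 1, h1, h2, h3, one_pos, fun μ hμ hμ' N hN h0 hd hg =>
        ⟨fun _ => h4 N hN h0 (cs_dec h0 hμ' hd) hg, fun h => by simp at h⟩⟩
  choose μf δf Kf h1 h2 h3 h4 h5 using key
  have hne : (Finset.univ : Finset ι).Nonempty := ⟨S.l0, Finset.mem_univ _⟩
  refine ⟨Finset.univ.inf' hne μf, Finset.univ.inf' hne δf, Finset.univ.sup' hne Kf, ?_, ?_, ?_,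
    ?_, ?_⟩
  · exact (Finset.lt_inf'_iff hne).2 fun i _ => h1 i
  · exact lt_of_le_of_lt (Finset.inf'_le μf (Finset.mem_univ S.l0)) (h2 S.l0)
  · exact (Finset.lt_inf'_iff hne).2 fun i _ => h3 i
  · exact lt_of_lt_of_le (h4 S.l0) (Finset.le_sup' Kf (Finset.mem_univ S.l0))
  · intro μ hμ hμ' N hN h0 hd hg
    refine ⟨fun i hi x => ?_, fun i hi x => ?_⟩
    · have h6 := (h5 i μ hμ (hμ'.trans (Finset.inf'_le μf (Finset.mem_univ i))) N hN h0 hd hg).1
        hi x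
      have h7 := mul_le_mul_of_nonneg_right (Finset.inf'_le δf (Finset.mem_univ i)) (h0 x)
      linarith
    · have h6 := (h5 i μ hμ (hμ'.trans (Finset.inf'_le μf (Finset.mem_univ i))) N hN h0 hd hg).2
        hi x
      have h7 := mul_le_mul_of_nonneg_right (mul_le_mul_of_nonneg_right
        (Finset.le_sup' Kf (Finset.mem_univ i)) hμ) (h0 x)
      linarith

end INDB
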