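import Pool.Agent.INDB.ProfN
import Pool.Agent.INDB.Const

/-!
# INDB, module CNa: test functions on the rays of kind `L`, left zone `x - s ≤ -Y₁`

PROOF. `k = k_i`, `s = s_i`, `N = p.N μ Y₁`, `z = x - s ≤ -Y₁`. `U k N x = ∫ k(x-y) (N y - N z) dy` (`∫ k = 0`; integrability `Kern.integrable_mul_of_le` with `Dec μ`, `Gro κ`, `μ < a`, `κ < b`).
`y ≤ z`: `x - y ≥ s`, `k ≥ 0`, `N y ≤ N z` (`N_mono_left`): contribution `≤ 0`. `z ≤ y ≤ -Y₁`: `k ≤ 0`, `N y ≥ N z`: `≤ 0`. `y > -Y₁` (`k ≤ 0`): `N y ≥ G1 e^{-μ(y+Y₁)}` (`N_ge`), `N z ≤ G1` (`N_le_left`): `k (N y - N z) ≤ |k| G1 μ (y + Y₁)`.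
`∫_{y>-Y₁} |k(x-y)| (y+Y₁) dy ≤ ∑_j (j+1) ∫_{[-Y₁+j,-Y₁+j+1]} |k(x-y)| dy ≤ ∑_j (j+1) 31 C w(x + Y₁ - j)` (`Kern.unit_le'`), `w(x+Y₁-j) = w((z + Y₁ - j) + s) ≤ e^{C} e^{b(z+Y₁) - b j}` (`z + Y₁ ≤ 0`). So the total is `≤ K μ G1 e^{b(z+Y₁)}`, `K = 31 C e^{C} ∑ (j+1) e^{-bj}`.
If moreover `z ≤ -M-2` (and `z ≥ -X/2 - C ≥ -X + c0`): the part `y ∈ [z+1,z+2]` (contained in `(-∞,-M] ⊂ (-∞,-Y₁]`) contributes at most `-c w(x-y) (N y - N z) ≤ -c e^{-(C+2)} be` (`x - y ∈ [s-2,s-1]`, `PatMP.lower`, `|x-y| ≤ C+2`, `N_diff_left`).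
-/

open MeasureTheory Set Filter Topology

namespace INDB

variable {a b c C : ℝ} {k : ℝ → ℝ}

private lemma cna_J (hk : Kern a b C k) (ha : 0 < a) (hb : 0 < b) (ha1 : a ≤ 1) (hb1 : b ≤ 1)
    (hC : 1 ≤ C) : ∃ K : ℝ, 0 ≤ K ∧ ∀ v : ℝ, v ≤ C →
      Integrable (fun u => |k u| * max (v - u) 0) ∧
      ∫ u, |k u| * max (v - u) 0 ≤ K * w a b v := by
  have hC0 : 0 ≤ C := by linarith
  have hI := hk.integrable_exp (κ := -(b / 2)) (by linarith) (by linarith)
  set I := ∫ u, |k u * Real.exp (-(b / 2) * u)| with hIdef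
  have hI0 : 0 ≤ I := integral_nonneg fun _ => abs_nonneg _
  have hmax : ∀ t : ℝ, max t 0 ≤ 2 / b * Real.exp (b / 2 * t) := by
    intro t
    have h1 : b / 2 * t ≤ Real.exp (b / 2 * t) := by linarith [Real.add_one_le_exp (b / 2 * t)]
    refine max_le ?_ (by positivity)
    rw [div_mul_eq_mul_div, le_div_iff₀ hb]
    linarith
  have hpt : ∀ u v : ℝ, |k u| * max (v - u) 0 ≤
      2 / b * Real.exp (b / 2 * v) * |k u * Real.exp (-(b / 2) * u)| := by
    intro u v
    have h1 := mul_le_mul_of_nonneg_left (hmax (v - u)) (abs_nonneg (k u))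
    refine h1.trans (le_of_eq ?_)
    rw [abs_mul, abs_of_pos (Real.exp_pos _)]
    have e : Real.exp (b / 2 * (v - u)) = Real.exp (b / 2 * v) * Real.exp (-(b / 2) * u) := by
      rw [← Real.exp_add]
      congr 1
      ring
    rw [e]
    ring
  have hint : ∀ v : ℝ, Integrable (fun u => |k u| * max (v - u) 0) := by
    intro v
    refine (hI.abs.const_mul (2 / b * Real.exp (b / 2 * v))).mono' ?_
      (Eventually.of_forall fun u => ?_)
    · exact (hk.meas.abs.mul
        ((measurable_const.sub measurable_id).max measurable_const)).aestronglyMeasurable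
    · rw [Real.norm_eq_abs, abs_of_nonneg (mul_nonneg (abs_nonneg _) (le_max_right _ _))]
      exact hpt u v
  refine ⟨C * (2 / b) * (1 + 2 / b) + 2 / b * Real.exp (2 * C) * I, by positivity,
    fun v hv => ⟨hint v, ?_⟩⟩
  have hw := w_pos a b v
  rcases le_total v (-1) with h1 | h1
  · have hle : ∫ u, |k u| * max (v - u) 0 ≤
        ∫ u, C * (2 / b) * w a b v * w 1 (b / 2) (u - v) := by
      refine integral_mono (hint v)
        (((integrable_w one_pos (by positivity)).comp_sub_right v).const_mul _) fun u => ?_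
      show |k u| * max (v - u) 0 ≤ C * (2 / b) * w a b v * w 1 (b / 2) (u - v)
      have hw2 := w_pos 1 (b / 2) (u - v)
      rcases le_total v u with h2 | h2
      · rw [max_eq_right (by linarith : v - u ≤ 0), mul_zero]
        positivity
      · have h3 : |k u| ≤ C * w a b u := hk.abs u (by rw [abs_of_nonpos (by linarith)]; linarith)
        have h4 : w a b u = w a b v * Real.exp (-(b * (v - u))) := by
          rw [w_nonpos_eq (by linarith : u ≤ 0), w_nonpos_eq (by linarith : v ≤ 0), ← Real.exp_add]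
          congr 1
          ring
        have h5 : w 1 (b / 2) (u - v) = Real.exp (b / 2 * (u - v)) :=
          w_nonpos_eq (by linarith)
        calc |k u| * max (v - u) 0 ≤ (C * w a b u) * (2 / b * Real.exp (b / 2 * (v - u))) :=
              mul_le_mul h3 (hmax _) (le_max_right _ _) (mul_nonneg hC0 (w_pos a b u).le)
          _ = C * (2 / b) * w a b v *
              (Real.exp (-(b * (v - u))) * Real.exp (b / 2 * (v - u))) := by
              rw [h4]
              ring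
          _ = C * (2 / b) * w a b v * w 1 (b / 2) (u - v) := by
              rw [h5, ← Real.exp_add]
              congr 2
              ring
    have h6 : ∫ u, w 1 (b / 2) (u - v) = 1 + 2 / b := by
      rw [integral_sub_right_eq_self (fun u => w 1 (b / 2) u) v, int_w one_pos (by positivity)]
      field_simp
    rw [integral_const_mul, h6] at hle
    have h7 : 0 ≤ 2 / b * Real.exp (2 * C) * I * w a b v := by positivity
    calc _ ≤ C * (2 / b) * w a b v * (1 + 2 / b) := hle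
      _ ≤ _ := by linarith
  · have hle : ∫ u, |k u| * max (v - u) 0 ≤
        ∫ u, 2 / b * Real.exp (b / 2 * v) * |k u * Real.exp (-(b / 2) * u)| :=
      integral_mono (hint v) (hI.abs.const_mul _) fun u => hpt u v
    rw [integral_const_mul] at hle
    have h2 : Real.exp (b / 2 * v) ≤ Real.exp C := by
      refine Real.exp_le_exp.2 ?_
      nlinarith
    have h3 : Real.exp (-C) ≤ w a b v := by
      rcases le_total 0 v with h4 | h4
      · rw [w_nonneg_eq h4]
        refine Real.exp_le_exp.2 ?_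
        nlinarith
      · rw [w_nonpos_eq h4]
        refine Real.exp_le_exp.2 ?_
        nlinarith
    have h4 : Real.exp C ≤ Real.exp (2 * C) * w a b v := by
      have h5 : Real.exp C = Real.exp (2 * C) * Real.exp (-C) := by
        rw [← Real.exp_add]
        congr 1
        ring
      rw [h5]
      exact mul_le_mul_of_nonneg_left h3 (Real.exp_pos _).le
    have h5 : 2 / b * Real.exp (b / 2 * v) * I ≤ 2 / b * (Real.exp (2 * C) * w a b v) * I :=
      mul_le_mul_of_nonneg_right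
        (mul_le_mul_of_nonneg_left (h2.trans h4) (by positivity)) hI0
    have h6 : 0 ≤ C * (2 / b) * (1 + 2 / b) * w a b v := by positivity
    calc _ ≤ 2 / b * Real.exp (b / 2 * v) * I := hle
      _ ≤ 2 / b * (Real.exp (2 * C) * w a b v) * I := h5
      _ ≤ _ := by linarith

/-- the pointwise estimate -/
private lemma cna_pt (hab : 0 ≤ a ∧ 0 ≤ b ∧ a ≤ 1 ∧ b ≤ 1) {s κ : ℝ} (hs : |s| ≤ C) (hc : 0 < c)
    (hp : PatMP a b c s k) {p : Par} {μ Y₁ x : ℝ} (h : p.OK κ C) (h0 : 0 ≤ μ) (h1 : μ ≤ 1)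
    (hY0 : 0 ≤ Y₁) (hY : Y₁ ≤ p.M) (hx : -(p.X / 2) ≤ x) (hz : x - s ≤ -Y₁) (u : ℝ) :
    k u * (p.N μ Y₁ (x - u) - p.N μ Y₁ (x - s)) ≤
      p.G1 * μ * (|k u| * max (x + Y₁ - u) 0) -
      (if x - s ≤ -p.M - 2 then
        (Icc (s - 2) (s - 1)).indicator (fun _ => c * Real.exp (-(C + 2)) * p.be) u else 0) := by
  obtain ⟨b1, b2, b3, b4, b5, b6, b7, b8, b9⟩ := h.basic
  have hs1 := abs_le.1 hs
  have hmax := le_max_right (x + Y₁ - u) 0
  have hpos : 0 ≤ p.G1 * μ * (|k u| * max (x + Y₁ - u) 0) := by positivity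
  rcases le_total s u with hu | hu
  · -- to the right of `s`
    have h2 : p.N μ Y₁ (x - u) ≤ p.N μ Y₁ (x - s) :=
      h.N_mono_left hY0 hY (show x - u ≤ -Y₁ by linarith) (show x - s ≤ -Y₁ from hz)
        (by linarith)
    have h3 := mul_nonpos_of_nonneg_of_nonpos (hp.right u hu) (sub_nonpos.2 h2)
    have h4 : (if x - s ≤ -p.M - 2 then
        (Icc (s - 2) (s - 1)).indicator (fun _ => c * Real.exp (-(C + 2)) * p.be) u else 0) = 0 := by
      split_ifs
      · refine indicator_of_notMem (fun hm => ?_) _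
        linarith [hm.2]
      · rfl
    rw [h4]
    linarith
  · have hk0 : k u ≤ 0 := hp.left u hu
    rcases le_total (x - u) (-Y₁) with hy | hy
    · have h2 : p.N μ Y₁ (x - s) ≤ p.N μ Y₁ (x - u) :=
        h.N_mono_left hY0 hY (show x - s ≤ -Y₁ from hz) (show x - u ≤ -Y₁ from hy) (by linarith)
      have h3 := mul_nonpos_of_nonpos_of_nonneg hk0 (sub_nonneg.2 h2)
      split_ifs with h4
      · by_cases hm : u ∈ Icc (s - 2) (s - 1)
        · rw [indicator_of_mem hm]
          have h5 : p.be ≤ p.N μ Y₁ (x - u) - p.N μ Y₁ (x - s) :=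
            h.N_diff_left (by linarith [h.X8, h.c01, h.C1, h.M'pos]) h4
              (by linarith [hm.2]) (by linarith [hm.1])
          have h6 : k u ≤ -(c * w a b u) := hp.lower u hm.2
          have h7 : Real.exp (-(C + 2)) ≤ w a b u := by
            have h8 := w_shift_ge hab.1 hab.2.1 hab.2.2.1 hab.2.2.2 0 u
            rw [zero_add, w_nonneg_eq le_rfl, mul_zero, neg_zero, Real.exp_zero, mul_one] at h8
            refine le_trans (Real.exp_le_exp.2 ?_) h8
            have h9 : |u| ≤ C + 2 := abs_le.2 ⟨by linarith [hm.1], by linarith [hm.2, h.C1]⟩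
            linarith
          have h8 : k u ≤ -(c * Real.exp (-(C + 2))) := by
            have := mul_le_mul_of_nonneg_left h7 hc.le
            linarith
          have hbe := h.be1
          have h9 : 0 ≤ c * Real.exp (-(C + 2)) := by positivity
          have h10 : k u * (p.N μ Y₁ (x - u) - p.N μ Y₁ (x - s)) ≤
              -(c * Real.exp (-(C + 2))) * (p.N μ Y₁ (x - u) - p.N μ Y₁ (x - s)) :=
            mul_le_mul_of_nonneg_right h8 (by linarith)
          have h11 : -(c * Real.exp (-(C + 2))) * (p.N μ Y₁ (x - u) - p.N μ Y₁ (x - s)) ≤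
              -(c * Real.exp (-(C + 2))) * p.be :=
            mul_le_mul_of_nonpos_left h5 (by linarith)
          linarith
        · rw [indicator_of_notMem hm]
          linarith
      · linarith
    · have h4 : (if x - s ≤ -p.M - 2 then
          (Icc (s - 2) (s - 1)).indicator (fun _ => c * Real.exp (-(C + 2)) * p.be) u else 0) ≤
          0 ∨ u ∈ Icc (s - 2) (s - 1) ∧ x - s ≤ -p.M - 2 := by
        by_cases h5 : x - s ≤ -p.M - 2
        · rw [if_pos h5]
          by_cases hm : u ∈ Icc (s - 2) (s - 1)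
          · exact Or.inr ⟨hm, h5⟩
          · rw [indicator_of_notMem hm]
            exact Or.inl le_rfl
        · rw [if_neg h5]
          exact Or.inl le_rfl
      have hG : p.N μ Y₁ (x - s) ≤ p.G1 := by
        have h5 := h.N_mono_left (μ := μ) hY0 hY (show x - s ≤ -Y₁ from hz)
          (show -Y₁ ≤ -Y₁ from le_rfl) hz
        rwa [h.N_mid hY0 hY (by linarith) le_rfl] at h5
      have h5 := h.N_ge h0 h1 hY0 hY hy
      have h6 : p.N μ Y₁ (x - s) - p.N μ Y₁ (x - u) ≤ p.G1 * μ * (x - u + Y₁) := by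
        have h7 := Real.add_one_le_exp (-(μ * (x - u + Y₁)))
        have h8 := mul_le_mul_of_nonneg_left h7 b5.le
        linarith
      have h9 := mul_le_mul_of_nonneg_left h6 (by linarith : 0 ≤ -k u)
      have h10 : k u * (p.N μ Y₁ (x - u) - p.N μ Y₁ (x - s)) ≤
          p.G1 * μ * (|k u| * max (x + Y₁ - u) 0) := by
        rw [abs_of_nonpos hk0, max_eq_left (by linarith)]
        linarith
      rcases h4 with h4 | ⟨hm, h4⟩
      · linarith
      · -- then `x - u = -Y₁` and everything vanishes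
        have h11 : x - u ≤ -Y₁ := by linarith [hm.1]
        have h12 : p.N μ Y₁ (x - s) ≤ p.N μ Y₁ (x - u) :=
          h.N_mono_left hY0 hY (show x - s ≤ -Y₁ from hz) (show x - u ≤ -Y₁ from h11)
            (by linarith)
        rw [if_pos h4, indicator_of_mem hm]
        have h5' : p.be ≤ p.N μ Y₁ (x - u) - p.N μ Y₁ (x - s) :=
          h.N_diff_left (by linarith [h.X8, h.c01, h.C1, h.M'pos]) h4
            (by linarith [hm.2]) (by linarith [hm.1])
        have h6' : k u ≤ -(c * w a b u) := hp.lower u hm.2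
        have h7 : Real.exp (-(C + 2)) ≤ w a b u := by
          have h8 := w_shift_ge hab.1 hab.2.1 hab.2.2.1 hab.2.2.2 0 u
          rw [zero_add, w_nonneg_eq le_rfl, mul_zero, neg_zero, Real.exp_zero, mul_one] at h8
          refine le_trans (Real.exp_le_exp.2 ?_) h8
          have h9 : |u| ≤ C + 2 := abs_le.2 ⟨by linarith [hm.1], by linarith [hm.2, h.C1]⟩
          linarith
        have h8 : k u ≤ -(c * Real.exp (-(C + 2))) := by
          have := mul_le_mul_of_nonneg_left h7 hc.le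
          linarith
        have hbe := h.be1
        have h9' : 0 ≤ c * Real.exp (-(C + 2)) := by positivity
        have h10' : k u * (p.N μ Y₁ (x - u) - p.N μ Y₁ (x - s)) ≤
            -(c * Real.exp (-(C + 2))) * (p.N μ Y₁ (x - u) - p.N μ Y₁ (x - s)) :=
          mul_le_mul_of_nonneg_right h8 (by linarith)
        have h11' : -(c * Real.exp (-(C + 2))) * (p.N μ Y₁ (x - u) - p.N μ Y₁ (x - s)) ≤
            -(c * Real.exp (-(C + 2))) * p.be :=
          mul_le_mul_of_nonpos_left h5' (by linarith)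
        linarith

private lemma cna_one (hk : Kern a b C k) (ha : 0 < a) (hb : 0 < b) (ha1 : a ≤ 1) (hb1 : b ≤ 1)
    (hC : 1 ≤ C) {s κ : ℝ} (hs : |s| ≤ C) (hc : 0 < c) (hp : PatMP a b c s k)
    (hi : ∫ u, k u = 0) (hκ : 0 < κ) (hκb : κ < b) :
    ∃ K : ℝ, 0 ≤ K ∧ ∀ (p : Par) (μ Y₁ : ℝ), p.OK κ C → 0 ≤ μ → μ ≤ a / 2 → 0 ≤ Y₁ →
      Y₁ ≤ p.M → ∀ x, -(p.X / 2) ≤ x → x - s ≤ -Y₁ →
        U k (p.N μ Y₁) x ≤ K * μ * (p.G1 * Real.exp (b * (x - s + Y₁))) -
          (if x - s ≤ -p.M - 2 then c * Real.exp (-(C + 2)) * p.be else 0) := by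
  obtain ⟨K₁, hK₁, hJ⟩ := cna_J hk ha hb ha1 hb1 hC
  refine ⟨K₁ * Real.exp C, by positivity, fun p μ Y₁ h h0 hμ hY0 hY x hx hz => ?_⟩
  have hs1 := abs_le.1 hs
  have h1 : μ ≤ 1 := by linarith
  obtain ⟨b1, b2, b3, b4, b5, b6, b7, b8, b9⟩ := h.basic
  obtain ⟨j1, j2⟩ := hJ (x + Y₁) (by linarith)
  have i0 := hk.integrable ha hb
  have i2 : Integrable (fun u => k u * p.N μ Y₁ (x - u)) := by
    have h3 : Integrable (fun y => k (x - y) * p.N μ Y₁ y) :=
      hk.integrable_mul_of_le hκ.le hκb h0 (by linarith) (h.cont_N h0 h1 hY0 hY).measurable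
        (B := p.N μ Y₁ x)
        (fun y => lin_of_dec_gro (fun y => (h.pos_N y).le) (h.dec_N h0 h1 hY0 hY)
          (h.gro_N h0 h1 hY0 hY) h0 hκ.le x y)
    have h4 := h3.comp_sub_left x
    simpa using h4
  have e1 : U k (p.N μ Y₁) x = ∫ u, k u * (p.N μ Y₁ (x - u) - p.N μ Y₁ (x - s)) := by
    have e2 : (fun u => k u * (p.N μ Y₁ (x - u) - p.N μ Y₁ (x - s))) =
        fun u => k u * p.N μ Y₁ (x - u) - k u * p.N μ Y₁ (x - s) := by
      funext u
      ring
    rw [e2, integral_sub i2 (i0.mul_const _), integral_mul_const, hi, zero_mul, sub_zero, U_eq]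
  have i3 : Integrable (fun u => k u * (p.N μ Y₁ (x - u) - p.N μ Y₁ (x - s))) := by
    have e2 : (fun u => k u * (p.N μ Y₁ (x - u) - p.N μ Y₁ (x - s))) =
        fun u => k u * p.N μ Y₁ (x - u) - k u * p.N μ Y₁ (x - s) := by
      funext u
      ring
    rw [e2]
    exact i2.sub (i0.mul_const _)
  obtain ⟨D, hD⟩ : ∃ D : ℝ → ℝ, D = fun u => if x - s ≤ -p.M - 2 then
    (Icc (s - 2) (s - 1)).indicator (fun _ => c * Real.exp (-(C + 2)) * p.be) u else 0 := ⟨_, rfl⟩
  have i4 : Integrable D ∧ ∫ u, D u =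
      (if x - s ≤ -p.M - 2 then c * Real.exp (-(C + 2)) * p.be else 0) := by
    rw [hD]
    by_cases h5 : x - s ≤ -p.M - 2
    · simp only [if_pos h5]
      refine ⟨?_, ?_⟩
      · rw [integrable_indicator_iff measurableSet_Icc]
        exact integrable_const _
      · rw [integral_indicator measurableSet_Icc, setIntegral_const, measureReal_def,
          Real.volume_Icc]
        have e3 : s - 1 - (s - 2) = 1 := by ring
        rw [e3, ENNReal.ofReal_one, ENNReal.toReal_one, one_smul]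
    · simp only [if_neg h5]
      exact ⟨integrable_zero _ _ _, integral_zero _ _⟩
  have h2 : ∫ u, k u * (p.N μ Y₁ (x - u) - p.N μ Y₁ (x - s)) ≤
      p.G1 * μ * (∫ u, |k u| * max (x + Y₁ - u) 0) - ∫ u, D u := by
    rw [← integral_const_mul, ← integral_sub (j1.const_mul _) i4.1]
    refine integral_mono i3 ((j1.const_mul _).sub i4.1) fun u => ?_
    show k u * (p.N μ Y₁ (x - u) - p.N μ Y₁ (x - s)) ≤
      p.G1 * μ * (|k u| * max (x + Y₁ - u) 0) - D u
    rw [hD]
    exact cna_pt ⟨ha.le, hb.le, ha1, hb1⟩ hs hc hp h h0 h1 hY0 hY hx hz u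
  rw [i4.2] at h2
  have h3 : w a b (x + Y₁) ≤ Real.exp C * Real.exp (b * (x - s + Y₁)) := by
    have h4 := w_shift ha.le hb.le ha1 hb1 (x - s + Y₁) s
    rw [w_nonpos_eq (by linarith : x - s + Y₁ ≤ 0)] at h4
    have e3 : x - s + Y₁ + s = x + Y₁ := by ring
    rw [e3] at h4
    refine h4.trans (mul_le_mul_of_nonneg_right (Real.exp_le_exp.2 hs) (Real.exp_pos _).le)
  have h4 := mul_le_mul_of_nonneg_left (j2.trans (mul_le_mul_of_nonneg_left h3 hK₁))
    (mul_nonneg b5.le h0)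
  rw [e1]
  linarith

theorem cn_left {ι : Type} [Fintype ι] (S : Sys ι) {κ : ℝ} (hκ : S.Sub κ) :
    ∃ K : ℝ, 0 < K ∧ ∀ (p : Par) (μ Y₁ : ℝ), p.OK κ S.C → 0 ≤ μ → μ ≤ S.a / 2 → 0 ≤ Y₁ →
      Y₁ ≤ p.M → ∀ i, S.kind i = Kind.L → ∀ x, -(p.X / 2) ≤ x → x - S.s i ≤ -Y₁ →
        U (S.k i) (p.N μ Y₁) x ≤ K * μ * (p.G1 * Real.exp (S.b * (x - S.s i + Y₁))) -
          (if x - S.s i ≤ -p.M - 2 then S.c * Real.exp (-(S.C + 2)) * p.be else 0) := by
  have h4 : ∀ i, ∃ K : ℝ, 0 ≤ K ∧ (S.kind i = Kind.L → ∀ (p : Par) (μ Y₁ : ℝ), p.OK κ S.C →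
      0 ≤ μ → μ ≤ S.a / 2 → 0 ≤ Y₁ → Y₁ ≤ p.M → ∀ x, -(p.X / 2) ≤ x → x - S.s i ≤ -Y₁ →
        U (S.k i) (p.N μ Y₁) x ≤ K * μ * (p.G1 * Real.exp (S.b * (x - S.s i + Y₁))) -
          (if x - S.s i ≤ -p.M - 2 then S.c * Real.exp (-(S.C + 2)) * p.be else 0)) := by
    intro i
    by_cases hc : S.kind i = Kind.L
    · obtain ⟨K, hK, h6⟩ := cna_one (S.hk i) S.ha S.hb (by linarith [S.hab, S.hb])
        (by linarith [S.hab, S.ha]) S.hC (S.hs i) S.hc (S.patL i hc) (S.intL i hc) hκ.1 hκ.2.1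
      exact ⟨K, hK, fun _ => h6⟩
    · exact ⟨0, le_rfl, fun h => absurd h hc⟩
  choose K hK hKU using h4
  have hsum : 0 ≤ ∑ i, K i := Finset.sum_nonneg fun i _ => hK i
  refine ⟨1 + ∑ i, K i, by linarith, fun p μ Y₁ h h0 hμ hY0 hY i hi x hx hz => ?_⟩
  refine (hKU i hi p μ Y₁ h h0 hμ hY0 hY x hx hz).trans ?_
  have h5 : K i ≤ 1 + ∑ i, K i := by
    have := Finset.single_le_sum (f := K) (fun j _ => hK j) (Finset.mem_univ i)
    linarith
  obtain ⟨b1, b2, b3, b4, b5, -⟩ := h.basic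
  exact sub_le_sub_right (mul_le_mul_of_nonneg_right (mul_le_mul_of_nonneg_right h5 h0)
    (mul_nonneg b5.le (Real.exp_pos _).le)) _

end INDB
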