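import Pool.Agent.INDB.ProfN
import Pool.Agent.INDB.Const

/-!
# INDB, module CNb: test functions on the rays of kind `L`, right zone `x - s ≥ 0`

PROOF. `k = k_i`, `s = s_i`, `N = p.N μ Y₁`, `z = x - s ≥ 0`, `c₁ = c e^{-(C+2)}`. `U k N x = ∫ k(x-y)(N y - N z) dy`. `y ≥ z`: `k ≤ 0`, `N y ≥ N z` (`N_mono_right`); the part `y ∈ [z+1,z+2]` gives at most `-c₁ (N(z+1) - N z)` (`x - y ∈ [s-2,s-1]`).
`0 ≤ y ≤ z`: `k ≥ 0`, `N y ≤ N z`: `≤ 0`. `y < 0`: `N y ≤ N 0 e^{μ|y|}` (`Dec μ`), `N z ≥ N 0`, so `N y - N z ≤ N 0 μ |y| e^{μ|y|}`; `∫_{y<0} |k(x-y)| |y| e^{μ|y|} dy ≤ ∑_j (j+1) e^{μ(j+1)} 31 C w(x+j+1) ≤ K e^{-a z}`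
(`w(x + j + 1) ≤ e^{C} w(z+j+1) = e^{C} e^{-a z - a (j+1)}`, `μ ≤ a/2`). So `U k N x ≤ K μ N 0 e^{-a z} - c₁ (N(z+1) - N z)`.
`z ≤ M'-1`: `N(z+1) - N z ≥ sg N z ≥ sg N 0` (`N_diff_mid`): `≤ 0` if `K μ ≤ c₁ sg`. `z > M'-1`: `N(z+1) - N z ≥ slope ≥ 2 X E 0 ≥ N 0` (`N_diff_right`, `slope_ge`, `N_le_E`): `≤ 0` if `K μ ≤ c₁`. So `μ₁ = min (a/2) (c₁ sg/K)`.
-/

open MeasureTheory Set Filter Topology

namespace INDB

private lemma cnb_exp {t : ℝ} : Real.exp t - 1 ≤ t * Real.exp t := by
  have h1 := Real.add_one_le_exp (-t)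
  have h2 := mul_le_mul_of_nonneg_right h1 (Real.exp_pos t).le
  rw [← Real.exp_add, neg_add_cancel, Real.exp_zero] at h2
  linarith

private lemma cnb_lin {m t : ℝ} (hm : 0 < m) : t ≤ 1 / m * Real.exp (m * t) := by
  have h1 := Real.add_one_le_exp (m * t)
  rw [div_mul_eq_mul_div, one_mul, le_div_iff₀ hm]
  linarith

private lemma cnb_w {a b u D : ℝ} (ha : 0 ≤ a) (hb : 0 ≤ b) (ha1 : a ≤ 1) (hb1 : b ≤ 1)
    (h : |u| ≤ D) : Real.exp (-D) ≤ w a b u := by
  have h5 := w_shift_ge ha hb ha1 hb1 0 u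
  rw [zero_add, w_nonneg_eq le_rfl, mul_zero, neg_zero, Real.exp_zero, mul_one] at h5
  exact (Real.exp_le_exp.2 (neg_le_neg h)).trans h5

theorem cn_right {ι : Type} [Fintype ι] (S : Sys ι) {κ sg : ℝ} (hκ : S.Sub κ) (hsg : 0 < sg)
    (hsκ : sg < κ) :
    ∃ μ₁ : ℝ, 0 < μ₁ ∧ μ₁ ≤ S.a / 2 ∧ ∀ (p : Par) (μ Y₁ : ℝ), p.OK κ S.C → p.sg = sg → 0 ≤ μ →
      μ ≤ μ₁ → 0 ≤ Y₁ → Y₁ ≤ p.M → ∀ i, S.kind i = Kind.L → ∀ x, 0 ≤ x - S.s i →
        U (S.k i) (p.N μ Y₁) x ≤ 0 := by
  classical
  have ha := S.ha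
  have hb := S.hb
  have hab := S.hab
  have hc := S.hc
  have hC := S.hC
  have ha1 : S.a ≤ 1 := by linarith
  have hb1 : S.b ≤ 1 := by linarith
  obtain ⟨hκ0, hκb, -⟩ := hκ
  set c₁ : ℝ := S.c * Real.exp (-(S.C + 2)) with hc₁
  have hc₁0 : 0 < c₁ := mul_pos hc (Real.exp_pos _)
  set m : ℝ := 3 * S.a / 4 with hm
  have hm0 : 0 < m := by rw [hm]; linarith
  have hma : m < S.a := by rw [hm]; linarith
  set Kf : ι → ℝ := fun i => 4 / S.a * Real.exp (m * S.C) * ∫ u, |S.k i u * Real.exp (m * u)|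
    with hKf
  have hKf0 : ∀ i, 0 ≤ Kf i := by
    intro i
    have h1 : 0 ≤ ∫ u, |S.k i u * Real.exp (m * u)| := integral_nonneg (fun _ => abs_nonneg _)
    rw [hKf]
    positivity
  set K : ℝ := 1 + ∑ i, Kf i with hK
  have hK0 : 0 < K := by
    have := Finset.sum_nonneg (fun i (_ : i ∈ Finset.univ) => hKf0 i)
    linarith
  have hKi : ∀ i, Kf i ≤ K := by
    intro i
    have := Finset.single_le_sum (fun i (_ : i ∈ Finset.univ) => hKf0 i) (Finset.mem_univ i)
    linarith
  refine ⟨min (S.a / 2) (c₁ * sg / K), ?_, min_le_left _ _, ?_⟩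
  · exact lt_min (by linarith) (by positivity)
  intro p μ Y₁ h hpsg hμ0 hμ1 hY0 hY i hi x hx
  have hμa : μ ≤ S.a / 2 := hμ1.trans (min_le_left _ _)
  have hμK : μ * K ≤ c₁ * sg := by
    have h1 : μ ≤ c₁ * sg / K := hμ1.trans (min_le_right _ _)
    rwa [le_div_iff₀ hK0] at h1
  have hμ1' : μ ≤ 1 := by linarith
  have hk := S.hk i
  have hp := S.patL i hi
  have hs := abs_le.1 (S.hs i)
  obtain ⟨s, hs'⟩ : ∃ s, s = S.s i := ⟨_, rfl⟩
  rw [← hs'] at hp hs hx
  obtain ⟨k, hk'⟩ : ∃ k, k = S.k i := ⟨_, rfl⟩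
  have hi0 := S.intL i hi
  rw [← hk'] at hk hp hi0 ⊢
  obtain ⟨z, hz⟩ : ∃ z, z = x - s := ⟨_, rfl⟩
  rw [← hz] at hx
  obtain ⟨N, hN⟩ : ∃ N, N = p.N μ Y₁ := ⟨_, rfl⟩
  rw [← hN]
  have hcont : Continuous N := by rw [hN]; exact h.cont_N hμ0 hμ1' hY0 hY
  have hpos : ∀ y, 0 < N y := by rw [hN]; exact h.pos_N
  have hdec : Dec μ N := by rw [hN]; exact h.dec_N hμ0 hμ1' hY0 hY
  have hgro : Gro κ N := by rw [hN]; exact h.gro_N hμ0 hμ1' hY0 hY
  have hmono : MonotoneOn N (Ici 0) := by rw [hN]; exact h.N_mono_right hμ0 hμ1' hY0 hY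
  have hNz : N 0 ≤ N z := hmono (mem_Ici.2 le_rfl) (mem_Ici.2 hx) hx
  have hint : Integrable (fun y => k (x - y) * N y) :=
    hk.integrable_mul_of_le hκ0.le hκb hμ0 (by linarith) hcont.measurable
      (fun y => lin_of_dec_gro (fun y => (hpos y).le) hdec hgro hμ0 hκ0.le x y)
  have hkx : Integrable (fun y => k (x - y)) := hk.integrable_sub ha hb x
  -- the reference
  have hU : U k N x = ∫ y, k (x - y) * (N y - N z) := by
    have h1 : ∫ y, k (x - y) = 0 := by
      rw [integral_sub_left_eq_self k volume x, hi0]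
    have h2 : ∫ y, k (x - y) * (N y - N z) = ∫ y, (k (x - y) * N y - k (x - y) * N z) := by
      congr 1
      ext y
      ring
    rw [h2, integral_sub hint (hkx.mul_const _), integral_mul_const, h1, zero_mul, sub_zero, U]
  obtain ⟨D, hD⟩ : ∃ D, D = N (z + 1) - N z := ⟨_, rfl⟩
  have hD0 : 0 ≤ D := by
    have := hmono (mem_Ici.2 hx) (mem_Ici.2 (by linarith)) (by linarith : z ≤ z + 1)
    rw [hD]
    linarith
  obtain ⟨A, hA⟩ : ∃ A, A = N 0 * μ * (4 / S.a * Real.exp (m * S.C)) := ⟨_, rfl⟩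
  have hA0 : 0 ≤ A := by
    rw [hA]
    have := hpos 0
    positivity
  have hE := hk.integrable_exp (κ := m) (by linarith) hma
  have hEx : Integrable (fun y => |k (x - y) * Real.exp (m * (x - y))|) :=
    (hE.comp_sub_left x).abs
  have hind : Integrable ((Icc (z + 1) (z + 2)).indicator (fun _ => c₁ * D)) := by
    rw [integrable_indicator_iff measurableSet_Icc]
    exact integrable_const _
  have hpt : ∀ y, k (x - y) * (N y - N z) ≤ A * |k (x - y) * Real.exp (m * (x - y))| -
      (Icc (z + 1) (z + 2)).indicator (fun _ => c₁ * D) y := by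
    intro y
    have hterm : 0 ≤ A * |k (x - y) * Real.exp (m * (x - y))| :=
      mul_nonneg hA0 (abs_nonneg _)
    by_cases hy : y ∈ Icc (z + 1) (z + 2)
    · rw [indicator_of_mem hy]
      have h1 := hp.lower (x - y) (by linarith [hy.1])
      have h2 : Real.exp (-(S.C + 2)) ≤ w S.a S.b (x - y) := by
        refine cnb_w ha.le hb.le ha1 hb1 (abs_le.2 ⟨?_, ?_⟩) <;>
          linarith [hy.1, hy.2, hs.1, hs.2]
      have h3 : c₁ ≤ -k (x - y) := by
        have : S.c * Real.exp (-(S.C + 2)) ≤ S.c * w S.a S.b (x - y) :=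
          mul_le_mul_of_nonneg_left h2 hc.le
        rw [hc₁]
        linarith
      have h4 : D ≤ N y - N z := by
        have := hmono (mem_Ici.2 (by linarith : 0 ≤ z + 1)) (mem_Ici.2 (by linarith [hy.1])) hy.1
        rw [hD]
        linarith
      have h5 : c₁ * D ≤ -k (x - y) * (N y - N z) :=
        mul_le_mul h3 h4 hD0 (by linarith)
      linarith
    · rw [indicator_of_notMem hy, sub_zero]
      rcases le_total z y with hzy | hzy
      · have h1 := hp.left (x - y) (by linarith)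
        have h2 := hmono (mem_Ici.2 hx) (mem_Ici.2 (hx.trans hzy)) hzy
        have h3 : k (x - y) * (N y - N z) ≤ 0 :=
          mul_nonpos_of_nonpos_of_nonneg h1 (by linarith)
        linarith
      · have h1 := hp.right (x - y) (by linarith)
        rcases le_total 0 y with hy0 | hy0
        · have h2 := hmono (mem_Ici.2 hy0) (mem_Ici.2 hx) hzy
          have h3 : k (x - y) * (N y - N z) ≤ 0 :=
            mul_nonpos_of_nonneg_of_nonpos h1 (by linarith)
          linarith
        · obtain ⟨t, ht⟩ : ∃ t, t = -y := ⟨_, rfl⟩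
          have ht0 : 0 ≤ t := by linarith
          have h2 : N y ≤ N 0 * Real.exp (μ * t) := by
            have h3 := hdec y 0 hy0
            rw [zero_sub, ← ht] at h3
            calc N y = N y * Real.exp (-(μ * t)) * Real.exp (μ * t) := by
                  rw [mul_assoc, ← Real.exp_add]; simp
              _ ≤ _ := mul_le_mul_of_nonneg_right h3 (Real.exp_pos _).le
          have h3 : N y - N z ≤ N 0 * (μ * t * Real.exp (μ * t)) := by
            have h4 := mul_le_mul_of_nonneg_left (cnb_exp (t := μ * t)) (hpos 0).le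
            linarith
          have h4 : t * Real.exp (μ * t) ≤ 4 / S.a * Real.exp (m * S.C) *
              Real.exp (m * (x - y)) := by
            have h5 := cnb_lin (m := S.a / 4) (t := t) (by linarith)
            calc t * Real.exp (μ * t) ≤ (1 / (S.a / 4) * Real.exp (S.a / 4 * t)) *
                  Real.exp (S.a / 2 * t) := by
                  refine mul_le_mul h5 (Real.exp_le_exp.2
                    (mul_le_mul_of_nonneg_right hμa ht0)) (Real.exp_pos _).le ?_
                  positivity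
              _ = 4 / S.a * Real.exp (m * t) := by
                  rw [mul_assoc, ← Real.exp_add]
                  congr 1
                  · field_simp
                  · congr 1
                    rw [hm]
                    ring
              _ ≤ 4 / S.a * (Real.exp (m * S.C) * Real.exp (m * (x - y))) := by
                  refine mul_le_mul_of_nonneg_left ?_ (by positivity)
                  rw [← Real.exp_add, ← mul_add]
                  exact Real.exp_le_exp.2 (mul_le_mul_of_nonneg_left (by linarith [hs.1]) hm0.le)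
              _ = _ := by ring
          calc k (x - y) * (N y - N z) ≤ k (x - y) * (N 0 * (μ * t * Real.exp (μ * t))) :=
                mul_le_mul_of_nonneg_left h3 h1
            _ = k (x - y) * (N 0 * μ) * (t * Real.exp (μ * t)) := by ring
            _ ≤ k (x - y) * (N 0 * μ) * (4 / S.a * Real.exp (m * S.C) *
                Real.exp (m * (x - y))) :=
                mul_le_mul_of_nonneg_left h4 (mul_nonneg h1 (mul_nonneg (hpos 0).le hμ0))
            _ = A * (k (x - y) * Real.exp (m * (x - y))) := by rw [hA]; ring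
            _ ≤ _ := mul_le_mul_of_nonneg_left (le_abs_self _) hA0
  have hle : U k N x ≤ N 0 * (μ * K) - c₁ * D := by
    rw [hU]
    have hint' : Integrable (fun y => k (x - y) * (N y - N z)) := by
      have := hint.sub (hkx.mul_const (N z))
      refine this.congr (Eventually.of_forall (fun y => ?_))
      simp only [Pi.sub_apply]
      ring
    refine (integral_mono hint' ((hEx.const_mul A).sub hind) hpt).trans ?_
    simp only [Pi.sub_apply]
    rw [integral_sub (hEx.const_mul A) hind, integral_const_mul,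
      integral_indicator measurableSet_Icc, setIntegral_const,
      integral_sub_left_eq_self (fun u => |k u * Real.exp (m * u)|) volume x]
    have h1 : volume.real (Icc (z + 1) (z + 2)) = 1 := by
      rw [Real.volume_real_Icc_of_le (by linarith)]
      ring
    rw [h1, one_smul]
    have h2 : A * (∫ u, |k u * Real.exp (m * u)|) = N 0 * (μ * Kf i) := by
      rw [hA, hKf, hk']
      ring
    rw [h2]
    have h3 := mul_le_mul_of_nonneg_left (mul_le_mul_of_nonneg_left (hKi i) hμ0) (hpos 0).le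
    linarith
  refine hle.trans ?_
  have hN0 := hpos 0
  rcases le_or_gt z (p.M' - 1) with hz1 | hz1
  · have h1 := h.N_diff_mid hμ0 hμ1' hY0 hY hx hz1
    rw [← hN, ← hD, hpsg] at h1
    have h2 : c₁ * (sg * N 0) ≤ c₁ * D := by
      refine mul_le_mul_of_nonneg_left (le_trans ?_ h1) hc₁0.le
      exact mul_le_mul_of_nonneg_left hNz hsg.le
    have h3 := mul_le_mul_of_nonneg_left hμK hN0.le
    linarith
  · have h1 := h.N_diff_right hμ0 hμ1' hY0 hY hz1
    rw [← hN, ← hD] at h1
    have h2 := h.slope_ge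
    have h3 : N 0 ≤ p.E 0 := by rw [hN]; exact h.N_le_E hμ0 hμ1' hY0 hY 0
    have h4 := h.basic.2.2.2.2.2.2.1
    have h5 : p.E 0 ≤ 2 * p.X * p.E 0 :=
      le_mul_of_one_le_left (h.pos_E 0).le (by linarith)
    have h6 : c₁ * N 0 ≤ c₁ * D := mul_le_mul_of_nonneg_left (by linarith) hc₁0.le
    have h7 : c₁ * sg ≤ c₁ * 1 := mul_le_mul_of_nonneg_left (by linarith) hc₁0.le
    have h8 := mul_le_mul_of_nonneg_left (hμK.trans h7) hN0.le
    linarith

end INDB
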