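import Pool.Agent.INDB.CNa
import Pool.Agent.INDB.CNb

/-!
# INDB, module CNc: all rays

PROOF. Combine `cn_left` (constant `K_a`), `cn_right` (`μ₁`), `const_all` for `κ` (`μ₀ < a`, `δ`, `K_b`). `μ₂ = min μ₀ μ₁ (a/2)`. `N = p.N μ Y₁` is measurable, positive, `Dec μ`, `Gro κ` (`ProfN`). Kind `≠ L`: `const_all`. Kind `L`, `z = x - s`: zone `z ≤ -Y₁`: `cn_left` is exactly the claim (`Nsh z = G1 e^{b(z+Y₁)}`).
Zone `-Y₁ < z ≤ 0`: `Nsh z = N z`, the subtracted term vanishes (`z > -Y₁ ≥ -M > -M-2`), `const_all`: `U ≤ K_b μ N x ≤ K_b μ e^{2C} N z` (`dec_shift`: `N x ≤ N (x - s) e^{(μ+κ)|s|}`). Zone `z > 0`: `Nsh z = 0`, `cn_right`. `K = max K_a (K_b e^{2C})`.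
-/

open MeasureTheory Set Filter Topology

namespace INDB

theorem cn_all {ι : Type} [Fintype ι] (S : Sys ι) {κ sg : ℝ} (hκ : S.Sub κ) (hsg : 0 < sg)
    (hsκ : sg < κ) :
    ∃ μ₂ δ K : ℝ, 0 < μ₂ ∧ μ₂ ≤ S.a / 2 ∧ 0 < δ ∧ 0 < K ∧ ∀ (p : Par) (μ Y₁ : ℝ), p.OK κ S.C →
      p.sg = sg → 0 ≤ μ → μ ≤ μ₂ → 0 ≤ Y₁ → Y₁ ≤ p.M →
        (∀ i, S.kind i ≠ Kind.L → ∀ x, U (S.k i) (p.N μ Y₁) x ≤ -(δ * p.N μ Y₁ x)) ∧
        ∀ i, S.kind i = Kind.L → ∀ x, -(p.X / 2) ≤ x →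
          U (S.k i) (p.N μ Y₁) x ≤ K * μ * p.Nsh S.b μ Y₁ (x - S.s i) -
            (if x - S.s i ≤ -p.M - 2 then S.c * Real.exp (-(S.C + 2)) * p.be else 0) := by
  obtain ⟨Ka, hKa, hleft⟩ := cn_left S hκ
  obtain ⟨μ₁, hμ₁, hμ₁a, hright⟩ := cn_right S hκ hsg hsκ
  obtain ⟨μ₀, δ, Kb, hμ₀, hμ₀a, hδ, hKb, hconst⟩ := const_all S hκ
  have ha := S.ha
  have hb := S.hb
  have hab := S.hab
  refine ⟨min μ₀ μ₁, δ, max Ka (Kb * Real.exp (2 * S.C)), lt_min hμ₀ hμ₁,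
    (min_le_right _ _).trans hμ₁a, hδ, lt_max_of_lt_left hKa, ?_⟩
  intro p μ Y₁ hp hpsg hμ hμ2 hY0 hY
  have hμ0' : μ ≤ μ₀ := hμ2.trans (min_le_left _ _)
  have hμ1' : μ ≤ μ₁ := hμ2.trans (min_le_right _ _)
  have hμa : μ ≤ S.a / 2 := hμ1'.trans hμ₁a
  have hμ1 : μ ≤ 1 := by linarith
  have hκ0 : 0 < κ := hκ.1
  have hdec := hp.dec_N hμ hμ1 hY0 hY
  have hgro := hp.gro_N hμ hμ1 hY0 hY
  have hpos : ∀ y, 0 ≤ p.N μ Y₁ y := fun y => (hp.pos_N y).le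
  obtain ⟨hc1, hc2⟩ := hconst μ hμ hμ0' (p.N μ Y₁) (hp.cont_N hμ hμ1 hY0 hY).measurable hpos
    hdec hgro
  refine ⟨hc1, fun i hi x hx => ?_⟩
  by_cases h1 : x - S.s i ≤ -Y₁
  · have h2 := hleft p μ Y₁ hp hμ hμa hY0 hY i hi x hx h1
    have h3 : p.Nsh S.b μ Y₁ (x - S.s i) = p.G1 * Real.exp (S.b * (x - S.s i + Y₁)) := by
      unfold Par.Nsh
      rw [if_pos h1]
    rw [h3]
    have h4 : 0 ≤ μ * (p.G1 * Real.exp (S.b * (x - S.s i + Y₁))) :=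
      mul_nonneg hμ (mul_nonneg hp.basic.2.2.2.2.1.le (Real.exp_pos _).le)
    have h5 := mul_le_mul_of_nonneg_right (le_max_left Ka (Kb * Real.exp (2 * S.C))) h4
    linarith
  · have h2 : ¬ (x - S.s i ≤ -p.M - 2) := by
      have := lt_of_not_ge h1
      intro h3
      linarith
    rw [if_neg h2, sub_zero]
    by_cases h3 : x - S.s i ≤ 0
    · have h4 : p.Nsh S.b μ Y₁ (x - S.s i) = p.N μ Y₁ (x - S.s i) := by
        unfold Par.Nsh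
        rw [if_neg h1, if_pos h3]
      rw [h4]
      have h5 := hc2 i hi x
      have h6 := (dec_shift hpos hμ hκ0.le hdec hgro x (S.s i)).1
      have h7 : (μ + κ) * |S.s i| ≤ 2 * S.C := by
        have := hp.κ1
        exact mul_le_mul (by linarith) (S.hs i) (abs_nonneg _) (by norm_num)
      have h8 : p.N μ Y₁ x * Real.exp (-(2 * S.C)) ≤ p.N μ Y₁ (x - S.s i) :=
        (mul_le_mul_of_nonneg_left (Real.exp_le_exp.2 (neg_le_neg h7)) (hpos x)).trans h6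
      have h9 : p.N μ Y₁ x ≤ Real.exp (2 * S.C) * p.N μ Y₁ (x - S.s i) := by
        have h10 := mul_le_mul_of_nonneg_left h8 (Real.exp_pos (2 * S.C)).le
        have h11 : Real.exp (2 * S.C) * (p.N μ Y₁ x * Real.exp (-(2 * S.C))) = p.N μ Y₁ x := by
          rw [mul_left_comm, ← Real.exp_add, add_neg_cancel, Real.exp_zero, mul_one]
        rwa [h11] at h10
      have h12 := mul_le_mul_of_nonneg_left h9 (mul_nonneg hKb.le hμ)
      have h13 := mul_le_mul_of_nonneg_right (le_max_right Ka (Kb * Real.exp (2 * S.C)))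
        (mul_nonneg hμ (hpos (x - S.s i)))
      linarith
    · have h4 : p.Nsh S.b μ Y₁ (x - S.s i) = 0 := by
        unfold Par.Nsh
        rw [if_neg h1, if_neg h3]
      rw [h4, mul_zero]
      exact hright p μ Y₁ hp hpsg hμ hμ1' hY0 hY i hi x (le_of_lt (lt_of_not_ge h3))

end INDB
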