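import Pool.Agent.INDB.ProfN

/-!
# INDB, module CNd: no dominance: summation against the test function

PROOF. `N = p.N μ Y₁`. Multiply `Lf Y ≤ C₁ Of Y` by `N(-Y) > 0` and add over the natural numbers `Y ∈ [Y₀, M-2]` (finite set; there is at least one: `Y₀ + 3 ≤ M`). All integrands are bounded (or integrable), exchange finite sums and integrals.
Left: for kind `L`, `z = x - s_i`: `∑_Y N(-Y) e^{b(x+Y)} 1{z < -Y}`. Claim: for `z < -(Y₀+1)` it is `≥ e^{-(2C+10)} Nsh z`. Let `Y* = min ⌊M-2⌋₊ (⌈-z⌉ - 1) ≥ Y₀`, a natural number with `z < -Y*`.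
 If `Y* = ⌈-z⌉ - 1`: `z < -Y* ≤ z + 1`, `e^{b(x+Y*)} ≥ e^{-b(C+1)}`, `N(-Y*) ≥ e^{-μ} N z` (`Dec μ`), and `z ≥ -Y* - 1 ≥ -M`: so if `z > -Y₁`, `Nsh z = N z`; if `z ≤ -Y₁`, `N z = G1` (`N_mid`) and `Nsh z ≤ G1`.
 If `Y* = ⌊M-2⌋ < ⌈-z⌉ - 1`: `-M + 2 ≤ -Y* < -M + 3`, `N(-Y*) ≥ G1 e^{-3μ}` (`Dec μ` from `-M`), `e^{b(x+Y*)} ≥ e^{-bC} e^{b (z + M) - 3 b}`; if `z ≤ -Y₁`: `Nsh z = G1 e^{b(z+Y₁)} ≤ G1 e^{b(z+M)}`; if `z > -Y₁` (`≥ -M`): `Nsh z = N z ≤ G1`, and `e^{b(z+M)} ≥ 1`.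
Right: `∑_Y N(-Y) w(x+Y) ≤ K₄ N x` for all `x`: `N(-Y) ≤ N x e^{κ(-Y-x)⁺ + μ(x+Y)⁺}` (`lin_of_dec_gro`) and `w(x+Y) = e^{-a(x+Y)⁺ - b(x+Y)⁻}`: sum of `e^{-g|x+Y|}` over integers, `g = min (a/2) (b-κ)`, `≤ 2/(1-e^{-g}) = K₄`. The same at `x = 0` bounds `∑ N(-Y) w(Y) ≤ K₄ N 0`.
So `e^{-(2C+10)} ∑_L ∫_{z<-(Y₀+1)} Nsh dn_i ≤ C₁ K₄ (∑_{not L} ∫ N dn_i + N 0)`. Integrability of `N` for kind `≠ L`: `0 < N ≤ E` (`N_le_E`) and `AP.intO`. `K = e^{2C+10} K₄`.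
-/

open MeasureTheory Set Filter Topology

namespace INDB

lemma cnd_sep {g : ℝ} (hg : 0 < g) (J : Finset ℕ) (u : ℕ → ℝ) (h0 : ∀ Y ∈ J, 0 ≤ u Y)
    (hs : ∀ Y ∈ J, ∀ Z ∈ J, Y ≠ Z → 1 ≤ |u Y - u Z|) :
    ∑ Y ∈ J, Real.exp (-(g * u Y)) ≤ 1 / (1 - Real.exp (-g)) := by
  have hr0 : 0 ≤ Real.exp (-g) := (Real.exp_pos _).le
  have hr1 : Real.exp (-g) < 1 := by
    rw [← Real.exp_zero]
    exact Real.exp_lt_exp.2 (by linarith)
  have hinj : Set.InjOn (fun Y => ⌊u Y⌋₊) (J : Set ℕ) := by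
    intro Y hY Z hZ h
    by_contra hne
    have h1 := hs Y hY Z hZ hne
    have a1 := Nat.floor_le (h0 Y hY)
    have a2 := Nat.lt_floor_add_one (u Y)
    have a3 := Nat.floor_le (h0 Z hZ)
    have a4 := Nat.lt_floor_add_one (u Z)
    simp only at h
    rw [h] at a1 a2
    have : |u Y - u Z| < 1 := abs_lt.2 ⟨by linarith, by linarith⟩
    linarith
  calc ∑ Y ∈ J, Real.exp (-(g * u Y)) ≤ ∑ Y ∈ J, (Real.exp (-g)) ^ ⌊u Y⌋₊ := by
        refine Finset.sum_le_sum fun Y hY => ?_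
        rw [← Real.exp_nat_mul]
        apply Real.exp_le_exp.2
        have := mul_le_mul_of_nonneg_left (Nat.floor_le (h0 Y hY)) hg.le
        linarith
    _ = ∑ j ∈ J.image (fun Y => ⌊u Y⌋₊), (Real.exp (-g)) ^ j := (Finset.sum_image hinj).symm
    _ ≤ ∑' j, (Real.exp (-g)) ^ j :=
        Summable.sum_le_tsum _ (fun _ _ => by positivity) (summable_geometric_of_lt_one hr0 hr1)
    _ = 1 / (1 - Real.exp (-g)) := by rw [tsum_geometric_of_lt_one hr0 hr1, one_div]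

lemma cnd_sum {g : ℝ} (hg : 0 < g) (J : Finset ℕ) (x : ℝ) :
    ∑ Y ∈ J, Real.exp (-(g * |x + Y|)) ≤ 2 / (1 - Real.exp (-g)) := by
  classical
  rw [← Finset.sum_filter_add_sum_filter_not J (fun Y : ℕ => 0 ≤ x + Y)]
  have h1 : ∑ Y ∈ J.filter (fun Y : ℕ => 0 ≤ x + Y), Real.exp (-(g * |x + Y|)) ≤
      1 / (1 - Real.exp (-g)) := by
    have := cnd_sep hg (J.filter (fun Y : ℕ => 0 ≤ x + Y)) (fun Y => x + Y)
      (fun Y hY => (Finset.mem_filter.1 hY).2) (fun Y _ Z _ hne => by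
        have h2 : (1 : ℝ) ≤ |(Y : ℝ) - Z| := by
          have h3 : (1 : ℤ) ≤ |(Y : ℤ) - Z| := Int.one_le_abs (by omega)
          exact_mod_cast h3
        rw [show x + (Y : ℝ) - (x + Z) = (Y : ℝ) - Z by ring]
        exact h2)
    refine le_trans (Finset.sum_le_sum fun Y hY => ?_) this
    rw [abs_of_nonneg (Finset.mem_filter.1 hY).2]
  have h2 : ∑ Y ∈ J.filter (fun Y : ℕ => ¬ 0 ≤ x + Y), Real.exp (-(g * |x + Y|)) ≤
      1 / (1 - Real.exp (-g)) := by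
    have := cnd_sep hg (J.filter (fun Y : ℕ => ¬ 0 ≤ x + Y)) (fun Y => -(x + Y))
      (fun Y hY => by linarith [not_le.1 (Finset.mem_filter.1 hY).2]) (fun Y _ Z _ hne => by
        have h2 : (1 : ℝ) ≤ |(Z : ℝ) - Y| := by
          have h3 : (1 : ℤ) ≤ |(Z : ℤ) - Y| := Int.one_le_abs (by omega)
          exact_mod_cast h3
        rw [show -(x + (Y : ℝ)) - -(x + Z) = (Z : ℝ) - Y by ring]
        exact h2)
    refine le_trans (Finset.sum_le_sum fun Y hY => ?_) this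
    rw [abs_of_neg (not_le.1 (Finset.mem_filter.1 hY).2)]
  have h3 : 2 / (1 - Real.exp (-g)) = 1 / (1 - Real.exp (-g)) + 1 / (1 - Real.exp (-g)) := by ring
  rw [h3]
  exact add_le_add h1 h2

/-- the weight against the test function -/
lemma cnd_R {p : Par} {κ C a b μ Y₁ : ℝ} (h : p.OK κ C) (h0 : 0 ≤ μ) (h1 : μ ≤ 1) (hμa : μ ≤ a / 2)
    (hκb : κ < b) (ha : 0 < a) (hY0 : 0 ≤ Y₁) (hY : Y₁ ≤ p.M) (J : Finset ℕ) (x : ℝ) :
    ∑ Y ∈ J, p.N μ Y₁ (-Y) * w a b (x + Y) ≤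
      2 / (1 - Real.exp (-(min (a / 2) (b - κ)))) * p.N μ Y₁ x := by
  set g := min (a / 2) (b - κ) with hg
  have hg0 : 0 < g := lt_min (by linarith) (by linarith)
  have hNx := h.pos_N (μ := μ) (Y₁ := Y₁) x
  have hκ0 : 0 ≤ κ := by linarith [h.sg0, h.sgκ]
  have hterm : ∀ Y ∈ J, p.N μ Y₁ (-Y) * w a b (x + Y) ≤ p.N μ Y₁ x * Real.exp (-(g * |x + Y|)) := by
    intro Y _
    have h2 := lin_of_dec_gro (fun y => (h.pos_N (μ := μ) (Y₁ := Y₁) y).le) (h.dec_N h0 h1 hY0 hY)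
      (h.gro_N h0 h1 hY0 hY) h0 hκ0 x (-(Y : ℝ))
    rw [abs_of_pos (h.pos_N _)] at h2
    have hw := w_pos a b (x + Y)
    refine (mul_le_mul_of_nonneg_right h2 hw.le).trans ?_
    rw [mul_assoc]
    refine mul_le_mul_of_nonneg_left ?_ hNx.le
    rw [w, ← Real.exp_add]
    apply Real.exp_le_exp.2
    have hg1 : g ≤ a / 2 := min_le_left _ _
    have hg2 : g ≤ b - κ := min_le_right _ _
    rcases le_total 0 (x + (Y : ℝ)) with h3 | h3
    · rw [max_eq_right (by linarith : -(Y : ℝ) - x ≤ 0), max_eq_left (by linarith : 0 ≤ x - -(Y : ℝ)),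
        max_eq_left h3, max_eq_right (by linarith : -(x + (Y : ℝ)) ≤ 0), abs_of_nonneg h3]
      nlinarith
    · rw [max_eq_left (by linarith : 0 ≤ -(Y : ℝ) - x), max_eq_right (by linarith : x - -(Y : ℝ) ≤ 0),
        max_eq_right h3, max_eq_left (by linarith : 0 ≤ -(x + (Y : ℝ))), abs_of_nonpos h3]
      nlinarith
  refine (Finset.sum_le_sum hterm).trans ?_
  rw [← Finset.mul_sum, mul_comm]
  exact mul_le_mul_of_nonneg_right (cnd_sum hg0 J x) hNx.le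

lemma Par.Nsh_nonneg {p : Par} {κ C b μ Y₁ : ℝ} (h : p.OK κ C) (z : ℝ) : 0 ≤ p.Nsh b μ Y₁ z := by
  have b5 := h.basic.2.2.2.2.1
  rw [Par.Nsh]
  split_ifs
  · positivity
  · exact (h.pos_N z).le
  · exact le_rfl

/-- the pointwise claim on the left -/
lemma cnd_L {p : Par} {κ C b μ Y₁ s x : ℝ} {Y₀ : ℕ} (h : p.OK κ C) (h0 : 0 ≤ μ) (h1 : μ ≤ 1)
    (hb : 0 < b) (hb1 : b ≤ 1) (hY0 : 0 ≤ Y₁) (hY : Y₁ ≤ p.M) (hYM : (Y₀ : ℝ) + 3 ≤ p.M)
    (hs : |s| ≤ C) (hx : x - s < -((Y₀ : ℝ) + 1)) :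
    ∃ Y : ℕ, Y₀ ≤ Y ∧ Y ≤ ⌊p.M - 2⌋₊ ∧ x - s < -(Y : ℝ) ∧
      p.Nsh b μ Y₁ (x - s) ≤ Real.exp (C + 6) * (p.N μ Y₁ (-Y) * Real.exp (b * (x + Y))) := by
  obtain ⟨b1, b2, b3, b4, b5, b6, b7, b8, b9⟩ := h.basic
  have hC := h.C1
  have hM := h.Mpos
  set z := x - s with hz
  have hxz : x = z + s := by rw [hz]; ring
  have hs' := abs_le.1 hs
  set m := ⌊p.M - 2⌋₊ with hm
  have hm1 : (m : ℝ) ≤ p.M - 2 := Nat.floor_le (by linarith)
  have hm2 : p.M - 2 < m + 1 := Nat.lt_floor_add_one _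
  obtain ⟨q, hq1, hq2⟩ : ∃ q : ℕ, (q : ℝ) < -z ∧ -z ≤ q + 1 := by
    have hz0 : 0 < -z := by
      have : (0 : ℝ) ≤ Y₀ := Nat.cast_nonneg _
      linarith
    have h2 : 0 < ⌈-z⌉₊ := Nat.ceil_pos.2 hz0
    refine ⟨⌈-z⌉₊ - 1, ?_, ?_⟩
    · have h3 := Nat.ceil_lt_add_one hz0.le
      have h4 : ((⌈-z⌉₊ - 1 : ℕ) : ℝ) = (⌈-z⌉₊ : ℝ) - 1 := by
        rw [Nat.cast_sub (by omega)]
        simp
      rw [h4]
      linarith
    · have h3 := Nat.le_ceil (-z)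
      have h4 : ((⌈-z⌉₊ - 1 : ℕ) : ℝ) = (⌈-z⌉₊ : ℝ) - 1 := by
        rw [Nat.cast_sub (by omega)]
        simp
      rw [h4]
      linarith
  have hqY : Y₀ ≤ q := by
    have : (Y₀ : ℝ) < q := by linarith
    exact_mod_cast this.le
  have hmY : Y₀ ≤ m := Nat.le_floor (by linarith)
  have hz0 : z ≤ 0 := by
    have : (0 : ℝ) ≤ Y₀ := Nat.cast_nonneg _
    linarith
  rcases le_or_gt q m with hqm | hqm
  · refine ⟨q, hqY, hqm, by linarith, ?_⟩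
    have hqm' : (q : ℝ) ≤ m := by exact_mod_cast hqm
    have hzM : -p.M ≤ z := by linarith
    have hA : p.Nsh b μ Y₁ z ≤ p.N μ Y₁ z := by
      rw [Par.Nsh]
      split_ifs with g1
      · rw [h.N_mid hY0 hY hzM g1]
        refine mul_le_of_le_one_right b5.le (Real.exp_le_one_iff.2 ?_)
        exact mul_nonpos_of_nonneg_of_nonpos hb.le (by linarith)
      · exact le_rfl
    have hB := h.dec_N h0 h1 hY0 hY z (-(q : ℝ)) (by linarith)
    have hNz := h.pos_N (μ := μ) (Y₁ := Y₁) z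
    have hE : 1 ≤ Real.exp (C + 6) * (Real.exp (-(μ * (-(q : ℝ) - z))) * Real.exp (b * (x + q))) := by
      rw [← Real.exp_add, ← Real.exp_add]
      apply Real.one_le_exp
      have e1 : μ * (-(q : ℝ) - z) ≤ 1 * 1 := mul_le_mul h1 (by linarith) (by linarith) (by norm_num)
      have e2 : b * (-(x + q)) ≤ b * (C + 1) := mul_le_mul_of_nonneg_left (by linarith) hb.le
      have e3 : b * (C + 1) ≤ 1 * (C + 1) := mul_le_mul_of_nonneg_right hb1 (by linarith)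
      linarith
    calc p.Nsh b μ Y₁ z ≤ p.N μ Y₁ z * 1 := by rw [mul_one]; exact hA
      _ ≤ p.N μ Y₁ z * (Real.exp (C + 6) *
          (Real.exp (-(μ * (-(q : ℝ) - z))) * Real.exp (b * (x + q)))) :=
          mul_le_mul_of_nonneg_left hE hNz.le
      _ = Real.exp (C + 6) * (p.N μ Y₁ z * Real.exp (-(μ * (-(q : ℝ) - z))) *
          Real.exp (b * (x + q))) := by ring
      _ ≤ _ := by
          refine mul_le_mul_of_nonneg_left (mul_le_mul_of_nonneg_right hB (Real.exp_pos _).le)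
            (Real.exp_pos _).le
  · refine ⟨m, hmY, le_rfl, ?_, ?_⟩
    · have : (m : ℝ) < q := by exact_mod_cast hqm
      linarith
    have hA : p.Nsh b μ Y₁ z ≤ p.G1 * Real.exp (b * (z + p.M)) := by
      rw [Par.Nsh]
      split_ifs with g1
      · exact mul_le_mul_of_nonneg_left (Real.exp_le_exp.2 (mul_le_mul_of_nonneg_left
          (by linarith) hb.le)) b5.le
      · refine (h.N_le_left h0 hY0 hY hz0).trans (le_mul_of_one_le_right b5.le (Real.one_le_exp ?_))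
        exact mul_nonneg hb.le (by linarith)
    have hB := h.dec_N h0 h1 hY0 hY (-p.M) (-(m : ℝ)) (by linarith)
    rw [h.N_mid hY0 hY le_rfl (by linarith)] at hB
    have hE : Real.exp (b * (z + p.M)) ≤ Real.exp (C + 6) *
        (Real.exp (-(μ * (-(m : ℝ) - -p.M))) * Real.exp (b * (x + m))) := by
      rw [← Real.exp_add, ← Real.exp_add]
      apply Real.exp_le_exp.2
      have e1 : μ * (-(m : ℝ) - -p.M) ≤ 1 * 3 :=
        mul_le_mul h1 (by linarith) (by linarith) (by norm_num)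
      have e2 : b * (z + p.M - (x + m)) ≤ b * (C + 3) :=
        mul_le_mul_of_nonneg_left (by linarith) hb.le
      have e3 : b * (C + 3) ≤ 1 * (C + 3) := mul_le_mul_of_nonneg_right hb1 (by linarith)
      linarith
    calc p.Nsh b μ Y₁ z ≤ p.G1 * Real.exp (b * (z + p.M)) := hA
      _ ≤ p.G1 * (Real.exp (C + 6) *
          (Real.exp (-(μ * (-(m : ℝ) - -p.M))) * Real.exp (b * (x + m)))) :=
          mul_le_mul_of_nonneg_left hE b5.le
      _ = Real.exp (C + 6) * (p.G1 * Real.exp (-(μ * (-(m : ℝ) - -p.M))) *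
          Real.exp (b * (x + m))) := by ring
      _ ≤ _ := by
          refine mul_le_mul_of_nonneg_left (mul_le_mul_of_nonneg_right hB (Real.exp_pos _).le)
            (Real.exp_pos _).le

/-- one ray of kind `L` -/
lemma cnd_Li {p : Par} {κ C b μ Y₁ s : ℝ} {Y₀ : ℕ} (h : p.OK κ C) (h0 : 0 ≤ μ) (h1 : μ ≤ 1)
    (hb : 0 < b) (hb1 : b ≤ 1) (hY0 : 0 ≤ Y₁) (hY : Y₁ ≤ p.M) (hYM : (Y₀ : ℝ) + 3 ≤ p.M)
    (hs : |s| ≤ C) (ν : Measure ℝ) [IsFiniteMeasure ν] :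
    ∫ x in {x | x - s < -((Y₀ : ℝ) + 1)}, p.Nsh b μ Y₁ (x - s) ∂ν ≤
      Real.exp (C + 6) * ∑ Y ∈ Finset.Icc Y₀ ⌊p.M - 2⌋₊, p.N μ Y₁ (-Y) *
        ∫ x in {x | x - s < -(Y : ℝ)}, Real.exp (b * (x + Y)) ∂ν := by
  have hms : ∀ c : ℝ, MeasurableSet {x : ℝ | x - s < c} := fun c =>
    measurableSet_lt (measurable_id.sub_const s) measurable_const
  have hint : ∀ Y : ℕ, Integrable ({x : ℝ | x - s < -(Y : ℝ)}.indicator
      (fun x => Real.exp (b * (x + Y)))) ν := by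
    intro Y
    rw [integrable_indicator_iff (hms _)]
    refine Measure.integrableOn_of_bounded (M := Real.exp (b * C)) (measure_ne_top _ _)
      (by fun_prop) ?_
    refine (ae_restrict_iff' (hms _)).2 (Filter.Eventually.of_forall fun x hx => ?_)
    rw [Real.norm_eq_abs, Real.abs_exp]
    have hx' : x - s < -(Y : ℝ) := hx
    exact Real.exp_le_exp.2 (mul_le_mul_of_nonneg_left (by linarith [(abs_le.1 hs).2]) hb.le)
  have hnn : ∀ (x : ℝ) (Y : ℕ), 0 ≤ p.N μ Y₁ (-Y) * {x : ℝ | x - s < -(Y : ℝ)}.indicator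
      (fun x => Real.exp (b * (x + Y))) x := fun x Y =>
    mul_nonneg (h.pos_N _).le (indicator_nonneg (fun _ _ => (Real.exp_pos _).le) _)
  have hsumi : Integrable (fun x => ∑ Y ∈ Finset.Icc Y₀ ⌊p.M - 2⌋₊, p.N μ Y₁ (-Y) *
      {x : ℝ | x - s < -(Y : ℝ)}.indicator (fun x => Real.exp (b * (x + Y))) x) ν :=
    integrable_finsetSum _ fun Y _ => (hint Y).const_mul _
  have heq : ∑ Y ∈ Finset.Icc Y₀ ⌊p.M - 2⌋₊, p.N μ Y₁ (-Y) *
        ∫ x in {x | x - s < -(Y : ℝ)}, Real.exp (b * (x + Y)) ∂ν =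
      ∫ x, ∑ Y ∈ Finset.Icc Y₀ ⌊p.M - 2⌋₊, p.N μ Y₁ (-Y) *
        {x : ℝ | x - s < -(Y : ℝ)}.indicator (fun x => Real.exp (b * (x + Y))) x ∂ν := by
    rw [integral_finsetSum _ fun Y _ => (hint Y).const_mul _]
    refine Finset.sum_congr rfl fun Y _ => ?_
    rw [integral_const_mul, integral_indicator (hms _)]
  rw [heq, ← integral_const_mul, ← integral_indicator (hms _)]
  refine integral_mono_of_nonneg (Filter.Eventually.of_forall fun x => ?_) (hsumi.const_mul _)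
    (Filter.Eventually.of_forall fun x => ?_)
  · exact indicator_nonneg (fun _ _ => Par.Nsh_nonneg h _) _
  · simp only
    by_cases hx : x ∈ {x : ℝ | x - s < -((Y₀ : ℝ) + 1)}
    · rw [indicator_of_mem hx]
      obtain ⟨Y, g1, g2, g3, g4⟩ := cnd_L h h0 h1 hb hb1 hY0 hY hYM hs hx
      refine g4.trans (mul_le_mul_of_nonneg_left ?_ (Real.exp_pos _).le)
      have := Finset.single_le_sum (fun Z _ => hnn x Z) (Finset.mem_Icc.2 ⟨g1, g2⟩)
      refine le_trans (le_of_eq ?_) this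
      rw [indicator_of_mem (by exact g3)]
    · rw [indicator_of_notMem hx]
      exact mul_nonneg (Real.exp_pos _).le (Finset.sum_nonneg fun Y _ => hnn x Y)

/-- one ray of another kind -/
lemma cnd_Ri {p : Par} {κ C a b μ Y₁ : ℝ} (h : p.OK κ C) (h0 : 0 ≤ μ) (h1 : μ ≤ 1) (hμa : μ ≤ a / 2)
    (hκb : κ < b) (ha : 0 < a) (hb : 0 < b) (hY0 : 0 ≤ Y₁) (hY : Y₁ ≤ p.M) (J : Finset ℕ)
    (ν : Measure ℝ) [IsFiniteMeasure ν] (hE : Integrable p.E ν) :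
    ∑ Y ∈ J, p.N μ Y₁ (-Y) * ∫ x, w a b (x + Y) ∂ν ≤
      2 / (1 - Real.exp (-(min (a / 2) (b - κ)))) * ∫ x, p.N μ Y₁ x ∂ν := by
  have hint : ∀ Y : ℕ, Integrable (fun x => w a b (x + Y)) ν := by
    intro Y
    refine Integrable.mono' (integrable_const 1)
      ((continuous_w a b).comp (continuous_id.add continuous_const)).aestronglyMeasurable
      (Filter.Eventually.of_forall fun x => ?_)
    rw [Real.norm_eq_abs, abs_of_pos (w_pos a b _)]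
    exact w_le_one ha.le hb.le _
  have hN : Integrable (p.N μ Y₁) ν := by
    refine Integrable.mono' hE (h.cont_N h0 h1 hY0 hY).aestronglyMeasurable
      (Filter.Eventually.of_forall fun x => ?_)
    rw [Real.norm_eq_abs, abs_of_pos (h.pos_N _)]
    exact h.N_le_E h0 h1 hY0 hY x
  have heq : ∑ Y ∈ J, p.N μ Y₁ (-Y) * ∫ x, w a b (x + Y) ∂ν =
      ∫ x, ∑ Y ∈ J, p.N μ Y₁ (-Y) * w a b (x + Y) ∂ν := by
    rw [integral_finsetSum _ fun Y _ => (hint Y).const_mul _]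
    exact Finset.sum_congr rfl fun Y _ => (integral_const_mul _ _).symm
  rw [heq, ← integral_const_mul]
  exact integral_mono (integrable_finsetSum _ fun Y _ => (hint Y).const_mul _) (hN.const_mul _)
    fun x => cnd_R h h0 h1 hμa hκb ha hY0 hY J x

theorem cn_sum {ι : Type} [Fintype ι] (S : Sys ι) {κ : ℝ} (hκ : S.Sub κ) :
    ∃ K : ℝ, 0 < K ∧ ∀ (p : Par) (μ Y₁ C₁ K' : ℝ) (Y₀ : ℕ) (n : ι → Measure ℝ), p.OK κ S.C → 0 ≤ μ →
      μ ≤ S.a / 2 → 0 ≤ Y₁ → Y₁ ≤ p.M → 0 ≤ C₁ → (Y₀ : ℝ) + 3 ≤ p.M → (∀ i, IsFiniteMeasure (n i)) →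
      S.AP p K' n → S.NoDom C₁ Y₀ p n →
      (∑ i, if S.kind i = Kind.L then
        ∫ x in {x | x - S.s i < -((Y₀ : ℝ) + 1)}, p.Nsh S.b μ Y₁ (x - S.s i) ∂(n i) else 0) ≤
      K * C₁ * ((∑ i, if S.kind i = Kind.L then 0 else ∫ x, p.N μ Y₁ x ∂(n i)) + p.N μ Y₁ 0) := by
  have ha := S.ha
  have hb := S.hb
  have hab := S.hab
  set K₄ : ℝ := 2 / (1 - Real.exp (-(min (S.a / 2) (S.b - κ)))) with hK₄
  have hK₄0 : 0 < K₄ := by
    have h1 : 0 < min (S.a / 2) (S.b - κ) := lt_min (by linarith) (by linarith [hκ.2.1])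
    have h2 : Real.exp (-(min (S.a / 2) (S.b - κ))) < 1 := by
      rw [← Real.exp_zero]
      exact Real.exp_lt_exp.2 (by linarith)
    have h3 : 0 < 1 - Real.exp (-(min (S.a / 2) (S.b - κ))) := by linarith
    positivity
  refine ⟨Real.exp (S.C + 6) * K₄, by positivity, ?_⟩
  intro p μ Y₁ C₁ K' Y₀ n h h0 hμa hY0 hY hC₁ hYM hn hAP hND
  have h1 : μ ≤ 1 := by linarith
  have hb1 : S.b ≤ 1 := by linarith
  set J := Finset.Icc Y₀ ⌊p.M - 2⌋₊ with hJ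
  have hJm : ∀ Y ∈ J, S.Lf n Y ≤ C₁ * S.Of n Y := by
    intro Y hY'
    obtain ⟨g1, g2⟩ := Finset.mem_Icc.1 hY'
    refine hND Y g1 ?_
    exact (Nat.cast_le.2 g2).trans (Nat.floor_le (by linarith [h.Mpos]))
  -- left
  have hL : (∑ i, if S.kind i = Kind.L then
        ∫ x in {x | x - S.s i < -((Y₀ : ℝ) + 1)}, p.Nsh S.b μ Y₁ (x - S.s i) ∂(n i) else 0) ≤
      Real.exp (S.C + 6) * ∑ Y ∈ J, p.N μ Y₁ (-Y) * S.Lf n Y := by
    have heq : ∑ Y ∈ J, p.N μ Y₁ (-Y) * S.Lf n Y = ∑ i, if S.kind i = Kind.L then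
        ∑ Y ∈ J, p.N μ Y₁ (-Y) * ∫ x in {x | x - S.s i < -(Y : ℝ)}, Real.exp (S.b * (x + Y)) ∂(n i)
        else 0 := by
      simp only [Sys.Lf, Finset.mul_sum]
      rw [Finset.sum_comm]
      refine Finset.sum_congr rfl fun i _ => ?_
      split_ifs with hi
      · rfl
      · simp
    rw [heq, Finset.mul_sum]
    refine Finset.sum_le_sum fun i _ => ?_
    split_ifs with hi
    · have := hn i
      exact cnd_Li h h0 h1 hb hb1 hY0 hY hYM (S.hs i) (n i)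
    · simp
  have hR : ∑ Y ∈ J, p.N μ Y₁ (-Y) * S.Of n Y ≤
      K₄ * ((∑ i, if S.kind i = Kind.L then 0 else ∫ x, p.N μ Y₁ x ∂(n i)) + p.N μ Y₁ 0) := by
    have heq : ∑ Y ∈ J, p.N μ Y₁ (-Y) * S.Of n Y = (∑ i, if S.kind i = Kind.L then 0 else
        ∑ Y ∈ J, p.N μ Y₁ (-Y) * ∫ x, w S.a S.b (x + Y) ∂(n i)) +
        ∑ Y ∈ J, p.N μ Y₁ (-Y) * w S.a S.b (0 + Y) := by
      simp only [Sys.Of, mul_add, Finset.sum_add_distrib, Finset.mul_sum, zero_add]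
      rw [Finset.sum_comm]
      congr 1
      refine Finset.sum_congr rfl fun i _ => ?_
      split_ifs with hi
      · simp
      · rfl
    rw [heq, mul_add, Finset.mul_sum]
    refine add_le_add (Finset.sum_le_sum fun i _ => ?_)
      (cnd_R h h0 h1 hμa hκ.2.1 ha hY0 hY J 0)
    split_ifs with hi
    · simp
    · have := hn i
      exact cnd_Ri h h0 h1 hμa hκ.2.1 ha hb hY0 hY J (n i) (hAP.intO i hi)
  have hmid : ∑ Y ∈ J, p.N μ Y₁ (-Y) * S.Lf n Y ≤ C₁ * ∑ Y ∈ J, p.N μ Y₁ (-Y) * S.Of n Y := by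
    rw [Finset.mul_sum]
    refine Finset.sum_le_sum fun Y hY' => ?_
    have := mul_le_mul_of_nonneg_left (hJm Y hY') (h.pos_N (μ := μ) (Y₁ := Y₁) (-(Y : ℝ))).le
    linarith
  refine hL.trans ?_
  have h5 := mul_le_mul_of_nonneg_left (hmid.trans (mul_le_mul_of_nonneg_left hR hC₁))
    (Real.exp_pos (S.C + 6)).le
  refine h5.trans (le_of_eq ?_)
  ring

end INDB
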