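import Pool.Agent.INDB.CNc
import Pool.Agent.INDB.CNd

/-!
# INDB, module CNe: the main inequality when there is no dominance

PROOF. Constants of `cn_all` (`μ₂, δ, K_a`), `cn_sum` (`K_d`). `μ₃ = min μ₂ (δ/(2 K_a K_d C₁ + 1))`, `b₁` with `c e^{-(C+2)} b₁ ≥ 1 + max |gam i|`. Let `N = p.N μ Y₁`, `0 < μ ≤ μ₃`. `WC.dual` with this `N` (continuous, `≥ 0`, `N_out`): `∑ ∫ (gam i - U (k i) N) dn i ≤ t - U kt N 0 ≤ t + K_t N 0`
(`Kern.U_abs_le` at `x = 0` with `Dec μ`, `Gro κ`). Every integrand is bounded by a multiple of `1 + E`-type functions, so integrable: precisely `U (k i) N = U (k i) E - U (k i) (E - N)` and `E - N` is bounded (zero outside `[-M,M']`), `WC.intE`. `n i` lives on `x ≥ -X/2`.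
Kind `≠ L`: `∫ (gam i - U N) dn i ≥ gam i n i(ℝ) + δ ∫ N dn i`. Kind `L` (`z = x - s`): `gam i - U N x ≥ gam i - K_a μ Nsh z + c₁ be 1{z ≤ -M-2}`, `gam i + c₁ be ≥ 1`, so
`∫ (gam i - U N) dn i ≥ gam i n i{z > -M-2} + n i{z ≤ -M-2} - K_a μ ∫ Nsh z dn i`. `Nsh = 0` for `z > 0`; on `-(Y₀+1) ≤ z ≤ 0`: `Nsh z ≤ e^{Y₀+1} N 0`: (if `z > -Y₁`: `N z ≤ N 0 e^{μ(Y₀+1)}`; if `z ≤ -Y₁` then `Y₁ ≤ Y₀+1`, `Nsh z ≤ G1 = N 0 e^{μ Y₁}`), and `n i{-(Y₀+1) ≤ z ≤ 0} ≤ K' e^{Y₀+1}` because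
`rhoL z = E z ≥ E 0 e^{-sg (Y₀+1)}` there (`AP.bndL`). On `z < -(Y₀+1)`: `cn_sum`. Sum up: the `Nsh`-terms are at most `K_a μ K_d C₁ (∑_{not L} ∫ N + N 0) + K N 0 ≤ (δ/2) ∑_{not L} ∫ N dn i + K N 0`.
`c₁ = c e^{-(C+2)}`. The constant `K` may depend on `K'`, `Y₀`, `C₁`.
-/

open MeasureTheory Set Filter Topology

namespace INDB

namespace Par

variable {p : Par} {κ C μ Y₁ : ℝ}

lemma OK.Nsh_bd (h : p.OK κ C) {b : ℝ} (hb : 0 ≤ b) (h0 : 0 ≤ μ) (hY0 : 0 ≤ Y₁) (hY : Y₁ ≤ p.M)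
    (z : ℝ) : 0 ≤ p.Nsh b μ Y₁ z ∧ p.Nsh b μ Y₁ z ≤ p.G1 := by
  have hG : 0 < p.G1 := h.basic.2.2.2.2.1
  unfold Nsh
  split_ifs with h1 h2
  · refine ⟨by positivity, ?_⟩
    have : Real.exp (b * (z + Y₁)) ≤ 1 := by
      rw [Real.exp_le_one_iff]
      exact mul_nonpos_of_nonneg_of_nonpos hb (by linarith)
    nlinarith
  · exact ⟨(h.pos_N z).le, h.N_le_left h0 hY0 hY h2⟩
  · exact ⟨le_rfl, hG.le⟩

lemma OK.Nsh_meas (h : p.OK κ C) (b : ℝ) (h0 : 0 ≤ μ) (h1 : μ ≤ 1) (hY0 : 0 ≤ Y₁) (hY : Y₁ ≤ p.M) :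
    Measurable (p.Nsh b μ Y₁) := by
  unfold Nsh
  refine Measurable.ite measurableSet_Iic (by fun_prop) ?_
  exact Measurable.ite measurableSet_Iic (h.cont_N h0 h1 hY0 hY).measurable measurable_const

lemma OK.lin_N (h : p.OK κ C) (h0 : 0 ≤ μ) (h1 : μ ≤ 1) (hY0 : 0 ≤ Y₁) (hY : Y₁ ≤ p.M) :
    Lin (p.N μ Y₁) := by
  obtain ⟨K, hK, hb⟩ := h.lin_E
  refine ⟨K, hK, fun y => ?_⟩
  rw [abs_of_pos (h.pos_N y)]
  exact (h.N_le_E h0 h1 hY0 hY y).trans ((le_abs_self _).trans (hb y))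

lemma OK.diff_bd (h : p.OK κ C) (h0 : 0 ≤ μ) (h1 : μ ≤ 1) (hY0 : 0 ≤ Y₁) (hY : Y₁ ≤ p.M) (y : ℝ) :
    |p.E y - p.N μ Y₁ y| ≤ p.E p.M' := by
  by_cases hy : y ≤ -p.M ∨ p.M' ≤ y
  · rw [h.N_out h0 h1 hY0 hY hy, sub_self, abs_zero]
    exact (h.pos_E _).le
  · push Not at hy
    have h2 := h.N_le_E h0 h1 hY0 hY y
    have h3 := h.pos_N (μ := μ) (Y₁ := Y₁) y
    have h4 := h.mono_E hy.2.le
    rw [abs_of_nonneg (by linarith)]
    linarith

lemma OK.lin_diff (h : p.OK κ C) (h0 : 0 ≤ μ) (h1 : μ ≤ 1) (hY0 : 0 ≤ Y₁) (hY : Y₁ ≤ p.M) :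
    Lin (fun y => p.E y - p.N μ Y₁ y) := by
  refine ⟨p.E p.M', (h.pos_E _).le, fun y => ?_⟩
  have h2 := h.diff_bd h0 h1 hY0 hY y
  have h3 := (h.pos_E p.M').le
  have h4 := abs_nonneg y
  nlinarith

/-- on the middle zone -/
lemma OK.Nsh_mid (h : p.OK κ C) {b : ℝ} (hb : 0 ≤ b) (h0 : 0 ≤ μ) (h1 : μ ≤ 1) (hY0 : 0 ≤ Y₁)
    (hY : Y₁ ≤ p.M) {m z : ℝ} (hm : 0 ≤ m) (hz : -m ≤ z) (hz0 : z ≤ 0) :
    p.Nsh b μ Y₁ z ≤ Real.exp m * p.N μ Y₁ 0 := by
  have hG : 0 < p.G1 := h.basic.2.2.2.2.1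
  rw [h.N_zero h0 hY0 hY]
  unfold Nsh
  split_ifs with h2
  · have e1 : Real.exp (b * (z + Y₁)) ≤ 1 := by
      rw [Real.exp_le_one_iff]
      exact mul_nonpos_of_nonneg_of_nonpos hb (by linarith)
    have e2 : 1 ≤ Real.exp m * Real.exp (-(μ * Y₁)) := by
      rw [← Real.exp_add]
      refine Real.one_le_exp ?_
      have : μ * Y₁ ≤ 1 * m := mul_le_mul h1 (by linarith) hY0 zero_le_one
      linarith
    calc p.G1 * Real.exp (b * (z + Y₁)) ≤ p.G1 * 1 := mul_le_mul_of_nonneg_left e1 hG.le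
      _ ≤ p.G1 * (Real.exp m * Real.exp (-(μ * Y₁))) := mul_le_mul_of_nonneg_left e2 hG.le
      _ = _ := by ring
  · rw [h.N_mid' hY0 hY (not_le.1 h2).le hz0]
    have e3 : Real.exp (-(μ * (z + Y₁))) ≤ Real.exp m * Real.exp (-(μ * Y₁)) := by
      rw [← Real.exp_add, Real.exp_le_exp]
      have : μ * (-z) ≤ 1 * m := mul_le_mul h1 (by linarith) (by linarith) zero_le_one
      linarith
    calc p.G1 * Real.exp (-(μ * (z + Y₁))) ≤ p.G1 * (Real.exp m * Real.exp (-(μ * Y₁))) :=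
          mul_le_mul_of_nonneg_left e3 hG.le
      _ = _ := by ring

end Par

variable {ι : Type} [Fintype ι]

lemma Sys.a_le (S : Sys ι) : S.a ≤ 1 := by have := S.hb; have := S.hab; linarith

lemma Sys.b_le (S : Sys ι) : S.b ≤ 1 := by have := S.ha; have := S.hab; linarith

/-- the potentials of the test functions are integrable -/
lemma int_UN (S : Sys ι) {p : Par} {κ μ Y₁ : ℝ} {n : ι → Measure ℝ} (h : p.OK κ S.C) (h0 : 0 ≤ μ)
    (h1 : μ ≤ 1) (hY0 : 0 ≤ Y₁) (hY : Y₁ ≤ p.M) (hW : S.WC p n) (i : ι) :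
    Integrable (U (S.k i) (p.N μ Y₁)) (n i) := by
  have := hW.fin i
  have hk := S.hk i
  have hNc := h.cont_N h0 h1 hY0 hY
  have hD : Continuous (fun y => p.E y - p.N μ Y₁ y) := h.cont_E.sub hNc
  have e1 : U (S.k i) (p.N μ Y₁) =
      fun x => U (S.k i) p.E x - U (S.k i) (fun y => p.E y - p.N μ Y₁ y) x := by
    funext x
    have h2 := U_add hk S.ha S.hb hNc.measurable (h.lin_N h0 h1 hY0 hY) hD.measurable
      (h.lin_diff h0 h1 hY0 hY) x
    have h3 : (fun y => p.N μ Y₁ y + (p.E y - p.N μ Y₁ y)) = p.E := by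
      funext y
      ring
    rw [h3] at h2
    linarith
  rw [e1]
  refine (hW.intE i).sub ?_
  have hc := hk.continuous_U S.ha S.hb hD (h.lin_diff h0 h1 hY0 hY)
  refine Integrable.of_bound hc.aestronglyMeasurable
    (S.C * (3 + 1 / (S.b - 0) + 1 / (S.a - 0)) * p.E p.M') (Eventually.of_forall fun x => ?_)
  rw [Real.norm_eq_abs]
  refine hk.U_abs_le S.a_le S.b_le le_rfl S.hb le_rfl S.ha hD.measurable (h.pos_E _).le fun y => ?_
  simp only [zero_mul, add_zero, Real.exp_zero, mul_one]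
  exact h.diff_bd h0 h1 hY0 hY y

theorem cn_main {ι : Type} [Fintype ι] (S : Sys ι) {κ sg C₁ K' : ℝ} {Y₀ : ℕ} (hκ : S.Sub κ)
    (hsg : 0 < sg) (hsκ : sg < κ) (hC₁ : 1 ≤ C₁) (hK' : 1 ≤ K') :
    ∃ μ₃ δ K b₁ : ℝ, 0 < μ₃ ∧ μ₃ ≤ S.a / 2 ∧ 0 < δ ∧ 1 ≤ K ∧ 1 ≤ b₁ ∧
      ∀ (p : Par) (μ Y₁ : ℝ) (n : ι → Measure ℝ), p.OK κ S.C → p.sg = sg → b₁ ≤ p.be → 0 < μ →
      μ ≤ μ₃ → 0 ≤ Y₁ → Y₁ ≤ p.M → (Y₀ : ℝ) + 3 ≤ p.M → S.WC p n → S.AP p K' n →
      S.NoDom C₁ Y₀ p n →
      (∑ i, if S.kind i = Kind.L then S.gam i * (n i).real {x | -p.M - 2 < x - S.s i}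
        else S.gam i * (n i).real univ + δ * ∫ x, p.N μ Y₁ x ∂(n i)) ≤ S.t + K * p.N μ Y₁ 0 := by
  classical
  obtain ⟨μ₂, δ, Ka, hμ₂, hμ₂a, hδ, hKa, hall⟩ := cn_all S hκ hsg hsκ
  obtain ⟨Kd, hKd, hsum⟩ := cn_sum S hκ
  have ha := S.ha
  have hb := S.hb
  have hab := S.hab
  have hC := S.hC
  have hc := S.hc
  obtain ⟨hκ0, hκb, -⟩ := hκ
  obtain ⟨c₁, hc₁⟩ : ∃ c₁, c₁ = S.c * Real.exp (-(S.C + 2)) := ⟨_, rfl⟩
  have hc₁0 : 0 < c₁ := by rw [hc₁]; positivity
  have hD0 : 0 < 2 * Ka * Kd * C₁ + 1 := by positivity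
  have hgs : 0 ≤ ∑ i, |S.gam i| := Finset.sum_nonneg fun i _ => abs_nonneg _
  obtain ⟨Kt, hKt⟩ : ∃ Kt, Kt = S.C * (3 + 1 / (S.b - κ) + 1 / (S.a / 2)) := ⟨_, rfl⟩
  have hbκ : 0 < S.b - κ := by linarith
  have hKt0 : 0 ≤ Kt := by rw [hKt]; positivity
  obtain ⟨m, hm⟩ : ∃ m : ℝ, m = (Y₀ : ℝ) + 1 := ⟨_, rfl⟩
  have hm0 : 0 ≤ m := by rw [hm]; positivity
  refine ⟨min μ₂ (δ / (2 * Ka * Kd * C₁ + 1)), δ / 2,
    max 1 (Kt + δ / 2 + Ka * ((Fintype.card ι : ℝ) * (K' * Real.exp m * Real.exp m))),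
    max 1 ((1 + ∑ i, |S.gam i|) / c₁), lt_min hμ₂ (by positivity),
    (min_le_left _ _).trans hμ₂a, by positivity, le_max_left _ _, le_max_left _ _, ?_⟩
  intro p μ Y₁ n h hps hbe hμ0 hμ3 hY0 hY hM3 hW hAP hND
  have hμ₂' : μ ≤ μ₂ := hμ3.trans (min_le_left _ _)
  have hμd : μ ≤ δ / (2 * Ka * Kd * C₁ + 1) := hμ3.trans (min_le_right _ _)
  have hμa : μ ≤ S.a / 2 := hμ₂'.trans hμ₂a
  have ha1 := S.a_le
  have hb1 := S.b_le
  have hμ1 : μ ≤ 1 := by linarith
  obtain ⟨hO, hL⟩ := hall p μ Y₁ h hps hμ0.le hμ₂' hY0 hY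
  have hsum' := hsum p μ Y₁ C₁ K' Y₀ n h hμ0.le hμa hY0 hY (by linarith) hM3 hW.fin hAP hND
  have hNc := h.cont_N hμ0.le hμ1 hY0 hY
  have hN0 := h.pos_N (μ := μ) (Y₁ := Y₁)
  have hNE := h.N_le_E hμ0.le hμ1 hY0 hY
  have hdual := hW.dual (p.N μ Y₁) hNc (fun y => (hN0 y).le)
    (fun y hy => h.N_out hμ0.le hμ1 hY0 hY hy)
  -- the target term
  have htar : |U S.kt (p.N μ Y₁) 0| ≤ Kt * p.N μ Y₁ 0 := by
    have h1 := S.hkt.U_abs_le ha1 hb1 hκ0.le hκb hμ0.le (by linarith : μ < S.a) hNc.measurable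
      (x := 0) (hN0 0).le (fun y => lin_of_dec_gro (fun y => (hN0 y).le)
        (h.dec_N hμ0.le hμ1 hY0 hY) (h.gro_N hμ0.le hμ1 hY0 hY) hμ0.le hκ0.le 0 y)
    refine h1.trans (mul_le_mul_of_nonneg_right ?_ (hN0 0).le)
    rw [hKt]
    refine mul_le_mul_of_nonneg_left ?_ (by linarith)
    have h2 : 1 / (S.a - μ) ≤ 1 / (S.a / 2) := one_div_le_one_div_of_le (by positivity) (by linarith)
    linarith
  -- the costs, kind by kind
  have hcost : ∀ i, (if S.kind i = Kind.L then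
      S.gam i * (n i).real {x | -p.M - 2 < x - S.s i} -
        Ka * μ * ((∫ x in {x | x - S.s i < -m}, p.Nsh S.b μ Y₁ (x - S.s i) ∂(n i)) +
          K' * Real.exp m * Real.exp m * p.N μ Y₁ 0)
      else S.gam i * (n i).real univ + δ * ∫ x, p.N μ Y₁ x ∂(n i)) ≤
        ∫ x, (S.gam i - U (S.k i) (p.N μ Y₁) x) ∂(n i) := by
    intro i
    have := hW.fin i
    have hUi := int_UN S h hμ0.le hμ1 hY0 hY hW i
    by_cases hi : S.kind i = Kind.L
    · rw [if_pos hi]
      have hsm : Measurable fun x : ℝ => x - S.s i := by fun_prop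
      have hNm : Measurable fun x => p.Nsh S.b μ Y₁ (x - S.s i) :=
        (h.Nsh_meas S.b hμ0.le hμ1 hY0 hY).comp hsm
      have hNi : Integrable (fun x => p.Nsh S.b μ Y₁ (x - S.s i)) (n i) := by
        refine Integrable.of_bound hNm.aestronglyMeasurable p.G1 (Eventually.of_forall fun x => ?_)
        have h1 := h.Nsh_bd hb.le hμ0.le hY0 hY (x - S.s i)
        rw [Real.norm_eq_abs, abs_of_nonneg h1.1]
        exact h1.2
      -- ae bound
      have hae : ∀ᵐ x ∂(n i), S.gam i * ({x : ℝ | -p.M - 2 < x - S.s i}.indicator 1 x) -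
          Ka * μ * p.Nsh S.b μ Y₁ (x - S.s i) ≤ S.gam i - U (S.k i) (p.N μ Y₁) x := by
        have hs : ∀ᵐ x ∂(n i), -(p.X / 2) ≤ x := by
          have h1 := hW.supp i
          rw [ae_iff]
          refine measure_mono_null ?_ h1
          intro x hx
          simpa using hx
        filter_upwards [hs] with x hx
        have h1 := hL i hi x hx
        rw [← hc₁] at h1
        by_cases hz : x - S.s i ≤ -p.M - 2
        · rw [if_pos hz] at h1
          have h2 : x ∉ {x : ℝ | -p.M - 2 < x - S.s i} := by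
            simp only [mem_setOf_eq, not_lt]
            exact hz
          rw [indicator_of_notMem h2, mul_zero, zero_sub]
          have h3 : 1 + |S.gam i| ≤ c₁ * p.be := by
            have h4 : (1 + ∑ i, |S.gam i|) / c₁ ≤ p.be := (le_max_right _ _).trans hbe
            rw [div_le_iff₀ hc₁0] at h4
            have h5 : |S.gam i| ≤ ∑ i, |S.gam i| :=
              Finset.single_le_sum (f := fun i => |S.gam i|) (fun i _ => abs_nonneg _)
                (Finset.mem_univ i)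
            linarith
          have h6 := neg_abs_le (S.gam i)
          linarith
        · rw [if_neg hz] at h1
          have h2 : x ∈ {x : ℝ | -p.M - 2 < x - S.s i} := not_le.1 hz
          rw [indicator_of_mem h2, Pi.one_apply, mul_one]
          linarith
      have hset : MeasurableSet {x : ℝ | -p.M - 2 < x - S.s i} :=
        measurableSet_lt measurable_const hsm
      have hI1 : Integrable (fun x => S.gam i * ({x : ℝ | -p.M - 2 < x - S.s i}.indicator 1 x))
          (n i) :=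
        ((integrable_const (1 : ℝ)).indicator hset).const_mul _
      have hI2 : Integrable (fun x => Ka * μ * p.Nsh S.b μ Y₁ (x - S.s i)) (n i) :=
        hNi.const_mul _
      have hmono := integral_mono_ae (hI1.sub hI2) ((integrable_const (S.gam i)).sub hUi) hae
      refine le_trans ?_ hmono
      have e1 : ∫ x, (S.gam i * ({x : ℝ | -p.M - 2 < x - S.s i}.indicator 1 x) -
          Ka * μ * p.Nsh S.b μ Y₁ (x - S.s i)) ∂(n i) =
          S.gam i * (n i).real {x | -p.M - 2 < x - S.s i} -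
            Ka * μ * ∫ x, p.Nsh S.b μ Y₁ (x - S.s i) ∂(n i) := by
        rw [integral_sub hI1 hI2, integral_const_mul, integral_const_mul,
          integral_indicator_one hset]
      refine le_trans ?_ (le_of_eq e1.symm)
      -- split the integral
      have hA : MeasurableSet {x : ℝ | x - S.s i < -m} := measurableSet_lt hsm measurable_const
      have hsplit := integral_add_compl hA hNi
      have hcompl : ∫ x in {x : ℝ | x - S.s i < -m}ᶜ, p.Nsh S.b μ Y₁ (x - S.s i) ∂(n i) ≤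
          K' * Real.exp m * Real.exp m * p.N μ Y₁ 0 := by
        -- the middle zone
        obtain ⟨Z, hZ⟩ : ∃ Z : Set ℝ, Z = {x : ℝ | -m ≤ x - S.s i ∧ x - S.s i ≤ 0} := ⟨_, rfl⟩
        have hZm : MeasurableSet Z := by
          rw [hZ]
          exact (measurableSet_le measurable_const hsm).inter (measurableSet_le hsm measurable_const)
        have q1 : ∫ x in {x : ℝ | x - S.s i < -m}ᶜ, p.Nsh S.b μ Y₁ (x - S.s i) ∂(n i) ≤
            ∫ x, Z.indicator (fun _ => Real.exp m * p.N μ Y₁ 0) x ∂(n i) := by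
          rw [← integral_indicator hA.compl]
          refine integral_mono (hNi.indicator hA.compl) ((integrable_const _).indicator hZm)
            fun x => ?_
          by_cases hx : x ∈ {x : ℝ | x - S.s i < -m}ᶜ
          · rw [indicator_of_mem hx]
            have hx1 : -m ≤ x - S.s i := by
              simpa using hx
            by_cases hx0 : x - S.s i ≤ 0
            · have : x ∈ Z := by rw [hZ]; exact ⟨hx1, hx0⟩
              rw [indicator_of_mem this]
              exact h.Nsh_mid hb.le hμ0.le hμ1 hY0 hY hm0 hx1 hx0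
            · have h2 : p.Nsh S.b μ Y₁ (x - S.s i) = 0 := by
                unfold Par.Nsh
                rw [if_neg (by linarith), if_neg hx0]
              simp only [h2]
              exact indicator_nonneg (fun _ _ => by have := hN0 0; positivity) x
          · rw [indicator_of_notMem hx]
            exact indicator_nonneg (fun _ _ => by have := hN0 0; positivity) x
        have q2 : ∫ x, Z.indicator (fun _ => Real.exp m * p.N μ Y₁ 0) x ∂(n i) =
            (n i).real Z * (Real.exp m * p.N μ Y₁ 0) := by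
          rw [integral_indicator hZm, setIntegral_const, smul_eq_mul]
        -- the mass of the middle zone
        have q3 : (n i).real Z ≤ K' * Real.exp m := by
          have r1 := hAP.bndL i hi
          have r2 : (n i).real Z * (p.E 0 * Real.exp (-m)) ≤
              ∫ x, p.rhoL (x - S.s i) ∂(n i) := by
            have r3 : ∫ x, Z.indicator (fun _ => p.E 0 * Real.exp (-m)) x ∂(n i) =
                (n i).real Z * (p.E 0 * Real.exp (-m)) := by
              rw [integral_indicator hZm, setIntegral_const, smul_eq_mul]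
            rw [← r3]
            refine integral_mono ((integrable_const _).indicator hZm) (hAP.intL i hi) fun x => ?_
            by_cases hx : x ∈ Z
            · rw [indicator_of_mem hx]
              rw [hZ] at hx
              obtain ⟨hx1, hx2⟩ := hx
              have hMM' := h.basic.1
              have hM1 := h.M1
              have hz1 : -p.M ≤ x - S.s i := by rw [hm] at hx1; linarith
              have hz2 : x - S.s i ≤ p.M' - 1 := by linarith
              unfold Par.rhoL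
              rw [if_neg (by linarith), if_pos hz2, Par.E_mid h hz1 (by linarith),
                Par.E_mid h (by linarith : -p.M ≤ 0) (by linarith), mul_assoc, ← Real.exp_add]
              refine mul_le_mul_of_nonneg_left ?_ h.basic.2.2.2.2.1.le
              rw [Real.exp_le_exp]
              have hsg0 := h.sg0
              have hsg1 : p.sg ≤ 1 := by
                have := h.sgκ
                have := h.κ1
                linarith
              have : p.sg * (-(x - S.s i)) ≤ 1 * m := mul_le_mul hsg1 (by linarith) (by linarith)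
                zero_le_one
              linarith
            · rw [indicator_of_notMem hx]
              exact zero_le_one.trans (h.rhoL_ge_one _)
          have r4 : (n i).real Z * (p.E 0 * Real.exp (-m)) ≤ K' * p.E 0 := r2.trans r1
          have hE0 := h.pos_E 0
          have r5 : (n i).real Z * Real.exp (-m) ≤ K' := by
            refine le_of_mul_le_mul_right ?_ hE0
            calc (n i).real Z * Real.exp (-m) * p.E 0 = (n i).real Z * (p.E 0 * Real.exp (-m)) := by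
                  ring
              _ ≤ K' * p.E 0 := r4
          have r6 := mul_le_mul_of_nonneg_right r5 (Real.exp_pos m).le
          rw [mul_assoc, ← Real.exp_add, neg_add_cancel, Real.exp_zero, mul_one] at r6
          exact r6
        rw [q2] at q1
        refine q1.trans ?_
        have q4 := mul_le_mul_of_nonneg_right q3
          (by have := hN0 0; positivity : 0 ≤ Real.exp m * p.N μ Y₁ 0)
        calc (n i).real Z * (Real.exp m * p.N μ Y₁ 0) ≤
            K' * Real.exp m * (Real.exp m * p.N μ Y₁ 0) := q4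
          _ = _ := by ring
      have hfin : ∫ x, p.Nsh S.b μ Y₁ (x - S.s i) ∂(n i) ≤
          (∫ x in {x | x - S.s i < -m}, p.Nsh S.b μ Y₁ (x - S.s i) ∂(n i)) +
            K' * Real.exp m * Real.exp m * p.N μ Y₁ 0 := by
        rw [← hsplit]
        linarith
      have := mul_le_mul_of_nonneg_left hfin (by positivity : 0 ≤ Ka * μ)
      linarith
    · rw [if_neg hi]
      have hNi : Integrable (p.N μ Y₁) (n i) :=
        (hAP.intO i hi).mono' hNc.aestronglyMeasurable (Eventually.of_forall fun x => by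
          rw [Real.norm_eq_abs, abs_of_pos (hN0 x)]
          exact hNE x)
      have hmono : ∫ x, (S.gam i + δ * p.N μ Y₁ x) ∂(n i) ≤
          ∫ x, (S.gam i - U (S.k i) (p.N μ Y₁) x) ∂(n i) :=
        integral_mono ((integrable_const _).add (hNi.const_mul δ)) ((integrable_const _).sub hUi)
          fun x => by
            have := hO i hi x
            simp only
            linarith
      refine le_trans (le_of_eq ?_) hmono
      rw [integral_add (integrable_const _) (hNi.const_mul δ), integral_const, integral_const_mul,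
        smul_eq_mul]
      ring
  -- sum up
  have hs1 := (Finset.sum_le_sum fun i (_ : i ∈ Finset.univ) => hcost i).trans hdual
  have hE1 : ∑ i, (if S.kind i = Kind.L then
      S.gam i * (n i).real {x | -p.M - 2 < x - S.s i} -
        Ka * μ * ((∫ x in {x | x - S.s i < -m}, p.Nsh S.b μ Y₁ (x - S.s i) ∂(n i)) +
          K' * Real.exp m * Real.exp m * p.N μ Y₁ 0)
      else S.gam i * (n i).real univ + δ * ∫ x, p.N μ Y₁ x ∂(n i)) ≥
      (∑ i, if S.kind i = Kind.L then S.gam i * (n i).real {x | -p.M - 2 < x - S.s i}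
        else S.gam i * (n i).real univ + δ / 2 * ∫ x, p.N μ Y₁ x ∂(n i)) +
      δ / 2 * (∑ i, if S.kind i = Kind.L then 0 else ∫ x, p.N μ Y₁ x ∂(n i)) -
      Ka * μ * (∑ i, if S.kind i = Kind.L then
        ∫ x in {x | x - S.s i < -m}, p.Nsh S.b μ Y₁ (x - S.s i) ∂(n i) else 0) -
      Ka * μ * ((Fintype.card ι : ℝ) * (K' * Real.exp m * Real.exp m * p.N μ Y₁ 0)) := by
    have e0 : (Fintype.card ι : ℝ) * (K' * Real.exp m * Real.exp m * p.N μ Y₁ 0) =
        ∑ _i : ι, K' * Real.exp m * Real.exp m * p.N μ Y₁ 0 := by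
      rw [Finset.sum_const, nsmul_eq_mul]
      rfl
    rw [e0, Finset.mul_sum, Finset.mul_sum, Finset.mul_sum, ← Finset.sum_add_distrib,
      ← Finset.sum_sub_distrib, ← Finset.sum_sub_distrib]
    refine Finset.sum_le_sum fun i _ => ?_
    have hpos : 0 ≤ Ka * μ * (K' * Real.exp m * Real.exp m * p.N μ Y₁ 0) := by
      have := hN0 0
      positivity
    by_cases hi : S.kind i = Kind.L
    · simp only [if_pos hi]
      linarith
    · simp only [if_neg hi]
      linarith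
  rw [← hm] at hsum'
  obtain ⟨I, hI⟩ : ∃ I, I = ∑ i, if S.kind i = Kind.L then 0 else ∫ x, p.N μ Y₁ x ∂(n i) :=
    ⟨_, rfl⟩
  have hI0 : 0 ≤ I := by
    rw [hI]
    refine Finset.sum_nonneg fun i _ => ?_
    split_ifs
    · exact le_rfl
    · exact integral_nonneg fun x => (hN0 x).le
  rw [← hI] at hsum' hE1
  have hkey : Ka * μ * (Kd * C₁ * (I + p.N μ Y₁ 0)) ≤ δ / 2 * (I + p.N μ Y₁ 0) := by
    have h1 : Ka * μ * (Kd * C₁) ≤ δ / 2 := by
      rw [le_div_iff₀ hD0] at hμd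
      linarith [hμ0]
    have h2 : 0 ≤ I + p.N μ Y₁ 0 := add_nonneg hI0 (hN0 0).le
    calc Ka * μ * (Kd * C₁ * (I + p.N μ Y₁ 0)) = Ka * μ * (Kd * C₁) * (I + p.N μ Y₁ 0) := by ring
      _ ≤ _ := mul_le_mul_of_nonneg_right h1 h2
  have hsum2 := mul_le_mul_of_nonneg_left hsum' (by positivity : 0 ≤ Ka * μ)
  have hlast : Ka * μ * ((Fintype.card ι : ℝ) * (K' * Real.exp m * Real.exp m * p.N μ Y₁ 0)) ≤
      Ka * ((Fintype.card ι : ℝ) * (K' * Real.exp m * Real.exp m)) * p.N μ Y₁ 0 := by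
    have h1 : Ka * μ ≤ Ka * 1 := mul_le_mul_of_nonneg_left hμ1 hKa.le
    have h2 : 0 ≤ (Fintype.card ι : ℝ) * (K' * Real.exp m * Real.exp m * p.N μ Y₁ 0) := by
      have := hN0 0
      positivity
    calc Ka * μ * ((Fintype.card ι : ℝ) * (K' * Real.exp m * Real.exp m * p.N μ Y₁ 0)) ≤
        Ka * 1 * ((Fintype.card ι : ℝ) * (K' * Real.exp m * Real.exp m * p.N μ Y₁ 0)) :=
          mul_le_mul_of_nonneg_right h1 h2
      _ = _ := by ring
  have hmax : (Kt + δ / 2 + Ka * ((Fintype.card ι : ℝ) * (K' * Real.exp m * Real.exp m))) *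
      p.N μ Y₁ 0 ≤ max 1 (Kt + δ / 2 +
        Ka * ((Fintype.card ι : ℝ) * (K' * Real.exp m * Real.exp m))) * p.N μ Y₁ 0 :=
    mul_le_mul_of_nonneg_right (le_max_right _ _) (hN0 0).le
  have htar2 := neg_abs_le (U S.kt (p.N μ Y₁) 0)
  linarith [mul_add (δ / 2) I (p.N μ Y₁ 0)]

end INDB
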