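import Pool.Agent.INDB.CNe

/-!
# INDB, module CNf: bounds of the masses when there is no dominance

PROOF. Constants `μ₃, δ, K_e, b₁` of `cn_main`, `K_d` of `cn_sum` (for `κ`); put `μ = μ₃` (and `μ ≤ 1`), `D = K_d C₁`, `g = max |gam i|`, `F = card ι`. Choose `A₀ ≥ 1` with `g F (1 + D)/A₀ ≤ δ/4`. Let `Y₁ = log (G1/A₀)/μ`. For large `X`: `G1 ≥ X/2` so `Y₁ ≥ (log X)/2 ≥ Y₀ + 2` and `Y₁ ≥ 0`;
`G1 ≤ X²`, `μ M ≥ 4 log X` give `Y₁ ≤ M/2`. `N μ Y₁ 0 = G1 e^{-μ Y₁} = A₀`. Let `Q = ∑_{not L} ∫ N μ Y₁ dn i` and for `Y' ∈ [Y₁, M]`: `∑_{not L} ∫ N μ Y' ≤ Q`, `N μ Y' 0 ≤ A₀` (`N_anti`).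
Kind `≠ L`: `n i(ℝ) ≤ (1/A₀) ∫ N μ Y₁ dn i` (`N_ge_min`, support in `[-X/2,∞)`, `be X/2 ≥ A₀`). Kind `L`, `z = x - s`:
 (a) `n i{z ≥ -(Y₀+1)} ≤ K' e^{Y₀+1}`: there `rhoL z ≥ E 0 e^{-(Y₀+1)}` (`z ≤ M'-1`: `E z`; `z > M'-1`: `slope ≥ 2 X E 0`). (b) `∑_L ∫_{z<-(Y₀+1)} Nsh_{Y₁} ≤ D (Q + A₀)` (`cn_sum`), and `Nsh_{Y₁} z ≥ A₀` for `-Y₁ ≤ z ≤ 0` so `n i{-Y₁ ≤ z < -(Y₀+1)} ≤ D (Q/A₀ + 1)`.
 (c) for `j ∈ ℕ`, `Y' = Y₁ + j ≤ M`: on `-Y'-3 < z ≤ -Y'`: `Nsh_{Y'} z = G1 e^{b(z+Y')} ≥ G1 e^{-3}`, so `n i{-Y'-3 < z ≤ -Y'} ≤ (e³/G1) D (Q + A₀)`; these sets cover `-M-2 < z ≤ -Y₁`, there are at most `M + 1` of them, and `G1 ≥ X/2`, `M + 1 ≤ √X`: `n i{-M-2 < z ≤ -Y₁} ≤ 2 e³ D (Q + A₀)/√X`.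
`cn_main`: `δ Q ≤ |t| + K_e A₀ + g ∑ m_i`, `m_i = n i(ℝ)` resp. `n i{z > -M-2}`, `∑ m_i ≤ Q/A₀ + F (K' e^{Y₀+1} + D (Q/A₀+1) + 2 e³ D (Q + A₀)/√X)`. With the choice of `A₀` and `X` large: `(δ/4) Q ≤ const`. So `Q ≤ K`, and everything follows (`K` large, also `≥ D(Q+A₀)` etc.).
-/

open MeasureTheory Set Filter Topology

namespace INDB

section aux

private lemma mass_le {ν : Measure ℝ} [IsFiniteMeasure ν] {f : ℝ → ℝ} {Z A : Set ℝ}
    (hZ : MeasurableSet Z) (hA : MeasurableSet A) (hZA : Z ⊆ A) (hf : IntegrableOn f A ν)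
    (h0 : ∀ x ∈ A, 0 ≤ f x) {c : ℝ} (hc : ∀ x ∈ Z, c ≤ f x) : ν.real Z * c ≤ ∫ x in A, f x ∂ν := by
  have h1 : ∫ _x in Z, c ∂ν = ν.real Z * c := by rw [setIntegral_const, smul_eq_mul]
  rw [← h1]
  refine (setIntegral_mono_on (integrable_const c) (hf.mono_set hZA) hZ hc).trans ?_
  refine setIntegral_mono_set hf ?_ hZA.eventuallyLE
  exact (ae_restrict_mem hA).mono h0

variable {ι : Type} [Fintype ι]

private lemma rho_low {p : Par} {κ C m z : ℝ} (h : p.OK κ C) (hm : 0 ≤ m) (hmM : m ≤ p.M)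
    (hz : -m ≤ z) : p.E 0 * Real.exp (-m) ≤ p.rhoL z := by
  have hE0 := h.pos_E 0
  have hexp : Real.exp (-m) ≤ 1 := by
    rw [Real.exp_le_one_iff]
    linarith
  have hle : p.E 0 * Real.exp (-m) ≤ p.E 0 := by
    calc p.E 0 * Real.exp (-m) ≤ p.E 0 * 1 := mul_le_mul_of_nonneg_left hexp hE0.le
      _ = _ := mul_one _
  have hMM' := h.basic.1
  have hX := h.basic.2.2.2.2.2.2.1
  unfold Par.rhoL
  rw [if_neg (by linarith)]
  by_cases hz2 : z ≤ p.M' - 1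
  · rw [if_pos hz2]
    rcases le_total 0 z with hz0 | hz0
    · exact hle.trans (h.mono_E hz0)
    · rw [Par.E_mid h (by linarith : -p.M ≤ z) (by linarith),
        Par.E_mid h (by linarith : -p.M ≤ 0) (by linarith), mul_assoc, ← Real.exp_add]
      refine mul_le_mul_of_nonneg_left ?_ h.basic.2.2.2.2.1.le
      rw [Real.exp_le_exp]
      have hsg0 := h.sg0
      have hsg1 : p.sg ≤ 1 := by
        have := h.sgκ
        have := h.κ1
        linarith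
      have h1 : p.sg * (-z) ≤ 1 * m := mul_le_mul hsg1 (by linarith) (by linarith) zero_le_one
      have h2 : p.sg * (z + p.M) = p.sg * (0 + p.M) - p.sg * (-z) := by ring
      rw [h2]
      linarith
  · rw [if_neg hz2]
    have h1 := h.slope_ge
    have h2 : 1 * p.E 0 ≤ 2 * p.X * p.E 0 := mul_le_mul_of_nonneg_right (by linarith) hE0.le
    linarith

private lemma massA (S : Sys ι) {p : Par} {κ K' m : ℝ} {n : ι → Measure ℝ} (h : p.OK κ S.C)
    (hm : 0 ≤ m) (hmM : m ≤ p.M) (hn : ∀ i, IsFiniteMeasure (n i)) (hAP : S.AP p K' n) {i : ι}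
    (hi : S.kind i = Kind.L) : (n i).real {x | -m ≤ x - S.s i} ≤ K' * Real.exp m := by
  have := hn i
  have hsm : Measurable fun x : ℝ => x - S.s i := by fun_prop
  have hE0 := h.pos_E 0
  have h1 := mass_le (ν := n i) (f := fun x => p.rhoL (x - S.s i))
    (measurableSet_le measurable_const hsm : MeasurableSet {x | -m ≤ x - S.s i})
    MeasurableSet.univ (subset_univ _) (hAP.intL i hi).integrableOn
    (fun x _ => zero_le_one.trans (h.rhoL_ge_one _)) (c := p.E 0 * Real.exp (-m))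
    (fun x hx => rho_low h hm hmM hx)
  rw [setIntegral_univ] at h1
  have h2 := h1.trans (hAP.bndL i hi)
  have h3 : (n i).real {x | -m ≤ x - S.s i} * Real.exp (-m) ≤ K' := by
    refine le_of_mul_le_mul_right ?_ hE0
    calc (n i).real {x | -m ≤ x - S.s i} * Real.exp (-m) * p.E 0 =
        (n i).real {x | -m ≤ x - S.s i} * (p.E 0 * Real.exp (-m)) := by ring
      _ ≤ K' * p.E 0 := h2
  have h4 := mul_le_mul_of_nonneg_right h3 (Real.exp_pos m).le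
  rw [mul_assoc, ← Real.exp_add, neg_add_cancel, Real.exp_zero, mul_one] at h4
  exact h4

private lemma nsh_int (S : Sys ι) {p : Par} {κ μ Y : ℝ} {n : ι → Measure ℝ} (h : p.OK κ S.C)
    (h0 : 0 ≤ μ) (h1 : μ ≤ 1) (hY0 : 0 ≤ Y) (hY : Y ≤ p.M) (hn : ∀ i, IsFiniteMeasure (n i))
    (i : ι) : Integrable (fun x => p.Nsh S.b μ Y (x - S.s i)) (n i) := by
  have := hn i
  have hsm : Measurable fun x : ℝ => x - S.s i := by fun_prop
  have hNm : Measurable fun x => p.Nsh S.b μ Y (x - S.s i) :=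
    (h.Nsh_meas S.b h0 h1 hY0 hY).comp hsm
  refine Integrable.of_bound hNm.aestronglyMeasurable p.G1 (Eventually.of_forall fun x => ?_)
  have h1 := h.Nsh_bd S.hb.le h0 hY0 hY (x - S.s i)
  rw [Real.norm_eq_abs, abs_of_nonneg h1.1]
  exact h1.2

private lemma massB (S : Sys ι) {p : Par} {κ μ Y m : ℝ} {n : ι → Measure ℝ} (h : p.OK κ S.C)
    (h0 : 0 ≤ μ) (h1 : μ ≤ 1) (hY0 : 0 ≤ Y) (hY : Y ≤ p.M) (hm : 0 ≤ m)
    (hn : ∀ i, IsFiniteMeasure (n i)) (i : ι) :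
    (n i).real {x | -Y < x - S.s i ∧ x - S.s i < -m} * p.N μ Y 0 ≤
      ∫ x in {x | x - S.s i < -m}, p.Nsh S.b μ Y (x - S.s i) ∂(n i) := by
  have := hn i
  have hsm : Measurable fun x : ℝ => x - S.s i := by fun_prop
  refine mass_le (ν := n i) (f := fun x => p.Nsh S.b μ Y (x - S.s i))
    ((measurableSet_lt measurable_const hsm).inter (measurableSet_lt hsm measurable_const))
    (measurableSet_lt hsm measurable_const) (fun x hx => hx.2)
    (nsh_int S h h0 h1 hY0 hY hn i).integrableOn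
    (fun x _ => (h.Nsh_bd S.hb.le h0 hY0 hY (x - S.s i)).1) (fun x hx => ?_)
  have hx1 : -Y < x - S.s i := hx.1
  have hx2 : x - S.s i < -m := hx.2
  unfold Par.Nsh
  rw [if_neg (not_le.2 hx1), if_pos (by linarith), h.N_zero h0 hY0 hY,
    h.N_mid' hY0 hY hx1.le (by linarith)]
  refine mul_le_mul_of_nonneg_left ?_ h.basic.2.2.2.2.1.le
  rw [Real.exp_le_exp]
  have : μ * (x - S.s i + Y) ≤ μ * Y := mul_le_mul_of_nonneg_left (by linarith) h0
  linarith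

private lemma massC (S : Sys ι) {p : Par} {κ μ Y m : ℝ} {n : ι → Measure ℝ} (h : p.OK κ S.C)
    (h0 : 0 ≤ μ) (h1 : μ ≤ 1) (hY0 : 0 ≤ Y) (hY : Y ≤ p.M) (hm : m < Y)
    (hn : ∀ i, IsFiniteMeasure (n i)) (i : ι) :
    (n i).real {x | -Y - 3 < x - S.s i ∧ x - S.s i ≤ -Y} * (p.G1 * Real.exp (-3)) ≤
      ∫ x in {x | x - S.s i < -m}, p.Nsh S.b μ Y (x - S.s i) ∂(n i) := by
  have := hn i
  have hsm : Measurable fun x : ℝ => x - S.s i := by fun_prop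
  refine mass_le (ν := n i) (f := fun x => p.Nsh S.b μ Y (x - S.s i))
    ((measurableSet_lt measurable_const hsm).inter (measurableSet_le hsm measurable_const))
    (measurableSet_lt hsm measurable_const) (fun x hx => ?_)
    (nsh_int S h h0 h1 hY0 hY hn i).integrableOn
    (fun x _ => (h.Nsh_bd S.hb.le h0 hY0 hY (x - S.s i)).1) (fun x hx => ?_)
  · have hx2 : x - S.s i ≤ -Y := hx.2
    change x - S.s i < -m
    linarith
  · have hx1 : -Y - 3 < x - S.s i := hx.1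
    have hx2 : x - S.s i ≤ -Y := hx.2
    unfold Par.Nsh
    rw [if_pos hx2]
    refine mul_le_mul_of_nonneg_left ?_ h.basic.2.2.2.2.1.le
    rw [Real.exp_le_exp]
    have hb := S.hb
    have hb1 := S.b_le
    have h2 : S.b * -(x - S.s i + Y) ≤ 1 * 3 :=
      mul_le_mul hb1 (by linarith) (by linarith) zero_le_one
    linarith

private lemma massD {ν : Measure ℝ} [IsFiniteMeasure ν] {s M Y B : ℝ} (hY : Y ≤ M) (hB : 0 ≤ B)
    (hY0 : 0 ≤ Y)
    (h : ∀ j : ℕ, Y + j ≤ M → ν.real {x | -(Y + j) - 3 < x - s ∧ x - s ≤ -(Y + j)} ≤ B) :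
    ν.real {x | -M - 2 < x - s ∧ x - s ≤ -Y} ≤ (M + 1) * B := by
  obtain ⟨J, hJ⟩ : ∃ J : ℕ, J = ⌊M - Y⌋₊ := ⟨_, rfl⟩
  have hJ1 : (J : ℝ) ≤ M - Y := by
    rw [hJ]
    exact Nat.floor_le (by linarith)
  have hJ2 : M - Y < J + 1 := by
    rw [hJ]
    exact Nat.lt_floor_add_one _
  have hsub : {x | -M - 2 < x - s ∧ x - s ≤ -Y} ⊆ ⋃ j ∈ Finset.range (J + 1),
      {x | -(Y + (j : ℕ)) - 3 < x - s ∧ x - s ≤ -(Y + (j : ℕ))} := by
    rintro x ⟨hx1, hx2⟩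
    obtain ⟨l, hl⟩ : ∃ l : ℕ, l = ⌊-(x - s) - Y⌋₊ := ⟨_, rfl⟩
    have hl1 : (l : ℝ) ≤ -(x - s) - Y := by
      rw [hl]
      exact Nat.floor_le (by linarith)
    have hl2 : -(x - s) - Y < l + 1 := by
      rw [hl]
      exact Nat.lt_floor_add_one _
    rw [mem_iUnion₂]
    rcases le_or_gt l J with hlJ | hlJ
    · refine ⟨l, Finset.mem_range.2 (by omega), ?_, ?_⟩
      · linarith
      · linarith
    · refine ⟨J, Finset.mem_range.2 (by omega), ?_, ?_⟩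
      · linarith
      · have : (J : ℝ) ≤ l := by exact_mod_cast hlJ.le
        linarith
  have h1 : ν.real {x | -M - 2 < x - s ∧ x - s ≤ -Y} ≤ ∑ j ∈ Finset.range (J + 1),
      ν.real {x | -(Y + (j : ℕ)) - 3 < x - s ∧ x - s ≤ -(Y + (j : ℕ))} :=
    (measureReal_mono hsub (measure_ne_top _ _)).trans (measureReal_biUnion_finset_le _ _)
  have h2 : ∑ j ∈ Finset.range (J + 1),
      ν.real {x | -(Y + (j : ℕ)) - 3 < x - s ∧ x - s ≤ -(Y + (j : ℕ))} ≤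
      ∑ _j ∈ Finset.range (J + 1), B := by
    refine Finset.sum_le_sum fun j hj => h j ?_
    have : (j : ℝ) ≤ J := by exact_mod_cast Nat.lt_succ_iff.1 (Finset.mem_range.1 hj)
    linarith
  rw [Finset.sum_const, Finset.card_range, nsmul_eq_mul] at h2
  refine h1.trans (h2.trans (mul_le_mul_of_nonneg_right ?_ hB))
  push_cast
  linarith

private lemma massE (S : Sys ι) {p : Par} {κ μ Y K' A : ℝ} {n : ι → Measure ℝ} (h : p.OK κ S.C)
    (h0 : 0 ≤ μ) (h1 : μ ≤ 1) (hY0 : 0 ≤ Y) (hY : Y ≤ p.M) (hW : S.WC p n) (hAP : S.AP p K' n)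
    (hA1 : A ≤ p.be * (p.X / 2)) (hA2 : A ≤ p.N μ Y 0) {i : ι} (hi : S.kind i ≠ Kind.L) :
    Integrable (p.N μ Y) (n i) ∧ (n i).real univ * A ≤ ∫ x, p.N μ Y x ∂(n i) := by
  have := hW.fin i
  have hNc := h.cont_N h0 h1 hY0 hY
  have hN0 := h.pos_N (μ := μ) (Y₁ := Y)
  have hNi : Integrable (p.N μ Y) (n i) :=
    (hAP.intO i hi).mono' hNc.aestronglyMeasurable (Eventually.of_forall fun x => by
      rw [Real.norm_eq_abs, abs_of_pos (hN0 x)]
      exact h.N_le_E h0 h1 hY0 hY x)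
  refine ⟨hNi, ?_⟩
  have h2 : ∫ _x, A ∂(n i) = (n i).real univ * A := by rw [integral_const, smul_eq_mul]
  rw [← h2]
  refine integral_mono_ae (integrable_const A) hNi ?_
  have hs : ∀ᵐ x ∂(n i), -(p.X / 2) ≤ x := by
    have h3 := hW.supp i
    rw [ae_iff]
    refine measure_mono_null ?_ h3
    intro x hx
    simpa using hx
  filter_upwards [hs] with x hx
  exact (le_min hA1 hA2).trans (h.N_ge_min h0 h1 hY0 hY hx)

/-- the final arithmetic -/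
private lemma fin_arith {g F D δ A Q t Ke R0 s R : ℝ} (hg : 0 ≤ g) (hF : 1 ≤ F) (hD : 0 ≤ D)
    (hδ : 0 < δ) (hA : 1 ≤ A) (hQ : 0 ≤ Q) (hs : 0 < s)
    (hA1 : 4 * (g * F * (1 + D)) ≤ δ * A) (hs1 : 4 * (g * F * R0) ≤ δ * s) (hR0 : 0 ≤ R0)
    (h : δ * Q ≤ |t| + Ke * A + g * (Q / A + F * (R + D * (Q / A + 1) + R0 * (Q + A) / s))) :
    δ / 2 * Q ≤ |t| + (Ke + δ / 4) * A + g * F * (R + D) := by
  have hA0 : 0 < A := by linarith
  have h1 : g * F * (1 + D) * (Q / A) ≤ δ / 4 * Q := by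
    rw [mul_div_assoc', div_le_iff₀ hA0]
    have := mul_le_mul_of_nonneg_right hA1 hQ
    linarith
  have h2 : g * F * (R0 * (Q + A) / s) ≤ δ / 4 * (Q + A) := by
    rw [mul_div_assoc', div_le_iff₀ hs]
    have := mul_le_mul_of_nonneg_right hs1 (by linarith : 0 ≤ Q + A)
    linarith
  have h3 : g * (Q / A) ≤ g * F * (Q / A) := by
    have h4 : g * 1 ≤ g * F := mul_le_mul_of_nonneg_left hF hg
    rw [mul_one] at h4
    exact mul_le_mul_of_nonneg_right h4 (by positivity)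
  have h5 : g * (Q / A + F * (R + D * (Q / A + 1) + R0 * (Q + A) / s)) =
      g * (Q / A) + (g * F * (1 + D) * (Q / A) - g * F * (Q / A)) + g * F * (R + D) +
        g * F * (R0 * (Q + A) / s) := by ring
  rw [h5] at h
  linarith

end aux

theorem cn_bounds {ι : Type} [Fintype ι] (S : Sys ι) {κ sg C₁ K' : ℝ} {Y₀ : ℕ} (hκ : S.Sub κ)
    (hsg : 0 < sg) (hsκ : sg < κ) (hC₁ : 1 ≤ C₁) (hK' : 1 ≤ K') :
    ∃ μ K b₁ X₁ A₀ : ℝ, 0 < μ ∧ μ ≤ S.a / 2 ∧ 1 ≤ K ∧ 1 ≤ b₁ ∧ 1 ≤ X₁ ∧ 1 ≤ A₀ ∧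
      ∀ (p : Par) (n : ι → Measure ℝ), p.OK κ S.C → p.sg = sg → b₁ ≤ p.be → X₁ ≤ p.X →
      4 * Real.log p.X ≤ μ * p.M → p.M + 1 ≤ Real.sqrt p.X → (Y₀ : ℝ) + 3 ≤ p.M →
      S.WC p n → S.AP p K' n → S.NoDom C₁ Y₀ p n →
      (∑ i, if S.kind i = Kind.L then S.gam i * (n i).real {x | -p.M - 2 < x - S.s i}
        else S.gam i * (n i).real univ) ≤ S.t + K / p.X ∧
      ∃ Y₁ : ℝ, Real.log p.X / 2 ≤ Y₁ ∧ Y₁ ≤ p.M ∧ (Y₀ : ℝ) + 2 ≤ Y₁ ∧
        p.G1 * Real.exp (-(μ * Y₁)) = A₀ ∧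
        (∀ i, S.kind i ≠ Kind.L → Integrable (p.N μ Y₁) (n i) ∧ ∫ x, p.N μ Y₁ x ∂(n i) ≤ K) ∧
        ∀ i, S.kind i = Kind.L → (n i).real {x | -((Y₀ : ℝ) + 1) ≤ x - S.s i} ≤ K ∧
          ∫ x in {x | x - S.s i < -((Y₀ : ℝ) + 1)}, p.Nsh S.b μ Y₁ (x - S.s i) ∂(n i) ≤ K ∧
          (n i).real {x | -p.M - 2 < x - S.s i ∧ x - S.s i ≤ -Y₁} ≤ K / Real.sqrt p.X := by
  classical
  obtain ⟨μ, δ, Ke, b₁, hμ0, hμa, hδ, hKe, hb₁, hmain⟩ :=
    cn_main S hκ hsg hsκ hC₁ hK' (Y₀ := Y₀)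
  obtain ⟨Kd, hKd, hsum⟩ := cn_sum S hκ
  have hμ1 : μ ≤ 1 := by
    have := S.a_le
    linarith
  obtain ⟨m, hm⟩ : ∃ m : ℝ, m = (Y₀ : ℝ) + 1 := ⟨_, rfl⟩
  have hY₀ : (0 : ℝ) ≤ Y₀ := Nat.cast_nonneg _
  have hm0 : 0 ≤ m := by rw [hm]; positivity
  obtain ⟨D, hD⟩ : ∃ D, D = Kd * C₁ := ⟨_, rfl⟩
  have hD0 : 0 < D := by rw [hD]; positivity
  obtain ⟨g, hg⟩ : ∃ g, g = ∑ i, |S.gam i| := ⟨_, rfl⟩
  have hg0 : 0 ≤ g := by rw [hg]; exact Finset.sum_nonneg fun i _ => abs_nonneg _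
  obtain ⟨F, hF⟩ : ∃ F, F = (Fintype.card ι : ℝ) := ⟨_, rfl⟩
  have hF1 : 1 ≤ F := by
    rw [hF]
    have : 0 < Fintype.card ι := Fintype.card_pos_iff.2 ⟨S.l0⟩
    exact_mod_cast this
  have hF0 : 0 < F := by linarith
  obtain ⟨A₀, hA₀⟩ : ∃ A₀, A₀ = 1 + 4 * (g * F * (1 + D)) / δ := ⟨_, rfl⟩
  have hA₀1 : 1 ≤ A₀ := by
    rw [hA₀]
    have : 0 ≤ 4 * (g * F * (1 + D)) / δ := by positivity
    linarith
  have hA₀0 : 0 < A₀ := by linarith
  have hA₀δ : 4 * (g * F * (1 + D)) ≤ δ * A₀ := by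
    have h1 : δ * A₀ = δ + 4 * (g * F * (1 + D)) := by
      rw [hA₀]
      field_simp
    linarith
  obtain ⟨R0, hR0⟩ : ∃ R0, R0 = 2 * Real.exp 3 * D := ⟨_, rfl⟩
  have hR00 : 0 < R0 := by rw [hR0]; positivity
  obtain ⟨Q₀, hQ₀⟩ : ∃ Q₀, Q₀ = 2 * (|S.t| + (Ke + δ / 4) * A₀ +
    g * F * (K' * Real.exp m + D)) / δ := ⟨_, rfl⟩
  have hQ₀0 : 0 ≤ Q₀ := by rw [hQ₀]; positivity
  have hKbig : 0 ≤ Ke ∧ 0 ≤ K' * Real.exp m ∧ 0 ≤ D * (Q₀ + A₀) ∧ 0 ≤ R0 * (Q₀ + A₀) :=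
    ⟨by linarith, by positivity, by positivity, by positivity⟩
  obtain ⟨K, hK⟩ : ∃ K, K = 1 + Ke + Q₀ + K' * Real.exp m + D * (Q₀ + A₀) + R0 * (Q₀ + A₀) :=
    ⟨_, rfl⟩
  obtain ⟨X₁, hX₁⟩ : ∃ X₁, X₁ = 4 * A₀ ^ 2 + Real.exp (2 * ((Y₀ : ℝ) + 2)) +
    (4 * (g * F * R0) / δ) ^ 2 := ⟨_, rfl⟩
  have hX₁a : 4 * A₀ ^ 2 ≤ X₁ := by
    rw [hX₁]
    have := Real.exp_pos (2 * ((Y₀ : ℝ) + 2))
    have := sq_nonneg (4 * (g * F * R0) / δ)
    linarith
  have hX₁b : Real.exp (2 * ((Y₀ : ℝ) + 2)) ≤ X₁ := by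
    rw [hX₁]
    have := sq_nonneg A₀
    have := sq_nonneg (4 * (g * F * R0) / δ)
    linarith
  have hX₁c : (4 * (g * F * R0) / δ) ^ 2 ≤ X₁ := by
    rw [hX₁]
    have := Real.exp_pos (2 * ((Y₀ : ℝ) + 2))
    have := sq_nonneg A₀
    linarith
  have hA₀sq : 1 ≤ A₀ ^ 2 := one_le_pow₀ hA₀1
  refine ⟨μ, K, b₁, X₁, A₀, hμ0, hμa, by rw [hK]; linarith [hKbig.1, hKbig.2.1, hKbig.2.2.1,
    hKbig.2.2.2], hb₁, by linarith, hA₀1, ?_⟩
  intro p n h hps hbe hXX hlog hMX hM3 hW hAP hND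
  have hX16 := h.basic.2.2.2.2.2.2.1
  have hX0 : 0 < p.X := by linarith
  have hG1 : 0 < p.G1 := h.basic.2.2.2.2.1
  have hGlow : p.be * (p.X / 2) ≤ p.G1 := h.basic.2.2.2.2.2.2.2.1
  have hGup : p.G1 ≤ p.X ^ 2 := h.basic.2.2.2.2.2.2.2.2
  have hbe1 := h.be1
  have hbX : p.X / 2 ≤ p.be * (p.X / 2) := by
    have : 1 * (p.X / 2) ≤ p.be * (p.X / 2) := mul_le_mul_of_nonneg_right hbe1 (by linarith)
    linarith
  have hMpos := h.Mpos
  have hsX : 0 < Real.sqrt p.X := Real.sqrt_pos.2 hX0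
  have hsqX : Real.sqrt p.X * Real.sqrt p.X = p.X := Real.mul_self_sqrt hX0.le
  have hlogX0 : 0 ≤ Real.log p.X := Real.log_nonneg (by linarith)
  have hlogG : Real.log p.G1 ≤ 2 * Real.log p.X := by
    have h1 := Real.log_le_log hG1 hGup
    rw [Real.log_pow] at h1
    exact_mod_cast h1
  have hlogX2 : (Y₀ : ℝ) + 2 ≤ Real.log p.X / 2 := by
    have h1 : 2 * ((Y₀ : ℝ) + 2) ≤ Real.log p.X :=
      (Real.le_log_iff_exp_le hX0).2 (hX₁b.trans hXX)
    linarith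
  constructor
  · -- the costs
    have h1 := hmain p μ p.M n h hps hbe hμ0 le_rfl (by linarith) le_rfl hM3 hW hAP hND
    have h2 : p.N μ p.M 0 ≤ 1 / p.X := by
      rw [h.N_zero hμ0.le (by linarith) le_rfl]
      have h3 : Real.exp (-(μ * p.M)) ≤ Real.exp (-(4 * Real.log p.X)) := by
        rw [Real.exp_le_exp]
        linarith
      have h4 : Real.exp (-(4 * Real.log p.X)) = (p.X ^ 4)⁻¹ := by
        rw [Real.exp_neg]
        congr 1
        have : 4 * Real.log p.X = Real.log (p.X ^ 4) := by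
          rw [Real.log_pow]
          norm_num
        rw [this, Real.exp_log (by positivity)]
      calc p.G1 * Real.exp (-(μ * p.M)) ≤ p.X ^ 2 * (p.X ^ 4)⁻¹ := by
            refine mul_le_mul hGup (h3.trans h4.le) (Real.exp_pos _).le (by positivity)
        _ = 1 / p.X * (1 / p.X) := by
            field_simp
        _ ≤ 1 / p.X * 1 := by
            refine mul_le_mul_of_nonneg_left ?_ (by positivity)
            rw [div_le_one hX0]
            linarith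
        _ = 1 / p.X := mul_one _
    have h3 : (∑ i, if S.kind i = Kind.L then S.gam i * (n i).real {x | -p.M - 2 < x - S.s i}
        else S.gam i * (n i).real univ) ≤
        ∑ i, if S.kind i = Kind.L then S.gam i * (n i).real {x | -p.M - 2 < x - S.s i}
        else S.gam i * (n i).real univ + δ * ∫ x, p.N μ p.M x ∂(n i) := by
      refine Finset.sum_le_sum fun i _ => ?_
      split_ifs
      · exact le_rfl
      · have : 0 ≤ ∫ x, p.N μ p.M x ∂(n i) := integral_nonneg fun x => (h.pos_N x).le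
        have := mul_nonneg hδ.le this
        linarith
    have h4 : Ke * p.N μ p.M 0 ≤ K / p.X := by
      calc Ke * p.N μ p.M 0 ≤ Ke * (1 / p.X) := mul_le_mul_of_nonneg_left h2 (by linarith)
        _ = Ke / p.X := by rw [mul_one_div]
        _ ≤ K / p.X := by
            refine div_le_div_of_nonneg_right ?_ hX0.le
            rw [hK]
            linarith [hKbig.2.1, hKbig.2.2.1, hKbig.2.2.2]
    linarith
  -- the choice of `Y₁`
  obtain ⟨Y₁, hY₁⟩ : ∃ Y₁, Y₁ = Real.log (p.G1 / A₀) / μ := ⟨_, rfl⟩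
  have hμY : μ * Y₁ = Real.log (p.G1 / A₀) := by
    rw [hY₁]
    field_simp
  have hlogA : 0 ≤ Real.log A₀ := Real.log_nonneg hA₀1
  have hGA : 0 < p.G1 / A₀ := by positivity
  have hs2 : 2 * A₀ ≤ Real.sqrt p.X := by
    apply Real.le_sqrt_of_sq_le
    have : (2 * A₀) ^ 2 = 4 * A₀ ^ 2 := by ring
    rw [this]
    linarith
  have hY1 : Real.log p.X / 2 ≤ Real.log (p.G1 / A₀) := by
    have h1 : Real.log p.X / 2 = Real.log (Real.sqrt p.X) := (Real.log_sqrt hX0.le).symm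
    rw [h1]
    apply Real.log_le_log hsX
    rw [le_div_iff₀ hA₀0]
    have h2 : Real.sqrt p.X * (2 * A₀) ≤ Real.sqrt p.X * Real.sqrt p.X :=
      mul_le_mul_of_nonneg_left hs2 hsX.le
    rw [hsqX] at h2
    linarith
  have hY2 : Real.log p.X / 2 ≤ Y₁ := by
    rw [hY₁, le_div_iff₀ hμ0]
    have : Real.log p.X / 2 * μ ≤ Real.log p.X / 2 * 1 :=
      mul_le_mul_of_nonneg_left hμ1 (by linarith)
    linarith
  have hY0 : 0 ≤ Y₁ := by linarith
  have hY3 : Y₁ ≤ p.M := by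
    rw [hY₁, div_le_iff₀ hμ0, Real.log_div hG1.ne' hA₀0.ne']
    have : 0 ≤ μ * p.M := by linarith
    linarith
  have hY4 : (Y₀ : ℝ) + 2 ≤ Y₁ := by linarith
  have hNA : p.G1 * Real.exp (-(μ * Y₁)) = A₀ := by
    rw [hμY, Real.exp_neg, Real.exp_log hGA]
    field_simp
  have hN0A : p.N μ Y₁ 0 = A₀ := by rw [h.N_zero hμ0.le hY0 hY3, hNA]
  refine ⟨Y₁, hY2, hY3, hY4, hNA, ?_⟩
  rw [← hm]
  have hmM : m ≤ p.M := by rw [hm]; linarith
  have hmY : m < Y₁ := by rw [hm]; linarith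
  -- the integrals
  obtain ⟨Q, hQ⟩ : ∃ Q, Q = ∑ i, if S.kind i = Kind.L then 0 else ∫ x, p.N μ Y₁ x ∂(n i) :=
    ⟨_, rfl⟩
  have hNpos : ∀ (Y : ℝ) (i : ι), 0 ≤ ∫ x, p.N μ Y x ∂(n i) :=
    fun Y i => integral_nonneg fun x => (h.pos_N x).le
  have hQ0 : 0 ≤ Q := by
    rw [hQ]
    refine Finset.sum_nonneg fun i _ => ?_
    split_ifs
    · exact le_rfl
    · exact hNpos _ _
  -- `cn_sum` at `Y`
  have hsumY : ∀ Y : ℝ, Y₁ ≤ Y → Y ≤ p.M → ∀ i, S.kind i = Kind.L →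
      ∫ x in {x | x - S.s i < -m}, p.Nsh S.b μ Y (x - S.s i) ∂(n i) ≤ D * (Q + A₀) := by
    intro Y hYY hYM i hi
    have h1 := hsum p μ Y C₁ K' Y₀ n h hμ0.le hμa (by linarith) hYM (by linarith) hM3 hW.fin hAP hND
    rw [← hm, ← hD] at h1
    have h2 : ∫ x in {x | x - S.s i < -m}, p.Nsh S.b μ Y (x - S.s i) ∂(n i) ≤
        ∑ i, if S.kind i = Kind.L then
        ∫ x in {x | x - S.s i < -m}, p.Nsh S.b μ Y (x - S.s i) ∂(n i) else 0 := by
      have h3 : (if S.kind i = Kind.L then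
        ∫ x in {x | x - S.s i < -m}, p.Nsh S.b μ Y (x - S.s i) ∂(n i) else 0) ≤
        ∑ i, if S.kind i = Kind.L then
        ∫ x in {x | x - S.s i < -m}, p.Nsh S.b μ Y (x - S.s i) ∂(n i) else 0 := by
        refine Finset.single_le_sum (f := fun i => if S.kind i = Kind.L then
          ∫ x in {x | x - S.s i < -m}, p.Nsh S.b μ Y (x - S.s i) ∂(n i) else 0)
          (fun j _ => ?_) (Finset.mem_univ i)
        split_ifs
        · exact integral_nonneg fun x => (h.Nsh_bd S.hb.le hμ0.le (by linarith) hYM _).1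
        · exact le_rfl
      rwa [if_pos hi] at h3
    refine h2.trans (h1.trans (mul_le_mul_of_nonneg_left ?_ hD0.le))
    refine add_le_add ?_ ?_
    · rw [hQ]
      refine Finset.sum_le_sum fun j _ => ?_
      split_ifs with hj
      · exact le_rfl
      · have i1 := (massE S (A := 0) h hμ0.le hμ1 (by linarith) hYM hW hAP (by positivity)
          (h.pos_N 0).le hj).1
        have i2 := (massE S (A := 0) h hμ0.le hμ1 hY0 hY3 hW hAP (by positivity)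
          (h.pos_N 0).le hj).1
        exact integral_mono i1 i2 fun x => h.N_anti hμ0.le hμ1 hY0 hYY hYM x
    · rw [← hN0A]
      exact h.N_anti hμ0.le hμ1 hY0 hYY hYM 0
  -- the masses
  have hA : ∀ i, S.kind i = Kind.L → (n i).real {x | -m ≤ x - S.s i} ≤ K' * Real.exp m :=
    fun i hi => massA S h hm0 hmM hW.fin hAP hi
  have hB : ∀ i, S.kind i = Kind.L →
      (n i).real {x | -Y₁ < x - S.s i ∧ x - S.s i < -m} ≤ D * (Q / A₀ + 1) := by
    intro i hi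
    have h1 := (massB S h hμ0.le hμ1 hY0 hY3 hm0 hW.fin i).trans (hsumY Y₁ le_rfl hY3 i hi)
    rw [hN0A, ← le_div_iff₀ hA₀0] at h1
    refine h1.trans (le_of_eq ?_)
    field_simp
  have hCm : ∀ i, S.kind i = Kind.L →
      (n i).real {x | -p.M - 2 < x - S.s i ∧ x - S.s i ≤ -Y₁} ≤
        R0 * (Q + A₀) / Real.sqrt p.X := by
    intro i hi
    have := hW.fin i
    have h1 : (n i).real {x | -p.M - 2 < x - S.s i ∧ x - S.s i ≤ -Y₁} ≤
        (p.M + 1) * (D * (Q + A₀) / (p.G1 * Real.exp (-3))) := by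
      refine massD hY3 (by positivity) hY0 fun j hj => ?_
      have hj0 : (0 : ℝ) ≤ j := Nat.cast_nonneg _
      rw [le_div_iff₀ (by positivity)]
      exact (massC S h hμ0.le hμ1 (by linarith) hj (by linarith) hW.fin i).trans
        (hsumY (Y₁ + j) (by linarith) hj i hi)
    refine h1.trans ?_
    have h2 : D * (Q + A₀) / (p.G1 * Real.exp (-3)) ≤ R0 * (Q + A₀) / p.X := by
      rw [div_le_div_iff₀ (by positivity) hX0, hR0]
      have h3 : p.X ≤ 2 * p.G1 := by linarith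
      have h4 : Real.exp 3 * Real.exp (-3) = 1 := by
        rw [← Real.exp_add, add_neg_cancel, Real.exp_zero]
      have h5 : 2 * Real.exp 3 * D * (Q + A₀) * (p.G1 * Real.exp (-3)) =
          (Real.exp 3 * Real.exp (-3)) * (D * (Q + A₀) * (2 * p.G1)) := by ring
      rw [h5, h4, one_mul]
      exact mul_le_mul_of_nonneg_left h3 (by positivity)
    calc (p.M + 1) * (D * (Q + A₀) / (p.G1 * Real.exp (-3))) ≤
        Real.sqrt p.X * (R0 * (Q + A₀) / p.X) :=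
          mul_le_mul hMX h2 (by positivity) hsX.le
      _ = R0 * (Q + A₀) / Real.sqrt p.X := by
          rw [mul_div_assoc', div_eq_div_iff hX0.ne' hsX.ne']
          calc Real.sqrt p.X * (R0 * (Q + A₀)) * Real.sqrt p.X =
              R0 * (Q + A₀) * (Real.sqrt p.X * Real.sqrt p.X) := by ring
            _ = R0 * (Q + A₀) * p.X := by rw [hsqX]
  have hA₀X : A₀ ≤ p.be * (p.X / 2) := by
    have h1 : A₀ ≤ A₀ * A₀ := le_mul_of_one_le_left hA₀0.le hA₀1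
    have h2 : A₀ ^ 2 = A₀ * A₀ := sq A₀
    rw [h2] at hX₁a
    linarith
  have hE : ∀ i, S.kind i ≠ Kind.L → Integrable (p.N μ Y₁) (n i) ∧
      (n i).real univ * A₀ ≤ ∫ x, p.N μ Y₁ x ∂(n i) := fun i hi =>
    massE S h hμ0.le hμ1 hY0 hY3 hW hAP hA₀X (by rw [hN0A]) hi
  -- the bound of `Q`
  have hcn := hmain p μ Y₁ n h hps hbe hμ0 le_rfl hY0 hY3 hM3 hW hAP hND
  rw [hN0A] at hcn
  obtain ⟨R, hR⟩ : ∃ R, R = K' * Real.exp m + D * (Q / A₀ + 1) + R0 * (Q + A₀) / Real.sqrt p.X :=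
    ⟨_, rfl⟩
  have hR_0 : 0 ≤ R := by rw [hR]; positivity
  have hterm : ∀ i, δ * (if S.kind i = Kind.L then 0 else ∫ x, p.N μ Y₁ x ∂(n i)) -
      g * ((if S.kind i = Kind.L then 0 else ∫ x, p.N μ Y₁ x ∂(n i)) / A₀ + R) ≤
      if S.kind i = Kind.L then S.gam i * (n i).real {x | -p.M - 2 < x - S.s i}
        else S.gam i * (n i).real univ + δ * ∫ x, p.N μ Y₁ x ∂(n i) := by
    intro i
    have hfi := hW.fin i
    have hgi : |S.gam i| ≤ g := by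
      rw [hg]
      exact Finset.single_le_sum (f := fun i => |S.gam i|) (fun i _ => abs_nonneg _)
        (Finset.mem_univ i)
    have hgm : ∀ m' : ℝ, 0 ≤ m' → -(g * m') ≤ S.gam i * m' := by
      intro m' hm'
      have h1 : -(|S.gam i| * m') ≤ S.gam i * m' := by
        have := mul_le_mul_of_nonneg_right (neg_abs_le (S.gam i)) hm'
        linarith
      have h2 := mul_le_mul_of_nonneg_right hgi hm'
      linarith
    by_cases hi : S.kind i = Kind.L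
    · rw [if_pos hi, if_pos hi, mul_zero, zero_div, zero_add, zero_sub]
      have h1 : (n i).real {x | -p.M - 2 < x - S.s i} ≤ R := by
        have hsub : {x | -p.M - 2 < x - S.s i} ⊆ {x | -m ≤ x - S.s i} ∪
            ({x | -Y₁ < x - S.s i ∧ x - S.s i < -m} ∪
              {x | -p.M - 2 < x - S.s i ∧ x - S.s i ≤ -Y₁}) := by
          intro x hx
          have hx' : -p.M - 2 < x - S.s i := hx
          rcases le_or_gt (-m) (x - S.s i) with h1 | h1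
          · exact Or.inl h1
          · rcases lt_or_ge (-Y₁) (x - S.s i) with h2 | h2
            · exact Or.inr (Or.inl ⟨h2, h1⟩)
            · exact Or.inr (Or.inr ⟨hx', h2⟩)
        have h2 := measureReal_mono (μ := n i) hsub
        have h3 := measureReal_union_le (μ := n i) {x | -m ≤ x - S.s i}
          ({x | -Y₁ < x - S.s i ∧ x - S.s i < -m} ∪
            {x | -p.M - 2 < x - S.s i ∧ x - S.s i ≤ -Y₁})
        have h4 := measureReal_union_le (μ := n i) {x | -Y₁ < x - S.s i ∧ x - S.s i < -m}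
          {x | -p.M - 2 < x - S.s i ∧ x - S.s i ≤ -Y₁}
        have h5 := hA i hi
        have h6 := hB i hi
        have h7 := hCm i hi
        rw [hR]
        linarith
      have h2 := hgm _ (measureReal_nonneg (μ := n i) (s := {x | -p.M - 2 < x - S.s i}))
      have h3 := mul_le_mul_of_nonneg_left h1 hg0
      linarith
    · rw [if_neg hi, if_neg hi]
      have h1 := hE i hi
      have h2 : (n i).real univ ≤ (∫ x, p.N μ Y₁ x ∂(n i)) / A₀ + R := by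
        have h3 := (le_div_iff₀ hA₀0).2 h1.2
        linarith
      have h3 := hgm _ (measureReal_nonneg (μ := n i) (s := univ))
      have h4 := mul_le_mul_of_nonneg_left h2 hg0
      linarith
  have hsumt := (Finset.sum_le_sum fun i (_ : i ∈ Finset.univ) => hterm i).trans hcn
  rw [Finset.sum_sub_distrib, ← Finset.mul_sum, ← Finset.mul_sum, Finset.sum_add_distrib,
    ← Finset.sum_div, ← hQ, Finset.sum_const, Finset.card_univ, nsmul_eq_mul, ← hF] at hsumt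
  have hkey : δ / 2 * Q ≤ |S.t| + (Ke + δ / 4) * A₀ + g * F * (K' * Real.exp m + D) := by
    refine fin_arith hg0 hF1 hD0.le hδ hA₀1 hQ0 hsX hA₀δ ?_ hR00.le (?_ : δ * Q ≤ |S.t| + Ke * A₀ +
      g * (Q / A₀ + F * (K' * Real.exp m + D * (Q / A₀ + 1) + R0 * (Q + A₀) / Real.sqrt p.X)))
    · have h1 : 4 * (g * F * R0) / δ ≤ Real.sqrt p.X :=
        Real.le_sqrt_of_sq_le (hX₁c.trans hXX)
      rw [div_le_iff₀ hδ] at h1
      linarith
    · rw [← hR]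
      have := le_abs_self S.t
      linarith
  have hQQ : Q ≤ Q₀ := by
    rw [hQ₀, le_div_iff₀ hδ]
    linarith
  have hQK : Q ≤ K := by
    rw [hK]
    linarith [hKbig.1, hKbig.2.1, hKbig.2.2.1, hKbig.2.2.2]
  refine ⟨fun i hi => ⟨(hE i hi).1, ?_⟩, fun i hi => ⟨?_, ?_, ?_⟩⟩
  · refine le_trans ?_ hQK
    have h3 : (if S.kind i = Kind.L then 0 else ∫ x, p.N μ Y₁ x ∂(n i)) ≤ Q := by
      rw [hQ]
      refine Finset.single_le_sum (f := fun i => if S.kind i = Kind.L then 0 else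
        ∫ x, p.N μ Y₁ x ∂(n i)) (fun j _ => ?_) (Finset.mem_univ i)
      split_ifs
      · exact le_rfl
      · exact hNpos _ _
    rwa [if_neg hi] at h3
  · refine (hA i hi).trans ?_
    rw [hK]
    linarith [hKbig.1, hKbig.2.1, hKbig.2.2.1, hKbig.2.2.2]
  · refine (hsumY Y₁ le_rfl hY3 i hi).trans ?_
    have h1 : D * (Q + A₀) ≤ D * (Q₀ + A₀) := mul_le_mul_of_nonneg_left (by linarith) hD0.le
    rw [hK]
    linarith [hKbig.1, hKbig.2.1, hKbig.2.2.1, hKbig.2.2.2]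
  · refine (hCm i hi).trans (div_le_div_of_nonneg_right ?_ hsX.le)
    have h1 : R0 * (Q + A₀) ≤ R0 * (Q₀ + A₀) := mul_le_mul_of_nonneg_left (by linarith) hR00.le
    rw [hK]
    linarith [hKbig.1, hKbig.2.1, hKbig.2.2.1, hKbig.2.2.2]

end INDB
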