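import Pool.Agent.INDB.CNf

/-!
# INDB, module CNg: tails

PROOF. Everything from `cn_bounds`. `hat i` = `n i` for kind `≠ L`, restriction of `n i` to `{z > -M-2}`, `z = x - s_i`, for kind `L`.
Mass: kind `≠ L`: `N ≥ min (be X/2) A₀ ≥ 1` on the support (`N_ge_min`, `N_zero`): `n i(ℝ) ≤ K`. Kind `L`: `{z ≥ -(Y₀+1)}`: `≤ K`; `{-Y₁ < z < -(Y₀+1)}`: `Nsh = N ≥ 1`: `≤ K`; `{-M-2 < z ≤ -Y₁}`: `≤ K/√X ≤ K`.
Left tails, `0 ≤ R ≤ (log X)/2 ≤ Y₁`. Kind `≠ L`: for `-X/2 ≤ x < -R`: `N x ≥ (1/2) e^{μ R}` (`[-Y₁,-R]`: `N x = A₀ e^{-μ x}`, since `G1 e^{-μ Y₁} = A₀`; `[-M,-Y₁]`: `G1 = A₀ e^{μ Y₁}`; left of `-M`: `N = bg ≥ be X/2 ≥ G1/2`), so `n i{x < -R} ≤ 2 K e^{-μR}`.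
Kind `L`: `x < -R` implies `z < -(R - C)`. If `R - C ≤ Y₀ + 1`: total mass `3 K ≤ 3 K e^{μ(C + Y₀+1)} e^{-μ R}`. Otherwise split: `-Y₁ < z < -(R-C)`: `Nsh z = N z = A₀ e^{-μ z} ≥ e^{μ(R-C)}`, so mass `≤ K e^{-μ(R-C)}`; `-M-2 < z ≤ -Y₁`: `≤ K/√X`.
Right tails, `0 ≤ R ≤ M'/2`. Kind `≠ L`: `E x ≥ E R = E 0 e^{sg R}` for `x ≥ R`, `AP.bndO`. Kind `L`: `x ≥ R` implies `z ≥ R - C ≥ -M`; `rhoL z ≥ min (E (R - C)) slope`, `E(R-C) = E 0 e^{sg(R-C)}` (`E` nondecreasing), `slope ≥ E 0 e^{sg M'}/(2X) ≥ E 0 e^{sg M'/2}` (`big`: `e^{sg M'/2} ≥ 2X`). `AP.bndL`.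
-/

open MeasureTheory Set Filter Topology

namespace INDB

private lemma mk_ineq {ν : Measure ℝ} [IsFiniteMeasure ν] {f : ℝ → ℝ} {A B : Set ℝ}
    (hA : MeasurableSet A) (hB : MeasurableSet B) (hf : IntegrableOn f B ν) (hAB : A ⊆ B)
    (h0 : ∀ x ∈ B, 0 ≤ f x) {c K : ℝ} (hc : 0 < c) (h : ∀ x ∈ A, c ≤ f x)
    (hK : ∫ x in B, f x ∂ν ≤ K) : ν.real A ≤ K / c := by
  rw [le_div_iff₀ hc]
  have h1 : ∫ _ in A, c ∂ν = ν.real A * c := by
    rw [setIntegral_const, smul_eq_mul]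
  rw [← h1]
  calc ∫ _ in A, c ∂ν ≤ ∫ x in A, f x ∂ν :=
        setIntegral_mono_on (integrable_const c).integrableOn (hf.mono_set hAB) hA h
    _ ≤ ∫ x in B, f x ∂ν :=
        setIntegral_mono_set hf (ae_restrict_of_forall_mem hB h0) (LE.le.eventuallyLE hAB)
    _ ≤ K := hK

private lemma mk_supp {ν : Measure ℝ} [IsFiniteMeasure ν] {f : ℝ → ℝ} {A : Set ℝ} {x₁ : ℝ}
    (hs : ν (Iio x₁) = 0) (hA : MeasurableSet A) (hf : Integrable f ν)
    (h0 : ∀ x, 0 ≤ f x) {c K : ℝ} (hc : 0 < c) (h : ∀ x ∈ A, x₁ ≤ x → c ≤ f x)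
    (hK : ∫ x, f x ∂ν ≤ K) : ν.real A ≤ K / c := by
  have h1 : ν.real (A ∩ Ici x₁) ≤ K / c := by
    refine mk_ineq (B := univ) (f := f) (hA.inter measurableSet_Ici) MeasurableSet.univ
      hf.integrableOn (subset_univ _) (fun x _ => h0 x) hc (fun x hx => h x hx.1 hx.2) ?_
    rwa [Measure.restrict_univ]
  have h2 : ν.real A ≤ ν.real (A ∩ Ici x₁) + ν.real (Iio x₁) := by
    refine le_trans (measureReal_mono ?_) (measureReal_union_le _ _)
    intro x hx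
    by_cases h3 : x₁ ≤ x
    · exact Or.inl ⟨hx, h3⟩
    · exact Or.inr (not_le.1 h3)
  have h3 : ν.real (Iio x₁) = 0 := by
    rw [measureReal_def, hs]
    rfl
  linarith

private lemma N_left {p : Par} {κ C μ Y₁ A₀ R x : ℝ} (h : p.OK κ C) (h0 : 0 ≤ μ) (h1 : μ ≤ 1)
    (hY0 : 0 ≤ Y₁) (hY : Y₁ ≤ p.M) (hA : 1 ≤ A₀) (hG : p.G1 = A₀ * Real.exp (μ * Y₁))
    (hR : 0 ≤ R) (hRY : R ≤ Y₁) (hx : -(p.X / 2) ≤ x) (hx2 : x < -R) :
    Real.exp (μ * R) / 2 ≤ p.N μ Y₁ x := by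
  have e1 : Real.exp (μ * R) ≤ Real.exp (μ * Y₁) :=
    Real.exp_le_exp.2 (mul_le_mul_of_nonneg_left hRY h0)
  have e2 : Real.exp (μ * Y₁) ≤ A₀ * Real.exp (μ * Y₁) :=
    le_mul_of_one_le_left (Real.exp_pos _).le hA
  have e0 := Real.exp_pos (μ * R)
  rcases le_total x (-p.M) with hxM | hxM
  · rw [h.N_out h0 h1 hY0 hY (Or.inl hxM)]
    refine le_trans ?_ (h.E_ge hx)
    have h3 : p.G1 ≤ p.be * p.X := by
      unfold Par.G1
      have := h.be1
      have := h.M1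
      have := h.C1
      nlinarith
    linarith
  · rcases le_total x (-Y₁) with hxY | hxY
    · rw [h.N_mid hY0 hY hxM hxY]
      linarith
    · rw [h.N_mid' hY0 hY hxY (by linarith), hG, mul_assoc, ← Real.exp_add]
      have h4 : μ * Y₁ + -(μ * (x + Y₁)) = μ * (-x) := by ring
      rw [h4]
      have h5 : Real.exp (μ * R) ≤ Real.exp (μ * (-x)) :=
        Real.exp_le_exp.2 (mul_le_mul_of_nonneg_left (by linarith) h0)
      have h6 : Real.exp (μ * (-x)) ≤ A₀ * Real.exp (μ * (-x)) :=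
        le_mul_of_one_le_left (Real.exp_pos _).le hA
      linarith

private lemma Nsh_mid {p : Par} {κ C b μ Y₁ A₀ R z : ℝ} (h : p.OK κ C) (h0 : 0 ≤ μ)
    (hY0 : 0 ≤ Y₁) (hY : Y₁ ≤ p.M) (hA : 1 ≤ A₀) (hG : p.G1 = A₀ * Real.exp (μ * Y₁))
    (hR : 0 ≤ R) (hz : -Y₁ < z) (hz2 : z < -R) :
    Real.exp (μ * R) ≤ p.Nsh b μ Y₁ z := by
  unfold Par.Nsh
  rw [if_neg (not_le.2 hz), if_pos (by linarith), h.N_mid' hY0 hY hz.le (by linarith), hG,
    mul_assoc, ← Real.exp_add]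
  have h4 : μ * Y₁ + -(μ * (z + Y₁)) = μ * (-z) := by ring
  rw [h4]
  have h5 : Real.exp (μ * R) ≤ Real.exp (μ * (-z)) :=
    Real.exp_le_exp.2 (mul_le_mul_of_nonneg_left (by linarith) h0)
  have h6 : Real.exp (μ * (-z)) ≤ A₀ * Real.exp (μ * (-z)) :=
    le_mul_of_one_le_left (Real.exp_pos _).le hA
  linarith

private lemma Nsh_nn {p : Par} {κ C b μ Y₁ : ℝ} (h : p.OK κ C) (z : ℝ) :
    0 ≤ p.Nsh b μ Y₁ z := by
  unfold Par.Nsh
  have h1 := h.basic.2.2.2.2.1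
  split_ifs
  · exact mul_nonneg h1.le (Real.exp_pos _).le
  · exact (h.pos_N z).le
  · exact le_rfl

private lemma Nsh_le {p : Par} {κ C b μ Y₁ : ℝ} (h : p.OK κ C) (hb : 0 ≤ b) (h0 : 0 ≤ μ)
    (hY0 : 0 ≤ Y₁) (hY : Y₁ ≤ p.M) (z : ℝ) : p.Nsh b μ Y₁ z ≤ p.G1 := by
  unfold Par.Nsh
  have h1 := h.basic.2.2.2.2.1
  split_ifs with h2 h3
  · have h4 : Real.exp (b * (z + Y₁)) ≤ 1 := by
      rw [Real.exp_le_one_iff]
      exact mul_nonpos_of_nonneg_of_nonpos hb (by linarith)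
    exact mul_le_of_le_one_right h1.le h4
  · exact h.N_le_left h0 hY0 hY h3
  · exact h1.le

private lemma Nsh_meas {p : Par} {κ C b μ Y₁ : ℝ} (h : p.OK κ C) (h0 : 0 ≤ μ) (h1 : μ ≤ 1)
    (hY0 : 0 ≤ Y₁) (hY : Y₁ ≤ p.M) : Measurable (p.Nsh b μ Y₁) := by
  unfold Par.Nsh
  refine Measurable.ite measurableSet_Iic (by fun_prop) (Measurable.ite measurableSet_Iic ?_
    measurable_const)
  exact (h.cont_N h0 h1 hY0 hY).measurable

open Classical in
/-- the certificate without the far left mass on the rays of kind `L` -/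
noncomputable def Sys.hat {ι : Type} [Fintype ι] (S : Sys ι) (p : Par) (n : ι → Measure ℝ) (i : ι) :
    Measure ℝ := if S.kind i = Kind.L then (n i).restrict {x | -p.M - 2 < x - S.s i} else n i

private lemma hatL {ι : Type} [Fintype ι] {S : Sys ι} {p : Par} {n : ι → Measure ℝ} {i : ι}
    (hi : S.kind i = Kind.L) : S.hat p n i = (n i).restrict {x | -p.M - 2 < x - S.s i} :=
  if_pos hi

private lemma hatO {ι : Type} [Fintype ι] {S : Sys ι} {p : Par} {n : ι → Measure ℝ} {i : ι}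
    (hi : S.kind i ≠ Kind.L) : S.hat p n i = n i := if_neg hi

/-- the tail bounds for kinds different from `L` -/
private lemma tailO {ι : Type} [Fintype ι] {S : Sys ι} {κ sg μ K₀ K' A₀ Y₁ : ℝ} {p : Par}
    {n : ι → Measure ℝ} (hp : p.OK κ S.C) (hsg : p.sg = sg) (hμ : 0 < μ) (hμ1 : μ ≤ 1)
    (hW : S.WC p n) (hAP : S.AP p K' n) (hA₀ : 1 ≤ A₀) (hY0 : 0 ≤ Y₁) (hY : Y₁ ≤ p.M)
    (hYl : Real.log p.X / 2 ≤ Y₁) (hG : p.G1 = A₀ * Real.exp (μ * Y₁)) {i : ι}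
    (hi : S.kind i ≠ Kind.L) (hN : Integrable (p.N μ Y₁) (n i))
    (hN2 : ∫ x, p.N μ Y₁ x ∂(n i) ≤ K₀) :
    (n i).real univ ≤ K₀ ∧
    (∀ R, 0 ≤ R → R ≤ Real.log p.X / 2 → (n i).real (Iio (-R)) ≤ 2 * K₀ * Real.exp (-(μ * R))) ∧
    ∀ R, 0 ≤ R → R ≤ p.M' / 2 → (n i).real (Ici R) ≤ K' * Real.exp (-(sg * R)) := by
  have := hW.fin i
  obtain ⟨hMM, _, _, _, hG1, _, hX16, _, _⟩ := hp.basic
  refine ⟨?_, ?_, ?_⟩
  · have h1 := mk_supp (hW.supp i) MeasurableSet.univ hN (fun x => (hp.pos_N x).le) one_pos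
      (fun x _ hx => ?_) hN2
    · rwa [div_one] at h1
    · refine le_trans (le_min ?_ ?_) (hp.N_ge_min hμ.le hμ1 hY0 hY hx)
      · have := hp.be1
        nlinarith
      · rw [hp.N_zero hμ.le hY0 hY, hG, mul_assoc, ← Real.exp_add, add_neg_cancel, Real.exp_zero,
          mul_one]
        exact hA₀
  · intro R hR hR2
    have h1 := mk_supp (hW.supp i) (measurableSet_Iio (a := -R)) hN (fun x => (hp.pos_N x).le)
      (c := Real.exp (μ * R) / 2) (by positivity)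
      (fun x hx hx2 => N_left hp hμ.le hμ1 hY0 hY hA₀ hG hR (hR2.trans hYl) hx2 hx) hN2
    refine h1.trans (le_of_eq ?_)
    rw [Real.exp_neg]
    field_simp
  · intro R hR hR2
    have hM1 := hp.M1
    have hC1 := hp.C1
    have hE0 := hp.pos_E 0
    have hER : p.E R = p.E 0 * Real.exp (sg * R) := by
      rw [Par.E_mid hp (by linarith) (by linarith), Par.E_mid hp (by linarith) (by linarith), hsg,
        mul_assoc, ← Real.exp_add]
      congr 2
      ring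
    have h1 := mk_supp (hW.supp i) (measurableSet_Ici (a := R)) (hAP.intO i hi)
      (fun x => (hp.pos_E x).le) (c := p.E 0 * Real.exp (sg * R)) (by positivity)
      (fun x hx _ => by rw [← hER]; exact hp.mono_E hx) (hAP.bndO i hi)
    refine h1.trans (le_of_eq ?_)
    rw [Real.exp_neg]
    field_simp

private lemma rhoL_low {p : Par} {κ C sg R z : ℝ} (hp : p.OK κ C) (hsg : p.sg = sg) (hR : 0 ≤ R)
    (hR2 : R ≤ p.M' / 2) (hz : R - C ≤ z) :
    p.E 0 * Real.exp (sg * (R - C)) ≤ p.rhoL z := by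
  obtain ⟨hMM, _, _, hXM, hG1, _, hX16, _, _⟩ := hp.basic
  have hM1 := hp.M1
  have hC1 := hp.C1
  have hE0 := hp.pos_E 0
  have hsg0 := hp.sg0
  have hER : p.E (R - C) = p.E 0 * Real.exp (sg * (R - C)) := by
    rw [Par.E_mid hp (by linarith) (by linarith), Par.E_mid hp (by linarith) (by linarith), hsg,
      mul_assoc, ← Real.exp_add]
    congr 2
    ring
  unfold Par.rhoL
  rw [if_neg (by linarith)]
  split_ifs with h1
  · rw [← hER]
    exact hp.mono_E hz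
  · have h2 : p.slope = p.E 0 * Real.exp (sg * p.M') / (p.X + p.M') := by
      unfold Par.slope
      rw [Par.E_mid hp (by linarith) (by linarith), hsg, mul_assoc, ← Real.exp_add]
      congr 3
      ring
    have h3 : 2 * p.X ≤ Real.exp (sg * p.M' / 2) := by
      have h4 := hp.big
      rw [hsg] at h4
      have h5 : Real.exp (sg * p.M') = Real.exp (sg * p.M' / 2) ^ 2 := by
        rw [← Real.exp_nat_mul]
        congr 1
        push_cast
        ring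
      rw [h5] at h4
      have h6 : (2 * p.X) ^ 2 ≤ Real.exp (sg * p.M' / 2) ^ 2 := by nlinarith
      exact le_of_sq_le_sq h6 (Real.exp_pos _).le
    have hXM0 : 0 < p.X + p.M' := by linarith
    have h7 : Real.exp (sg * p.M') = Real.exp (sg * p.M' / 2) * Real.exp (sg * p.M' / 2) := by
      rw [← Real.exp_add]
      congr 1
      ring
    have h8 : Real.exp (sg * (R - C)) ≤ Real.exp (sg * p.M' / 2) := by
      refine Real.exp_le_exp.2 ?_
      rw [← hsg]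
      nlinarith
    rw [h2, le_div_iff₀ hXM0, h7]
    have h9 : p.X + p.M' ≤ Real.exp (sg * p.M' / 2) := by linarith
    calc p.E 0 * Real.exp (sg * (R - C)) * (p.X + p.M')
        = p.E 0 * (Real.exp (sg * (R - C)) * (p.X + p.M')) := by ring
      _ ≤ p.E 0 * (Real.exp (sg * p.M' / 2) * Real.exp (sg * p.M' / 2)) := by
          refine mul_le_mul_of_nonneg_left ?_ hE0.le
          exact mul_le_mul h8 h9 hXM0.le (Real.exp_pos _).le

/-- the tail bounds for kind `L` -/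
private lemma tailL {ι : Type} [Fintype ι] {S : Sys ι} {κ sg μ K₀ K' A₀ Y₁ : ℝ} {Y₀ : ℕ}
    {p : Par} {n : ι → Measure ℝ} (hp : p.OK κ S.C) (hsg : p.sg = sg) (hμ : 0 < μ) (hμ1 : μ ≤ 1)
    (hK₀ : 1 ≤ K₀)
    (hW : S.WC p n) (hAP : S.AP p K' n) (hA₀ : 1 ≤ A₀) (hY0 : 0 ≤ Y₁) (hY : Y₁ ≤ p.M)
    (hG : p.G1 = A₀ * Real.exp (μ * Y₁)) {i : ι}
    (hi : S.kind i = Kind.L) (hY2 : (Y₀ : ℝ) + 2 ≤ Y₁)
    (h1 : (n i).real {x | -((Y₀ : ℝ) + 1) ≤ x - S.s i} ≤ K₀)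
    (h2 : ∫ x in {x | x - S.s i < -((Y₀ : ℝ) + 1)}, p.Nsh S.b μ Y₁ (x - S.s i) ∂(n i) ≤ K₀)
    (h3 : (n i).real {x | -p.M - 2 < x - S.s i ∧ x - S.s i ≤ -Y₁} ≤ K₀ / Real.sqrt p.X) :
    (n i).real {x | -p.M - 2 < x - S.s i} ≤ 3 * K₀ ∧
    (∀ R, 0 ≤ R → (n i).real ({x | x < -R} ∩ {x | -p.M - 2 < x - S.s i}) ≤
      3 * K₀ * Real.exp (μ * (S.C + Y₀ + 1)) * (Real.exp (-(μ * R)) + 1 / Real.sqrt p.X)) ∧
    ∀ R, 0 ≤ R → R ≤ p.M' / 2 → (n i).real (Ici R) ≤
      K' * Real.exp (sg * S.C) * Real.exp (-(sg * R)) := by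
  have := hW.fin i
  obtain ⟨hMM, _, _, _, hG1, _, hX16, _, _⟩ := hp.basic
  have hs := abs_le.1 (S.hs i)
  have hC := S.hC
  have hsX : 1 ≤ Real.sqrt p.X := Real.one_le_sqrt.2 (by linarith)
  have hY0' : (0 : ℝ) ≤ Y₀ := Nat.cast_nonneg _
  have hB : MeasurableSet {x | x - S.s i < -((Y₀ : ℝ) + 1)} :=
    measurableSet_lt (measurable_id.sub_const _) measurable_const
  have hint : IntegrableOn (fun x => p.Nsh S.b μ Y₁ (x - S.s i))
      {x | x - S.s i < -((Y₀ : ℝ) + 1)} (n i) := by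
    refine (Integrable.mono' (integrable_const p.G1)
      ((Nsh_meas hp hμ.le hμ1 hY0 hY).comp (measurable_id.sub_const _)).aestronglyMeasurable
      (Eventually.of_forall fun x => ?_)).integrableOn
    rw [Function.comp_apply, Real.norm_eq_abs, abs_of_nonneg (Nsh_nn hp _)]
    exact Nsh_le hp S.hb.le hμ.le hY0 hY _
  -- mass of the middle part
  have hmid : ∀ R, (Y₀ : ℝ) + 1 ≤ R → (n i).real {x | -Y₁ < x - S.s i ∧ x - S.s i < -R} ≤
      K₀ * Real.exp (-(μ * R)) := by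
    intro R hR
    have hm : MeasurableSet {x | -Y₁ < x - S.s i ∧ x - S.s i < -R} :=
      (measurableSet_lt measurable_const (measurable_id.sub_const _)).inter
        (measurableSet_lt (measurable_id.sub_const _) measurable_const)
    have h4 := mk_ineq hm hB hint (fun x hx => lt_of_lt_of_le hx.2 (by linarith))
      (fun x _ => Nsh_nn hp _) (c := Real.exp (μ * R)) (Real.exp_pos _)
      (fun x hx => Nsh_mid hp hμ.le hY0 hY hA₀ hG (by linarith) hx.1 hx.2) h2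
    refine h4.trans (le_of_eq ?_)
    rw [Real.exp_neg]
    rfl
  have htot : (n i).real {x | -p.M - 2 < x - S.s i} ≤ 3 * K₀ := by
    have h4 := hmid ((Y₀ : ℝ) + 1) le_rfl
    have h5 : {x | -p.M - 2 < x - S.s i} ⊆ ({x | -((Y₀ : ℝ) + 1) ≤ x - S.s i} ∪
        {x | -Y₁ < x - S.s i ∧ x - S.s i < -((Y₀ : ℝ) + 1)}) ∪
        {x | -p.M - 2 < x - S.s i ∧ x - S.s i ≤ -Y₁} := by
      intro x hx
      simp only [mem_setOf_eq, mem_union] at hx ⊢
      rcases le_or_gt (x - S.s i) (-Y₁) with h6 | h6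
      · exact Or.inr ⟨hx, h6⟩
      · rcases le_or_gt (-((Y₀ : ℝ) + 1)) (x - S.s i) with h7 | h7
        · exact Or.inl (Or.inl h7)
        · exact Or.inl (Or.inr ⟨h6, h7⟩)
    have h6 := measureReal_mono (μ := n i) h5
    have h7 := measureReal_union_le (μ := n i) ({x | -((Y₀ : ℝ) + 1) ≤ x - S.s i} ∪
        {x | -Y₁ < x - S.s i ∧ x - S.s i < -((Y₀ : ℝ) + 1)})
        {x | -p.M - 2 < x - S.s i ∧ x - S.s i ≤ -Y₁}
    have h8 := measureReal_union_le (μ := n i) {x | -((Y₀ : ℝ) + 1) ≤ x - S.s i}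
        {x | -Y₁ < x - S.s i ∧ x - S.s i < -((Y₀ : ℝ) + 1)}
    have h9 : K₀ * Real.exp (-(μ * ((Y₀ : ℝ) + 1))) ≤ K₀ := by
      refine mul_le_of_le_one_right (by linarith) ?_
      rw [Real.exp_le_one_iff]
      have : 0 ≤ μ * ((Y₀ : ℝ) + 1) := by positivity
      linarith
    have h10 : K₀ / Real.sqrt p.X ≤ K₀ := div_le_self (by linarith) hsX
    linarith
  refine ⟨htot, ?_, ?_⟩
  · intro R hR
    have hK : 0 ≤ 3 * K₀ * Real.exp (μ * (S.C + Y₀ + 1)) := by positivity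
    have hsq : 0 ≤ 1 / Real.sqrt p.X := by positivity
    rcases le_or_gt (R - S.C) ((Y₀ : ℝ) + 1) with hRC | hRC
    · have h4 : (n i).real ({x | x < -R} ∩ {x | -p.M - 2 < x - S.s i}) ≤ 3 * K₀ :=
        le_trans (measureReal_mono inter_subset_right) htot
      have h5 : 3 * K₀ ≤ 3 * K₀ * Real.exp (μ * (S.C + Y₀ + 1)) * Real.exp (-(μ * R)) := by
        rw [mul_assoc, ← Real.exp_add]
        refine le_mul_of_one_le_right (by linarith) (Real.one_le_exp ?_)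
        nlinarith
      calc _ ≤ 3 * K₀ := h4
        _ ≤ 3 * K₀ * Real.exp (μ * (S.C + Y₀ + 1)) * Real.exp (-(μ * R)) := h5
        _ ≤ _ := mul_le_mul_of_nonneg_left (by linarith) hK
    · have h4 := hmid (R - S.C) hRC.le
      have h5 : {x | x < -R} ∩ {x | -p.M - 2 < x - S.s i} ⊆
          {x | -Y₁ < x - S.s i ∧ x - S.s i < -(R - S.C)} ∪
          {x | -p.M - 2 < x - S.s i ∧ x - S.s i ≤ -Y₁} := by
        rintro x ⟨hx1, hx2⟩
        simp only [mem_setOf_eq, mem_union] at hx1 hx2 ⊢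
        rcases le_or_gt (x - S.s i) (-Y₁) with h6 | h6
        · exact Or.inr ⟨hx2, h6⟩
        · exact Or.inl ⟨h6, by linarith⟩
      have h6 := measureReal_mono (μ := n i) h5
      have h7 := measureReal_union_le (μ := n i)
        {x | -Y₁ < x - S.s i ∧ x - S.s i < -(R - S.C)}
        {x | -p.M - 2 < x - S.s i ∧ x - S.s i ≤ -Y₁}
      have h8 : K₀ * Real.exp (-(μ * (R - S.C))) ≤
          3 * K₀ * Real.exp (μ * (S.C + Y₀ + 1)) * Real.exp (-(μ * R)) := by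
        have h9 : Real.exp (-(μ * (R - S.C))) = Real.exp (μ * S.C) * Real.exp (-(μ * R)) := by
          rw [← Real.exp_add]
          congr 1
          ring
        rw [h9, ← mul_assoc]
        refine mul_le_mul_of_nonneg_right ?_ (Real.exp_pos _).le
        refine mul_le_mul (by linarith) (Real.exp_le_exp.2 ?_) (Real.exp_pos _).le (by linarith)
        exact mul_le_mul_of_nonneg_left (by linarith) hμ.le
      have h10 : K₀ / Real.sqrt p.X ≤
          3 * K₀ * Real.exp (μ * (S.C + Y₀ + 1)) * (1 / Real.sqrt p.X) := by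
        rw [mul_one_div]
        refine div_le_div_of_nonneg_right ?_ (by linarith)
        have h11 : 1 ≤ Real.exp (μ * (S.C + Y₀ + 1)) := Real.one_le_exp (by positivity)
        nlinarith
      rw [mul_add]
      linarith
  · intro R hR hR2
    have hE0 := hp.pos_E 0
    have hx1 : ∀ x ∈ Ici R, p.E 0 * Real.exp (sg * (R - S.C)) ≤ p.rhoL (x - S.s i) := by
      intro x hx
      have hx' : R ≤ x := hx
      exact rhoL_low hp hsg hR hR2 (by linarith)
    have h4 := mk_supp (hW.supp i) (measurableSet_Ici (a := R)) (hAP.intL i hi)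
      (fun x => zero_le_one.trans (hp.rhoL_ge_one _))
      (c := p.E 0 * Real.exp (sg * (R - S.C))) (by positivity) (fun x hx _ => hx1 x hx)
      (hAP.bndL i hi)
    refine h4.trans (le_of_eq ?_)
    have h5 : Real.exp (sg * (R - S.C)) = (Real.exp (sg * S.C) * Real.exp (-(sg * R)))⁻¹ := by
      rw [← Real.exp_add, ← Real.exp_neg]
      congr 1
      ring
    rw [h5]
    field_simp

theorem cn_tails {ι : Type} [Fintype ι] (S : Sys ι) {κ sg C₁ K' : ℝ} {Y₀ : ℕ} (hκ : S.Sub κ)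
    (hsg : 0 < sg) (hsκ : sg < κ) (hC₁ : 1 ≤ C₁) (hK' : 1 ≤ K') :
    ∃ μ K b₁ X₁ : ℝ, 0 < μ ∧ 1 ≤ K ∧ 1 ≤ b₁ ∧ 1 ≤ X₁ ∧
      ∀ (p : Par) (n : ι → Measure ℝ), p.OK κ S.C → p.sg = sg → b₁ ≤ p.be → X₁ ≤ p.X →
      4 * Real.log p.X ≤ μ * p.M → p.M + 1 ≤ Real.sqrt p.X → (Y₀ : ℝ) + 3 ≤ p.M →
      S.WC p n → S.AP p K' n → S.NoDom C₁ Y₀ p n →
      (∀ i, IsFiniteMeasure (S.hat p n i)) ∧
      (∑ i, S.gam i * (S.hat p n i).real univ ≤ S.t + K / p.X) ∧
      (∀ i, (S.hat p n i).real univ ≤ K) ∧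
      (∀ i R, 0 ≤ R → R ≤ Real.log p.X / 2 →
        (S.hat p n i).real (Iio (-R)) ≤ K * (Real.exp (-(μ * R)) + 1 / Real.sqrt p.X)) ∧
      (∀ i R, 0 ≤ R → R ≤ p.M' / 2 → (S.hat p n i).real (Ici R) ≤ K * Real.exp (-(sg * R))) ∧
      ∀ᵐ y : ℝ, -p.M < y → y < p.M' → 0 ≤ G S.k S.kt (S.hat p n) y := by
  obtain ⟨μ, K₀, b₁, X₁, A₀, hμ, hμa, hK₀, hb₁, hX₁, hA₀, H⟩ :=
    cn_bounds (Y₀ := Y₀) S hκ hsg hsκ hC₁ hK'
  have ha := S.ha
  have hb := S.hb
  have hab := S.hab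
  have hC := S.hC
  have hμ1 : μ ≤ 1 := by linarith
  have e1 : 1 ≤ Real.exp (μ * (S.C + Y₀ + 1)) := Real.one_le_exp (by positivity)
  have e2 : 1 ≤ Real.exp (sg * S.C) := Real.one_le_exp (by positivity)
  obtain ⟨K, hK⟩ : ∃ K, K = 3 * K₀ * Real.exp (μ * (S.C + Y₀ + 1)) + K' * Real.exp (sg * S.C) :=
    ⟨_, rfl⟩
  have e3 : 3 * K₀ ≤ 3 * K₀ * Real.exp (μ * (S.C + Y₀ + 1)) :=
    le_mul_of_one_le_right (by linarith) e1
  have e4 : K' ≤ K' * Real.exp (sg * S.C) := le_mul_of_one_le_right (by linarith) e2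
  refine ⟨μ, K, b₁, X₁, hμ, by linarith, hb₁, hX₁, ?_⟩
  intro p n hp hpsg hbe hX hlog hMX hYM hW hAP hND
  obtain ⟨hcost, Y₁, hYl, hY, hY2, hG, hO, hL⟩ := H p n hp hpsg hbe hX hlog hMX hYM hW hAP hND
  have hY0' : (0 : ℝ) ≤ Y₀ := Nat.cast_nonneg _
  have hY0 : 0 ≤ Y₁ := by linarith
  obtain ⟨hMM, _, _, _, hG1, _, hX16, _, _⟩ := hp.basic
  have hG' : p.G1 = A₀ * Real.exp (μ * Y₁) := by
    rw [← hG, mul_assoc, ← Real.exp_add, neg_add_cancel, Real.exp_zero, mul_one]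
  have hfin : ∀ i, IsFiniteMeasure (S.hat p n i) := by
    intro i
    have := hW.fin i
    by_cases hi : S.kind i = Kind.L
    · rw [hatL hi]
      infer_instance
    · rw [hatO hi]
      infer_instance
  have hmL : ∀ i, MeasurableSet {x : ℝ | -p.M - 2 < x - S.s i} := fun i =>
    measurableSet_lt measurable_const (measurable_id.sub_const _)
  have TO : ∀ i, S.kind i ≠ Kind.L → _ := fun i hi =>
    tailO hp hpsg hμ hμ1 hW hAP hA₀ hY0 hY hYl hG' hi (hO i hi).1 (hO i hi).2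
  have TL : ∀ i, S.kind i = Kind.L → _ := fun i hi =>
    tailL hp hpsg hμ hμ1 hK₀ hW hAP hA₀ hY0 hY hG' hi hY2 (hL i hi).1 (hL i hi).2.1 (hL i hi).2.2
  have hsq : 0 ≤ 1 / Real.sqrt p.X := by positivity
  refine ⟨hfin, ?_, ?_, ?_, ?_, ?_⟩
  · have h1 : ∑ i, S.gam i * (S.hat p n i).real univ =
        ∑ i, if S.kind i = Kind.L then S.gam i * (n i).real {x | -p.M - 2 < x - S.s i}
        else S.gam i * (n i).real univ := by
      refine Finset.sum_congr rfl fun i _ => ?_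
      by_cases hi : S.kind i = Kind.L
      · rw [if_pos hi, hatL hi, measureReal_restrict_apply_univ]
      · rw [if_neg hi, hatO hi]
    rw [h1]
    refine hcost.trans ?_
    have h2 : K₀ / p.X ≤ K / p.X := div_le_div_of_nonneg_right (by linarith) (by linarith)
    linarith
  · intro i
    by_cases hi : S.kind i = Kind.L
    · rw [hatL hi, measureReal_restrict_apply_univ]
      exact (TL i hi).1.trans (by linarith)
    · rw [hatO hi]
      exact (TO i hi).1.trans (by linarith)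
  · intro i R hR hR2
    have e5 := Real.exp_pos (-(μ * R))
    by_cases hi : S.kind i = Kind.L
    · rw [hatL hi, measureReal_restrict_apply measurableSet_Iio]
      refine ((TL i hi).2.1 R hR).trans ?_
      exact mul_le_mul_of_nonneg_right (by linarith) (by linarith)
    · rw [hatO hi]
      refine ((TO i hi).2.1 R hR hR2).trans ?_
      calc 2 * K₀ * Real.exp (-(μ * R)) ≤ K * Real.exp (-(μ * R)) :=
            mul_le_mul_of_nonneg_right (by linarith) e5.le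
        _ ≤ _ := mul_le_mul_of_nonneg_left (by linarith) (by linarith)
  · intro i R hR hR2
    have e5 := Real.exp_pos (-(sg * R))
    by_cases hi : S.kind i = Kind.L
    · have := hW.fin i
      rw [hatL hi, measureReal_restrict_apply measurableSet_Ici]
      refine le_trans (measureReal_mono inter_subset_left) (((TL i hi).2.2 R hR hR2).trans ?_)
      exact mul_le_mul_of_nonneg_right (by linarith) e5.le
    · rw [hatO hi]
      refine ((TO i hi).2.2 R hR hR2).trans ?_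
      exact mul_le_mul_of_nonneg_right (by linarith) e5.le
  · filter_upwards [hW.pos, ae_integrable_all S.hk ha hb n hW.fin] with y hy hint h1 h2
    refine (hy h1 h2).trans ?_
    unfold G
    refine sub_le_sub_right (Finset.sum_le_sum fun i _ => ?_) _
    by_cases hi : S.kind i = Kind.L
    · rw [hatL hi, ← integral_add_compl (hmL i) (hint i)]
      have h3 : ∫ x in {x : ℝ | -p.M - 2 < x - S.s i}ᶜ, S.k i (x - y) ∂(n i) ≤ 0 := by
        refine setIntegral_nonpos (hmL i).compl fun x hx => ?_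
        simp only [mem_compl_iff, mem_setOf_eq, not_lt] at hx
        exact (S.patL i hi).left _ (by linarith)
      linarith
    · rw [hatO hi]

end INDB
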