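import Pool.Agent.INDB.Meas

/-!
# INDB, module Cut: the left cut

Abstract: a finite family of kernels, a nonempty set `crit` of indices whose kernels have the pattern `(-,+)`.
PROOF. Choose `C₁, c₄` at the end. Given `n`, `Y ≥ 0` put `L = ∑_{crit} ∫_{x - s_i < -Y} e^{b(x+Y)} dn_i`, `O = ∑_{not crit} ∫ w(x+Y) dn_i + w(Y)`, assume `C₁ O ≤ L`. Define `n'_i` = `n_i` restricted to `{x | -Y ≤ x - s_i}` (`i ∈ crit`), to `{x | -Y + 1 ≤ x}`
(`i ∉ crit`), plus the density `q = c₃ L` on `[x_q, x_q + 1]`, `x_q = -Y + s_{i0} + 2`, at the index `i0 ∈ crit`. Use `G_modify` and `ae_integrable_all` (a.e. `y`, all `k_i (x-y)` integrable). Let `W = w(-Y-y)`.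
(i) `-Y < y`. `G n' y - G n y = -∑_{crit} ∫_{x-s_i<-Y} k_i(x-y) dn_i - ∑_{not crit} ∫_{x<-Y+1} k_i(x-y) dn_i + q ∫_{[x_q,x_q+1]} k_{i0}(x-y) dx`.
  First sum: `x - s_i < -Y < y` so `x - y < s_i`, `k_i ≤ 0`: the contribution is `≥ 0`. If `y ≥ -Y+1` then `x - y ≤ s_i - 1` and `-k_i(x-y) ≥ c w(x-y) = c w((x+Y) + (-Y-y)) ≥ c w(x+Y) W` (`w_add_ge`), and `w(x+Y) ≥ e^{-C} e^{b(x+Y)}` because `x + Y ≤ s_i ≤ C`
  (`w_eq`: `w v = e^{b v} e^{-v⁺}`). So for `y ≥ -Y+1` the first contribution is `≥ c e^{-C} L W`.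
  Second sum: `k_i(x-y) ≤ C w(x-y) ≤ C e² w(x+Y) W`: if `x+Y ≤ 0` both `x+Y`, `-Y-y` are `≤ 0`: equality `w_add_same`; if `0 < x+Y < 1`: `w(x-y) ≤ e W` (`w_shift`) and `w(x+Y) ≥ e^{-1}`. Contribution `≥ -C e² O W`.
  Third term: `≥ -q ∫_{[x_q,x_q+1]} |k_{i0}(x-y)| dx ≥ -11 C q w(x_q - y) ≥ -11 C e^{C+2} q W` (`Kern.unit_le`, `w_shift`, `x_q - y = (-Y-y) + (s_{i0}+2)`). If `y < -Y+1`: for `x ∈ [x_q, x_q+1]`, `x - y ≥ s_{i0}+1` so `k_{i0}(x-y) ≥ c w(x-y) ≥ c e^{-(C+3)} W`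
  (`w_shift_ge`): the third term is `≥ q c e^{-(C+3)} W`.
(ii) `y < -Y`. `G n' y`: for `i ∈ crit`, `x ≥ -Y + s_i > y + s_i`: `k_i(x-y) ≥ 0`. For `i ∉ crit`: `x ≥ -Y+1`, `x - y > 1`: `k_i(x-y) ≥ -C w(x-y) = -C w(x+Y) W` (`x+Y > 0`, `-Y-y > 0`). `-kt(-y) ≥ -C w(-y) = -C w(Y) W` (`-y = Y + (-Y-y)`). The density: `x-y ≥ s_{i0}+2`,
  `≥ q c e^{-(C+3)} W`. So `G n' y ≥ q c e^{-(C+3)} W - C O W`.
Now with `c₃ = min 1 (c e^{-C} / (44 C e^{C+2}))`, `q = c₃ L` and `C₁` so large that `C e² O ≤ min (c e^{-C}/4) (c₃ c e^{-(C+3)}/2) L`: in all cases the bound is `≥ c₄ L W`, `c₄ = min (c e^{-C}/4) (c₃ c e^{-(C+3)}/2)`.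
Masses: `n'_i(ℝ) ≤ n_i(ℝ) + q ≤ n_i(ℝ) + L`; the added density lives on `x ≤ -Y + C + 3`.
-/

open MeasureTheory Set Filter Topology

namespace INDB

lemma cut_w2 {a b Y x y : ℝ} (ha : 0 ≤ a) (hb : 0 ≤ b) (ha1 : a ≤ 1) (hb1 : b ≤ 1) (hy : -Y < y)
    (hx : x < -Y + 1) : w a b (x - y) ≤ Real.exp 2 * w a b (x + Y) * w a b (-Y - y) := by
  have h1 : x - y = (x + Y) + (-Y - y) := by ring
  have hW := w_pos a b (-Y - y)
  have hX := w_pos a b (x + Y)
  have he : 1 ≤ Real.exp 2 := Real.one_le_exp (by norm_num)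
  rcases le_or_gt (x + Y) 0 with h | h
  · rw [h1, w_add_same (Or.inr ⟨h, by linarith⟩)]
    nlinarith [mul_pos hX hW]
  · have h2 : w a b (x - y) ≤ Real.exp |x + Y| * w a b (-Y - y) := by
      have := w_shift ha hb ha1 hb1 (-Y - y) (x + Y)
      rw [show -Y - y + (x + Y) = x - y by ring] at this
      exact this
    have h3 : Real.exp |x + Y| ≤ Real.exp 1 := by
      rw [abs_of_pos h]
      exact Real.exp_le_exp.2 (by linarith)
    have h4 : Real.exp (-1) ≤ w a b (x + Y) := by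
      rw [w_nonneg_eq h.le]
      apply Real.exp_le_exp.2
      nlinarith
    have h5 : Real.exp 1 ≤ Real.exp 2 * w a b (x + Y) := by
      calc Real.exp 1 = Real.exp 2 * Real.exp (-1) := by
            rw [← Real.exp_add]
            norm_num
        _ ≤ _ := mul_le_mul_of_nonneg_left h4 (Real.exp_pos 2).le
    calc w a b (x - y) ≤ Real.exp |x + Y| * w a b (-Y - y) := h2
      _ ≤ (Real.exp 2 * w a b (x + Y)) * w a b (-Y - y) :=
          mul_le_mul_of_nonneg_right (h3.trans h5) hW.le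

lemma cut_first {a b c C s Y x y : ℝ} {k : ℝ → ℝ} (ha : 0 ≤ a) (hb : 0 ≤ b) (hab : a + b = 1)
    (hc : 0 < c) (hC : 0 ≤ C) (hp : PatMP a b c s k) (hs : |s| ≤ C) (hx : x - s < -Y)
    (hy : -Y + 1 ≤ y) :
    c * Real.exp (-C) * w a b (-Y - y) * Real.exp (b * (x + Y)) ≤ -k (x - y) := by
  have h1 : k (x - y) ≤ -(c * w a b (x - y)) := hp.lower _ (by linarith)
  have h2 : w a b (x + Y) * w a b (-Y - y) ≤ w a b (x - y) := by
    have := w_add_ge ha hb (x + Y) (-Y - y)
    rw [show x + Y + (-Y - y) = x - y by ring] at this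
    exact this
  have h3 : Real.exp (-C) * Real.exp (b * (x + Y)) ≤ w a b (x + Y) := by
    rw [w_eq hab, mul_comm]
    refine mul_le_mul_of_nonneg_left (Real.exp_le_exp.2 ?_) (Real.exp_pos _).le
    have : max (x + Y) 0 ≤ C := max_le (by linarith [(abs_le.1 hs).2]) hC
    linarith
  have hW := w_pos a b (-Y - y)
  have h4 : Real.exp (-C) * Real.exp (b * (x + Y)) * w a b (-Y - y) ≤ w a b (x - y) :=
    (mul_le_mul_of_nonneg_right h3 hW.le).trans h2
  have h5 := mul_le_mul_of_nonneg_left h4 hc.le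
  calc c * Real.exp (-C) * w a b (-Y - y) * Real.exp (b * (x + Y))
      = c * (Real.exp (-C) * Real.exp (b * (x + Y)) * w a b (-Y - y)) := by ring
    _ ≤ c * w a b (x - y) := h5
    _ ≤ -k (x - y) := by linarith

lemma cut_dens {a b c C s Y x y : ℝ} {k : ℝ → ℝ} (ha : 0 ≤ a) (hb : 0 ≤ b) (ha1 : a ≤ 1)
    (hb1 : b ≤ 1) (hc : 0 < c) (hp : PatMP a b c s k) (hs : |s| ≤ C)
    (hx : -Y + s + 2 ≤ x) (hx2 : x ≤ -Y + s + 2 + 1) (hy : y < -Y + 1) :
    c * Real.exp (-(C + 3)) * w a b (-Y - y) ≤ k (x - y) := by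
  have h1 : c * w a b (x - y) ≤ k (x - y) := hp.upper _ (by linarith)
  have h2 := w_shift_ge ha hb ha1 hb1 (-Y - y) (x + Y)
  rw [show -Y - y + (x + Y) = x - y by ring] at h2
  have h3 : Real.exp (-(C + 3)) ≤ Real.exp (-|x + Y|) := by
    apply Real.exp_le_exp.2
    have := abs_le.1 hs
    have : |x + Y| ≤ C + 3 := abs_le.2 ⟨by linarith, by linarith⟩
    linarith
  have hW := w_pos a b (-Y - y)
  have h4 := mul_le_mul_of_nonneg_left ((mul_le_mul_of_nonneg_right h3 hW.le).trans h2) hc.le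
  calc c * Real.exp (-(C + 3)) * w a b (-Y - y) = c * (Real.exp (-(C + 3)) * w a b (-Y - y)) := by
        ring
    _ ≤ _ := h4.trans h1

lemma cut_dens_int {a b c C s Y y : ℝ} {k : ℝ → ℝ} (ha : 0 < a) (hb : 0 < b) (ha1 : a ≤ 1)
    (hb1 : b ≤ 1) (hc : 0 < c) (hk : Kern a b C k) (hp : PatMP a b c s k) (hs : |s| ≤ C)
    (hC : 0 ≤ C) (hy : y < -Y + 1) :
    c * Real.exp (-(C + 3)) * w a b (-Y - y) ≤
      ∫ x in Icc (-Y + s + 2) (-Y + s + 2 + 1), k (x - y) := by
  have hi : IntegrableOn (fun x => k (x - y)) (Icc (-Y + s + 2) (-Y + s + 2 + 1)) :=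
    ((hk.integrable ha hb).comp_sub_right y).integrableOn
  have h1 : ∫ _x in Icc (-Y + s + 2) (-Y + s + 2 + 1),
      (c * Real.exp (-(C + 3)) * w a b (-Y - y) : ℝ) ≤
      ∫ x in Icc (-Y + s + 2) (-Y + s + 2 + 1), k (x - y) := by
    refine setIntegral_mono_on ?_ hi measurableSet_Icc fun x hx =>
      cut_dens ha.le hb.le ha1 hb1 hc hp hs hx.1 hx.2 hy
    exact integrableOn_const (by simp) enorm_ne_top
  rw [setIntegral_const, Real.volume_real_Icc_of_le (by linarith), smul_eq_mul] at h1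
  linarith

lemma cut_dens_abs {a b C s Y y : ℝ} {k : ℝ → ℝ} (ha : 0 < a) (hb : 0 < b) (ha1 : a ≤ 1)
    (hb1 : b ≤ 1) (hk : Kern a b C k) (hs : |s| ≤ C) (hC : 0 ≤ C) :
    -(11 * C * Real.exp (C + 2) * w a b (-Y - y)) ≤
      ∫ x in Icc (-Y + s + 2) (-Y + s + 2 + 1), k (x - y) := by
  have h1 := hk.unit_le ha hb ha1 hb1 (-Y + s + 2) y
  have h2 := w_shift ha.le hb.le ha1 hb1 (-Y - y) (s + 2)
  rw [show -Y - y + (s + 2) = -Y + s + 2 - y by ring] at h2
  have h3 : Real.exp |s + 2| ≤ Real.exp (C + 2) := by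
    apply Real.exp_le_exp.2
    have := abs_le.1 hs
    exact abs_le.2 ⟨by linarith, by linarith⟩
  have hW := w_pos a b (-Y - y)
  have h4 : 11 * C * w a b (-Y + s + 2 - y) ≤ 11 * C * (Real.exp (C + 2) * w a b (-Y - y)) :=
    mul_le_mul_of_nonneg_left (h2.trans (mul_le_mul_of_nonneg_right h3 hW.le)) (by linarith)
  have h5 : |∫ x in Icc (-Y + s + 2) (-Y + s + 2 + 1), k (x - y)| ≤
      ∫ x in Icc (-Y + s + 2) (-Y + s + 2 + 1), |k (x - y)| := abs_integral_le_integral_abs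
  have h6 := (abs_le.1 h5).1
  linarith

/-- the complement of the retained half lines: indices which are not critical -/
lemma cut_off {a b C Y y : ℝ} {k : ℝ → ℝ} (ha : 0 < a) (hb : 0 < b) (ha1 : a ≤ 1) (hb1 : b ≤ 1)
    (hk : Kern a b C k) (hC : 0 ≤ C) (μ : Measure ℝ) [IsFiniteMeasure μ] (hy : -Y < y)
    (hi : Integrable (fun x => k (x - y)) μ) :
    ∫ x in {x | -Y + 1 ≤ x}ᶜ, k (x - y) ∂μ ≤
      C * Real.exp 2 * w a b (-Y - y) * ∫ x, w a b (x + Y) ∂μ := by
  have hwi : Integrable (fun x => w a b (x + Y)) μ := by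
    refine Integrable.mono' (integrable_const 1)
      ((continuous_w a b).comp (continuous_id.add continuous_const)).aestronglyMeasurable
      (Filter.Eventually.of_forall fun x => ?_)
    rw [Real.norm_eq_abs, abs_of_pos (w_pos a b _)]
    exact w_le_one ha.le hb.le _
  have hm : MeasurableSet {x : ℝ | -Y + 1 ≤ x}ᶜ := measurableSet_Ici.compl
  have h1 : ∫ x in {x | -Y + 1 ≤ x}ᶜ, k (x - y) ∂μ ≤
      ∫ x in {x | -Y + 1 ≤ x}ᶜ, C * Real.exp 2 * w a b (-Y - y) * w a b (x + Y) ∂μ := by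
    refine setIntegral_mono_on hi.integrableOn (hwi.const_mul _).integrableOn hm fun x hx => ?_
    have hx' : x < -Y + 1 := by
      simpa using hx
    have h2 := hk.up (x - y)
    have h3 := mul_le_mul_of_nonneg_left (cut_w2 ha.le hb.le ha1 hb1 hy hx') hC
    linarith
  refine h1.trans ?_
  rw [integral_const_mul]
  have hW := w_pos a b (-Y - y)
  refine mul_le_mul_of_nonneg_left ?_ (by positivity)
  exact setIntegral_le_integral hwi (Filter.Eventually.of_forall fun x => (w_pos a b _).le)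

/-- the removed half lines of the critical indices -/
lemma cut_crit {a b c C s Y y : ℝ} {k : ℝ → ℝ} (ha : 0 < a) (hb : 0 < b) (hab : a + b = 1)
    (hc : 0 < c) (hp : PatMP a b c s k) (hs : |s| ≤ C) (hC : 0 ≤ C) (μ : Measure ℝ)
    [IsFiniteMeasure μ] (hy : -Y + 1 ≤ y) (hi : Integrable (fun x => k (x - y)) μ) :
    ∫ x in {x | -Y ≤ x - s}ᶜ, k (x - y) ∂μ ≤
      -(c * Real.exp (-C) * w a b (-Y - y) *
        ∫ x in {x | x - s < -Y}, Real.exp (b * (x + Y)) ∂μ) := by
  have he : {x : ℝ | -Y ≤ x - s}ᶜ = {x | x - s < -Y} := by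
    ext x
    simp only [mem_compl_iff, mem_setOf_eq, not_le]
  rw [he]
  have hm : MeasurableSet {x : ℝ | x - s < -Y} :=
    measurableSet_lt (measurable_id.sub_const s) measurable_const
  have hei : IntegrableOn (fun x => Real.exp (b * (x + Y))) {x | x - s < -Y} μ := by
    refine Measure.integrableOn_of_bounded (M := Real.exp (b * C)) (measure_ne_top _ _)
      (by fun_prop) ?_
    refine (ae_restrict_iff' hm).2 (Filter.Eventually.of_forall fun x hx => ?_)
    rw [Real.norm_eq_abs, Real.abs_exp]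
    apply Real.exp_le_exp.2
    have hx' : x - s < -Y := hx
    have := (abs_le.1 hs).2
    exact mul_le_mul_of_nonneg_left (by linarith) hb.le
  have h1 : ∫ x in {x | x - s < -Y}, c * Real.exp (-C) * w a b (-Y - y) *
      Real.exp (b * (x + Y)) ∂μ ≤ ∫ x in {x | x - s < -Y}, -k (x - y) ∂μ :=
    setIntegral_mono_on (hei.const_mul _) hi.neg.integrableOn hm fun x hx =>
      cut_first ha.le hb.le hab hc hC hp hs hx hy
  rw [integral_const_mul, integral_neg] at h1
  linarith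

lemma cut_crit0 {a b c s Y y : ℝ} {k : ℝ → ℝ} (hp : PatMP a b c s k) (μ : Measure ℝ)
    (hy : -Y < y) : ∫ x in {x | -Y ≤ x - s}ᶜ, k (x - y) ∂μ ≤ 0 := by
  have he : {x : ℝ | -Y ≤ x - s}ᶜ = {x | x - s < -Y} := by
    ext x
    simp only [mem_compl_iff, mem_setOf_eq, not_le]
  rw [he]
  have hm : MeasurableSet {x : ℝ | x - s < -Y} :=
    measurableSet_lt (measurable_id.sub_const s) measurable_const
  refine setIntegral_nonpos hm fun x hx => hp.left _ ?_
  have hx' : x - s < -Y := hx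
  linarith

/-- (ii): the retained parts at `y < -Y` -/
lemma cut_keep_crit {a b c s Y y : ℝ} {k : ℝ → ℝ} (hp : PatMP a b c s k) (μ : Measure ℝ)
    (hy : y < -Y) : 0 ≤ ∫ x in {x | -Y ≤ x - s}, k (x - y) ∂μ := by
  have hm : MeasurableSet {x : ℝ | -Y ≤ x - s} :=
    measurableSet_le measurable_const (measurable_id.sub_const s)
  refine setIntegral_nonneg hm fun x hx => hp.right _ ?_
  have hx' : -Y ≤ x - s := hx
  linarith

lemma cut_keep_off {a b C Y y : ℝ} {k : ℝ → ℝ} (ha : 0 < a) (hb : 0 < b)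
    (hk : Kern a b C k) (hC : 0 ≤ C) (μ : Measure ℝ) [IsFiniteMeasure μ] (hy : y < -Y)
    (hi : Integrable (fun x => k (x - y)) μ) :
    -(C * w a b (-Y - y) * ∫ x, w a b (x + Y) ∂μ) ≤ ∫ x in {x | -Y + 1 ≤ x}, k (x - y) ∂μ := by
  have hwi : Integrable (fun x => w a b (x + Y)) μ := by
    refine Integrable.mono' (integrable_const 1)
      ((continuous_w a b).comp (continuous_id.add continuous_const)).aestronglyMeasurable
      (Filter.Eventually.of_forall fun x => ?_)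
    rw [Real.norm_eq_abs, abs_of_pos (w_pos a b _)]
    exact w_le_one ha.le hb.le _
  have hm : MeasurableSet {x : ℝ | -Y + 1 ≤ x} := measurableSet_Ici
  have h1 : ∫ x in {x | -Y + 1 ≤ x}, -k (x - y) ∂μ ≤
      ∫ x in {x | -Y + 1 ≤ x}, C * w a b (-Y - y) * w a b (x + Y) ∂μ := by
    refine setIntegral_mono_on hi.neg.integrableOn (hwi.const_mul _).integrableOn hm fun x hx => ?_
    have hx' : -Y + 1 ≤ x := hx
    have h2 := hk.abs (x - y) (by rw [abs_of_pos (by linarith)]; linarith)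
    have h3 : w a b (x - y) = w a b (x + Y) * w a b (-Y - y) := by
      rw [← w_add_same (Or.inl ⟨by linarith, by linarith⟩)]
      congr 1
      ring
    rw [h3] at h2
    have h4 := (abs_le.1 h2).1
    linarith
  rw [integral_neg, integral_const_mul] at h1
  have hW := w_pos a b (-Y - y)
  have h5 : ∫ x in {x | -Y + 1 ≤ x}, w a b (x + Y) ∂μ ≤ ∫ x, w a b (x + Y) ∂μ :=
    setIntegral_le_integral hwi (Filter.Eventually.of_forall fun x => (w_pos a b _).le)
  have h6 := mul_le_mul_of_nonneg_left h5 (mul_nonneg hC hW.le)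
  linarith

theorem cut {ι : Type} [Fintype ι] [DecidableEq ι] {a b c C : ℝ} (ha : 0 < a) (hb : 0 < b)
    (hab : a + b = 1) (hc : 0 < c) (hC : 1 ≤ C) (k : ι → ℝ → ℝ) (kt : ℝ → ℝ) (s : ι → ℝ)
    (crit : Finset ι) (i0 : ι) (hi0 : i0 ∈ crit) (hk : ∀ i, Kern a b C (k i)) (hkt : Kern a b C kt)
    (hs : ∀ i, |s i| ≤ C) (hp : ∀ i ∈ crit, PatMP a b c (s i) (k i)) :
    ∃ C₁ c₄ : ℝ, 0 < C₁ ∧ 0 < c₄ ∧ ∀ (n : ι → Measure ℝ) (Y : ℝ), (∀ i, IsFiniteMeasure (n i)) →
      0 ≤ Y → C₁ * ((∑ i ∈ critᶜ, ∫ x, w a b (x + Y) ∂(n i)) + w a b Y) ≤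
        ∑ i ∈ crit, ∫ x in {x | x - s i < -Y}, Real.exp (b * (x + Y)) ∂(n i) →
      ∃ n' : ι → Measure ℝ, (∀ i, IsFiniteMeasure (n' i)) ∧
        (∀ᵐ y : ℝ, -Y < y → G k kt n y + c₄ * (∑ i ∈ crit, ∫ x in {x | x - s i < -Y},
          Real.exp (b * (x + Y)) ∂(n i)) * w a b (-Y - y) ≤ G k kt n' y) ∧
        (∀ᵐ y : ℝ, y < -Y → c₄ * (∑ i ∈ crit, ∫ x in {x | x - s i < -Y},
          Real.exp (b * (x + Y)) ∂(n i)) * w a b (-Y - y) ≤ G k kt n' y) ∧
        (∀ i, (n' i).real univ ≤ (n i).real univ + ∑ i ∈ crit, ∫ x in {x | x - s i < -Y},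
          Real.exp (b * (x + Y)) ∂(n i)) ∧
        ∀ i x, -Y + C + 3 < x → (n' i).real (Ici x) ≤ (n i).real (Ici x) := by
  classical
  have ha1 : a ≤ 1 := by linarith
  have hb1 : b ≤ 1 := by linarith
  have hC0 : 0 < C := by linarith
  obtain ⟨c3, hc3⟩ : ∃ c3 : ℝ, c3 = min 1 (c * Real.exp (-C) / (44 * C * Real.exp (C + 2))) :=
    ⟨_, rfl⟩
  obtain ⟨c4, hc4⟩ : ∃ c4 : ℝ, c4 = min (c * Real.exp (-C) / 4)
    (c3 * (c * Real.exp (-(C + 3))) / 2) := ⟨_, rfl⟩
  have hc3p : 0 < c3 := by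
    rw [hc3]
    exact lt_min one_pos (by positivity)
  have hc31 : c3 ≤ 1 := by
    rw [hc3]
    exact min_le_left _ _
  have hc32 : 11 * C * Real.exp (C + 2) * c3 ≤ c * Real.exp (-C) / 4 := by
    have h1 : c3 ≤ c * Real.exp (-C) / (44 * C * Real.exp (C + 2)) := by
      rw [hc3]
      exact min_le_right _ _
    rw [le_div_iff₀ (by positivity)] at h1
    linarith
  have hc4p : 0 < c4 := by
    rw [hc4]
    exact lt_min (by positivity) (by positivity)
  have hc41 : c4 ≤ c * Real.exp (-C) / 4 := by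
    rw [hc4]
    exact min_le_left _ _
  have hc42 : 2 * c4 ≤ c3 * (c * Real.exp (-(C + 3))) := by
    have : c4 ≤ c3 * (c * Real.exp (-(C + 3))) / 2 := by
      rw [hc4]
      exact min_le_right _ _
    linarith
  refine ⟨C * Real.exp 2 / c4, c4, by positivity, hc4p, ?_⟩
  intro n Y hn hY hL
  obtain ⟨L, hLd⟩ : ∃ L : ℝ, L = ∑ i ∈ crit, ∫ x in {x | x - s i < -Y},
    Real.exp (b * (x + Y)) ∂(n i) := ⟨_, rfl⟩
  obtain ⟨O, hOd⟩ : ∃ O : ℝ, O = ∑ i ∈ critᶜ, ∫ x, w a b (x + Y) ∂(n i) := ⟨_, rfl⟩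
  rw [← hLd, ← hOd] at hL
  rw [← hLd]
  have hL0 : 0 ≤ L := by
    rw [hLd]
    exact Finset.sum_nonneg fun i _ => integral_nonneg fun x => (Real.exp_pos _).le
  have hO0 : 0 ≤ O := by
    rw [hOd]
    exact Finset.sum_nonneg fun i _ => integral_nonneg fun x => (w_pos a b _).le
  have hwY := w_pos a b Y
  have hkey : C * Real.exp 2 * (O + w a b Y) ≤ c4 * L := by
    have h1 := mul_le_mul_of_nonneg_left hL hc4p.le
    have h2 : c4 * (C * Real.exp 2 / c4 * (O + w a b Y)) = C * Real.exp 2 * (O + w a b Y) := by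
      field_simp
    linarith
  have hkO : C * Real.exp 2 * O ≤ c4 * L := by
    have : 0 ≤ C * Real.exp 2 * w a b Y := by positivity
    linarith
  have hkO' : C * (O + w a b Y) ≤ c4 * L := by
    have h1 : 1 ≤ Real.exp 2 := Real.one_le_exp (by norm_num)
    have h2 : C * (O + w a b Y) ≤ C * Real.exp 2 * (O + w a b Y) := by
      have h3 : 0 ≤ C * (O + w a b Y) := by positivity
      nlinarith
    linarith
  obtain ⟨R, hR⟩ : ∃ R : ι → Set ℝ, R = fun i => if i ∈ crit then {x | -Y ≤ x - s i} else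
    {x | -Y + 1 ≤ x} := ⟨_, rfl⟩
  have hRc : ∀ i ∈ crit, R i = {x | -Y ≤ x - s i} := fun i hi => by
    rw [hR]
    simp only [if_pos hi]
  have hRn : ∀ i ∈ critᶜ, R i = {x | -Y + 1 ≤ x} := fun i hi => by
    rw [hR]
    simp only [if_neg (Finset.mem_compl.1 hi)]
  have hRm : ∀ i, MeasurableSet (R i) := by
    intro i
    by_cases hi : i ∈ crit
    · rw [hRc i hi]
      exact measurableSet_le measurable_const (measurable_id.sub_const _)
    · rw [hRn i (Finset.mem_compl.2 hi)]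
      exact measurableSet_Ici
  have hq0 : 0 ≤ c3 * L := mul_nonneg hc3p.le hL0
  obtain ⟨hfin, hG⟩ := G_modify (kt := kt) hk ha hb n hn R hRm i0 hq0 (-Y + s i0 + 2)
    (-Y + s i0 + 2 + 1)
  have hint := ae_integrable_all hk ha hb n hn
  refine ⟨fun i => (n i).restrict (R i) + if i = i0 then
    dens (c3 * L) (-Y + s i0 + 2) (-Y + s i0 + 2 + 1) else 0, hfin, ?_, ?_, ?_, ?_⟩
  · filter_upwards [hG, hint] with y hy hi hlt
    rw [hy.1, hy.2]
    have hW := w_pos a b (-Y - y)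
    have hsplit := Finset.sum_add_sum_compl crit (fun i => ∫ x in (R i)ᶜ, k i (x - y) ∂(n i))
    have hoff : ∑ i ∈ critᶜ, ∫ x in (R i)ᶜ, k i (x - y) ∂(n i) ≤
        C * Real.exp 2 * w a b (-Y - y) * O := by
      rw [hOd, Finset.mul_sum]
      refine Finset.sum_le_sum fun i hic => ?_
      rw [hRn i hic]
      have := hn i
      exact cut_off ha hb ha1 hb1 (hk i) hC0.le (n i) hlt (hi i)
    have hoff2 : C * Real.exp 2 * w a b (-Y - y) * O ≤ c4 * L * w a b (-Y - y) := by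
      have := mul_le_mul_of_nonneg_right hkO hW.le
      linarith
    rcases lt_or_ge y (-Y + 1) with h | h
    · have hcr : ∑ i ∈ crit, ∫ x in (R i)ᶜ, k i (x - y) ∂(n i) ≤ 0 := by
        refine Finset.sum_nonpos fun i hic => ?_
        rw [hRc i hic]
        exact cut_crit0 (hp i hic) (n i) hlt
      have hd := cut_dens_int ha hb ha1 hb1 hc (hk i0) (hp i0 hi0) (hs i0) hC0.le h
      have hd2 := mul_le_mul_of_nonneg_left hd hq0
      have hd3 : 2 * c4 * L * w a b (-Y - y) ≤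
          c3 * L * (c * Real.exp (-(C + 3)) * w a b (-Y - y)) := by
        have := mul_le_mul_of_nonneg_right hc42 (mul_nonneg hL0 hW.le)
        linarith
      linarith
    · have hcr : ∑ i ∈ crit, ∫ x in (R i)ᶜ, k i (x - y) ∂(n i) ≤
          -(c * Real.exp (-C) * w a b (-Y - y) * L) := by
        rw [hLd, Finset.mul_sum, ← Finset.sum_neg_distrib]
        refine Finset.sum_le_sum fun i hic => ?_
        rw [hRc i hic]
        have := hn i
        exact cut_crit ha hb hab hc (hp i hic) (hs i) hC0.le (n i) h (hi i)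
      have hd := cut_dens_abs (Y := Y) (y := y) ha hb ha1 hb1 (hk i0) (hs i0) hC0.le
      have hd2 := mul_le_mul_of_nonneg_left hd hq0
      have hd3 : c3 * L * (11 * C * Real.exp (C + 2) * w a b (-Y - y)) ≤
          c * Real.exp (-C) / 4 * L * w a b (-Y - y) := by
        have := mul_le_mul_of_nonneg_right hc32 (mul_nonneg hL0 hW.le)
        linarith
      have hd4 : c4 * L * w a b (-Y - y) ≤ c * Real.exp (-C) / 4 * L * w a b (-Y - y) := by
        have := mul_le_mul_of_nonneg_right hc41 (mul_nonneg hL0 hW.le)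
        linarith
      have hd5 : 0 ≤ c * Real.exp (-C) * L * w a b (-Y - y) := by positivity
      linarith
  · filter_upwards [hG, hint] with y hy hi hlt
    rw [hy.1]
    have hW := w_pos a b (-Y - y)
    have hsplit := Finset.sum_add_sum_compl crit (fun i => ∫ x in R i, k i (x - y) ∂(n i))
    have hcr : 0 ≤ ∑ i ∈ crit, ∫ x in R i, k i (x - y) ∂(n i) := by
      refine Finset.sum_nonneg fun i hic => ?_
      rw [hRc i hic]
      exact cut_keep_crit (hp i hic) (n i) hlt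
    have hoff : -(C * w a b (-Y - y) * O) ≤ ∑ i ∈ critᶜ, ∫ x in R i, k i (x - y) ∂(n i) := by
      rw [hOd, Finset.mul_sum, ← Finset.sum_neg_distrib]
      refine Finset.sum_le_sum fun i hic => ?_
      rw [hRn i hic]
      have := hn i
      exact cut_keep_off ha hb (hk i) hC0.le (n i) hlt (hi i)
    have hkt1 : kt (-y) ≤ C * (w a b Y * w a b (-Y - y)) := by
      have h1 := hkt.up (-y)
      have h2 : w a b (-y) = w a b Y * w a b (-Y - y) := by
        rw [← w_add_same (Or.inl ⟨hY, by linarith⟩)]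
        congr 1
        ring
      rw [h2] at h1
      exact h1
    have hd := cut_dens_int ha hb ha1 hb1 hc (hk i0) (hp i0 hi0) (hs i0) hC0.le
      (show y < -Y + 1 by linarith)
    have hd2 := mul_le_mul_of_nonneg_left hd hq0
    have hd3 : 2 * c4 * L * w a b (-Y - y) ≤
        c3 * L * (c * Real.exp (-(C + 3)) * w a b (-Y - y)) := by
      have := mul_le_mul_of_nonneg_right hc42 (mul_nonneg hL0 hW.le)
      linarith
    have hd4 : C * (O + w a b Y) * w a b (-Y - y) ≤ c4 * L * w a b (-Y - y) :=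
      mul_le_mul_of_nonneg_right hkO' hW.le
    have hd5 : C * (O + w a b Y) * w a b (-Y - y) = C * w a b (-Y - y) * O +
      C * (w a b Y * w a b (-Y - y)) := by ring
    linarith
  · intro i
    have hn' := hn i
    have h1 : ((n i).restrict (R i)).real univ ≤ (n i).real univ := by
      rw [measureReal_restrict_apply MeasurableSet.univ, univ_inter]
      exact measureReal_mono (subset_univ _) (measure_ne_top _ _)
    have h2 : (dens (c3 * L) (-Y + s i0 + 2) (-Y + s i0 + 2 + 1)).real univ ≤ L := by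
      rw [dens_real_univ hq0 (by linarith)]
      nlinarith
    have hdf := dens_finite (c3 * L) (-Y + s i0 + 2) (-Y + s i0 + 2 + 1)
    by_cases hii : i = i0
    · simp only [if_pos hii]
      rw [measureReal_add_apply]
      linarith
    · simp only [if_neg hii, add_zero]
      linarith
  · intro i x hx
    have hn' := hn i
    have hdf := dens_finite (c3 * L) (-Y + s i0 + 2) (-Y + s i0 + 2 + 1)
    have h1 : ((n i).restrict (R i)).real (Ici x) ≤ (n i).real (Ici x) := by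
      rw [measureReal_restrict_apply measurableSet_Ici]
      exact measureReal_mono inter_subset_left (measure_ne_top _ _)
    have h2 : (dens (c3 * L) (-Y + s i0 + 2) (-Y + s i0 + 2 + 1)).real (Ici x) = 0 := by
      rw [measureReal_def, dens_apply_eq_zero, ENNReal.toReal_zero]
      rw [Set.disjoint_left]
      intro z hz hz2
      have h3 : x ≤ z := hz
      have h4 := hz2.2
      have h5 := (abs_le.1 (hs i0)).2
      linarith
    by_cases hii : i = i0
    · simp only [if_pos hii]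
      rw [measureReal_add_apply, h2, add_zero]
      exact h1
    · simp only [if_neg hii, add_zero]
      exact h1

end INDB
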