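import Pool.Agent.INDB.RDefs

/-!
# INDB, module R2a: no ray of kind `P`: the inequality `η ≤ Dn + K loc`

PROOF. No kind `P`. Let `I` = indices of kind `L` or `M` (pattern `(-,+)`); the other indices have kind `N`, `k_i ≤ 0`. `|A_i| ≤ 2 C` (`asy` at `u = -1`: `|A_i| e^{-b} ≤ C e^{-b} + C e^{-(b+1)}`; note `|k_i(-1)| ≤ C w(-1)`), and `|At| ≤ 2 C`.
For a.e. `y` with `0 < y < T`: `e^{b y} G n y ≤ ∑_I ∫ e^{b y} k_i(x-y) dn_i - e^{by} kt(-y)` (kind `N` terms are `≤ 0`). For `x ≤ y - 1`: `e^{by} k_i(x-y) ≤ A_i e^{b x} + C e^{b x - (y - x)}` (`asy`). For `x > y - 1`: `e^{by} k_i(x-y) ≤ C e^{by} w(x-y) ≤ C e · e^{bx - |x-y|}`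
(for `x ≥ y`: `e^{by - a(x-y)} = e^{bx-(x-y)}`), and for `y-1 < x < y` also `A_i e^{bx} ≥ -2C e · e^{bx-|x-y|}`. So `e^{by} k_i(x-y) ≤ A_i e^{bx} 1_{x<y} + 9 C e^{bx-|x-y|}`. For `y ≥ 1`: `-e^{by} kt(-y) ≤ -At + C e^{-y}`; for `0 < y < 1`: needs nothing because we only use `y > 1`.
So for a.e. `y ∈ (1, T)`: `η = η e^{by} w(-y) ≤ Dn y + 9 C loc y`. For an integer (or real) `j ≥ 1` with `j + 1 ≤ T` choose such a `y ∈ (j, j+1)`: `Dn y ≤ Dn j` (`A_i < 0`), `loc y ≤ e loc j` (`e^{-|x-y|} ≤ e · e^{-|x-j|}`, `e^{-y} ≤ e^{-j}`). All functions are bounded: `e^{bx-|x-y|} ≤ e^{b y}`, integrable.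
-/

open MeasureTheory Set Filter Topology

namespace INDB

private lemma aA {ι : Type} [Fintype ι] (S : Sys ι) {i : ι}
    (hi : S.kind i = Kind.L ∨ S.kind i = Kind.M) : |S.A i| ≤ 2 * S.C := by
  have h1 := abs_le.1 (S.asy i hi (-1) le_rfl)
  have h2 := abs_le.1 ((S.hk i).abs (-1) (by norm_num))
  rw [w_nonpos_eq (by norm_num)] at h2
  have hC : 0 < S.C := by linarith [S.hC]
  have e0 : 0 < Real.exp (S.b * -1) := Real.exp_pos _
  have e1 : Real.exp ((S.b + 1) * -1) ≤ Real.exp (S.b * -1) := by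
    rw [Real.exp_le_exp]
    linarith
  have e2 : S.C * Real.exp ((S.b + 1) * -1) ≤ S.C * Real.exp (S.b * -1) :=
    mul_le_mul_of_nonneg_left e1 hC.le
  rw [abs_le]
  constructor
  · refine le_of_mul_le_mul_right ?_ e0
    linarith [h1.1, h1.2, h2.1, h2.2]
  · refine le_of_mul_le_mul_right ?_ e0
    linarith [h1.1, h1.2, h2.1, h2.2]

private lemma apt {ι : Type} [Fintype ι] (S : Sys ι) {i : ι}
    (hi : S.kind i = Kind.L ∨ S.kind i = Kind.M) (x y : ℝ) :
    Real.exp (S.b * y) * S.k i (x - y) ≤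
      S.A i * (Iio y).indicator (fun x => Real.exp (S.b * x)) x +
        9 * S.C * Real.exp (S.b * x - |x - y|) := by
  have hC : 0 < S.C := by linarith [S.hC]
  have hab := S.hab
  have hE : 0 < Real.exp (S.b * x - |x - y|) := Real.exp_pos _
  have hey : 0 < Real.exp (S.b * y) := Real.exp_pos _
  have hCE : 0 < S.C * Real.exp (S.b * x - |x - y|) := mul_pos hC hE
  rcases lt_or_ge x y with hxy | hxy
  · rw [Set.indicator_of_mem (show x ∈ Iio y from hxy)]
    have hab' : |x - y| = -(x - y) := abs_of_nonpos (by linarith)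
    have e1 : Real.exp (S.b * y) * Real.exp (S.b * (x - y)) = Real.exp (S.b * x) := by
      rw [← Real.exp_add]
      congr 1
      ring
    rcases le_or_gt x (y - 1) with h | h
    · have h1 := (abs_le.1 (S.asy i hi (x - y) (by linarith))).2
      have e2 : Real.exp (S.b * y) * Real.exp ((S.b + 1) * (x - y)) =
          Real.exp (S.b * x - |x - y|) := by
        rw [← Real.exp_add, hab']
        congr 1
        ring
      have h2 : Real.exp (S.b * y) * S.k i (x - y) ≤ Real.exp (S.b * y) *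
          (S.A i * Real.exp (S.b * (x - y)) + S.C * Real.exp ((S.b + 1) * (x - y))) :=
        mul_le_mul_of_nonneg_left (by linarith) hey.le
      have e3 : Real.exp (S.b * y) *
          (S.A i * Real.exp (S.b * (x - y)) + S.C * Real.exp ((S.b + 1) * (x - y))) =
          S.A i * Real.exp (S.b * x) + S.C * Real.exp (S.b * x - |x - y|) := by
        rw [← e1, ← e2]
        ring
      rw [e3] at h2
      linarith
    · have h1 := (S.hk i).up (x - y)
      rw [w_nonpos_eq (by linarith)] at h1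
      have h2 : Real.exp (S.b * y) * S.k i (x - y) ≤ Real.exp (S.b * y) *
          (S.C * Real.exp (S.b * (x - y))) := mul_le_mul_of_nonneg_left h1 hey.le
      have e3 : Real.exp (S.b * y) * (S.C * Real.exp (S.b * (x - y))) =
          S.C * Real.exp (S.b * x) := by
        rw [← e1]
        ring
      rw [e3] at h2
      have h3 : Real.exp (S.b * x) ≤ 3 * Real.exp (S.b * x - |x - y|) := by
        have h4 : Real.exp (S.b * x) ≤ Real.exp 1 * Real.exp (S.b * x - |x - y|) := by
          rw [← Real.exp_add, Real.exp_le_exp, hab']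
          linarith
        have h5 : Real.exp 1 * Real.exp (S.b * x - |x - y|) ≤
            3 * Real.exp (S.b * x - |x - y|) :=
          mul_le_mul_of_nonneg_right (by linarith [Real.exp_one_lt_d9]) hE.le
        linarith
      have h6 : -(2 * S.C) * Real.exp (S.b * x) ≤ S.A i * Real.exp (S.b * x) :=
        mul_le_mul_of_nonneg_right (abs_le.1 (aA S hi)).1 (Real.exp_pos _).le
      have h7 : 3 * S.C * Real.exp (S.b * x) ≤ 3 * S.C * (3 * Real.exp (S.b * x - |x - y|)) :=
        mul_le_mul_of_nonneg_left h3 (by positivity)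
      linarith
  · rw [Set.indicator_of_notMem (show x ∉ Iio y from not_lt.2 hxy), mul_zero, zero_add]
    have h1 := (S.hk i).up (x - y)
    rw [w_nonneg_eq (by linarith)] at h1
    have h2 : Real.exp (S.b * y) * S.k i (x - y) ≤ Real.exp (S.b * y) *
        (S.C * Real.exp (-(S.a * (x - y)))) := mul_le_mul_of_nonneg_left h1 hey.le
    have e3 : Real.exp (S.b * y) * (S.C * Real.exp (-(S.a * (x - y)))) =
        S.C * Real.exp (S.b * x - |x - y|) := by
      rw [abs_of_nonneg (by linarith : 0 ≤ x - y)]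
      have e4 : S.b * x - (x - y) = S.b * y + -(S.a * (x - y)) := by
        have : S.a = 1 - S.b := by linarith
        rw [this]
        ring
      rw [e4, Real.exp_add]
      ring
    rw [e3] at h2
    linarith

private lemma aexp_le {b x y : ℝ} (hb : 0 ≤ b) (hb1 : b ≤ 1) :
    Real.exp (b * x - |x - y|) ≤ Real.exp (b * y) := by
  rw [Real.exp_le_exp]
  rcases le_total x y with h | h
  · rw [abs_of_nonpos (by linarith)]
    have : b * (x - y) ≤ 0 := mul_nonpos_of_nonneg_of_nonpos hb (by linarith)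
    linarith
  · rw [abs_of_nonneg (by linarith)]
    have : (b - 1) * (x - y) ≤ 0 := mul_nonpos_of_nonpos_of_nonneg (by linarith) (by linarith)
    linarith

private lemma aint {b y : ℝ} (hb : 0 ≤ b) (hb1 : b ≤ 1) (μ : Measure ℝ) [IsFiniteMeasure μ] :
    Integrable (fun x => Real.exp (b * x - |x - y|)) μ := by
  refine Integrable.of_bound (C := Real.exp (b * y)) (by fun_prop) ?_
  refine Eventually.of_forall fun x => ?_
  rw [Real.norm_eq_abs, abs_of_pos (Real.exp_pos _)]
  exact aexp_le hb hb1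

private lemma aintOn {b y : ℝ} (hb : 0 ≤ b) (μ : Measure ℝ) [IsFiniteMeasure μ] :
    IntegrableOn (fun x => Real.exp (b * x)) (Iio y) μ := by
  refine Integrable.of_bound (C := Real.exp (b * y)) (by fun_prop) ?_
  refine (ae_restrict_mem measurableSet_Iio).mono fun x hx => ?_
  rw [Real.norm_eq_abs, abs_of_pos (Real.exp_pos _), Real.exp_le_exp]
  exact mul_le_mul_of_nonneg_left (le_of_lt hx) hb

lemma Sys.loc_pos {ι : Type} [Fintype ι] (S : Sys ι) (n : ι → Measure ℝ) (y : ℝ) :
    0 < S.loc n y := by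
  unfold Sys.loc
  refine add_pos_of_nonneg_of_pos (Finset.sum_nonneg fun i _ => ?_) (Real.exp_pos _)
  split_ifs
  · exact integral_nonneg fun x => (Real.exp_pos _).le
  · exact le_rfl

lemma Sys.nu_nonneg {ι : Type} [Fintype ι] (S : Sys ι) (n : ι → Measure ℝ) (y z : ℝ) :
    0 ≤ S.nu n y z := by
  unfold Sys.nu
  refine Finset.sum_nonneg fun i _ => ?_
  split_ifs
  · exact integral_nonneg fun x => (Real.exp_pos _).le
  · exact le_rfl

theorem r2a {ι : Type} [Fintype ι] (S : Sys ι) (hP : ∀ i, S.kind i ≠ Kind.P) (n : ι → Measure ℝ)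
    (hn : ∀ i, IsFiniteMeasure (n i)) {η T : ℝ} (hη : 0 ≤ η)
    (hG : ∀ᵐ y : ℝ, y < T → η * w S.a S.b (-y) ≤ G S.k S.kt n y) {j : ℝ} (hj : 1 ≤ j)
    (hjT : j + 1 ≤ T) : η ≤ S.Dn n j + 25 * S.C * S.loc n j := by
  have hC : 0 < S.C := by linarith [S.hC]
  have hb0 : 0 ≤ S.b := S.hb.le
  have hb1 : S.b ≤ 1 := by linarith [S.hab, S.ha]
  have hne : NeBot (ae (volume.restrict (Ioo j (j + 1)))) := by
    rw [ae_neBot, Ne, Measure.restrict_eq_zero, Real.volume_Ioo]
    simp
  obtain ⟨y, ⟨hy1, hy2⟩, hy3⟩ := ((ae_restrict_of_ae (s := Ioo j (j + 1))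
    (hG.and (ae_integrable_all S.hk S.ha S.hb n hn))).and
    (ae_restrict_mem measurableSet_Ioo)).exists
  have hyj : j < y := hy3.1
  have hyj1 : y < j + 1 := hy3.2
  have hyT : y < T := by linarith
  have hGy := hy1 hyT
  have hey : 0 < Real.exp (S.b * y) := Real.exp_pos _
  -- the terms
  have hterm : ∀ i, Real.exp (S.b * y) * ∫ x, S.k i (x - y) ∂(n i) ≤
      (if S.kind i = Kind.L ∨ S.kind i = Kind.M then
        S.A i * ∫ x in Iio y, Real.exp (S.b * x) ∂(n i) else 0) +
      9 * S.C * (if S.kind i = Kind.L ∨ S.kind i = Kind.M then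
        ∫ x, Real.exp (S.b * x - |x - y|) ∂(n i) else 0) := by
    intro i
    have hfi := hn i
    by_cases hi : S.kind i = Kind.L ∨ S.kind i = Kind.M
    · rw [if_pos hi, if_pos hi, ← integral_const_mul, ← integral_indicator measurableSet_Iio,
        ← integral_const_mul, ← integral_const_mul, ← integral_add]
      · refine integral_mono ((hy2 i).const_mul _) ?_ fun x => apt S hi x y
        exact (((aintOn hb0 (n i)).integrable_indicator measurableSet_Iio).const_mul _).add
          ((aint hb0 hb1 (n i)).const_mul _)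
      · exact ((aintOn hb0 (n i)).integrable_indicator measurableSet_Iio).const_mul _
      · exact (aint hb0 hb1 (n i)).const_mul _
    · rw [if_neg hi, if_neg hi, mul_zero, add_zero]
      have hN : S.kind i = Kind.N := by
        have h1 := hP i
        cases h : S.kind i with
        | L => exact absurd (Or.inl h) hi
        | M => exact absurd (Or.inr h) hi
        | P => exact absurd h h1
        | N => rfl
      exact mul_nonpos_of_nonneg_of_nonpos hey.le
        (integral_nonpos fun x => S.patN i hN _)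
  have hsum : Real.exp (S.b * y) * ∑ i, ∫ x, S.k i (x - y) ∂(n i) ≤
      (∑ i, if S.kind i = Kind.L ∨ S.kind i = Kind.M then
        S.A i * ∫ x in Iio y, Real.exp (S.b * x) ∂(n i) else 0) +
      9 * S.C * ∑ i, (if S.kind i = Kind.L ∨ S.kind i = Kind.M then
        ∫ x, Real.exp (S.b * x - |x - y|) ∂(n i) else 0) := by
    rw [Finset.mul_sum, Finset.mul_sum, ← Finset.sum_add_distrib]
    exact Finset.sum_le_sum fun i _ => hterm i
  have hkt : -(Real.exp (S.b * y) * S.kt (-y)) ≤ -S.At + S.C * Real.exp (-y) := by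
    have h1 := (abs_le.1 (S.asyt (-y) (by linarith))).1
    have h2 : Real.exp (S.b * y) * (S.At * Real.exp (S.b * -y) -
        S.C * Real.exp ((S.b + 1) * -y)) ≤ Real.exp (S.b * y) * S.kt (-y) :=
      mul_le_mul_of_nonneg_left (by linarith) hey.le
    have e1 : Real.exp (S.b * y) * Real.exp (S.b * -y) = 1 := by
      rw [← Real.exp_add]
      have : S.b * y + S.b * -y = 0 := by ring
      rw [this, Real.exp_zero]
    have e2 : Real.exp (S.b * y) * Real.exp ((S.b + 1) * -y) = Real.exp (-y) := by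
      rw [← Real.exp_add]
      congr 1
      ring
    have e3 : Real.exp (S.b * y) * (S.At * Real.exp (S.b * -y) -
        S.C * Real.exp ((S.b + 1) * -y)) =
        S.At * (Real.exp (S.b * y) * Real.exp (S.b * -y)) -
        S.C * (Real.exp (S.b * y) * Real.exp ((S.b + 1) * -y)) := by ring
    rw [e3, e1, e2, mul_one] at h2
    linarith
  have h1 : η ≤ S.Dn n y + 9 * S.C * S.loc n y := by
    rw [w_nonpos_eq (by linarith : -y ≤ 0)] at hGy
    have h2 : Real.exp (S.b * y) * (η * Real.exp (S.b * -y)) ≤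
        Real.exp (S.b * y) * G S.k S.kt n y := mul_le_mul_of_nonneg_left hGy hey.le
    have e1 : Real.exp (S.b * y) * (η * Real.exp (S.b * -y)) = η := by
      have e2 : Real.exp (S.b * y) * (η * Real.exp (S.b * -y)) =
          η * (Real.exp (S.b * y) * Real.exp (S.b * -y)) := by ring
      rw [e2, ← Real.exp_add]
      have : S.b * y + S.b * -y = 0 := by ring
      rw [this, Real.exp_zero, mul_one]
    rw [e1] at h2
    unfold G at h2
    rw [mul_sub] at h2
    unfold Sys.Dn Sys.loc
    have h3 : S.C * Real.exp (-y) ≤ 9 * S.C * Real.exp (-y) := by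
      have : 0 < S.C * Real.exp (-y) := mul_pos hC (Real.exp_pos _)
      linarith
    rw [mul_add]
    linarith
  have h2 : S.Dn n y ≤ S.Dn n j := by
    unfold Sys.Dn
    refine sub_le_sub_right (Finset.sum_le_sum fun i _ => ?_) _
    by_cases hi : S.kind i = Kind.L ∨ S.kind i = Kind.M
    · rw [if_pos hi, if_pos hi]
      have hfi := hn i
      refine mul_le_mul_of_nonpos_left ?_ (S.asyA i hi).le
      exact setIntegral_mono_set (aintOn hb0 (n i))
        (Eventually.of_forall fun x => (Real.exp_pos _).le)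
        (LE.le.eventuallyLE (Iio_subset_Iio hyj.le))
    · rw [if_neg hi, if_neg hi]
  have h3 : S.loc n y ≤ Real.exp 1 * S.loc n j := by
    unfold Sys.loc
    rw [mul_add, Finset.mul_sum]
    refine add_le_add (Finset.sum_le_sum fun i _ => ?_) ?_
    · by_cases hi : S.kind i = Kind.L ∨ S.kind i = Kind.M
      · rw [if_pos hi, if_pos hi]
        have hfi := hn i
        rw [← integral_const_mul]
        refine integral_mono (aint hb0 hb1 (n i)) ((aint hb0 hb1 (n i)).const_mul _) fun x => ?_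
        change Real.exp (S.b * x - |x - y|) ≤ Real.exp 1 * Real.exp (S.b * x - |x - j|)
        rw [← Real.exp_add, Real.exp_le_exp]
        have h4 : |x - j| ≤ |x - y| + |y - j| := abs_sub_le x y j
        have h5 : |y - j| ≤ 1 := by
          rw [abs_of_pos (by linarith)]
          linarith
        linarith
      · rw [if_neg hi, if_neg hi, mul_zero]
    · rw [← Real.exp_add, Real.exp_le_exp]
      linarith
  have h4 : 9 * S.C * S.loc n y ≤ 25 * S.C * S.loc n j := by
    have h5 : 9 * S.C * S.loc n y ≤ 9 * S.C * (Real.exp 1 * S.loc n j) :=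
      mul_le_mul_of_nonneg_left h3 (by positivity)
    have h6 : 9 * Real.exp 1 ≤ 25 := by linarith [Real.exp_one_lt_d9]
    have h7 : 9 * Real.exp 1 * (S.C * S.loc n j) ≤ 25 * (S.C * S.loc n j) :=
      mul_le_mul_of_nonneg_right h6 (mul_nonneg hC.le (S.loc_pos n j).le)
    linarith
  linarith

/-- `Dn` decreases by at least `c_A nu` -/
theorem dn_diff {ι : Type} [Fintype ι] (S : Sys ι) :
    ∃ cA : ℝ, 0 < cA ∧ ∀ (n : ι → Measure ℝ), (∀ i, IsFiniteMeasure (n i)) → ∀ y z : ℝ, y ≤ z →
      cA * S.nu n y z ≤ S.Dn n y - S.Dn n z := by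
  classical
  have hb0 : 0 ≤ S.b := S.hb.le
  obtain ⟨i₀, hi₀, hmin⟩ := Finset.exists_min_image
    (Finset.univ.filter fun i => S.kind i = Kind.L ∨ S.kind i = Kind.M) (fun i => -S.A i)
    ⟨S.l0, Finset.mem_filter.2 ⟨Finset.mem_univ _, Or.inl S.hl0⟩⟩
  have hi₀' := (Finset.mem_filter.1 hi₀).2
  refine ⟨-S.A i₀, by linarith [S.asyA i₀ hi₀'], fun n hn y z hyz => ?_⟩
  unfold Sys.nu Sys.Dn
  rw [sub_sub_sub_cancel_right, ← Finset.sum_sub_distrib, Finset.mul_sum]
  refine Finset.sum_le_sum fun i _ => ?_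
  by_cases hi : S.kind i = Kind.L ∨ S.kind i = Kind.M
  · rw [if_pos hi, if_pos hi, if_pos hi]
    have hfi := hn i
    have h1 : ∫ x in Iio z, Real.exp (S.b * x) ∂(n i) =
        ∫ x in Iio y, Real.exp (S.b * x) ∂(n i) + ∫ x in Ico y z, Real.exp (S.b * x) ∂(n i) := by
      rw [← Iio_union_Ico_eq_Iio hyz]
      refine setIntegral_union ?_ measurableSet_Ico (aintOn hb0 (n i)) ?_
      · rw [Set.disjoint_left]
        intro x hx hx'
        exact absurd hx (not_lt.2 hx'.1)
      · exact (aintOn (y := z) hb0 (n i)).mono_set fun x hx => hx.2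
    have h2 : -S.A i₀ ≤ -S.A i := hmin i (Finset.mem_filter.2 ⟨Finset.mem_univ _, hi⟩)
    have h3 : 0 ≤ ∫ x in Ico y z, Real.exp (S.b * x) ∂(n i) :=
      integral_nonneg fun x => (Real.exp_pos _).le
    have h4 := mul_le_mul_of_nonneg_right h2 h3
    rw [h1]
    linarith
  · rw [if_neg hi, if_neg hi, if_neg hi, mul_zero, sub_zero]

end INDB
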