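import Pool.Agent.INDB.RDefs

/-!
# INDB, module R2b: sums and bounds of `loc`

PROOF of `loc_sum`. `∑_{j ∈ [i,k]} e^{-|x-j|}` is `≤ 4` for all `x` (two geometric series, ratio `1/e`), `≤ 2 e^{-(i-x)}` for `x < i`, `≤ 2 e^{-(x-k)}` for `x ≥ k`, and `∑_{j ≥ i} e^{-j} ≤ 2 e^{-i}`. Split every integral over `x < i`, `[i,k)`, `x ≥ k`.
PROOF of `loc_le`. `j ∈ [0, T]`. Let `Q = e^{εT}`. For every `i`: `∫_{x<0} e^{bx-|x-j|} dn_i ≤ Q`; for `x ∈ [l, l+1)`, `0 ≤ l ≤ T`: `e^{bx} ≤ e · e^{bl}`, `n_i([l,l+1)) ≤ Q e^{-σ l}`: the sum is `≤ e Q ∑_{0≤l≤T} e^{(b-σ) l} ≤ e (T+1) Q e^{(b-σ)T}`; for `x ≥ T`: `e^{bx-(x-j)} ≤ e^{bT-(T-j)} ≤ e^{bT}` (`b ≤ 1`) and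
`n_i([T,∞)) ≤ Q e^{-σT}`. The last term `e^{-j} ≤ 1`. Total `≤ (card ι) (e (T+1) + 2) e^{(b-σ+ε) T} + 1`.
-/

open MeasureTheory Set Filter Topology

namespace INDB

private lemma r2_two_le_exp : (2 : ℝ) ≤ Real.exp 1 := by
  have h := Real.add_one_le_exp (1 : ℝ)
  linarith

private lemma r2_up (i k : ℕ) :
    ∑ j ∈ Finset.Ico i k, Real.exp (j : ℝ) ≤ 2 * Real.exp ((k : ℝ) - 1) := by
  induction k with
  | zero =>
    rw [Finset.Ico_eq_empty (by omega), Finset.sum_empty]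
    positivity
  | succ k ih =>
    by_cases h : i ≤ k
    · rw [Finset.sum_Ico_succ_top h]
      have h1 : Real.exp (k : ℝ) = Real.exp 1 * Real.exp ((k : ℝ) - 1) := by
        rw [← Real.exp_add]
        congr 1
        ring
      have h2 : (((k + 1 : ℕ) : ℝ) - 1) = (k : ℝ) := by push_cast; ring
      have h3 := mul_le_mul_of_nonneg_right r2_two_le_exp (Real.exp_pos ((k : ℝ) - 1)).le
      rw [h2]
      linarith
    · rw [Finset.Ico_eq_empty (by omega), Finset.sum_empty]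
      positivity

private lemma r2_dn {i k : ℕ} (hik : i ≤ k) :
    ∑ j ∈ Finset.Ico i k, Real.exp (-(j : ℝ)) ≤ 2 * (Real.exp (-(i : ℝ)) - Real.exp (-(k : ℝ))) := by
  induction k, hik using Nat.le_induction with
  | base => simp
  | succ k hk ih =>
    rw [Finset.sum_Ico_succ_top hk]
    have h1 : Real.exp (-(k : ℝ)) = Real.exp 1 * Real.exp (-((k + 1 : ℕ) : ℝ)) := by
      rw [← Real.exp_add]
      congr 1
      push_cast
      ring
    have h3 := mul_le_mul_of_nonneg_right r2_two_le_exp (Real.exp_pos (-((k + 1 : ℕ) : ℝ))).le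
    linarith

private lemma r2_dn' {i k : ℕ} (hik : i ≤ k) :
    ∑ j ∈ Finset.Ico i k, Real.exp (-(j : ℝ)) ≤ 2 * Real.exp (-(i : ℝ)) := by
  have h1 := r2_dn hik
  have h2 := Real.exp_pos (-(k : ℝ))
  linarith

/-- terms to the left of `x` -/
private lemma r2_left (i k : ℕ) {x : ℝ} (hx : ((k : ℝ) - 1) ≤ x) :
    ∑ j ∈ Finset.Ico i k, Real.exp (-|x - j|) ≤ 2 * Real.exp ((k : ℝ) - 1 - x) := by
  have h1 : ∀ j ∈ Finset.Ico i k, Real.exp (-|x - j|) = Real.exp (-x) * Real.exp (j : ℝ) := by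
    intro j hj
    have h2 : (j : ℝ) + 1 ≤ k := by exact_mod_cast (Finset.mem_Ico.1 hj).2
    rw [abs_of_nonneg (by linarith), ← Real.exp_add]
    congr 1
    ring
  rw [Finset.sum_congr rfl h1, ← Finset.mul_sum]
  have h3 := mul_le_mul_of_nonneg_left (r2_up i k) (Real.exp_pos (-x)).le
  refine h3.trans (le_of_eq ?_)
  have h4 : Real.exp ((k : ℝ) - 1 - x) = Real.exp (-x) * Real.exp ((k : ℝ) - 1) := by
    rw [← Real.exp_add]
    congr 1
    ring
  rw [h4]
  ring

/-- terms to the right of `x` -/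
private lemma r2_right {i k : ℕ} (hik : i ≤ k) {x : ℝ} (hx : x ≤ (i : ℝ)) :
    ∑ j ∈ Finset.Ico i k, Real.exp (-|x - j|) ≤ 2 * Real.exp (x - i) := by
  have h1 : ∀ j ∈ Finset.Ico i k, Real.exp (-|x - j|) = Real.exp x * Real.exp (-(j : ℝ)) := by
    intro j hj
    have h2 : (i : ℝ) ≤ j := by exact_mod_cast (Finset.mem_Ico.1 hj).1
    rw [abs_of_nonpos (by linarith), ← Real.exp_add]
    congr 1
    ring
  rw [Finset.sum_congr rfl h1, ← Finset.mul_sum]
  have h3 := mul_le_mul_of_nonneg_left (r2_dn' hik) (Real.exp_pos x).le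
  refine h3.trans (le_of_eq ?_)
  have h4 : Real.exp (x - i) = Real.exp x * Real.exp (-(i : ℝ)) := by
    rw [← Real.exp_add]
    congr 1
  rw [h4]
  ring

private lemma r2_pt {i k : ℕ} (hik : i ≤ k) (x : ℝ) :
    ∑ j ∈ Finset.Icc i k, Real.exp (-|x - j|) ≤
      4 * ((Ico (i : ℝ) k).indicator (fun _ => (1 : ℝ)) x + Real.exp (-|x - i|) +
        Real.exp (-|x - k|)) := by
  have hI : Finset.Icc i k = Finset.Ico i (k + 1) := by
    ext j
    simp only [Finset.mem_Icc, Finset.mem_Ico]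
    omega
  have h0 : 0 ≤ (Ico (i : ℝ) k).indicator (fun _ => (1 : ℝ)) x :=
    indicator_nonneg (fun _ _ => zero_le_one) x
  have hpi := Real.exp_pos (-|x - i|)
  have hpk := Real.exp_pos (-|x - k|)
  rw [hI]
  rcases lt_or_ge x (i : ℝ) with h | h
  · have h1 := r2_right (show i ≤ k + 1 by omega) h.le
    have h2 : x - i = -|x - i| := by
      rw [abs_of_nonpos (by linarith)]
      ring
    rw [← h2] at hpi ⊢
    linarith
  · rcases lt_or_ge x (k : ℝ) with h' | h'
    · have hx0 : 0 ≤ x := le_trans (Nat.cast_nonneg i) h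
      have hf1 := Nat.floor_le hx0
      have hf2 := Nat.lt_floor_add_one x
      have hi : i ≤ ⌊x⌋₊ := Nat.le_floor h
      have hk : ⌊x⌋₊ < k := (Nat.floor_lt hx0).2 h'
      rw [indicator_of_mem (show x ∈ Ico (i : ℝ) k from ⟨h, h'⟩)]
      rw [← Finset.sum_Ico_consecutive _ (show i ≤ ⌊x⌋₊ + 1 by omega)
        (show ⌊x⌋₊ + 1 ≤ k + 1 by omega)]
      have e1 := r2_left i (⌊x⌋₊ + 1) (x := x) (by push_cast; linarith)
      have e2 := r2_right (show ⌊x⌋₊ + 1 ≤ k + 1 by omega) (x := x) (by push_cast; linarith)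
      have e3 : Real.exp (((⌊x⌋₊ + 1 : ℕ) : ℝ) - 1 - x) ≤ 1 :=
        Real.exp_le_one_iff.2 (by push_cast; linarith)
      have e4 : Real.exp (x - ((⌊x⌋₊ + 1 : ℕ) : ℝ)) ≤ 1 :=
        Real.exp_le_one_iff.2 (by push_cast; linarith)
      linarith
    · have h1 := r2_left i (k + 1) (x := x) (by push_cast; linarith)
      have h2 : ((k + 1 : ℕ) : ℝ) - 1 - x = -|x - k| := by
        rw [abs_of_nonneg (by linarith)]
        push_cast
        ring
      rw [h2] at h1
      linarith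

private lemma r2_exp_le {b x j : ℝ} (hb : 0 ≤ b) (hb1 : b ≤ 1) :
    Real.exp (b * x - |x - j|) ≤ Real.exp (b * j) := by
  refine Real.exp_le_exp.2 ?_
  have h1 : x - j ≤ |x - j| := le_abs_self _
  have h2 : 0 ≤ |x - j| := abs_nonneg _
  nlinarith

private lemma r2_int {b : ℝ} (hb : 0 ≤ b) (hb1 : b ≤ 1) (μ : Measure ℝ) [IsFiniteMeasure μ]
    (j : ℝ) : Integrable (fun x => Real.exp (b * x - |x - j|)) μ := by
  refine Integrable.mono' (integrable_const (Real.exp (b * j)))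
    (Continuous.aestronglyMeasurable (by fun_prop)) (Eventually.of_forall fun x => ?_)
  rw [Real.norm_eq_abs, abs_of_pos (Real.exp_pos _)]
  exact r2_exp_le hb hb1

private lemma r2_int_Ico {b : ℝ} (hb : 0 ≤ b) (μ : Measure ℝ) [IsFiniteMeasure μ]
    (y z : ℝ) : Integrable ((Ico y z).indicator fun x => Real.exp (b * x)) μ := by
  refine Integrable.mono' (integrable_const (Real.exp (b * z)))
    ((Continuous.measurable (by fun_prop)).indicator measurableSet_Ico).aestronglyMeasurable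
    (Eventually.of_forall fun x => ?_)
  by_cases h : x ∈ Ico y z
  · rw [indicator_of_mem h, Real.norm_eq_abs, abs_of_pos (Real.exp_pos _)]
    exact Real.exp_le_exp.2 (mul_le_mul_of_nonneg_left h.2.le hb)
  · rw [indicator_of_notMem h, norm_zero]
    exact (Real.exp_pos _).le

private lemma r2_one {b : ℝ} (hb : 0 ≤ b) (hb1 : b ≤ 1) (μ : Measure ℝ) [IsFiniteMeasure μ]
    {i k : ℕ} (hik : i ≤ k) :
    ∑ j ∈ Finset.Icc i k, ∫ x, Real.exp (b * x - |x - j|) ∂μ ≤
      4 * ((∫ x in Ico (i : ℝ) k, Real.exp (b * x) ∂μ) + (∫ x, Real.exp (b * x - |x - i|) ∂μ) +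
        ∫ x, Real.exp (b * x - |x - k|) ∂μ) := by
  have hfs : ∫ x, ∑ j ∈ Finset.Icc i k, Real.exp (b * x - |x - (j : ℝ)|) ∂μ =
      ∑ j ∈ Finset.Icc i k, ∫ x, Real.exp (b * x - |x - (j : ℝ)|) ∂μ :=
    integral_finsetSum _ fun j _ => r2_int hb hb1 μ (j : ℝ)
  have hI2 : Integrable (fun x => (Ico (i : ℝ) k).indicator (fun x => Real.exp (b * x)) x +
      Real.exp (b * x - |x - (i : ℝ)|)) μ := (r2_int_Ico hb μ i k).add (r2_int hb hb1 μ i)
  rw [← integral_indicator measurableSet_Ico, ← hfs,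
    ← integral_add (r2_int_Ico hb μ i k) (r2_int hb hb1 μ i),
    ← integral_add hI2 (r2_int hb hb1 μ k), ← integral_const_mul]
  refine integral_mono (integrable_finsetSum _ fun j _ => r2_int hb hb1 μ j)
    ((hI2.add (r2_int hb hb1 μ k)).const_mul 4)
    fun x => ?_
  have h1 := mul_le_mul_of_nonneg_left (r2_pt hik x) (Real.exp_pos (b * x)).le
  have h2 : ∀ t : ℝ, Real.exp (b * x - |x - t|) = Real.exp (b * x) * Real.exp (-|x - t|) := by
    intro t
    rw [← Real.exp_add]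
    congr 1
  have h3 : (Ico (i : ℝ) k).indicator (fun x => Real.exp (b * x)) x =
      Real.exp (b * x) * (Ico (i : ℝ) k).indicator (fun _ => (1 : ℝ)) x := by
    by_cases h : x ∈ Ico (i : ℝ) k
    · rw [indicator_of_mem h, indicator_of_mem h, mul_one]
    · rw [indicator_of_notMem h, indicator_of_notMem h, mul_zero]
  show ∑ j ∈ Finset.Icc i k, Real.exp (b * x - |x - j|) ≤
    4 * ((Ico (i : ℝ) k).indicator (fun x => Real.exp (b * x)) x + Real.exp (b * x - |x - i|) +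
      Real.exp (b * x - |x - k|))
  have h4 : ∑ j ∈ Finset.Icc i k, Real.exp (b * x - |x - (j : ℝ)|) =
      Real.exp (b * x) * ∑ j ∈ Finset.Icc i k, Real.exp (-|x - (j : ℝ)|) := by
    rw [Finset.mul_sum]
    exact Finset.sum_congr rfl fun j _ => h2 (j : ℝ)
  rw [h3, h2, h2, h4]
  refine h1.trans (le_of_eq ?_)
  ring

theorem loc_sum {ι : Type} [Fintype ι] (S : Sys ι) (n : ι → Measure ℝ)
    (hn : ∀ i, IsFiniteMeasure (n i)) {i k : ℕ} (hik : i ≤ k) :
    ∑ j ∈ Finset.Icc i k, S.loc n j ≤ 4 * (S.nu n i k + S.loc n i + S.loc n k) := by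
  have hb0 : 0 ≤ S.b := S.hb.le
  have hb1 : S.b ≤ 1 := by
    have := S.hab
    have := S.ha
    linarith
  unfold Sys.loc Sys.nu
  rw [Finset.sum_add_distrib, Finset.sum_comm]
  have hE : ∑ j ∈ Finset.Icc i k, Real.exp (-(j : ℝ)) ≤ 2 * Real.exp (-(i : ℝ)) := by
    have hI : Finset.Icc i k = Finset.Ico i (k + 1) := by
      ext j
      simp only [Finset.mem_Icc, Finset.mem_Ico]
      omega
    rw [hI]
    exact r2_dn' (by omega)
  have hM : ∑ l : ι, ∑ j ∈ Finset.Icc i k, (if S.kind l = Kind.L ∨ S.kind l = Kind.M then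
      ∫ x, Real.exp (S.b * x - |x - (j : ℝ)|) ∂(n l) else 0) ≤
      4 * ((∑ l : ι, if S.kind l = Kind.L ∨ S.kind l = Kind.M then
        ∫ x in Ico (i : ℝ) k, Real.exp (S.b * x) ∂(n l) else 0) +
      (∑ l : ι, if S.kind l = Kind.L ∨ S.kind l = Kind.M then
        ∫ x, Real.exp (S.b * x - |x - (i : ℝ)|) ∂(n l) else 0) +
      ∑ l : ι, if S.kind l = Kind.L ∨ S.kind l = Kind.M then
        ∫ x, Real.exp (S.b * x - |x - (k : ℝ)|) ∂(n l) else 0) := by
    rw [← Finset.sum_add_distrib, ← Finset.sum_add_distrib, Finset.mul_sum]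
    refine Finset.sum_le_sum fun l _ => ?_
    by_cases h : S.kind l = Kind.L ∨ S.kind l = Kind.M
    · have := hn l
      simp only [if_pos h]
      exact r2_one hb0 hb1 (n l) hik
    · simp only [if_neg h]
      simp
  have hpi := Real.exp_pos (-(i : ℝ))
  have hpk := Real.exp_pos (-(k : ℝ))
  linarith

private lemma r2_real_int (μ : Measure ℝ) [IsFiniteMeasure μ] (c y : ℝ) :
    Integrable ((Ici y).indicator fun _ => c) μ ∧
      ∫ x, (Ici y).indicator (fun _ => c) x ∂μ = c * μ.real (Ici y) := by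
  refine ⟨(integrable_const c).indicator measurableSet_Ici, ?_⟩
  rw [integral_indicator measurableSet_Ici, setIntegral_const, smul_eq_mul, mul_comm]

/-- the pointwise bound -/
private lemma r2_pt2 {b T j : ℝ} (hb : 0 ≤ b) (hb1 : b ≤ 1) (hj : j ≤ T) (x : ℝ) :
    Real.exp (b * x - |x - j|) ≤ 1 + (∑ l ∈ Finset.range (⌊T⌋₊ + 1),
      (Ici (l : ℝ)).indicator (fun _ => Real.exp 1 * Real.exp (b * l)) x) +
        (Ici T).indicator (fun _ => Real.exp (b * T)) x := by
  have hs : ∀ l ∈ Finset.range (⌊T⌋₊ + 1),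
      0 ≤ (Ici (l : ℝ)).indicator (fun _ => Real.exp 1 * Real.exp (b * l)) x := fun l _ =>
    indicator_nonneg (fun _ _ => by positivity) x
  have hs0 := Finset.sum_nonneg hs
  have ht : 0 ≤ (Ici T).indicator (fun _ => Real.exp (b * T)) x :=
    indicator_nonneg (fun _ _ => by positivity) x
  have ha : 0 ≤ |x - j| := abs_nonneg _
  rcases lt_or_ge x 0 with hx | hx
  · have h1 : Real.exp (b * x - |x - j|) ≤ 1 := by
      refine Real.exp_le_one_iff.2 ?_
      nlinarith
    linarith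
  · rcases lt_or_ge x T with hxT | hxT
    · have hf1 := Nat.floor_le hx
      have hf2 := Nat.lt_floor_add_one x
      have hm : ⌊x⌋₊ ∈ Finset.range (⌊T⌋₊ + 1) :=
        Finset.mem_range.2 (Nat.lt_succ_of_le (Nat.floor_le_floor hxT.le))
      have h1 := Finset.single_le_sum hs hm
      rw [indicator_of_mem (show x ∈ Ici ((⌊x⌋₊ : ℕ) : ℝ) from hf1)] at h1
      have h2 : Real.exp (b * x - |x - j|) ≤ Real.exp 1 * Real.exp (b * ⌊x⌋₊) := by
        rw [← Real.exp_add]
        refine Real.exp_le_exp.2 ?_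
        nlinarith
      linarith
    · rw [indicator_of_mem (show x ∈ Ici T from hxT)] at ht ⊢
      have h2 : Real.exp (b * x - |x - j|) ≤ Real.exp (b * T) := by
        refine Real.exp_le_exp.2 ?_
        rw [abs_of_nonneg (by linarith)]
        nlinarith
      linarith

theorem loc_le {ι : Type} [Fintype ι] (S : Sys ι) {σ ε : ℝ} (hσ : S.Sub σ) (hε : 0 < ε) :
    ∃ K : ℝ, 1 ≤ K ∧ ∀ (T : ℝ) (n : ι → Measure ℝ), 1 ≤ T → S.RHyp σ ε T n → ∀ j : ℝ, 0 ≤ j →
      j ≤ T → S.loc n j ≤ K * T * Real.exp ((S.b - σ + ε) * T) := by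
  have hb0 : 0 ≤ S.b := S.hb.le
  have hb1 : S.b ≤ 1 := by
    have := S.hab
    have := S.ha
    linarith
  obtain ⟨hσ0, hσb, -⟩ := hσ
  refine ⟨8 * (Fintype.card ι : ℝ) + 1, ?_, ?_⟩
  · have : (0 : ℝ) ≤ (Fintype.card ι : ℝ) := Nat.cast_nonneg _
    linarith
  intro T n hT hR j hj0 hjT
  have hT0 : 0 ≤ T := by linarith
  set E : ℝ := Real.exp ((S.b - σ + ε) * T) with hE
  have hE1 : 1 ≤ E := Real.one_le_exp (by
    have : 0 ≤ S.b - σ + ε := by linarith
    positivity)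
  have hone : ∀ l : ι, ∫ x, Real.exp (S.b * x - |x - j|) ∂(n l) ≤ 8 * T * E := by
    intro l
    have := hR.fin l
    have hi1 : ∀ m : ℕ, Integrable ((Ici (m : ℝ)).indicator
        fun _ => Real.exp 1 * Real.exp (S.b * m)) (n l) := fun m => (r2_real_int (n l) _ m).1
    have hi2 := (r2_real_int (n l) (Real.exp (S.b * T)) T).1
    have hi3 : Integrable (fun x => ∑ m ∈ Finset.range (⌊T⌋₊ + 1),
        (Ici (m : ℝ)).indicator (fun _ => Real.exp 1 * Real.exp (S.b * m)) x) (n l) :=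
      integrable_finsetSum _ fun m _ => hi1 m
    have hi4 : Integrable (fun x => 1 + ∑ m ∈ Finset.range (⌊T⌋₊ + 1),
        (Ici (m : ℝ)).indicator (fun _ => Real.exp 1 * Real.exp (S.b * m)) x) (n l) :=
      (integrable_const (1 : ℝ)).add hi3
    have h1 : ∫ x, Real.exp (S.b * x - |x - j|) ∂(n l) ≤ ∫ x, (1 + (∑ m ∈
        Finset.range (⌊T⌋₊ + 1), (Ici (m : ℝ)).indicator
          (fun _ => Real.exp 1 * Real.exp (S.b * m)) x) +
        (Ici T).indicator (fun _ => Real.exp (S.b * T)) x) ∂(n l) :=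
      integral_mono (r2_int hb0 hb1 (n l) j) (hi4.add hi2)
        fun x => r2_pt2 hb0 hb1 hjT x
    rw [integral_add hi4 hi2, integral_add (integrable_const (1 : ℝ)) hi3,
      integral_finsetSum _ fun m _ => hi1 m, (r2_real_int (n l) _ T).2, integral_const,
      smul_eq_mul, mul_one] at h1
    have h2 : (n l).real univ ≤ E := by
      refine (hR.mass l).trans (Real.exp_le_exp.2 ?_)
      nlinarith
    have h3 : Real.exp (S.b * T) * (n l).real (Ici T) ≤ E := by
      have h4 := mul_le_mul_of_nonneg_left (hR.decay l T hT0 le_rfl) (Real.exp_pos (S.b * T)).le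
      refine h4.trans (le_of_eq ?_)
      rw [hE, ← Real.exp_add]
      congr 1
      ring
    have h5 : ∀ m ∈ Finset.range (⌊T⌋₊ + 1), ∫ x, (Ici (m : ℝ)).indicator
        (fun _ => Real.exp 1 * Real.exp (S.b * m)) x ∂(n l) ≤ 3 * E := by
      intro m hm
      have hmT : (m : ℝ) ≤ T := by
        have h6 : m ≤ ⌊T⌋₊ := Nat.lt_succ_iff.1 (Finset.mem_range.1 hm)
        exact (Nat.cast_le.2 h6).trans (Nat.floor_le hT0)
      have hm0 : (0 : ℝ) ≤ (m : ℝ) := Nat.cast_nonneg _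
      rw [(r2_real_int (n l) _ m).2]
      have h7 : Real.exp (S.b * m) * (n l).real (Ici (m : ℝ)) ≤ E := by
        have h4 := mul_le_mul_of_nonneg_left (hR.decay l m hm0 hmT) (Real.exp_pos (S.b * m)).le
        refine h4.trans ?_
        rw [hE, ← Real.exp_add]
        refine Real.exp_le_exp.2 ?_
        nlinarith
      have h8 : Real.exp 1 ≤ 3 := by
        have := Real.exp_one_lt_d9
        linarith
      have h9 : 0 ≤ Real.exp (S.b * m) * (n l).real (Ici (m : ℝ)) := by positivity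
      calc Real.exp 1 * Real.exp (S.b * m) * (n l).real (Ici (m : ℝ))
          = Real.exp 1 * (Real.exp (S.b * m) * (n l).real (Ici (m : ℝ))) := by ring
        _ ≤ 3 * (Real.exp (S.b * m) * (n l).real (Ici (m : ℝ))) :=
            mul_le_mul_of_nonneg_right h8 h9
        _ ≤ 3 * E := by linarith
    have h10 := Finset.sum_le_sum h5
    rw [Finset.sum_const, Finset.card_range, nsmul_eq_mul] at h10
    have h11 : ((⌊T⌋₊ + 1 : ℕ) : ℝ) ≤ 2 * T := by
      have := Nat.floor_le hT0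
      push_cast
      linarith
    have h12 : ((⌊T⌋₊ + 1 : ℕ) : ℝ) * (3 * E) ≤ 2 * T * (3 * E) :=
      mul_le_mul_of_nonneg_right h11 (by linarith)
    have h13 : E ≤ T * E := by nlinarith
    linarith
  have hsum : (∑ l : ι, if S.kind l = Kind.L ∨ S.kind l = Kind.M then
      ∫ x, Real.exp (S.b * x - |x - j|) ∂(n l) else 0) ≤ (Fintype.card ι : ℝ) * (8 * T * E) := by
    have h1 : ∀ l ∈ (Finset.univ : Finset ι), (if S.kind l = Kind.L ∨ S.kind l = Kind.M then
        ∫ x, Real.exp (S.b * x - |x - j|) ∂(n l) else 0) ≤ 8 * T * E := by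
      intro l _
      split_ifs
      · exact hone l
      · positivity
    have h2 := Finset.sum_le_sum h1
    rw [Finset.sum_const, Finset.card_univ, nsmul_eq_mul] at h2
    exact h2
  have hlast : Real.exp (-j) ≤ T * E := by
    have h1 : Real.exp (-j) ≤ 1 := Real.exp_le_one_iff.2 (by linarith)
    nlinarith
  unfold Sys.loc
  calc _ ≤ (Fintype.card ι : ℝ) * (8 * T * E) + T * E := add_le_add hsum hlast
    _ = (8 * (Fintype.card ι : ℝ) + 1) * T * E := by ring

end INDB
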