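import Pool.Agent.INDB.RDefs
import Pool.Agent.INDB.Cut

/-!
# INDB, module R2c: no ray of kind `P`: the right cut when `Dn` dominates

PROOF. Choose `C₁, C₉` at the end. `I` = kinds `L`, `M`. Let `Y ≥ 1`, `Y < T`, `C₁ loc Y ≤ Dn Y`. `n''_i` = `n_i` restricted to `Iic (Y-1)` for `i ∈ I`, `0` (restricted to `∅`) for the other indices (kind `N`), plus the density `q = C₉ e^{-bY} loc Y` on `[x_q, x_q+1]`, `x_q = Y + s_{l0} + 2`, at the index `l0` (`G_modify`).
(i) `y ≤ Y`. `G n'' y = G n y - ∑_I ∫_{x>Y-1} k_i(x-y) dn_i - ∑_N ∫ k_i(x-y) dn_i + q ∫_{[x_q,x_q+1]} k_{l0}(x-y) dx`. Third sum `≥ 0` (`k_N ≤ 0`). For `x > Y-1`, `y ≤ Y`: `k_i(x-y) ≤ C w(x-y) ≤ C e² w(Y-y) w(x-Y)` (`x ≥ Y`: equality of `w_add_same`; `Y-1<x<Y`: `w_shift` and `w(x-Y) ≥ e^{-1}`)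
  and `w(x-Y) ≤ e · e^{-bY} e^{bx-|x-Y|}` (`x ≥ Y`: `e^{-a(x-Y)} = e^{-bY} e^{bx-(x-Y)}`). So the second sum is `≤ C e³ e^{-bY} loc(Y) w(Y-y)`. The density: `x - y ≥ s_{l0} + 2`, `k ≥ c w(x-y) ≥ c e^{-(C+3)} w(Y-y)`. With `C₉ c e^{-(C+3)} ≥ C e³`: `G n'' y ≥ G n y ≥ η w(-y)`.
(ii) `y > Y`. Retained: `x ≤ Y-1`, `u = x-y ≤ -1`, `asy`: `k_i(x-y) ≥ A_i e^{b(x-y)} - C e^{(b+1)(x-y)}`; `∑_I ∫_{x≤Y-1} ≥ e^{-by} (∑_I A_i ∫_{x<Y} e^{bx} dn_i - C ∑_I ∫_{x ≤ Y-1} e^{bx-(y-x)} dn_i)` (`A_i < 0`), and `e^{-(y-x)} ≤ e^{-|x-Y|}`. Target (`asyt`, `y ≥ 1`):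
  `-kt(-y) ≥ e^{-by} (-At - C e^{-Y})`. Sum `≥ e^{-by} (Dn Y - C loc Y)`. The density: `≥ -q ∫ |k_{l0}(x-y)| dx ≥ -11 C q w(x_q-y) ≥ -11 C e^{C+2} q w(Y-y) = -11 C e^{C+2} C₉ e^{-by} loc Y` (`Kern.unit_le`, `w_shift`, `w(Y-y) = e^{b(Y-y)}`).
  So `G n'' y ≥ e^{-by} loc(Y) (C₁ - C - 11 C e^{C+2} C₉) ≥ e^{-by} loc(Y)` for `C₁ = 1 + C + 11 C e^{C+2} C₉`, and `e^{-by} = w(-y)`, `loc Y > 0` (`≥ e^{-Y}`).
So the slack is `min η (loc Y)`: strict.
-/

open MeasureTheory Set Filter Topology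

namespace INDB

private lemma r2c_int {b Y : ℝ} (hb : 0 ≤ b) (hb1 : b ≤ 1) (μ : Measure ℝ)
    [IsFiniteMeasure μ] : Integrable (fun x => Real.exp (b * x - |x - Y|)) μ := by
  refine Integrable.mono' (integrable_const (Real.exp (b * Y))) (by fun_prop)
    (Eventually.of_forall fun x => ?_)
  rw [Real.norm_eq_abs, Real.abs_exp]
  apply Real.exp_le_exp.2
  have h1 : b * (x - Y) ≤ b * |x - Y| := mul_le_mul_of_nonneg_left (le_abs_self _) hb
  have h2 : b * |x - Y| ≤ 1 * |x - Y| := mul_le_mul_of_nonneg_right hb1 (abs_nonneg _)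
  linarith

private lemma r2c_pt {a b x y Y : ℝ} (ha : 0 ≤ a) (hb : 0 ≤ b) (ha1 : a ≤ 1) (hb1 : b ≤ 1)
    (hab : a + b = 1) (hx : Y - 1 < x) (hy : y ≤ Y) :
    w a b (x - y) ≤ Real.exp 3 * (Real.exp (-(b * Y)) * w a b (Y - y)) *
      Real.exp (b * x - |x - Y|) := by
  have hW := w_pos a b (Y - y)
  rcases le_or_gt Y x with h | h
  · have h1 : w a b (x - y) = w a b (Y - y) * w a b (x - Y) := by
      rw [← w_add_same (Or.inl ⟨by linarith, by linarith⟩)]
      congr 1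
      ring
    have h2 : w a b (x - Y) = Real.exp (-(b * Y)) * Real.exp (b * x - |x - Y|) := by
      rw [w_nonneg_eq (by linarith), ← Real.exp_add, abs_of_nonneg (by linarith)]
      congr 1
      have : a = 1 - b := by linarith
      rw [this]
      ring
    rw [h1, h2]
    have h3 : 1 ≤ Real.exp 3 := Real.one_le_exp (by norm_num)
    have h4 : 0 ≤ (Real.exp (-(b * Y)) * w a b (Y - y)) * Real.exp (b * x - |x - Y|) := by
      positivity
    calc w a b (Y - y) * (Real.exp (-(b * Y)) * Real.exp (b * x - |x - Y|))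
        = 1 * ((Real.exp (-(b * Y)) * w a b (Y - y)) * Real.exp (b * x - |x - Y|)) := by ring
      _ ≤ Real.exp 3 * ((Real.exp (-(b * Y)) * w a b (Y - y)) * Real.exp (b * x - |x - Y|)) :=
          mul_le_mul_of_nonneg_right h3 h4
      _ = _ := by ring
  · have h1 : w a b (x - y) ≤ Real.exp |x - Y| * w a b (Y - y) := by
      have := w_shift ha hb ha1 hb1 (Y - y) (x - Y)
      rwa [show Y - y + (x - Y) = x - y by ring] at this
    have h2 : Real.exp |x - Y| ≤ Real.exp 3 * Real.exp (-(b * Y)) *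
        Real.exp (b * x - |x - Y|) := by
      rw [← Real.exp_add, ← Real.exp_add]
      apply Real.exp_le_exp.2
      rw [abs_of_nonpos (by linarith)]
      have : b * (Y - x) ≤ 1 * (Y - x) := mul_le_mul_of_nonneg_right hb1 (by linarith)
      linarith
    calc w a b (x - y) ≤ Real.exp |x - Y| * w a b (Y - y) := h1
      _ ≤ Real.exp 3 * Real.exp (-(b * Y)) * Real.exp (b * x - |x - Y|) * w a b (Y - y) :=
          mul_le_mul_of_nonneg_right h2 hW.le
      _ = _ := by ring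

/-- removed part of a kernel of kind `L` or `M`, at `y ≤ Y` -/
private lemma r2c_off {a b C Y y : ℝ} {k : ℝ → ℝ} (ha : 0 ≤ a) (hb : 0 ≤ b) (ha1 : a ≤ 1)
    (hb1 : b ≤ 1) (hab : a + b = 1) (hk : Kern a b C k) (hC : 0 ≤ C) (μ : Measure ℝ)
    [IsFiniteMeasure μ] (hy : y ≤ Y) (hi : Integrable (fun x => k (x - y)) μ) :
    ∫ x in (Iic (Y - 1))ᶜ, k (x - y) ∂μ ≤
      C * Real.exp 3 * (Real.exp (-(b * Y)) * w a b (Y - y)) *
        ∫ x, Real.exp (b * x - |x - Y|) ∂μ := by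
  have hei := r2c_int (Y := Y) hb hb1 μ
  have hW := w_pos a b (Y - y)
  have h1 : ∫ x in (Iic (Y - 1))ᶜ, k (x - y) ∂μ ≤
      ∫ x in (Iic (Y - 1))ᶜ, C * Real.exp 3 * (Real.exp (-(b * Y)) * w a b (Y - y)) *
        Real.exp (b * x - |x - Y|) ∂μ := by
    refine setIntegral_mono_on hi.integrableOn (hei.const_mul _).integrableOn
      measurableSet_Iic.compl fun x hx => ?_
    have hx' : Y - 1 < x := by simpa using hx
    have h2 := hk.up (x - y)
    have h3 := mul_le_mul_of_nonneg_left (r2c_pt ha hb ha1 hb1 hab hx' hy) hC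
    linarith
  refine h1.trans ?_
  rw [integral_const_mul]
  refine mul_le_mul_of_nonneg_left ?_ (by positivity)
  exact setIntegral_le_integral hei (Eventually.of_forall fun x => (Real.exp_pos _).le)

/-- retained part of a kernel of kind `L` or `M`, at `y > Y` -/
private lemma r2c_keep {b C A Y y : ℝ} {k : ℝ → ℝ} (hb : 0 < b) (hb1 : b ≤ 1) (hC : 0 ≤ C)
    (hA : A < 0) (hasy : ∀ u, u ≤ -1 → |k u - A * Real.exp (b * u)| ≤
      C * Real.exp ((b + 1) * u)) (μ : Measure ℝ)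
    [IsFiniteMeasure μ] (hy : Y < y) (hi : Integrable (fun x => k (x - y)) μ) :
    Real.exp (-(b * y)) * (A * ∫ x in Iio Y, Real.exp (b * x) ∂μ) -
      Real.exp (-(b * y)) * (C * ∫ x, Real.exp (b * x - |x - Y|) ∂μ) ≤
      ∫ x in Iic (Y - 1), k (x - y) ∂μ := by
  have hei := r2c_int (Y := Y) hb.le hb1 μ
  have hbi : IntegrableOn (fun x => Real.exp (b * x)) (Iio Y) μ := by
    refine Measure.integrableOn_of_bounded (M := Real.exp (b * Y)) (measure_ne_top _ _)
      (by fun_prop) ?_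
    refine (ae_restrict_iff' measurableSet_Iio).2 (Eventually.of_forall fun x hx => ?_)
    rw [Real.norm_eq_abs, Real.abs_exp]
    apply Real.exp_le_exp.2
    exact mul_le_mul_of_nonneg_left (le_of_lt hx) hb.le
  have hsub : Iic (Y - 1) ⊆ Iio Y := fun x hx => by
    have hx' : x ≤ Y - 1 := hx
    exact (show x < Y by linarith)
  have h1 : ∫ x in Iic (Y - 1), (Real.exp (-(b * y)) * A * Real.exp (b * x) -
      Real.exp (-(b * y)) * C * Real.exp (b * x - |x - Y|)) ∂μ ≤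
      ∫ x in Iic (Y - 1), k (x - y) ∂μ := by
    refine setIntegral_mono_on (((hbi.mono_set hsub).const_mul _).sub
      (hei.const_mul _).integrableOn) hi.integrableOn measurableSet_Iic fun x hx => ?_
    have hx' : x ≤ Y - 1 := hx
    have h2 := (abs_le.1 (hasy (x - y) (by linarith))).1
    have h3 : Real.exp (b * (x - y)) = Real.exp (-(b * y)) * Real.exp (b * x) := by
      rw [← Real.exp_add]
      congr 1
      ring
    have h4 : Real.exp ((b + 1) * (x - y)) ≤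
        Real.exp (-(b * y)) * Real.exp (b * x - |x - Y|) := by
      rw [← Real.exp_add, abs_of_nonpos (by linarith)]
      apply Real.exp_le_exp.2
      linarith
    have h5 := mul_le_mul_of_nonneg_left h4 hC
    rw [h3] at h2
    linarith
  rw [integral_sub ((hbi.mono_set hsub).const_mul _) (hei.const_mul _).integrableOn,
    integral_const_mul, integral_const_mul] at h1
  have he := Real.exp_pos (-(b * y))
  have h6 : ∫ x in Iic (Y - 1), Real.exp (b * x) ∂μ ≤ ∫ x in Iio Y, Real.exp (b * x) ∂μ :=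
    setIntegral_mono_set hbi (Eventually.of_forall fun x => (Real.exp_pos _).le)
      hsub.eventuallyLE
  have h7 : ∫ x in Iic (Y - 1), Real.exp (b * x - |x - Y|) ∂μ ≤
      ∫ x, Real.exp (b * x - |x - Y|) ∂μ :=
    setIntegral_le_integral hei (Eventually.of_forall fun x => (Real.exp_pos _).le)
  have h8 : Real.exp (-(b * y)) * A * ∫ x in Iio Y, Real.exp (b * x) ∂μ ≤
      Real.exp (-(b * y)) * A * ∫ x in Iic (Y - 1), Real.exp (b * x) ∂μ :=
    mul_le_mul_of_nonpos_left h6 (mul_nonpos_of_nonneg_of_nonpos he.le hA.le)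
  have h9 : Real.exp (-(b * y)) * C * ∫ x in Iic (Y - 1), Real.exp (b * x - |x - Y|) ∂μ ≤
      Real.exp (-(b * y)) * C * ∫ x, Real.exp (b * x - |x - Y|) ∂μ :=
    mul_le_mul_of_nonneg_left h7 (mul_nonneg he.le hC)
  linarith

theorem r2c {ι : Type} [Fintype ι] (S : Sys ι) (hP : ∀ i, S.kind i ≠ Kind.P) :
    ∃ C₁ : ℝ, 1 ≤ C₁ ∧ ∀ (n : ι → Measure ℝ) (η T Y : ℝ), (∀ i, IsFiniteMeasure (n i)) → 0 < η →
      (∀ᵐ y : ℝ, y < T → η * w S.a S.b (-y) ≤ G S.k S.kt n y) → 1 ≤ Y → Y < T →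
      C₁ * S.loc n Y ≤ S.Dn n Y → S.Strict := by
  classical
  have ha := S.ha
  have hb := S.hb
  have hab := S.hab
  have hc := S.hc
  have hC := S.hC
  have ha1 : S.a ≤ 1 := by linarith
  have hb1 : S.b ≤ 1 := by linarith
  have hC0 : 0 < S.C := by linarith
  obtain ⟨c9, hc9⟩ : ∃ c9 : ℝ, c9 = S.C * Real.exp 3 / (S.c * Real.exp (-(S.C + 3))) := ⟨_, rfl⟩
  have hc9p : 0 < c9 := by
    rw [hc9]
    positivity
  have hc9e : c9 * (S.c * Real.exp (-(S.C + 3))) = S.C * Real.exp 3 := by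
    rw [hc9]
    have : S.c * Real.exp (-(S.C + 3)) ≠ 0 := by positivity
    field_simp
  have hbig : 0 ≤ 11 * S.C * Real.exp (S.C + 2) * c9 := by positivity
  refine ⟨1 + S.C + 11 * S.C * Real.exp (S.C + 2) * c9, by linarith, ?_⟩
  intro n η T Y hn hη hG0 hY hYT hD
  have hkN : ∀ i, ¬ (S.kind i = Kind.L ∨ S.kind i = Kind.M) → S.kind i = Kind.N := by
    intro i hi
    push Not at hi
    have := hP i
    rcases h : S.kind i
    · exact absurd h hi.1
    · exact absurd h hi.2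
    · exact absurd h this
    · rfl
  obtain ⟨J, hJ⟩ : ∃ J : ℝ, J = ∑ i, if S.kind i = Kind.L ∨ S.kind i = Kind.M then
    ∫ x, Real.exp (S.b * x - |x - Y|) ∂(n i) else 0 := ⟨_, rfl⟩
  obtain ⟨D, hDd⟩ : ∃ D : ℝ, D = ∑ i, if S.kind i = Kind.L ∨ S.kind i = Kind.M then
    S.A i * ∫ x in Iio Y, Real.exp (S.b * x) ∂(n i) else 0 := ⟨_, rfl⟩
  have hJ0 : 0 ≤ J := by
    rw [hJ]
    refine Finset.sum_nonneg fun i _ => ?_
    split_ifs
    · exact integral_nonneg fun x => (Real.exp_pos _).le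
    · exact le_rfl
  have hloc : S.loc n Y = J + Real.exp (-Y) := by
    rw [hJ]
    rfl
  have hDn : S.Dn n Y = D - S.At := by
    rw [hDd]
    rfl
  rw [hloc, hDn] at hD
  have heY := Real.exp_pos (-Y)
  obtain ⟨L, hL⟩ : ∃ L : ℝ, L = J + Real.exp (-Y) := ⟨_, rfl⟩
  rw [← hL] at hD
  have hL0 : 0 < L := by
    rw [hL]
    linarith
  obtain ⟨q, hq⟩ : ∃ q : ℝ, q = c9 * (Real.exp (-(S.b * Y)) * L) := ⟨_, rfl⟩
  have hq0 : 0 ≤ q := by
    rw [hq]
    positivity
  obtain ⟨R, hR⟩ : ∃ R : ι → Set ℝ, R = fun i => if S.kind i = Kind.L ∨ S.kind i = Kind.M then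
    Iic (Y - 1) else ∅ := ⟨_, rfl⟩
  have hRI : ∀ i, (S.kind i = Kind.L ∨ S.kind i = Kind.M) → R i = Iic (Y - 1) := fun i hi => by
    rw [hR]
    simp only [if_pos hi]
  have hRN : ∀ i, ¬ (S.kind i = Kind.L ∨ S.kind i = Kind.M) → R i = ∅ := fun i hi => by
    rw [hR]
    simp only [if_neg hi]
  have hRm : ∀ i, MeasurableSet (R i) := by
    intro i
    by_cases hi : S.kind i = Kind.L ∨ S.kind i = Kind.M
    · rw [hRI i hi]
      exact measurableSet_Iic
    · rw [hRN i hi]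
      exact MeasurableSet.empty
  obtain ⟨hfin, hGm⟩ := G_modify (kt := S.kt) S.hk ha hb n hn R hRm S.l0 hq0 (Y + S.s S.l0 + 2)
    (Y + S.s S.l0 + 2 + 1)
  have hint := ae_integrable_all S.hk ha hb n hn
  refine ⟨min η L, _, lt_min hη hL0, hfin, ?_⟩
  have hpl := S.patL S.l0 S.hl0
  filter_upwards [hGm, hint, hG0] with y hy hi hg
  rw [hy.1]
  have hwy := w_pos S.a S.b (-y)
  have hW := w_pos S.a S.b (Y - y)
  rcases le_or_gt y Y with h | h
  · -- left of `Y`
    have hg1 := hg (lt_of_le_of_lt h hYT)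
    rw [hy.2] at hg1
    have hoff : ∑ i, ∫ x in (R i)ᶜ, S.k i (x - y) ∂(n i) ≤
        S.C * Real.exp 3 * (Real.exp (-(S.b * Y)) * w S.a S.b (Y - y)) * J := by
      rw [hJ, Finset.mul_sum]
      refine Finset.sum_le_sum fun i _ => ?_
      have hni := hn i
      by_cases hii : S.kind i = Kind.L ∨ S.kind i = Kind.M
      · rw [hRI i hii, if_pos hii]
        exact r2c_off ha.le hb.le ha1 hb1 hab (S.hk i) hC0.le (n i) h (hi i)
      · rw [hRN i hii, if_neg hii, mul_zero]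
        exact integral_nonpos fun x => S.patN i (hkN i hii) _
    have hd := cut_dens_int (Y := -Y) (y := y) ha hb ha1 hb1 hc (S.hk S.l0) hpl
      (S.hs S.l0) hC0.le (by linarith)
    rw [neg_neg] at hd
    have hd2 := mul_le_mul_of_nonneg_left hd hq0
    have hd3 : q * (S.c * Real.exp (-(S.C + 3)) * w S.a S.b (Y - y)) =
        S.C * Real.exp 3 * (Real.exp (-(S.b * Y)) * w S.a S.b (Y - y)) * L := by
      rw [hq]
      calc c9 * (Real.exp (-(S.b * Y)) * L) * (S.c * Real.exp (-(S.C + 3)) * w S.a S.b (Y - y))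
          = (c9 * (S.c * Real.exp (-(S.C + 3)))) * (Real.exp (-(S.b * Y)) *
            w S.a S.b (Y - y) * L) := by ring
        _ = _ := by
            rw [hc9e]
            ring
    have hd4 : S.C * Real.exp 3 * (Real.exp (-(S.b * Y)) * w S.a S.b (Y - y)) * J ≤
        S.C * Real.exp 3 * (Real.exp (-(S.b * Y)) * w S.a S.b (Y - y)) * L := by
      refine mul_le_mul_of_nonneg_left ?_ (by positivity)
      linarith
    have hmin : min η L * w S.a S.b (-y) ≤ η * w S.a S.b (-y) :=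
      mul_le_mul_of_nonneg_right (min_le_left _ _) hwy.le
    linarith
  · -- right of `Y`
    have he := Real.exp_pos (-(S.b * y))
    have hkeep : Real.exp (-(S.b * y)) * D - Real.exp (-(S.b * y)) * (S.C * J) ≤
        ∑ i, ∫ x in R i, S.k i (x - y) ∂(n i) := by
      rw [hDd, hJ, Finset.mul_sum, Finset.mul_sum, Finset.mul_sum, ← Finset.sum_sub_distrib]
      refine Finset.sum_le_sum fun i _ => ?_
      have hni := hn i
      by_cases hii : S.kind i = Kind.L ∨ S.kind i = Kind.M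
      · rw [hRI i hii, if_pos hii, if_pos hii]
        exact r2c_keep hb hb1 hC0.le (S.asyA i hii) (S.asy i hii) (n i) h (hi i)
      · rw [hRN i hii, if_neg hii, if_neg hii]
        simp
    have hkt : S.kt (-y) ≤ Real.exp (-(S.b * y)) * S.At +
        Real.exp (-(S.b * y)) * (S.C * Real.exp (-Y)) := by
      have h1 := (abs_le.1 (S.asyt (-y) (by linarith))).2
      have h2 : Real.exp (S.b * -y) = Real.exp (-(S.b * y)) := by
        congr 1
        ring
      have h3 : Real.exp ((S.b + 1) * -y) ≤ Real.exp (-(S.b * y)) * Real.exp (-Y) := by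
        rw [← Real.exp_add]
        apply Real.exp_le_exp.2
        linarith
      have h4 := mul_le_mul_of_nonneg_left h3 hC0.le
      rw [h2] at h1
      linarith
    have hd := cut_dens_abs (Y := -Y) (y := y) ha hb ha1 hb1 (S.hk S.l0) (S.hs S.l0) hC0.le
    rw [neg_neg] at hd
    have hd2 := mul_le_mul_of_nonneg_left hd hq0
    have hwW : Real.exp (-(S.b * Y)) * w S.a S.b (Y - y) = Real.exp (-(S.b * y)) := by
      rw [w_nonpos_eq (by linarith), ← Real.exp_add]
      congr 1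
      ring
    have hd3 : q * -(11 * S.C * Real.exp (S.C + 2) * w S.a S.b (Y - y)) =
        -(Real.exp (-(S.b * y)) * (11 * S.C * Real.exp (S.C + 2) * c9 * L)) := by
      rw [hq, ← hwW]
      ring
    have hwny : w S.a S.b (-y) = Real.exp (-(S.b * y)) := by
      rw [w_nonpos_eq (by linarith)]
      congr 1
      ring
    have hmin : min η L * w S.a S.b (-y) ≤ Real.exp (-(S.b * y)) * L := by
      rw [hwny, mul_comm]
      exact mul_le_mul_of_nonneg_left (min_le_right _ _) he.le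
    have hD2 := mul_le_mul_of_nonneg_left hD he.le
    have hLe : Real.exp (-(S.b * y)) * (S.C * L) = Real.exp (-(S.b * y)) * (S.C * J) +
        Real.exp (-(S.b * y)) * (S.C * Real.exp (-Y)) := by
      rw [hL]
      ring
    have hD3 : Real.exp (-(S.b * y)) * ((1 + S.C + 11 * S.C * Real.exp (S.C + 2) * c9) * L) =
        Real.exp (-(S.b * y)) * L + Real.exp (-(S.b * y)) * (S.C * L) +
        Real.exp (-(S.b * y)) * (11 * S.C * Real.exp (S.C + 2) * c9 * L) := by ring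
    rw [hd3] at hd2
    rw [hD3, hLe, mul_sub] at hD2
    linarith

end INDB
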