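import Pool.Agent.INDB.Grw
import Pool.Agent.INDB.R2a
import Pool.Agent.INDB.R2b
import Pool.Agent.INDB.R2c

/-!
# INDB, module R2: the right side when there is no ray of kind `P`

PROOF. Constants: `C₁` of `r2c`, `cA` of `dn_diff`, `C₅ = 25 C`, `C₃ = 4 (1 + (C₁ + C₅)/cA) ≥ 1`, `g, C'` of `grw` for `C₃`; `σ = b - min (g/16) (b/2)` (`Sub σ`, no kind `P`), `ε = min (g/64) 1`. Suppose `RHyp σ ε T n`, `T` large, `m = ⌊T⌋₊ - 2`, so `j + 1 ≤ T` for `j ≤ m`; `η = e^{-εT}`.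
If `C₁ loc Y ≤ Dn Y` for some natural `Y ∈ [1, m]`: `r2c`. Otherwise `Dn Y < C₁ loc Y` for all of them, and `r2a`: `η ≤ Dn Y + C₅ loc Y`, so `loc Y ≥ η/(C₁ + C₅)` (*) and, for `1 ≤ i ≤ k ≤ m`, `cA nu(i,k) ≤ Dn i - Dn k ≤ C₁ loc i + C₅ loc k`. `loc_sum`: `∑_{[i,k]} loc j ≤ C₃ (loc i + loc k)`.
`loc_le`: `loc j ≤ K T e^{(b-σ+ε)T} ≤ K T e^{(g/16+g/64) T}`. `grw` with `S j = loc j`, `j = ⌊m/2⌋`: `loc j ≤ C' K T e^{(5g/64)T} · 2 e^{-g (m/2 - 1)}`, and `m/2 - 1 ≥ T/2 - 3`, so `loc j ≤ K' T e^{(5/64 - 1/2) g T}`, which contradicts (*) for large `T` (`e^{-εT} ≥ e^{-gT/64}`).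
-/

open MeasureTheory Set Filter Topology

namespace INDB

theorem r2 {ι : Type} [Fintype ι] (S : Sys ι) (hP : ∀ i, S.kind i ≠ Kind.P) :
    ∃ σ ε T₀ : ℝ, S.Sub σ ∧ 0 < ε ∧ ∀ (T : ℝ) (n : ι → Measure ℝ), T₀ ≤ T → S.RHyp σ ε T n →
      S.Strict := by
  obtain ⟨C₁, hC₁, hr2c⟩ := r2c S hP
  obtain ⟨cA, hcA, hdn⟩ := dn_diff S
  have hC := S.hC
  have hb := S.hb
  obtain ⟨C₅, hC₅⟩ : ∃ C₅, C₅ = 25 * S.C := ⟨_, rfl⟩
  have hC₅0 : 1 ≤ C₅ := by rw [hC₅]; linarith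
  have hq : 0 ≤ (C₁ + C₅) / cA := by positivity
  obtain ⟨g, C', hg, hC', hgrw⟩ := grw (C := 4 * (1 + (C₁ + C₅) / cA)) (by linarith)
  obtain ⟨σ, hσd⟩ : ∃ σ, σ = S.b - min (g / 16) (S.b / 2) := ⟨_, rfl⟩
  have hσ1 : S.b - σ ≤ g / 16 := by
    rw [hσd, sub_sub_cancel]
    exact min_le_left _ _
  have hσ : S.Sub σ := by
    refine ⟨?_, ?_, fun i hi => absurd hi (hP i)⟩
    · rw [hσd]
      linarith [min_le_right (g / 16) (S.b / 2)]
    · rw [hσd]
      have : 0 < min (g / 16) (S.b / 2) := lt_min (by positivity) (by positivity)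
      linarith
  have hε : 0 < g / 64 := by positivity
  obtain ⟨K, hK, hloc⟩ := loc_le S hσ hε
  obtain ⟨K₂, hK₂⟩ : ∃ K₂, K₂ = (C₁ + C₅) * C' * K * (2 * Real.exp (2 * g)) := ⟨_, rfl⟩
  obtain ⟨c, hcd⟩ : ∃ c, c = 26 * g / 64 := ⟨_, rfl⟩
  have hc : 0 < c := by rw [hcd]; positivity
  have hK₂0 : 0 < K₂ := by rw [hK₂]; positivity
  refine ⟨σ, g / 64, max 5 (2 * K₂ / c ^ 2), hσ, hε, fun T n hT hR => ?_⟩
  have hT5 : 5 ≤ T := le_trans (le_max_left _ _) hT
  have hTK : 2 * K₂ / c ^ 2 ≤ T := le_trans (le_max_right _ _) hT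
  have hη : 0 < Real.exp (-(g / 64 * T)) := Real.exp_pos _
  obtain ⟨m, hm1, hm2⟩ : ∃ m : ℕ, (m : ℝ) + 2 ≤ T ∧ T - 3 < m := by
    refine ⟨⌊T - 2⌋₊, ?_, ?_⟩
    · have := Nat.floor_le (show 0 ≤ T - 2 by linarith)
      linarith
    · have := Nat.lt_floor_add_one (T - 2)
      linarith
  have hm3 : 2 ≤ m := by
    have : (2 : ℝ) < m := by linarith
    exact_mod_cast this.le
  by_cases hex : ∃ Y : ℕ, 1 ≤ Y ∧ Y ≤ m ∧ C₁ * S.loc n Y ≤ S.Dn n Y
  · obtain ⟨Y, hY1, hY2, hY3⟩ := hex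
    have hY1' : (1 : ℝ) ≤ Y := by exact_mod_cast hY1
    have hY2' : (Y : ℝ) ≤ m := by exact_mod_cast hY2
    exact hr2c n _ T Y hR.fin hη hR.slack hY1' (by linarith) hY3
  · exfalso
    push Not at hex
    have hlp : ∀ y, 0 < S.loc n y := fun y => S.loc_pos n y
    have hA : ∀ j : ℕ, 1 ≤ j → j ≤ m →
        Real.exp (-(g / 64 * T)) ≤ S.Dn n j + C₅ * S.loc n j := by
      intro j hj1 hj2
      have hj1' : (1 : ℝ) ≤ j := by exact_mod_cast hj1
      have hj2' : (j : ℝ) ≤ m := by exact_mod_cast hj2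
      rw [hC₅]
      exact r2a S hP n hR.fin hη.le hR.slack hj1' (by linarith)
    have hSum : ∀ i k : ℕ, 1 ≤ i → i ≤ k → k ≤ m → ∑ j ∈ Finset.Icc i k, S.loc n (j : ℝ) ≤
        4 * (1 + (C₁ + C₅) / cA) * (S.loc n i + S.loc n k) := by
      intro i k hi hik hk
      have h1 := loc_sum S n hR.fin hik
      have hik' : (i : ℝ) ≤ k := by exact_mod_cast hik
      have h2 := hdn n hR.fin i k hik'
      have h3 := hex i hi (hik.trans hk)
      have h4 := hA k (hi.trans hik) hk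
      have h5 : cA * S.nu n i k ≤ (C₁ + C₅) * (S.loc n i + S.loc n k) := by
        have h6 : 0 ≤ C₅ * S.loc n i := by
          have := (hlp i).le
          positivity
        have h7 : 0 ≤ C₁ * S.loc n k := by
          have := (hlp k).le
          positivity
        nlinarith
      have h6 : S.nu n i k ≤ (C₁ + C₅) / cA * (S.loc n i + S.loc n k) := by
        rw [div_mul_eq_mul_div, le_div_iff₀ hcA]
        linarith
      linarith
    have hle : ∀ j : ℕ, 1 ≤ j → j ≤ m →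
        S.loc n (j : ℝ) ≤ K * T * Real.exp ((5 * g / 64) * T) := by
      intro j hj1 hj2
      have hj1' : (1 : ℝ) ≤ j := by exact_mod_cast hj1
      have hj2' : (j : ℝ) ≤ m := by exact_mod_cast hj2
      refine (hloc T n (by linarith) hR j (by linarith) (by linarith)).trans ?_
      refine mul_le_mul_of_nonneg_left ?_ (by positivity)
      rw [Real.exp_le_exp]
      refine mul_le_mul_of_nonneg_right ?_ (by linarith)
      linarith
    have hj1 : 1 ≤ m / 2 := by omega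
    have hj2 : m / 2 ≤ m := Nat.div_le_self _ _
    have hfin := hgrw m (fun j => S.loc n (j : ℝ)) _ (fun j => (hlp j).le) hle hSum (m / 2) hj1 hj2
    have hjr : ((m : ℝ) - 1) / 2 ≤ ((m / 2 : ℕ) : ℝ) := by
      have h1 : m ≤ 2 * (m / 2) + 1 := by omega
      have h2 : (m : ℝ) ≤ 2 * ((m / 2 : ℕ) : ℝ) + 1 := by exact_mod_cast h1
      linarith
    have hjr' : ((m / 2 : ℕ) : ℝ) ≤ (m : ℝ) / 2 := by
      have h1 : 2 * (m / 2) ≤ m := by omega
      have h2 : 2 * ((m / 2 : ℕ) : ℝ) ≤ m := by exact_mod_cast h1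
      linarith
    have hex1 : Real.exp (-(g * ((m / 2 : ℕ) : ℝ))) ≤
        Real.exp (2 * g) * Real.exp (-(g / 2 * T)) := by
      rw [← Real.exp_add, Real.exp_le_exp]
      nlinarith
    have hex2 : Real.exp (-(g * ((m : ℝ) - ((m / 2 : ℕ) : ℝ)))) ≤
        Real.exp (2 * g) * Real.exp (-(g / 2 * T)) := by
      rw [← Real.exp_add, Real.exp_le_exp]
      nlinarith
    have h1 := hA (m / 2) hj1 hj2
    have h2 := hex (m / 2) hj1 hj2
    have h3 : Real.exp (-(g / 64 * T)) ≤ (C₁ + C₅) * S.loc n ((m / 2 : ℕ) : ℝ) := by linarith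
    have hKT : 0 ≤ C' * (K * T * Real.exp ((5 * g / 64) * T)) := by positivity
    have h4 : S.loc n ((m / 2 : ℕ) : ℝ) ≤ C' * (K * T * Real.exp ((5 * g / 64) * T)) *
        (2 * Real.exp (2 * g) * Real.exp (-(g / 2 * T))) := by
      refine hfin.trans ?_
      refine mul_le_mul_of_nonneg_left ?_ hKT
      linarith
    have h5 : Real.exp (-(g / 64 * T)) ≤ K₂ * T * (Real.exp ((5 * g / 64) * T) *
        Real.exp (-(g / 2 * T))) := by
      refine h3.trans ?_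
      refine (mul_le_mul_of_nonneg_left h4 (by positivity)).trans (le_of_eq ?_)
      rw [hK₂]
      ring
    have h6 : Real.exp (c * T) ≤ K₂ * T := by
      have h7 : Real.exp (-(g / 64 * T)) = Real.exp (c * T) * (Real.exp ((5 * g / 64) * T) *
          Real.exp (-(g / 2 * T))) := by
        rw [← Real.exp_add, ← Real.exp_add]
        congr 1
        rw [hcd]
        ring
      rw [h7] at h5
      exact le_of_mul_le_mul_right h5 (by positivity)
    have h7 := Real.quadratic_le_exp_of_nonneg (show 0 ≤ c * T by positivity)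
    have h8 : K₂ * T ≤ (c * T) ^ 2 / 2 := by
      rw [div_le_iff₀ (by positivity)] at hTK
      nlinarith
    have h9 : 0 < c * T := by positivity
    linarith

end INDB
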