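import Pool.Agent.INDB.R1
import Pool.Agent.INDB.R2

/-!
# INDB, module RX: the right side
-/

open MeasureTheory Set Filter Topology

namespace INDB

theorem rx {ι : Type} [Fintype ι] (S : Sys ι) :
    ∃ σ ε T₀ : ℝ, S.Sub σ ∧ 0 < ε ∧ ∀ (T : ℝ) (n : ι → Measure ℝ), T₀ ≤ T → S.RHyp σ ε T n →
      S.Strict := by
  by_cases h : ∃ i, S.kind i = Kind.P
  · exact r1 S h
  · exact r2 S (fun i hi => h ⟨i, hi⟩)

end INDB
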