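import Pool.Agent.INDB.ProfE
import Pool.Agent.INDB.Cut
import Pool.Agent.INDB.RX

/-!
# INDB, module CaseD: dominance on the left gives a strict certificate

PROOF. `σ, ε, T₀` given by `rx` (here as hypothesis `hrx`), `sg = σ`. `C₁, c₄` are the constants of `cut` for `crit = univ.filter (kind = L)`, `i0 = l0`; `Lf`, `Of` are exactly the sums there. `Y₀ = ⌈C + 4⌉₊`. Let `WC p n`, `AP p K n`, `Y ≥ Y₀` natural, `Y ≤ M - 2`, `C₁ Of Y ≤ Lf Y`. `cut` gives `n'`. We verify `RHyp σ ε M' n'`, then `hrx`.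
Slack: for a.e. `y < M'`: if `y > -Y` (so `-M < y < M'`): `G n y ≥ 0` and `G n' y ≥ c₄ Lf(Y) w(-Y-y)`; if `y < -Y` the same. `Lf Y ≥ C₁ w(Y)`, `w(-Y-y) ≥ w(-Y) w(-y)`, `w(Y) w(-Y) = e^{-Y} ≥ e^{-M}`. So the slack is `≥ c₄ C₁ e^{-M} w(-y) ≥ e^{-ε M'} w(-y)` by `h1`.
Masses: `n i(ℝ) ≤ K E 0` (`E ≥ 1` on the support, `rhoL ≥ 1`), `E 0 = G1 e^{sg M} ≤ X² e^{M}`; `Lf Y ≤ (card ι) e^{C} K E 0` (`e^{b(x+Y)} ≤ e^{C}` for `x - s < -Y`); so `n' i(ℝ) ≤ K (1 + (card ι) e^C) X² e^M ≤ e^{ε M'}` by `h2`.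
Decay, `0 ≤ x ≤ M'`: `n' i [x,∞) ≤ n i [x,∞)` (`-Y + C + 3 < 0 ≤ x`). Kind `≠ L`: `E x · n i [x,∞) ≤ K E 0`, `E 0/E x = e^{-sg x}`. Kind `L`: for `x' ≥ x`, `z = x' - s ≥ x - C ≥ -M`: `rhoL z ≥ E (min z M')/(X+M') ≥ E(x - C)/(X+M') ≥ e^{-C} E x/(X+M')` (`E(x-C) ≥ E x e^{-sg C}`, both in the window), so
`n i [x,∞) ≤ K e^{C} (X + M') e^{-sg x} ≤ e^{ε M' - sg x}` by `h2` (`X + M' ≤ 2 X ≤ X²`).
-/

open MeasureTheory Set Filter Topology

namespace INDB

private lemma cd_markov {μ : Measure ℝ} [IsFiniteMeasure μ] {f : ℝ → ℝ} (hf : Integrable f μ)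
    (h0 : ∀ x, 0 ≤ f x) {A : Set ℝ} (hA : MeasurableSet A) {c : ℝ} (hc : ∀ x ∈ A, c ≤ f x) :
    c * μ.real A ≤ ∫ x, f x ∂μ := by
  have h1 : ∫ _x in A, c ∂μ ≤ ∫ x in A, f x ∂μ :=
    setIntegral_mono_on (integrable_const c).integrableOn hf.integrableOn hA hc
  rw [setIntegral_const, smul_eq_mul] at h1
  have h2 := setIntegral_le_integral (s := A) hf (Eventually.of_forall h0)
  linarith

theorem case_d {ι : Type} [Fintype ι] (S : Sys ι) {σ ε T₀ κ : ℝ} (hσ : 0 < σ) (hε : 0 < ε)
    (hrx : ∀ (T : ℝ) (n : ι → Measure ℝ), T₀ ≤ T → S.RHyp σ ε T n → S.Strict) :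
    ∃ (C₁ c₆ : ℝ) (Y₀ : ℕ), 1 ≤ C₁ ∧ 0 < c₆ ∧ S.C + 4 ≤ Y₀ ∧ ∀ (p : Par) (K : ℝ) (n : ι → Measure ℝ),
      p.OK κ S.C → p.sg = σ → 1 ≤ K → S.WC p n → S.AP p K n → T₀ ≤ p.M' →
      Real.exp (-(ε * p.M')) ≤ c₆ * Real.exp (-p.M) →
      K * (1 + Fintype.card ι * Real.exp S.C) * (p.X ^ 2 * Real.exp p.M) ≤ Real.exp (ε * p.M') →
      ¬ S.Strict → S.NoDom C₁ Y₀ p n := by
  classical
  have ha := S.ha
  have hb := S.hb
  have hab := S.hab
  have hC := S.hC
  have hb1 : S.b ≤ 1 := by linarith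
  obtain ⟨C₁, c₄, hC₁, hc₄, hcut⟩ := cut ha hb hab S.hc S.hC S.k S.kt S.s
    (Finset.univ.filter fun i => S.kind i = Kind.L) S.l0
    (Finset.mem_filter.2 ⟨Finset.mem_univ _, S.hl0⟩) S.hk S.hkt S.hs
    (fun i hi => S.patL i (Finset.mem_filter.1 hi).2)
  refine ⟨max 1 C₁, c₄ * C₁, ⌈S.C + 4⌉₊, le_max_left _ _, mul_pos hc₄ hC₁, Nat.le_ceil _, ?_⟩
  intro p K n hp hsg hK hW hA hT h1 h2 hns Y hY0 hYM
  by_contra hcon
  push Not at hcon
  have hfin := hW.fin
  obtain ⟨hMM, hcXM, hX2, hXM', hG1, hslope, hX16, hbeX, hG1X⟩ := hp.basic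
  have hM1 := hp.M1
  have hM0 : 0 < p.M := by linarith
  have hM'0 : 0 < p.M' := by linarith
  have hX0 : 0 < p.X := by linarith
  have hbe := hp.be1
  have hsg1 : p.sg < 1 := hp.sgκ.trans hp.κ1
  have hsg0 := hp.sg0
  have hY4 : S.C + 4 ≤ (Y : ℝ) := (Nat.le_ceil _).trans (by exact_mod_cast hY0)
  have hEpos := fun y => hp.pos_E y
  -- the sums of `cut`
  have hLf : ∑ i ∈ Finset.univ.filter (fun i => S.kind i = Kind.L),
      ∫ x in {x | x - S.s i < -(Y : ℝ)}, Real.exp (S.b * (x + Y)) ∂(n i) = S.Lf n Y := by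
    unfold Sys.Lf
    rw [Finset.sum_filter]
  have hOf : (∑ i ∈ (Finset.univ.filter (fun i => S.kind i = Kind.L))ᶜ,
      ∫ x, w S.a S.b (x + Y) ∂(n i)) + w S.a S.b Y = S.Of n Y := by
    unfold Sys.Of
    rw [Finset.compl_filter, Finset.sum_filter]
    congr 1
    refine Finset.sum_congr rfl fun i _ => ?_
    by_cases h : S.kind i = Kind.L
    · simp [h]
    · simp [h]
  have hOf0 : w S.a S.b Y ≤ S.Of n Y := by
    rw [← hOf]
    have h3 : 0 ≤ ∑ i ∈ (Finset.univ.filter (fun i => S.kind i = Kind.L))ᶜ,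
        ∫ x, w S.a S.b (x + Y) ∂(n i) :=
      Finset.sum_nonneg fun i _ => integral_nonneg fun x => (w_pos _ _ _).le
    linarith
  have hOfpos : 0 < S.Of n Y := lt_of_lt_of_le (w_pos _ _ _) hOf0
  have hdom : C₁ * S.Of n Y ≤ S.Lf n Y :=
    (mul_le_mul_of_nonneg_right (le_max_right 1 C₁) hOfpos.le).trans hcon.le
  obtain ⟨n', hn'fin, hn1, hn2, hn3, hn4⟩ := hcut n Y hfin (Nat.cast_nonneg _) (by
    rw [hOf, hLf]
    exact hdom)
  rw [hLf] at hn1 hn2 hn3
  -- the values of `E`
  have hE0 : p.E 0 = p.G1 * Real.exp (p.sg * p.M) := by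
    rw [Par.E_mid hp (by linarith) hM'0.le, zero_add]
  have hEx : ∀ x, -p.M ≤ x → x ≤ p.M' → p.E x = Real.exp (p.sg * x) * p.E 0 := by
    intro x hx1 hx2
    rw [Par.E_mid hp hx1 hx2, hE0, mul_add, Real.exp_add]
    ring
  have hE0pos : 0 < p.E 0 := hEpos 0
  have hE0X : p.E 0 ≤ p.X ^ 2 * Real.exp p.M := by
    rw [hE0]
    refine mul_le_mul hG1X (Real.exp_le_exp.2 ?_) (Real.exp_pos _).le (by positivity)
    have h0 := mul_le_mul_of_nonneg_right hsg1.le hM0.le
    rw [one_mul] at h0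
    exact h0
  -- total masses
  have hmass : ∀ i, (n i).real univ ≤ K * p.E 0 := by
    intro i
    have := hfin i
    by_cases hi : S.kind i = Kind.L
    · have h3 := cd_markov (hA.intL i hi) (fun x => zero_le_one.trans (hp.rhoL_ge_one _))
        MeasurableSet.univ (c := 1) (fun x _ => hp.rhoL_ge_one _)
      rw [one_mul] at h3
      exact h3.trans (hA.bndL i hi)
    · have h3 := cd_markov (A := Ici (-(p.X / 2))) (hA.intO i hi) (fun x => (hEpos x).le)
        measurableSet_Ici (c := 1) (fun x hx => by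
          have h4 := hp.E_ge (x := x) hx
          have h5 : 1 * (16 / 2) ≤ p.be * (p.X / 2) :=
            mul_le_mul hbe (by linarith) (by norm_num) (by linarith)
          linarith)
      rw [one_mul] at h3
      have h5 : (n i).real univ ≤ (n i).real (Iio (-(p.X / 2))) + (n i).real (Ici (-(p.X / 2))) := by
        have h6 : (univ : Set ℝ) = Iio (-(p.X / 2)) ∪ Ici (-(p.X / 2)) := Iio_union_Ici.symm
        rw [h6]
        exact measureReal_union_le _ _
      have h6 : (n i).real (Iio (-(p.X / 2))) = 0 := by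
        rw [Measure.real, hW.supp i]
        rfl
      rw [h6, zero_add] at h5
      exact h5.trans (h3.trans (hA.bndO i hi))
  have hKE : 0 < K * p.E 0 := mul_pos (by linarith) hE0pos
  have hLfle : S.Lf n Y ≤ Fintype.card ι * Real.exp S.C * (K * p.E 0) := by
    rw [← hLf]
    have h3 : ∀ i ∈ Finset.univ.filter (fun i => S.kind i = Kind.L),
        ∫ x in {x | x - S.s i < -(Y : ℝ)}, Real.exp (S.b * (x + Y)) ∂(n i) ≤
          Real.exp S.C * (K * p.E 0) := by
      intro i _
      have := hfin i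
      have hs := abs_le.1 (S.hs i)
      have h4 : ∀ x ∈ {x | x - S.s i < -(Y : ℝ)}, ‖Real.exp (S.b * (x + Y))‖ ≤ Real.exp S.C := by
        intro x hx
        rw [Real.norm_of_nonneg (Real.exp_pos _).le]
        apply Real.exp_le_exp.2
        have hx' : x - S.s i < -(Y : ℝ) := hx
        rcases le_total (x + Y) 0 with h5 | h5
        · exact (mul_nonpos_of_nonneg_of_nonpos hb.le h5).trans (by linarith)
        · have h6 := mul_le_mul_of_nonneg_right hb1 h5
          rw [one_mul] at h6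
          exact h6.trans (by linarith [hs.2])
      have h5 := norm_setIntegral_le_of_norm_le_const (μ := n i)
        (s := {x | x - S.s i < -(Y : ℝ)}) (measure_lt_top _ _) h4
      have h6 : (n i).real {x | x - S.s i < -(Y : ℝ)} ≤ K * p.E 0 :=
        (measureReal_mono (subset_univ _)).trans (hmass i)
      exact (le_abs_self _).trans (h5.trans (mul_le_mul_of_nonneg_left h6 (Real.exp_pos _).le))
    refine (Finset.sum_le_sum h3).trans ?_
    rw [Finset.sum_const, nsmul_eq_mul]
    have h4 : ((Finset.univ.filter (fun i => S.kind i = Kind.L)).card : ℝ) ≤ Fintype.card ι := by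
      exact_mod_cast Finset.card_le_univ _
    have h5 : 0 ≤ Real.exp S.C * (K * p.E 0) := mul_nonneg (Real.exp_pos _).le hKE.le
    calc _ ≤ (Fintype.card ι : ℝ) * (Real.exp S.C * (K * p.E 0)) :=
          mul_le_mul_of_nonneg_right h4 h5
      _ = _ := by ring
  have hcard : (1 : ℝ) ≤ Fintype.card ι := by
    have : 0 < Fintype.card ι := Fintype.card_pos_iff.2 ⟨S.l0⟩
    exact_mod_cast this
  have heC := Real.exp_pos S.C
  have heM : 1 ≤ Real.exp p.M := Real.one_le_exp hM0.le
  have hX1 : 2 * p.X ≤ p.X ^ 2 := by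
    rw [sq]
    exact mul_le_mul_of_nonneg_right (by linarith) hX0.le
  have hXe : 2 * p.X ≤ p.X ^ 2 * Real.exp p.M :=
    hX1.trans (le_mul_of_one_le_right (sq_nonneg _) heM)
  -- `n'` satisfies the hypotheses of the right side
  apply hns
  refine hrx p.M' n' hT ⟨hn'fin, ?_, ?_, ?_⟩
  · -- slack
    have hne : ∀ᵐ y : ℝ, y ≠ -(Y : ℝ) := by
      rw [ae_iff]
      simp
    have hY0' : (0 : ℝ) ≤ Y := Nat.cast_nonneg _
    filter_upwards [hn1, hn2, hW.pos, hne] with y g1 g2 g3 g4 hyM
    have hww : Real.exp (-p.M) * w S.a S.b (-y) ≤ w S.a S.b Y * w S.a S.b (-Y - y) := by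
      have h3 := w_add_ge ha.le hb.le (-(Y : ℝ)) (-y)
      have h4 : w S.a S.b Y * w S.a S.b (-(Y : ℝ)) = Real.exp (-Y) := by
        rw [w_nonneg_eq hY0', w_nonpos_eq (by linarith), ← Real.exp_add]
        congr 1
        linear_combination (-(Y : ℝ)) * hab
      have h5 : Real.exp (-p.M) ≤ Real.exp (-(Y : ℝ)) := Real.exp_le_exp.2 (by linarith)
      calc Real.exp (-p.M) * w S.a S.b (-y) ≤ Real.exp (-(Y : ℝ)) * w S.a S.b (-y) :=
            mul_le_mul_of_nonneg_right h5 (w_pos _ _ _).le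
        _ = w S.a S.b Y * (w S.a S.b (-(Y : ℝ)) * w S.a S.b (-y)) := by rw [← h4]; ring
        _ ≤ w S.a S.b Y * w S.a S.b (-(Y : ℝ) + -y) :=
            mul_le_mul_of_nonneg_left h3 (w_pos _ _ _).le
        _ = _ := by rw [← sub_eq_add_neg]
    have hmain : Real.exp (-(ε * p.M')) * w S.a S.b (-y) ≤
        c₄ * S.Lf n Y * w S.a S.b (-Y - y) := by
      calc Real.exp (-(ε * p.M')) * w S.a S.b (-y)
          ≤ c₄ * C₁ * Real.exp (-p.M) * w S.a S.b (-y) :=
            mul_le_mul_of_nonneg_right h1 (w_pos _ _ _).le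
        _ = c₄ * C₁ * (Real.exp (-p.M) * w S.a S.b (-y)) := by ring
        _ ≤ c₄ * C₁ * (w S.a S.b Y * w S.a S.b (-Y - y)) :=
            mul_le_mul_of_nonneg_left hww (mul_pos hc₄ hC₁).le
        _ = c₄ * (C₁ * w S.a S.b Y) * w S.a S.b (-Y - y) := by ring
        _ ≤ c₄ * S.Lf n Y * w S.a S.b (-Y - y) := by
            refine mul_le_mul_of_nonneg_right (mul_le_mul_of_nonneg_left ?_ hc₄.le)
              (w_pos _ _ _).le
            exact (mul_le_mul_of_nonneg_left hOf0 hC₁.le).trans hdom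
    refine hmain.trans ?_
    rcases lt_or_gt_of_ne g4 with h6 | h6
    · exact g2 h6
    · have h7 := g1 h6
      have h8 := g3 (by linarith) hyM
      linarith
  · -- masses
    intro i
    calc (n' i).real univ ≤ (n i).real univ + S.Lf n Y := hn3 i
      _ ≤ K * p.E 0 + Fintype.card ι * Real.exp S.C * (K * p.E 0) := add_le_add (hmass i) hLfle
      _ = K * (1 + Fintype.card ι * Real.exp S.C) * p.E 0 := by ring
      _ ≤ K * (1 + Fintype.card ι * Real.exp S.C) * (p.X ^ 2 * Real.exp p.M) := by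
          refine mul_le_mul_of_nonneg_left hE0X ?_
          positivity
      _ ≤ _ := h2
  · -- decay
    intro i x hx0 hxM
    have := hfin i
    have hs := abs_le.1 (S.hs i)
    refine (hn4 i x (by linarith)).trans ?_
    have hgoal : (n i).real (Ici x) ≤ K * Real.exp S.C * (2 * p.X) * Real.exp (-(σ * x)) := by
      by_cases hi : S.kind i = Kind.L
      · have h3 := cd_markov (A := Ici x) (hA.intL i hi)
          (fun x => zero_le_one.trans (hp.rhoL_ge_one _)) measurableSet_Ici
          (c := Real.exp (-S.C) * Real.exp (σ * x) * p.E 0 / (2 * p.X)) (fun x' hx' => by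
            have hx'' : x ≤ x' := hx'
            have h4 := hp.rhoL_ge (z := x' - S.s i) (by linarith)
            have h5 : p.E (x - S.C) ≤ p.E (min (x' - S.s i) p.M') :=
              hp.mono_E (le_min (by linarith) (by linarith))
            have h6 : p.E (x - S.C) = Real.exp (p.sg * (x - S.C)) * p.E 0 :=
              hEx _ (by linarith) (by linarith)
            have h7 : Real.exp (-S.C) * Real.exp (σ * x) ≤ Real.exp (p.sg * (x - S.C)) := by
              rw [← Real.exp_add, hsg]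
              apply Real.exp_le_exp.2
              rw [hsg] at hsg1
              have h0 : σ * S.C ≤ 1 * S.C := mul_le_mul_of_nonneg_right hsg1.le (by linarith)
              linarith
            calc Real.exp (-S.C) * Real.exp (σ * x) * p.E 0 / (2 * p.X)
                ≤ p.E (x - S.C) / (2 * p.X) := by
                  rw [h6]
                  gcongr
              _ ≤ p.E (x - S.C) / (p.X + p.M') :=
                  div_le_div_of_nonneg_left (hEpos _).le (by linarith) hXM'
              _ ≤ p.E (min (x' - S.s i) p.M') / (p.X + p.M') := by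
                  gcongr
              _ ≤ _ := h4)
        have h8 := h3.trans (hA.bndL i hi)
        have h9 : Real.exp (-S.C) * Real.exp (σ * x) * p.E 0 / (2 * p.X) *
            (n i).real (Ici x) * (Real.exp S.C * (2 * p.X) * Real.exp (-(σ * x))) ≤
            K * p.E 0 * (Real.exp S.C * (2 * p.X) * Real.exp (-(σ * x))) :=
          mul_le_mul_of_nonneg_right h8 (by positivity)
        have e1 : Real.exp (-S.C) * Real.exp S.C = 1 := by
          rw [← Real.exp_add, neg_add_cancel, Real.exp_zero]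
        have e2 : Real.exp (σ * x) * Real.exp (-(σ * x)) = 1 := by
          rw [← Real.exp_add, add_neg_cancel, Real.exp_zero]
        have h10 : Real.exp (-S.C) * Real.exp (σ * x) * p.E 0 / (2 * p.X) *
            (n i).real (Ici x) * (Real.exp S.C * (2 * p.X) * Real.exp (-(σ * x))) =
            p.E 0 * (n i).real (Ici x) := by
          calc _ = (Real.exp (-S.C) * Real.exp S.C) * (Real.exp (σ * x) * Real.exp (-(σ * x))) *
                (p.E 0 * (n i).real (Ici x)) := by
                field_simp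
            _ = _ := by rw [e1, e2]; ring
        rw [h10] at h9
        have h11 : p.E 0 * (n i).real (Ici x) ≤
            p.E 0 * (K * Real.exp S.C * (2 * p.X) * Real.exp (-(σ * x))) := by
          refine h9.trans (le_of_eq ?_)
          ring
        exact le_of_mul_le_mul_left h11 hE0pos
      · have h3 := cd_markov (A := Ici x) (hA.intO i hi) (fun x => (hEpos x).le) measurableSet_Ici
          (c := p.E x) (fun x' hx' => hp.mono_E hx')
        have h8 := h3.trans (hA.bndO i hi)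
        rw [hEx x (by linarith) hxM, hsg] at h8
        have e2 : Real.exp (-(σ * x)) * Real.exp (σ * x) = 1 := by
          rw [← Real.exp_add, neg_add_cancel, Real.exp_zero]
        have h9 := mul_le_mul_of_nonneg_left h8 (Real.exp_pos (-(σ * x))).le
        have h10 : Real.exp (-(σ * x)) * (Real.exp (σ * x) * p.E 0 * (n i).real (Ici x)) =
            p.E 0 * (n i).real (Ici x) := by
          calc _ = (Real.exp (-(σ * x)) * Real.exp (σ * x)) * (p.E 0 * (n i).real (Ici x)) := by
                ring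
            _ = _ := by rw [e2, one_mul]
        rw [h10] at h9
        have h11 : p.E 0 * (n i).real (Ici x) ≤ p.E 0 * (K * Real.exp (-(σ * x))) := by
          refine h9.trans (le_of_eq ?_)
          ring
        have h12 := le_of_mul_le_mul_left h11 hE0pos
        refine h12.trans ?_
        refine mul_le_mul_of_nonneg_right ?_ (Real.exp_pos _).le
        have h13 : 1 ≤ Real.exp S.C * (2 * p.X) :=
          one_le_mul_of_one_le_of_one_le (Real.one_le_exp (by linarith)) (by linarith)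
        have h14 : K * 1 ≤ K * (Real.exp S.C * (2 * p.X)) :=
          mul_le_mul_of_nonneg_left h13 (by linarith)
        linarith
    refine hgoal.trans ?_
    rw [sub_eq_add_neg, Real.exp_add]
    refine mul_le_mul_of_nonneg_right ?_ (Real.exp_pos _).le
    refine le_trans ?_ h2
    have h3 : Real.exp S.C ≤ 1 + Fintype.card ι * Real.exp S.C := by
      have h0 := mul_le_mul_of_nonneg_right hcard heC.le
      linarith
    calc K * Real.exp S.C * (2 * p.X) ≤ K * (1 + Fintype.card ι * Real.exp S.C) * (2 * p.X) := by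
          gcongr
      _ ≤ K * (1 + Fintype.card ι * Real.exp S.C) * (p.X ^ 2 * Real.exp p.M) := by
          gcongr

end INDB
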