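import Pool.Agent.INDB.CatN

/-!
# INDB, module CatG: growth of the global density

PROOFS. Let `ε > 0`. For `y ≥ q 0` let `j` be the index with `q j ≤ y < q (j+1)` (`q → ∞`, increasing); `X j ≤ (16/15) y` (`q j ≥ (15/16) X j`). In the window (`|y - X j| ≤ L j`): `Nf y = N j (y - X j) ≤ exp(Q j)`, `Q j ≤ exp(X j/(j+1)) ≤ exp (2 y/(j+1))`; outside: `Nf y = be (j+1) y ≤ exp(X j/(j+1)) y ≤ exp (2y/(j+1)) y`.
For the finitely many `j` with `2/(j+1) > ε` everything is bounded on the corresponding bounded interval of `y`. So `Nf y ≤ exp (C exp(ε y))`.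
Mass of `[y,y+1]`: the windows meeting `[y,y+1]`: at most one (`L 1 ≥ 1`, gaps are longer than `1`: `q (j+1) - (X j + L j) ≥ 2`), it contributes at most `Q j` (`Shape.mass`, translate by `X j`), the rest is bounded by `sup be * (y+1)` over at most two slopes `be j`, `be (j+1)`, each `≤ exp (X j/(j+1))` resp. `be j ≤ exp(X j /(j+1))`; as above
`≤ C exp(ε y)`. (For the part of `[y,y+1]` left of window `j` the slope is `be j`.) Integrability on `[y, y+1]`: measurable and bounded.
`low`: on `[X j + L j, X j + L j + 1]`: `Nf = be (j+1) y ≥ 1`.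
-/

open MeasureTheory Set Filter Topology

namespace INDB

variable {X be c0 L Q : ℕ → ℝ} {N : ℕ → ℝ → ℝ}

/-- the index of a point -/
private lemma cg_loc (h : Chain X be c0 L Q N) {y : ℝ} (hy : X 0 - L 0 ≤ y) :
    ∃ j, X j - L j ≤ y ∧ y < X (j + 1) - L (j + 1) := by
  classical
  have hex : ∃ j, y < X (j + 1) - L (j + 1) := by
    obtain ⟨j, hj⟩ := (h.tendsto.eventually (eventually_ge_atTop (2 * |y| + 2))).exists
    refine ⟨j, ?_⟩
    have h1 := h.q_lt j
    have h2 := h.XL j
    have h3 := h.L1 j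
    have h4 := le_abs_self y
    have h5 := abs_nonneg y
    linarith
  refine ⟨Nat.find hex, ?_, Nat.find_spec hex⟩
  rcases Nat.eq_zero_or_pos (Nat.find hex) with h0 | h0
  · rw [h0]; exact hy
  · have h1 := Nat.find_min hex (m := Nat.find hex - 1) (by omega)
    have h2 : Nat.find hex - 1 + 1 = Nat.find hex := by omega
    rw [h2, not_lt] at h1
    exact h1

private lemma cg_Q0 (h : Chain X be c0 L Q N) (j : ℕ) : 0 ≤ Q j := by
  refine le_trans ?_ (h.sh j).mass
  exact integral_nonneg fun y => (h.sh j).nn y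

private lemma cg_X (h : Chain X be c0 L Q N) (j : ℕ) : X j ≤ 2 * (X j - L j) := by
  have h2 := h.XL j
  have h3 := h.L1 j
  linarith

/-- the numbers `exp (X j / (j+1))` grow slowly -/
private lemma cg_E (h : Chain X be c0 L Q N) {ε : ℝ} (hε : 0 < ε) :
    ∃ K : ℝ, 0 ≤ K ∧ ∀ (j : ℕ) (y : ℝ), X j - L j ≤ y →
      Real.exp (X j / ((j : ℝ) + 1)) ≤ K * Real.exp (ε * y) := by
  obtain ⟨J, hJ⟩ := exists_nat_ge (2 / ε)
  refine ⟨(∑ i ∈ Finset.range J, Real.exp (X i / ((i : ℝ) + 1))) + 1,
    add_nonneg (Finset.sum_nonneg fun i _ => (Real.exp_pos _).le) zero_le_one,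
    fun j y hy => ?_⟩
  have hy0 : 0 ≤ y := by
    have h2 := h.XL j
    have h3 := h.L1 j
    linarith
  have hS : 0 ≤ ∑ i ∈ Finset.range J, Real.exp (X i / ((i : ℝ) + 1)) :=
    Finset.sum_nonneg fun i _ => (Real.exp_pos _).le
  have hexp : 1 ≤ Real.exp (ε * y) := Real.one_le_exp (by positivity)
  rcases lt_or_ge j J with hj | hj
  · have h1 : Real.exp (X j / ((j : ℝ) + 1)) ≤
        ∑ i ∈ Finset.range J, Real.exp (X i / ((i : ℝ) + 1)) :=
      Finset.single_le_sum (f := fun i : ℕ => Real.exp (X i / ((i : ℝ) + 1)))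
        (fun i _ => (Real.exp_pos _).le) (Finset.mem_range.mpr hj)
    have h2 : (∑ i ∈ Finset.range J, Real.exp (X i / ((i : ℝ) + 1))) + 1 ≤
        ((∑ i ∈ Finset.range J, Real.exp (X i / ((i : ℝ) + 1))) + 1) * Real.exp (ε * y) :=
      le_mul_of_one_le_right (by linarith) hexp
    linarith
  · have hj' : (J : ℝ) ≤ (j : ℝ) := by exact_mod_cast hj
    have h1 : X j / ((j : ℝ) + 1) ≤ ε * y := by
      rw [div_le_iff₀ (by positivity)]
      have h2 := cg_X h j
      have h3 : 2 ≤ ε * ((j : ℝ) + 1) := by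
        have h4 : 2 ≤ (J : ℝ) * ε := (div_le_iff₀ hε).mp hJ
        nlinarith
      nlinarith
    have h2 : Real.exp (X j / ((j : ℝ) + 1)) ≤ Real.exp (ε * y) := Real.exp_le_exp.mpr h1
    have h3 : 0 ≤ (∑ i ∈ Finset.range J, Real.exp (X i / ((i : ℝ) + 1))) * Real.exp (ε * y) :=
      mul_nonneg hS (Real.exp_pos _).le
    rw [add_mul, one_mul]
    linarith

private lemma cg_lin {ε : ℝ} (hε : 0 < ε) (y : ℝ) : y ≤ 1 / ε * Real.exp (ε * y) := by
  have h1 := Real.add_one_le_exp (ε * y)
  rw [one_div, inv_mul_eq_div, le_div_iff₀ hε]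
  linarith

theorem glob_sup (h : Chain X be c0 L Q N) {Nf : ℝ → ℝ} (hg : Glob X be L N Nf) :
    ∀ ε : ℝ, 0 < ε → ∃ C : ℝ, ∀ y, 0 ≤ y → Nf y ≤ Real.exp (C * Real.exp (ε * y)) := by
  intro ε hε
  obtain ⟨K, hK0, hK⟩ := cg_E h hε
  have hb0 := h.be1 0
  have hbε : 0 ≤ be 0 / ε := div_nonneg (by linarith) hε.le
  have hε1 : 0 ≤ 1 / ε := (one_div_pos.mpr hε).le
  refine ⟨K + 1 / ε + be 0 / ε, fun y hy => ?_⟩
  have hexp := Real.exp_pos (ε * y)
  have hlin := cg_lin hε y
  rcases lt_or_ge y (X 0 - L 0) with h1 | h1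
  · have h2 : Nf y ≤ be 0 * y := by
      rcases hy.eq_or_lt with h3 | h3
      · rw [← h3, hg.zero 0 le_rfl, mul_zero]
      · exact (hg.first y h3 h1).le
    have h3 : be 0 * y ≤ be 0 / ε * Real.exp (ε * y) := by
      calc be 0 * y ≤ be 0 * (1 / ε * Real.exp (ε * y)) :=
            mul_le_mul_of_nonneg_left hlin (by linarith)
        _ = be 0 / ε * Real.exp (ε * y) := by ring
    have h4 : be 0 / ε * Real.exp (ε * y) ≤ (K + 1 / ε + be 0 / ε) * Real.exp (ε * y) :=
      mul_le_mul_of_nonneg_right (by linarith) hexp.le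
    have h5 := Real.add_one_le_exp ((K + 1 / ε + be 0 / ε) * Real.exp (ε * y))
    linarith
  · obtain ⟨j, hj1, hj2⟩ := cg_loc h h1
    have hs := h.sm j
    have hQ := cg_Q0 h j
    have hb1 := h.be1 j
    have hb2 := h.be1 (j + 1)
    set E := Real.exp (X j / ((j : ℝ) + 1)) with hE
    have hEp : 0 < E := Real.exp_pos _
    have hNf : Nf y ≤ Real.exp E + E * y := by
      rw [hg.win j y hj1 hj2]
      rcases le_or_gt y (X j + L j) with h2 | h2
      · have h3 := (h.sh j).sup (y - X j) (by linarith) (by linarith)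
        have h4 : Real.exp (Q j) ≤ Real.exp E := Real.exp_le_exp.mpr (by linarith)
        have h5 : 0 ≤ E * y := mul_nonneg hEp.le hy
        linarith
      · rw [(h.sh j).right (y - X j) (by linarith), sub_add_cancel]
        have h3 : be (j + 1) * y ≤ E * y := mul_le_mul_of_nonneg_right (by linarith) hy
        have h4 := Real.exp_pos E
        linarith
    have h2 : Real.exp E + E * y ≤ Real.exp E * (y + 1) := by
      have h3 : E * y ≤ Real.exp E * y :=
        mul_le_mul_of_nonneg_right (by linarith [Real.add_one_le_exp E]) hy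
      linarith
    have h3 : Real.exp E * (y + 1) ≤ Real.exp E * Real.exp y :=
      mul_le_mul_of_nonneg_left (Real.add_one_le_exp y) (Real.exp_pos _).le
    rw [← Real.exp_add] at h3
    refine hNf.trans (h2.trans (h3.trans (Real.exp_le_exp.mpr ?_)))
    have h4 := hK j y hj1
    have h5 : 0 ≤ be 0 / ε * Real.exp (ε * y) := mul_nonneg hbε hexp.le
    rw [add_mul, add_mul]
    linarith

theorem glob_mass (h : Chain X be c0 L Q N) {Nf : ℝ → ℝ} (hg : Glob X be L N Nf) :
    ∀ ε : ℝ, 0 < ε → ∃ C : ℝ, 0 ≤ C ∧ ∀ y, 0 ≤ y →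
      IntegrableOn Nf (Icc y (y + 1)) ∧ ∫ t in Icc y (y + 1), Nf t ≤ C * Real.exp (ε * y) := by
  intro ε hε
  obtain ⟨K, hK0, hK⟩ := cg_E h (half_pos hε)
  have hb0 := h.be1 0
  have hC0 : 0 ≤ (K + be 0) * (1 / (ε / 2)) * Real.exp ε := by positivity
  refine ⟨(K + be 0) * (1 / (ε / 2)) * Real.exp ε, hC0, fun y hy => ?_⟩
  have hint : IntegrableOn Nf (Icc y (y + 1)) := by
    obtain ⟨C, hC⟩ := glob_sup h hg 1 one_pos
    refine Measure.integrableOn_of_bounded (M := Real.exp (|C| * Real.exp (1 * (y + 1))))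
      (by simp) hg.meas.aestronglyMeasurable ?_
    refine (ae_restrict_iff' measurableSet_Icc).mpr (Eventually.of_forall fun t ht => ?_)
    rw [Real.norm_of_nonneg (hg.nn t)]
    refine (hC t (hy.trans ht.1)).trans (Real.exp_le_exp.mpr ?_)
    refine mul_le_mul (le_abs_self C) (Real.exp_le_exp.mpr ?_) (Real.exp_pos _).le (abs_nonneg C)
    linarith [ht.2]
  refine ⟨hint, ?_⟩
  have hvol : (volume : Measure ℝ).real (Icc y (y + 1)) = 1 := by
    rw [Real.volume_real_Icc_of_le (by linarith)]; ring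
  -- it suffices to have the bound by `(K + be 0) * exp(ε/2 (y+1)) * (y+1)`
  have hfin : (K + be 0) * Real.exp (ε / 2 * (y + 1)) * (y + 1) ≤
      (K + be 0) * (1 / (ε / 2)) * Real.exp ε * Real.exp (ε * y) := by
    have h1 := cg_lin (half_pos hε) (y + 1)
    have h2 : Real.exp ε * Real.exp (ε * y) =
        Real.exp (ε / 2 * (y + 1)) * Real.exp (ε / 2 * (y + 1)) := by
      rw [← Real.exp_add, ← Real.exp_add]
      congr 1
      ring
    calc (K + be 0) * Real.exp (ε / 2 * (y + 1)) * (y + 1)
        ≤ (K + be 0) * Real.exp (ε / 2 * (y + 1)) * (1 / (ε / 2) * Real.exp (ε / 2 * (y + 1))) :=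
          mul_le_mul_of_nonneg_left h1 (by positivity)
      _ = (K + be 0) * (1 / (ε / 2)) *
          (Real.exp (ε / 2 * (y + 1)) * Real.exp (ε / 2 * (y + 1))) := by ring
      _ = _ := by rw [← h2]; ring
  refine le_trans ?_ hfin
  have hexp1 : 1 ≤ Real.exp (ε / 2 * (y + 1)) := Real.one_le_exp (by positivity)
  rcases lt_or_ge (y + 1) (X 0 - L 0) with h1 | h1
  · have h2 : ∫ t in Icc y (y + 1), Nf t ≤ ∫ t in Icc y (y + 1), be 0 * (y + 1) := by
      refine setIntegral_mono_on hint (integrableOn_const (by simp)) measurableSet_Icc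
        fun t ht => ?_
      rcases (hy.trans ht.1).eq_or_lt with h3 | h3
      · rw [← h3, hg.zero 0 le_rfl]
        positivity
      · rw [hg.first t h3 (lt_of_le_of_lt ht.2 h1)]
        exact mul_le_mul_of_nonneg_left ht.2 (by linarith)
    rw [setIntegral_const, hvol, one_smul] at h2
    refine h2.trans ?_
    have h3 : be 0 ≤ (K + be 0) * Real.exp (ε / 2 * (y + 1)) := by
      calc be 0 ≤ (K + be 0) * 1 := by linarith
        _ ≤ _ := mul_le_mul_of_nonneg_left hexp1 (by linarith)
    exact mul_le_mul_of_nonneg_right h3 (by linarith)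
  · obtain ⟨j, hj1, hj2⟩ := cg_loc h h1
    have hs := h.sm j
    have hQ := cg_Q0 h j
    have hb1 := h.be1 j
    have hb2 := h.be1 (j + 1)
    have hL1 := h.L1 j
    have hindI : Integrable (indicator (Icc (-(L j)) (L j)) (N j)) := by
      rw [integrable_indicator_iff measurableSet_Icc]
      refine Measure.integrableOn_of_bounded (M := Real.exp (Q j))
        (by simp) (h.sh j).meas.aestronglyMeasurable ?_
      refine (ae_restrict_iff' measurableSet_Icc).mpr (Eventually.of_forall fun t ht => ?_)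
      rw [Real.norm_of_nonneg ((h.sh j).nn t)]
      exact (h.sh j).sup t ht.1 ht.2
    have hindT : Integrable (fun t => indicator (Icc (-(L j)) (L j)) (N j) (t - X j)) :=
      hindI.comp_sub_right (X j)
    have hpt : ∀ t ∈ Icc y (y + 1), Nf t ≤ (be j + be (j + 1)) * (y + 1) +
        indicator (Icc (-(L j)) (L j)) (N j) (t - X j) := by
      intro t ht
      have ht0 : 0 ≤ t := hy.trans ht.1
      have hi0 : 0 ≤ indicator (Icc (-(L j)) (L j)) (N j) (t - X j) :=
        indicator_nonneg (fun s _ => (h.sh j).nn s) _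
      have hbt : (be j + be (j + 1)) * t ≤ (be j + be (j + 1)) * (y + 1) :=
        mul_le_mul_of_nonneg_left ht.2 (by linarith)
      have hbt1 : 0 ≤ be j * t := mul_nonneg (by linarith) ht0
      have hbt2 : 0 ≤ be (j + 1) * t := mul_nonneg (by linarith) ht0
      rcases lt_or_ge t (X j - L j) with h3 | h3
      · have h4 : Nf t ≤ be j * t := by
          rcases Nat.eq_zero_or_pos j with h0 | h0
          · subst h0
            rcases ht0.eq_or_lt with h5 | h5
            · rw [← h5, hg.zero 0 le_rfl, mul_zero]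
            · exact (hg.first t h5 h3).le
          · obtain ⟨i, rfl⟩ : ∃ i, j = i + 1 := ⟨j - 1, by omega⟩
            have h5 := h.XX i
            have h6 := h.XL i
            have h7 := h.XL (i + 1)
            have h8 := h.L1 i
            have h9 := ht.1
            exact (hg.between h i (by linarith) h3).le
        linarith
      · rcases le_or_gt t (X j + L j) with h4 | h4
        · rw [hg.win j t h3 (lt_of_le_of_lt ht.2 hj2),
            indicator_of_mem (show t - X j ∈ Icc (-(L j)) (L j) from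
              ⟨by linarith, by linarith⟩)]
          have : 0 ≤ (be j + be (j + 1)) * (y + 1) := by positivity
          linarith
        · rw [hg.between h j h4.le (lt_of_le_of_lt ht.2 hj2)]
          linarith
    have h2 : ∫ t in Icc y (y + 1), Nf t ≤ ∫ t in Icc y (y + 1),
        ((be j + be (j + 1)) * (y + 1) + indicator (Icc (-(L j)) (L j)) (N j) (t - X j)) :=
      setIntegral_mono_on hint ((integrableOn_const (by simp)).add hindT.integrableOn)
        measurableSet_Icc hpt
    have h3 : ∫ t in Icc y (y + 1),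
        ((be j + be (j + 1)) * (y + 1) + indicator (Icc (-(L j)) (L j)) (N j) (t - X j)) =
        (be j + be (j + 1)) * (y + 1) +
          ∫ t in Icc y (y + 1), indicator (Icc (-(L j)) (L j)) (N j) (t - X j) := by
      have hci : Integrable (fun _ : ℝ => (be j + be (j + 1)) * (y + 1))
          (volume.restrict (Icc y (y + 1))) := integrable_const _
      rw [integral_add hci hindT.integrableOn, setIntegral_const, hvol, one_smul]
    have h4 : ∫ t in Icc y (y + 1), indicator (Icc (-(L j)) (L j)) (N j) (t - X j) ≤ Q j := by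
      refine le_trans (setIntegral_le_integral hindT (Eventually.of_forall fun t =>
        indicator_nonneg (fun s _ => (h.sh j).nn s) _)) ?_
      rw [integral_sub_right_eq_self (indicator (Icc (-(L j)) (L j)) (N j)) (X j),
        integral_indicator measurableSet_Icc]
      exact (h.sh j).mass
    have h5 := hK j (y + 1) hj1
    have h6 : ∫ t in Icc y (y + 1), Nf t ≤ (Q j + be j + be (j + 1)) * (y + 1) := by
      have h7 : Q j ≤ Q j * (y + 1) := le_mul_of_one_le_right hQ (by linarith)
      linarith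
    refine h6.trans (mul_le_mul_of_nonneg_right ?_ (by linarith))
    have h8 : K * Real.exp (ε / 2 * (y + 1)) ≤ (K + be 0) * Real.exp (ε / 2 * (y + 1)) :=
      mul_le_mul_of_nonneg_right (by linarith) (Real.exp_pos _).le
    linarith

theorem glob_low (h : Chain X be c0 L Q N) {Nf : ℝ → ℝ} (hg : Glob X be L N Nf) :
    ∀ Y : ℝ, ∃ y, Y ≤ y ∧ 1 ≤ ∫ t in Icc y (y + 1), Nf t := by
  intro Y
  obtain ⟨C, hC0, hC⟩ := glob_mass h hg 1 one_pos
  obtain ⟨j, hj⟩ := (h.tendsto.eventually (eventually_ge_atTop Y)).exists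
  have h1 := h.L1 j
  have h2 := h.XL j
  have h3 := h.XX j
  have h4 := h.XL (j + 1)
  have h5 := h.be1 (j + 1)
  refine ⟨X j + L j, by linarith, ?_⟩
  have hvol : (volume : Measure ℝ).real (Icc (X j + L j) (X j + L j + 1)) = 1 := by
    rw [Real.volume_real_Icc_of_le (by linarith)]; ring
  have h6 : ∫ t in Icc (X j + L j) (X j + L j + 1), (1 : ℝ) ≤
      ∫ t in Icc (X j + L j) (X j + L j + 1), Nf t := by
    refine setIntegral_mono_on (integrableOn_const (by simp)) (hC _ (by linarith)).1
      measurableSet_Icc fun t ht => ?_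
    have ht1 := ht.1
    have ht2 := ht.2
    rw [hg.between h j ht.1 (by linarith)]
    have h7 : 1 ≤ t := by linarith
    nlinarith
  rw [setIntegral_const, hvol, one_smul] at h6
  exact h6

end INDB
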