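import Pool.Agent.INDB.CDefs

/-!
# INDB, module CatN: the global density of a chain, simple facts

PROOFS. `q j = X j - L j` is strictly increasing and tends to `∞` (`X (j+1) ≥ 16 X j`, `L j ≤ X j/16`, `X 0 ≥ 32`): `chain_tendsto`, `chain_X_ge`: `X j ≥ 16^(j+1)`. `exists_glob`: define `Nf y = 0` for `y ≤ 0`, `be 0 * y` for `0 < y < q 0`, and `N j (y - X j)` on `[q j, q (j+1))`, e.g. with `J y = Nat.findGreatest`-style index or
`Nf y = (if 0 < y ∧ y < q 0 then be 0 * y else 0) + ∑' j, (Ico (q j) (q (j+1))).indicator (fun y => N j (y - X j)) y` (at most one nonzero term, `Measurable.tsum`-type or: `Measurable` because it is a countable piecewise function; alternatively the supremum over `j` of nonnegative indicators).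
`between`: for `j ≥ 0` and `X j + L j ≤ y < q (j+1)`: `Nf y = be (j+1) * y` (`Shape.right`). `local_eq`: the model `Mf y := N j (y - X j)` equals `be j * max y (c0 j)` for `y ≤ q j`, `be (j+1) * y` for `y ≥ X j + L j`; hence `Nf y = Mf y` for `r ≤ y < q (j+1)` where `r = X (j-1) + L (j-1)` (`j ≥ 1`, `c0 j ≤ X (j-1) ≤ r`).
-/

open MeasureTheory Set Filter Topology

namespace INDB

variable {X be c0 L Q : ℕ → ℝ} {N : ℕ → ℝ → ℝ}

lemma Chain.X_ge (h : Chain X be c0 L Q N) (j : ℕ) : (16 : ℝ) ^ (j + 1) ≤ X j := by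
  induction j with
  | zero =>
    have h1 := h.XL 0
    have h2 := h.L1 0
    norm_num
    linarith
  | succ j ih =>
    have h1 := h.XX j
    rw [pow_succ]
    linarith

lemma Chain.q_lt (h : Chain X be c0 L Q N) (j : ℕ) : X j - L j < X (j + 1) - L (j + 1) := by
  have h1 := h.XX j
  have h2 := h.XL (j + 1)
  have h3 := h.L1 j
  have h4 := h.XL j
  linarith

lemma Chain.tendsto (h : Chain X be c0 L Q N) : Tendsto X atTop atTop := by
  refine tendsto_atTop_mono h.X_ge ?_
  exact (tendsto_pow_atTop_atTop_of_one_lt (by norm_num : (1 : ℝ) < 16)).comp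
    (tendsto_add_atTop_nat 1)

private lemma Chain.q_mono (h : Chain X be c0 L Q N) : StrictMono fun j => X j - L j :=
  strictMono_nat_of_lt_succ h.q_lt

private lemma Chain.q_pos (h : Chain X be c0 L Q N) (j : ℕ) : 0 < X j - L j := by
  have h2 := h.XL j
  have h3 := h.L1 j
  linarith

private lemma Chain.q_ex (h : Chain X be c0 L Q N) (y : ℝ) : ∃ j, y < X (j + 1) - L (j + 1) := by
  obtain ⟨j, hj⟩ := (h.tendsto.eventually (eventually_ge_atTop (2 * |y| + 2))).exists
  refine ⟨j, ?_⟩
  have h1 := h.q_lt j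
  have h2 := h.XL j
  have h3 := h.L1 j
  have h4 := le_abs_self y
  have h5 := abs_nonneg y
  linarith

theorem exists_glob (h : Chain X be c0 L Q N) : ∃ Nf, Glob X be L N Nf := by
  classical
  have hmf : ∀ n : ℕ, Measurable fun y : ℝ => N n (y - X n) := fun n =>
    (h.sh n).meas.comp (measurable_id.sub_const (X n))
  have hmp : ∀ n : ℕ, MeasurableSet {y : ℝ | y < X (n + 1) - L (n + 1)} := fun n =>
    measurableSet_Iio
  have hm : Measurable fun y : ℝ => N (Nat.find (h.q_ex y)) (y - X (Nat.find (h.q_ex y))) :=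
    Measurable.find (f := fun (n : ℕ) (y : ℝ) => N n (y - X n))
      (p := fun (n : ℕ) (y : ℝ) => y < X (n + 1) - L (n + 1)) hmf hmp h.q_ex
  refine ⟨fun y => if y ≤ 0 then 0 else if y < X 0 - L 0 then be 0 * y else
    N (Nat.find (h.q_ex y)) (y - X (Nat.find (h.q_ex y))), ?_, ?_, ?_, ?_, ?_⟩
  · exact Measurable.ite measurableSet_Iic measurable_const
      (Measurable.ite measurableSet_Iio (measurable_id.const_mul (be 0)) hm)
  · intro y
    split_ifs with h1 h2
    · exact le_refl 0
    · have := h.be1 0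
      exact mul_nonneg (by linarith) (not_le.mp h1).le
    · exact (h.sh _).nn _
  · intro y hy
    rw [if_pos hy]
  · intro y h1 h2
    rw [if_neg (not_le.mpr h1), if_pos h2]
  · intro j y h1 h2
    have h3 : X 0 - L 0 ≤ X j - L j := h.q_mono.monotone (Nat.zero_le j)
    have h4 := h.q_pos 0
    have hf : Nat.find (h.q_ex y) = j := by
      rw [Nat.find_eq_iff]
      refine ⟨h2, fun i hi => not_lt.mpr ?_⟩
      have h5 : X (i + 1) - L (i + 1) ≤ X j - L j := h.q_mono.monotone hi
      exact h5.trans h1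
    rw [if_neg (by linarith), if_neg (by linarith), hf]

lemma Glob.between (h : Chain X be c0 L Q N) {Nf : ℝ → ℝ} (hg : Glob X be L N Nf) (j : ℕ) {y : ℝ}
    (h1 : X j + L j ≤ y) (h2 : y < X (j + 1) - L (j + 1)) : Nf y = be (j + 1) * y := by
  have h3 := h.L1 j
  rw [hg.win j y (by linarith) h2, (h.sh j).right (y - X j) (by linarith), sub_add_cancel]

lemma Glob.local_eq (h : Chain X be c0 L Q N) {Nf : ℝ → ℝ} (hg : Glob X be L N Nf) (j : ℕ) {y : ℝ}
    (h1 : X j + L j ≤ y) (h2 : y < X (j + 2) - L (j + 2)) : Nf y = N (j + 1) (y - X (j + 1)) := by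
  rcases lt_or_ge y (X (j + 1) - L (j + 1)) with h3 | h3
  · have h4 := h.Xc j
    have h5 := h.L1 j
    rw [hg.between h j h1 h3, (h.sh (j + 1)).left (y - X (j + 1)) (by linarith), sub_add_cancel,
      max_eq_left (by linarith)]
  · exact hg.win (j + 1) y h3 h2

end INDB
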