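import Pool.Agent.INDB.KernB

/-!
# INDB, module Cmp: comparison with one exponential

PROOFS. `N ≥ 0` measurable with `Dec μ N`, `Gro κ N`, `μ < a`, `κ < b`: `y ↦ k(x-y) N(y)` is integrable (`Kern.integrable_mul_of_le` with `lin_of_dec_gro`).
`cmp_MP`: substitute `y = x - u` (`∫ y, k (x-y) N y = ∫ u, k u N (x-u)`, `integral_sub_left_eq_self`). For `u ≥ s` (`k u ≥ 0`): `x-u ≤ x-s` and `Dec` gives `N(x-u) e^{-μ(u-s)} ≤ N(x-s)`; for `u ≤ s` (`k u ≤ 0`):
`N(x-u) ≥ N(x-s) e^{-μ(s-u)} = N(x-s) e^{μ(u-s)}`. In both cases `k u N(x-u) ≤ k u N(x-s) e^{μ(u-s)}`; integrate (`integral_mono`).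
`cmp_PM`: for `u ≤ s` (`k u ≥ 0`): `x - u ≥ x - s`, `N(x-u) ≤ N(x-s) e^{κ(s-u)}`; for `u ≥ s` (`k u ≤ 0`): `N(x-s) ≤ N(x-u) e^{κ(u-s)}`. In both cases `k u N(x-u) ≤ k u N(x-s) e^{-κ(u-s)}`.
`cmp_N`: `k ≤ 0`: drop everything outside `|u| ≤ 1`; there `N(x-u) ≥ N x e^{-(μ+κ)}` (for `u ≥ 0`: `x-u ≤ x`, `N x ≤ N(x-u) e^{κ u}`; for `u ≤ 0`: `N(x-u) ≥ N x e^{μ u}`).
`dec_shift`: `N(x-s) ≥ N x e^{-(μ+κ)|s|}` and `N (x-s) ≤ N x e^{(μ+κ)|s|}`.
-/

open MeasureTheory Set Filter Topology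

namespace INDB

variable {a b c C : ℝ} {k : ℝ → ℝ}

/-- the potential as an integral in the difference -/
private lemma U_eq_sub (k N : ℝ → ℝ) (x : ℝ) : U k N x = ∫ u, k u * N (x - u) := by
  have h := integral_sub_left_eq_self (fun u => k u * N (x - u)) (volume : Measure ℝ) x
  rw [← h]
  unfold U
  refine integral_congr_ae (Eventually.of_forall fun y => ?_)
  simp

private lemma int_sub (hk : Kern a b C k) {μ κ : ℝ} (hμ : 0 ≤ μ) (hμa : μ < a) (hκ : 0 ≤ κ)
    (hκb : κ < b) {N : ℝ → ℝ} (hN : Measurable N) (h0 : ∀ y, 0 ≤ N y) (hd : Dec μ N)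
    (hg : Gro κ N) (x : ℝ) : Integrable (fun u => k u * N (x - u)) := by
  have h1 : Integrable (fun y => k (x - y) * N y) :=
    hk.integrable_mul_of_le hκ hκb hμ hμa hN (B := N x)
      (fun y => lin_of_dec_gro h0 hd hg hμ hκ x y)
  have h2 := h1.comp_sub_left x
  simpa using h2

private lemma dec_le {μ : ℝ} {N : ℝ → ℝ} (hd : Dec μ N) {p q : ℝ} (h : p ≤ q) :
    N p ≤ N q * Real.exp (μ * (q - p)) := by
  have h1 := hd p q h
  have h2 : 0 < Real.exp (μ * (q - p)) := Real.exp_pos _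
  have h3 := mul_le_mul_of_nonneg_right h1 h2.le
  rwa [mul_assoc, ← Real.exp_add, neg_add_cancel, Real.exp_zero, mul_one] at h3

private lemma gro_ge {κ : ℝ} {N : ℝ → ℝ} (hg : Gro κ N) {p q : ℝ} (h : p ≤ q) :
    N q * Real.exp (-(κ * (q - p))) ≤ N p := by
  have h1 := hg p q h
  have h2 : 0 < Real.exp (-(κ * (q - p))) := Real.exp_pos _
  have h3 := mul_le_mul_of_nonneg_right h1 h2.le
  rwa [mul_assoc, ← Real.exp_add, add_neg_cancel, Real.exp_zero, mul_one] at h3

lemma cmp_MP (hk : Kern a b C k) (hb : 0 < b) {s μ κ : ℝ} (hp : PatMP a b c s k) (hμ : 0 ≤ μ)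
    (hμa : μ < a) (hκ : 0 ≤ κ) (hκb : κ < b) {N : ℝ → ℝ} (hN : Measurable N) (h0 : ∀ y, 0 ≤ N y)
    (hd : Dec μ N) (hg : Gro κ N) (x : ℝ) :
    U k N x ≤ N (x - s) * ∫ u, k u * Real.exp (μ * (u - s)) := by
  rw [U_eq_sub, ← integral_const_mul]
  have hi1 := int_sub hk hμ hμa hκ hκb hN h0 hd hg x
  have hi2 : Integrable (fun u => k u * Real.exp (μ * (u - s))) := by
    have h := (hk.integrable_exp (κ := μ) (by linarith) hμa).mul_const (Real.exp (-(μ * s)))
    refine h.congr (Eventually.of_forall fun u => ?_)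
    show k u * Real.exp (μ * u) * Real.exp (-(μ * s)) = k u * Real.exp (μ * (u - s))
    rw [mul_assoc, ← Real.exp_add]
    congr 2
    ring
  refine integral_mono hi1 (hi2.const_mul _) (fun u => ?_)
  show k u * N (x - u) ≤ N (x - s) * (k u * Real.exp (μ * (u - s)))
  rcases le_total s u with h | h
  · have h1 := dec_le hd (p := x - u) (q := x - s) (by linarith)
    have e : x - s - (x - u) = u - s := by ring
    rw [e] at h1
    have h2 := mul_le_mul_of_nonneg_left h1 (hp.right u h)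
    linarith [h2]
  · have h1 := hd (x - s) (x - u) (by linarith)
    have e : -(μ * (x - u - (x - s))) = μ * (u - s) := by ring
    rw [e] at h1
    have h2 := mul_le_mul_of_nonpos_left h1 (hp.left u h)
    linarith [h2]

lemma cmp_PM (hk : Kern a b C k) {s μ κ : ℝ} (hp : PatPM a b c s k) (hμ : 0 ≤ μ)
    (hμa : μ < a) (hκ : 0 ≤ κ) (hκb : κ < b) {N : ℝ → ℝ} (hN : Measurable N) (h0 : ∀ y, 0 ≤ N y)
    (hd : Dec μ N) (hg : Gro κ N) (x : ℝ) :
    U k N x ≤ N (x - s) * ∫ u, k u * Real.exp (-(κ * (u - s))) := by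
  rw [U_eq_sub, ← integral_const_mul]
  have hi1 := int_sub hk hμ hμa hκ hκb hN h0 hd hg x
  have hi2 : Integrable (fun u => k u * Real.exp (-(κ * (u - s)))) := by
    have h := (hk.integrable_exp (κ := -κ) (by linarith) (by linarith)).mul_const
      (Real.exp (κ * s))
    refine h.congr (Eventually.of_forall fun u => ?_)
    show k u * Real.exp (-κ * u) * Real.exp (κ * s) = k u * Real.exp (-(κ * (u - s)))
    rw [mul_assoc, ← Real.exp_add]
    congr 2
    ring
  refine integral_mono hi1 (hi2.const_mul _) (fun u => ?_)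
  show k u * N (x - u) ≤ N (x - s) * (k u * Real.exp (-(κ * (u - s))))
  rcases le_total s u with h | h
  · have h1 := gro_ge hg (p := x - u) (q := x - s) (by linarith)
    have e : x - s - (x - u) = u - s := by ring
    rw [e] at h1
    have h2 := mul_le_mul_of_nonpos_left h1 (hp.right u h)
    linarith [h2]
  · have h1 := hg (x - s) (x - u) (by linarith)
    have e : κ * (x - u - (x - s)) = -(κ * (u - s)) := by ring
    rw [e] at h1
    have h2 := mul_le_mul_of_nonneg_left h1 (hp.left u h)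
    linarith [h2]

lemma dec_shift {μ κ : ℝ} {N : ℝ → ℝ} (h0 : ∀ y, 0 ≤ N y) (hμ : 0 ≤ μ) (hκ : 0 ≤ κ)
    (hd : Dec μ N) (hg : Gro κ N) (x s : ℝ) :
    N x * Real.exp (-((μ + κ) * |s|)) ≤ N (x - s) ∧ N (x - s) ≤ N x * Real.exp ((μ + κ) * |s|) := by
  have hx := h0 x
  have e1 : -((μ + κ) * |s|) ≤ -(μ * |s|) := by nlinarith [abs_nonneg s, mul_nonneg hκ (abs_nonneg s)]
  have e2 : -((μ + κ) * |s|) ≤ -(κ * |s|) := by nlinarith [abs_nonneg s, mul_nonneg hμ (abs_nonneg s)]
  have e3 : μ * |s| ≤ (μ + κ) * |s| := by nlinarith [abs_nonneg s, mul_nonneg hκ (abs_nonneg s)]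
  have e4 : κ * |s| ≤ (μ + κ) * |s| := by nlinarith [abs_nonneg s, mul_nonneg hμ (abs_nonneg s)]
  rcases le_total 0 s with h | h
  · -- x - s ≤ x
    have habs : |s| = s := abs_of_nonneg h
    constructor
    · refine le_trans ?_ (gro_ge hg (p := x - s) (q := x) (by linarith))
      refine mul_le_mul_of_nonneg_left (Real.exp_le_exp.2 ?_) hx
      have e : x - (x - s) = s := by ring
      rw [e]
      rw [habs] at e2
      rw [habs]
      exact e2
    · refine le_trans (dec_le hd (p := x - s) (q := x) (by linarith)) ?_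
      refine mul_le_mul_of_nonneg_left (Real.exp_le_exp.2 ?_) hx
      have e : x - (x - s) = s := by ring
      rw [e]
      rw [habs] at e3
      rw [habs]
      exact e3
  · have habs : |s| = -s := abs_of_nonpos h
    constructor
    · refine le_trans ?_ (hd x (x - s) (by linarith))
      refine mul_le_mul_of_nonneg_left (Real.exp_le_exp.2 ?_) hx
      have e : x - s - x = -s := by ring
      rw [e]
      rw [habs] at e1
      rw [habs]
      exact e1
    · refine le_trans (hg x (x - s) (by linarith)) ?_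
      refine mul_le_mul_of_nonneg_left (Real.exp_le_exp.2 ?_) hx
      have e : x - s - x = -s := by ring
      rw [e]
      rw [habs] at e4
      rw [habs]
      exact e4

lemma cmp_N (hk : Kern a b C k) {μ κ : ℝ} (hp : ∀ u, k u ≤ 0) (hμ : 0 ≤ μ)
    (hμa : μ < a) (hκ : 0 ≤ κ) (hκb : κ < b) {N : ℝ → ℝ} (hN : Measurable N) (h0 : ∀ y, 0 ≤ N y)
    (hd : Dec μ N) (hg : Gro κ N) (x : ℝ) :
    U k N x ≤ N x * Real.exp (-(μ + κ)) * ∫ u in Icc (-1 : ℝ) 1, k u := by
  rw [U_eq_sub]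
  have hi1 := int_sub hk hμ hμa hκ hκb hN h0 hd hg x
  have hstep : ∫ u, k u * N (x - u) ≤ ∫ u in Icc (-1 : ℝ) 1, k u * N (x - u) := by
    have h := setIntegral_mono_set (μ := volume) (s := Icc (-1 : ℝ) 1) (t := univ)
      (f := fun u => -(k u * N (x - u))) (integrableOn_univ.2 hi1.neg)
      (Eventually.of_forall fun u => by
        show (0 : ℝ) ≤ -(k u * N (x - u))
        have := mul_nonpos_of_nonpos_of_nonneg (hp u) (h0 (x - u))
        linarith)
      (Eventually.of_forall (subset_univ _))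
    rw [setIntegral_univ, integral_neg, integral_neg] at h
    linarith
  refine le_trans hstep ?_
  rw [← integral_const_mul]
  refine setIntegral_mono_on hi1.integrableOn (hk.int.const_mul _) measurableSet_Icc
    (fun u hu => ?_)
  have h1 := (dec_shift h0 hμ hκ hd hg x u).1
  have habs : |u| ≤ 1 := abs_le.2 ⟨hu.1, hu.2⟩
  have h2 : N x * Real.exp (-(μ + κ)) ≤ N (x - u) := by
    refine le_trans (mul_le_mul_of_nonneg_left (Real.exp_le_exp.2 ?_) (h0 x)) h1
    have : (μ + κ) * |u| ≤ (μ + κ) * 1 := mul_le_mul_of_nonneg_left habs (by linarith)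
    linarith
  have h3 := mul_le_mul_of_nonpos_left h2 (hp u)
  linarith [h3]

end INDB
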