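import Pool.Agent.INDB.Cut

/-!
# INDB, module CutR: the right cut, by reflection

PROOF. For a kernel `k` let `kr u = k (-u)`. `Kern a b C k → Kern b a C kr` (`w_neg`), `PatPM a b c s k → PatMP b a c (-s) kr`. For measures `n` let `m i = (n i).map Neg.neg`; `G kr ktr m y = G k kt n (-y)` (`integral_map`: `∫ kr (x - y) dm = ∫ k (-( -x - y)) dn = ∫ k (x + y) dn`; the map
`Neg.neg` is a measurable equivalence, so the formulas hold also for non integrable functions), and `m.map Neg = n`.
Apply `cut` to the reflected family with `a, b` exchanged, `s' = -s`: there `L' = ∑ ∫_{x' + s_i < -Y} e^{a (x'+Y)} dm_i = ∑ ∫_{x - s_i > Y} e^{-a (x - Y)} dn_i`, `w b a (x'+Y) = w b a (-(x-Y)) = w a b (x-Y)`, `w b a Y = w a b (-Y)`, `w b a (-Y-y')` with `y' = -y` is `w a b (Y - y)`.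
Transfer the a.e. statements by `y ↦ -y` (`measurePreserving_neg`).
-/

open MeasureTheory Set Filter Topology

namespace INDB

lemma Kern.refl {a b C : ℝ} {k : ℝ → ℝ} (hk : Kern a b C k) : Kern b a C (fun u => k (-u)) where
  meas := hk.meas.comp measurable_neg
  up u := by
    have h := hk.up (-u)
    rwa [w_neg b a u] at h
  abs u hu := by
    have h := hk.abs (-u) (by rwa [abs_neg])
    rwa [w_neg b a u] at h
  int := by
    have h := ((Measure.measurePreserving_neg (volume : Measure ℝ)).integrableOn_comp_preimage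
      (MeasurableEquiv.neg ℝ).measurableEmbedding (f := k) (s := Icc (-1) 1)).2 hk.int
    have h2 : (Neg.neg ⁻¹' Icc (-1 : ℝ) 1 : Set ℝ) = Icc (-1) 1 := by
      ext x
      simp only [mem_preimage, mem_Icc]
      constructor <;> rintro ⟨h1, h2⟩ <;> constructor <;> linarith
    rw [h2] at h
    exact h
  loc := by
    have h := (Measure.measurePreserving_neg (volume : Measure ℝ)).setIntegral_preimage_emb
      (MeasurableEquiv.neg ℝ).measurableEmbedding (fun u => |k u|) (Icc (-1) 1)
    have h2 : (Neg.neg ⁻¹' Icc (-1 : ℝ) 1 : Set ℝ) = Icc (-1) 1 := by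
      ext x
      simp only [mem_preimage, mem_Icc]
      constructor <;> rintro ⟨h1, h2⟩ <;> constructor <;> linarith
    rw [h2] at h
    calc ∫ u in Icc (-1 : ℝ) 1, |k (-u)| = ∫ u in Icc (-1 : ℝ) 1, |k u| := h
      _ ≤ C := hk.loc

lemma PatPM.refl {a b c s : ℝ} {k : ℝ → ℝ} (hp : PatPM a b c s k) :
    PatMP b a c (-s) (fun u => k (-u)) where
  left u hu := hp.right (-u) (by linarith)
  right u hu := hp.left (-u) (by linarith)
  lower u hu := by
    have h := hp.upper (-u) (by linarith)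
    rwa [w_neg b a u] at h
  upper u hu := by
    have h := hp.lower (-u) (by linarith)
    rwa [w_neg b a u] at h

lemma G_refl {ι : Type} [Fintype ι] (k : ι → ℝ → ℝ) (kt : ℝ → ℝ) (n : ι → Measure ℝ) (y : ℝ) :
    G (fun i u => k i (-u)) (fun u => kt (-u)) (fun i => (n i).map (fun x => -x)) y
      = G k kt n (-y) := by
  unfold G
  congr 1
  refine Finset.sum_congr rfl fun i _ => ?_
  have h := integral_map_equiv (μ := n i) (MeasurableEquiv.neg ℝ) (fun x => k i (-(x - y)))
  refine h.trans (integral_congr_ae (Eventually.of_forall fun x => ?_))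
  show k i (-(-x - y)) = k i (x - -y)
  congr 1
  ring

theorem cut_right {ι : Type} [Fintype ι] [DecidableEq ι] {a b c C : ℝ} (ha : 0 < a) (hb : 0 < b)
    (hab : a + b = 1) (hc : 0 < c) (hC : 1 ≤ C) (k : ι → ℝ → ℝ) (kt : ℝ → ℝ) (s : ι → ℝ)
    (crit : Finset ι) (i0 : ι) (hi0 : i0 ∈ crit) (hk : ∀ i, Kern a b C (k i)) (hkt : Kern a b C kt)
    (hs : ∀ i, |s i| ≤ C) (hp : ∀ i ∈ crit, PatPM a b c (s i) (k i)) :
    ∃ C₁ c₄ : ℝ, 0 < C₁ ∧ 0 < c₄ ∧ ∀ (n : ι → Measure ℝ) (Y : ℝ), (∀ i, IsFiniteMeasure (n i)) →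
      0 ≤ Y → C₁ * ((∑ i ∈ critᶜ, ∫ x, w a b (x - Y) ∂(n i)) + w a b (-Y)) ≤
        ∑ i ∈ crit, ∫ x in {x | Y < x - s i}, Real.exp (-(a * (x - Y))) ∂(n i) →
      ∃ n' : ι → Measure ℝ, (∀ i, IsFiniteMeasure (n' i)) ∧
        (∀ᵐ y : ℝ, y < Y → G k kt n y + c₄ * (∑ i ∈ crit, ∫ x in {x | Y < x - s i},
          Real.exp (-(a * (x - Y))) ∂(n i)) * w a b (Y - y) ≤ G k kt n' y) ∧
        (∀ᵐ y : ℝ, Y < y → c₄ * (∑ i ∈ crit, ∫ x in {x | Y < x - s i},
          Real.exp (-(a * (x - Y))) ∂(n i)) * w a b (Y - y) ≤ G k kt n' y) := by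
  obtain ⟨C₁, c₄, h1, h2, h3⟩ := cut (a := b) (b := a) hb ha (by linarith) hc hC
    (fun i u => k i (-u)) (fun u => kt (-u)) (fun i => -s i) crit i0 hi0 (fun i => (hk i).refl)
    hkt.refl (fun i => by rw [abs_neg]; exact hs i) (fun i hi => (hp i hi).refl)
  refine ⟨C₁, c₄, h1, h2, ?_⟩
  intro n Y hn hY hC1
  have e1 : ∀ i, ∫ x, w b a (x + Y) ∂((n i).map (fun x => -x)) = ∫ x, w a b (x - Y) ∂(n i) := by
    intro i
    have h := integral_map_equiv (μ := n i) (MeasurableEquiv.neg ℝ) (fun x => w b a (x + Y))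
    refine h.trans (integral_congr_ae (Eventually.of_forall fun x => ?_))
    show w b a (-x + Y) = w a b (x - Y)
    rw [← w_neg a b (x - Y)]
    congr 1
    ring
  have e2 : w b a Y = w a b (-Y) := (w_neg b a Y).symm
  have e3 : ∀ i, ∫ x in {x | x - -s i < -Y}, Real.exp (a * (x + Y)) ∂((n i).map (fun x => -x)) =
      ∫ x in {x | Y < x - s i}, Real.exp (-(a * (x - Y))) ∂(n i) := by
    intro i
    have h := (MeasurableEquiv.neg ℝ).measurableEmbedding.setIntegral_map (μ := n i)
      (fun x => Real.exp (a * (x + Y))) {x | x - -s i < -Y}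
    have h4 : ((MeasurableEquiv.neg ℝ) ⁻¹' {x | x - -s i < -Y} : Set ℝ) =
        {x | Y < x - s i} := by
      ext x
      show -x - -s i < -Y ↔ Y < x - s i
      constructor <;> intro h5 <;> linarith
    rw [h4] at h
    refine h.trans (integral_congr_ae (Eventually.of_forall fun x => ?_))
    show Real.exp (a * (-x + Y)) = Real.exp (-(a * (x - Y)))
    congr 1
    ring
  have hm : ∀ i, IsFiniteMeasure ((n i).map (fun x => -x)) := fun i => by
    have := hn i
    exact Measure.isFiniteMeasure_map (n i) _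
  obtain ⟨n'', g1, g2, g3, -, -⟩ := h3 (fun i => (n i).map (fun x => -x)) Y hm hY (by
    simp only [e1, e2, e3]
    exact hC1)
  simp only [e3] at g2 g3
  have g4 : ∀ y, G k kt (fun i => (n'' i).map (fun x => -x)) y =
      G (fun i u => k i (-u)) (fun u => kt (-u)) n'' (-y) := by
    intro y
    have h := G_refl (fun i u => k i (-u)) (fun u => kt (-u)) n'' y
    simp only [neg_neg] at h
    exact h
  have q := (Measure.measurePreserving_neg (volume : Measure ℝ)).quasiMeasurePreserving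
  refine ⟨fun i => (n'' i).map (fun x => -x), fun i => ?_, ?_, ?_⟩
  · have := g1 i
    exact Measure.isFiniteMeasure_map (n'' i) _
  · filter_upwards [q.ae g2] with y hy hyY
    have h5 := hy (by linarith)
    rw [g4]
    rw [G_refl, neg_neg] at h5
    have h6 : w b a (-Y - -y) = w a b (Y - y) := by
      rw [← w_neg a b (Y - y)]
      congr 1
      ring
    rw [h6] at h5
    exact h5
  · filter_upwards [q.ae g3] with y hy hyY
    have h5 := hy (by linarith)
    rw [g4]
    have h6 : w b a (-Y - -y) = w a b (Y - y) := by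
      rw [← w_neg a b (Y - y)]
      congr 1
      ring
    rw [h6] at h5
    exact h5

end INDB
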