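import Mathlib

/-!
# INDB (MP_2b5fe2_an): class B of the infinite indicators, abstract kernel systems (definitions)

Log scale. A mass at `y` acts at `x` by the kernel `k (x - y)`. `a` is the decay exponent of the
kernels at `+∞` (mass far to the left of `x`), `b` the decay exponent at `-∞` (mass far to the right),
`a + b = 1`.
-/

open MeasureTheory Set Filter Topology

namespace INDB

/-- the weight `w(u) = e^{-a u}` for `u ≥ 0`, `e^{b u}` for `u ≤ 0` -/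
noncomputable def w (a b u : ℝ) : ℝ := Real.exp (-(a * max u 0) - b * max (-u) 0)

/-- admissible kernels: bounded above by `C w`, in absolute value for `|u| ≥ 1`, integrable near `0` -/
structure Kern (a b C : ℝ) (k : ℝ → ℝ) : Prop where
  meas : Measurable k
  up : ∀ u, k u ≤ C * w a b u
  abs : ∀ u, 1 ≤ |u| → |k u| ≤ C * w a b u
  int : IntegrableOn k (Icc (-1) 1)
  loc : ∫ u in Icc (-1 : ℝ) 1, |k u| ≤ C

/-- sign pattern `(-,+)` -/
structure PatMP (a b c s : ℝ) (k : ℝ → ℝ) : Prop where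
  left : ∀ u, u ≤ s → k u ≤ 0
  right : ∀ u, s ≤ u → 0 ≤ k u
  lower : ∀ u, u ≤ s - 1 → k u ≤ -(c * w a b u)
  upper : ∀ u, s + 1 ≤ u → c * w a b u ≤ k u

/-- sign pattern `(+,-)` -/
structure PatPM (a b c s : ℝ) (k : ℝ → ℝ) : Prop where
  left : ∀ u, u ≤ s → 0 ≤ k u
  right : ∀ u, s ≤ u → k u ≤ 0
  lower : ∀ u, u ≤ s - 1 → c * w a b u ≤ k u
  upper : ∀ u, s + 1 ≤ u → k u ≤ -(c * w a b u)

/-- potential of a density -/
noncomputable def U (k N : ℝ → ℝ) (x : ℝ) : ℝ := ∫ y, k (x - y) * N y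

/-- the function of a candidate for a certificate -/
noncomputable def G {ι : Type} [Fintype ι] (k : ι → ℝ → ℝ) (kt : ℝ → ℝ) (n : ι → Measure ℝ)
    (y : ℝ) : ℝ := ∑ i, ∫ x, k i (x - y) ∂(n i) - kt (-y)

/-- `N` decays (to the right) at most with the rate `μ` -/
def Dec (μ : ℝ) (N : ℝ → ℝ) : Prop := ∀ x y, x ≤ y → N x * Real.exp (-(μ * (y - x))) ≤ N y

/-- `N` grows (to the right) at most with the rate `κ` -/
def Gro (κ : ℝ) (N : ℝ → ℝ) : Prop := ∀ x y, x ≤ y → N y ≤ N x * Real.exp (κ * (y - x))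

/-- at most linear growth -/
def Lin (N : ℝ → ℝ) : Prop := ∃ K : ℝ, 0 ≤ K ∧ ∀ y, |N y| ≤ K * (1 + |y|)

/-- kinds of rays: `L` = left end points (pattern `(-,+)`, integral `0`), `M` = pattern `(-,+)`,
negative integral, `P` = pattern `(+,-)` with a positive zero of the Mellin transform, `N` = nonpositive -/
inductive Kind
  | L | M | P | N
  deriving DecidableEq

/-- the data of a stage -/
structure Sys (ι : Type) [Fintype ι] where
  a : ℝ
  b : ℝ
  c : ℝ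
  C : ℝ
  ha : 0 < a
  hb : 0 < b
  hab : a + b = 1
  hc : 0 < c
  hC : 1 ≤ C
  k : ι → ℝ → ℝ
  kt : ℝ → ℝ
  kind : ι → Kind
  s : ι → ℝ
  kap : ι → ℝ
  A : ι → ℝ
  At : ℝ
  l0 : ι
  gam : ι → ℝ
  t : ℝ
  hk : ∀ i, Kern a b C (k i)
  hkt : Kern a b C kt
  hs : ∀ i, |s i| ≤ C
  patL : ∀ i, kind i = Kind.L → PatMP a b c (s i) (k i)
  intL : ∀ i, kind i = Kind.L → ∫ u, k i u = 0
  patM : ∀ i, kind i = Kind.M → PatMP a b c (s i) (k i)
  intM : ∀ i, kind i = Kind.M → ∫ u, k i u < 0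
  patP : ∀ i, kind i = Kind.P → PatPM a b c (s i) (k i)
  kapP : ∀ i, kind i = Kind.P → 0 < kap i ∧ kap i < b
  intP : ∀ i, kind i = Kind.P → ∫ u, k i u * Real.exp (-(kap i * u)) = 0
  patN : ∀ i, kind i = Kind.N → ∀ u, k i u ≤ 0
  intN : ∀ i, kind i = Kind.N → ∫ u in Icc (-1 : ℝ) 1, k i u < 0
  asyA : ∀ i, kind i = Kind.L ∨ kind i = Kind.M → A i < 0
  asy : ∀ i, kind i = Kind.L ∨ kind i = Kind.M → ∀ u, u ≤ -1 →
    |k i u - A i * Real.exp (b * u)| ≤ C * Real.exp ((b + 1) * u)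
  asyt : ∀ u, u ≤ -1 → |kt u - At * Real.exp (b * u)| ≤ C * Real.exp ((b + 1) * u)
  hl0 : kind l0 = Kind.L
  gam0 : gam l0 < 0

namespace Sys

variable {ι : Type} [Fintype ι] (S : Sys ι)

/-- every exact certificate of finite measures has cost at least `t + e` -/
def Cert (e : ℝ) : Prop := ∀ n : ι → Measure ℝ, (∀ i, IsFiniteMeasure (n i)) →
  (∀ᵐ y, 0 ≤ G S.k S.kt n y) → S.t + e ≤ ∑ i, S.gam i * (n i).real univ

/-- an exact certificate with slack -/
def Strict : Prop := ∃ (η : ℝ) (n : ι → Measure ℝ), 0 < η ∧ (∀ i, IsFiniteMeasure (n i)) ∧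
  ∀ᵐ y, η * w S.a S.b (-y) ≤ G S.k S.kt n y

/-- `σ` is smaller than the critical rate: smaller than `b` and all `kap i`, `i` of kind `P` -/
def Sub (σ : ℝ) : Prop := 0 < σ ∧ σ < S.b ∧ ∀ i, S.kind i = Kind.P → σ < S.kap i

/-- left critical mass at `-Y` -/
noncomputable def Lf (n : ι → Measure ℝ) (Y : ℝ) : ℝ :=
  ∑ i, if S.kind i = Kind.L then ∫ x in {x | x - S.s i < -Y}, Real.exp (S.b * (x + Y)) ∂(n i) else 0

/-- other mass near `-Y` -/
noncomputable def Of (n : ι → Measure ℝ) (Y : ℝ) : ℝ :=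
  (∑ i, if S.kind i = Kind.L then 0 else ∫ x, w S.a S.b (x + Y) ∂(n i)) + w S.a S.b Y

end Sys

end INDB
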