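import Pool.Agent.INDB.ProfE
import Pool.Agent.INDB.Const
import Pool.Agent.INDB.Prim

/-!
# INDB, module Dpos: the background is feasible, with quantitative bounds

PROOF. Constants: `δ` of `const_all` for `κ` (with `μ = 0`: `E` is nondecreasing, so `Dec 0`; `gro_E`), `c₁ = c e^{-(C+2)}` (`lref`; `E` is integrable against the kernels by `Kern.integrable_lin`). Let `g = max |gam i|`. `b₀` such that `δ b₀ ≥ 4 g + 4`, `c₁ b₀ ≥ 2 g + 2`, `c₁ sg b₀ ≥ 4 g + 4`, `b₀ ≥ 1`.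
Kind `≠ L`: `gam i - U E x ≥ -g + δ E x ≥ (δ/2) E x` because `E x ≥ be X/2 ≥ b₀` (`OK.E_ge`, `X ≥ 16`).
Kind `L`: `z = x - s`, `z ≥ -X/2 - C ≥ -X + c0`: `gam i - U E x ≥ -g + c₁ (E (z+1) - E z)`. If `z < -M`: `≥ -g + c₁ be ≥ 1`. If `-M ≤ z ≤ M'-1`: `≥ -g + c₁ sg E z ≥ (c₁ sg/2) E z` (`E z ≥ G1 ≥ be`). If `z > M'-1`: `≥ -g + c₁ slope ≥ (c₁/2) slope` (`slope ≥ 2 X E 0 ≥ be`).
`c₅ = min (δ/2) (min (c₁ sg/2) (c₁/2)) ∧ ≤ 1`. (`sg < 1`.)
-/

open MeasureTheory Set Filter Topology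

namespace INDB

private lemma dp_mono {N : ℝ → ℝ} (hN : Monotone N) : Dec 0 N := by
  intro x y hxy
  simpa using hN hxy

theorem dpos {ι : Type} [Fintype ι] (S : Sys ι) {κ sg : ℝ} (hκ : S.Sub κ) (hs0 : 0 < sg)
    (hsκ : sg < κ) :
    ∃ c₅ b₀ : ℝ, 0 < c₅ ∧ c₅ ≤ 1 ∧ 1 ≤ b₀ ∧ ∀ p : Par, p.OK κ S.C → p.sg = sg → b₀ ≤ p.be →
      ∀ x, -(p.X / 2) ≤ x →
        (∀ i, S.kind i ≠ Kind.L → c₅ * p.E x ≤ S.gam i - U (S.k i) p.E x) ∧
        ∀ i, S.kind i = Kind.L → c₅ * p.rhoL (x - S.s i) ≤ S.gam i - U (S.k i) p.E x := by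
  obtain ⟨μ₀, δ, K, hμ₀, hμa, hδ, hK, hall⟩ := const_all S hκ
  have ha := S.ha
  have hb := S.hb
  have hab := S.hab
  have hc := S.hc
  have hC := S.hC
  have ha1 : S.a ≤ 1 := by linarith
  have hb1 : S.b ≤ 1 := by linarith
  obtain ⟨c₁, hc₁⟩ : ∃ c₁, c₁ = S.c * Real.exp (-(S.C + 2)) := ⟨_, rfl⟩
  have hc₁0 : 0 < c₁ := by rw [hc₁]; positivity
  obtain ⟨g, hg⟩ : ∃ g, g = ∑ i, |S.gam i| := ⟨_, rfl⟩
  have hg0 : 0 ≤ g := by
    rw [hg]
    exact Finset.sum_nonneg fun i _ => abs_nonneg _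
  have hgi : ∀ i, -g ≤ S.gam i := by
    intro i
    have h1 : |S.gam i| ≤ g := by
      rw [hg]
      exact Finset.single_le_sum (f := fun i => |S.gam i|) (fun i _ => abs_nonneg _)
        (Finset.mem_univ i)
    linarith [neg_abs_le (S.gam i)]
  refine ⟨min 1 (min (δ / 2) (min (c₁ * sg / 2) (c₁ / 2))),
    max 1 (max ((g + 1) / δ) (max ((2 * g + 2) / c₁) (2 * g / (c₁ * sg)))), ?_, min_le_left _ _,
    le_max_left _ _, ?_⟩
  · have h1 : 0 < δ / 2 := by positivity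
    have h2 : 0 < c₁ * sg / 2 := by positivity
    have h3 : 0 < c₁ / 2 := by positivity
    exact lt_min one_pos (lt_min h1 (lt_min h2 h3))
  intro p hp hsg hbe x hx
  obtain ⟨c₅, hc₅⟩ : ∃ c₅, c₅ = min 1 (min (δ / 2) (min (c₁ * sg / 2) (c₁ / 2))) := ⟨_, rfl⟩
  rw [← hc₅]
  have e1 : c₅ ≤ 1 := by rw [hc₅]; exact min_le_left _ _
  have e2 : c₅ ≤ δ / 2 := by rw [hc₅]; exact (min_le_right _ _).trans (min_le_left _ _)
  have e3 : c₅ ≤ c₁ * sg / 2 := by
    rw [hc₅]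
    exact (min_le_right _ _).trans ((min_le_right _ _).trans (min_le_left _ _))
  have e4 : c₅ ≤ c₁ / 2 := by
    rw [hc₅]
    exact (min_le_right _ _).trans ((min_le_right _ _).trans (min_le_right _ _))
  have f1 : (g + 1) / δ ≤ p.be := ((le_max_left _ _).trans (le_max_right _ _)).trans hbe
  have f2 : (2 * g + 2) / c₁ ≤ p.be :=
    ((le_max_left _ _).trans ((le_max_right _ _).trans (le_max_right _ _))).trans hbe
  have f3 : 2 * g / (c₁ * sg) ≤ p.be :=
    ((le_max_right _ _).trans ((le_max_right _ _).trans (le_max_right _ _))).trans hbe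
  rw [div_le_iff₀ hδ] at f1
  rw [div_le_iff₀ hc₁0] at f2
  rw [div_le_iff₀ (by positivity)] at f3
  obtain ⟨g1, g2, g3, g4, g5, g6, g7, g8, g9⟩ := hp.basic
  have hbe1 := hp.be1
  have hpos := hp.pos_E
  have hEge : ∀ x, -(p.X / 2) ≤ x → p.be * 8 ≤ p.E x := by
    intro x hx
    refine le_trans ?_ (hp.E_ge hx)
    exact mul_le_mul_of_nonneg_left (by linarith) (by linarith)
  constructor
  · intro i hi
    have h1 := (hall 0 le_rfl hμ₀.le p.E hp.cont_E.measurable (fun y => (hpos y).le)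
      (dp_mono hp.mono_E) hp.gro_E).1 i hi x
    have h2 := hEge x hx
    have h3 := hgi i
    have h4 : c₅ * p.E x ≤ δ / 2 * p.E x := mul_le_mul_of_nonneg_right e2 (hpos x).le
    have h5 : δ * (p.be * 8) ≤ δ * p.E x := mul_le_mul_of_nonneg_left h2 hδ.le
    nlinarith
  · intro i hi
    obtain ⟨z, hz⟩ : ∃ z, z = x - S.s i := ⟨_, rfl⟩
    rw [← hz]
    have hs := abs_le.1 (S.hs i)
    have h1 := lref (S.hk i) ha hb ha1 hb1 hc (S.patL i hi) (S.intL i hi) hp.mono_E x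
      ((S.hk i).integrable_lin ha hb hp.cont_E.measurable hp.lin_E x)
    rw [← hz] at h1
    have hΔ : 0 ≤ p.E (z + 1) - p.E z := sub_nonneg.2 (hp.mono_E (by linarith))
    have h2 : c₁ ≤ S.c * Real.exp (-(|S.s i| + 2)) := by
      rw [hc₁]
      refine mul_le_mul_of_nonneg_left ?_ hc.le
      rw [Real.exp_le_exp]
      linarith [S.hs i]
    have h3 : U (S.k i) p.E x ≤ -(c₁ * (p.E (z + 1) - p.E z)) := by
      have := mul_le_mul_of_nonneg_right h2 hΔ
      linarith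
    have h4 := hgi i
    have hX := hp.X8
    have hzX : -p.X + p.c0 ≤ z := by
      have := hp.M1
      rw [hz]
      linarith
    unfold Par.rhoL
    by_cases hzM : z < -p.M
    · rw [if_pos hzM]
      have h5 := hp.E_diff_left hzX hzM
      have h6 := mul_le_mul_of_nonneg_left h5 hc₁0.le
      linarith
    · rw [if_neg hzM]
      push Not at hzM
      by_cases hzM' : z ≤ p.M' - 1
      · rw [if_pos hzM']
        have h5 := hp.E_diff_mid hzM hzM'
        rw [hsg] at h5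
        have h6 := mul_le_mul_of_nonneg_left h5 hc₁0.le
        have h7 := hEge z (by linarith)
        have h8 : c₅ * p.E z ≤ c₁ * sg / 2 * p.E z := mul_le_mul_of_nonneg_right e3 (hpos z).le
        have h9 : c₁ * sg * (p.be * 8) ≤ c₁ * sg * p.E z :=
          mul_le_mul_of_nonneg_left h7 (by positivity)
        have h10 : 0 ≤ c₁ * sg * p.be := by positivity
        linarith
      · rw [if_neg hzM']
        push Not at hzM'
        have h5 := hp.E_diff_right hzM'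
        have h6 := mul_le_mul_of_nonneg_left h5 hc₁0.le
        have h7 : p.be ≤ p.slope := by
          refine le_trans ?_ hp.slope_ge
          have h8 := hEge 0 (by linarith)
          have h9 : 1 * p.E 0 ≤ 2 * p.X * p.E 0 :=
            mul_le_mul_of_nonneg_right (by linarith) (hpos 0).le
          linarith
        have h8 : c₅ * p.slope ≤ c₁ / 2 * p.slope := mul_le_mul_of_nonneg_right e4 g6.le
        have h9 := mul_le_mul_of_nonneg_left h7 hc₁0.le
        linarith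

end INDB
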