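import Mathlib

/-!
# INDB, module Grw: a two-sided growth lemma for sequences

PROOF. For `1 ≤ i ≤ k ≤ m` let `F(i,k) = ∑_{j ∈ [i,k]} S j`. Let `n = ⌈C⌉₊ ≥ 1`. If `i - n ≥ 1`, `k + n ≤ m`: choose `i' ∈ [i-n, i-1]`, `k' ∈ [k+1, k+n]` with minimal values of `S` (`Finset.exists_min_image`): `n S i' ≤ F(i-n,i-1)`, `n S k' ≤ F(k+1,k+n)`. Then
`F(i,k) ≤ F(i',k') ≤ C (S i' + S k') ≤ (C/n)(F(i-n,k+n) - F(i,k)) ≤ F(i-n,k+n) - F(i,k)`, so `F(i,k) ≤ (1/2) F(i-n,k+n)`. Iterating `r` times (`r n ≤ min (j-1) (m-j)`): `S j = F(j,j) ≤ 2^{-r} F(j-rn, j+rn) ≤ 2^{-r} F(1,m) ≤ 2^{-r} C (S 1 + S m) ≤ 2^{-r} 2 C K`.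
With `r = ⌊min (j-1) (m-j) / n⌋ ≥ min(j-1,m-j)/n - 1`: `2^{-r} ≤ 2 · 2^{-min(j-1,m-j)/n}`, so `g = (log 2)/n`, `C' = 4 C e^{g}` (`e^{-g (j-1)} ≤ e^{g} e^{-g j}`, and `e^{-g min} ≤` the sum of the two exponentials).
-/

set_option autoImplicit false

namespace INDB

private lemma icc_ico (a b : ℕ) : Finset.Icc a b = Finset.Ico a (b + 1) := by
  ext x
  simp only [Finset.mem_Icc, Finset.mem_Ico]
  omega

private lemma step {C : ℝ} (hC : 0 ≤ C) {n : ℕ} (hn : C ≤ n) {m : ℕ} {S : ℕ → ℝ}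
    (hn1 : 1 ≤ n) (hS : ∀ j, 0 ≤ S j)
    (h : ∀ i k, 1 ≤ i → i ≤ k → k ≤ m → ∑ j ∈ Finset.Icc i k, S j ≤ C * (S i + S k))
    {i k : ℕ} (hi : n < i) (hik : i ≤ k) (hk : k + n ≤ m) :
    ∑ j ∈ Finset.Icc i k, S j ≤ (1 / 2) * ∑ j ∈ Finset.Icc (i - n) (k + n), S j := by
  obtain ⟨i', hi1, hi2⟩ := Finset.exists_min_image (Finset.Icc (i - n) (i - 1)) S
    ⟨i - 1, by rw [Finset.mem_Icc]; omega⟩
  obtain ⟨k', hk1, hk2⟩ := Finset.exists_min_image (Finset.Icc (k + 1) (k + n)) S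
    ⟨k + 1, by rw [Finset.mem_Icc]; omega⟩
  have c1 : (n : ℝ) * S i' ≤ ∑ j ∈ Finset.Icc (i - n) (i - 1), S j := by
    have h1 := Finset.card_nsmul_le_sum (Finset.Icc (i - n) (i - 1)) S (S i') hi2
    rw [Nat.card_Icc, nsmul_eq_mul] at h1
    have h2 : i - 1 + 1 - (i - n) = n := by omega
    rwa [h2] at h1
  have c2 : (n : ℝ) * S k' ≤ ∑ j ∈ Finset.Icc (k + 1) (k + n), S j := by
    have h1 := Finset.card_nsmul_le_sum (Finset.Icc (k + 1) (k + n)) S (S k') hk2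
    rw [Nat.card_Icc, nsmul_eq_mul] at h1
    have h2 : k + n + 1 - (k + 1) = n := by omega
    rwa [h2] at h1
  rw [Finset.mem_Icc] at hi1 hk1
  have c3 : ∑ j ∈ Finset.Icc i k, S j ≤ ∑ j ∈ Finset.Icc i' k', S j := by
    refine Finset.sum_le_sum_of_subset_of_nonneg ?_ fun j _ _ => hS j
    intro x hx
    rw [Finset.mem_Icc] at hx ⊢
    omega
  have c4 := h i' k' (by omega) (by omega) (by omega)
  have c5 : ∑ j ∈ Finset.Icc (i - n) (k + n), S j =
      ∑ j ∈ Finset.Icc (i - n) (i - 1), S j + ∑ j ∈ Finset.Icc i k, S j +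
        ∑ j ∈ Finset.Icc (k + 1) (k + n), S j := by
    rw [icc_ico, icc_ico, icc_ico, icc_ico]
    have h2 : i - 1 + 1 = i := by omega
    rw [h2, Finset.sum_Ico_consecutive S (by omega) (by omega),
      Finset.sum_Ico_consecutive S (by omega) (by omega)]
  have c6 : C * S i' ≤ (n : ℝ) * S i' := mul_le_mul_of_nonneg_right hn (hS i')
  have c7 : C * S k' ≤ (n : ℝ) * S k' := mul_le_mul_of_nonneg_right hn (hS k')
  linarith

private lemma iter {C : ℝ} (hC : 0 ≤ C) {n : ℕ} (hn : C ≤ n) {m : ℕ} {S : ℕ → ℝ}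
    (hn1 : 1 ≤ n) (hS : ∀ j, 0 ≤ S j)
    (h : ∀ i k, 1 ≤ i → i ≤ k → k ≤ m → ∑ j ∈ Finset.Icc i k, S j ≤ C * (S i + S k))
    {j : ℕ} (r : ℕ) (h1 : r * n < j) (h2 : j + r * n ≤ m) :
    S j ≤ (1 / 2) ^ r * ∑ l ∈ Finset.Icc (j - r * n) (j + r * n), S l := by
  induction r with
  | zero => simp
  | succ r ih =>
    have e : (r + 1) * n = r * n + n := by ring
    rw [e] at h1 h2
    have h3 := ih (by omega) (by omega)
    have h4 := step hC hn hn1 hS h (i := j - r * n) (k := j + r * n) (by omega) (by omega)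
      (by omega)
    have h5 : j - r * n - n = j - (r + 1) * n := by omega
    have h6 : j + r * n + n = j + (r + 1) * n := by omega
    rw [h5, h6] at h4
    calc S j ≤ (1 / 2) ^ r * ∑ l ∈ Finset.Icc (j - r * n) (j + r * n), S l := h3
      _ ≤ (1 / 2) ^ r * ((1 / 2) * ∑ l ∈ Finset.Icc (j - (r + 1) * n) (j + (r + 1) * n), S l) :=
          mul_le_mul_of_nonneg_left h4 (by positivity)
      _ = _ := by ring

theorem grw {C : ℝ} (hC : 1 ≤ C) :
    ∃ g C' : ℝ, 0 < g ∧ 0 < C' ∧ ∀ (m : ℕ) (S : ℕ → ℝ) (K : ℝ), (∀ j, 0 ≤ S j) →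
      (∀ j, 1 ≤ j → j ≤ m → S j ≤ K) →
      (∀ i k, 1 ≤ i → i ≤ k → k ≤ m → ∑ j ∈ Finset.Icc i k, S j ≤ C * (S i + S k)) →
      ∀ j, 1 ≤ j → j ≤ m → S j ≤ C' * K * (Real.exp (-(g * j)) + Real.exp (-(g * ((m : ℝ) - j)))) := by
  obtain ⟨n, hn⟩ : ∃ n : ℕ, n = ⌈C⌉₊ := ⟨_, rfl⟩
  have hCn : C ≤ n := by
    rw [hn]
    exact Nat.le_ceil C
  have hn1r : (1 : ℝ) ≤ n := hC.trans hCn
  have hn1 : 1 ≤ n := by exact_mod_cast hn1r
  have hC0 : 0 ≤ C := by linarith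
  have hl2 : 0 < Real.log 2 := Real.log_pos (by norm_num)
  have hn0 : (0 : ℝ) < n := by linarith
  refine ⟨Real.log 2 / n, 4 * C * Real.exp (Real.log 2 / n), by positivity, by positivity, ?_⟩
  intro m S K hS hK h j hj hjm
  set g : ℝ := Real.log 2 / n with hg
  have hg0 : 0 < g := by positivity
  obtain ⟨M, hM⟩ : ∃ M : ℕ, M = min (j - 1) (m - j) := ⟨_, rfl⟩
  have hM1 : M ≤ j - 1 := by rw [hM]; exact min_le_left _ _
  have hM2 : M ≤ m - j := by rw [hM]; exact min_le_right _ _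
  obtain ⟨r, hr⟩ : ∃ r : ℕ, r = M / n := ⟨_, rfl⟩
  have hrn : r * n ≤ M := by
    rw [hr]
    exact Nat.div_mul_le_self M n
  have hrn2 : M < (r + 1) * n := by
    rw [hr]
    have := Nat.lt_div_mul_add (a := M) (b := n) (by omega)
    rw [add_mul, one_mul]
    exact this
  have h1 := iter hC0 hCn hn1 hS h r (j := j) (by omega) (by omega)
  have h2 : ∑ l ∈ Finset.Icc (j - r * n) (j + r * n), S l ≤ 2 * C * K := by
    have h3 : ∑ l ∈ Finset.Icc (j - r * n) (j + r * n), S l ≤ ∑ l ∈ Finset.Icc 1 m, S l := by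
      refine Finset.sum_le_sum_of_subset_of_nonneg ?_ fun j _ _ => hS j
      intro x hx
      rw [Finset.mem_Icc] at hx ⊢
      omega
    have h4 := h 1 m le_rfl (by omega) le_rfl
    have h5 := hK 1 le_rfl (by omega)
    have h6 := hK m (by omega) le_rfl
    have h7 : C * (S 1 + S m) ≤ C * (2 * K) := mul_le_mul_of_nonneg_left (by linarith) hC0
    linarith
  have hK0 : 0 ≤ K := (hS j).trans (hK j hj hjm)
  have h8 : ((1 : ℝ) / 2) ^ r ≤ 2 * Real.exp (-(g * M)) := by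
    have e1 : ((1 : ℝ) / 2) ^ r = Real.exp (-(Real.log 2 * r)) := by
      rw [one_div, inv_pow, Real.exp_neg, mul_comm, Real.exp_nat_mul, Real.exp_log (by norm_num)]
    have e2 : 2 * Real.exp (-(g * M)) = Real.exp (Real.log 2 + -(g * M)) := by
      rw [Real.exp_add, Real.exp_log (by norm_num)]
    rw [e1, e2]
    refine Real.exp_le_exp.2 ?_
    have e3 : (M : ℝ) ≤ (r + 1) * n := by exact_mod_cast hrn2.le
    have e4 : g * M ≤ g * ((r + 1) * n) := mul_le_mul_of_nonneg_left e3 hg0.le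
    have e5 : g * ((r + 1) * n) = Real.log 2 * (r + 1) := by
      rw [hg]
      field_simp
    rw [e5] at e4
    linarith
  have h9 : Real.exp (-(g * M)) ≤
      Real.exp g * (Real.exp (-(g * j)) + Real.exp (-(g * ((m : ℝ) - j)))) := by
    have hg1 : 1 ≤ Real.exp g := Real.one_le_exp hg0.le
    rcases min_choice (j - 1) (m - j) with hc | hc
    · rw [hc] at hM
      have e1 : (M : ℝ) = j - 1 := by
        rw [hM]
        push_cast [Nat.cast_sub hj]
        ring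
      have e2 : Real.exp (-(g * M)) = Real.exp g * Real.exp (-(g * j)) := by
        rw [← Real.exp_add, e1]
        congr 1
        ring
      rw [e2]
      have e3 := Real.exp_pos (-(g * ((m : ℝ) - j)))
      exact mul_le_mul_of_nonneg_left (by linarith) (Real.exp_pos g).le
    · rw [hc] at hM
      have e1 : (M : ℝ) = m - j := by
        rw [hM]
        push_cast [Nat.cast_sub hjm]
        ring
      rw [e1]
      have e3 := Real.exp_pos (-(g * j))
      have e4 := Real.exp_pos (-(g * ((m : ℝ) - j)))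
      nlinarith
  calc S j ≤ (1 / 2) ^ r * ∑ l ∈ Finset.Icc (j - r * n) (j + r * n), S l := h1
    _ ≤ (1 / 2) ^ r * (2 * C * K) := mul_le_mul_of_nonneg_left h2 (by positivity)
    _ ≤ (2 * (Real.exp g * (Real.exp (-(g * j)) + Real.exp (-(g * ((m : ℝ) - j)))))) *
        (2 * C * K) := by
        refine mul_le_mul_of_nonneg_right ?_ (by positivity)
        linarith
    _ = _ := by ring

end INDB
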