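import Pool.Agent.INDB.KernB
import Pool.Agent.Helper25.Ind2.KDer
import Pool.Agent.Helper25.Ind2.Mellin

/-!
# INDB, module InstK: the kernels `kk ρ θ` are kernels of the abstract system

`kq ρ θ` is `kk ρ θ` with the value `-1` at the point `0` if `θ = π` (where the true kernel is `-∞`).
PROOFS. `a = km ρ`, `b = kp ρ`, `p ≥ 1`. `ph_le_w`: `ph ≤ C w` (`ph_le_exp` for `u ≤ 0`, `ph_le_pos'` for `u ≥ 0`), `w_le_ph`: `c w ≤ ph` (`ph_ge_neg`, `ph_ge_pos`). `inst_kern`: `up`: `kk_le_ph`; `abs`: `abs_kk_le_far` with `δ = 1`; `int`: `integrable_kk`; `loc`: `abs_kk_le`: `|kk| ≤ C ph (1 + |s|^{-1/2})`,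
`ph ≤ C` on `[-1,1]`, `∫_{-1}^1 (1 + |s|^{-1/2}) = 6` (any finite bound, e.g. from `integrable_majorant` with `κ = 0`); all constants are uniform in `θ ∈ [0,π]`; the value at `0` does not matter (`-1 ≤ C w`). `U_kq`: the functions `y ↦ kk ρ θ (x-y) N y` and `y ↦ kq ρ θ (x-y) N y` differ at most at `y = x`.
`ae_int_kq`: for finite `μ`, for all but countably many `y` the point `{y}` has `μ`-measure `0` (`MeasureTheory.Measure.countable_meas_pos_of_disjoint...` / `Set.Countable` of atoms; or by Fubini: `∫ μ{y} dy = 0`), and then the two integrals in `x` agree.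
-/

open MeasureTheory Set Filter Topology Helper25.Ind

namespace INDB

open Classical in
/-- the kernel with a fixed value at the singularity -/
noncomputable def kq (ρ θ u : ℝ) : ℝ := if u = 0 ∧ θ = Real.pi then -1 else kk ρ θ u

private lemma ik_ne (x : ℝ) : ∀ᵐ y : ℝ, y ≠ x := by
  have h : ({x} : Set ℝ)ᶜ ∈ ae (volume : Measure ℝ) :=
    compl_mem_ae_iff.2 (measure_singleton x)
  filter_upwards [h] with y hy
  exact hy

lemma kq_eq {ρ θ u : ℝ} (h : u ≠ 0) : kq ρ θ u = kk ρ θ u := by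
  unfold kq
  exact if_neg fun h' => h h'.1

lemma kq_eq_lt {ρ θ u : ℝ} (h : θ < Real.pi) : kq ρ θ u = kk ρ θ u := by
  unfold kq
  exact if_neg fun h' => h.ne h'.2

lemma ph_le_w {ρ : ℝ} (hp : 1 ≤ ⌊ρ⌋₊) : ∃ C > 0, ∀ u, ph ρ u ≤ C * w (km ρ) (kp ρ) u := by
  obtain ⟨C, hC, h⟩ := ph_le_pos' ρ hp
  refine ⟨C + 1, by positivity, fun u => ?_⟩
  rcases le_total 0 u with hu | hu
  · rw [w_nonneg_eq hu]
    refine (h u hu).trans (mul_le_mul_of_nonneg_right (by linarith) (Real.exp_pos _).le)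
  · rw [w_nonpos_eq hu]
    refine (ph_le_exp ρ u).trans ?_
    have h1 : (0 : ℝ) < (⌊ρ⌋₊ : ℝ) + 1 := by positivity
    have h2 := Real.exp_pos (kp ρ * u)
    rw [div_le_iff₀ h1]
    have h3 : 0 ≤ (⌊ρ⌋₊ : ℝ) := Nat.cast_nonneg _
    have h4 : 1 ≤ (C + 1) * ((⌊ρ⌋₊ : ℝ) + 1) := by nlinarith
    nlinarith

lemma w_le_ph (ρ : ℝ) : ∃ c > 0, ∀ u, c * w (km ρ) (kp ρ) u ≤ ph ρ u := by
  obtain ⟨c, hc, h⟩ := ph_ge_pos ρ
  have h1 : (0 : ℝ) < 2 * ((⌊ρ⌋₊ : ℝ) + 1) := by positivity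
  refine ⟨min c (1 / (2 * ((⌊ρ⌋₊ : ℝ) + 1))), lt_min hc (by positivity), fun u => ?_⟩
  rcases le_total 0 u with hu | hu
  · rw [w_nonneg_eq hu]
    exact (mul_le_mul_of_nonneg_right (min_le_left _ _) (Real.exp_pos _).le).trans (h u hu)
  · rw [w_nonpos_eq hu]
    refine (mul_le_mul_of_nonneg_right (min_le_right _ _) (Real.exp_pos _).le).trans ?_
    refine le_trans (le_of_eq ?_) (ph_ge_neg ρ hu)
    ring

theorem inst_kern {ρ : ℝ} (hρ : 0 < ρ) (hint : ¬ ∃ n : ℕ, ρ = n) (hp : 1 ≤ ⌊ρ⌋₊) :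
    ∃ C : ℝ, 1 ≤ C ∧ ∀ θ ∈ Icc (0 : ℝ) Real.pi, Kern (km ρ) (kp ρ) C (kq ρ θ) := by
  have ha := km_pos hρ hint
  have hb := kp_pos hρ.le
  obtain ⟨C₁, hC₁, h1⟩ := ph_le_w hp
  obtain ⟨C₂, hC₂, h2⟩ := kk_le_ph ρ
  obtain ⟨C₃, hC₃, h3⟩ := abs_kk_le_far ρ one_pos
  obtain ⟨C₄, hC₄, h4⟩ := abs_kk_le ρ
  have hI := (integrable_majorant (ρ := ρ) (κ := 0) ha hb).const_mul C₄
  obtain ⟨J, hJ⟩ : ∃ J, J = ∫ s : ℝ, C₄ * (Real.exp (0 * |s|) *
    (ph ρ s * (1 + |s| ^ (-(1 / 2) : ℝ)))) := ⟨_, rfl⟩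
  have hnn : ∀ s : ℝ, 0 ≤ C₄ * (Real.exp (0 * |s|) *
      (ph ρ s * (1 + |s| ^ (-(1 / 2) : ℝ)))) := by
    intro s
    have := (ph_pos ρ s).le
    have h5 : 0 ≤ |s| ^ (-(1 / 2) : ℝ) := Real.rpow_nonneg (abs_nonneg s) _
    positivity
  have hJ0 : 0 ≤ J := by
    rw [hJ]
    exact integral_nonneg hnn
  have hsum : 0 ≤ C₂ * C₁ + C₃ * C₁ + J := by positivity
  refine ⟨1 + C₂ * C₁ + C₃ * C₁ + J, by linarith, fun θ hθ => ⟨?_, fun u => ?_, fun u hu => ?_,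
    ?_, ?_⟩⟩
  · refine Measurable.ite ?_ measurable_const (measurable_kk ρ θ)
    exact (measurableSet_singleton (0 : ℝ)).inter (MeasurableSet.const _)
  · have hw := w_pos (km ρ) (kp ρ) u
    have h5 : 0 ≤ (1 + C₂ * C₁ + C₃ * C₁ + J) * w (km ρ) (kp ρ) u := by positivity
    by_cases h6 : u = 0 ∧ θ = Real.pi
    · have h7 : kq ρ θ u = -1 := if_pos h6
      rw [h7]
      linarith
    · have h7 : kq ρ θ u = kk ρ θ u := if_neg h6
      rw [h7]
      have h8 := mul_le_mul_of_nonneg_left (h1 u) hC₂.le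
      have h9 : 0 ≤ (1 + C₃ * C₁ + J) * w (km ρ) (kp ρ) u := by positivity
      linarith [h2 θ u]
  · have hw := w_pos (km ρ) (kp ρ) u
    have hu0 : u ≠ 0 := by
      rintro rfl
      rw [abs_zero] at hu
      linarith
    rw [kq_eq hu0]
    have h8 := mul_le_mul_of_nonneg_left (h1 u) hC₃.le
    have h9 : 0 ≤ (1 + C₂ * C₁ + J) * w (km ρ) (kp ρ) u := by positivity
    linarith [h3 θ hθ u hu]
  · refine ((integrable_kk hρ hint hθ).congr ?_).integrableOn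
    filter_upwards [ik_ne 0] with u hu
    exact (kq_eq hu).symm
  · have hi : Integrable (fun u => |kk ρ θ u|) := (integrable_kk hρ hint hθ).abs
    have h5 : ∫ u in Icc (-1 : ℝ) 1, |kq ρ θ u| = ∫ u in Icc (-1 : ℝ) 1, |kk ρ θ u| := by
      refine integral_congr_ae (ae_restrict_of_ae ?_)
      filter_upwards [ik_ne 0] with u hu
      rw [kq_eq hu]
    rw [h5]
    have h6 : ∫ u in Icc (-1 : ℝ) 1, |kk ρ θ u| ≤ ∫ u, |kk ρ θ u| :=
      setIntegral_le_integral hi (Eventually.of_forall fun _ => abs_nonneg _)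
    have h7 : ∫ u, |kk ρ θ u| ≤ J := by
      rw [hJ]
      refine integral_mono_ae hi hI ?_
      filter_upwards [ik_ne 0] with u hu
      have h8 := h4 θ hθ u hu
      rw [zero_mul, Real.exp_zero, one_mul]
      exact h8
    have h8 : 0 ≤ 1 + C₂ * C₁ + C₃ * C₁ := by positivity
    linarith

lemma Kern.mono {a b C C' : ℝ} {k : ℝ → ℝ} (hk : Kern a b C k) (h : C ≤ C') : Kern a b C' k := by
  refine ⟨hk.meas, fun u => ?_, fun u hu => ?_, hk.int, hk.loc.trans h⟩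
  · exact (hk.up u).trans (mul_le_mul_of_nonneg_right h (w_pos a b u).le)
  · exact (hk.abs u hu).trans (mul_le_mul_of_nonneg_right h (w_pos a b u).le)

lemma integral_kq {ρ θ : ℝ} (f : ℝ → ℝ) : ∫ u, kq ρ θ u * f u = ∫ u, kk ρ θ u * f u := by
  refine integral_congr_ae ?_
  filter_upwards [ik_ne 0] with u hu
  rw [kq_eq hu]

lemma U_kq (ρ θ : ℝ) (N : ℝ → ℝ) (x : ℝ) : INDB.U (kq ρ θ) N x = Helper25.Ind.U ρ θ N x := by
  refine integral_congr_ae ?_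
  filter_upwards [ik_ne x] with y hy
  rw [kq_eq (sub_ne_zero.2 (Ne.symm hy))]

lemma ae_int_kq (ρ θ : ℝ) (μ : Measure ℝ) [IsFiniteMeasure μ] :
    ∀ᵐ y : ℝ, ∫ x, kq ρ θ (x - y) ∂μ = ∫ x, kk ρ θ (x - y) ∂μ := by
  have h1 : ∀ᵐ x ∂μ, ∀ᵐ y : ℝ, x ≠ y := by
    refine Eventually.of_forall fun x => ?_
    filter_upwards [ik_ne x] with y hy
    exact Ne.symm hy
  have h2 : MeasurableSet {p : ℝ × ℝ | p.1 ≠ p.2} :=
    (measurableSet_eq_fun measurable_fst measurable_snd).compl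
  have h3 := (Measure.ae_ae_comm (p := fun x y : ℝ => x ≠ y) h2).1 h1
  filter_upwards [h3] with y hy
  refine integral_congr_ae ?_
  filter_upwards [hy] with x hx
  exact kq_eq (sub_ne_zero.2 hx)

end INDB
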