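import Pool.Agent.INDB.KernB

/-!
# INDB, module MolA: averages

`avg ε N y = (1/(2ε)) ∫_{|v| ≤ ε} N(y-v) dv`.
PROOFS. `avg_cont`: `avg ε N y = (1/(2ε)) (P(y+ε) - P(y-ε))` with a primitive `P` of `N`, or continuity of parametric integrals on a compact set. `avg_affine`: `∫_{|v|≤ε} (A + B (y-v)) dv = 2ε (A + B y)`. `avg_eq`: substitution `t = y - v`. `avg_close`: `|∫_{|v|≤ε} (N(y-v) - N y) dv| ≤ 2ε δ`.
`avg_mass`: Tonelli, `∫_{[α,β]} N(y-v) dy = ∫_{[α-v,β-v]} N ≤ ∫_{[α-ε,β+ε]} N`. `U_avg`: Fubini for `k(x-y) N(y-v)` on `ℝ × [-ε,ε]` (dominated by `|k(x-y)| K (2+|y|)`, `Kern.integrable_lin`), then translation `y → y + v` : `∫ k(x-y) N(y-v) dy = ∫ k((x-v)-y) N y dy = U k N (x-v)`.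
`U_avg'`: the same double integral in the other order: `∫∫ k(x-v-y) N y dy dv = ∫ (avg ε k)(x-y) · 2ε N y dy`, `avg ε k (x-y) = (1/(2ε)) ∫ k(x-y-v) dv`.
-/

open MeasureTheory Set Filter Topology

namespace INDB

/-- average over `[y - ε, y + ε]` -/
noncomputable def avg (ε : ℝ) (N : ℝ → ℝ) (y : ℝ) : ℝ :=
  (1 / (2 * ε)) * ∫ v in Icc (-ε) ε, N (y - v)

variable {ε : ℝ} {N : ℝ → ℝ}

private lemma avg_int (hε : 0 < ε) (N : ℝ → ℝ) (y : ℝ) :
    avg ε N y = (1 / (2 * ε)) * ∫ v in (-ε)..ε, N (y - v) := by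
  rw [avg, integral_Icc_eq_integral_Ioc, ← intervalIntegral.integral_of_le (by linarith)]

private lemma vol_icc (hε : 0 < ε) : (volume (Icc (-ε) ε)).toReal = 2 * ε := by
  rw [Real.volume_Icc, ENNReal.toReal_ofReal (by linarith)]
  ring

lemma avg_cont (hε : 0 < ε) (hN : Continuous N) : Continuous (avg ε N) := by
  have h1 : avg ε N = fun y => (1 / (2 * ε)) * ∫ v in (-ε)..ε, N (y - v) := by
    funext y
    exact avg_int hε N y
  rw [h1]
  refine continuous_const.mul ?_
  exact intervalIntegral.continuous_parametric_intervalIntegral_of_continuous'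
    (f := fun y v => N (y - v)) (hN.comp (continuous_fst.sub continuous_snd)) _ _

lemma avg_nonneg (hε : 0 < ε) (hN : ∀ y, 0 ≤ N y) (y : ℝ) : 0 ≤ avg ε N y := by
  unfold avg
  exact mul_nonneg (by positivity) (integral_nonneg fun v => hN _)

private lemma avg_intOn (hN : Continuous N) (y : ℝ) :
    IntegrableOn (fun v => N (y - v)) (Icc (-ε) ε) :=
  (hN.comp (continuous_const.sub continuous_id)).integrableOn_Icc

/-- the average of a function with values in an interval -/
private lemma avg_abs_le (hε : 0 < ε) {g : ℝ → ℝ} {B : ℝ} (h : ∀ v ∈ Icc (-ε) ε, |g v| ≤ B) :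
    |(1 / (2 * ε)) * ∫ v in Icc (-ε) ε, g v| ≤ B := by
  have h1 : ‖∫ v in Icc (-ε) ε, g v‖ ≤ B * (volume (Icc (-ε) ε)).toReal := by
    refine norm_setIntegral_le_of_norm_le_const (by rw [Real.volume_Icc]; exact
      ENNReal.ofReal_lt_top) fun v hv => ?_
    rw [Real.norm_eq_abs]
    exact h v hv
  rw [vol_icc hε, Real.norm_eq_abs] at h1
  rw [abs_mul, abs_of_pos (by positivity)]
  calc 1 / (2 * ε) * |∫ v in Icc (-ε) ε, g v| ≤ 1 / (2 * ε) * (B * (2 * ε)) :=
        mul_le_mul_of_nonneg_left h1 (by positivity)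
    _ = B := by field_simp

lemma avg_lin (hε : 0 < ε) (hε1 : ε ≤ 1) (hN : Continuous N) (hl : Lin N) : Lin (avg ε N) := by
  obtain ⟨K, hK, hl⟩ := hl
  refine ⟨2 * K, by linarith, fun y => ?_⟩
  refine avg_abs_le hε fun v hv => ?_
  have h1 : |y - v| ≤ |y| + 1 := by
    have h2 : |v| ≤ 1 := (abs_le.2 hv).trans hε1
    have h3 := abs_sub y v
    linarith
  have h2 := mul_le_mul_of_nonneg_left h1 hK
  have h3 := mul_nonneg hK (abs_nonneg y)
  linarith [hl (y - v)]

lemma avg_affine (hε : 0 < ε) {y A B : ℝ} (h : ∀ v, |v| ≤ ε → N (y - v) = A + B * (y - v)) :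
    avg ε N y = A + B * y := by
  have h1 : ∫ v in Icc (-ε) ε, N (y - v) = ∫ v in Icc (-ε) ε, (A + B * (y - v)) := by
    refine setIntegral_congr_fun measurableSet_Icc fun v hv => h v (abs_le.2 hv)
  have h2 : ∫ v in (-ε)..ε, (A + B * (y - v)) = (A + B * y) * (2 * ε) := by
    have h3 : ∀ v : ℝ, A + B * (y - v) = (A + B * y) - B * v := fun v => by ring
    simp only [h3]
    rw [intervalIntegral.integral_sub (by simp) (by
      exact (continuous_const.mul continuous_id).intervalIntegrable _ _),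
      intervalIntegral.integral_const, intervalIntegral.integral_const_mul, integral_id]
    simp only [smul_eq_mul]
    ring
  rw [avg, h1, integral_Icc_eq_integral_Ioc, ← intervalIntegral.integral_of_le (by linarith), h2]
  field_simp

lemma avg_eq (hε : 0 < ε) (y : ℝ) :
    avg ε N y = (1 / (2 * ε)) * ∫ t in Icc (y - ε) (y + ε), N t := by
  rw [avg_int hε, intervalIntegral.integral_comp_sub_left, integral_Icc_eq_integral_Ioc,
    ← intervalIntegral.integral_of_le (by linarith), sub_neg_eq_add]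

lemma avg_close (hε : 0 < ε) (hN : Continuous N) {y δ : ℝ} (h : ∀ v, |v| ≤ ε → |N (y - v) - N y| ≤ δ) :
    |avg ε N y - N y| ≤ δ := by
  have h1 : avg ε N y - N y = (1 / (2 * ε)) * ∫ v in Icc (-ε) ε, (N (y - v) - N y) := by
    rw [integral_sub (avg_intOn hN y) (by simp), setIntegral_const, measureReal_def, vol_icc hε,
      avg, smul_eq_mul]
    field_simp
  rw [h1]
  exact avg_abs_le hε fun v hv => h v (abs_le.2 hv)

lemma avg_mass (hε : 0 < ε) (hN : Continuous N) (h0 : ∀ y, 0 ≤ N y) {α β : ℝ} (h : α ≤ β) :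
    ∫ y in Icc α β, avg ε N y ≤ ∫ y in Icc (α - ε) (β + ε), N y := by
  have hint : Integrable (fun p : ℝ × ℝ => N (p.1 - p.2))
      ((volume.restrict (Icc α β)).prod (volume.restrict (Icc (-ε) ε))) := by
    rw [Measure.prod_restrict]
    exact (hN.comp (continuous_fst.sub continuous_snd)).continuousOn.integrableOn_compact
      (isCompact_Icc.prod isCompact_Icc)
  have h1 : ∫ y in Icc α β, avg ε N y =
      (1 / (2 * ε)) * ∫ v in Icc (-ε) ε, ∫ y in Icc α β, N (y - v) := by
    unfold avg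
    rw [integral_const_mul, integral_integral_swap (f := fun y v => N (y - v)) hint]
  have h2 : ∀ v ∈ Icc (-ε) ε, ∫ y in Icc α β, N (y - v) ≤ ∫ y in Icc (α - ε) (β + ε), N y := by
    intro v hv
    have h3 : ∫ y in Icc α β, N (y - v) = ∫ y in Icc (α - v) (β - v), N y := by
      rw [integral_Icc_eq_integral_Ioc, integral_Icc_eq_integral_Ioc,
        ← intervalIntegral.integral_of_le h, ← intervalIntegral.integral_of_le (by linarith),
        intervalIntegral.integral_comp_sub_right (fun y => N y) v]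
    rw [h3]
    refine setIntegral_mono_set hN.integrableOn_Icc (Eventually.of_forall fun y => h0 y) ?_
    exact LE.le.eventuallyLE (Icc_subset_Icc (by linarith [hv.2]) (by linarith [hv.1]))
  have h4 : ∫ v in Icc (-ε) ε, ∫ y in Icc α β, N (y - v) ≤
      ∫ v in Icc (-ε) ε, ∫ y in Icc (α - ε) (β + ε), N y := by
    refine setIntegral_mono_on ?_ (by simp) measurableSet_Icc h2
    exact hint.integral_prod_right
  rw [setIntegral_const, measureReal_def, vol_icc hε, smul_eq_mul] at h4
  rw [h1]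
  calc 1 / (2 * ε) * ∫ v in Icc (-ε) ε, ∫ y in Icc α β, N (y - v)
      ≤ 1 / (2 * ε) * (2 * ε * ∫ y in Icc (α - ε) (β + ε), N y) :=
        mul_le_mul_of_nonneg_left h4 (by positivity)
    _ = _ := by field_simp

private lemma U_prod {a b C : ℝ} {k : ℝ → ℝ} (hk : Kern a b C k) (ha : 0 < a) (hb : 0 < b)
    (hN : Continuous N) (hl : Lin N) (x : ℝ) :
    Integrable (fun p : ℝ × ℝ => k (x - p.2) * N (p.2 - p.1))
      ((volume.restrict (Icc (-ε) ε)).prod volume) := by
  obtain ⟨K, hK, hl⟩ := hl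
  have hg : Integrable (fun y => k (x - y) * ((1 + |ε|) * K * (1 + |y|))) := by
    refine hk.integrable_lin ha hb (by fun_prop) ⟨(1 + |ε|) * K, by positivity, fun y => ?_⟩ x
    rw [abs_of_nonneg (by positivity)]
  have hg2 : Integrable (fun p : ℝ × ℝ => |k (x - p.2) * ((1 + |ε|) * K * (1 + |p.2|))|)
      ((volume.restrict (Icc (-ε) ε)).prod volume) := hg.abs.comp_snd _
  refine hg2.mono' ?_ ?_
  · exact ((hk.meas.comp (measurable_const.sub measurable_snd)).mul
      (hN.measurable.comp (measurable_snd.sub measurable_fst))).aestronglyMeasurable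
  · have h1 : ∀ᵐ p : ℝ × ℝ ∂((volume.restrict (Icc (-ε) ε)).prod volume), p.1 ∈ Icc (-ε) ε := by
      have h2 : ∀ᵐ v : ℝ ∂(volume.restrict (Icc (-ε) ε)), v ∈ Icc (-ε) ε :=
        ae_restrict_mem measurableSet_Icc
      exact Measure.quasiMeasurePreserving_fst.ae h2
    filter_upwards [h1] with p hp
    rw [Real.norm_eq_abs, abs_mul, abs_mul]
    refine mul_le_mul_of_nonneg_left ?_ (abs_nonneg _)
    rw [abs_of_nonneg (a := (1 + |ε|) * K * (1 + |p.2|)) (by positivity)]
    have h3 : |p.1| ≤ |ε| := (abs_le.2 hp).trans (le_abs_self ε)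
    have h4 : |p.2 - p.1| ≤ |p.2| + |ε| := by
      have h5 := abs_sub p.2 p.1
      linarith
    have h5 := mul_le_mul_of_nonneg_left h4 hK
    have h6 := mul_nonneg hK (mul_nonneg (abs_nonneg ε) (abs_nonneg p.2))
    have h7 : (1 + |ε|) * K * (1 + |p.2|) = K * (1 + (|p.2| + |ε|)) + K * (|ε| * |p.2|) := by ring
    rw [h7]
    linarith [hl (p.2 - p.1)]

lemma U_avg {a b C : ℝ} {k : ℝ → ℝ} (hk : Kern a b C k) (ha : 0 < a) (hb : 0 < b) (hε : 0 < ε)
    (hN : Continuous N) (hl : Lin N) (x : ℝ) : U k (avg ε N) x = avg ε (U k N) x := by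
  have h1 := integral_integral_swap (f := fun v y => k (x - y) * N (y - v))
    (U_prod (ε := ε) hk ha hb hN hl x)
  have h2 : U k (avg ε N) x =
      (1 / (2 * ε)) * ∫ y, ∫ v in Icc (-ε) ε, k (x - y) * N (y - v) := by
    unfold U avg
    rw [← integral_const_mul]
    refine integral_congr_ae (Eventually.of_forall fun y => ?_)
    simp only
    rw [integral_const_mul]
    ring
  rw [h2, ← h1, avg]
  congr 1
  refine integral_congr_ae (Eventually.of_forall fun v => ?_)
  simp only
  rw [U, ← integral_add_right_eq_self (fun y => k (x - y) * N (y - v)) v]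
  refine integral_congr_ae (Eventually.of_forall fun y => ?_)
  simp only
  rw [add_sub_cancel_right, show x - (y + v) = x - v - y by ring]

lemma U_avg' {a b C : ℝ} {k : ℝ → ℝ} (hk : Kern a b C k) (ha : 0 < a) (hb : 0 < b) (hε : 0 < ε)
    (hN : Continuous N) (hl : Lin N) (x : ℝ) :
    Integrable (fun y => avg ε k (x - y) * N y) ∧
      U k (avg ε N) x = ∫ y, avg ε k (x - y) * N y := by
  have h1 : Integrable (fun p : ℝ × ℝ => k (x - p.1 - p.2) * N p.2)
      ((volume.restrict (Icc (-ε) ε)).prod volume) := by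
    have hm := measurePreserving_prod_add (volume.restrict (Icc (-ε) ε)) (volume : Measure ℝ)
    have h2 := hm.integrable_comp_of_integrable (U_prod (ε := ε) hk ha hb hN hl x)
    refine h2.congr (Eventually.of_forall fun p => ?_)
    simp only [Function.comp_apply]
    rw [add_sub_cancel_left, show x - (p.1 + p.2) = x - p.1 - p.2 by ring]
  have h2 : ∀ y, ∫ v in Icc (-ε) ε, k (x - v - y) * N y = (2 * ε) * (avg ε k (x - y) * N y) := by
    intro y
    rw [integral_mul_const, avg]
    have h3 : ∀ v, k (x - v - y) = k (x - y - v) := fun v => by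
      rw [show x - v - y = x - y - v by ring]
    simp only [h3]
    field_simp
  have h3 := h1.integral_prod_right
  simp only [h2] at h3
  have h4 : Integrable (fun y => avg ε k (x - y) * N y) := by
    have h5 := h3.const_mul (1 / (2 * ε))
    refine h5.congr (Eventually.of_forall fun y => ?_)
    simp only
    field_simp
  refine ⟨h4, ?_⟩
  rw [U_avg hk ha hb hε hN hl, avg]
  have h5 := integral_integral_swap (f := fun v y => k (x - v - y) * N y) h1
  simp only [h2] at h5
  rw [integral_const_mul] at h5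
  unfold U
  rw [h5]
  field_simp

end INDB
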