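import Pool.Agent.INDB.InstK
import Pool.Agent.INDB.MolA

/-!
# INDB, module InstM: averaging the kernels, `θ < π`

PROOF. `a = km ρ`, `b = kp ρ`. `kk ρ θ s = e^{-ρ s} KK ρ θ s` (`kk_eq_KK`), `hasDerivAt_KK`: `kk' = -ρ kk + e^{-ρ s} e^{(p+1)s} (aa + bb e^s)/‖1+e^{s+iθ}‖²`. `|kk| ≤ C ph ≤ C' w` (`abs_kk_le_lt`, `ph_le_w`). `‖1 + e^{s+iθ}‖ ≥ c (1 + e^s)` with `c > 0` depending on `θ < π` (for `t = e^s`:
`|1+te^{iθ}|² = 1 + 2t cos θ + t² ≥ ((1+cos θ)/2)(1+t)²`, `cos θ > -1`), so the second term is at most `e^{b s}(1+e^s)/(c²(1+e^s)²) ≤ c^{-2} w(s)` (`s ≥ 0`: `e^{bs - s} = e^{-as}`; `|aa|, |bb| ≤ 1`). So `|kk'| ≤ K w`, and by the mean value theorem `|kk(u-v) - kk u| ≤ K ε e^{ε} w(u) ≤ 2 K ε w(u)` for `|v| ≤ ε ≤ 1/4`.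
Hence `kk u - avg ε kk u ≤ 2 K ε w(u)` (integrate), and `ε log(1/ε) ≤ 1`. `B = 2K`. (`kq = kk`.)
-/

open MeasureTheory Set Filter Topology Helper25.Ind

namespace INDB

private lemma im_norm (θ u : ℝ) : ‖(1 : ℂ) + Real.exp u * Complex.exp (θ * Complex.I)‖ ^ 2 =
    1 + 2 * Real.exp u * Real.cos θ + Real.exp u ^ 2 := by
  have h1 : Complex.exp (θ * Complex.I) = (Real.cos θ : ℂ) + (Real.sin θ : ℂ) * Complex.I := by
    rw [Complex.exp_mul_I, Complex.ofReal_cos, Complex.ofReal_sin]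
  rw [Complex.sq_norm, Complex.normSq_apply, h1]
  simp only [Complex.add_re, Complex.add_im, Complex.mul_re, Complex.mul_im, Complex.one_re,
    Complex.one_im, Complex.ofReal_re, Complex.ofReal_im, Complex.I_re, Complex.I_im]
  have h2 := Real.sin_sq_add_cos_sq θ
  linear_combination (Real.exp u ^ 2) * h2

private lemma im_norm_ge {θ : ℝ} (u : ℝ) : (1 + Real.cos θ) / 2 * (1 + Real.exp u) ^ 2 ≤
    ‖(1 : ℂ) + Real.exp u * Complex.exp (θ * Complex.I)‖ ^ 2 := by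
  rw [im_norm]
  have h1 : 0 ≤ (1 - Real.cos θ) / 2 * (1 - Real.exp u) ^ 2 := by
    have := Real.cos_le_one θ
    exact mul_nonneg (by linarith) (sq_nonneg _)
  nlinarith

private lemma im_ab {ρ θ u : ℝ} : |aa ρ θ + bb ρ θ * Real.exp u| ≤ 1 + Real.exp u := by
  have h1 : |aa ρ θ| ≤ 1 := by
    unfold aa
    rw [abs_mul, abs_pow, abs_neg, abs_one, one_pow, one_mul]
    exact Real.abs_cos_le_one _
  have h2 : |bb ρ θ| ≤ 1 := by
    unfold bb
    rw [abs_mul, abs_pow, abs_neg, abs_one, one_pow, one_mul]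
    exact Real.abs_cos_le_one _
  have h3 := Real.exp_pos u
  calc |aa ρ θ + bb ρ θ * Real.exp u| ≤ |aa ρ θ| + |bb ρ θ * Real.exp u| := abs_add_le _ _
    _ = |aa ρ θ| + |bb ρ θ| * Real.exp u := by rw [abs_mul, abs_of_pos h3]
    _ ≤ 1 + 1 * Real.exp u := by nlinarith
    _ = 1 + Real.exp u := by rw [one_mul]

/-- the derivative of the kernel -/
private lemma im_deriv (ρ : ℝ) {θ : ℝ} (h0 : 0 ≤ θ) (h1 : θ < Real.pi) (u : ℝ) :
    HasDerivAt (kk ρ θ) (-ρ * kk ρ θ u + Real.exp (kp ρ * u) * (aa ρ θ + bb ρ θ * Real.exp u) /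
      ‖(1 : ℂ) + Real.exp u * Complex.exp (θ * Complex.I)‖ ^ 2) u := by
  have h2 := hasDerivAt_KK ρ (θ := θ) (s := u) ⟨h0, h1.le⟩ (Or.inl h1)
  have h3 : HasDerivAt (fun s : ℝ => Real.exp (-(ρ * s))) (Real.exp (-(ρ * u)) * (-(ρ * 1))) u :=
    (((hasDerivAt_id u).const_mul ρ).neg).exp
  have h4 := h3.mul h2
  have h5 : (fun s : ℝ => Real.exp (-(ρ * s))) * KK ρ θ = kk ρ θ := by
    funext s
    exact (kk_eq_KK ρ θ s).symm
  rw [h5] at h4
  refine h4.congr_deriv ?_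
  have h6 : Real.exp (kp ρ * u) = Real.exp (-(ρ * u)) * Real.exp (((⌊ρ⌋₊ : ℝ) + 1) * u) := by
    rw [← Real.exp_add]
    congr 1
    unfold kp
    ring
  rw [h6, kk_eq_KK]
  ring

private lemma im_second {ρ θ : ℝ} (hρ : 0 < ρ) (h0 : 0 ≤ θ) (h1 : θ < Real.pi) (u : ℝ) :
    |Real.exp (kp ρ * u) * (aa ρ θ + bb ρ θ * Real.exp u) /
      ‖(1 : ℂ) + Real.exp u * Complex.exp (θ * Complex.I)‖ ^ 2| ≤
      2 / (1 + Real.cos θ) * w (km ρ) (kp ρ) u := by
  have hc : 0 < 1 + Real.cos θ := by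
    have h2 : Real.cos Real.pi < Real.cos θ :=
      Real.cos_lt_cos_of_nonneg_of_le_pi h0 le_rfl h1
    rw [Real.cos_pi] at h2
    linarith
  have he := Real.exp_pos u
  have hn := im_norm_ge (θ := θ) u
  have hpos : 0 < (1 + Real.cos θ) / 2 * (1 + Real.exp u) ^ 2 := by positivity
  rw [abs_div, abs_mul, abs_of_pos (Real.exp_pos _), abs_of_pos (hpos.trans_le hn)]
  have h3 : Real.exp (kp ρ * u) * |aa ρ θ + bb ρ θ * Real.exp u| /
      ‖(1 : ℂ) + Real.exp u * Complex.exp (θ * Complex.I)‖ ^ 2 ≤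
      Real.exp (kp ρ * u) * (1 + Real.exp u) / ((1 + Real.cos θ) / 2 * (1 + Real.exp u) ^ 2) := by
    refine div_le_div₀ (by positivity) ?_ hpos hn
    exact mul_le_mul_of_nonneg_left im_ab (Real.exp_pos _).le
  have h4 : Real.exp (kp ρ * u) * (1 + Real.exp u) / ((1 + Real.cos θ) / 2 * (1 + Real.exp u) ^ 2) =
      2 / (1 + Real.cos θ) * (Real.exp (kp ρ * u) / (1 + Real.exp u)) := by
    field_simp
  rw [h4] at h3
  refine h3.trans (mul_le_mul_of_nonneg_left ?_ (by positivity))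
  rcases le_total 0 u with hu | hu
  · rw [w_nonneg_eq hu, div_le_iff₀ (by positivity)]
    have h5 : Real.exp (kp ρ * u) = Real.exp (-(km ρ * u)) * Real.exp u := by
      rw [← Real.exp_add]
      congr 1
      have := kp_add_km ρ
      linear_combination u * this
    rw [h5]
    exact mul_le_mul_of_nonneg_left (by linarith) (Real.exp_pos _).le
  · rw [w_nonpos_eq hu]
    exact div_le_self (Real.exp_pos _).le (by linarith)

theorem inst_mol_lt {ρ θ : ℝ} (hρ : 0 < ρ) (hint : ¬ ∃ n : ℕ, ρ = n) (hp : 1 ≤ ⌊ρ⌋₊)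
    (h0 : 0 ≤ θ) (h1 : θ < Real.pi) :
    ∃ B : ℝ, 0 ≤ B ∧ ∀ ε : ℝ, 0 < ε → ε < 1 / 4 → ∀ᵐ u : ℝ, kq ρ θ u - avg ε (kq ρ θ) u ≤
      B * (w (km ρ) (kp ρ) u + if |u| ≤ 1 then max (-kq ρ θ u) 0 else 0) / Real.log (1 / ε) := by
  obtain ⟨C₁, hC₁, hk⟩ := abs_kk_le_lt ρ h1
  obtain ⟨C₂, hC₂, hph⟩ := ph_le_w (ρ := ρ) hp
  have hc : 0 < 1 + Real.cos θ := by
    have h2 : Real.cos Real.pi < Real.cos θ :=
      Real.cos_lt_cos_of_nonneg_of_le_pi h0 le_rfl h1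
    rw [Real.cos_pi] at h2
    linarith
  have hkq : kq ρ θ = kk ρ θ := by
    funext u
    exact kq_eq_lt h1
  have ha := km_pos hρ hint
  have ha1 := (km_lt_one hρ.le).le
  have hb := kp_pos hρ.le
  have hb1 := kp_le_one hρ.le
  set K : ℝ := ρ * (C₁ * C₂) + 2 / (1 + Real.cos θ) with hK
  have hK0 : 0 ≤ K := by positivity
  have hder : ∀ t, ‖-ρ * kk ρ θ t + Real.exp (kp ρ * t) * (aa ρ θ + bb ρ θ * Real.exp t) /
      ‖(1 : ℂ) + Real.exp t * Complex.exp (θ * Complex.I)‖ ^ 2‖ ≤ K * w (km ρ) (kp ρ) t := by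
    intro t
    have h2 : |kk ρ θ t| ≤ C₁ * C₂ * w (km ρ) (kp ρ) t := by
      refine (hk θ ⟨h0, le_rfl⟩ t).trans ?_
      rw [mul_assoc]
      exact mul_le_mul_of_nonneg_left (hph t) hC₁.le
    have h3 : |-ρ * kk ρ θ t| ≤ ρ * (C₁ * C₂ * w (km ρ) (kp ρ) t) := by
      rw [abs_mul, abs_neg, abs_of_pos hρ]
      exact mul_le_mul_of_nonneg_left h2 hρ.le
    have h4 := im_second hρ h0 h1 t
    rw [Real.norm_eq_abs]
    refine (abs_add_le _ _).trans ((add_le_add h3 h4).trans (le_of_eq ?_))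
    rw [hK]
    ring
  refine ⟨2 * K, by positivity, fun ε hε hε4 => Eventually.of_forall fun u => ?_⟩
  rw [hkq]
  have hcont : Continuous (kk ρ θ) :=
    continuous_iff_continuousAt.2 fun t => (im_deriv ρ h0 h1 t).continuousAt
  have hexp : Real.exp (1 / 4) ≤ 2 := by
    have h2 : Real.exp (1 / 4) ≤ Real.exp (Real.log 2) := by
      refine Real.exp_le_exp.2 ?_
      have := Real.log_two_gt_d9
      linarith
    rwa [Real.exp_log two_pos] at h2
  have hw := w_pos (km ρ) (kp ρ) u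
  have hcl : |avg ε (kk ρ θ) u - kk ρ θ u| ≤ 2 * K * w (km ρ) (kp ρ) u * ε := by
    refine avg_close hε hcont fun v hv => ?_
    have hsh : ∀ t ∈ Icc (u - ε) (u + ε), K * w (km ρ) (kp ρ) t ≤
        2 * K * w (km ρ) (kp ρ) u := by
      intro t ht
      have h2 := w_shift ha.le hb.le ha1 hb1 u (t - u)
      rw [add_sub_cancel] at h2
      have h3 : |t - u| ≤ 1 / 4 := by
        rw [abs_le]
        constructor <;> linarith [ht.1, ht.2]
      have h4 : Real.exp |t - u| ≤ 2 := (Real.exp_le_exp.2 h3).trans hexp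
      have h5 : w (km ρ) (kp ρ) t ≤ 2 * w (km ρ) (kp ρ) u :=
        h2.trans (mul_le_mul_of_nonneg_right h4 hw.le)
      calc K * w (km ρ) (kp ρ) t ≤ K * (2 * w (km ρ) (kp ρ) u) :=
            mul_le_mul_of_nonneg_left h5 hK0
        _ = 2 * K * w (km ρ) (kp ρ) u := by ring
    have h2 := Convex.norm_image_sub_le_of_norm_hasDerivWithin_le (f := kk ρ θ)
      (C := 2 * K * w (km ρ) (kp ρ) u) (s := Icc (u - ε) (u + ε)) (x := u) (y := u - v)
      (fun t _ => (im_deriv ρ h0 h1 t).hasDerivWithinAt)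
      (fun t ht => (hder t).trans (hsh t ht)) (convex_Icc _ _)
      ⟨by linarith, by linarith⟩ ⟨by linarith [(abs_le.1 hv).2], by linarith [(abs_le.1 hv).1]⟩
    rw [Real.norm_eq_abs, Real.norm_eq_abs] at h2
    refine h2.trans (mul_le_mul_of_nonneg_left ?_ (by positivity))
    rw [sub_sub_cancel_left, abs_neg]
    exact hv
  have hlog : 0 < Real.log (1 / ε) := Real.log_pos (by
    rw [lt_div_iff₀ hε]
    linarith)
  have hlog2 : ε * Real.log (1 / ε) ≤ 1 := by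
    have h2 := Real.log_le_sub_one_of_pos (show 0 < 1 / ε by positivity)
    calc ε * Real.log (1 / ε) ≤ ε * (1 / ε - 1) := mul_le_mul_of_nonneg_left h2 hε.le
      _ = 1 - ε := by field_simp
      _ ≤ 1 := by linarith
  rw [le_div_iff₀ hlog]
  have h5 : kk ρ θ u - avg ε (kk ρ θ) u ≤ 2 * K * w (km ρ) (kp ρ) u * ε := by
    have := (abs_le.1 hcl).1
    linarith
  have h6 : (0 : ℝ) ≤ if |u| ≤ 1 then max (-kk ρ θ u) 0 else 0 := by
    split_ifs
    · exact le_max_right _ _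
    · exact le_rfl
  calc (kk ρ θ u - avg ε (kk ρ θ) u) * Real.log (1 / ε)
      ≤ 2 * K * w (km ρ) (kp ρ) u * ε * Real.log (1 / ε) :=
        mul_le_mul_of_nonneg_right h5 hlog.le
    _ = 2 * K * w (km ρ) (kp ρ) u * (ε * Real.log (1 / ε)) := by ring
    _ ≤ 2 * K * w (km ρ) (kp ρ) u * 1 := mul_le_mul_of_nonneg_left hlog2 (by positivity)
    _ ≤ _ := by
      rw [mul_one]
      exact mul_le_mul_of_nonneg_left (by linarith) (by positivity)

end INDB
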