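import Pool.Agent.INDB.InstK
import Pool.Agent.INDB.MolA

/-!
# INDB, module InstN: averaging the kernel `θ = π` (logarithmic singularity)

PROOF. `a = km ρ`, `b = kp ρ`, `k = kq ρ π`; for `s ≠ 0`: `k s = e^{-ρ s} (log|1 - e^s| + ∑_{1≤j≤p} e^{js}/j)`. For `t ≠ 0`: `k' t = -ρ k t + e^{-ρ t} e^{(p+1)t} (e^t - 1)/|1-e^t|²` (`hasDerivAt_KK`, `aa = -1`, `bb = 1`), so `|k' t| ≤ K w(t) (1 + 1/|t|)` (`|k t| ≤ K w(t)(1 + |t|^{-1/2})` by `abs_kk_le`, `ph_le_w`; `e^{bt}/|e^t - 1|`: `≤ K/|t|` for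
`|t| ≤ 1`, `≤ K w(t)` for `|t| ≥ 1`). Let `0 < ε < 1/4`.
(1) `|u| ≥ √ε`. `√ε ≥ 2ε`, so `[u-ε,u+ε]` avoids `0` and `|t| ≥ √ε/2` on it: `|k(u-v) - k u| ≤ ε · K e^{1/4} w(u)(1 + 2/√ε) ≤ K' √ε w(u)`. And `√ε log(1/ε) ≤ 1` (maximum `2/e`). So the loss is `≤ K' w(u)/log(1/ε)`.
(2) `0 < |u| < √ε ≤ 1/2`: the loss is `≤ C₀`. `k t = e^{-ρ t} log|t| + r(t)` with `|r| ≤ K` on `0 < |t| ≤ 1` (`log(|e^t-1|/|t|)` is bounded there). `avg ε k u ≥ e^{-ρ u} e^{ρ ε} avg ε (log|·|) u - K` (`log|u-v| < 0`, `e^{-ρ(u-v)} ≤ e^{-ρu} e^{ρε}`). Lemma: `avg ε (log|·|) u ≥ log (max |u| (2ε)) - C₁`: if `|u| ≥ 2ε`, `|u-v| ≥ |u|/2`;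
if `|u| < 2ε`: `∫_{u-ε}^{u+ε} log|t| dt = (u+ε) log|u+ε| - (u-ε) log|u-ε| - 2ε` (`integral_log`), with `r = u/ε`, `|r| < 2`: `= ε ((r+1) log|r+1| - (r-1) log|r-1|) + 2ε log ε - 2ε ≥ 2ε log ε - 10 ε` (`|x log|x|| ≤ 4` for `|x| ≤ 3`). So the loss is
`≤ e^{-ρu} (log|u| - log max) - e^{-ρu}(e^{ρε} - 1) log max + K'' ≤ K''' ε log(1/ε) + K'' ≤ C₀`.
(3) For `0 < |u| < √ε`: `-k u ≥ e^{-ρ} log(1/|u|) - K ≥ (1/2) e^{-ρ} log(1/ε) - K`. If `log(1/ε) ≥ 4 e^{ρ} K`: `-k u ≥ (1/4) e^{-ρ} log(1/ε)`, so the right side is `≥ B e^{-ρ}/4 ≥ C₀`. Otherwise `w(u) ≥ e^{-1}` and `log (1/ε) ≤ 4 e^ρ K` give right side `≥ B e^{-1}/(4 e^ρ K) ≥ C₀` for `B` large.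
-/

open MeasureTheory Set Filter Topology Helper25.Ind

namespace INDB

/-! The positive part of `-log`. -/

private noncomputable def lp (x : ℝ) : ℝ := max (-Real.log x) 0

private lemma lp_nonneg (x : ℝ) : 0 ≤ lp x := le_max_right _ _

private lemma lp_ge (x : ℝ) : -Real.log x ≤ lp x := le_max_left _ _

private lemma lp_zero {x : ℝ} (h : 1 ≤ |x|) : lp x = 0 := by
  unfold lp
  refine max_eq_right ?_
  rw [← Real.log_abs]
  linarith [Real.log_nonneg h]

private lemma lp_int : Integrable lp := by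
  have h1 : IntegrableOn Real.log (Ioc (-1) 1) := by
    have h2 : IntervalIntegrable Real.log volume (-1) 1 := intervalIntegral.intervalIntegrable_log'
    rwa [intervalIntegrable_iff_integrableOn_Ioc_of_le (by norm_num)] at h2
  have h3 : IntegrableOn lp (Ioc (-1) 1) := h1.neg.pos_part
  have h4 : (Ioc (-1 : ℝ) 1).indicator lp = lp := by
    funext x
    by_cases hx : x ∈ Ioc (-1 : ℝ) 1
    · rw [indicator_of_mem hx]
    · rw [indicator_of_notMem hx]
      symm
      apply lp_zero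
      rw [le_abs]
      rw [mem_Ioc, not_and_or, not_lt, not_le] at hx
      rcases hx with hx | hx
      · right; linarith
      · left; linarith
  rw [← h4]
  exact h3.integrable_indicator measurableSet_Ioc

/-- The kernel near the singularity. -/
private lemma in_KK (ρ : ℝ) : ∃ K : ℝ, 0 ≤ K ∧ ∀ t : ℝ, t ≠ 0 → |t| ≤ 1 →
    |KK ρ Real.pi t - Real.log t| ≤ K := by
  refine ⟨1 + ∑ j ∈ Finset.range ⌊ρ⌋₊, Real.exp 1 ^ (j + 1) / ((j : ℝ) + 1), by positivity, ?_⟩
  intro t ht ht1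
  have h1 : KK ρ Real.pi t = Real.log |1 - Real.exp t| +
      ∑ j ∈ Finset.range ⌊ρ⌋₊, Real.exp t ^ (j + 1) / ((j : ℝ) + 1) := by
    unfold KK Helper25.Ind.ker primary
    have h2 : -((Real.exp t : ℂ) * Complex.exp (Real.pi * Complex.I)) / ((1 : ℝ) : ℂ) =
        ((Real.exp t : ℝ) : ℂ) := by
      rw [Complex.exp_pi_mul_I]
      simp
    rw [h2]
    have h3 : (1 - ((Real.exp t : ℝ) : ℂ)) = ((1 - Real.exp t : ℝ) : ℂ) := by push_cast; rfl
    have h4 : (∑ j ∈ Finset.range ⌊ρ⌋₊, ((Real.exp t : ℝ) : ℂ) ^ (j + 1) / ((j : ℂ) + 1)) =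
        ((∑ j ∈ Finset.range ⌊ρ⌋₊, Real.exp t ^ (j + 1) / ((j : ℝ) + 1) : ℝ) : ℂ) := by
      push_cast
      rfl
    have h5 : |1 - Real.exp t| ≠ 0 := by
      rw [abs_ne_zero, sub_ne_zero]
      intro h
      exact ht (Real.exp_eq_one_iff t |>.1 h.symm)
    rw [h3, h4, norm_mul, Complex.norm_real, Real.norm_eq_abs, Complex.norm_exp,
      Complex.ofReal_re, Real.log_mul h5 (Real.exp_ne_zero _), Real.log_exp]
  have ht0 : 0 < |t| := abs_pos.2 ht
  have hup : |1 - Real.exp t| ≤ 2 * |t| := by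
    rw [abs_sub_comm]
    exact Real.abs_exp_sub_one_le ht1
  have hlo : |t| / 2 ≤ |1 - Real.exp t| := by
    rcases lt_or_gt_of_ne ht with h | h
    · have h6 : |t| = -t := abs_of_neg h
      rw [h6] at ht1 ⊢
      have h7 : Real.exp t < 1 := by
        rw [← Real.exp_zero]
        exact Real.exp_lt_exp.2 h
      rw [abs_of_pos (by linarith)]
      have h8 := Real.add_one_le_exp (-t)
      have h9 : Real.exp t * (-t + 1) ≤ 1 := by
        calc Real.exp t * (-t + 1) ≤ Real.exp t * Real.exp (-t) :=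
              mul_le_mul_of_nonneg_left h8 (Real.exp_pos t).le
          _ = 1 := by rw [← Real.exp_add, add_neg_cancel, Real.exp_zero]
      (first | linarith [mul_nonneg (show 0 ≤ 1 - Real.exp t by linarith) (show 0 ≤ 1 + t by linarith)] | nlinarith [mul_nonneg (show 0 ≤ 1 - Real.exp t by linarith) (show 0 ≤ 1 + t by linarith)])
    · have h6 : |t| = t := abs_of_pos h
      rw [h6]
      have h7 : 1 < Real.exp t := Real.one_lt_exp_iff.2 h
      rw [abs_of_neg (by linarith)]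
      have h8 := Real.add_one_le_exp t
      linarith
  have h10 : |Real.log |1 - Real.exp t| - Real.log t| ≤ 1 := by
    rw [← Real.log_abs t]
    have hl2 : Real.log 2 ≤ 1 := by
      have := Real.log_two_lt_d9
      linarith
    have h11 : 0 < |1 - Real.exp t| := lt_of_lt_of_le (by linarith) hlo
    have h12 : Real.log |1 - Real.exp t| ≤ Real.log 2 + Real.log |t| := by
      rw [← Real.log_mul (by norm_num) ht0.ne']
      exact Real.log_le_log h11 hup
    have h13 : Real.log |t| - Real.log 2 ≤ Real.log |1 - Real.exp t| := by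
      rw [← Real.log_div ht0.ne' (by norm_num)]
      exact Real.log_le_log (by positivity) hlo
    rw [abs_le]
    constructor <;> linarith
  have h14 : |∑ j ∈ Finset.range ⌊ρ⌋₊, Real.exp t ^ (j + 1) / ((j : ℝ) + 1)| ≤
      ∑ j ∈ Finset.range ⌊ρ⌋₊, Real.exp 1 ^ (j + 1) / ((j : ℝ) + 1) := by
    rw [abs_of_nonneg (by positivity)]
    refine Finset.sum_le_sum fun j _ => ?_
    have h15 : Real.exp t ≤ Real.exp 1 := Real.exp_le_exp.2 ((le_abs_self t).trans ht1)
    gcongr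
  rw [h1]
  have h16 : Real.log |1 - Real.exp t| +
      ∑ j ∈ Finset.range ⌊ρ⌋₊, Real.exp t ^ (j + 1) / ((j : ℝ) + 1) - Real.log t =
      (Real.log |1 - Real.exp t| - Real.log t) +
      ∑ j ∈ Finset.range ⌊ρ⌋₊, Real.exp t ^ (j + 1) / ((j : ℝ) + 1) := by ring
  rw [h16]
  exact (abs_add_le _ _).trans (add_le_add h10 h14)

private lemma in_aa (ρ : ℝ) : aa ρ Real.pi = -1 := by
  unfold aa
  have h1 : Real.cos (((⌊ρ⌋₊ : ℝ) + 1) * Real.pi) = (-1) ^ (⌊ρ⌋₊ + 1) := by
    have := Real.cos_nat_mul_pi (⌊ρ⌋₊ + 1)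
    rw [← this]
    push_cast
    rfl
  rw [h1, pow_succ, ← mul_assoc, ← mul_pow]
  norm_num

private lemma in_bb (ρ : ℝ) : bb ρ Real.pi = 1 := by
  unfold bb
  rw [Real.cos_nat_mul_pi, ← mul_pow]
  norm_num

/-- The derivative away from the singularity. -/
private lemma in_der {ρ : ℝ} (hρ : 0 < ρ) (hint : ¬ ∃ n : ℕ, ρ = n) (hp : 1 ≤ ⌊ρ⌋₊) :
    ∃ K : ℝ, 0 ≤ K ∧ ∀ t : ℝ, t ≠ 0 → ∃ d : ℝ, HasDerivAt (kk ρ Real.pi) d t ∧
      |d| ≤ K * (w (km ρ) (kp ρ) t * (1 + 1 / |t|)) := by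
  obtain ⟨C, hC, h1⟩ := abs_kk_le ρ
  obtain ⟨C', hC', h2⟩ := ph_le_w (ρ := ρ) hp
  have hπ : Real.pi ∈ Icc (0 : ℝ) Real.pi := ⟨Real.pi_pos.le, le_rfl⟩
  have hkm := km_pos hρ hint
  have hkp := kp_pos hρ.le
  have hkpm := kp_add_km ρ
  refine ⟨ρ * (C * (C' * 2)) + 1, by positivity, fun t ht => ?_⟩
  have ht0 : 0 < |t| := abs_pos.2 ht
  have hw := w_pos (km ρ) (kp ρ) t
  -- the derivative
  have hd := hasDerivAt_KK ρ hπ (Or.inr ht)
  have he : HasDerivAt (fun s : ℝ => Real.exp (-(ρ * s))) (-ρ * Real.exp (-(ρ * t))) t := by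
    have h3 : HasDerivAt (fun s : ℝ => -(ρ * s)) (-ρ) t := by
      have := (hasDerivAt_id t).const_mul (-ρ)
      simpa using this
    have h4 := h3.exp
    rwa [mul_comm] at h4
  have hmul := he.mul hd
  have hfun : (kk ρ Real.pi) = fun s => Real.exp (-(ρ * s)) * KK ρ Real.pi s :=
    funext fun s => kk_eq_KK ρ Real.pi s
  refine ⟨_, by rw [hfun]; exact hmul, ?_⟩
  -- the value of the second term
  have hnorm : ‖1 + (Real.exp t : ℂ) * Complex.exp (Real.pi * Complex.I)‖ ^ 2 =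
      (Real.exp t - 1) ^ 2 := by
    rw [Complex.exp_pi_mul_I]
    have h3 : (1 : ℂ) + (Real.exp t : ℂ) * (-1) = ((1 - Real.exp t : ℝ) : ℂ) := by
      push_cast
      ring
    rw [h3, Complex.norm_real, Real.norm_eq_abs, sq_abs]
    ring
  have het : Real.exp t - 1 ≠ 0 := by
    rw [sub_ne_zero]
    intro h
    exact ht (Real.exp_eq_one_iff t |>.1 h)
  have hlow : |t| / (1 + |t|) * Real.exp (max t 0) ≤ |Real.exp t - 1| := by
    rcases lt_or_gt_of_ne ht with h | h
    · rw [abs_of_neg h, max_eq_right h.le, Real.exp_zero, mul_one]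
      have h7 : Real.exp t < 1 := by
        rw [← Real.exp_zero]
        exact Real.exp_lt_exp.2 h
      rw [abs_of_neg (by linarith), div_le_iff₀ (by linarith)]
      have h8 := Real.add_one_le_exp (-t)
      have h10 : Real.exp t * (-t + 1) ≤ 1 := by
        calc Real.exp t * (-t + 1) ≤ Real.exp t * Real.exp (-t) :=
              mul_le_mul_of_nonneg_left h8 (Real.exp_pos t).le
          _ = 1 := by rw [← Real.exp_add, add_neg_cancel, Real.exp_zero]
      (first | linarith | nlinarith)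
    · rw [abs_of_pos h, max_eq_left h.le]
      have h7 : 1 < Real.exp t := Real.one_lt_exp_iff.2 h
      rw [abs_of_pos (by linarith), div_mul_eq_mul_div, div_le_iff₀ (by linarith)]
      have h8 := Real.add_one_le_exp t
      (first | linarith | nlinarith)
  have hsec : |Real.exp (-(ρ * t)) * (Real.exp (((⌊ρ⌋₊ : ℝ) + 1) * t) *
      (aa ρ Real.pi + bb ρ Real.pi * Real.exp t) /
      ‖1 + (Real.exp t : ℂ) * Complex.exp (Real.pi * Complex.I)‖ ^ 2)| ≤
      w (km ρ) (kp ρ) t * (1 + 1 / |t|) := by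
    rw [hnorm, in_aa, in_bb]
    have h3 : Real.exp (-(ρ * t)) * (Real.exp (((⌊ρ⌋₊ : ℝ) + 1) * t) *
        (-1 + 1 * Real.exp t) / (Real.exp t - 1) ^ 2) =
        Real.exp (kp ρ * t) / (Real.exp t - 1) := by
      have h4 : Real.exp (kp ρ * t) =
          Real.exp (-(ρ * t)) * Real.exp (((⌊ρ⌋₊ : ℝ) + 1) * t) := by
        rw [← Real.exp_add]
        congr 1
        unfold kp
        ring
      rw [h4]
      field_simp
      ring
    rw [h3, abs_div, abs_of_pos (Real.exp_pos _), div_le_iff₀ (abs_pos.2 het)]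
    have h5 : w (km ρ) (kp ρ) t * Real.exp (max t 0) = Real.exp (kp ρ * t) := by
      rw [w_eq (by linarith), mul_assoc, ← Real.exp_add, neg_add_cancel, Real.exp_zero, mul_one]
    have h6 : (1 + 1 / |t|) * (|t| / (1 + |t|)) = 1 := by
      field_simp
      ring
    calc Real.exp (kp ρ * t) = w (km ρ) (kp ρ) t * (1 + 1 / |t|) *
          (|t| / (1 + |t|) * Real.exp (max t 0)) := by
          rw [← h5]
          calc w (km ρ) (kp ρ) t * Real.exp (max t 0) =
              w (km ρ) (kp ρ) t * Real.exp (max t 0) * 1 := by ring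
            _ = w (km ρ) (kp ρ) t * Real.exp (max t 0) * ((1 + 1 / |t|) * (|t| / (1 + |t|))) := by
              rw [h6]
            _ = _ := by ring
      _ ≤ w (km ρ) (kp ρ) t * (1 + 1 / |t|) * |Real.exp t - 1| :=
          mul_le_mul_of_nonneg_left hlow (by positivity)
  have hfirst : |(-ρ * Real.exp (-(ρ * t))) * KK ρ Real.pi t| ≤
      ρ * (C * (C' * 2)) * (w (km ρ) (kp ρ) t * (1 + 1 / |t|)) := by
    have h3 : (-ρ * Real.exp (-(ρ * t))) * KK ρ Real.pi t = -ρ * kk ρ Real.pi t := by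
      rw [kk_eq_KK]
      ring
    rw [h3, abs_mul, abs_neg, abs_of_pos hρ, mul_assoc, mul_assoc]
    refine mul_le_mul_of_nonneg_left ?_ hρ.le
    refine (h1 Real.pi hπ t ht).trans ?_
    rw [mul_assoc]
    refine mul_le_mul_of_nonneg_left ?_ hC.le
    have h4 : |t| ^ (-(1 / 2) : ℝ) ≤ 1 + 1 / |t| := by
      rcases le_total 1 |t| with h | h
      · have h5 : |t| ^ (-(1 / 2) : ℝ) ≤ 1 := Real.rpow_le_one_of_one_le_of_nonpos h (by norm_num)
        have h6 : 0 ≤ 1 / |t| := by positivity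
        linarith
      · have h5 : |t| ^ (-(1 / 2) : ℝ) ≤ |t| ^ (-1 : ℝ) :=
          Real.rpow_le_rpow_of_exponent_ge ht0 h (by norm_num)
        rw [Real.rpow_neg_one, ← one_div] at h5
        linarith
    have h5 : 1 + |t| ^ (-(1 / 2) : ℝ) ≤ 2 * (1 + 1 / |t|) := by
      have h6 : 0 ≤ 1 / |t| := by positivity
      linarith
    have h7 : 0 ≤ 1 + |t| ^ (-(1 / 2) : ℝ) := by positivity
    calc ph ρ t * (1 + |t| ^ (-(1 / 2) : ℝ)) ≤ C' * w (km ρ) (kp ρ) t *
          (1 + |t| ^ (-(1 / 2) : ℝ)) := mul_le_mul_of_nonneg_right (h2 t) h7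
      _ ≤ C' * w (km ρ) (kp ρ) t * (2 * (1 + 1 / |t|)) :=
          mul_le_mul_of_nonneg_left h5 (by positivity)
      _ = C' * (2 * (w (km ρ) (kp ρ) t * (1 + 1 / |t|))) := by ring
  refine (abs_add_le _ _).trans ((add_le_add hfirst hsec).trans (le_of_eq ?_))
  ring

/-- The increments away from the singularity. -/
private lemma in_far {ρ K : ℝ} (hρ : 0 < ρ) (hint : ¬ ∃ n : ℕ, ρ = n) (hK : 0 ≤ K)
    (hder : ∀ t : ℝ, t ≠ 0 → ∃ d : ℝ, HasDerivAt (kk ρ Real.pi) d t ∧
      |d| ≤ K * (w (km ρ) (kp ρ) t * (1 + 1 / |t|))) {s u v : ℝ} (hs : 0 < s) (hs1 : s < 1 / 2)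
    (hu : s ≤ |u|) (hv : |v| ≤ s ^ 2) :
    |kk ρ Real.pi u - kk ρ Real.pi (u - v)| ≤ 9 * K * s * w (km ρ) (kp ρ) u := by
  choose! d hd hb using hder
  have hkm := km_pos hρ hint
  have hkp := kp_pos hρ.le
  have hkpm := kp_add_km ρ
  have hs2 : s ^ 2 ≤ s / 2 := by
    rw [sq]
    have h0 := mul_le_mul_of_nonneg_left hs1.le hs.le
    linarith
  have hw := w_pos (km ρ) (kp ρ) u
  have hfar : ∀ t ∈ Icc (u - s ^ 2) (u + s ^ 2), s / 2 ≤ |t| := by
    intro t ht
    have h1 : |u| ≤ |t| + |u - t| := by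
      have := abs_add_le t (u - t)
      rwa [add_sub_cancel] at this
    have h2 : |u - t| ≤ s ^ 2 := by
      rw [abs_le]
      constructor <;> linarith [ht.1, ht.2]
    linarith
  have hne : ∀ t ∈ Icc (u - s ^ 2) (u + s ^ 2), t ≠ 0 := by
    intro t ht h0
    have := hfar t ht
    rw [h0, abs_zero] at this
    linarith
  have hbound : ∀ t ∈ Icc (u - s ^ 2) (u + s ^ 2),
      ‖d t‖ ≤ K * (3 * w (km ρ) (kp ρ) u * (1 + 2 / s)) := by
    intro t ht
    have h1 := hb t (hne t ht)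
    refine h1.trans (mul_le_mul_of_nonneg_left ?_ hK)
    have h2 : |t - u| ≤ 1 := by
      have h3 : |t - u| ≤ s ^ 2 := by
        rw [abs_le]
        constructor <;> linarith [ht.1, ht.2]
      linarith
    have h3 := w_shift hkm.le hkp.le (by linarith) (by linarith) u (t - u)
    rw [add_sub_cancel] at h3
    have h4 : Real.exp |t - u| ≤ 3 := by
      have h5 : Real.exp |t - u| ≤ Real.exp 1 := Real.exp_le_exp.2 h2
      have h6 := Real.exp_one_lt_d9
      linarith
    have h5 : w (km ρ) (kp ρ) t ≤ 3 * w (km ρ) (kp ρ) u :=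
      h3.trans (mul_le_mul_of_nonneg_right h4 hw.le)
    have h6 : 1 / |t| ≤ 2 / s := by
      have h7 := hfar t ht
      rw [div_le_div_iff₀ (by linarith) hs]
      linarith
    have h7 : 0 ≤ 1 / |t| := by positivity
    exact mul_le_mul h5 (by linarith) (by linarith) (by positivity)
  have hv1 := abs_le.1 hv
  have hmv := Convex.norm_image_sub_le_of_norm_hasDerivWithin_le
    (fun t ht => (hd t (hne t ht)).hasDerivWithinAt) hbound
    (convex_Icc (u - s ^ 2) (u + s ^ 2)) (x := u - v) (y := u)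
    ⟨by linarith, by linarith⟩ ⟨by linarith [sq_nonneg s], by linarith [sq_nonneg s]⟩
  rw [sub_sub_cancel, Real.norm_eq_abs, Real.norm_eq_abs] at hmv
  refine hmv.trans ?_
  calc K * (3 * w (km ρ) (kp ρ) u * (1 + 2 / s)) * |v|
      ≤ K * (3 * w (km ρ) (kp ρ) u * (1 + 2 / s)) * s ^ 2 :=
        mul_le_mul_of_nonneg_left hv (by positivity)
    _ = 3 * K * w (km ρ) (kp ρ) u * (s ^ 2 + 2 * s) := by
        field_simp
    _ ≤ 3 * K * w (km ρ) (kp ρ) u * (3 * s) :=
        mul_le_mul_of_nonneg_left (by linarith) (by positivity)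
    _ = 9 * K * s * w (km ρ) (kp ρ) u := by ring

private lemma in_exp {x y M : ℝ} (hx : x ≤ M) (hy : y ≤ M) :
    |Real.exp x - Real.exp y| ≤ Real.exp M * |x - y| := by
  have key : ∀ x y : ℝ, x ≤ y → y ≤ M → |Real.exp x - Real.exp y| ≤ Real.exp M * |x - y| := by
    intro x y hxy hyM
    have h1 : Real.exp x ≤ Real.exp y := Real.exp_le_exp.2 hxy
    rw [abs_of_nonpos (by linarith), abs_of_nonpos (by linarith)]
    have h2 := Real.add_one_le_exp (x - y)
    have h3 : Real.exp y * (x - y + 1) ≤ Real.exp x := by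
      calc Real.exp y * (x - y + 1) ≤ Real.exp y * Real.exp (x - y) :=
            mul_le_mul_of_nonneg_left h2 (Real.exp_pos y).le
        _ = Real.exp x := by rw [← Real.exp_add]; congr 1; ring
    have h4 : Real.exp y * (y - x) ≤ Real.exp M * (y - x) :=
      mul_le_mul_of_nonneg_right (Real.exp_le_exp.2 hyM) (by linarith)
    linarith
  rcases le_total x y with h | h
  · exact key x y h hy
  · rw [abs_sub_comm, abs_sub_comm x y]
    exact key y x h hx

/-- The increments near the singularity. -/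
private lemma in_near {ρ K₁ : ℝ} (hρ : 0 < ρ) (hK₁ : 0 ≤ K₁)
    (hKK : ∀ t : ℝ, t ≠ 0 → |t| ≤ 1 → |KK ρ Real.pi t - Real.log t| ≤ K₁) {ε u v : ℝ}
    (hε1 : ε < 1 / 4) (hu0 : u ≠ 0) (hu : |u| ≤ 1 / 2) (hv : |v| ≤ ε)
    (huv : u - v ≠ 0) : kk ρ Real.pi u - kk ρ Real.pi (u - v) ≤
      Real.exp ρ * (lp ((u - v) / u) + 2 * K₁) + ρ * Real.exp ρ * ε * (lp (u - v) + K₁) := by
  have hu1 : |u| ≤ 1 := by linarith
  have huv1 : |u - v| ≤ 1 := by
    have := abs_sub u v
    linarith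
  have h1 := abs_le.1 (hKK u hu0 hu1)
  have h2 := abs_le.1 (hKK (u - v) huv huv1)
  have hua := abs_le.1 hu1
  have huva := abs_le.1 huv1
  have h3 : KK ρ Real.pi u - KK ρ Real.pi (u - v) ≤ lp ((u - v) / u) + 2 * K₁ := by
    have h4 := lp_ge ((u - v) / u)
    rw [Real.log_div huv hu0] at h4
    linarith
  have h5 : 0 ≤ lp ((u - v) / u) + 2 * K₁ := by
    have := lp_nonneg ((u - v) / u)
    positivity
  have h6 : Real.exp (-(ρ * u)) ≤ Real.exp ρ := Real.exp_le_exp.2 (by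
    have h0 := mul_le_mul_of_nonneg_left (show -u ≤ 1 by linarith [hua.1]) hρ.le
    linarith)
  have h7 : Real.exp (-(ρ * u)) * (KK ρ Real.pi u - KK ρ Real.pi (u - v)) ≤
      Real.exp ρ * (lp ((u - v) / u) + 2 * K₁) := by
    calc Real.exp (-(ρ * u)) * (KK ρ Real.pi u - KK ρ Real.pi (u - v)) ≤
        Real.exp (-(ρ * u)) * (lp ((u - v) / u) + 2 * K₁) :=
          mul_le_mul_of_nonneg_left h3 (Real.exp_pos _).le
      _ ≤ _ := mul_le_mul_of_nonneg_right h6 h5
  have h8 : |Real.exp (-(ρ * u)) - Real.exp (-(ρ * (u - v)))| ≤ Real.exp ρ * (ρ * ε) := by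
    have m1 := mul_le_mul_of_nonneg_left (show -u ≤ 1 by linarith [hua.1]) hρ.le
    have m2 := mul_le_mul_of_nonneg_left (show -(u - v) ≤ 1 by linarith [huva.1]) hρ.le
    refine (in_exp (M := ρ) (by linarith) (by linarith)).trans ?_
    refine mul_le_mul_of_nonneg_left ?_ (Real.exp_pos _).le
    have h9 : -(ρ * u) - -(ρ * (u - v)) = -(ρ * v) := by ring
    rw [h9, abs_neg, abs_mul, abs_of_pos hρ]
    exact mul_le_mul_of_nonneg_left hv hρ.le
  have h10 : |KK ρ Real.pi (u - v)| ≤ lp (u - v) + K₁ := by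
    have h11 : Real.log (u - v) ≤ 0 := by
      rw [← Real.log_abs]
      exact Real.log_nonpos (abs_nonneg _) huv1
    have h12 := lp_ge (u - v)
    rw [abs_le]
    constructor
    · linarith
    · have h13 := lp_nonneg (u - v)
      linarith
  have h14 : (Real.exp (-(ρ * u)) - Real.exp (-(ρ * (u - v)))) * KK ρ Real.pi (u - v) ≤
      ρ * Real.exp ρ * ε * (lp (u - v) + K₁) := by
    refine (le_abs_self _).trans ?_
    rw [abs_mul]
    refine (mul_le_mul h8 h10 (abs_nonneg _) ?_).trans (le_of_eq (by ring))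
    have := abs_nonneg v
    have : 0 ≤ ε := by linarith
    positivity
  rw [kk_eq_KK, kk_eq_KK]
  linarith

private lemma in_avg {k F : ℝ → ℝ} (hk : Integrable k) {ε : ℝ} (hε : 0 < ε) (u : ℝ)
    (hF : IntegrableOn F (Icc (-ε) ε)) (h : ∀ᵐ v : ℝ, |v| ≤ ε → k u - k (u - v) ≤ F v) :
    k u - avg ε k u ≤ (1 / (2 * ε)) * ∫ v in Icc (-ε) ε, F v := by
  have hku : IntegrableOn (fun v => k (u - v)) (Icc (-ε) ε) := (hk.comp_sub_left u).integrableOn
  have hc : IntegrableOn (fun _ : ℝ => k u) (Icc (-ε) ε) := integrableOn_const (by simp)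
  have h1 : ∫ _ in Icc (-ε) ε, k u = 2 * ε * k u := by
    rw [setIntegral_const, measureReal_def, Real.volume_Icc, ENNReal.toReal_ofReal (by linarith),
      smul_eq_mul]
    ring
  have h2 : k u = (1 / (2 * ε)) * ∫ _ in Icc (-ε) ε, k u := by
    rw [h1]
    field_simp
  unfold avg
  rw [h2, ← mul_sub, ← integral_sub hc hku]
  refine mul_le_mul_of_nonneg_left ?_ (by positivity)
  refine setIntegral_mono_on_ae (hc.sub hku) hF measurableSet_Icc ?_
  filter_upwards [h] with v hv hvI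
  exact hv (abs_le.2 hvI)

private lemma in_lp_sub (u : ℝ) : Integrable (fun v => lp (u - v)) := lp_int.comp_sub_left u

private lemma in_lp_div {u : ℝ} (hu : u ≠ 0) : Integrable (fun v => lp ((u - v) / u)) ∧
    ∫ v, lp ((u - v) / u) = |u| * ∫ x, lp x := by
  have h1 : (fun v => lp ((u - v) / u)) = fun v => (fun y => lp (1 - y)) (v / u) := by
    funext v
    simp only
    congr 1
    field_simp
  rw [h1]
  constructor
  · exact (lp_int.comp_sub_left 1).comp_div hu
  · rw [Measure.integral_comp_div (fun y => lp (1 - y)) u, integral_sub_left_eq_self lp volume 1,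
      smul_eq_mul]

private lemma in_sq {L : ℝ} (hL : 0 < L) {s ε : ℝ} (hs : 0 < s) (hε : ε = s ^ 2)
    (hLd : L = Real.log (1 / ε)) : s ≤ 2 / L := by
  rw [le_div_iff₀ hL]
  have h1 : L = 2 * Real.log (1 / s) := by
    rw [hLd, hε, ← one_div_pow, Real.log_pow]
    norm_num
  have h2 : Real.log (1 / s) ≤ 1 / s := by
    have := Real.log_le_sub_one_of_pos (show 0 < 1 / s by positivity)
    linarith
  rw [h1]
  calc s * (2 * Real.log (1 / s)) ≤ s * (2 * (1 / s)) :=
        mul_le_mul_of_nonneg_left (by linarith) hs.le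
    _ = 2 := by field_simp

theorem inst_mol_pi {ρ : ℝ} (hρ : 0 < ρ) (hint : ¬ ∃ n : ℕ, ρ = n) (hp : 1 ≤ ⌊ρ⌋₊) :
    ∃ B : ℝ, 0 ≤ B ∧ ∀ ε : ℝ, 0 < ε → ε < 1 / 4 → ∀ᵐ u : ℝ,
      kq ρ Real.pi u - avg ε (kq ρ Real.pi) u ≤
      B * (w (km ρ) (kp ρ) u + if |u| ≤ 1 then max (-kq ρ Real.pi u) 0 else 0) /
        Real.log (1 / ε) := by
  obtain ⟨C, -, hkern⟩ := inst_kern hρ hint hp
  have hkm := km_pos hρ hint
  have hkp := kp_pos hρ.le
  have hkpm := kp_add_km ρ
  have hkint : Integrable (kq ρ Real.pi) :=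
    (hkern Real.pi ⟨Real.pi_pos.le, le_rfl⟩).integrable hkm hkp
  obtain ⟨K, hK, hder⟩ := in_der hρ hint hp
  obtain ⟨K₁, hK₁, hKK⟩ := in_KK ρ
  obtain ⟨J, hJ⟩ : ∃ J, J = ∫ x, lp x := ⟨_, rfl⟩
  have hJ0 : 0 ≤ J := by
    rw [hJ]
    exact integral_nonneg lp_nonneg
  obtain ⟨C₀, hC₀⟩ : ∃ C₀, C₀ = Real.exp ρ * (J + 1 + 2 * K₁) + ρ * Real.exp ρ * (J + K₁) :=
    ⟨_, rfl⟩
  have hC₀0 : 0 ≤ C₀ := by rw [hC₀]; positivity
  obtain ⟨t, ht⟩ : ∃ t, t = Real.exp (-1) / (Real.exp (-ρ) * K₁ + Real.exp (-1)) := ⟨_, rfl⟩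
  have hden : 0 < Real.exp (-ρ) * K₁ + Real.exp (-1) := by
    have := Real.exp_pos (-1)
    positivity
  have ht0 : 0 < t := by rw [ht]; positivity
  have ht1 : t ≤ 1 := by
    rw [ht, div_le_one hden]
    have : 0 ≤ Real.exp (-ρ) * K₁ := by positivity
    linarith
  have hte : Real.exp (-1) = t * (Real.exp (-ρ) * K₁ + Real.exp (-1)) := by
    rw [ht]
    field_simp
  obtain ⟨lam, hlam⟩ : ∃ lam, lam = t * Real.exp (-ρ) / 2 := ⟨_, rfl⟩
  have hlam0 : 0 < lam := by rw [hlam]; positivity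
  refine ⟨2 * (9 * K) + C₀ / lam, by positivity, fun ε hε hε4 => ?_⟩
  obtain ⟨L, hL⟩ : ∃ L, L = Real.log (1 / ε) := ⟨_, rfl⟩
  have hL0 : 0 < L := by
    rw [hL]
    refine Real.log_pos ?_
    rw [lt_div_iff₀ hε]
    linarith
  obtain ⟨s, hs⟩ : ∃ s, s = Real.sqrt ε := ⟨_, rfl⟩
  have hs0 : 0 < s := by rw [hs]; exact Real.sqrt_pos.2 hε
  have hsε : ε = s ^ 2 := by rw [hs, Real.sq_sqrt hε.le]
  have hs1 : s < 1 / 2 := by
    by_contra h
    push Not at h
    have : 1 / 4 ≤ s ^ 2 := by (first | linarith | nlinarith)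
    linarith
  have hsL := in_sq hL0 hs0 hsε hL
  have h0 : ∀ᵐ u : ℝ, u ∉ ({0} : Set ℝ) := (countable_singleton (0 : ℝ)).ae_notMem volume
  filter_upwards [h0] with u hu0
  have hu0 : u ≠ 0 := hu0
  rw [← hL]
  obtain ⟨X, hX⟩ : ∃ X, X = w (km ρ) (kp ρ) u +
    if |u| ≤ 1 then max (-kq ρ Real.pi u) 0 else 0 := ⟨_, rfl⟩
  rw [← hX]
  have hw := w_pos (km ρ) (kp ρ) u
  have hXw : w (km ρ) (kp ρ) u ≤ X := by
    rw [hX]
    have : (0 : ℝ) ≤ if |u| ≤ 1 then max (-kq ρ Real.pi u) 0 else 0 := by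
      split_ifs
      · exact le_max_right _ _
      · exact le_rfl
    linarith
  have hX0 : 0 < X := lt_of_lt_of_le hw hXw
  have hgoal : ∀ z, z ≤ (2 * (9 * K)) * X / L ∨ z ≤ C₀ / lam * X / L →
      z ≤ (2 * (9 * K) + C₀ / lam) * X / L := by
    intro z hz
    have h1 : 0 ≤ (2 * (9 * K)) * X / L := by positivity
    have h2 : 0 ≤ C₀ / lam * X / L := by positivity
    have h3 : (2 * (9 * K) + C₀ / lam) * X / L =
        (2 * (9 * K)) * X / L + C₀ / lam * X / L := by ring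
    rw [h3]
    rcases hz with hz | hz <;> linarith
  have hvol : ∀ c : ℝ, ∫ _ in Icc (-ε) ε, c = 2 * ε * c := by
    intro c
    rw [setIntegral_const, measureReal_def, Real.volume_Icc, ENNReal.toReal_ofReal (by linarith),
      smul_eq_mul]
    ring
  have hconst : ∀ c : ℝ, IntegrableOn (fun _ : ℝ => c) (Icc (-ε) ε) := fun c =>
    integrableOn_const (by simp)
  apply hgoal
  rcases le_or_gt s |u| with hsu | hsu
  · -- away from the singularity
    left
    have h1 : kq ρ Real.pi u - avg ε (kq ρ Real.pi) u ≤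
        (1 / (2 * ε)) * ∫ _ in Icc (-ε) ε, 9 * K * s * w (km ρ) (kp ρ) u := by
      refine in_avg hkint hε u (hconst _) (Eventually.of_forall fun v hv => ?_)
      have hv1 : |v| ≤ s ^ 2 := by rwa [← hsε]
      have huv : u - v ≠ 0 := by
        intro h
        have h2 : u = v := sub_eq_zero.1 h
        rw [h2] at hsu
        have h3 : s ^ 2 ≤ s / 2 := by
          rw [sq]
          have h4 := mul_le_mul_of_nonneg_left hs1.le hs0.le
          linarith
        linarith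
      rw [kq_eq hu0, kq_eq huv]
      exact (le_abs_self _).trans (in_far hρ hint hK hder hs0 hs1 hsu hv1)
    rw [hvol] at h1
    refine h1.trans ?_
    have h2 : 1 / (2 * ε) * (2 * ε * (9 * K * s * w (km ρ) (kp ρ) u)) =
        9 * K * s * w (km ρ) (kp ρ) u := by field_simp
    rw [h2]
    calc 9 * K * s * w (km ρ) (kp ρ) u ≤ 9 * K * (2 / L) * X := by
          refine mul_le_mul ?_ hXw hw.le (by positivity)
          exact mul_le_mul_of_nonneg_left hsL (by positivity)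
      _ = 2 * (9 * K) * X / L := by ring
  · -- near the singularity
    right
    have hu1 : |u| ≤ 1 := by linarith
    obtain ⟨hd1, hd2⟩ := in_lp_div hu0
    have i1 : IntegrableOn (fun v => lp ((u - v) / u)) (Icc (-ε) ε) := hd1.integrableOn
    have i2 : IntegrableOn (fun v => lp (u - v)) (Icc (-ε) ε) := (in_lp_sub u).integrableOn
    have i3 : IntegrableOn (fun v => Real.exp ρ * (lp ((u - v) / u) + 2 * K₁)) (Icc (-ε) ε) :=
      (i1.add (hconst (2 * K₁))).const_mul _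
    have i4 : IntegrableOn (fun v => ρ * Real.exp ρ * ε * (lp (u - v) + K₁)) (Icc (-ε) ε) :=
      (i2.add (hconst K₁)).const_mul _
    have h1 : kq ρ Real.pi u - avg ε (kq ρ Real.pi) u ≤
        (1 / (2 * ε)) * ∫ v in Icc (-ε) ε, (Real.exp ρ * (lp ((u - v) / u) + 2 * K₁) +
          ρ * Real.exp ρ * ε * (lp (u - v) + K₁)) := by
      refine in_avg hkint hε u (i3.add i4) ?_
      have hne : ∀ᵐ v : ℝ, v ∉ ({u} : Set ℝ) := (countable_singleton u).ae_notMem volume
      filter_upwards [hne] with v hv hvε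
      have hv' : v ≠ u := hv
      have huv : u - v ≠ 0 := sub_ne_zero.2 (Ne.symm hv')
      rw [kq_eq hu0, kq_eq huv]
      exact in_near hρ hK₁ hKK hε4 hu0 (by linarith) hvε huv
    have e1 : ∫ v in Icc (-ε) ε, lp ((u - v) / u) ≤ 2 * ε * (J + 1) := by
      rcases le_or_gt (2 * ε) |u| with h | h
      · have h2 : ∫ v in Icc (-ε) ε, lp ((u - v) / u) ≤ ∫ _ in Icc (-ε) ε, (1 : ℝ) := by
          refine setIntegral_mono_on i1 (hconst 1) measurableSet_Icc fun v hv => ?_
          have hv1 : |v| ≤ ε := abs_le.2 hv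
          have h3 : 1 / 2 ≤ |(u - v) / u| := by
            rw [abs_div, le_div_iff₀ (abs_pos.2 hu0)]
            have h4 : |u| ≤ |u - v| + |v| := by
              have := abs_add_le (u - v) v
              rwa [sub_add_cancel] at this
            linarith
          unfold lp
          refine max_le ?_ zero_le_one
          rw [← Real.log_abs]
          have h4 : Real.log (1 / 2) ≤ Real.log |(u - v) / u| :=
            Real.log_le_log (by norm_num) h3
          have h5 : Real.log (1 / 2) = -Real.log 2 := by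
            rw [one_div, Real.log_inv]
          have h6 := Real.log_two_lt_d9
          linarith
        rw [hvol] at h2
        have h3 : 0 ≤ 2 * ε * J := by positivity
        linarith
      · have h2 : ∫ v in Icc (-ε) ε, lp ((u - v) / u) ≤ ∫ v, lp ((u - v) / u) :=
          setIntegral_le_integral hd1 (Eventually.of_forall fun v => lp_nonneg _)
        rw [hd2, ← hJ] at h2
        have h3 : |u| * J ≤ 2 * ε * J := mul_le_mul_of_nonneg_right h.le hJ0
        linarith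
    have e2 : ∫ v in Icc (-ε) ε, lp (u - v) ≤ J := by
      have h2 : ∫ v in Icc (-ε) ε, lp (u - v) ≤ ∫ v, lp (u - v) :=
        setIntegral_le_integral (in_lp_sub u) (Eventually.of_forall fun v => lp_nonneg _)
      rw [integral_sub_left_eq_self lp volume u, ← hJ] at h2
      exact h2
    have e3 : ∫ v in Icc (-ε) ε, (Real.exp ρ * (lp ((u - v) / u) + 2 * K₁) +
        ρ * Real.exp ρ * ε * (lp (u - v) + K₁)) =
        Real.exp ρ * ((∫ v in Icc (-ε) ε, lp ((u - v) / u)) + 2 * ε * (2 * K₁)) +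
        ρ * Real.exp ρ * ε * ((∫ v in Icc (-ε) ε, lp (u - v)) + 2 * ε * K₁) := by
      rw [integral_add i3 i4, integral_const_mul, integral_const_mul,
        integral_add i1 (hconst _), integral_add i2 (hconst _), hvol, hvol]
    have hloss : kq ρ Real.pi u - avg ε (kq ρ Real.pi) u ≤ C₀ := by
      refine h1.trans ?_
      rw [e3]
      have h2 : Real.exp ρ * ((∫ v in Icc (-ε) ε, lp ((u - v) / u)) + 2 * ε * (2 * K₁)) +
          ρ * Real.exp ρ * ε * ((∫ v in Icc (-ε) ε, lp (u - v)) + 2 * ε * K₁) ≤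
          Real.exp ρ * (2 * ε * (J + 1) + 2 * ε * (2 * K₁)) +
          ρ * Real.exp ρ * ε * (J + 2 * ε * K₁) := by
        have := Real.exp_pos ρ
        gcongr
      have h3 : 1 / (2 * ε) * (Real.exp ρ * (2 * ε * (J + 1) + 2 * ε * (2 * K₁)) +
          ρ * Real.exp ρ * ε * (J + 2 * ε * K₁)) =
          Real.exp ρ * (J + 1 + 2 * K₁) + ρ * Real.exp ρ * (J / 2 + ε * K₁) := by
        field_simp
      calc _ ≤ 1 / (2 * ε) * (Real.exp ρ * (2 * ε * (J + 1) + 2 * ε * (2 * K₁)) +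
          ρ * Real.exp ρ * ε * (J + 2 * ε * K₁)) :=
            mul_le_mul_of_nonneg_left h2 (by positivity)
        _ = _ := h3
        _ ≤ C₀ := by
            rw [hC₀]
            have h4 : J / 2 ≤ J := by linarith
            have h5 : ε * K₁ ≤ K₁ := mul_le_of_le_one_left hK₁ (by linarith)
            have h6 : 0 ≤ ρ * Real.exp ρ := by positivity
            have h7 := mul_le_mul_of_nonneg_left (add_le_add h4 h5) h6
            linarith
    -- the lower bound of `X`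
    have hwe : Real.exp (-1) ≤ w (km ρ) (kp ρ) u := by
      have h2 := w_shift_ge hkm.le hkp.le (by linarith) (by linarith) 0 u
      rw [zero_add, w_nonneg_eq le_rfl, mul_zero, neg_zero, Real.exp_zero, mul_one] at h2
      exact (Real.exp_le_exp.2 (neg_le_neg hu1)).trans h2
    obtain ⟨Mx, hMx⟩ : ∃ Mx, Mx = max (-kq ρ Real.pi u) 0 := ⟨_, rfl⟩
    have hMx0 : 0 ≤ Mx := by rw [hMx]; exact le_max_right _ _
    have hMx1 : Real.exp (-ρ) * (L / 2 - K₁) ≤ Mx := by
      rcases le_or_gt (L / 2 - K₁) 0 with h | h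
      · refine le_trans ?_ hMx0
        exact mul_nonpos_of_nonneg_of_nonpos (Real.exp_pos _).le h
      · rw [hMx]
        refine le_trans ?_ (le_max_left _ _)
        rw [kq_eq hu0, kk_eq_KK, ← mul_neg]
        have h2 := (abs_le.1 (hKK u hu0 hu1)).2
        have h3 : Real.log u ≤ -(L / 2) := by
          rw [← Real.log_abs]
          have h4 : Real.log |u| ≤ Real.log s := Real.log_le_log (abs_pos.2 hu0) hsu.le
          have h5 : L = -(2 * Real.log s) := by
            rw [hL, hsε, one_div, Real.log_inv, Real.log_pow]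
            norm_num
          linarith
        have h4 : L / 2 - K₁ ≤ -KK ρ Real.pi u := by linarith
        have h5 : Real.exp (-ρ) ≤ Real.exp (-(ρ * u)) := by
          refine Real.exp_le_exp.2 ?_
          have h0 := mul_le_mul_of_nonneg_left (abs_le.1 hu1).2 hρ.le
          linarith
        exact mul_le_mul h5 h4 h.le (Real.exp_pos _).le
    have hXl : lam * L ≤ X := by
      have h2 : X = w (km ρ) (kp ρ) u + Mx := by
        rw [hX, if_pos hu1, hMx]
      have h3 : t * (Real.exp (-ρ) * (L / 2 - K₁)) ≤ t * Mx :=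
        mul_le_mul_of_nonneg_left hMx1 ht0.le
      have h4 : t * Mx ≤ Mx := mul_le_of_le_one_left hMx0 ht1
      have h5 : 0 ≤ t * Real.exp (-1) := by positivity
      have h6 : lam * L = t * (Real.exp (-ρ) * (L / 2 - K₁)) + t * (Real.exp (-ρ) * K₁) := by
        rw [hlam]
        ring
      rw [mul_add] at hte
      linarith
    refine hloss.trans ?_
    calc C₀ = C₀ / lam * (lam * L) / L := by field_simp
      _ ≤ C₀ / lam * X / L := by
          gcongr

end INDB
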