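import Pool.Agent.INDB.InstK

/-!
# INDB, module InstP: sign patterns of the kernels

PROOFS. `a = km ρ`, `b = kp ρ`, `p = ⌊ρ⌋₊ ≥ 1`. `inst_mp`: `pattern_np` (with `δ = 1`) and `w_le_ph` (`c ph ≥ c c' w`), `c ≤ 1` (decrease `c`). For `θ < π` `kq = kk`. For `θ = π` (`aa = -1`, `bb = 1`) only the value at `u = 0` is different (`-1`): near `0` the kernel is negative (`kk ρ π u → -∞` as `u → 0`, or: some `u > 0` has `kk ρ π u < 0`, e.g. from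
`KK ρ π s = log|1 - e^s| + ∑_{1≤j≤p} e^{js}/j`), so `0 < s₀`; then `left` at `0`: `-1 ≤ 0`; `right`, `upper` do not concern `u = 0`; `lower` at `0`: `-1 ≤ -c`. (`pattern_np` excludes `s = 0` in the lower estimate; for `θ < π` use continuity of `kk` and `ph` at `0`.)
`inst_pm`: `pattern_pn`; here `θ < π` because `aa ρ π = -1 < 0`. `inst_kap`: `aa ρ θ > 0`, `sg ρ θ < 0`: the function `κ ↦ (-1)^p cos((ρ+κ)θ)` is continuous, `< 0` at `κ = 0`, `> 0` at `κ = kp ρ` (`ρ + kp ρ = p+1`), so it vanishes at some `κ ∈ (0, kp ρ)`; there `cc ρ κ θ = 0` and `integral_kk_exp`, `integral_kq`.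
`inst_LE`: `LE_ab`, `∫ kk = cc ρ 0 l = 0` (`integral_kk`, `cos(ρ l) = 0`). `inst_neg`: `∫ kk = cc ρ 0 θ < 0` (`cc_eq_sg`). Cases by the signs of `aa`, `bb`: `aa < 0 < bb`: first alternative; `0 < aa`, `bb < 0`: second; `aa ≤ 0`, `bb ≤ 0`: `pattern_neg` (`θ < π` as `bb ρ π = 1`; `kk` continuous and negative, so the integral over `[-1,1]` is negative): third;
`0 ≤ aa`, `0 ≤ bb`: `pattern_pos` contradicts `∫ kk < 0`.
-/

open MeasureTheory Set Filter Topology Helper25.Ind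

namespace INDB

private lemma ip_bb_pi (ρ : ℝ) : bb ρ Real.pi = 1 := by
  unfold bb
  rw [Real.cos_nat_mul_pi, ← mul_pow]
  norm_num

private lemma ip_aa_pi (ρ : ℝ) : aa ρ Real.pi = -1 := by
  unfold aa
  have h1 : Real.cos (((⌊ρ⌋₊ : ℝ) + 1) * Real.pi) = (-1) ^ (⌊ρ⌋₊ + 1) := by
    have := Real.cos_nat_mul_pi (⌊ρ⌋₊ + 1)
    rw [← this]
    push_cast
    rfl
  rw [h1, pow_succ, ← mul_assoc, ← mul_pow]
  norm_num

/-- a negative value to the right of the singularity -/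
private lemma ip_neg_right (ρ : ℝ) : ∃ u : ℝ, 0 < u ∧ kk ρ Real.pi u < 0 := by
  have he : ∀ u : ℝ, -(((Real.exp u : ℝ) : ℂ) * Complex.exp (Real.pi * Complex.I)) =
      ((Real.exp u : ℝ) : ℂ) := by
    intro u
    rw [Complex.exp_pi_mul_I]
    ring
  have hc : Continuous (fun u : ℝ => ‖primary ⌊ρ⌋₊ ((Real.exp u : ℝ) : ℂ)‖) :=
    ((differentiable_primary ⌊ρ⌋₊).continuous.comp
      (Complex.continuous_ofReal.comp Real.continuous_exp)).norm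
  have h1 : ∀ᶠ u in 𝓝 (0 : ℝ), ‖primary ⌊ρ⌋₊ ((Real.exp u : ℝ) : ℂ)‖ < 1 := by
    refine hc.continuousAt.eventually_lt continuousAt_const ?_
    have h2 : primary ⌊ρ⌋₊ ((Real.exp 0 : ℝ) : ℂ) = 0 := by
      rw [primary_eq_zero_iff]
      simp
    rw [h2, norm_zero]
    exact one_pos
  have h2 : ∀ᶠ u in 𝓝[>] (0 : ℝ), ‖primary ⌊ρ⌋₊ ((Real.exp u : ℝ) : ℂ)‖ < 1 :=
    h1.filter_mono nhdsWithin_le_nhds
  obtain ⟨u, hu, hu'⟩ := (h2.and self_mem_nhdsWithin).exists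
  have hu0 : 0 < u := hu'
  refine ⟨u, hu0, ?_⟩
  rw [kk_eq, he]
  refine mul_neg_of_pos_of_neg (Real.exp_pos _) (Real.log_neg (norm_pos_iff.2 fun h => ?_) hu)
  rw [primary_eq_zero_iff] at h
  have h3 : Real.exp u = 1 := by exact_mod_cast h
  rw [Real.exp_eq_one_iff] at h3
  linarith

private lemma ip_w_pos (a b u : ℝ) : 0 < w a b u := Real.exp_pos _

private lemma ip_hw {ρ c c' : ℝ} (hc : 0 < c) (h6 : ∀ u, c' * w (km ρ) (kp ρ) u ≤ ph ρ u) (u : ℝ) :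
    min (c * c') 1 * w (km ρ) (kp ρ) u ≤ c * ph ρ u :=
  calc min (c * c') 1 * w (km ρ) (kp ρ) u ≤ c * c' * w (km ρ) (kp ρ) u :=
        mul_le_mul_of_nonneg_right (min_le_left _ _) (ip_w_pos _ _ _).le
    _ = c * (c' * w (km ρ) (kp ρ) u) := by ring
    _ ≤ c * ph ρ u := mul_le_mul_of_nonneg_left (h6 u) hc.le

theorem inst_mp {ρ θ : ℝ} (hρ : 0 < ρ) (hint : ¬ ∃ n : ℕ, ρ = n) (hθ : θ ∈ Icc (0 : ℝ) Real.pi)
    (ha : aa ρ θ < 0) (hb : 0 < bb ρ θ) :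
    ∃ s c : ℝ, 0 < c ∧ c ≤ 1 ∧ PatMP (km ρ) (kp ρ) c s (kq ρ θ) := by
  obtain ⟨s₀, h1, h2, h3⟩ := pattern_np ρ hθ ha hb
  obtain ⟨c, hc, h4, h5⟩ := h3 1 one_pos
  obtain ⟨c', hc', h6⟩ := w_le_ph ρ
  have hw := ip_hw hc h6
  refine ⟨s₀, min (c * c') 1, lt_min (mul_pos hc hc') one_pos, min_le_right _ _, ?_⟩
  rcases lt_or_eq_of_le hθ.2 with hπ | hπ
  · have e : kq ρ θ = kk ρ θ := funext fun u => kq_eq_lt hπ
    rw [e]
    refine ⟨h1, h2, fun u hu => ?_, fun u hu => (hw u).trans (h5 u hu)⟩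
    have key : kk ρ θ u ≤ -(c * ph ρ u) := by
      by_cases hu0 : u = 0
      · subst hu0
        have t1 : Tendsto (kk ρ θ) (𝓝[<] 0) (𝓝 (kk ρ θ 0)) :=
          ((continuous_kk ρ hθ.1 hπ).tendsto 0).mono_left nhdsWithin_le_nhds
        have t2 : Tendsto (fun u => -(c * ph ρ u)) (𝓝[<] 0) (𝓝 (-(c * ph ρ 0))) :=
          (((continuous_ph ρ).tendsto 0).const_mul c).neg.mono_left nhdsWithin_le_nhds
        refine le_of_tendsto_of_tendsto t1 t2 ?_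
        filter_upwards [self_mem_nhdsWithin] with v hv
        have hv' : v < 0 := hv
        exact h4 v (by linarith) (ne_of_lt hv')
      · exact h4 u hu hu0
    linarith [hw u]
  · subst hπ
    have hs0 : 0 < s₀ := by
      by_contra h
      push Not at h
      obtain ⟨u, hu, hu'⟩ := ip_neg_right ρ
      linarith [h2 u (by linarith)]
    have kq0 : kq ρ Real.pi 0 = -1 := by
      unfold kq
      simp
    refine ⟨fun u hu => ?_, fun u hu => ?_, fun u hu => ?_, fun u hu => ?_⟩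
    · by_cases h : u = 0
      · rw [h, kq0]
        norm_num
      · rw [kq_eq h]
        exact h1 u hu
    · rw [kq_eq (by linarith : u ≠ 0)]
      exact h2 u hu
    · by_cases h : u = 0
      · rw [h, kq0]
        have hw0 : w (km ρ) (kp ρ) 0 = 1 := by
          unfold w
          simp
        rw [hw0, mul_one]
        exact neg_le_neg (min_le_right _ _)
      · rw [kq_eq h]
        linarith [hw u, h4 u hu h]
    · rw [kq_eq (by linarith : u ≠ 0)]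
      exact (hw u).trans (h5 u hu)

theorem inst_pm {ρ θ : ℝ} (hρ : 0 < ρ) (hint : ¬ ∃ n : ℕ, ρ = n) (hθ : θ ∈ Icc (0 : ℝ) Real.pi)
    (ha : 0 < aa ρ θ) (hb : bb ρ θ < 0) :
    ∃ s c : ℝ, 0 < c ∧ c ≤ 1 ∧ PatPM (km ρ) (kp ρ) c s (kq ρ θ) := by
  have hπ : θ < Real.pi := by
    refine lt_of_le_of_ne hθ.2 fun h => ?_
    rw [h, ip_aa_pi] at ha
    linarith
  obtain ⟨s₀, h1, h2, h3⟩ := pattern_pn ρ hθ ha hb
  obtain ⟨c, hc, h4, h5⟩ := h3 1 one_pos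
  obtain ⟨c', hc', h6⟩ := w_le_ph ρ
  have hw := ip_hw hc h6
  refine ⟨s₀, min (c * c') 1, lt_min (mul_pos hc hc') one_pos, min_le_right _ _, ?_⟩
  have e : kq ρ θ = kk ρ θ := funext fun u => kq_eq_lt hπ
  rw [e]
  exact ⟨h1, h2, fun u hu => (hw u).trans (h4 u hu), fun u hu => by linarith [hw u, h5 u hu]⟩

theorem inst_kap {ρ θ : ℝ} (hρ : 0 < ρ) (hint : ¬ ∃ n : ℕ, ρ = n) (hθ : θ ∈ Icc (0 : ℝ) Real.pi)
    (ha : 0 < aa ρ θ) (hs : sg ρ θ < 0) :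
    ∃ κ : ℝ, 0 < κ ∧ κ < kp ρ ∧ ∫ u, kq ρ θ u * Real.exp (-(κ * u)) = 0 := by
  have hkp := kp_pos hρ.le
  have hkm := km_pos hρ hint
  have hf : Continuous (fun κ : ℝ => (-1) ^ ⌊ρ⌋₊ * Real.cos ((ρ + κ) * θ)) := by fun_prop
  have hf0 : (-1) ^ ⌊ρ⌋₊ * Real.cos ((ρ + 0) * θ) < 0 := by
    rw [add_zero]
    exact hs
  have hf1 : 0 < (-1) ^ ⌊ρ⌋₊ * Real.cos ((ρ + kp ρ) * θ) := by
    have e : ρ + kp ρ = (⌊ρ⌋₊ : ℝ) + 1 := by
      unfold kp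
      ring
    rw [e]
    exact ha
  obtain ⟨κ, hκ, hκ0⟩ := intermediate_value_Ioo hkp.le hf.continuousOn
    (show (0 : ℝ) ∈ Ioo _ _ from ⟨hf0, hf1⟩)
  refine ⟨κ, hκ.1, hκ.2, ?_⟩
  rw [integral_kq (fun u => Real.exp (-(κ * u)))]
  have h1 := integral_kk_exp (κ := κ) hρ (by linarith [hκ.1]) hκ.2 hθ
  have h2 : ∫ u, kk ρ θ u * Real.exp (-(κ * u)) = ∫ u, Real.exp (-(κ * u)) * kk ρ θ u :=
    integral_congr_ae (Eventually.of_forall fun u => mul_comm _ _)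
  rw [h2, h1]
  have h3 : Real.cos ((ρ + κ) * θ) = 0 :=
    (mul_eq_zero.1 hκ0).resolve_left (pow_ne_zero _ (by norm_num))
  unfold cc
  rw [h3]
  simp

private lemma ip_int {ρ θ : ℝ} (hρ : 0 < ρ) (hint : ¬ ∃ n : ℕ, ρ = n)
    (hθ : θ ∈ Icc (0 : ℝ) Real.pi) : ∫ u, kq ρ θ u = cc ρ 0 θ := by
  rw [← integral_kk hρ hint hθ]
  have h := integral_kq (ρ := ρ) (θ := θ) (fun _ => 1)
  simpa using h

theorem inst_LE {ρ l : ℝ} (hρ : 0 < ρ) (hint : ¬ ∃ n : ℕ, ρ = n) (hl : LE ρ l) :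
    aa ρ l < 0 ∧ (∃ s c : ℝ, 0 < c ∧ c ≤ 1 ∧ PatMP (km ρ) (kp ρ) c s (kq ρ l)) ∧
      ∫ u, kq ρ l u = 0 := by
  obtain ⟨ha, hb⟩ := LE_ab hρ hint hl
  obtain ⟨h1, h2, h3, h4⟩ := hl
  refine ⟨ha, inst_mp hρ hint ⟨h1, h2⟩ ha hb, ?_⟩
  rw [ip_int hρ hint ⟨h1, h2⟩]
  unfold cc
  rw [add_zero, h3]
  simp

theorem inst_neg {ρ θ : ℝ} (hρ : 0 < ρ) (hint : ¬ ∃ n : ℕ, ρ = n) (hθ : θ ∈ Icc (0 : ℝ) Real.pi)
    (hs : sg ρ θ < 0) :
    (aa ρ θ < 0 ∧ (∃ s c : ℝ, 0 < c ∧ c ≤ 1 ∧ PatMP (km ρ) (kp ρ) c s (kq ρ θ)) ∧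
      ∫ u, kq ρ θ u < 0) ∨
    ((∃ s c : ℝ, 0 < c ∧ c ≤ 1 ∧ PatPM (km ρ) (kp ρ) c s (kq ρ θ)) ∧
      ∃ κ : ℝ, 0 < κ ∧ κ < kp ρ ∧ ∫ u, kq ρ θ u * Real.exp (-(κ * u)) = 0) ∨
    ((∀ u, kq ρ θ u ≤ 0) ∧ ∫ u in Icc (-1 : ℝ) 1, kq ρ θ u < 0) := by
  obtain ⟨c, hc, hcs⟩ := cc_eq_sg hρ hint
  have hneg : cc ρ 0 θ < 0 := by
    rw [hcs]
    exact mul_neg_of_pos_of_neg hc hs
  have hpos : ¬ (0 ≤ aa ρ θ ∧ 0 ≤ bb ρ θ) := by
    rintro ⟨ha, hb⟩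
    have h1 := pattern_pos ρ hθ ha hb
    have h2 : 0 ≤ ∫ s : ℝ, kk ρ θ s := integral_nonneg fun s => (h1 s).le
    rw [integral_kk hρ hint hθ] at h2
    linarith
  by_cases hA : aa ρ θ ≤ 0 ∧ bb ρ θ ≤ 0
  · right
    right
    have hπ : θ < Real.pi := by
      refine lt_of_le_of_ne hθ.2 fun h => ?_
      have := hA.2
      rw [h, ip_bb_pi] at this
      linarith
    have e : kq ρ θ = kk ρ θ := funext fun u => kq_eq_lt hπ
    rw [e]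
    have hn := pattern_neg ρ hθ hA.1 hA.2
    have hcont := continuous_kk ρ hθ.1 hπ
    refine ⟨fun u => (hn u).le, ?_⟩
    have h1 : 0 < ∫ u in (-1 : ℝ)..1, -kk ρ θ u :=
      intervalIntegral.intervalIntegral_pos_of_pos_on (hcont.neg.intervalIntegrable _ _)
        (fun u _ => by linarith [hn u]) (by norm_num)
    rw [intervalIntegral.integral_neg, intervalIntegral.integral_of_le (by norm_num),
      ← integral_Icc_eq_integral_Ioc] at h1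
    linarith
  · rcases lt_or_ge (aa ρ θ) 0 with ha | ha
    · have hb : 0 < bb ρ θ := by
        by_contra h
        push Not at h
        exact hA ⟨ha.le, h⟩
      left
      refine ⟨ha, inst_mp hρ hint hθ ha hb, ?_⟩
      rw [ip_int hρ hint hθ]
      exact hneg
    · have hb : bb ρ θ < 0 := by
        by_contra h
        push Not at h
        exact hpos ⟨ha, h⟩
      have ha' : 0 < aa ρ θ := by
        refine lt_of_le_of_ne ha fun h => ?_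
        exact hA ⟨h.symm.le, hb.le⟩
      right
      left
      exact ⟨inst_pm hρ hint hθ ha' hb, inst_kap hρ hint hθ ha' hs⟩

lemma inst_asym {ρ : ℝ} : ∃ C : ℝ, 0 < C ∧ ∀ θ ∈ Icc (0 : ℝ) Real.pi, ∀ u, u ≤ -1 →
    |kq ρ θ u - aa ρ θ / ((⌊ρ⌋₊ : ℝ) + 1) * Real.exp (kp ρ * u)| ≤
      C * Real.exp ((kp ρ + 1) * u) := by
  obtain ⟨C, hC, h⟩ := kk_left_asymp ρ
  refine ⟨C, hC, fun θ hθ u hu => ?_⟩
  rw [kq_eq (by linarith : u ≠ 0)]
  exact h θ hθ u hu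

end INDB
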