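import Pool.Agent.INDB.InstP
import Pool.Agent.INDB.InstM
import Pool.Agent.INDB.InstN
import Pool.Agent.INDB.MolB
import Pool.Agent.Helper25.Ind2.PatchA

/-!
# INDB, module InstS: the system of a stage

PROOF. `ι = ↥J`, `a = km ρ`, `b = kp ρ` (`km_pos`, `kp_pos`, `kp_add_km`). For `θ ∈ J`: `h θ < γ θ`, so `h θ ≠ ⊤`, so not `0 < sg ρ θ` (`InfCond.off`). If `sg ρ θ = 0` then `cos(ρθ) = 0`, `θ` is `LE` or `RE` (`zero_LE_or_RE`), not `RE` (`hR`): `inst_LE`, kind `L`. If `sg ρ θ < 0`: `inst_neg`, kinds `M`, `P`, `N`. Choose for every `i : J` the kind, `s i`, `c i`, `kap i`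
(default values `0`, `1`, `kp ρ/2`), `A i = aa ρ i/(p+1)`, `At = aa ρ τ/(p+1)`; `c` = minimum of the `c i` (patterns are monotone in `c`), `C` = maximum of the constants of `inst_kern`, `inst_asym`, `|s i|`, `1`. `l0 = l` has kind `L` (its cosine vanishes).
`Cert e`: choose a real `t'` with `t < t' < h τ` (`EReal.lt_iff_exists_real_btwn`), `e = t' - t`. Let `n` be finite measures with `0 ≤ G n` a.e. By `ae_int_kq` and substitution `y → -y` (`s = -y`): for a.e. `s`: `kk ρ τ s ≤ ∑ ∫ kk ρ (φ j) (s + x) dn_j`. `hh.maj` (with `Fin (card J)`, `Fintype.equivFin`) gives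
`h τ ≤ ∑ (n_j ℝ).toReal * h (φ j) ≤ ∑ (n_j ℝ).toReal * γ (φ j)` in `EReal` (`h (φ j) ≤ γ (φ j)`, nonnegative factors), so `t' ≤ ∑ γ n` as real numbers. `Mol`: `inst_mol_lt` or `inst_mol_pi`.
-/

open MeasureTheory Set Filter Topology Helper25.Ind

namespace INDB

private lemma isMP {a b c c' s : ℝ} {k : ℝ → ℝ} (h : PatMP a b c s k) (hc : c' ≤ c) :
    PatMP a b c' s k :=
  ⟨h.left, h.right, fun u hu => (h.lower u hu).trans (by
    have := w_pos a b u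
    nlinarith), fun u hu => le_trans (by
    have := w_pos a b u
    nlinarith) (h.upper u hu)⟩

private lemma isPM {a b c c' s : ℝ} {k : ℝ → ℝ} (h : PatPM a b c s k) (hc : c' ≤ c) :
    PatPM a b c' s k :=
  ⟨h.left, h.right, fun u hu => le_trans (by
    have := w_pos a b u
    nlinarith) (h.lower u hu), fun u hu => (h.upper u hu).trans (by
    have := w_pos a b u
    nlinarith)⟩

private lemma is_coe_sum {α : Type*} (s : Finset α) (f : α → ℝ) :
    ((∑ j ∈ s, f j : ℝ) : EReal) = ∑ j ∈ s, ((f j : ℝ) : EReal) :=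
  map_sum (⟨⟨fun x : ℝ => (x : EReal), EReal.coe_zero⟩, EReal.coe_add⟩ : ℝ →+ EReal) f _

/-- the data of one ray -/
private lemma is_ray {ρ : ℝ} (hρ : 0 < ρ) (hint : ¬ ∃ n : ℕ, ρ = n) {h : ℝ → EReal}
    (hh : InfCond ρ h) (hR : ∀ r, RE ρ r → h r = ⊤) {θ g : ℝ} (hθ : θ ∈ Icc (0 : ℝ) Real.pi)
    (hg : h θ < (g : EReal)) :
    ∃ (kd : Kind) (s c kap : ℝ), 0 < c ∧ c ≤ 1 ∧
      (kd = Kind.L → PatMP (km ρ) (kp ρ) c s (kq ρ θ) ∧ ∫ u, kq ρ θ u = 0) ∧
      (kd = Kind.M → PatMP (km ρ) (kp ρ) c s (kq ρ θ) ∧ ∫ u, kq ρ θ u < 0) ∧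
      (kd = Kind.P → PatPM (km ρ) (kp ρ) c s (kq ρ θ) ∧ 0 < kap ∧ kap < kp ρ ∧
        ∫ u, kq ρ θ u * Real.exp (-(kap * u)) = 0) ∧
      (kd = Kind.N → (∀ u, kq ρ θ u ≤ 0) ∧ ∫ u in Icc (-1 : ℝ) 1, kq ρ θ u < 0) ∧
      (kd = Kind.L ∨ kd = Kind.M → aa ρ θ < 0) ∧ (LE ρ θ → kd = Kind.L) := by
  have htop : h θ ≠ ⊤ := ne_top_of_lt hg
  have h0 : ¬ 0 < sg ρ θ := fun hp => htop (hh.off θ hθ hp)
  rcases lt_or_eq_of_le (not_lt.1 h0) with h1 | h1
  · have hnL : ¬ LE ρ θ := by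
      rintro ⟨-, -, h2, -⟩
      unfold sg at h1
      rw [h2, mul_zero] at h1
      exact lt_irrefl _ h1
    rcases inst_neg hρ hint hθ h1 with ⟨h2, ⟨s, c, h3, h4, h5⟩, h6⟩ |
      ⟨⟨s, c, h3, h4, h5⟩, κ, h6, h7, h8⟩ | ⟨h2, h3⟩
    · exact ⟨Kind.M, s, c, 0, h3, h4, by simp, fun _ => ⟨h5, h6⟩, by simp, by simp,
        fun _ => h2, fun h => absurd h hnL⟩
    · exact ⟨Kind.P, s, c, κ, h3, h4, by simp, by simp, fun _ => ⟨h5, h6, h7, h8⟩, by simp,
        by simp, fun h => absurd h hnL⟩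
    · exact ⟨Kind.N, 0, 1, 0, one_pos, le_rfl, by simp, by simp, by simp, fun _ => ⟨h2, h3⟩,
        by simp, fun h => absurd h hnL⟩
  · have h2 : Real.cos (ρ * θ) = 0 := by
      unfold sg at h1
      exact (mul_eq_zero.1 h1).resolve_left (pow_ne_zero _ (by norm_num))
    rcases zero_LE_or_RE hθ h2 with h3 | h3
    · obtain ⟨h4, ⟨s, c, h5, h6, h7⟩, h8⟩ := inst_LE hρ hint h3
      exact ⟨Kind.L, s, c, 0, h5, h6, fun _ => ⟨h7, h8⟩, by simp, by simp, by simp,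
        fun _ => h4, fun _ => rfl⟩
    · exact absurd (hR θ h3) htop

theorem inst_sys {ρ : ℝ} (hρ : 0 < ρ) (hint : ¬ ∃ n : ℕ, ρ = n) (hp : 1 ≤ ⌊ρ⌋₊) {h : ℝ → EReal}
    (hh : InfCond ρ h) (hR : ∀ r, RE ρ r → h r = ⊤) (J : Finset ℝ) (γ : ℝ → ℝ)
    (hJ : ∀ θ ∈ J, θ ∈ Icc (0 : ℝ) Real.pi ∧ h θ < (γ θ : EReal)) {l : ℝ} (hlJ : l ∈ J)
    (hl : LE ρ l) (hγl : γ l < 0) {τ t : ℝ} (hτ : τ ∈ Icc (0 : ℝ) Real.pi)
    (ht : (t : EReal) < h τ) :
    ∃ S : Sys ↥J, S.a = km ρ ∧ S.b = kp ρ ∧ (∀ i : J, S.k i = kq ρ i) ∧ S.kt = kq ρ τ ∧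
      (∀ i : J, S.gam i = γ i) ∧ S.t = t ∧ (∃ e > 0, S.Cert e) ∧ ∃ B : ℝ, 0 ≤ B ∧ S.Mol B := by
  classical
  have hray := fun i : J => is_ray hρ hint hh hR (hJ i i.2).1 (hJ i i.2).2
  choose kd s c kap hc0 hc1 hL hM hP hN hA hLE using hray
  have hne : Nonempty J := ⟨⟨l, hlJ⟩⟩
  obtain ⟨i₁, hi₁⟩ := Finite.exists_min c
  obtain ⟨i₂, hi₂⟩ := Finite.exists_max (fun i => |s i|)
  obtain ⟨C₁, hC₁, hK⟩ := inst_kern hρ hint hp
  obtain ⟨C₂, hC₂, hAs⟩ := inst_asym (ρ := ρ)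
  set C : ℝ := max (max C₁ C₂) |s i₂| with hCd
  have hCC₁ : C₁ ≤ C := (le_max_left _ _).trans (le_max_left _ _)
  have hCC₂ : C₂ ≤ C := (le_max_right _ _).trans (le_max_left _ _)
  have hp1 : (0 : ℝ) < (⌊ρ⌋₊ : ℝ) + 1 := by positivity
  let S : Sys ↥J :=
    { a := km ρ
      b := kp ρ
      c := c i₁
      C := C
      ha := km_pos hρ hint
      hb := kp_pos hρ.le
      hab := by rw [add_comm]; exact kp_add_km ρ
      hc := hc0 i₁
      hC := hC₁.trans hCC₁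
      k := fun i => kq ρ i
      kt := kq ρ τ
      kind := kd
      s := s
      kap := kap
      A := fun i => aa ρ i / ((⌊ρ⌋₊ : ℝ) + 1)
      At := aa ρ τ / ((⌊ρ⌋₊ : ℝ) + 1)
      l0 := ⟨l, hlJ⟩
      gam := fun i => γ i
      t := t
      hk := fun i => (hK i (hJ i i.2).1).mono hCC₁
      hkt := (hK τ hτ).mono hCC₁
      hs := fun i => (hi₂ i).trans (le_max_right _ _)
      patL := fun i hi => isMP (hL i hi).1 (hi₁ i)
      intL := fun i hi => (hL i hi).2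
      patM := fun i hi => isMP (hM i hi).1 (hi₁ i)
      intM := fun i hi => (hM i hi).2
      patP := fun i hi => isPM (hP i hi).1 (hi₁ i)
      kapP := fun i hi => ⟨(hP i hi).2.1, (hP i hi).2.2.1⟩
      intP := fun i hi => (hP i hi).2.2.2
      patN := fun i hi => (hN i hi).1
      intN := fun i hi => (hN i hi).2
      asyA := fun i hi => div_neg_of_neg_of_pos (hA i hi) hp1
      asy := fun i _ u hu => (hAs i (hJ i i.2).1 u hu).trans
        (mul_le_mul_of_nonneg_right hCC₂ (Real.exp_pos _).le)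
      asyt := fun u hu => (hAs τ hτ u hu).trans
        (mul_le_mul_of_nonneg_right hCC₂ (Real.exp_pos _).le)
      hl0 := hLE ⟨l, hlJ⟩ hl
      gam0 := hγl }
  refine ⟨S, rfl, rfl, fun _ => rfl, rfl, fun _ => rfl, rfl, ?_, ?_⟩
  · obtain ⟨t', ht1, ht2⟩ := EReal.lt_iff_exists_real_btwn.1 ht
    have ht1' : t < t' := by exact_mod_cast ht1
    refine ⟨t' - t, sub_pos.2 ht1', ?_⟩
    intro n hn hG
    show t + (t' - t) ≤ ∑ i : J, γ i * (n i).real univ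
    have hae : ∀ᵐ r : ℝ, kk ρ τ r ≤ ∑ i : J, ∫ x, kk ρ i (r + x) ∂(n i) := by
      have h1 : ∀ᵐ y : ℝ, ∀ i : J, ∫ x, kq ρ i (x - y) ∂(n i) = ∫ x, kk ρ i (x - y) ∂(n i) := by
        rw [ae_all_iff]
        intro i
        exact ae_int_kq ρ i (n i)
      have h2 : ∀ᵐ y : ℝ, y ≠ 0 := by
        have := (volume : Measure ℝ).ae_ne 0
        exact this
      have h3 : ∀ᵐ y : ℝ, kk ρ τ (-y) ≤ ∑ i : J, ∫ x, kk ρ i (-y + x) ∂(n i) := by
        filter_upwards [h1, h2, hG] with y hy1 hy2 hy3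
        have h4 : (0 : ℝ) ≤ (∑ i : J, ∫ x, kq ρ i (x - y) ∂(n i)) - kq ρ τ (-y) := hy3
        rw [kq_eq (neg_ne_zero.2 hy2), Finset.sum_congr rfl (fun i _ => hy1 i)] at h4
        have h5 : ∀ i : J, ∫ x, kk ρ i (-y + x) ∂(n i) = ∫ x, kk ρ i (x - y) ∂(n i) := by
          intro i
          congr 1
          funext x
          congr 1
          ring
        rw [Finset.sum_congr rfl (fun i _ => h5 i)]
        linarith
      have h6 := (Measure.measurePreserving_neg (volume : Measure ℝ)).quasiMeasurePreserving.ae h3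
      filter_upwards [h6] with y hy
      simpa using hy
    set m := Fintype.card J with hm
    let E : J ≃ Fin m := Fintype.equivFin J
    have hmaj := hh.maj m (fun j => (E.symm j : ℝ)) (fun j => n (E.symm j)) τ
      (fun j => hn _) (fun j => (hJ _ (E.symm j).2).1) hτ
      (fun j => ne_top_of_lt (hJ _ (E.symm j).2).2) (by
        filter_upwards [hae] with r hr
        refine hr.trans (le_of_eq ?_)
        exact (E.symm.sum_comp (fun i : J => ∫ x, kk ρ i (r + x) ∂(n i))).symm)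
    have h4 : ∑ j, (((n (E.symm j) univ).toReal : ℝ) : EReal) * h (E.symm j : ℝ) ≤
        ((∑ j, γ (E.symm j : ℝ) * (n (E.symm j) univ).toReal : ℝ) : EReal) := by
      rw [is_coe_sum]
      refine Finset.sum_le_sum fun j _ => ?_
      rw [mul_comm (γ (E.symm j : ℝ)), EReal.coe_mul]
      refine mul_le_mul_of_nonneg_left (hJ _ (E.symm j).2).2.le ?_
      exact_mod_cast ENNReal.toReal_nonneg
    have h5 := lt_of_lt_of_le ht2 (hmaj.trans h4)
    have h6 : t' < ∑ j, γ (E.symm j : ℝ) * (n (E.symm j) univ).toReal := by exact_mod_cast h5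
    have h7 : ∑ j, γ (E.symm j : ℝ) * (n (E.symm j) univ).toReal =
        ∑ i : J, γ i * (n i).real univ :=
      E.symm.sum_comp (fun i : J => γ i * (n i univ).toReal)
    rw [h7] at h6
    linarith
  · rcases lt_or_eq_of_le hτ.2 with h1 | h1
    · obtain ⟨B, hB, h2⟩ := inst_mol_lt hρ hint hp hτ.1 h1
      exact ⟨B, hB, h2⟩
    · obtain ⟨B, hB, h2⟩ := inst_mol_pi hρ hint hp
      refine ⟨B, hB, ?_⟩
      rw [← h1] at h2
      exact h2

end INDB
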