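import Pool.Agent.INDB.Meas

/-!
# INDB, module LDefs: backgrounds, test functions, failing windows
-/

open MeasureTheory Set Filter Topology

namespace INDB

/-- parameters of a window: slope `be`, position `X`, cut-off `c0`, rate `sg`, window `[-M, M']` -/
structure Par where
  be : ℝ
  X : ℝ
  c0 : ℝ
  sg : ℝ
  M : ℝ
  M' : ℝ

namespace Par

variable (p : Par)

/-- level at the left end of the window -/
noncomputable def G1 : ℝ := p.be * (p.X - p.M)

/-- background to the left of the window -/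
noncomputable def bg (y : ℝ) : ℝ := p.be * max (y + p.X) p.c0

/-- slope to the right of the window -/
noncomputable def slope : ℝ := p.G1 * Real.exp (p.sg * (p.M + p.M')) / (p.X + p.M')

/-- the background `E` -/
noncomputable def E (y : ℝ) : ℝ :=
  if y ≤ -p.M then p.bg y
  else if y ≤ p.M' then p.G1 * Real.exp (p.sg * (y + p.M))
  else p.slope * (y + p.X)

/-- growth rate of the test function on `[0, M']` -/
noncomputable def k1 (μ Y₁ : ℝ) : ℝ := (p.sg * (p.M + p.M') + μ * Y₁) / p.M'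

/-- the test functions: `E` outside the window, constant on `[-M, -Y₁]`, rate `-μ` on `[-Y₁, 0]`,
growth on `[0, M']` -/
noncomputable def N (μ Y₁ y : ℝ) : ℝ :=
  if y ≤ -p.M then p.bg y
  else if y ≤ -Y₁ then p.G1
  else if y ≤ 0 then p.G1 * Real.exp (-(μ * (y + Y₁)))
  else if y ≤ p.M' then p.G1 * Real.exp (-(μ * Y₁) + p.k1 μ Y₁ * y)
  else p.slope * (y + p.X)

/-- the admissible parameters; `κ` is a rate slightly larger than `sg`, `C` the constant of the system -/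
structure OK (κ C : ℝ) : Prop where
  be1 : 1 ≤ p.be
  beX : p.be ≤ p.X
  c01 : 1 ≤ p.c0
  c0κ : 1 ≤ κ * p.c0
  κ1 : κ < 1
  sg0 : 0 < p.sg
  sgκ : p.sg < κ
  C1 : 1 ≤ C
  M1 : C + 1 ≤ p.M
  MM' : (1 + 1) * p.M ≤ (κ - p.sg) * p.M'
  X8 : 16 * (p.M' + p.c0 + C + 1) ≤ p.X
  sX : 4 ≤ p.sg * p.X
  big : 4 * p.X ^ 2 ≤ Real.exp (p.sg * p.M')

/-- lower bound of the costs on the rays of kind `L` (as function of `x - s`) -/
noncomputable def rhoL (z : ℝ) : ℝ :=
  if z < -p.M then 1 else if z ≤ p.M' - 1 then p.E z else p.slope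

/-- upper bound of the potentials of the test functions on the rays of kind `L` -/
noncomputable def Nsh (b μ Y₁ z : ℝ) : ℝ :=
  if z ≤ -Y₁ then p.G1 * Real.exp (b * (z + Y₁)) else if z ≤ 0 then p.N μ Y₁ z else 0

end Par

namespace Sys

variable {ι : Type} [Fintype ι] (S : Sys ι)

/-- a solution in the window -/
structure Sol (p : Par) (N : ℝ → ℝ) : Prop where
  cont : Continuous N
  nonneg : ∀ y, 0 ≤ N y
  out : ∀ y, y ≤ -p.M ∨ p.M' ≤ y → N y = p.E y
  con : ∀ i x, -(p.X / 2) ≤ x → U (S.k i) N x < S.gam i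
  tar : S.t < U S.kt N 0

/-- a dual certificate of a failing window -/
structure WC (p : Par) (n : ι → Measure ℝ) : Prop where
  fin : ∀ i, IsFiniteMeasure (n i)
  supp : ∀ i, n i (Iio (-(p.X / 2))) = 0
  intE : ∀ i, Integrable (U (S.k i) p.E) (n i)
  pos : ∀ᵐ y : ℝ, -p.M < y → y < p.M' → 0 ≤ G S.k S.kt n y
  dual : ∀ N : ℝ → ℝ, Continuous N → (∀ y, 0 ≤ N y) → (∀ y, y ≤ -p.M ∨ p.M' ≤ y → N y = p.E y) →
    ∑ i, ∫ x, (S.gam i - U (S.k i) N x) ∂(n i) ≤ S.t - U S.kt N 0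

/-- the a priori bounds -/
structure AP (p : Par) (K : ℝ) (n : ι → Measure ℝ) : Prop where
  intO : ∀ i, S.kind i ≠ Kind.L → Integrable p.E (n i)
  bndO : ∀ i, S.kind i ≠ Kind.L → ∫ x, p.E x ∂(n i) ≤ K * p.E 0
  intL : ∀ i, S.kind i = Kind.L → Integrable (fun x => p.rhoL (x - S.s i)) (n i)
  bndL : ∀ i, S.kind i = Kind.L → ∫ x, p.rhoL (x - S.s i) ∂(n i) ≤ K * p.E 0

/-- no dominance on the left -/
def NoDom (C₁ : ℝ) (Y₀ : ℕ) (p : Par) (n : ι → Measure ℝ) : Prop :=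
  ∀ Y : ℕ, Y₀ ≤ Y → (Y : ℝ) ≤ p.M - 2 → S.Lf n Y ≤ C₁ * S.Of n Y

end Sys

end INDB
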