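import Pool.Agent.INDB.Meas
import Pool.Agent.INDB.AeNon

/-!
# INDB, module LimB: limits of certificates

PROOF. (1) Compactness (see `Pool.Agent.IND2I.Lim` for a similar statement, which may be imported if it is already proved): the families `n m i` have masses at most `K` and are uniformly tight: for `ε > 0` there is `R` with `(n m i){|x| > R} ≤ ε` for all large `m`; enlarge `R` for the finitely many other `m` (finite measures on `ℝ`), so for all `m`.
`isCompact_setOfPred_finiteMeasure_mass_le_compl_isCompact_le` (FiniteMeasure ℝ): along an ultrafilter `𝓕 ≤ atTop` (`hyperfilter ℕ`) `n m i → n' i` weakly for every `i`, i.e. `∫ f d(n m i) → ∫ f d(n' i)` for bounded continuous `f`.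
(2) Positivity. Let `φ ≥ 0` be continuous with compact support. `x ↦ U (k i)~ φ x := ∫ k i (x-y) φ y dy = U (k i) φ x` is continuous and bounded (`Kern.continuous_U`, `Kern.tendsto_U`). By `Kern.fubini_bdd` `∫ G k kt (n m) y φ y dy = ∑ ∫ U (k i) φ d(n m i) - ∫ kt(-y) φ y dy`, and it is `≥ 0` as soon as the support of `φ` lies in
`(-W m, W m)`. In the limit `∑ ∫ U (k i) φ d(n' i) - ∫ kt (-y) φ y dy = ∫ G k kt n' y φ y dy ≥ 0`. `G k kt n'` is integrable (`Kern.fubini_bdd` with `N = 1`), so it is `≥ 0` a.e. (`ae_nonneg_of_test` with `A = -R`, `B = R`, `R ∈ ℕ`).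
(3) Cost: `∑ gam i (n m i)(ℝ) → ∑ gam i (n' i)(ℝ)` along `𝓕`, and `≤ t + e m → t`.
-/

open MeasureTheory Set Filter Topology

namespace INDB

private lemma lb_compact (μ : ℕ → Measure ℝ) (hfin : ∀ m, IsFiniteMeasure (μ m)) {K : ℝ}
    (hmass : ∀ m, (μ m).real univ ≤ K)
    (htight : ∀ ε > 0, ∃ R : ℝ, ∃ m₀ : ℕ, ∀ m, m₀ ≤ m → (μ m).real {x | R < |x|} ≤ ε) :
    ∃ ν : Measure ℝ, IsFiniteMeasure ν ∧
      ∀ f : ℝ → ℝ, Continuous f → (∃ B, ∀ x, |f x| ≤ B) →
        Tendsto (fun m => ∫ x, f x ∂(μ m)) (hyperfilter ℕ).toFilter (𝓝 (∫ x, f x ∂ν)) := by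
  have hK : 0 ≤ K := measureReal_nonneg.trans (hmass 0)
  have htg : IsTightMeasureSet (Set.range μ) := by
    apply isTightMeasureSet_range_of_tendsto_limsup_measure_norm_gt
    rw [ENNReal.tendsto_nhds_zero]
    intro ε hε
    by_cases hεt : ε = ⊤
    · exact Eventually.of_forall fun r => hεt ▸ le_top
    · obtain ⟨R, m₀, h⟩ := htight ε.toReal (ENNReal.toReal_pos hε.ne' hεt)
      filter_upwards [eventually_ge_atTop R] with r hr
      refine limsup_le_of_le (by isBoundedDefault) ?_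
      filter_upwards [eventually_ge_atTop m₀] with m hm
      have h2 := h m hm
      have hsub : {x : ℝ | r < ‖x‖} ⊆ {x : ℝ | R < |x|} := fun x hx => by
        have hx' : r < ‖x‖ := hx
        rw [Real.norm_eq_abs] at hx'
        exact (show R < |x| from lt_of_le_of_lt hr hx')
      refine (measure_mono hsub).trans ?_
      rw [← ofReal_measureReal (μ := μ m) (measure_ne_top _ _), ← ENNReal.ofReal_toReal hεt]
      exact ENNReal.ofReal_le_ofReal h2
  rw [isTightMeasureSet_iff_exists_isCompact_measure_compl_le] at htg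
  obtain ⟨u, -, u_pos, u_lim⟩ :
      ∃ u : ℕ → NNReal, StrictAnti u ∧ (∀ n, 0 < u n) ∧ Tendsto u atTop (𝓝 0) :=
    exists_seq_strictAnti_tendsto 0
  have hA : ∀ n, ∃ Kc : Set ℝ, IsCompact Kc ∧ ∀ m, μ m Kcᶜ ≤ u n := by
    intro n
    obtain ⟨Kc, h1, h2⟩ := htg (u n) (by exact_mod_cast u_pos n)
    exact ⟨Kc, h1, fun m => h2 _ ⟨m, rfl⟩⟩
  choose Kc hKc hKcu using hA
  have hcomp := isCompact_setOfPred_finiteMeasure_mass_le_compl_isCompact_le (E := ℝ)
    (u := u) (K := Kc) K.toNNReal u_lim hKc (Or.inl inferInstance)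
  let ν : ℕ → FiniteMeasure ℝ := fun m => ⟨μ m, hfin m⟩
  have hν : ∀ m, ν m ∈ {μ : FiniteMeasure ℝ | μ.mass ≤ K.toNNReal ∧ ∀ n, μ (Kc n)ᶜ ≤ u n} := by
    intro m
    refine ⟨?_, fun n => ?_⟩
    · rw [← NNReal.coe_le_coe, Real.coe_toNNReal K hK]
      exact hmass m
    · rw [← ENNReal.coe_le_coe, FiniteMeasure.ennreal_coeFn_eq_coeFn_toMeasure]
      exact hKcu n m
  obtain ⟨ν', hν', hlim⟩ := hcomp.ultrafilter_le_nhds ((hyperfilter ℕ).map ν) (by
    rw [le_principal_iff]
    exact Ultrafilter.mem_map.2 (Filter.univ_mem' hν))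
  have hlim' : Tendsto ν (hyperfilter ℕ).toFilter (𝓝 ν') := hlim
  rw [FiniteMeasure.tendsto_iff_forall_integral_tendsto] at hlim'
  refine ⟨(ν' : Measure ℝ), inferInstance, ?_⟩
  rintro f hf ⟨B, hB⟩
  exact hlim' (BoundedContinuousFunction.ofNormedAddCommGroup f hf B hB)

/-- the integral of `G` against a bounded test function -/
private lemma lb_pair {ι : Type} [Fintype ι] {a b C : ℝ} (ha : 0 < a) (hb : 0 < b)
    (k : ι → ℝ → ℝ) (kt : ℝ → ℝ) (hk : ∀ i, Kern a b C (k i)) (hkt : Kern a b C kt)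
    (n : ι → Measure ℝ) (hn : ∀ i, IsFiniteMeasure (n i)) {φ : ℝ → ℝ} (hφ : Measurable φ)
    {B : ℝ} (hB : ∀ y, |φ y| ≤ B) :
    Integrable (fun y => G k kt n y * φ y) ∧
      ∫ y, G k kt n y * φ y = ∑ i, ∫ x, U (k i) φ x ∂(n i) - ∫ y, kt (-y) * φ y := by
  have h1 : ∀ i, Integrable (fun y => (∫ x, k i (x - y) ∂(n i)) * φ y) := fun i => by
    have := hn i
    exact ((hk i).fubini_bdd ha hb (n i) hφ hB).2.1
  have h2 : ∀ i, ∫ x, U (k i) φ x ∂(n i) = ∫ y, (∫ x, k i (x - y) ∂(n i)) * φ y := fun i => by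
    have := hn i
    exact ((hk i).fubini_bdd ha hb (n i) hφ hB).2.2
  have h3 : Integrable (fun y => kt (-y) * φ y) := by
    have h4 : Integrable (fun y => kt (-y)) := (hkt.integrable ha hb).comp_neg
    refine (h4.norm.mul_const B).mono' (h4.aestronglyMeasurable.mul hφ.aestronglyMeasurable)
      (Eventually.of_forall fun y => ?_)
    rw [norm_mul]
    exact mul_le_mul_of_nonneg_left (hB y) (norm_nonneg _)
  have h5 : ∀ y, G k kt n y * φ y =
      ∑ i, (∫ x, k i (x - y) ∂(n i)) * φ y - kt (-y) * φ y := by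
    intro y
    unfold G
    rw [sub_mul, Finset.sum_mul]
  have h6 : Integrable (fun y => ∑ i, (∫ x, k i (x - y) ∂(n i)) * φ y) :=
    integrable_finsetSum _ fun i _ => h1 i
  constructor
  · simp only [h5]
    exact h6.sub h3
  · simp only [h5]
    rw [integral_sub h6 h3, integral_finsetSum _ fun i _ => h1 i]
    congr 1
    exact Finset.sum_congr rfl fun i _ => (h2 i).symm

private lemma lb_U_bdd {a b C : ℝ} (ha : 0 < a) (hb : 0 < b) {k : ℝ → ℝ} (hk : Kern a b C k)
    {φ : ℝ → ℝ} {B : ℝ} (hB : ∀ y, |φ y| ≤ B) :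
    ∃ B', ∀ x, |U k φ x| ≤ B' := by
  refine ⟨∫ u, |k u| * B, fun x => ?_⟩
  have h1 : Integrable (fun y => |k (x - y)| * B) :=
    (hk.integrable_sub ha hb x).abs.mul_const B
  have h2 : ‖∫ y, k (x - y) * φ y‖ ≤ ∫ y, |k (x - y)| * B := by
    refine norm_integral_le_of_norm_le h1 (Eventually.of_forall fun y => ?_)
    rw [norm_mul]
    exact mul_le_mul_of_nonneg_left (hB y) (norm_nonneg _)
  rw [Real.norm_eq_abs] at h2
  refine h2.trans (le_of_eq ?_)
  exact integral_sub_left_eq_self (fun u => |k u| * B) volume x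

theorem lim_cert {ι : Type} [Fintype ι] {a b C : ℝ} (ha : 0 < a) (hb : 0 < b)
    (k : ι → ℝ → ℝ) (kt : ℝ → ℝ) (hk : ∀ i, Kern a b C (k i)) (hkt : Kern a b C kt)
    (gam : ι → ℝ) (t K : ℝ) (n : ℕ → ι → Measure ℝ) (hn : ∀ m i, IsFiniteMeasure (n m i))
    (W e : ℕ → ℝ) (hW : Tendsto W atTop atTop) (he : Tendsto e atTop (𝓝 0))
    (hmass : ∀ m i, (n m i).real univ ≤ K)
    (htight : ∀ ε > 0, ∃ R : ℝ, ∃ m₀ : ℕ, ∀ m, m₀ ≤ m → ∀ i, (n m i).real {x | R < |x|} ≤ ε)
    (hpos : ∀ m, ∀ᵐ y : ℝ, |y| < W m → 0 ≤ G k kt (n m) y)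
    (hcost : ∀ m, ∑ i, gam i * (n m i).real univ ≤ t + e m) :
    ∃ n' : ι → Measure ℝ, (∀ i, IsFiniteMeasure (n' i)) ∧ (∀ᵐ y : ℝ, 0 ≤ G k kt n' y) ∧
      ∑ i, gam i * (n' i).real univ ≤ t := by
  have hex : ∀ i, ∃ ν : Measure ℝ, IsFiniteMeasure ν ∧
      ∀ f : ℝ → ℝ, Continuous f → (∃ B, ∀ x, |f x| ≤ B) →
        Tendsto (fun m => ∫ x, f x ∂(n m i)) (hyperfilter ℕ).toFilter (𝓝 (∫ x, f x ∂ν)) := by
    intro i
    refine lb_compact (fun m => n m i) (fun m => hn m i) (fun m => hmass m i) fun ε hε => ?_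
    obtain ⟨R, m₀, h⟩ := htight ε hε
    exact ⟨R, m₀, fun m hm => h m hm i⟩
  choose n' hn' hconv using hex
  refine ⟨n', hn', ?_, ?_⟩
  · have hG : Integrable (fun y => G k kt n' y) := by
      have h := (lb_pair ha hb k kt hk hkt n' hn' (φ := fun _ => (1 : ℝ)) measurable_const
        (B := 1) (fun y => by simp)).1
      simpa using h
    have hall : ∀ R : ℕ, ∀ᵐ y : ℝ, -(R : ℝ) < y → y < R → 0 ≤ G k kt n' y := by
      intro R
      refine ae_nonneg_of_test hG.locallyIntegrable ?_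
      intro φ hφ hφ0 hφz
      obtain ⟨B, hB⟩ : ∃ B, ∀ y, |φ y| ≤ B := by
        obtain ⟨B, hB⟩ := (isCompact_Icc (a := -(R : ℝ)) (b := R)).exists_bound_of_continuousOn
          hφ.continuousOn
        refine ⟨max B 0, fun y => ?_⟩
        by_cases hy : y ∈ Icc (-(R : ℝ)) R
        · exact (hB y hy).trans (le_max_left _ _)
        · have : φ y = 0 := by
            apply hφz
            by_contra h
            push Not at h
            exact hy ⟨h.1.le, h.2.le⟩
          rw [this, abs_zero]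
          exact le_max_right _ _
      have hB0 : 0 ≤ B := (abs_nonneg _).trans (hB 0)
      have hlin : Lin φ := ⟨B, hB0, fun y => (hB y).trans
        (le_mul_of_one_le_right hB0 (by linarith [abs_nonneg y]))⟩
      have hp := lb_pair ha hb k kt hk hkt n' hn' hφ.measurable hB
      rw [hp.2]
      have hT : Tendsto (fun m => ∑ i, ∫ x, U (k i) φ x ∂(n m i) - ∫ y, kt (-y) * φ y)
          (hyperfilter ℕ).toFilter
          (𝓝 (∑ i, ∫ x, U (k i) φ x ∂(n' i) - ∫ y, kt (-y) * φ y)) := by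
        refine Tendsto.sub_const ?_ _
        refine tendsto_finsetSum _ fun i _ => ?_
        exact hconv i _ ((hk i).continuous_U ha hb hφ hlin) (lb_U_bdd ha hb (hk i) hB)
      refine ge_of_tendsto hT ?_
      filter_upwards [Nat.hyperfilter_le_atTop (hW.eventually_ge_atTop (R : ℝ))] with m hm
      rw [← (lb_pair ha hb k kt hk hkt (n m) (hn m) hφ.measurable hB).2]
      refine integral_nonneg_of_ae ?_
      filter_upwards [hpos m] with y hy
      by_cases hyW : |y| < W m
      · exact mul_nonneg (hy hyW) (hφ0 y)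
      · have h0 : φ y = 0 := by
          apply hφz
          push Not at hyW
          have h1 : (R : ℝ) ≤ |y| := hm.trans hyW
          rcases le_abs.1 h1 with h | h
          · exact Or.inr h
          · exact Or.inl (by linarith)
        simp [h0]
    rw [← ae_all_iff] at hall
    filter_upwards [hall] with y hy
    obtain ⟨R, hR⟩ := exists_nat_gt |y|
    exact hy R (by linarith [neg_abs_le y]) (lt_of_le_of_lt (le_abs_self y) hR)
  · have hT : Tendsto (fun m => ∑ i, gam i * (n m i).real univ) (hyperfilter ℕ).toFilter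
        (𝓝 (∑ i, gam i * (n' i).real univ)) := by
      refine tendsto_finsetSum _ fun i _ => Tendsto.const_mul _ ?_
      have h := hconv i (fun _ => (1 : ℝ)) continuous_const ⟨1, fun x => by simp⟩
      simpa using h
    have hE : Tendsto (fun m => t + e m) (hyperfilter ℕ).toFilter (𝓝 t) := by
      have h := (he.mono_left Nat.hyperfilter_le_atTop).const_add t
      simpa using h
    exact le_of_tendsto_of_tendsto' hT hE hcost

end INDB
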