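import Pool.Agent.INDB.LDefs

/-!
# INDB, module ProfE: the background `E`

PROOFS (`p.OK κ C`). Consequences: `M ≤ M'` (`2 M ≤ (κ - sg) M' ≤ M'`), `c0 ≤ X - M`, `X/2 ≤ X - M`, `X + M' ≤ 2 X`, `1 ≤ sg (X - M)`, `1/c0 ≤ κ`. Values: `bg (-M) = be (X-M) = G1`, and at `M'`: `slope (M'+X) = G1 e^{sg(M+M')}`: `E` is continuous (`Continuous.if_le` twice), positive, nondecreasing on each of the three pieces.
`gro_E`: `Gro κ` holds on each piece: `max (y+X) c0 ≤ max (x+X) c0 · e^{κ(y-x)}` for `x ≤ y` (`max (y+X) c0 - max(x+X) c0 ≤ y - x ≤ κ c0 (y-x) ≤ max(x+X) c0 · κ (y-x)`, `1 + t ≤ e^t`); on the exponential piece the rate is `sg ≤ κ`; on the right piece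
`(y+X) ≤ (x+X)(1 + (y-x)/(x+X)) ≤ (x+X) e^{κ(y-x)}`. A function which satisfies `Gro κ` on three consecutive intervals with common end points satisfies it globally (multiply).
`lin_E`: `|E y| ≤ K (1+|y|)` with `K = be (X + c0) + G1 e^{sg(M+M')} + slope (1+X)`. `E_ge`: `E x ≥ be X/2` for `x ≥ -X/2` (monotone, `E (-X/2) = be X/2`, `-X/2 ≥ -X + c0`), `E ≥ G1` for `x ≥ -M`.
`E_diff_left`: for `-X + c0 ≤ z < -M`: `E(z+1) - E z ≥ be`: if `z + 1 ≤ -M` equality; otherwise with `t = z+1+M ∈ (0,1)`: `E(z+1) ≥ G1 (1 + sg t)`, `E z = G1 + be (z+M)`, difference `≥ G1 sg t + be (1-t) ≥ be`.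
`E_diff_mid`: `-M ≤ z ≤ M'-1`: `E(z+1) = e^{sg} E z ≥ (1+sg) E z`. `E_diff_right`: `z > M'-1`: `E(z+1) - E z ≥ slope`: for `z ≥ M'` equality; otherwise with `v = M'-z ∈ (0,1)`: `E M' - E z = E M' (1 - e^{-sg v}) ≥ E M' v (1 - e^{-sg}) ≥ slope v` because `(1-e^{-sg})(X+M') ≥ (sg/2) X ≥ 1`, and
`E (z+1) - E M' = slope (1 - v)`. `slope_ge`: `slope = E M'/(X+M') ≥ G1 e^{sg M} e^{sg M'}/(2X) ≥ 2 X G1 e^{sg M} = 2 X E 0`. `rhoL_ge`: `rhoL z ≥ 1`, and `rhoL z ≥ E (min z M') / (X + M')` for `z ≥ -M`.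
-/

open MeasureTheory Set Filter Topology

namespace INDB

namespace Par

variable {p : Par} {κ C : ℝ}

private lemma M_pos (h : p.OK κ C) : 2 ≤ p.M ∧ 2 * p.M ≤ p.M' := by
  have h1 := h.C1
  have h2 := h.M1
  have h3 := h.MM'
  have h4 := h.κ1
  have h5 := h.sg0
  have h6 := h.sgκ
  have hM : 2 ≤ p.M := by linarith
  have h7 : 0 < p.M' := by
    by_contra hc
    have h8 : (κ - p.sg) * p.M' ≤ 0 :=
      mul_nonpos_of_nonneg_of_nonpos (by linarith) (not_lt.1 hc)
    linarith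
  refine ⟨hM, ?_⟩
  have h8 : (κ - p.sg) * p.M' ≤ 1 * p.M' := mul_le_mul_of_nonneg_right (by linarith) h7.le
  linarith

lemma OK.basic (h : p.OK κ C) : p.M ≤ p.M' ∧ p.c0 ≤ p.X - p.M ∧ p.X / 2 ≤ p.X - p.M ∧
    p.X + p.M' ≤ 2 * p.X ∧ 0 < p.G1 ∧ 0 < p.slope ∧ 16 ≤ p.X ∧ p.be * (p.X / 2) ≤ p.G1 ∧
    p.G1 ≤ p.X ^ 2 := by
  obtain ⟨hM, hM'⟩ := M_pos h
  have h1 := h.C1
  have h2 := h.c01
  have h3 := h.X8
  have h4 := h.be1
  have h5 := h.beX
  have hX : p.X / 2 ≤ p.X - p.M := by linarith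
  have hG : 0 < p.G1 := mul_pos (by linarith) (by linarith)
  refine ⟨by linarith, by linarith, hX, by linarith, hG, ?_, by linarith, ?_, ?_⟩
  · exact div_pos (mul_pos hG (Real.exp_pos _)) (by linarith)
  · exact mul_le_mul_of_nonneg_left hX (by linarith)
  · unfold G1
    rw [pow_two]
    exact mul_le_mul h5 (by linarith) (by linarith) (by linarith)

private lemma E_bg {y : ℝ} (h1 : y ≤ -p.M) : p.E y = p.bg y := by
  unfold E
  rw [if_pos h1]

lemma E_mid {y : ℝ} (h : p.OK κ C) (h1 : -p.M ≤ y) (h2 : y ≤ p.M') :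
    p.E y = p.G1 * Real.exp (p.sg * (y + p.M)) := by
  obtain ⟨b1, b2, -⟩ := h.basic
  rcases h1.eq_or_lt with h3 | h3
  · rw [E_bg (le_of_eq h3.symm), ← h3]
    unfold bg G1
    rw [max_eq_left (by linarith)]
    simp
    left
    ring
  · unfold E
    rw [if_neg (by linarith), if_pos h2]

lemma E_left {y : ℝ} (h1 : y ≤ -p.M) (h2 : -p.X + p.c0 ≤ y) : p.E y = p.be * (y + p.X) := by
  rw [E_bg h1]
  unfold bg
  rw [max_eq_left (by linarith)]

lemma E_right {y : ℝ} (h : p.OK κ C) (h1 : p.M' ≤ y) : p.E y = p.slope * (y + p.X) := by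
  obtain ⟨b1, b2, b3, b4, b5, b6, b7, -⟩ := h.basic
  obtain ⟨hM, hM'⟩ := M_pos h
  rcases h1.eq_or_lt with h3 | h3
  · rw [← h3, E_mid h (by linarith) le_rfl]
    unfold slope
    have h4 : p.X + p.M' ≠ 0 := by linarith
    rw [add_comm p.M' p.X, add_comm p.M' p.M, div_mul_cancel₀ _ h4]
  · unfold E
    rw [if_neg (by linarith), if_neg (by linarith)]

lemma OK.cont_E (h : p.OK κ C) : Continuous p.E := by
  obtain ⟨b1, b2, b3, b4, b5, b6, b7, -⟩ := h.basic
  obtain ⟨hM, hM'⟩ := M_pos h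
  unfold E
  refine Continuous.if_le ?_ (Continuous.if_le ?_ ?_ continuous_id continuous_const ?_)
    continuous_id continuous_const ?_
  · unfold bg
    fun_prop
  · fun_prop
  · fun_prop
  · intro x hx
    have hx : x = p.M' := hx
    have h1 := E_mid h (y := x) (by linarith) hx.le
    have h2 := E_right h (y := x) hx.ge
    rw [← h1, ← h2]
  · intro x hx
    have hx : x = -p.M := hx
    have h1 := E_mid h (y := x) hx.ge (by linarith)
    have h2 := E_bg (p := p) (y := x) hx.le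
    have h3 : x ≤ p.M' := by linarith
    rw [if_pos h3]
    rw [← h1, ← h2]

lemma OK.pos_E (h : p.OK κ C) (y : ℝ) : 0 < p.E y := by
  obtain ⟨b1, b2, b3, b4, b5, b6, b7, -⟩ := h.basic
  obtain ⟨hM, hM'⟩ := M_pos h
  have h1 := h.be1
  have h2 := h.c01
  by_cases hy : y ≤ -p.M
  · rw [E_bg hy]
    unfold bg
    exact mul_pos (by linarith) (lt_of_lt_of_le (by linarith) (le_max_right _ _))
  · by_cases hy2 : y ≤ p.M'
    · rw [E_mid h (by linarith) hy2]
      exact mul_pos b5 (Real.exp_pos _)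
    · rw [E_right h (by linarith)]
      exact mul_pos b6 (by linarith)

private lemma glue {R : ℝ → ℝ → Prop} (ht : ∀ x y z, x ≤ y → y ≤ z → R x y → R y z → R x z)
    {A B : ℝ} (hAB : A ≤ B) (h1 : ∀ x y, x ≤ y → y ≤ A → R x y)
    (h2 : ∀ x y, A ≤ x → x ≤ y → y ≤ B → R x y) (h3 : ∀ x y, B ≤ x → x ≤ y → R x y)
    (x y : ℝ) (hxy : x ≤ y) : R x y := by
  rcases le_total y A with hy | hy
  · exact h1 x y hxy hy
  · rcases le_total y B with hy2 | hy2
    · rcases le_total x A with hx | hx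
      · exact ht x A y hx hy (h1 x A hx le_rfl) (h2 A y le_rfl hy hy2)
      · exact h2 x y hx hxy hy2
    · rcases le_total x A with hx | hx
      · exact ht x A y hx hy (h1 x A hx le_rfl)
          (ht A B y hAB hy2 (h2 A B le_rfl hAB le_rfl) (h3 B y le_rfl hy2))
      · rcases le_total x B with hx2 | hx2
        · exact ht x B y hx2 hy2 (h2 x B hx hx2 le_rfl) (h3 B y le_rfl hy2)
        · exact h3 x y hx2 hxy

lemma OK.mono_E (h : p.OK κ C) : Monotone p.E := by
  obtain ⟨b1, b2, b3, b4, b5, b6, b7, -⟩ := h.basic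
  obtain ⟨hM, hM'⟩ := M_pos h
  have hb := h.be1
  have hs := h.sg0
  intro x y hxy
  refine glue (R := fun x y => p.E x ≤ p.E y) (fun x y z _ _ h1 h2 => h1.trans h2)
    (A := -p.M) (B := p.M') (by linarith) ?_ ?_ ?_ x y hxy
  · intro x y h1 h2
    rw [E_bg h2, E_bg (h1.trans h2)]
    unfold bg
    exact mul_le_mul_of_nonneg_left (max_le_max (by linarith) le_rfl) (by linarith)
  · intro x y h1 h2 h3
    rw [E_mid h h1 (h2.trans h3), E_mid h (h1.trans h2) h3]
    refine mul_le_mul_of_nonneg_left (Real.exp_le_exp.2 ?_) b5.le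
    exact mul_le_mul_of_nonneg_left (by linarith) hs.le
  · intro x y h1 h2
    rw [E_right h h1, E_right h (h1.trans h2)]
    exact mul_le_mul_of_nonneg_left (by linarith) b6.le

private lemma gro_aux (h : p.OK κ C) {m d : ℝ} (hm : p.c0 ≤ m) (hd : 0 ≤ d) :
    m + d ≤ m * Real.exp (κ * d) := by
  have h1 := h.c0κ
  have h2 := h.c01
  have h3 := h.sg0
  have h4 := h.sgκ
  have hκ : 0 ≤ κ := by linarith
  have h5 : 1 ≤ κ * m := h1.trans (mul_le_mul_of_nonneg_left hm hκ)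
  have h6 : 1 * d ≤ κ * m * d := mul_le_mul_of_nonneg_right h5 hd
  have h7 := Real.add_one_le_exp (κ * d)
  have h8 : m * (κ * d + 1) ≤ m * Real.exp (κ * d) :=
    mul_le_mul_of_nonneg_left h7 (by linarith)
  linarith

lemma OK.gro_E (h : p.OK κ C) : Gro κ p.E := by
  obtain ⟨b1, b2, b3, b4, b5, b6, b7, -⟩ := h.basic
  obtain ⟨hM, hM'⟩ := M_pos h
  have hb := h.be1
  have hs := h.sgκ
  intro x y hxy
  refine glue (R := fun x y => p.E y ≤ p.E x * Real.exp (κ * (y - x))) ?_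
    (A := -p.M) (B := p.M') (by linarith) ?_ ?_ ?_ x y hxy
  · intro x y z _ _ h1 h2
    calc p.E z ≤ p.E y * Real.exp (κ * (z - y)) := h2
      _ ≤ (p.E x * Real.exp (κ * (y - x))) * Real.exp (κ * (z - y)) :=
          mul_le_mul_of_nonneg_right h1 (Real.exp_pos _).le
      _ = p.E x * Real.exp (κ * (z - x)) := by
          rw [mul_assoc, ← Real.exp_add]
          congr 2
          ring
  · intro x y h1 h2
    rw [E_bg h2, E_bg (h1.trans h2)]
    unfold bg
    rw [mul_assoc]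
    refine mul_le_mul_of_nonneg_left ?_ (by linarith)
    refine le_trans ?_ (gro_aux h (le_max_right (x + p.X) p.c0) (sub_nonneg.2 h1))
    have e1 := le_max_left (x + p.X) p.c0
    have e2 := le_max_right (x + p.X) p.c0
    exact max_le (by linarith) (by linarith)
  · intro x y h1 h2 h3
    rw [E_mid h h1 (h2.trans h3), E_mid h (h1.trans h2) h3, mul_assoc, ← Real.exp_add]
    refine mul_le_mul_of_nonneg_left (Real.exp_le_exp.2 ?_) b5.le
    have h4 := mul_le_mul_of_nonneg_right hs.le (sub_nonneg.2 h2)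
    linarith
  · intro x y h1 h2
    rw [E_right h h1, E_right h (h1.trans h2), mul_assoc]
    refine mul_le_mul_of_nonneg_left ?_ b6.le
    have h3 := gro_aux h (m := x + p.X) (by linarith) (sub_nonneg.2 h2)
    linarith

lemma OK.lin_E (h : p.OK κ C) : Lin p.E := by
  obtain ⟨b1, b2, b3, b4, b5, b6, b7, -⟩ := h.basic
  obtain ⟨hM, hM'⟩ := M_pos h
  have hb := h.be1
  have hc := h.c01
  have hs := h.sg0
  have k1 : 0 ≤ p.be * (p.X + p.c0) := mul_nonneg (by linarith) (by linarith)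
  have k2 : 0 ≤ p.G1 * Real.exp (p.sg * (p.M + p.M')) := mul_nonneg b5.le (Real.exp_pos _).le
  have k3 : 0 ≤ p.slope * (1 + p.X) := mul_nonneg b6.le (by linarith)
  refine ⟨p.be * (p.X + p.c0) + p.G1 * Real.exp (p.sg * (p.M + p.M')) + p.slope * (1 + p.X),
    by linarith, ?_⟩
  intro y
  rw [abs_of_pos (h.pos_E y)]
  have ha := abs_nonneg y
  have ha1 := le_abs_self y
  have q1 := mul_nonneg k1 ha
  have q2 := mul_nonneg k2 ha
  have q3 := mul_nonneg k3 ha
  by_cases hy : y ≤ -p.M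
  · rw [E_bg hy]
    unfold bg
    have e1 : max (y + p.X) p.c0 ≤ (p.X + p.c0) * (1 + |y|) := by
      have e2 : |y| ≤ (p.X + p.c0) * |y| := le_mul_of_one_le_left ha (by linarith)
      refine max_le ?_ ?_ <;> linarith
    have e3 := mul_le_mul_of_nonneg_left e1 (show 0 ≤ p.be by linarith)
    linarith
  · by_cases hy2 : y ≤ p.M'
    · rw [E_mid h (by linarith) hy2]
      have e1 : Real.exp (p.sg * (y + p.M)) ≤ Real.exp (p.sg * (p.M + p.M')) :=
        Real.exp_le_exp.2 (mul_le_mul_of_nonneg_left (by linarith) hs.le)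
      have e3 := mul_le_mul_of_nonneg_left e1 b5.le
      linarith
    · rw [E_right h (by linarith)]
      have e1 : y + p.X ≤ (1 + p.X) * (1 + |y|) := by
        have e2 : 0 ≤ p.X * |y| := mul_nonneg (by linarith) ha
        linarith
      have e3 := mul_le_mul_of_nonneg_left e1 b6.le
      linarith

lemma OK.E_ge (h : p.OK κ C) {x : ℝ} (hx : -(p.X / 2) ≤ x) : p.be * (p.X / 2) ≤ p.E x := by
  obtain ⟨b1, b2, b3, b4, b5, b6, b7, -⟩ := h.basic
  obtain ⟨hM, hM'⟩ := M_pos h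
  have h1 := h.X8
  have h2 := h.C1
  have h3 := h.mono_E hx
  have h4 := E_left (p := p) (y := -(p.X / 2)) (by linarith) (by linarith)
  rw [h4] at h3
  have h5 : -(p.X / 2) + p.X = p.X / 2 := by ring
  rwa [h5] at h3

lemma OK.E_diff_left (h : p.OK κ C) {z : ℝ} (h1 : -p.X + p.c0 ≤ z) (h2 : z < -p.M) :
    p.be ≤ p.E (z + 1) - p.E z := by
  obtain ⟨b1, b2, b3, b4, b5, b6, b7, -⟩ := h.basic
  obtain ⟨hM, hM'⟩ := M_pos h
  have hb := h.be1
  have hs := h.sX
  have hs0 := h.sg0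
  rw [E_left h2.le h1]
  by_cases hz : z + 1 ≤ -p.M
  · rw [E_left hz (by linarith)]
    linarith
  · rw [E_mid h (by linarith) (by linarith)]
    have e1 := Real.add_one_le_exp (p.sg * (z + 1 + p.M))
    have e2 := mul_le_mul_of_nonneg_left e1 b5.le
    have e3 : p.be ≤ p.G1 * p.sg := by
      have e4 : 1 ≤ (p.X - p.M) * p.sg := by
        have := mul_le_mul_of_nonneg_right b3 hs0.le
        linarith
      have e5 := mul_le_mul_of_nonneg_left e4 (show 0 ≤ p.be by linarith)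
      unfold G1
      linarith
    have e6 := mul_le_mul_of_nonneg_right e3 (show 0 ≤ z + 1 + p.M by linarith)
    have e7 : p.G1 = p.be * (p.X - p.M) := rfl
    have e8 : p.be * (z + p.X) = p.G1 + p.be * (z + p.M) := by
      rw [e7]
      ring
    rw [e8]
    linarith

lemma OK.E_diff_mid (h : p.OK κ C) {z : ℝ} (h1 : -p.M ≤ z) (h2 : z ≤ p.M' - 1) :
    p.sg * p.E z ≤ p.E (z + 1) - p.E z := by
  have hp := h.pos_E z
  have e1 : p.E (z + 1) = Real.exp p.sg * p.E z := by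
    rw [E_mid h (by linarith) (by linarith), E_mid h h1 (by linarith)]
    have e2 : p.sg * (z + 1 + p.M) = p.sg + p.sg * (z + p.M) := by ring
    rw [e2, Real.exp_add]
    ring
  rw [e1]
  have e3 := Real.add_one_le_exp p.sg
  have e4 := mul_le_mul_of_nonneg_right e3 hp.le
  linarith

private lemma exp_aux {x : ℝ} (h0 : 0 ≤ x) (h1 : x ≤ 1) : Real.exp (-x) ≤ 1 - x / 2 := by
  have e1 := Real.add_one_le_exp x
  rw [Real.exp_neg]
  rw [inv_le_iff_one_le_mul₀ (Real.exp_pos x)]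
  have e2 : (1 - x / 2) * (x + 1) ≤ (1 - x / 2) * Real.exp x :=
    mul_le_mul_of_nonneg_left e1 (by linarith)
  nlinarith [mul_nonneg h0 (sub_nonneg.2 h1)]

lemma OK.E_diff_right (h : p.OK κ C) {z : ℝ} (h1 : p.M' - 1 < z) :
    p.slope ≤ p.E (z + 1) - p.E z := by
  obtain ⟨b1, b2, b3, b4, b5, b6, b7, -⟩ := h.basic
  obtain ⟨hM, hM'⟩ := M_pos h
  have hs := h.sX
  have hs0 := h.sg0
  have hs1 := h.sgκ
  have hκ := h.κ1
  rw [E_right h (y := z + 1) (by linarith)]
  by_cases hz : p.M' ≤ z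
  · rw [E_right h hz]
    linarith
  · have hz' := lt_of_not_ge hz
    have e1 : p.E z = p.E p.M' * Real.exp (-(p.sg * (p.M' - z))) := by
      rw [E_mid h (by linarith) hz'.le, E_mid h (by linarith) le_rfl, mul_assoc, ← Real.exp_add]
      congr 2
      ring
    rw [e1, E_right h le_rfl]
    have hv0 : 0 ≤ p.M' - z := by linarith
    have e2 : Real.exp (-(p.sg * (p.M' - z))) ≤ 1 - p.sg * (p.M' - z) / 2 := by
      refine exp_aux (mul_nonneg hs0.le hv0) ?_
      calc p.sg * (p.M' - z) ≤ 1 * 1 :=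
            mul_le_mul (by linarith) (by linarith) hv0 (by norm_num)
        _ = 1 := by norm_num
    have e3 : (p.M' + p.X) * Real.exp (-(p.sg * (p.M' - z))) ≤ z + p.X := by
      have e4 := mul_le_mul_of_nonneg_left e2 (show 0 ≤ p.M' + p.X by linarith)
      have e5 : 4 * (p.M' - z) ≤ (p.sg * p.X) * (p.M' - z) := mul_le_mul_of_nonneg_right hs hv0
      have e6 : 0 ≤ p.M' * (p.sg * (p.M' - z)) :=
        mul_nonneg (by linarith) (mul_nonneg hs0.le hv0)
      linarith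
    have e7 := mul_le_mul_of_nonneg_left e3 b6.le
    linarith

lemma OK.slope_ge (h : p.OK κ C) : 2 * p.X * p.E 0 ≤ p.slope := by
  obtain ⟨b1, b2, b3, b4, b5, b6, b7, -⟩ := h.basic
  obtain ⟨hM, hM'⟩ := M_pos h
  have hbig := h.big
  rw [E_mid h (by linarith) (by linarith), zero_add]
  unfold slope
  rw [le_div_iff₀ (by linarith)]
  have e1 : p.sg * (p.M + p.M') = p.sg * p.M + p.sg * p.M' := by ring
  rw [e1, Real.exp_add]
  have e2 : 2 * p.X * (p.X + p.M') ≤ Real.exp (p.sg * p.M') := by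
    have : 2 * p.X * (p.X + p.M') ≤ 2 * p.X * (2 * p.X) :=
      mul_le_mul_of_nonneg_left b4 (by linarith)
    linarith
  have e3 : 0 ≤ p.G1 * Real.exp (p.sg * p.M) := mul_nonneg b5.le (Real.exp_pos _).le
  have e4 := mul_le_mul_of_nonneg_left e2 e3
  linarith

private lemma E_ge_G1 (h : p.OK κ C) {z : ℝ} (hz : -p.M ≤ z) : p.G1 ≤ p.E z := by
  obtain ⟨b1, b2, b3, b4, b5, b6, b7, -⟩ := h.basic
  obtain ⟨hM, hM'⟩ := M_pos h
  have h3 := h.mono_E hz
  rw [E_mid h le_rfl (by linarith)] at h3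
  simpa using h3

lemma OK.rhoL_ge_one (h : p.OK κ C) (z : ℝ) : 1 ≤ p.rhoL z := by
  obtain ⟨b1, b2, b3, b4, b5, b6, b7, b8, -⟩ := h.basic
  obtain ⟨hM, hM'⟩ := M_pos h
  have hb := h.be1
  have hG : 1 ≤ p.G1 := by
    have : 1 * (p.X / 2) ≤ p.be * (p.X / 2) := mul_le_mul_of_nonneg_right hb (by linarith)
    linarith
  unfold rhoL
  split_ifs with h1 h2
  · exact le_rfl
  · exact hG.trans (E_ge_G1 h (not_lt.1 h1))
  · have e1 := h.slope_ge
    have e2 := E_ge_G1 h (z := 0) (by linarith)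
    have e3 : 1 ≤ 2 * p.X * p.E 0 := by
      calc (1 : ℝ) ≤ (2 * p.X) * 1 := by linarith
        _ ≤ 2 * p.X * p.E 0 := mul_le_mul_of_nonneg_left (hG.trans e2) (by linarith)
    linarith

lemma OK.rhoL_ge (h : p.OK κ C) {z : ℝ} (hz : -p.M ≤ z) :
    p.E (min z p.M') / (p.X + p.M') ≤ p.rhoL z := by
  obtain ⟨b1, b2, b3, b4, b5, b6, b7, b8, -⟩ := h.basic
  obtain ⟨hM, hM'⟩ := M_pos h
  unfold rhoL
  rw [if_neg (not_lt.2 hz)]
  split_ifs with h2
  · rw [min_eq_left (by linarith)]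
    exact div_le_self (h.pos_E z).le (by linarith)
  · rw [div_le_iff₀ (by linarith), add_comm p.X p.M', ← E_right h le_rfl]
    exact h.mono_E (min_le_right _ _)

lemma measurable_rhoL (h : p.OK κ C) : Measurable p.rhoL := by
  unfold rhoL
  refine Measurable.ite (measurableSet_lt measurable_id measurable_const) measurable_const
    (Measurable.ite (measurableSet_le measurable_id measurable_const) h.cont_E.measurable
      measurable_const)

end Par

end INDB
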