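import Pool.Agent.INDB.ProfE

/-!
# INDB, module ProfN: the test functions `N μ Y₁`

PROOFS (`p.OK κ C`, `0 ≤ μ ≤ 1`, `0 ≤ Y₁ ≤ M`). `k1 = sg + (sg M + μ Y₁)/M'`, so `sg ≤ k1` and `k1 ≤ sg + 2 M/M' ≤ κ` (`MM'`). `N` is continuous: at `-M` both sides are `G1` (if `Y₁ = M` the second piece is empty and the third one starts with `G1 e^{-μ(-M+M)} = G1`), at `-Y₁`, `0`, `M'`
(`-μ Y₁ + k1 M' = sg (M + M')`, `slope (M'+X) = G1 e^{sg(M+M')}`). Positive. `Dec μ`: on every piece `N` decays at most with the rate `μ` (nondecreasing on all pieces except `[-Y₁,0]`); `Gro κ`: on every piece the growth rate is at most `κ` (see `ProfE`).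
`N_le_E`: left of `-M` and right of `M'` equality; on `[-M,0]`: `N ≤ G1 ≤ E`; on `[0,M']`: `log (E/N) = sg M + μ Y₁ + (sg - k1) y`, which is `≥ 0` because it is affine, nonincreasing and `0` at `y = M'`. `N_anti`: `Y₁ ≤ Y₁' ≤ M → N μ Y₁' ≤ N μ Y₁` (left: obvious; `[0,M']`: the logarithm of the quotient is affine, `≥ 0` at `0`, `0` at `M'`).
`N_ge`: `N y ≥ G1 e^{-μ (y+Y₁)}` for `y ≥ -Y₁` (`Dec μ` from `-Y₁`, or pieces). `N_ge_min`: for `y ≥ -X/2`: `N y ≥ min (be X/2) (N 0)`.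
`N_diff_left`: `z ≤ -M-2`, `z ≥ -X + c0`, `y ∈ [z+1, z+2]`: `N y - N z = be (y - z) ≥ be` (all in the left piece). `N_diff_right`: `z ≥ 0`: `z ≤ M'-1`: `N(z+1) - N z ≥ sg N z`; `z > M'-1`: `N(z+1) - N z ≥ slope` (as in `ProfE`, with `k1 ≥ sg`). `N_mono_left`: nondecreasing on `(-∞, -Y₁]`; `N_mono_right`: nondecreasing on `[0, ∞)`.
`N_dual` : `N = E` for `y ≤ -M` or `y ≥ M'`.
-/

open MeasureTheory Set Filter Topology

namespace INDB

namespace Par

variable {p : Par} {κ C μ Y₁ : ℝ}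

lemma OK.Mpos (h : p.OK κ C) : 2 ≤ p.M := by
  linarith [h.M1, h.C1]

lemma OK.M'pos (h : p.OK κ C) : 2 ≤ p.M' := by
  linarith [h.Mpos, h.basic.1]

lemma OK.k1_mul (h : p.OK κ C) : p.k1 μ Y₁ * p.M' = p.sg * (p.M + p.M') + μ * Y₁ := by
  have h1 := h.M'pos
  rw [k1, div_mul_cancel₀]
  linarith

lemma OK.k1_bounds (h : p.OK κ C) (h0 : 0 ≤ μ) (h1 : μ ≤ 1) (hY0 : 0 ≤ Y₁) (hY : Y₁ ≤ p.M) :
    p.sg ≤ p.k1 μ Y₁ ∧ p.k1 μ Y₁ ≤ κ := by
  have h2 := h.M'pos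
  have h3 := h.Mpos
  have h4 : 0 ≤ μ * Y₁ := mul_nonneg h0 hY0
  have h5 : μ * Y₁ ≤ p.M := (mul_le_of_le_one_left hY0 h1).trans hY
  have h6 : 0 ≤ p.sg * p.M := mul_nonneg h.sg0.le (by linarith)
  have h7 : p.sg * p.M ≤ p.M := by
    have := h.sgκ; have := h.κ1
    exact mul_le_of_le_one_left (by linarith) (by linarith)
  have h8 := h.MM'
  rw [k1]
  constructor
  · rw [le_div_iff₀ (by linarith)]
    linarith
  · rw [div_le_iff₀ (by linarith)]
    linarith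

lemma OK.bg_M (h : p.OK κ C) : p.bg (-p.M) = p.G1 := by
  have h1 := h.basic.2.1
  rw [bg, G1, max_eq_left (by linarith)]
  ring

lemma N_left {y : ℝ} (hy : y ≤ -p.M) : p.N μ Y₁ y = p.bg y := by
  rw [N, if_pos hy]

lemma OK.N_mid (h : p.OK κ C) (hY0 : 0 ≤ Y₁) (hY : Y₁ ≤ p.M) {y : ℝ} (h1 : -p.M ≤ y)
    (h2 : y ≤ -Y₁) : p.N μ Y₁ y = p.G1 := by
  rcases h1.eq_or_lt with h3 | h3
  · rw [← h3, N_left le_rfl, h.bg_M]
  · rw [N, if_neg (not_le.2 h3), if_pos h2]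

lemma OK.N_mid' (h : p.OK κ C) (hY0 : 0 ≤ Y₁) (hY : Y₁ ≤ p.M) {y : ℝ} (h1 : -Y₁ ≤ y)
    (h2 : y ≤ 0) : p.N μ Y₁ y = p.G1 * Real.exp (-(μ * (y + Y₁))) := by
  rcases h1.eq_or_lt with h3 | h3
  · rw [h.N_mid hY0 hY (by linarith) h3.ge, ← h3]
    simp
  · rw [N, if_neg (by linarith), if_neg (not_le.2 h3), if_pos h2]

lemma OK.N_zero (h : p.OK κ C) (h0 : 0 ≤ μ) (hY0 : 0 ≤ Y₁) (hY : Y₁ ≤ p.M) :
    p.N μ Y₁ 0 = p.G1 * Real.exp (-(μ * Y₁)) := by
  rw [h.N_mid' hY0 hY (by linarith) le_rfl, zero_add]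

lemma OK.N_r (h : p.OK κ C) (hY0 : 0 ≤ Y₁) (hY : Y₁ ≤ p.M) {y : ℝ} (h1 : 0 ≤ y)
    (h2 : y ≤ p.M') : p.N μ Y₁ y = p.G1 * Real.exp (-(μ * Y₁) + p.k1 μ Y₁ * y) := by
  have h5 := h.Mpos
  rcases h1.eq_or_lt with h3 | h3
  · rw [h.N_mid' hY0 hY (by linarith) h3.ge, ← h3, zero_add, mul_zero, add_zero]
  · rw [N, if_neg (by linarith), if_neg (by linarith), if_neg (by linarith), if_pos h2]

lemma OK.slope_M' (h : p.OK κ C) :
    p.slope * (p.M' + p.X) = p.G1 * Real.exp (p.sg * (p.M + p.M')) := by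
  have h1 := h.M'pos
  have h2 := h.basic.2.2.2.2.2.2.1
  rw [slope, add_comm p.M' p.X, div_mul_cancel₀]
  linarith

lemma OK.N_M' (h : p.OK κ C) (hY0 : 0 ≤ Y₁) (hY : Y₁ ≤ p.M) :
    p.N μ Y₁ p.M' = p.slope * (p.M' + p.X) := by
  have h1 := h.M'pos
  rw [h.N_r hY0 hY (by linarith) le_rfl, h.k1_mul, h.slope_M']
  congr 2
  ring

lemma OK.N_rr (h : p.OK κ C) (hY0 : 0 ≤ Y₁) (hY : Y₁ ≤ p.M) {y : ℝ} (h1 : p.M' ≤ y) :
    p.N μ Y₁ y = p.slope * (y + p.X) := by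
  have h4 := h.M'pos
  have h5 := h.Mpos
  rcases h1.eq_or_lt with h3 | h3
  · rw [← h3, h.N_M' hY0 hY]
  · rw [N, if_neg (by linarith), if_neg (by linarith), if_neg (by linarith),
      if_neg (by linarith)]

lemma OK.cont_N (h : p.OK κ C) (h0 : 0 ≤ μ) (h1 : μ ≤ 1) (hY0 : 0 ≤ Y₁) (hY : Y₁ ≤ p.M) :
    Continuous (p.N μ Y₁) := by
  have h2 := h.M'pos
  have h3 := h.Mpos
  have hbg : Continuous p.bg := by
    unfold bg
    fun_prop
  unfold N
  refine Continuous.if_le hbg ?_ continuous_id continuous_const ?_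
  · refine Continuous.if_le continuous_const ?_ continuous_id continuous_const ?_
    · refine Continuous.if_le (by fun_prop) ?_ continuous_id continuous_const ?_
      · refine Continuous.if_le (by fun_prop) (by fun_prop) continuous_id continuous_const ?_
        intro y hy
        rw [hy, h.k1_mul, h.slope_M']
        congr 2
        ring
      · intro y hy
        rw [hy, if_pos (by linarith)]
        simp
    · intro y hy
      rw [hy, if_pos (by linarith)]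
      simp
  · intro y hy
    rw [hy, if_pos (by linarith), h.bg_M]

lemma OK.pos_N (h : p.OK κ C) (y : ℝ) : 0 < p.N μ Y₁ y := by
  obtain ⟨h1, h2, h3, h4, h5, h6, h7, h8, h9⟩ := h.basic
  have hM := h.M'pos
  have hb := h.be1
  have hc := h.c01
  rw [N]
  split_ifs with g1 g2 g3 g4
  · rw [bg]
    exact mul_pos (by linarith) (lt_of_lt_of_le (by linarith) (le_max_right _ _))
  · exact h5
  · positivity
  · positivity
  · exact mul_pos h6 (by linarith)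

lemma OK.mono_bg (h : p.OK κ C) : Monotone p.bg := by
  intro x y hxy
  rw [bg, bg]
  exact mul_le_mul_of_nonneg_left (max_le_max (by linarith) le_rfl) (by linarith [h.be1])

lemma OK.bg_pos (h : p.OK κ C) (y : ℝ) : 0 < p.bg y := by
  have hb := h.be1
  have hc := h.c01
  rw [bg]
  exact mul_pos (by linarith) (lt_of_lt_of_le (by linarith) (le_max_right _ _))

lemma glue {f : ℝ → ℝ} {M Y M' : ℝ} (h1 : -M ≤ -Y) (h2 : -Y ≤ 0) (h3 : 0 ≤ M')
    (m1 : MonotoneOn f (Iic (-M))) (m2 : MonotoneOn f (Icc (-M) (-Y)))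
    (m3 : MonotoneOn f (Icc (-Y) 0)) (m4 : MonotoneOn f (Icc 0 M')) (m5 : MonotoneOn f (Ici M')) :
    Monotone f := by
  have a1 : MonotoneOn f (Iic (-Y)) := by
    have := m1.union_right m2 isGreatest_Iic (isLeast_Icc h1)
    rwa [Iic_union_Icc_eq_Iic h1] at this
  have a2 : MonotoneOn f (Iic 0) := by
    have := a1.union_right m3 isGreatest_Iic (isLeast_Icc h2)
    rwa [Iic_union_Icc_eq_Iic h2] at this
  have a3 : MonotoneOn f (Iic M') := by
    have := a2.union_right m4 isGreatest_Iic (isLeast_Icc h3)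
    rwa [Iic_union_Icc_eq_Iic h3] at this
  exact a3.Iic_union_Ici m5

lemma glue' {f : ℝ → ℝ} {M Y M' : ℝ} (h1 : -M ≤ -Y) (h2 : -Y ≤ 0) (h3 : 0 ≤ M')
    (m1 : AntitoneOn f (Iic (-M))) (m2 : AntitoneOn f (Icc (-M) (-Y)))
    (m3 : AntitoneOn f (Icc (-Y) 0)) (m4 : AntitoneOn f (Icc 0 M')) (m5 : AntitoneOn f (Ici M')) :
    Antitone f := by
  have := glue (f := fun x => - f x) h1 h2 h3 m1.neg m2.neg m3.neg m4.neg m5.neg
  intro x y hxy
  have h4 := this hxy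
  simp only at h4
  linarith

lemma OK.N_mono_left (h : p.OK κ C) (hY0 : 0 ≤ Y₁) (hY : Y₁ ≤ p.M) :
    MonotoneOn (p.N μ Y₁) (Iic (-Y₁)) := by
  have m1 : MonotoneOn (p.N μ Y₁) (Iic (-p.M)) := by
    intro x hx y hy hxy
    rw [N_left hx, N_left hy]
    exact h.mono_bg hxy
  have m2 : MonotoneOn (p.N μ Y₁) (Icc (-p.M) (-Y₁)) := by
    intro x hx y hy hxy
    rw [h.N_mid hY0 hY hx.1 hx.2, h.N_mid hY0 hY hy.1 hy.2]
  have h1 : -p.M ≤ -Y₁ := by linarith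
  have := m1.union_right m2 isGreatest_Iic (isLeast_Icc h1)
  rwa [Iic_union_Icc_eq_Iic h1] at this

lemma OK.N_mono_right (h : p.OK κ C) (h0 : 0 ≤ μ) (h1 : μ ≤ 1) (hY0 : 0 ≤ Y₁) (hY : Y₁ ≤ p.M) :
    MonotoneOn (p.N μ Y₁) (Ici 0) := by
  obtain ⟨b1, b2, b3, b4, b5, b6, b7, b8, b9⟩ := h.basic
  have hM := h.M'pos
  have hk := h.k1_bounds h0 h1 hY0 hY
  have hs := h.sg0
  have m1 : MonotoneOn (p.N μ Y₁) (Icc 0 p.M') := by
    intro x hx y hy hxy
    rw [h.N_r hY0 hY hx.1 hx.2, h.N_r hY0 hY hy.1 hy.2]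
    refine mul_le_mul_of_nonneg_left (Real.exp_le_exp.2 ?_) b5.le
    have : p.k1 μ Y₁ * x ≤ p.k1 μ Y₁ * y := mul_le_mul_of_nonneg_left hxy (by linarith)
    linarith
  have m2 : MonotoneOn (p.N μ Y₁) (Ici p.M') := by
    intro x hx y hy hxy
    rw [h.N_rr hY0 hY hx, h.N_rr hY0 hY hy]
    exact mul_le_mul_of_nonneg_left (by linarith) b6.le
  have := m1.union_right m2 (isGreatest_Icc (by linarith)) isLeast_Ici
  rwa [Icc_union_Ici_eq_Ici (by linarith)] at this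

lemma OK.dec_N (h : p.OK κ C) (h0 : 0 ≤ μ) (h1 : μ ≤ 1) (hY0 : 0 ≤ Y₁) (hY : Y₁ ≤ p.M) :
    Dec μ (p.N μ Y₁) := by
  obtain ⟨b1, b2, b3, b4, b5, b6, b7, b8, b9⟩ := h.basic
  have hM := h.M'pos
  have hk := h.k1_bounds h0 h1 hY0 hY
  have hs := h.sg0
  have key : Monotone (fun y => p.N μ Y₁ y * Real.exp (μ * y)) := by
    refine glue (M := p.M) (Y := Y₁) (M' := p.M') (by linarith) (by linarith) (by linarith)
      ?_ ?_ ?_ ?_ ?_
    · intro x hx y hy hxy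
      simp only
      rw [N_left hx, N_left hy]
      exact mul_le_mul (h.mono_bg hxy) (Real.exp_le_exp.2 (mul_le_mul_of_nonneg_left hxy h0))
        (Real.exp_pos _).le (h.bg_pos y).le
    · intro x hx y hy hxy
      simp only
      rw [h.N_mid hY0 hY hx.1 hx.2, h.N_mid hY0 hY hy.1 hy.2]
      exact mul_le_mul_of_nonneg_left (Real.exp_le_exp.2 (mul_le_mul_of_nonneg_left hxy h0)) b5.le
    · intro x hx y hy hxy
      simp only
      rw [h.N_mid' hY0 hY hx.1 hx.2, h.N_mid' hY0 hY hy.1 hy.2, mul_assoc, mul_assoc,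
        ← Real.exp_add, ← Real.exp_add]
      refine mul_le_mul_of_nonneg_left (Real.exp_le_exp.2 ?_) b5.le
      linarith
    · intro x hx y hy hxy
      simp only
      exact mul_le_mul (h.N_mono_right h0 h1 hY0 hY hx.1 hy.1 hxy)
        (Real.exp_le_exp.2 (mul_le_mul_of_nonneg_left hxy h0)) (Real.exp_pos _).le (h.pos_N y).le
    · intro x hx y hy hxy
      simp only
      have hx' : p.M' ≤ x := hx
      have hy' : p.M' ≤ y := hy
      exact mul_le_mul (h.N_mono_right h0 h1 hY0 hY (mem_Ici.2 (by linarith))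
        (mem_Ici.2 (by linarith)) hxy)
        (Real.exp_le_exp.2 (mul_le_mul_of_nonneg_left hxy h0)) (Real.exp_pos _).le (h.pos_N y).le
  intro x y hxy
  have h2 := mul_le_mul_of_nonneg_right (key hxy) (Real.exp_pos (-(μ * y))).le
  simp only [mul_assoc, ← Real.exp_add] at h2
  rw [add_neg_cancel, Real.exp_zero, mul_one] at h2
  have h3 : -(μ * (y - x)) = μ * x + -(μ * y) := by ring
  rwa [h3]

lemma add_le_exp {κ A t : ℝ} (hA : 0 ≤ A) (hκ : 1 ≤ κ * A) (ht : 0 ≤ t) :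
    A + t ≤ A * Real.exp (κ * t) := by
  have h1 := Real.add_one_le_exp (κ * t)
  have h2 : A * (κ * t + 1) ≤ A * Real.exp (κ * t) := mul_le_mul_of_nonneg_left h1 hA
  have h3 : t ≤ (κ * A) * t := le_mul_of_one_le_left ht hκ
  linarith

lemma OK.gro_N (h : p.OK κ C) (h0 : 0 ≤ μ) (h1 : μ ≤ 1) (hY0 : 0 ≤ Y₁) (hY : Y₁ ≤ p.M) :
    Gro κ (p.N μ Y₁) := by
  obtain ⟨b1, b2, b3, b4, b5, b6, b7, b8, b9⟩ := h.basic
  have hM := h.M'pos
  have hk := h.k1_bounds h0 h1 hY0 hY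
  have hs := h.sg0
  have hsκ := h.sgκ
  have hκ0 : 0 < κ := by linarith
  have hexp : ∀ x y : ℝ, Real.exp (-(κ * y)) * Real.exp (κ * (y - x)) = Real.exp (-(κ * x)) := by
    intro x y
    rw [← Real.exp_add]
    congr 1
    ring
  have key : Antitone (fun y => p.N μ Y₁ y * Real.exp (-(κ * y))) := by
    refine glue' (M := p.M) (Y := Y₁) (M' := p.M') (by linarith) (by linarith) (by linarith)
      ?_ ?_ ?_ ?_ ?_
    · intro x hx y hy hxy
      simp only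
      rw [N_left hx, N_left hy]
      have hA : p.c0 ≤ max (x + p.X) p.c0 := le_max_right _ _
      have hc := h.c01
      have h3 : max (y + p.X) p.c0 ≤ max (x + p.X) p.c0 + (y - x) := by
        refine max_le ?_ ?_
        · linarith [le_max_left (x + p.X) p.c0]
        · linarith
      have h4 := add_le_exp (κ := κ) (A := max (x + p.X) p.c0) (t := y - x) (by linarith)
        (h.c0κ.trans (mul_le_mul_of_nonneg_left hA hκ0.le)) (by linarith)
      rw [bg, bg, ← hexp x y]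
      have h5 : 0 ≤ p.be * Real.exp (-(κ * y)) :=
        mul_nonneg (by linarith [h.be1]) (Real.exp_pos _).le
      calc p.be * max (y + p.X) p.c0 * Real.exp (-(κ * y))
          = (p.be * Real.exp (-(κ * y))) * max (y + p.X) p.c0 := by ring
        _ ≤ (p.be * Real.exp (-(κ * y))) * (max (x + p.X) p.c0 * Real.exp (κ * (y - x))) :=
            mul_le_mul_of_nonneg_left (h3.trans h4) h5
        _ = _ := by ring
    · intro x hx y hy hxy
      simp only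
      rw [h.N_mid hY0 hY hx.1 hx.2, h.N_mid hY0 hY hy.1 hy.2]
      exact mul_le_mul_of_nonneg_left (Real.exp_le_exp.2 (neg_le_neg
        (mul_le_mul_of_nonneg_left hxy hκ0.le))) b5.le
    · intro x hx y hy hxy
      simp only
      rw [h.N_mid' hY0 hY hx.1 hx.2, h.N_mid' hY0 hY hy.1 hy.2]
      refine mul_le_mul (mul_le_mul_of_nonneg_left (Real.exp_le_exp.2 (neg_le_neg
        (mul_le_mul_of_nonneg_left (by linarith) h0))) b5.le) (Real.exp_le_exp.2 (neg_le_neg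
        (mul_le_mul_of_nonneg_left hxy hκ0.le))) (Real.exp_pos _).le (by positivity)
    · intro x hx y hy hxy
      simp only
      rw [h.N_r hY0 hY hx.1 hx.2, h.N_r hY0 hY hy.1 hy.2, mul_assoc, mul_assoc,
        ← Real.exp_add, ← Real.exp_add]
      refine mul_le_mul_of_nonneg_left (Real.exp_le_exp.2 ?_) b5.le
      have h3 : (κ - p.k1 μ Y₁) * x ≤ (κ - p.k1 μ Y₁) * y :=
        mul_le_mul_of_nonneg_left hxy (by linarith)
      linarith
    · intro x hx y hy hxy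
      simp only
      rw [h.N_rr hY0 hY hx, h.N_rr hY0 hY hy]
      have hx' : p.M' ≤ x := hx
      have h6 : p.sg * p.X ≤ κ * (x + p.X) :=
        mul_le_mul hsκ.le (by linarith) (by linarith) hκ0.le
      have h4 := add_le_exp (κ := κ) (A := x + p.X) (t := y - x) (by linarith)
        (by linarith [h.sX]) (by linarith)
      have h5 : 0 ≤ p.slope * Real.exp (-(κ * y)) := mul_nonneg b6.le (Real.exp_pos _).le
      rw [← hexp x y]
      calc p.slope * (y + p.X) * Real.exp (-(κ * y))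
          = (p.slope * Real.exp (-(κ * y))) * (x + p.X + (y - x)) := by ring
        _ ≤ (p.slope * Real.exp (-(κ * y))) * ((x + p.X) * Real.exp (κ * (y - x))) :=
            mul_le_mul_of_nonneg_left h4 h5
        _ = _ := by ring
  intro x y hxy
  have h2 := mul_le_mul_of_nonneg_right (key hxy) (Real.exp_pos (κ * y)).le
  simp only [mul_assoc, ← Real.exp_add] at h2
  rw [neg_add_cancel, Real.exp_zero, mul_one] at h2
  have h3 : κ * (y - x) = -(κ * x) + κ * y := by ring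
  rwa [h3]

lemma OK.N_out (h : p.OK κ C) (h0 : 0 ≤ μ) (h1 : μ ≤ 1) (hY0 : 0 ≤ Y₁) (hY : Y₁ ≤ p.M) {y : ℝ}
    (hy : y ≤ -p.M ∨ p.M' ≤ y) : p.N μ Y₁ y = p.E y := by
  rcases hy with hy | hy
  · rw [N_left hy, E, if_pos hy]
  · rw [h.N_rr hY0 hY hy, E_right h hy]

lemma OK.N_le_left (h : p.OK κ C) (h0 : 0 ≤ μ) (hY0 : 0 ≤ Y₁) (hY : Y₁ ≤ p.M) {y : ℝ}
    (h1 : y ≤ 0) : p.N μ Y₁ y ≤ p.G1 := by
  have b5 := h.basic.2.2.2.2.1
  rcases le_total y (-p.M) with h2 | h2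
  · rw [N_left h2, ← h.bg_M]
    exact h.mono_bg h2
  · rcases le_total y (-Y₁) with h3 | h3
    · rw [h.N_mid hY0 hY h2 h3]
    · rw [h.N_mid' hY0 hY h3 h1]
      refine mul_le_of_le_one_right b5.le (Real.exp_le_one_iff.2 ?_)
      have := mul_nonneg h0 (by linarith : 0 ≤ y + Y₁)
      linarith

lemma OK.k1_le (h : p.OK κ C) {D : ℝ} (hD : 0 ≤ D) {y : ℝ} (h2 : y ≤ p.M') (h1 : 0 ≤ y) :
    D / p.M' * y ≤ D := by
  have h3 := h.M'pos
  rw [div_mul_eq_mul_div, div_le_iff₀ (by linarith)]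
  exact mul_le_mul_of_nonneg_left h2 hD

lemma OK.N_le_E (h : p.OK κ C) (h0 : 0 ≤ μ) (h1 : μ ≤ 1) (hY0 : 0 ≤ Y₁) (hY : Y₁ ≤ p.M) (y : ℝ) :
    p.N μ Y₁ y ≤ p.E y := by
  obtain ⟨b1, b2, b3, b4, b5, b6, b7, b8, b9⟩ := h.basic
  have hM := h.M'pos
  have hM1 := h.Mpos
  have hs := h.sg0
  by_cases h2 : y ≤ -p.M
  · exact (h.N_out h0 h1 hY0 hY (Or.inl h2)).le
  by_cases h3 : p.M' ≤ y
  · exact (h.N_out h0 h1 hY0 hY (Or.inr h3)).le
  rw [E_mid h (by linarith) (by linarith)]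
  rcases le_total y 0 with h4 | h4
  · refine (h.N_le_left h0 hY0 hY h4).trans (le_mul_of_one_le_right b5.le (Real.one_le_exp ?_))
    exact mul_nonneg hs.le (by linarith)
  · rw [h.N_r hY0 hY h4 (by linarith)]
    refine mul_le_mul_of_nonneg_left (Real.exp_le_exp.2 ?_) b5.le
    have h5 := h.k1_le (D := p.sg * p.M + μ * Y₁) (by positivity) (y := y) (by linarith) h4
    have h6 : p.k1 μ Y₁ = p.sg + (p.sg * p.M + μ * Y₁) / p.M' := by
      rw [k1]
      field_simp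
      ring
    rw [h6]
    linarith

lemma OK.N_anti (h : p.OK κ C) (h0 : 0 ≤ μ) (h1 : μ ≤ 1) (hY0 : 0 ≤ Y₁) {Y₁' : ℝ} (hYY : Y₁ ≤ Y₁')
    (hY : Y₁' ≤ p.M) (y : ℝ) : p.N μ Y₁' y ≤ p.N μ Y₁ y := by
  obtain ⟨b1, b2, b3, b4, b5, b6, b7, b8, b9⟩ := h.basic
  have hM := h.M'pos
  have hM1 := h.Mpos
  have hs := h.sg0
  have hY0' : 0 ≤ Y₁' := by linarith
  have hYM : Y₁ ≤ p.M := by linarith
  rcases le_total y (-p.M) with h2 | h2
  · rw [N_left h2, N_left h2]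
  rcases le_total y (-Y₁) with h3 | h3
  · rw [h.N_mid hY0 hYM h2 h3]
    exact h.N_le_left h0 hY0' hY (by linarith)
  rcases le_total y 0 with h4 | h4
  · rw [h.N_mid' hY0 hYM h3 h4, h.N_mid' hY0' hY (by linarith) h4]
    exact mul_le_mul_of_nonneg_left (Real.exp_le_exp.2 (neg_le_neg
      (mul_le_mul_of_nonneg_left (by linarith) h0))) b5.le
  rcases le_total y p.M' with h5 | h5
  · rw [h.N_r hY0 hYM h4 h5, h.N_r hY0' hY h4 h5]
    refine mul_le_mul_of_nonneg_left (Real.exp_le_exp.2 ?_) b5.le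
    have h6 := h.k1_le (D := μ * (Y₁' - Y₁)) (mul_nonneg h0 (by linarith)) (y := y) h5 h4
    have h7 : p.k1 μ Y₁' = p.k1 μ Y₁ + μ * (Y₁' - Y₁) / p.M' := by
      rw [k1, k1]
      field_simp
      ring
    rw [h7]
    linarith
  · rw [h.N_rr hY0 hYM h5, h.N_rr hY0' hY h5]

lemma OK.N_ge (h : p.OK κ C) (h0 : 0 ≤ μ) (h1 : μ ≤ 1) (hY0 : 0 ≤ Y₁) (hY : Y₁ ≤ p.M) {y : ℝ}
    (hy : -Y₁ ≤ y) : p.G1 * Real.exp (-(μ * (y + Y₁))) ≤ p.N μ Y₁ y := by
  have h2 := h.dec_N h0 h1 hY0 hY (-Y₁) y hy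
  rwa [h.N_mid hY0 hY (by linarith) le_rfl, sub_neg_eq_add] at h2

lemma OK.N_ge_min (h : p.OK κ C) (h0 : 0 ≤ μ) (h1 : μ ≤ 1) (hY0 : 0 ≤ Y₁) (hY : Y₁ ≤ p.M) {y : ℝ}
    (hy : -(p.X / 2) ≤ y) : min (p.be * (p.X / 2)) (p.N μ Y₁ 0) ≤ p.N μ Y₁ y := by
  obtain ⟨b1, b2, b3, b4, b5, b6, b7, b8, b9⟩ := h.basic
  rcases le_total y (-p.M) with h2 | h2
  · refine (min_le_left _ _).trans ?_
    rw [N_left h2, bg]
    exact mul_le_mul_of_nonneg_left (le_trans (by linarith) (le_max_left _ _))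
      (by linarith [h.be1])
  rcases le_total y (-Y₁) with h3 | h3
  · refine (min_le_left _ _).trans ?_
    rw [h.N_mid hY0 hY h2 h3]
    exact b8
  refine (min_le_right _ _).trans ?_
  rcases le_total y 0 with h4 | h4
  · rw [h.N_zero h0 hY0 hY, h.N_mid' hY0 hY h3 h4]
    exact mul_le_mul_of_nonneg_left (Real.exp_le_exp.2 (neg_le_neg
      (mul_le_mul_of_nonneg_left (by linarith) h0))) b5.le
  · exact h.N_mono_right h0 h1 hY0 hY (mem_Ici.2 le_rfl) (mem_Ici.2 h4) h4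

lemma OK.N_diff_left (h : p.OK κ C) {y z : ℝ} (h1 : -p.X + p.c0 ≤ z) (h2 : z ≤ -p.M - 2)
    (h3 : z + 1 ≤ y) (h4 : y ≤ z + 2) : p.be ≤ p.N μ Y₁ y - p.N μ Y₁ z := by
  rw [N_left (by linarith : y ≤ -p.M), N_left (by linarith : z ≤ -p.M), bg, bg,
    max_eq_left (by linarith), max_eq_left (by linarith), ← mul_sub]
  exact le_mul_of_one_le_right (by linarith [h.be1]) (by linarith)

lemma OK.N_diff_mid (h : p.OK κ C) (h0 : 0 ≤ μ) (h1 : μ ≤ 1) (hY0 : 0 ≤ Y₁) (hY : Y₁ ≤ p.M) {z : ℝ}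
    (hz0 : 0 ≤ z) (hz : z ≤ p.M' - 1) : p.sg * p.N μ Y₁ z ≤ p.N μ Y₁ (z + 1) - p.N μ Y₁ z := by
  have hk := (h.k1_bounds h0 h1 hY0 hY).1
  have h2 : p.N μ Y₁ (z + 1) = p.N μ Y₁ z * Real.exp (p.k1 μ Y₁) := by
    rw [h.N_r hY0 hY hz0 (by linarith), h.N_r hY0 hY (by linarith) (by linarith), mul_assoc,
      ← Real.exp_add]
    congr 2
    ring
  have h3 := Real.add_one_le_exp (p.k1 μ Y₁)
  have h4 := h.pos_N (μ := μ) (Y₁ := Y₁) z
  have h5 : p.N μ Y₁ z * (p.sg + 1) ≤ p.N μ Y₁ z * Real.exp (p.k1 μ Y₁) :=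
    mul_le_mul_of_nonneg_left (by linarith) h4.le
  rw [h2]
  linarith

lemma OK.N_diff_right (h : p.OK κ C) (h0 : 0 ≤ μ) (h1 : μ ≤ 1) (hY0 : 0 ≤ Y₁) (hY : Y₁ ≤ p.M)
    {z : ℝ} (hz : p.M' - 1 < z) : p.slope ≤ p.N μ Y₁ (z + 1) - p.N μ Y₁ z := by
  obtain ⟨b1, b2, b3, b4, b5, b6, b7, b8, b9⟩ := h.basic
  have hM := h.M'pos
  have hs := h.sg0
  have hk := (h.k1_bounds h0 h1 hY0 hY).1
  rcases le_total p.M' z with h2 | h2
  · rw [h.N_rr hY0 hY h2, h.N_rr hY0 hY (by linarith)]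
    linarith
  · set v := p.M' - z with hv
    have hv0 : 0 ≤ v := by linarith
    have hv1 : v ≤ 1 := by linarith
    have h3 : p.N μ Y₁ z = p.N μ Y₁ p.M' * Real.exp (-(p.k1 μ Y₁ * v)) := by
      rw [h.N_r hY0 hY (by linarith) h2, h.N_r hY0 hY (by linarith) le_rfl, mul_assoc,
        ← Real.exp_add]
      congr 2
      rw [hv]
      ring
    have h4 : Real.exp (-(p.k1 μ Y₁ * v)) ≤ 1 - p.sg * v / 2 := by
      have h5 : Real.exp (-(p.k1 μ Y₁ * v)) ≤ Real.exp (-(p.sg * v)) :=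
        Real.exp_le_exp.2 (neg_le_neg (mul_le_mul_of_nonneg_right hk hv0))
      refine h5.trans ?_
      set x := p.sg * v with hx
      have hx0 : 0 ≤ x := mul_nonneg hs.le hv0
      have hx1 : x ≤ 1 := by
        have := h.sgκ; have := h.κ1
        calc x ≤ 1 * 1 := mul_le_mul (by linarith) hv1 hv0 (by linarith)
          _ = 1 := one_mul 1
      rw [Real.exp_neg, inv_le_comm₀ (Real.exp_pos _) (by linarith)]
      refine le_trans ?_ (Real.add_one_le_exp x)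
      rw [inv_le_iff_one_le_mul₀ (by linarith)]
      nlinarith
    rw [h3, h.N_rr hY0 hY (by linarith : p.M' ≤ z + 1), h.N_M' hY0 hY]
    have h6 : p.slope * (p.M' + p.X) * Real.exp (-(p.k1 μ Y₁ * v)) ≤
        p.slope * (p.M' + p.X) * (1 - p.sg * v / 2) :=
      mul_le_mul_of_nonneg_left h4 (mul_nonneg b6.le (by linarith))
    have h7 : p.slope * v * 4 ≤ p.slope * v * (p.sg * (p.M' + p.X)) := by
      refine mul_le_mul_of_nonneg_left ?_ (mul_nonneg b6.le hv0)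
      have := mul_nonneg hs.le (by linarith : 0 ≤ p.M')
      linarith [h.sX]
    have h8 : 0 ≤ p.slope * v := mul_nonneg b6.le hv0
    have h9 : z = p.M' - v := by rw [hv]; ring
    rw [h9]
    linarith

end Par

end INDB
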