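import Pool.Agent.INDB.RDefs

/-!
# INDB, module R1b: no dominance on the right: summation against the test function

PROOF. `Y₂ = m` is a natural number. Multiply the hypothesis `Bt Y ≤ C₁ Or Y` by `e^{(κ+μ) Y}` and add over `Y = 1, ..., m` (`Bt`, `Or` are finite sums of integrals of bounded functions, exchange sum and integral: `integral_finsetSum`).
Left side: `∑_{crit} ∫ ∑_{Y ≤ m, Y < x - s_i} e^{(κ+μ)Y - a (x - Y)} dn_i`. For `x - s_i > 1` let `Y* = min m (⌈x - s_i⌉ - 1) ≥ 1` (a natural number `< x - s_i`). If `Y* = ⌈x-s_i⌉ - 1` then `|x - Y*| ≤ C + 1` and the term is `≥ e^{-3(C+1)} e^{(κ+μ) x} ≥ e^{-3(C+1)} tauf x`;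
if `Y* = m` then the term is `e^{(κ+μ) m - a (x-m)}`, `x - m ≥ -C`: it is `≥ e^{-2C} tauf x`. So the left side is `≥ e^{-3(C+1)} ∑_{crit} ∫_{x-s_i > 1} tauf dn_i`.
Right side: `∑_{Y=1}^m e^{(κ+μ) Y} w(x-Y) ≤ K tauf x`: for `x ≤ m`: terms `Y ≥ x` are `e^{(κ+μ)x} e^{-(b-κ-μ)(Y-x)}`, terms `Y ≤ x` are `e^{(κ+μ)x} e^{-(a+κ+μ)(x-Y)}`: two geometric series (rates at least `g = min (b-κ-μ₀) a`), total `≤ 2/(1-e^{-g}) e^{(κ+μ)x}`;
for `x > m` only `Y ≤ m`: `≤ e^{(κ+μ) m - a (x - m)}/(1-e^{-a})`. And `∑ e^{(κ+μ)Y} w(-Y) = ∑ e^{-(b-κ-μ)Y} ≤ 1/(1-e^{-g})`.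
-/

open MeasureTheory Set Filter Topology

namespace INDB

private lemma r1b_summable {g : ℝ} (hg : 0 < g) :
    Summable fun k : ℤ => Real.exp (-(g * |(k : ℝ)|)) := by
  have h1 : Summable fun k : ℕ => Real.exp (-g) ^ k :=
    summable_geometric_of_lt_one (Real.exp_pos _).le (by rw [Real.exp_lt_one_iff]; linarith)
  have h2 : ∀ k : ℕ, Real.exp (-(g * (k : ℝ))) = Real.exp (-g) ^ k := fun k => by
    rw [← Real.exp_nat_mul]
    congr 1
    ring
  refine Summable.of_nat_of_neg ?_ ?_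
  · refine h1.congr fun k => ?_
    rw [← h2, Int.cast_natCast, Nat.abs_cast]
  · refine h1.congr fun k => ?_
    rw [← h2, Int.cast_neg, Int.cast_natCast, abs_neg, Nat.abs_cast]

private lemma r1b_sum {g : ℝ} (hg : 0 < g) (z : ℝ) (s : Finset ℕ) :
    ∑ Y ∈ s, Real.exp (-(g * |(Y : ℝ) - z|)) ≤
      Real.exp g * ∑' k : ℤ, Real.exp (-(g * |(k : ℝ)|)) := by
  have h1 : ∀ Y : ℕ, Real.exp (-(g * |(Y : ℝ) - z|)) ≤
      Real.exp g * Real.exp (-(g * |(((Y : ℤ) - ⌊z⌋ : ℤ) : ℝ)|)) := by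
    intro Y
    rw [← Real.exp_add]
    refine Real.exp_le_exp.2 ?_
    have h2 : |(((Y : ℤ) - ⌊z⌋ : ℤ) : ℝ)| ≤ |(Y : ℝ) - z| + 1 := by
      push_cast
      have h3 : (Y : ℝ) - ⌊z⌋ = ((Y : ℝ) - z) + (z - ⌊z⌋) := by ring
      rw [h3]
      refine (abs_add_le _ _).trans ?_
      have h4 : |z - (⌊z⌋ : ℝ)| ≤ 1 := by
        rw [abs_le]
        constructor
        · linarith [Int.floor_le z]
        · linarith [Int.lt_floor_add_one z]
      linarith
    nlinarith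
  have hinj : Function.Injective (fun Y : ℕ => ((Y : ℤ) - ⌊z⌋ : ℤ)) := fun Y Y' h => by
    have : ((Y : ℤ) - ⌊z⌋ : ℤ) = (Y' : ℤ) - ⌊z⌋ := h
    omega
  calc ∑ Y ∈ s, Real.exp (-(g * |(Y : ℝ) - z|))
      ≤ ∑ Y ∈ s, Real.exp g * Real.exp (-(g * |(((Y : ℤ) - ⌊z⌋ : ℤ) : ℝ)|)) :=
        Finset.sum_le_sum fun Y _ => h1 Y
    _ = Real.exp g * ∑ k ∈ s.map ⟨_, hinj⟩, Real.exp (-(g * |(k : ℝ)|)) := by
        rw [Finset.sum_map, Finset.mul_sum]
        rfl
    _ ≤ Real.exp g * ∑' k : ℤ, Real.exp (-(g * |(k : ℝ)|)) := by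
        refine mul_le_mul_of_nonneg_left ?_ (Real.exp_pos g).le
        exact (r1b_summable hg).sum_le_tsum _ fun k _ => (Real.exp_pos _).le

/-- termwise bound -/
private lemma r1b_term {a b r g : ℝ} (ha : 0 < a) (hr : 0 ≤ r) (hg1 : g ≤ a) (hg2 : g ≤ b - r)
    {m Y : ℕ} (hY : Y ≤ m) (x : ℝ) :
    Real.exp (r * Y) * w a b (x - Y) ≤
      Real.exp (r * min x m - a * max (x - m) 0) * Real.exp (-(g * |(Y : ℝ) - min x m|)) := by
  have hYm : (Y : ℝ) ≤ m := Nat.cast_le.2 hY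
  rcases le_total x m with hx | hx
  · rw [min_eq_left hx, max_eq_right (by linarith)]
    rcases le_total (Y : ℝ) x with h | h
    · rw [w_nonneg_eq (by linarith), abs_of_nonpos (by linarith), ← Real.exp_add, ← Real.exp_add]
      refine Real.exp_le_exp.2 ?_
      nlinarith
    · rw [w_nonpos_eq (by linarith), abs_of_nonneg (by linarith), ← Real.exp_add, ← Real.exp_add]
      refine Real.exp_le_exp.2 ?_
      nlinarith
  · rw [min_eq_right hx, max_eq_left (by linarith), w_nonneg_eq (by linarith),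
      abs_of_nonpos (by linarith), ← Real.exp_add, ← Real.exp_add]
    refine Real.exp_le_exp.2 ?_
    nlinarith

/-- the right side -/
private lemma r1b_right {a b r g : ℝ} (ha : 0 < a) (hr : 0 ≤ r) (hg : 0 < g) (hg1 : g ≤ a)
    (hg2 : g ≤ b - r) (m : ℕ) (x : ℝ) :
    ∑ Y ∈ Finset.Icc 1 m, Real.exp (r * Y) * w a b (x - Y) ≤
      (Real.exp g * ∑' k : ℤ, Real.exp (-(g * |(k : ℝ)|))) *
        Real.exp (r * min x m - a * max (x - m) 0) := by
  calc ∑ Y ∈ Finset.Icc 1 m, Real.exp (r * Y) * w a b (x - Y)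
      ≤ ∑ Y ∈ Finset.Icc 1 m, Real.exp (r * min x m - a * max (x - m) 0) *
          Real.exp (-(g * |(Y : ℝ) - min x m|)) :=
        Finset.sum_le_sum fun Y hY => r1b_term ha hr hg1 hg2 (Finset.mem_Icc.1 hY).2 x
    _ = Real.exp (r * min x m - a * max (x - m) 0) *
          ∑ Y ∈ Finset.Icc 1 m, Real.exp (-(g * |(Y : ℝ) - min x m|)) := by
        rw [Finset.mul_sum]
    _ ≤ Real.exp (r * min x m - a * max (x - m) 0) *
          (Real.exp g * ∑' k : ℤ, Real.exp (-(g * |(k : ℝ)|))) :=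
        mul_le_mul_of_nonneg_left (r1b_sum hg _ _) (Real.exp_pos _).le
    _ = _ := mul_comm _ _

/-- the left side -/
private lemma r1b_left {a r C s : ℝ} (ha : 0 < a) (ha1 : a ≤ 1) (hr : 0 ≤ r) (hr1 : r ≤ 1)
    (hC : 1 ≤ C) (hs : |s| ≤ C) {m : ℕ} (hm : 1 ≤ m) {x : ℝ} (hx : 1 < x - s) :
    Real.exp (r * min x m - a * max (x - m) 0) ≤ Real.exp (3 * (C + 1)) *
      ∑ Y ∈ Finset.Icc 1 m, Real.exp (r * Y) *
        Set.indicator {x : ℝ | (Y : ℝ) < x - s} (fun x => Real.exp (-(a * (x - Y)))) x := by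
  obtain ⟨hs1, hs2⟩ := abs_le.1 hs
  have hnn : ∀ Y ∈ Finset.Icc 1 m, 0 ≤ Real.exp (r * Y) *
      Set.indicator {x : ℝ | (Y : ℝ) < x - s} (fun x => Real.exp (-(a * (x - Y)))) x := fun Y _ =>
    mul_nonneg (Real.exp_pos _).le (Set.indicator_nonneg (fun _ _ => (Real.exp_pos _).le) _)
  have key : ∀ Y ∈ Finset.Icc 1 m, (Y : ℝ) < x - s →
      Real.exp (r * min x m - a * max (x - m) 0) ≤ Real.exp (3 * (C + 1)) *
        (Real.exp (r * Y) * Real.exp (-(a * (x - Y)))) →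
      Real.exp (r * min x m - a * max (x - m) 0) ≤ Real.exp (3 * (C + 1)) *
      ∑ Y ∈ Finset.Icc 1 m, Real.exp (r * Y) *
        Set.indicator {x : ℝ | (Y : ℝ) < x - s} (fun x => Real.exp (-(a * (x - Y)))) x := by
    intro Y hY hlt h
    refine h.trans (mul_le_mul_of_nonneg_left ?_ (Real.exp_pos _).le)
    have h1 := Finset.single_le_sum hnn hY
    rwa [Set.indicator_of_mem (show x ∈ {x : ℝ | (Y : ℝ) < x - s} from hlt)] at h1
  have hmin : min x (m : ℝ) ≤ x := min_le_left _ _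
  have hmax : 0 ≤ a * max (x - m) 0 := mul_nonneg ha.le (le_max_right _ _)
  obtain ⟨N, hN⟩ : ∃ N, N = ⌈x - s⌉₊ - 1 := ⟨_, rfl⟩
  have hc1 : (1 : ℝ) < ⌈x - s⌉₊ := lt_of_lt_of_le hx (Nat.le_ceil _)
  have hc2 : 1 < ⌈x - s⌉₊ := by exact_mod_cast hc1
  have hNc : (N : ℝ) = (⌈x - s⌉₊ : ℝ) - 1 := by
    rw [hN, Nat.cast_sub (by omega), Nat.cast_one]
  have hN1 : 1 ≤ N := by omega
  have hNlt : (N : ℝ) < x - s := by
    have := Nat.ceil_lt_add_one (show 0 ≤ x - s by linarith)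
    rw [hNc]
    linarith
  have hNge : x - s ≤ N + 1 := by
    have := Nat.le_ceil (x - s)
    rw [hNc]
    linarith
  rcases le_total N m with hNm | hNm
  · refine key N (Finset.mem_Icc.2 ⟨hN1, hNm⟩) hNlt ?_
    rw [← Real.exp_add, ← Real.exp_add]
    refine Real.exp_le_exp.2 ?_
    have h1 : r * min x m ≤ r * x := mul_le_mul_of_nonneg_left hmin hr
    have h2 : |x - N| ≤ C + 1 := by
      rw [abs_le]
      constructor <;> linarith
    have h3 : r * (x - N) ≤ C + 1 := by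
      have h4 : r * (x - N) ≤ |r * (x - N)| := le_abs_self _
      rw [abs_mul, abs_of_nonneg hr] at h4
      have h5 : r * |x - N| ≤ 1 * (C + 1) := mul_le_mul hr1 h2 (abs_nonneg _) zero_le_one
      linarith
    have h4 : a * (x - N) ≤ C + 1 := by
      have h4 : a * (x - N) ≤ |a * (x - N)| := le_abs_self _
      rw [abs_mul, abs_of_nonneg ha.le] at h4
      have h5 : a * |x - N| ≤ 1 * (C + 1) := mul_le_mul ha1 h2 (abs_nonneg _) zero_le_one
      linarith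
    linarith
  · have hNm' : (m : ℝ) ≤ N := Nat.cast_le.2 hNm
    refine key m (Finset.mem_Icc.2 ⟨hm, le_rfl⟩) (lt_of_le_of_lt hNm' hNlt) ?_
    rw [← Real.exp_add, ← Real.exp_add]
    refine Real.exp_le_exp.2 ?_
    rcases le_total x m with hxm | hxm
    · rw [min_eq_left hxm]
      have h1 : r * x ≤ r * m := mul_le_mul_of_nonneg_left hxm hr
      have h2 : 0 ≤ a * (m - x) := mul_nonneg ha.le (by linarith)
      nlinarith
    · rw [min_eq_right hxm, max_eq_left (by linarith)]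
      linarith

open Classical in
theorem r1b {ι : Type} [Fintype ι] (S : Sys ι) {κ μ₀ : ℝ} (hκ : 0 < κ) (h0 : 0 ≤ μ₀)
    (hb : κ + μ₀ < S.b) :
    ∃ K : ℝ, 0 < K ∧ ∀ μ : ℝ, 0 ≤ μ → μ ≤ μ₀ → ∀ (C₁ : ℝ) (m : ℕ) (n : ι → Measure ℝ), 0 ≤ C₁ →
      (∀ i, IsFiniteMeasure (n i)) →
      (∀ Y : ℕ, 1 ≤ Y → Y ≤ m → S.Bt κ n Y ≤ C₁ * S.Or κ n Y) → 1 ≤ m →
      ∑ i ∈ Finset.univ.filter (S.Crit κ), ∫ x in {x | 1 < x - S.s i}, tauf κ μ S.a m x ∂(n i) ≤
        K * C₁ * ((∑ i ∈ (Finset.univ.filter (S.Crit κ))ᶜ, ∫ x, tauf κ μ S.a m x ∂(n i)) + 1) := by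
  have ha := S.ha
  have hab := S.hab
  have ha1 : S.a ≤ 1 := by linarith [S.hb]
  obtain ⟨g, hg, hg1, hg2⟩ : ∃ g : ℝ, 0 < g ∧ g ≤ S.a ∧ g ≤ S.b - (κ + μ₀) :=
    ⟨min S.a (S.b - (κ + μ₀)), lt_min ha (by linarith), min_le_left _ _, min_le_right _ _⟩
  obtain ⟨K₀, hK₀⟩ : ∃ K₀, K₀ = Real.exp g * ∑' k : ℤ, Real.exp (-(g * |(k : ℝ)|)) := ⟨_, rfl⟩
  have hK₀p : 0 < K₀ := by
    rw [hK₀]
    refine mul_pos (Real.exp_pos _) ?_
    exact (r1b_summable hg).tsum_pos (fun k => (Real.exp_pos _).le) 0 (Real.exp_pos _)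
  refine ⟨Real.exp (3 * (S.C + 1)) * K₀, mul_pos (Real.exp_pos _) hK₀p, ?_⟩
  intro μ hμ hμ0 C₁ m n hC₁ hfin hBO hm
  obtain ⟨r, hr⟩ : ∃ r, r = κ + μ := ⟨_, rfl⟩
  have hr0 : 0 ≤ r := by linarith
  have hr1 : r ≤ 1 := by linarith [S.hab]
  have htau : ∀ x, tauf κ μ S.a m x = Real.exp (r * min x m - S.a * max (x - m) 0) := fun x => by
    rw [hr]
    rfl
  have htc : Continuous (tauf κ μ S.a m) := by
    unfold tauf
    fun_prop
  have htb : ∀ x, ‖tauf κ μ S.a m x‖ ≤ Real.exp (r * m) := fun x => by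
    rw [htau, Real.norm_eq_abs, Real.abs_exp]
    refine Real.exp_le_exp.2 ?_
    have h1 : r * min x m ≤ r * m := mul_le_mul_of_nonneg_left (min_le_right _ _) hr0
    have h2 : 0 ≤ S.a * max (x - m) 0 := mul_nonneg ha.le (le_max_right _ _)
    linarith
  have hti : ∀ i, Integrable (tauf κ μ S.a m) (n i) := fun i => by
    have := hfin i
    exact Integrable.of_bound htc.aestronglyMeasurable _ (Eventually.of_forall htb)
  have hwi : ∀ (i : ι) (Y : ℕ), Integrable (fun x => w S.a S.b (x - Y)) (n i) := fun i Y => by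
    have := hfin i
    refine Integrable.of_bound (((continuous_w S.a S.b).comp (by fun_prop :
      Continuous fun x : ℝ => x - (Y : ℝ))).aestronglyMeasurable) 1 (Eventually.of_forall fun x => ?_)
    rw [Real.norm_eq_abs, abs_of_pos (w_pos _ _ _)]
    exact w_le_one ha.le S.hb.le _
  have hset : ∀ (i : ι) (y : ℝ), MeasurableSet {x : ℝ | y < x - S.s i} := fun i y =>
    measurableSet_lt measurable_const (measurable_id.sub_const _)
  have hexi : ∀ (i : ι) (Y : ℕ), IntegrableOn (fun x => Real.exp (-(S.a * (x - Y))))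
      {x : ℝ | (Y : ℝ) < x - S.s i} (n i) := fun i Y => by
    have := hfin i
    refine Integrable.of_bound (by fun_prop) (Real.exp (S.a * S.C)) ?_
    refine (ae_restrict_iff' (hset i Y)).2 (Eventually.of_forall fun x hx => ?_)
    have hx' : (Y : ℝ) < x - S.s i := hx
    rw [Real.norm_eq_abs, Real.abs_exp]
    refine Real.exp_le_exp.2 ?_
    have h1 := (abs_le.1 (S.hs i)).1
    nlinarith
  -- left
  have hleft : ∀ i, ∫ x in {x | 1 < x - S.s i}, tauf κ μ S.a m x ∂(n i) ≤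
      Real.exp (3 * (S.C + 1)) * ∑ Y ∈ Finset.Icc 1 m, Real.exp (r * Y) *
        ∫ x in {x | (Y : ℝ) < x - S.s i}, Real.exp (-(S.a * (x - Y))) ∂(n i) := by
    intro i
    have hI : ∀ Y ∈ Finset.Icc 1 m, Integrable (fun x => Real.exp (r * Y) *
        Set.indicator {x : ℝ | (Y : ℝ) < x - S.s i} (fun x => Real.exp (-(S.a * (x - Y)))) x)
        (n i) := fun Y _ => ((hexi i Y).integrable_indicator (hset i Y)).const_mul _
    have e1 : Real.exp (3 * (S.C + 1)) * ∑ Y ∈ Finset.Icc 1 m, Real.exp (r * Y) *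
        ∫ x in {x | (Y : ℝ) < x - S.s i}, Real.exp (-(S.a * (x - Y))) ∂(n i) =
        ∫ x, Real.exp (3 * (S.C + 1)) * ∑ Y ∈ Finset.Icc 1 m, Real.exp (r * Y) *
          Set.indicator {x : ℝ | (Y : ℝ) < x - S.s i} (fun x => Real.exp (-(S.a * (x - Y)))) x
          ∂(n i) := by
      rw [integral_const_mul, integral_finsetSum _ hI]
      congr 1
      refine Finset.sum_congr rfl fun Y _ => ?_
      rw [integral_const_mul, integral_indicator (hset i Y)]
    rw [e1, ← integral_indicator (hset i 1)]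
    refine integral_mono ((hti i).indicator (hset i 1))
      ((integrable_finsetSum _ hI).const_mul _) fun x => ?_
    by_cases hx : 1 < x - S.s i
    · rw [Set.indicator_of_mem (show x ∈ {x : ℝ | 1 < x - S.s i} from hx), htau]
      exact r1b_left ha ha1 hr0 hr1 S.hC (S.hs i) hm hx
    · rw [Set.indicator_of_notMem (show x ∉ {x : ℝ | 1 < x - S.s i} from hx)]
      refine mul_nonneg (Real.exp_pos _).le (Finset.sum_nonneg fun Y _ => ?_)
      exact mul_nonneg (Real.exp_pos _).le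
        (Set.indicator_nonneg (fun _ _ => (Real.exp_pos _).le) _)
  -- right
  have hright : ∀ i, ∑ Y ∈ Finset.Icc 1 m, Real.exp (r * Y) *
      ∫ x, w S.a S.b (x - Y) ∂(n i) ≤ K₀ * ∫ x, tauf κ μ S.a m x ∂(n i) := by
    intro i
    have hI : ∀ Y ∈ Finset.Icc 1 m, Integrable (fun x => Real.exp (r * Y) *
        w S.a S.b (x - Y)) (n i) := fun Y _ => (hwi i Y).const_mul _
    have e1 : ∑ Y ∈ Finset.Icc 1 m, Real.exp (r * Y) * ∫ x, w S.a S.b (x - Y) ∂(n i) =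
        ∫ x, ∑ Y ∈ Finset.Icc 1 m, Real.exp (r * Y) * w S.a S.b (x - Y) ∂(n i) := by
      rw [integral_finsetSum _ hI]
      exact Finset.sum_congr rfl fun Y _ => (integral_const_mul _ _).symm
    rw [e1, ← integral_const_mul]
    refine integral_mono (integrable_finsetSum _ hI) ((hti i).const_mul _) fun x => ?_
    show _ ≤ K₀ * tauf κ μ S.a m x
    rw [htau, hK₀]
    exact r1b_right ha hr0 hg hg1 (by linarith) m x
  have hzero : ∑ Y ∈ Finset.Icc 1 m, Real.exp (r * Y) * w S.a S.b (-(Y : ℝ)) ≤ K₀ := by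
    have h1 := r1b_right (b := S.b) ha hr0 hg hg1 (by linarith) m 0
    have hm0 : (0 : ℝ) ≤ m := Nat.cast_nonneg m
    rw [min_eq_left hm0, max_eq_right (by linarith), mul_zero, mul_zero, sub_zero, Real.exp_zero,
      mul_one, ← hK₀] at h1
    refine le_trans (le_of_eq ?_) h1
    refine Finset.sum_congr rfl fun Y _ => ?_
    rw [zero_sub]
  -- sum
  have hE : 0 ≤ Real.exp (3 * (S.C + 1)) := (Real.exp_pos _).le
  calc ∑ i ∈ Finset.univ.filter (S.Crit κ), ∫ x in {x | 1 < x - S.s i}, tauf κ μ S.a m x ∂(n i)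
      ≤ ∑ i ∈ Finset.univ.filter (S.Crit κ), Real.exp (3 * (S.C + 1)) *
          ∑ Y ∈ Finset.Icc 1 m, Real.exp (r * Y) *
            ∫ x in {x | (Y : ℝ) < x - S.s i}, Real.exp (-(S.a * (x - Y))) ∂(n i) :=
        Finset.sum_le_sum fun i _ => hleft i
    _ = Real.exp (3 * (S.C + 1)) * ∑ Y ∈ Finset.Icc 1 m, Real.exp (r * Y) * S.Bt κ n Y := by
        rw [← Finset.mul_sum, Finset.sum_comm]
        congr 1
        refine Finset.sum_congr rfl fun Y _ => ?_
        rw [← Finset.mul_sum]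
        rfl
    _ ≤ Real.exp (3 * (S.C + 1)) * ∑ Y ∈ Finset.Icc 1 m, Real.exp (r * Y) *
          (C₁ * S.Or κ n Y) := by
        refine mul_le_mul_of_nonneg_left (Finset.sum_le_sum fun Y hY => ?_) hE
        rw [Finset.mem_Icc] at hY
        exact mul_le_mul_of_nonneg_left (hBO Y hY.1 hY.2) (Real.exp_pos _).le
    _ = Real.exp (3 * (S.C + 1)) * (C₁ * ((∑ i ∈ (Finset.univ.filter (S.Crit κ))ᶜ,
          ∑ Y ∈ Finset.Icc 1 m, Real.exp (r * Y) * ∫ x, w S.a S.b (x - Y) ∂(n i)) +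
          ∑ Y ∈ Finset.Icc 1 m, Real.exp (r * Y) * w S.a S.b (-(Y : ℝ)))) := by
        congr 1
        rw [Finset.sum_comm, ← Finset.sum_add_distrib, Finset.mul_sum]
        refine Finset.sum_congr rfl fun Y _ => ?_
        unfold Sys.Or
        rw [← Finset.mul_sum]
        ring
    _ ≤ Real.exp (3 * (S.C + 1)) * (C₁ * ((∑ i ∈ (Finset.univ.filter (S.Crit κ))ᶜ,
          K₀ * ∫ x, tauf κ μ S.a m x ∂(n i)) + K₀)) := by
        refine mul_le_mul_of_nonneg_left (mul_le_mul_of_nonneg_left ?_ hC₁) hE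
        exact add_le_add (Finset.sum_le_sum fun i _ => hright i) hzero
    _ = Real.exp (3 * (S.C + 1)) * K₀ * C₁ * ((∑ i ∈ (Finset.univ.filter (S.Crit κ))ᶜ,
          ∫ x, tauf κ μ S.a m x ∂(n i)) + 1) := by
        rw [← Finset.mul_sum]
        ring

end INDB
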