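import Pool.Agent.INDB.RDefs
import Pool.Agent.INDB.Const
import Pool.Agent.INDB.Prim

/-!
# INDB, module R1a: the test function `tau` against the non critical rays

PROOF. `κ` is the critical rate. `tau κ μ Y₂` (`0 ≤ μ ≤ μ₀ ≤ κ/2`) is continuous, positive, nondecreasing (`tau_mono`), so `Dec 0` and `Dec ν` for every `ν ≥ 0`, and `Gro (κ + μ)` (`tau_gro`), hence `Gro (κ + μ₀)`; moreover `tau(z+1) ≥ e^{κ-μ} tau z ≥ e^{κ/2} tau z`.
`μ₀` is chosen with `κ + μ₀ < b`, `κ + μ₀ < kap i` for every `i` of kind `P` which is not critical (finitely many), `μ₀ ≤ κ/2`, and then smaller than needed below.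
Kind `M`: `const_M` with the rate `κ + μ₀ < b`. Kind `P`, not critical (`κ < kap i`): `const_P` with `κ := κ + μ₀`, `κ₁ := kap i`. Kind `N`: `const_N`. (The `μ₀` there only enters through `Dec μ₀`, which holds because `tau` is nondecreasing.)
Kind `L`: `lref` (integrability: `Kern.integrable_mul_of_le` with `lin_of_dec_gro`): `U ≤ -c e^{-(|s|+2)} (tau(x-s+1) - tau(x-s)) ≤ -c e^{-(|s|+2)} (e^{κ/2} - 1) tau(x-s)` and `tau(x-s) ≥ e^{-|s|} tau x` (growth rate at most `b ≤ 1`).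
`δ` = minimum over the finite index set.
-/

open MeasureTheory Set Filter Topology

namespace INDB

lemma tau_pos (κ μ Y₂ y : ℝ) : 0 < tau κ μ Y₂ y := Real.exp_pos _

private lemma tau_eq (κ μ Y₂ y : ℝ) :
    tau κ μ Y₂ y = Real.exp ((κ - μ) * y + 2 * μ * min y Y₂) := by
  unfold tau
  congr 1
  rcases le_total y Y₂ with h | h
  · rw [min_eq_left h, max_eq_right (by linarith)]
    ring
  · rw [min_eq_right h, max_eq_left (by linarith)]
    ring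

lemma continuous_tau (κ μ Y₂ : ℝ) : Continuous (tau κ μ Y₂) := by
  unfold tau
  fun_prop

lemma tau_mono {κ μ Y₂ : ℝ} (h1 : 0 ≤ μ) (h2 : μ ≤ κ) : Monotone (tau κ μ Y₂) := by
  intro x y hxy
  rw [tau_eq, tau_eq, Real.exp_le_exp]
  have h3 : min x Y₂ ≤ min y Y₂ := min_le_min_right _ hxy
  have h4 : (κ - μ) * x ≤ (κ - μ) * y := mul_le_mul_of_nonneg_left hxy (by linarith)
  have h5 : 2 * μ * min x Y₂ ≤ 2 * μ * min y Y₂ := mul_le_mul_of_nonneg_left h3 (by linarith)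
  linarith

private lemma min_lip {x y Y : ℝ} (h : x ≤ y) : min y Y ≤ min x Y + (y - x) := by
  rcases le_total x Y with h1 | h1
  · rw [min_eq_left h1]
    linarith [min_le_left y Y]
  · rw [min_eq_right h1]
    linarith [min_le_right y Y]

lemma tau_gro {κ μ Y₂ : ℝ} (h1 : 0 ≤ μ) (h2 : μ ≤ κ) : Gro (κ + μ) (tau κ μ Y₂) := by
  intro x y hxy
  rw [tau_eq, tau_eq, ← Real.exp_add, Real.exp_le_exp]
  have h3 : 2 * μ * min y Y₂ ≤ 2 * μ * (min x Y₂ + (y - x)) :=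
    mul_le_mul_of_nonneg_left (min_lip hxy) (by linarith)
  nlinarith

private lemma tau_step {κ μ Y₂ : ℝ} (h1 : 0 ≤ μ) (h2 : μ ≤ κ / 4) (hκ : 0 < κ) (z : ℝ) :
    Real.exp (κ / 2) * tau κ μ Y₂ z ≤ tau κ μ Y₂ (z + 1) := by
  rw [tau_eq, tau_eq, ← Real.exp_add, Real.exp_le_exp]
  have h3 : min z Y₂ ≤ min (z + 1) Y₂ := min_le_min_right _ (by linarith)
  have h4 : 2 * μ * min z Y₂ ≤ 2 * μ * min (z + 1) Y₂ := mul_le_mul_of_nonneg_left h3 (by linarith)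
  nlinarith

private lemma dec_of_mono {N : ℝ → ℝ} (hN : Monotone N) (h0 : ∀ y, 0 ≤ N y) {μ : ℝ} (hμ : 0 ≤ μ) :
    Dec μ N := by
  intro x y hxy
  have h1 : Real.exp (-(μ * (y - x))) ≤ 1 := by
    rw [Real.exp_le_one_iff]
    have : 0 ≤ μ * (y - x) := mul_nonneg hμ (by linarith)
    linarith
  calc N x * Real.exp (-(μ * (y - x))) ≤ N x * 1 := mul_le_mul_of_nonneg_left h1 (h0 x)
    _ = N x := mul_one _
    _ ≤ N y := hN hxy

private lemma gro_mono {N : ℝ → ℝ} (h0 : ∀ y, 0 ≤ N y) {κ κ' : ℝ} (h : κ ≤ κ') (hg : Gro κ N) :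
    Gro κ' N := by
  intro x y hxy
  refine (hg x y hxy).trans ?_
  refine mul_le_mul_of_nonneg_left ?_ (h0 x)
  rw [Real.exp_le_exp]
  exact mul_le_mul_of_nonneg_right h (by linarith)

private lemma exists_pos_le {ι : Type} [Finite ι] [Nonempty ι] (f : ι → ℝ) (hf : ∀ i, 0 < f i) :
    ∃ m : ℝ, 0 < m ∧ ∀ i, m ≤ f i := by
  obtain ⟨i₀, hi₀⟩ := Finite.exists_min f
  exact ⟨f i₀, hf i₀, hi₀⟩

private lemma r1a_one {ι : Type} [Fintype ι] (S : Sys ι) {κ : ℝ} (hκ : S.CritRate κ) (i : ι)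
    (hi : ¬ S.Crit κ i) :
    ∃ μ₁ δ : ℝ, 0 < μ₁ ∧ 0 < δ ∧ ∀ μ : ℝ, 0 ≤ μ → μ ≤ μ₁ → μ ≤ κ / 4 → κ + μ < S.b →
      ∀ Y₂ x, U (S.k i) (tau κ μ Y₂) x ≤ -(δ * tau κ μ Y₂ x) := by
  have ha := S.ha
  have hb := S.hb
  have hab := S.hab
  have hc := S.hc
  have ha1 : S.a ≤ 1 := by linarith
  have hb1 : S.b ≤ 1 := by linarith
  have hκ0 := hκ.pos
  have hκb := hκ.lt
  -- reduction of the cases M, P, N to a constant lemma
  have red : ∀ κ' : ℝ, κ < κ' → (∃ μ₀ δ : ℝ, 0 < μ₀ ∧ μ₀ < S.a ∧ 0 < δ ∧ ∀ N : ℝ → ℝ,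
      Measurable N → (∀ y, 0 ≤ N y) → Dec μ₀ N → Gro κ' N → ∀ x, U (S.k i) N x ≤ -(δ * N x)) →
      ∃ μ₁ δ : ℝ, 0 < μ₁ ∧ 0 < δ ∧ ∀ μ : ℝ, 0 ≤ μ → μ ≤ μ₁ → μ ≤ κ / 4 → κ + μ < S.b →
        ∀ Y₂ x, U (S.k i) (tau κ μ Y₂) x ≤ -(δ * tau κ μ Y₂ x) := by
    rintro κ' hκ' ⟨μ₀, δ, h1, h2, h3, h4⟩
    refine ⟨κ' - κ, δ, by linarith, h3, fun μ hμ0 hμ1 hμ2 hμ3 Y₂ x => ?_⟩
    have hm := tau_mono (Y₂ := Y₂) hμ0 (show μ ≤ κ by linarith)
    have h0 : ∀ y, 0 ≤ tau κ μ Y₂ y := fun y => (tau_pos κ μ Y₂ y).le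
    exact h4 _ (continuous_tau κ μ Y₂).measurable h0 (dec_of_mono hm h0 h1.le)
      (gro_mono h0 (by linarith) (tau_gro hμ0 (show μ ≤ κ by linarith))) x
  rcases hkd : S.kind i with _ | _ | _ | _
  · -- kind L
    have hp := S.patL i hkd
    have hint := S.intL i hkd
    have he : 1 < Real.exp (κ / 2) := Real.one_lt_exp_iff.2 (by linarith)
    refine ⟨1, S.c * Real.exp (-(|S.s i| + 2)) * (Real.exp (κ / 2) - 1) * Real.exp (-|S.s i|),
      one_pos, ?_, fun μ hμ0 hμ1 hμ2 hμ3 Y₂ x => ?_⟩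
    · have : 0 < Real.exp (κ / 2) - 1 := by linarith
      positivity
    have hμκ : μ ≤ κ := by linarith
    have hm := tau_mono (Y₂ := Y₂) hμ0 hμκ
    have hg := tau_gro (Y₂ := Y₂) hμ0 hμκ
    have h0 : ∀ y, 0 ≤ tau κ μ Y₂ y := fun y => (tau_pos κ μ Y₂ y).le
    have hI : Integrable (fun y => S.k i (x - y) * tau κ μ Y₂ y) :=
      (S.hk i).integrable_mul_of_le (κ := κ + μ) (μ := 0) (by linarith) hμ3 le_rfl ha
        (continuous_tau κ μ Y₂).measurable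
        (lin_of_dec_gro h0 (dec_of_mono hm h0 le_rfl) hg le_rfl (by linarith) x)
    have h1 := lref (S.hk i) ha hb ha1 hb1 hc hp hint hm x hI
    have h2 := tau_step (Y₂ := Y₂) hμ0 hμ2 hκ0 (x - S.s i)
    have h3 : Real.exp (-|S.s i|) * tau κ μ Y₂ x ≤ tau κ μ Y₂ (x - S.s i) := by
      have h4 : tau κ μ Y₂ x ≤ tau κ μ Y₂ (x - S.s i) * Real.exp |S.s i| := by
        rcases le_total 0 (S.s i) with h5 | h5
        · refine (hg (x - S.s i) x (by linarith)).trans ?_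
          refine mul_le_mul_of_nonneg_left ?_ (h0 _)
          rw [Real.exp_le_exp, abs_of_nonneg h5, sub_sub_cancel]
          nlinarith
        · refine (hm (show x ≤ x - S.s i by linarith)).trans ?_
          exact le_mul_of_one_le_right (h0 _) (Real.one_le_exp (abs_nonneg _))
      have h5 : Real.exp (-|S.s i|) * Real.exp |S.s i| = 1 := by
        rw [← Real.exp_add, neg_add_cancel, Real.exp_zero]
      calc Real.exp (-|S.s i|) * tau κ μ Y₂ x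
          ≤ Real.exp (-|S.s i|) * (tau κ μ Y₂ (x - S.s i) * Real.exp |S.s i|) :=
            mul_le_mul_of_nonneg_left h4 (Real.exp_pos _).le
        _ = tau κ μ Y₂ (x - S.s i) * (Real.exp (-|S.s i|) * Real.exp |S.s i|) := by ring
        _ = _ := by rw [h5, mul_one]
    refine h1.trans ?_
    have hA : 0 ≤ S.c * Real.exp (-(|S.s i| + 2)) := by positivity
    have h4 : (Real.exp (κ / 2) - 1) * (Real.exp (-|S.s i|) * tau κ μ Y₂ x) ≤
        tau κ μ Y₂ (x - S.s i + 1) - tau κ μ Y₂ (x - S.s i) := by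
      have h5 := mul_le_mul_of_nonneg_left h3 (show 0 ≤ Real.exp (κ / 2) - 1 by linarith)
      linarith
    have h5 := mul_le_mul_of_nonneg_left h4 hA
    linarith
  · -- kind M
    exact red ((κ + S.b) / 2) (by linarith)
      (const_M (S.hk i) ha hb ha1 hb1 (S.patM i hkd) (S.intM i hkd) (by linarith) (by linarith))
  · -- kind P
    have hne : S.kap i ≠ κ := fun h => hi ⟨hkd, h⟩
    have hlt : κ < S.kap i := lt_of_le_of_ne (hκ.le i hkd) (Ne.symm hne)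
    exact red ((κ + S.kap i) / 2) (by linarith)
      (const_P (S.hk i) ha hb ha1 hb1 hc (S.patP i hkd) (S.intP i hkd) (by linarith)
        (by linarith) (S.kapP i hkd).2)
  · -- kind N
    exact red ((κ + S.b) / 2) (by linarith)
      (const_N (S.hk i) ha hb ha1 hb1 (S.patN i hkd) (S.intN i hkd) (by linarith) (by linarith))

theorem r1a {ι : Type} [Fintype ι] (S : Sys ι) {κ : ℝ} (hκ : S.CritRate κ) :
    ∃ μ₀ δ : ℝ, 0 < μ₀ ∧ μ₀ ≤ κ / 4 ∧ κ + μ₀ < S.b ∧ 0 < δ ∧ ∀ μ : ℝ, 0 ≤ μ → μ ≤ μ₀ → ∀ Y₂ : ℝ,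
      ∀ i, ¬ S.Crit κ i → ∀ x, U (S.k i) (tau κ μ Y₂) x ≤ -(δ * tau κ μ Y₂ x) := by
  have hne : Nonempty ι := ⟨S.l0⟩
  have hκ0 := hκ.pos
  have hκb := hκ.lt
  have hex : ∀ i, ∃ μ₁ δ : ℝ, 0 < μ₁ ∧ 0 < δ ∧ (¬ S.Crit κ i → ∀ μ : ℝ, 0 ≤ μ → μ ≤ μ₁ →
      μ ≤ κ / 4 → κ + μ < S.b → ∀ Y₂ x, U (S.k i) (tau κ μ Y₂) x ≤ -(δ * tau κ μ Y₂ x)) := by
    intro i
    by_cases hi : S.Crit κ i
    · exact ⟨1, 1, one_pos, one_pos, fun h => absurd hi h⟩
    · obtain ⟨μ₁, δ, h1, h2, h3⟩ := r1a_one S hκ i hi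
      exact ⟨μ₁, δ, h1, h2, fun _ => h3⟩
  choose μ₁ δ h1 h2 h3 using hex
  obtain ⟨m, hm, hm'⟩ := exists_pos_le μ₁ h1
  obtain ⟨d, hd, hd'⟩ := exists_pos_le δ h2
  refine ⟨min m (min (κ / 4) ((S.b - κ) / 2)), d, ?_, ?_, ?_, hd, ?_⟩
  · exact lt_min hm (lt_min (by linarith) (by linarith))
  · exact (min_le_right _ _).trans (min_le_left _ _)
  · have := (min_le_right m (min (κ / 4) ((S.b - κ) / 2))).trans (min_le_right _ _)
    linarith
  · intro μ hμ0 hμ Y₂ i hi x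
    have e1 : μ ≤ m := hμ.trans (min_le_left _ _)
    have e2 : μ ≤ κ / 4 := hμ.trans ((min_le_right _ _).trans (min_le_left _ _))
    have e3 : μ ≤ (S.b - κ) / 2 := hμ.trans ((min_le_right _ _).trans (min_le_right _ _))
    refine (h3 i hi μ hμ0 (e1.trans (hm' i)) e2 (by linarith) Y₂ x).trans ?_
    have e4 := mul_le_mul_of_nonneg_right (hd' i) (tau_pos κ μ Y₂ x).le
    linarith

end INDB
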