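import Pool.Agent.INDB.RDefs
import Pool.Agent.INDB.R1a

/-!
# INDB, module R1c: bound of the masses against `tauf`

PROOF. Put `τ = tau κ m Y₂`, `f = tauf κ m a Y₂`, `σ = κ - m/4`, `Q ≥ 1`, `Q ≤ e^{m T/2}`, `0 ≤ Y₂ ≤ T/8`. All constants `K` below depend on `a, b, C, κ, m, δ, K₁, K₉, card ι` only.
(1) Multiply `0 ≤ G n y` (a.e. `y < T`) by `τ y 1_{y<T}` (bounded) and integrate (`Kern.fubini_bdd`): `0 ≤ ∑ ∫ V_i dn_i - ∫_{y<T} kt(-y) τ y dy`, `V_i x = ∫_{y<T} k_i(x-y) τ y dy`. The target term is `≥ -K`: `τ y ≤ e^{(κ+m) y}` for `y ≥ 0`, `τ y ≤ 1` for `y ≤ 0` (`Y₂ ≥ 0`), `κ + m < b`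
  (`Kern.U_abs_le` at `x = 0`).
(2) For `x < T - 1`: `V_i x = U k_i τ x - ∫_{y≥T} k_i(x-y) τ y dy ≤ U k_i τ x + C ∫_{y ≥ T} w(x-y) τ y dy`, and `∫_{y≥T} e^{b(x-y)} τ(T) e^{(κ-m)(y-T)} dy = τ(T) e^{b(x-T)}/(b-κ+m)`. For `x ≥ T-1`: `V_i x ≤ C ∫_{y<T} w(x-y) τ y dy ≤ C (1/a+1/b) τ(T)` (`τ` nondecreasing).
(3) `τ(T) ≤ e^{(κ-m) T + 2 m Y₂} ≤ e^{(κ - 3m/4) T}`. `∑ ∫_{x<T-1} e^{b(x-T)} dn_i ≤ K Q e^{-σ T}` (`x < 0`: `≤ Q e^{-bT}`; `x ∈ [j,j+1)`, `0 ≤ j ≤ T`: `≤ e^{b(j+1-T)} Q e^{-σ j}`, geometric sum with ratio `e^{b-σ} > 1`), `n_i([T-1,∞)) ≤ Q e^{-σ(T-1)}`. So the errors are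
  `≤ K Q e^{(κ-3m/4-κ+m/4)T} = K Q e^{-mT/2} ≤ K`.
(4) Hence with `X = ∑_{not crit} ∫_{x<T-1} τ dn_i`: `δ X ≤ K₁ m ∑_{crit} ∫ f dn_i + K` (the critical rays: `∫_{x<T-1} U ≤ K₁ m ∫ f`).
(5) `∑_{crit} ∫_{x-s_i ≤ 1} f dn_i ≤ K Q` (`f ≤ e^{(κ+m)(C+1)}` there); by the hypothesis `hd` `∑_{crit} ∫_{x-s_i>1} f ≤ K₉ (∑_{not crit} ∫ f dn_i + 1)`; `f ≤ τ`, and for `x ≥ T-1 ≥ Y₂`: `f ≤ e^{(κ+m)Y₂}`,
  `e^{(κ+m) T/8} Q e^{-σ(T-1)} ≤ K` (because `m ≤ κ/4`: `(κ+m)/8 + m/2 ≤ κ - m/4`). So `δ X ≤ K₁ m K₉ X + K Q ≤ (δ/2) X + K Q`, `X ≤ K Q`, and the claim follows.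
-/

open MeasureTheory Set Filter Topology

namespace INDB

lemma r1c_h {κ m T Q : ℝ} (hκ : 0 < κ) (hm : 0 < m) (hT : 0 ≤ T) (hQ : 0 ≤ Q) (μ : Measure ℝ)
    [IsFiniteMeasure μ] (h1 : μ.real univ ≤ Q)
    (h2 : ∀ x, 0 ≤ x → x ≤ T → μ.real (Ici x) ≤ Q * Real.exp (-((κ - m / 4) * x))) :
    ∫ x, Real.exp (κ * min (x - T) 0) ∂μ ≤
      Real.exp κ * (1 + Real.exp (m / 4) / (Real.exp (m / 4) - 1)) *
        (Q * Real.exp (-((κ - m / 4) * T))) := by
  set r : ℝ := Real.exp (m / 4) with hr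
  have hr1 : 1 < r := Real.one_lt_exp_iff.2 (by linarith)
  set N : ℕ := ⌊T⌋₊ with hN
  have hNT : (N : ℝ) ≤ T := Nat.floor_le hT
  have hTN : T < N + 1 := Nat.lt_floor_add_one T
  -- pointwise
  have hp : ∀ x : ℝ, Real.exp (κ * min (x - T) 0) ≤ Real.exp κ * Real.exp (-(κ * T)) *
      (1 + ∑ j ∈ Finset.range (N + 1), Real.exp (κ * j) * (Ici (j : ℝ)).indicator (fun _ => 1) x) := by
    intro x
    have hs0 : ∀ j ∈ Finset.range (N + 1),
        0 ≤ Real.exp (κ * j) * (Ici (j : ℝ)).indicator (fun _ => (1 : ℝ)) x := by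
      intro j _
      exact mul_nonneg (Real.exp_pos _).le (indicator_nonneg (fun _ _ => zero_le_one) _)
    have hE := Real.exp_pos (-(κ * T))
    have hE2 := Real.exp_pos κ
    rcases lt_or_ge x 0 with hx | hx
    · have h3 : Real.exp (κ * min (x - T) 0) ≤ Real.exp (-(κ * T)) := by
        apply Real.exp_le_exp.2
        have : min (x - T) 0 ≤ -T := (min_le_left _ _).trans (by linarith)
        (first | linarith | nlinarith)
      have h4 : 1 ≤ Real.exp κ := Real.one_le_exp hκ.le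
      have h5 := Finset.sum_nonneg hs0
      exact h3.trans ((le_mul_of_one_le_left hE.le h4).trans
        (le_mul_of_one_le_right (mul_pos hE2 hE).le (by linarith)))
    · -- j = min floor x N
      set j : ℕ := min ⌊x⌋₊ N with hj
      have hjx : (j : ℝ) ≤ x := le_trans (by exact_mod_cast min_le_left _ _) (Nat.floor_le hx)
      have hjN : j ≤ N := min_le_right _ _
      have hmin : min (x - T) 0 ≤ j + 1 - T := by
        rcases le_total ⌊x⌋₊ N with h | h
        · have : j = ⌊x⌋₊ := min_eq_left h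
          rw [this]
          exact (min_le_left _ _).trans (by linarith [Nat.lt_floor_add_one x])
        · have : j = N := min_eq_right h
          rw [this]
          exact (min_le_right _ _).trans (by linarith)
      have h3 : Real.exp (κ * min (x - T) 0) ≤ Real.exp κ * Real.exp (-(κ * T)) * Real.exp (κ * j) := by
        rw [← Real.exp_add, ← Real.exp_add]
        apply Real.exp_le_exp.2
        (first | linarith | nlinarith)
      have h4 : Real.exp (κ * j) ≤ ∑ j ∈ Finset.range (N + 1),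
          Real.exp (κ * j) * (Ici (j : ℝ)).indicator (fun _ => (1 : ℝ)) x := by
        have := Finset.single_le_sum hs0 (Finset.mem_range.2 (Nat.lt_succ_of_le hjN))
        rw [indicator_of_mem (by exact hjx), mul_one] at this
        exact this
      have h5 := mul_pos hE2 hE
      exact h3.trans (mul_le_mul_of_nonneg_left (h4.trans (by linarith)) h5.le)
  have hint : ∀ j : ℕ, Integrable (fun x => Real.exp (κ * j) * (Ici (j : ℝ)).indicator (fun _ => (1 : ℝ)) x) μ := by
    intro j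
    exact ((integrable_const 1).indicator measurableSet_Ici).const_mul _
  have hcl : Integrable (fun x => Real.exp (κ * min (x - T) 0)) μ := by
    refine Integrable.mono' (integrable_const 1) (by fun_prop) (Filter.Eventually.of_forall fun x => ?_)
    rw [Real.norm_eq_abs, Real.abs_exp]
    rw [← Real.exp_zero]
    apply Real.exp_le_exp.2
    exact mul_nonpos_of_nonneg_of_nonpos hκ.le (min_le_right _ _)
  have hsumi : Integrable (fun x => ∑ j ∈ Finset.range (N + 1),
      Real.exp (κ * j) * (Ici (j : ℝ)).indicator (fun _ => (1 : ℝ)) x) μ :=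
    integrable_finsetSum (Finset.range (N + 1)) fun j _ => hint j
  have hid : ∫ x, Real.exp κ * Real.exp (-(κ * T)) *
      (1 + ∑ j ∈ Finset.range (N + 1),
        Real.exp (κ * j) * (Ici (j : ℝ)).indicator (fun _ => (1 : ℝ)) x) ∂μ =
      Real.exp κ * Real.exp (-(κ * T)) * (μ.real univ + ∑ j ∈ Finset.range (N + 1),
        ∫ x, Real.exp (κ * j) * (Ici (j : ℝ)).indicator (fun _ => (1 : ℝ)) x ∂μ) := by
    rw [integral_const_mul, integral_add (integrable_const _) hsumi,
      integral_finsetSum _ fun j _ => hint j, integral_const, smul_eq_mul, mul_one]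
  have hI : ∫ x, Real.exp (κ * min (x - T) 0) ∂μ ≤
      Real.exp κ * Real.exp (-(κ * T)) * (μ.real univ + ∑ j ∈ Finset.range (N + 1),
        ∫ x, Real.exp (κ * j) * (Ici (j : ℝ)).indicator (fun _ => (1 : ℝ)) x ∂μ) := by
    rw [← hid]
    exact integral_mono hcl (((integrable_const (1 : ℝ)).add hsumi).const_mul _) hp
  have hterm : ∀ j ∈ Finset.range (N + 1),
      ∫ x, Real.exp (κ * j) * (Ici (j : ℝ)).indicator (fun _ => (1 : ℝ)) x ∂μ ≤ Q * r ^ j := by
    intro j hj
    have hjT : (j : ℝ) ≤ T := le_trans (by exact_mod_cast Nat.lt_succ_iff.1 (Finset.mem_range.1 hj)) hNT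
    rw [integral_const_mul, integral_indicator_const _ measurableSet_Ici, smul_eq_mul, mul_one]
    have h3 := mul_le_mul_of_nonneg_left (h2 j (Nat.cast_nonneg j) hjT) (Real.exp_pos (κ * j)).le
    refine h3.trans (le_of_eq ?_)
    rw [hr, ← Real.exp_nat_mul]
    calc Real.exp (κ * j) * (Q * Real.exp (-((κ - m / 4) * j))) =
        Q * (Real.exp (κ * j) * Real.exp (-((κ - m / 4) * j))) := by ring
      _ = Q * Real.exp (j * (m / 4)) := by
        rw [← Real.exp_add]
        congr 2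
        ring
  have hsum := Finset.sum_le_sum hterm
  rw [← Finset.mul_sum, geom_sum_eq hr1.ne'] at hsum
  have hrN : r ^ (N + 1) ≤ r * Real.exp (m / 4 * T) := by
    rw [pow_succ, mul_comm]
    refine mul_le_mul_of_nonneg_left ?_ (by linarith)
    rw [hr, ← Real.exp_nat_mul]
    apply Real.exp_le_exp.2
    (first | linarith | nlinarith)
  have hgeo : (r ^ (N + 1) - 1) / (r - 1) ≤ r / (r - 1) * Real.exp (m / 4 * T) := by
    rw [div_mul_eq_mul_div]
    exact div_le_div_of_nonneg_right (by linarith) (by linarith)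
  have h1T : 1 ≤ Real.exp (m / 4 * T) := Real.one_le_exp (by positivity)
  have hfin : μ.real univ + ∑ j ∈ Finset.range (N + 1),
      ∫ x, Real.exp (κ * j) * (Ici (j : ℝ)).indicator (fun _ => (1 : ℝ)) x ∂μ ≤
      (1 + r / (r - 1)) * (Q * Real.exp (m / 4 * T)) := by
    have h3 := mul_le_mul_of_nonneg_left hgeo hQ
    have h4 := mul_le_mul_of_nonneg_left h1T hQ
    (first | linarith | nlinarith)
  refine hI.trans ?_
  have h5 := mul_le_mul_of_nonneg_left hfin (mul_pos (Real.exp_pos κ) (Real.exp_pos (-(κ * T)))).le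
  refine h5.trans (le_of_eq ?_)
  have h6 : Real.exp (-((κ - m / 4) * T)) = Real.exp (-(κ * T)) * Real.exp (m / 4 * T) := by
    rw [← Real.exp_add]
    congr 1
    ring
  rw [h6]
  ring


lemma r1c_tau_T {κ m Y₂ T : ℝ} (hm : 0 ≤ m) (hY : 0 ≤ Y₂) (hYT : Y₂ ≤ T / 8) :
    tau κ m Y₂ T ≤ Real.exp ((κ - 3 * m / 4) * T) := by
  have h1 : Y₂ ≤ T := by linarith
  rw [tau, min_eq_right h1, max_eq_left (by linarith)]
  apply Real.exp_le_exp.2
  (first | linarith | nlinarith)

lemma r1c_dec {κ m Y₂ : ℝ} (hm : 0 ≤ m) (hmκ : m ≤ κ) : Dec 0 (tau κ m Y₂) := by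
  intro x y hxy
  simpa using tau_mono (Y₂ := Y₂) hm hmκ hxy

lemma r1c_ind_le {κ m Y₂ T : ℝ} (hm : 0 ≤ m) (hmκ : m ≤ κ) (y : ℝ) :
    |(Iio T).indicator (tau κ m Y₂) y| ≤ tau κ m Y₂ T := by
  by_cases h : y ∈ Iio T
  · rw [indicator_of_mem h, abs_of_pos (tau_pos _ _ _ _)]
    exact tau_mono hm hmκ (le_of_lt h)
  · rw [indicator_of_notMem h, abs_zero]
    exact (tau_pos _ _ _ _).le

lemma r1c_trunc {a b C κ m Y₂ T : ℝ} {k : ℝ → ℝ} (hk : Kern a b C k) (ha : 0 < a) (ha1 : a ≤ 1)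
    (hb1 : b ≤ 1) (hm : 0 ≤ m) (hmκ : m ≤ κ) (hκb : κ + m < b) (hYT : Y₂ ≤ T) (x : ℝ) :
    U k ((Iio T).indicator (tau κ m Y₂)) x ≤ (Iio T).indicator (U k (tau κ m Y₂)) x +
      C * (3 + 1 / (b - κ) + 1 / (a - 0)) * tau κ m Y₂ T * Real.exp (κ * min (x - T) 0) := by
  have hκ : 0 ≤ κ := hm.trans hmκ
  have hmt : Measurable (tau κ m Y₂) := (continuous_tau _ _ _).measurable
  have hτ := tau_pos κ m Y₂ T
  rcases lt_or_ge x T with hx | hx
  · rw [indicator_of_mem (by exact hx), min_eq_left (by linarith)]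
    have hB : ∀ y, |(Ici T).indicator (tau κ m Y₂) y| ≤
        tau κ m Y₂ T * Real.exp (κ * (x - T)) * Real.exp (κ * max (y - x) 0 + 0 * max (x - y) 0) := by
      intro y
      by_cases h : y ∈ Ici T
      · have h' : T ≤ y := h
        rw [indicator_of_mem h, abs_of_pos (tau_pos _ _ _ _), mul_assoc, ← Real.exp_add]
        rw [tau, tau, ← Real.exp_add, min_eq_right hYT, min_eq_right (hYT.trans h'),
          max_eq_left (by linarith), max_eq_left (by linarith), max_eq_left (by linarith)]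
        apply Real.exp_le_exp.2
        (first | linarith | nlinarith)
      · rw [indicator_of_notMem h, abs_zero]
        positivity
    have h1 := hk.U_abs_le ha1 hb1 hκ (by linarith) le_rfl ha (hmt.indicator measurableSet_Ici)
      (by positivity) hB
    have hi1 : Integrable (fun y => k (x - y) * tau κ m Y₂ y) :=
      hk.integrable_mul_of_le (κ := κ + m) (μ := 0) (by linarith) hκb le_rfl ha hmt
        (lin_of_dec_gro (fun y => (tau_pos _ _ _ _).le) (r1c_dec hm hmκ) (tau_gro hm hmκ) le_rfl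
          (by linarith) x)
    have hi2 : Integrable (fun y => k (x - y) * (Ici T).indicator (tau κ m Y₂) y) :=
      hk.integrable_mul_of_le hκ (by linarith) le_rfl ha (hmt.indicator measurableSet_Ici) hB
    have h2 : U k ((Iio T).indicator (tau κ m Y₂)) x =
        U k (tau κ m Y₂) x - U k ((Ici T).indicator (tau κ m Y₂)) x := by
      rw [U, U, U, ← integral_sub hi1 hi2]
      congr 1
      funext y
      by_cases h : y ∈ Iio T
      · rw [indicator_of_mem h, indicator_of_notMem (by simpa using h)]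
        ring
      · rw [indicator_of_notMem h, indicator_of_mem (by simpa using h)]
        ring
    have h3 := (abs_le.1 h1).1
    rw [h2]
    linarith
  · rw [indicator_of_notMem (by simpa using hx), min_eq_right (by linarith), mul_zero,
      Real.exp_zero, mul_one, zero_add]
    have hB : ∀ y, |(Iio T).indicator (tau κ m Y₂) y| ≤
        tau κ m Y₂ T * Real.exp (κ * max (y - x) 0 + 0 * max (x - y) 0) := by
      intro y
      refine (r1c_ind_le hm hmκ y).trans ?_
      have : 1 ≤ Real.exp (κ * max (y - x) 0 + 0 * max (x - y) 0) := by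
        apply Real.one_le_exp
        have := le_max_right (y - x) 0
        positivity
      (first | linarith | nlinarith)
    have h1 := hk.U_abs_le ha1 hb1 hκ (by linarith) le_rfl ha (hmt.indicator measurableSet_Iio)
      hτ.le hB
    exact (le_abs_self _).trans h1

lemma r1c_target {a b C κ m Y₂ T : ℝ} {k : ℝ → ℝ} (hk : Kern a b C k) (ha : 0 < a) (ha1 : a ≤ 1)
    (hb1 : b ≤ 1) (hm : 0 ≤ m) (hmκ : m ≤ κ) (hκb : κ + m < b) (hY : 0 ≤ Y₂) :
    |U k ((Iio T).indicator (tau κ m Y₂)) 0| ≤ C * (3 + 1 / (b - (κ + m)) + 1 / (a - 0)) ∧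
      Integrable (fun y => k (0 - y) * (Iio T).indicator (tau κ m Y₂) y) := by
  have hmt : Measurable (tau κ m Y₂) := (continuous_tau _ _ _).measurable
  have hB : ∀ y, |(Iio T).indicator (tau κ m Y₂) y| ≤
      1 * Real.exp ((κ + m) * max (y - 0) 0 + 0 * max (0 - y) 0) := by
    intro y
    by_cases h : y ∈ Iio T
    · rw [indicator_of_mem h, abs_of_pos (tau_pos _ _ _ _), one_mul, tau]
      apply Real.exp_le_exp.2
      rw [sub_zero]
      rcases le_total y 0 with hy | hy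
      · rw [min_eq_left (hy.trans hY), max_eq_right (by linarith), max_eq_right hy]
        (first | linarith | nlinarith)
      · rw [max_eq_left hy]
        rcases le_total y Y₂ with h2 | h2
        · rw [min_eq_left h2, max_eq_right (by linarith)]
          linarith
        · rw [min_eq_right h2, max_eq_left (by linarith)]
          (first | linarith | nlinarith)
    · rw [indicator_of_notMem h, abs_zero]
      positivity
  refine ⟨?_, ?_⟩
  · have := hk.U_abs_le ha1 hb1 (by linarith) hκb le_rfl ha (hmt.indicator measurableSet_Iio)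
      zero_le_one hB
    simpa using this
  · exact hk.integrable_mul_of_le (by linarith) hκb le_rfl ha (hmt.indicator measurableSet_Iio) hB


lemma Sys.r1c_a1 {ι : Type} [Fintype ι] (S : Sys ι) : S.a ≤ 1 := by
  have := S.hab
  have := S.hb
  linarith

lemma Sys.r1c_b1 {ι : Type} [Fintype ι] (S : Sys ι) : S.b ≤ 1 := by
  have := S.hab
  have := S.ha
  linarith

lemma r1c_pos {ι : Type} [Fintype ι] (S : Sys ι) {κ m Y₂ T : ℝ} (hm : 0 ≤ m) (hmκ : m ≤ κ)
    (hb : κ + m < S.b) (hY : 0 ≤ Y₂) (n : ι → Measure ℝ) (hn : ∀ i, IsFiniteMeasure (n i))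
    (hG : ∀ᵐ y : ℝ, y < T → 0 ≤ G S.k S.kt n y) :
    (∀ i, Integrable (fun x => U (S.k i) ((Iio T).indicator (tau κ m Y₂)) x) (n i)) ∧
      -(S.C * (3 + 1 / (S.b - (κ + m)) + 1 / (S.a - 0))) ≤
        ∑ i, ∫ x, U (S.k i) ((Iio T).indicator (tau κ m Y₂)) x ∂(n i) := by
  have hmt : Measurable ((Iio T).indicator (tau κ m Y₂)) :=
    (continuous_tau _ _ _).measurable.indicator measurableSet_Iio
  have hF : ∀ i, Integrable (fun x => U (S.k i) ((Iio T).indicator (tau κ m Y₂)) x) (n i) ∧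
      Integrable (fun y => (∫ x, S.k i (x - y) ∂(n i)) * (Iio T).indicator (tau κ m Y₂) y) ∧
      ∫ x, U (S.k i) ((Iio T).indicator (tau κ m Y₂)) x ∂(n i) =
        ∫ y, (∫ x, S.k i (x - y) ∂(n i)) * (Iio T).indicator (tau κ m Y₂) y := by
    intro i
    have := hn i
    exact (S.hk i).fubini_bdd S.ha S.hb (n i) hmt (r1c_ind_le hm hmκ)
  refine ⟨fun i => (hF i).1, ?_⟩
  have hT := r1c_target S.hkt S.ha S.r1c_a1 S.r1c_b1 hm hmκ hb hY (T := T)
  have h1 : 0 ≤ ∫ y, G S.k S.kt n y * (Iio T).indicator (tau κ m Y₂) y := by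
    refine integral_nonneg_of_ae ?_
    filter_upwards [hG] with y hy
    by_cases h : y ∈ Iio T
    · exact mul_nonneg (hy h) (indicator_nonneg (fun _ _ => (tau_pos _ _ _ _).le) _)
    · simp [indicator_of_notMem h]
  have h2 : ∫ y, G S.k S.kt n y * (Iio T).indicator (tau κ m Y₂) y =
      ∑ i, ∫ x, U (S.k i) ((Iio T).indicator (tau κ m Y₂)) x ∂(n i) -
        U S.kt ((Iio T).indicator (tau κ m Y₂)) 0 := by
    rw [Finset.sum_congr rfl fun i _ => (hF i).2.2, ← integral_finsetSum _ fun i _ => (hF i).2.1, U,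
      ← integral_sub (integrable_finsetSum _ fun i _ => (hF i).2.1) hT.2]
    congr 1
    funext y
    rw [G, sub_mul, Finset.sum_mul, zero_sub]
  rw [h2] at h1
  have := (abs_le.1 hT.1).1
  linarith


lemma tauf_pos (κ m a Y₂ y : ℝ) : 0 < tauf κ m a Y₂ y := Real.exp_pos _

lemma continuous_tauf (κ m a Y₂ : ℝ) : Continuous (tauf κ m a Y₂) := by
  unfold tauf
  fun_prop

lemma tauf_le_Y {κ m a Y₂ : ℝ} (ha : 0 ≤ a) (h : 0 ≤ κ + m) (y : ℝ) :
    tauf κ m a Y₂ y ≤ Real.exp ((κ + m) * Y₂) := by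
  apply Real.exp_le_exp.2
  have h1 := mul_le_mul_of_nonneg_left (min_le_right y Y₂) h
  have h2 := mul_nonneg ha (le_max_right (y - Y₂) 0)
  linarith

lemma tauf_le_exp {κ m a Y₂ : ℝ} (ha : 0 ≤ a) (h : 0 ≤ κ + m) {y z : ℝ} (hyz : y ≤ z) :
    tauf κ m a Y₂ y ≤ Real.exp ((κ + m) * z) := by
  apply Real.exp_le_exp.2
  have h1 := mul_le_mul_of_nonneg_left ((min_le_left y Y₂).trans hyz) h
  have h2 := mul_nonneg ha (le_max_right (y - Y₂) 0)
  linarith

lemma tauf_le_tau {κ m a Y₂ : ℝ} (ha : 0 ≤ a) (h : m ≤ κ) (y : ℝ) :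
    tauf κ m a Y₂ y ≤ tau κ m Y₂ y := by
  apply Real.exp_le_exp.2
  have h2 := mul_nonneg ha (le_max_right (y - Y₂) 0)
  have h3 := mul_nonneg (sub_nonneg.2 h) (le_max_right (y - Y₂) 0)
  linarith

lemma tauf_integrable {κ m a Y₂ : ℝ} (ha : 0 ≤ a) (h : 0 ≤ κ + m) (μ : Measure ℝ)
    [IsFiniteMeasure μ] : Integrable (tauf κ m a Y₂) μ := by
  refine Integrable.mono' (integrable_const (Real.exp ((κ + m) * Y₂)))
    (continuous_tauf _ _ _ _).aestronglyMeasurable (Filter.Eventually.of_forall fun x => ?_)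
  rw [Real.norm_eq_abs, abs_of_pos (tauf_pos _ _ _ _ _)]
  exact tauf_le_Y ha h x

open Classical in
theorem r1c {ι : Type} [Fintype ι] (S : Sys ι) {κ m δ K₁ K₉ : ℝ} (hm : 0 < m) (hmκ : m ≤ κ / 4)
    (hb : κ + m < S.b) (hδ : 0 < δ) (hK₁ : 0 < K₁) (hK₉ : 0 < K₉) (hsm : K₁ * m * K₉ ≤ δ / 2) :
    ∃ K T₀ : ℝ, 1 ≤ K ∧ 1 ≤ T₀ ∧ ∀ (T Q Y₂ : ℝ) (n : ι → Measure ℝ), T₀ ≤ T → 1 ≤ Q →
      Q ≤ Real.exp (m * T / 2) → 0 ≤ Y₂ → Y₂ ≤ T / 8 → (∀ i, IsFiniteMeasure (n i)) →
      (∀ᵐ y : ℝ, y < T → 0 ≤ G S.k S.kt n y) → (∀ i, (n i).real univ ≤ Q) →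
      (∀ i x, 0 ≤ x → x ≤ T → (n i).real (Ici x) ≤ Q * Real.exp (-((κ - m / 4) * x))) →
      (∀ i, ¬ S.Crit κ i → ∀ x, U (S.k i) (tau κ m Y₂) x ≤ -(δ * tau κ m Y₂ x)) →
      (∀ i, S.Crit κ i → ∀ x, U (S.k i) (tau κ m Y₂) x ≤ K₁ * m * tauf κ m S.a Y₂ x) →
      (∑ i ∈ Finset.univ.filter (S.Crit κ),
        ∫ x in {x | 1 < x - S.s i}, tauf κ m S.a Y₂ x ∂(n i) ≤
        K₉ * ((∑ i ∈ (Finset.univ.filter (S.Crit κ))ᶜ, ∫ x, tauf κ m S.a Y₂ x ∂(n i)) + 1)) →
      ∑ i, ∫ x, tauf κ m S.a Y₂ x ∂(n i) ≤ K * Q := by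
  have hκ : 0 < κ := by linarith
  have hmκ' : m ≤ κ := by linarith
  have ha := S.ha
  have ha1 := S.r1c_a1
  have hb1 := S.r1c_b1
  have hC := S.hC
  -- constants
  set KE : ℝ := S.C * (3 + 1 / (S.b - κ) + 1 / (S.a - 0)) with hKE
  set Kt : ℝ := S.C * (3 + 1 / (S.b - (κ + m)) + 1 / (S.a - 0)) with hKt
  set Kh : ℝ := Real.exp κ * (1 + Real.exp (m / 4) / (Real.exp (m / 4) - 1)) with hKh
  set nι : ℝ := (Fintype.card ι : ℝ) with hnι
  set E1 : ℝ := Real.exp ((κ + m) * (S.C + 1)) with hE1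
  have hKE0 : 0 ≤ KE := by
    have : 0 < S.b - κ := by linarith
    have : 0 < S.a - 0 := by linarith
    positivity
  have hKt0 : 0 ≤ Kt := by
    have : 0 < S.b - (κ + m) := by linarith
    have : 0 < S.a - 0 := by linarith
    positivity
  have hKh0 : 0 ≤ Kh := by
    have : 1 < Real.exp (m / 4) := Real.one_lt_exp_iff.2 (by linarith)
    have : 0 < Real.exp (m / 4) - 1 := by linarith
    positivity
  have hnι0 : 0 ≤ nι := Nat.cast_nonneg _
  set Kerr : ℝ := nι * (KE * Kh) with hKerr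
  have hKerr0 : 0 ≤ Kerr := by positivity
  set K' : ℝ := nι * Real.exp κ with hK'
  have hK'0 : 0 ≤ K' := by positivity
  -- X ≤ KX * Q
  set KX : ℝ := 2 / δ * (K₁ * m * (nι * E1 + K₉ * (K' + 1)) + Kerr + Kt) with hKX
  have hKX0 : 0 ≤ KX := by positivity
  refine ⟨max 1 (nι * E1 + K₉ * (KX + K' + 1) + KX + K'), 1, le_max_left _ _, le_rfl, ?_⟩
  intro T Q Y₂ n hT hQ hQm hY hYT hn hG hmass hdec hnc hcr hd
  set f : ℝ → ℝ := tauf κ m S.a Y₂ with hf
  set τ : ℝ → ℝ := tau κ m Y₂ with hτ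
  have hfi : ∀ i, Integrable f (n i) := by
    intro i
    have := hn i
    exact tauf_integrable ha.le (by linarith) (n i)
  have hmt : Measurable ((Iio T).indicator τ) :=
    (continuous_tau _ _ _).measurable.indicator measurableSet_Iio
  have hNi : ∀ i, Integrable ((Iio T).indicator τ) (n i) := by
    intro i
    have := hn i
    refine Integrable.mono' (integrable_const (τ T)) hmt.aestronglyMeasurable
      (Filter.Eventually.of_forall fun x => ?_)
    rw [Real.norm_eq_abs]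
    exact r1c_ind_le hm.le hmκ' x
  have hhi : ∀ i, Integrable (fun x => Real.exp (κ * min (x - T) 0)) (n i) := by
    intro i
    have := hn i
    refine Integrable.mono' (integrable_const 1) (by fun_prop) (Filter.Eventually.of_forall fun x => ?_)
    rw [Real.norm_eq_abs, Real.abs_exp, ← Real.exp_zero]
    exact Real.exp_le_exp.2 (mul_nonpos_of_nonneg_of_nonpos hκ.le (min_le_right _ _))
  obtain ⟨hUi, hpos⟩ := r1c_pos S hm.le hmκ' hb hY n hn hG
  -- error terms
  have hτT : τ T ≤ Real.exp ((κ - 3 * m / 4) * T) := r1c_tau_T hm.le hY hYT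
  have hτT0 : 0 < τ T := tau_pos _ _ _ _
  have herr : ∀ i, KE * τ T * ∫ x, Real.exp (κ * min (x - T) 0) ∂(n i) ≤ KE * Kh := by
    intro i
    have := hn i
    have h1 := r1c_h hκ hm (by linarith) (by linarith) (n i) (hmass i) (hdec i)
    have h2 : τ T * (Q * Real.exp (-((κ - m / 4) * T))) ≤ 1 := by
      calc τ T * (Q * Real.exp (-((κ - m / 4) * T))) ≤
          Real.exp ((κ - 3 * m / 4) * T) * (Real.exp (m * T / 2) * Real.exp (-((κ - m / 4) * T))) := by
            gcongr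
        _ = 1 := by
            rw [← Real.exp_add, ← Real.exp_add, ← Real.exp_zero]
            congr 1
            ring
    calc KE * τ T * ∫ x, Real.exp (κ * min (x - T) 0) ∂(n i) ≤
        KE * τ T * (Kh * (Q * Real.exp (-((κ - m / 4) * T)))) :=
          mul_le_mul_of_nonneg_left h1 (by positivity)
      _ = KE * Kh * (τ T * (Q * Real.exp (-((κ - m / 4) * T)))) := by ring
      _ ≤ KE * Kh * 1 := mul_le_mul_of_nonneg_left h2 (by positivity)
      _ = KE * Kh := mul_one _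
  -- each index
  have hncI : ∀ i, ¬ S.Crit κ i → ∫ x, U (S.k i) ((Iio T).indicator τ) x ∂(n i) ≤
      -(δ * ∫ x, (Iio T).indicator τ x ∂(n i)) + KE * Kh := by
    intro i hi
    have h1 : ∫ x, U (S.k i) ((Iio T).indicator τ) x ∂(n i) ≤
        ∫ x, (-δ * (Iio T).indicator τ x + KE * τ T * Real.exp (κ * min (x - T) 0)) ∂(n i) := by
      refine integral_mono (hUi i) (((hNi i).const_mul _).add ((hhi i).const_mul _)) fun x => ?_
      have h2 := r1c_trunc (S.hk i) ha ha1 hb1 hm.le hmκ' hb (by linarith : Y₂ ≤ T) x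
      have h3 : (Iio T).indicator (U (S.k i) (tau κ m Y₂)) x ≤ -δ * (Iio T).indicator τ x := by
        by_cases h : x ∈ Iio T
        · rw [indicator_of_mem h, indicator_of_mem h]
          linarith [hnc i hi x]
        · rw [indicator_of_notMem h, indicator_of_notMem h]
          simp
      simp only
      linarith
    rw [integral_add ((hNi i).const_mul _) ((hhi i).const_mul _), integral_const_mul,
      integral_const_mul] at h1
    linarith [herr i]
  have hcrI : ∀ i, S.Crit κ i → ∫ x, U (S.k i) ((Iio T).indicator τ) x ∂(n i) ≤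
      K₁ * m * ∫ x, f x ∂(n i) + KE * Kh := by
    intro i hi
    have h1 : ∫ x, U (S.k i) ((Iio T).indicator τ) x ∂(n i) ≤
        ∫ x, (K₁ * m * f x + KE * τ T * Real.exp (κ * min (x - T) 0)) ∂(n i) := by
      refine integral_mono (hUi i) (((hfi i).const_mul _).add ((hhi i).const_mul _)) fun x => ?_
      have h2 := r1c_trunc (S.hk i) ha ha1 hb1 hm.le hmκ' hb (by linarith : Y₂ ≤ T) x
      have h3 : (Iio T).indicator (U (S.k i) (tau κ m Y₂)) x ≤ K₁ * m * f x := by
        by_cases h : x ∈ Iio T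
        · rw [indicator_of_mem h]
          exact hcr i hi x
        · rw [indicator_of_notMem h]
          have := tauf_pos κ m S.a Y₂ x
          positivity
      simp only
      linarith
    rw [integral_add ((hfi i).const_mul _) ((hhi i).const_mul _), integral_const_mul,
      integral_const_mul] at h1
    linarith [herr i]
  set A := Finset.univ.filter (S.Crit κ) with hA
  set X : ℝ := ∑ i ∈ Aᶜ, ∫ x, (Iio T).indicator τ x ∂(n i) with hX
  set F : ℝ := ∑ i ∈ A, ∫ x, f x ∂(n i) with hF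
  have hsplit := Finset.sum_add_sum_compl A
    (fun i => ∫ x, U (S.k i) ((Iio T).indicator τ) x ∂(n i))
  have hs1 : ∑ i ∈ A, ∫ x, U (S.k i) ((Iio T).indicator τ) x ∂(n i) ≤
      K₁ * m * F + (A.card : ℝ) * (KE * Kh) := by
    refine (Finset.sum_le_sum fun i hi => hcrI i (Finset.mem_filter.1 hi).2).trans (le_of_eq ?_)
    rw [Finset.sum_add_distrib, ← Finset.mul_sum, Finset.sum_const, nsmul_eq_mul]
  have hs2 : ∑ i ∈ Aᶜ, ∫ x, U (S.k i) ((Iio T).indicator τ) x ∂(n i) ≤
      -(δ * X) + ((Aᶜ).card : ℝ) * (KE * Kh) := by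
    refine (Finset.sum_le_sum fun i hi => hncI i ?_).trans (le_of_eq ?_)
    · intro h
      exact (Finset.mem_compl.1 hi) (Finset.mem_filter.2 ⟨Finset.mem_univ _, h⟩)
    · rw [Finset.sum_add_distrib, Finset.sum_neg_distrib, ← Finset.mul_sum, Finset.sum_const,
        nsmul_eq_mul]
  have hcard : (A.card : ℝ) + ((Aᶜ).card : ℝ) = nι := by
    rw [hnι]
    exact_mod_cast Finset.card_add_card_compl A
  have hmain : δ * X ≤ K₁ * m * F + Kerr + Kt := by
    have h1 : (A.card : ℝ) * (KE * Kh) + ((Aᶜ).card : ℝ) * (KE * Kh) = Kerr := by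
      rw [← add_mul, hcard]
    linarith
  -- F ≤ nι E1 Q + K₉ (X + K' + 1)
  have hAn : (A.card : ℝ) ≤ nι := by
    have := Nat.cast_nonneg (α := ℝ) (Aᶜ).card
    linarith
  have hAn2 : ((Aᶜ).card : ℝ) ≤ nι := by
    have := Nat.cast_nonneg (α := ℝ) A.card
    linarith
  have hFn : ∑ i ∈ Aᶜ, ∫ x, f x ∂(n i) ≤ X + K' := by
    have h1 : ∀ i ∈ Aᶜ, ∫ x, f x ∂(n i) ≤ ∫ x, (Iio T).indicator τ x ∂(n i) + Real.exp κ := by
      intro i _
      have := hn i
      have h2 : ∫ x, f x ∂(n i) ≤ ∫ x, ((Iio T).indicator τ x +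
          (Ici T).indicator (fun _ => Real.exp ((κ + m) * Y₂)) x) ∂(n i) := by
        refine integral_mono (hfi i) ((hNi i).add ((integrable_const _).indicator measurableSet_Ici))
          fun x => ?_
        by_cases h : x ∈ Iio T
        · have h' : x ∉ Ici T := by simpa using h
          simp only [indicator_of_mem h, indicator_of_notMem h', add_zero]
          exact tauf_le_tau ha.le hmκ' x
        · have h' : x ∈ Ici T := by simpa using h
          simp only [indicator_of_notMem h, indicator_of_mem h', zero_add]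
          exact tauf_le_Y ha.le (by linarith) x
      rw [integral_add (hNi i) ((integrable_const _).indicator measurableSet_Ici),
        integral_indicator_const _ measurableSet_Ici, smul_eq_mul] at h2
      have h3 := hdec i T (by linarith) le_rfl
      have h4 : (n i).real (Ici T) * Real.exp ((κ + m) * Y₂) ≤ Real.exp κ := by
        calc (n i).real (Ici T) * Real.exp ((κ + m) * Y₂) ≤
            (Real.exp (m * T / 2) * Real.exp (-((κ - m / 4) * T))) * Real.exp ((κ + m) * (T / 8)) := by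
              gcongr
              refine h3.trans ?_
              gcongr
          _ ≤ Real.exp κ := by
              rw [← Real.exp_add, ← Real.exp_add]
              apply Real.exp_le_exp.2
              have e : m * T / 2 + -((κ - m / 4) * T) + (κ + m) * (T / 8) =
                  -(7 / 8 * ((κ - m) * T)) := by ring
              rw [e]
              have h0 : 0 ≤ (κ - m) * T := mul_nonneg (sub_nonneg.2 hmκ') (by linarith)
              linarith
      linarith
    refine (Finset.sum_le_sum h1).trans ?_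
    rw [Finset.sum_add_distrib, Finset.sum_const, nsmul_eq_mul]
    have := mul_le_mul_of_nonneg_right hAn2 (Real.exp_pos κ).le
    linarith
  have hFc : F ≤ nι * E1 * Q + K₉ * (X + K' + 1) := by
    have h1 : ∀ i ∈ A, ∫ x, f x ∂(n i) ≤ E1 * Q + ∫ x in {x | 1 < x - S.s i}, f x ∂(n i) := by
      intro i _
      have := hn i
      have hms : MeasurableSet {x : ℝ | 1 < x - S.s i} :=
        measurableSet_lt measurable_const (measurable_id.sub_const _)
      rw [← integral_add_compl hms (hfi i)]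
      have h2 : ∫ x in {x | 1 < x - S.s i}ᶜ, f x ∂(n i) ≤ ∫ _x in {x | 1 < x - S.s i}ᶜ, E1 ∂(n i) := by
        refine setIntegral_mono_on (hfi i).integrableOn (integrable_const _).integrableOn hms.compl
          fun x hx => ?_
        have hx' : x - S.s i ≤ 1 := by simpa using hx
        exact tauf_le_exp ha.le (by linarith) (by linarith [(abs_le.1 (S.hs i)).2])
      rw [setIntegral_const, smul_eq_mul] at h2
      have h3 : (n i).real {x | 1 < x - S.s i}ᶜ ≤ Q :=
        (measureReal_mono (subset_univ _)).trans (hmass i)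
      have h4 := mul_le_mul_of_nonneg_right h3 (Real.exp_pos ((κ + m) * (S.C + 1))).le
      linarith
    refine (Finset.sum_le_sum h1).trans ?_
    rw [Finset.sum_add_distrib, Finset.sum_const, nsmul_eq_mul]
    have h5 : (A.card : ℝ) * (E1 * Q) ≤ nι * (E1 * Q) :=
      mul_le_mul_of_nonneg_right hAn (by positivity)
    have h6 := mul_le_mul_of_nonneg_left hFn hK₉.le
    linarith
  have hX0 : 0 ≤ X := by
    refine Finset.sum_nonneg fun i _ => integral_nonneg fun x => ?_
    exact indicator_nonneg (fun _ _ => (tau_pos _ _ _ _).le) _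
  have hXQ : X ≤ KX * Q := by
    have h1 : K₁ * m * F ≤ K₁ * m * (nι * E1 * Q + K₉ * (X + K' + 1)) :=
      mul_le_mul_of_nonneg_left hFc (by positivity)
    have h2 : K₁ * m * K₉ * X ≤ δ / 2 * X := mul_le_mul_of_nonneg_right hsm hX0
    have h3 : δ / 2 * X ≤ (K₁ * m * (nι * E1 + K₉ * (K' + 1)) + Kerr + Kt) * Q := by
      have h4 : 0 ≤ K₁ * m * (K₉ * (K' + 1)) * (Q - 1) := by
        have : 0 ≤ Q - 1 := by linarith
        positivity
      have h5 : 0 ≤ (Kerr + Kt) * (Q - 1) := by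
        have : 0 ≤ Q - 1 := by linarith
        positivity
      linarith
    have h6 : X = 2 / δ * (δ / 2 * X) := by
      field_simp
    rw [h6, hKX, mul_assoc (2 / δ)]
    exact mul_le_mul_of_nonneg_left h3 (by positivity)
  have hfinal := Finset.sum_add_sum_compl A (fun i => ∫ x, f x ∂(n i))
  rw [← hfinal]
  have h7 : F + ∑ i ∈ Aᶜ, ∫ x, f x ∂(n i) ≤ (nι * E1 + K₉ * (KX + K' + 1) + KX + K') * Q := by
    have h8 : K₉ * (X + K' + 1) ≤ K₉ * (KX * Q + (K' + 1) * Q) := by
      apply mul_le_mul_of_nonneg_left _ hK₉.le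
      have : 0 ≤ (K' + 1) * (Q - 1) := mul_nonneg (by linarith) (by linarith)
      linarith
    have h9 : K' ≤ K' * Q := le_mul_of_one_le_right hK'0 hQ
    linarith
  exact h7.trans (mul_le_mul_of_nonneg_right (le_max_right _ _) (by linarith))

end INDB
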