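import Pool.Agent.INDB.RDefs

/-!
# INDB, module R1d: repair on the right with an exponential profile on a critical ray

PROOF. `β` critical, `k = k_β`, `κ' = κ + m/2 < b`. `c₅ = (1/2) ∫ k u e^{-κ' u} du > 0` (sign pattern `(+,-)`: `∫ k u e^{-κ'(u-s)} > ∫ k u e^{-κ(u-s)} = 0`). Let `y₀ ≥ 0` be such that `∫_{u ≤ -y} |k u| e^{-κ' u} du ≤ c₅` for `y ≥ y₀`.
Let `f = tauf κ m a Y₂`, `∑ ∫ f dn_i ≤ B`, `B ≥ 1`, `y₀ + 1 ≤ Y₂ < T`, `q = K₆ B e^{-(m/2) Y₂}`, `n''_i` = `n_i` restricted to `Iic (Y₂ - 1)`, plus at the index `β` the measure `q e^{-κ' x} 1_{x>0} dx` (finite). For a.e. `y` everything is integrable.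
The added term is `A(y) = q ∫_0^∞ k(x-y) e^{-κ' x} dx = q e^{-κ' y} ∫_{u>-y} k u e^{-κ' u} du`. For `y ≥ y₀`: `A(y) ≥ c₅ q e^{-κ' y}`. For `y < y₀`: `|A(y)| ≤ q ∫_{u>-y} |k u| du ≤ K q w(-y)`.
(i) `y ≤ Y₂` (so `y < T`): `G n'' y = G n y - ∑ ∫_{x>Y₂-1} k_i(x-y) dn_i + A(y)`, `k_i(x-y) ≤ C w(x-y) ≤ C e² e^{-(κ+m) Y₂} f(x) e^{-a(Y₂-y)}` for `x > Y₂ - 1` (`x ≥ Y₂`: `w(x-y) = e^{-a(x-Y₂)} e^{-a(Y₂-y)}`; `x ∈ (Y₂-1,Y₂)`: `w_shift`). So the removed part is
  `≤ C e² B e^{-(κ+m)Y₂} e^{-a(Y₂-y)}`. If `y < y₀`: this is `≤ K B e^{-(κ+m) Y₂} w(-y)` and `|A(y)| ≤ K q w(-y)`: total loss `≤ K₇ B e^{-(m/2)Y₂} w(-y) ≤ (η/2) w(-y)` by hypothesis (`K ≥ 2 K₇`). If `y₀ ≤ y ≤ Y₂`: `A(y) ≥ c₅ K₆ B e^{-(m/2)Y₂ - κ' Y₂} = c₅ K₆ B e^{-(κ+m)Y₂}`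
  `≥ C e² B e^{-(κ+m)Y₂}`, so `G n'' y ≥ η w(-y)`.
(ii) `y > Y₂`: only the retained masses `x ≤ Y₂ - 1`, `x - y ≤ -1`: `∑ ∫ k_i(x-y) dn_i ≥ -C e^{-b y} ∑ ∫_{x ≤ Y₂} e^{b x} dn_i ≥ -C e^{-b y} e^{(b-κ-m) Y₂} B`, `-kt(-y) ≥ -C e^{-b y}`, and `A(y) ≥ c₅ K₆ B e^{-(m/2) Y₂ - κ' y}`, where
  `e^{-b y + (b-κ-m)Y₂} = e^{-(m/2)Y₂ - κ' y} e^{-(b-κ')(y-Y₂)}`. With `c₅ K₆ ≥ C e² + 3 C`: `G n'' y ≥ C B e^{-(m/2)Y₂} e^{-κ' y} ≥ C B e^{-(m/2) Y₂} w(-y)`.
So `n''` is a strict certificate.
-/

open MeasureTheory Set Filter Topology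

namespace INDB

variable {a b c C : ℝ} {k : ℝ → ℝ}

private lemma r1d_int (hk : Kern a b C k) {κ : ℝ} (h0 : 0 < κ) (hκ : κ < b) (ha : 0 < a) :
    Integrable (fun u => k u * Real.exp (-(κ * u))) := by
  have h := hk.integrable_exp (κ := -κ) (by linarith) (by linarith)
  refine h.congr (Eventually.of_forall fun u => ?_)
  simp only [neg_mul]

/-- Positivity of the integral with a larger rate. -/
private lemma r1d_pos {s κ m : ℝ} (ha : 0 < a) (hc : 0 < c) (hk : Kern a b C k)
    (hp : PatPM a b c s k) (hκ : 0 < κ) (hm : 0 < m) (hκb : κ + m < b)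
    (h0 : ∫ u, k u * Real.exp (-(κ * u)) = 0) :
    0 < ∫ u, k u * Real.exp (-((κ + m / 2) * u)) := by
  have i1 := r1d_int hk hκ (by linarith) ha
  have i2 := r1d_int hk (κ := κ + m / 2) (by linarith) (by linarith) ha
  have i3 : Integrable (fun u => k u * Real.exp (-((κ + m / 2) * u)) -
      Real.exp (-(m / 2 * s)) * (k u * Real.exp (-(κ * u)))) := i2.sub (i1.const_mul _)
  have hD : ∀ u, k u * Real.exp (-((κ + m / 2) * u)) -
      Real.exp (-(m / 2 * s)) * (k u * Real.exp (-(κ * u))) =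
      k u * (Real.exp (-(m / 2 * u)) - Real.exp (-(m / 2 * s))) * Real.exp (-(κ * u)) := by
    intro u
    have h1 : Real.exp (-((κ + m / 2) * u)) = Real.exp (-(m / 2 * u)) * Real.exp (-(κ * u)) := by
      rw [← Real.exp_add]
      congr 1
      ring
    rw [h1]
    ring
  have hnn : 0 ≤ fun u => k u * Real.exp (-((κ + m / 2) * u)) -
      Real.exp (-(m / 2 * s)) * (k u * Real.exp (-(κ * u))) := by
    intro u
    change 0 ≤ k u * Real.exp (-((κ + m / 2) * u)) -
      Real.exp (-(m / 2 * s)) * (k u * Real.exp (-(κ * u)))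
    rw [hD]
    refine mul_nonneg ?_ (Real.exp_pos _).le
    rcases le_total u s with h | h
    · refine mul_nonneg (hp.left u h) (sub_nonneg.2 (Real.exp_le_exp.2 ?_))
      nlinarith
    · refine mul_nonneg_of_nonpos_of_nonpos (hp.right u h) (sub_nonpos.2 (Real.exp_le_exp.2 ?_))
      nlinarith
  have hpos : 0 < ∫ u, (k u * Real.exp (-((κ + m / 2) * u)) -
      Real.exp (-(m / 2 * s)) * (k u * Real.exp (-(κ * u)))) := by
    rw [integral_pos_iff_support_of_nonneg hnn i3]
    have h1 : Icc (s - 2) (s - 1) ⊆ Function.support fun u =>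
        k u * Real.exp (-((κ + m / 2) * u)) -
          Real.exp (-(m / 2 * s)) * (k u * Real.exp (-(κ * u))) := by
      intro u hu
      have hu1 : u ≤ s - 1 := hu.2
      rw [Function.mem_support, hD]
      have h2 : 0 < k u := lt_of_lt_of_le (mul_pos hc (w_pos a b u)) (hp.lower u hu1)
      have h3 : Real.exp (-(m / 2 * s)) < Real.exp (-(m / 2 * u)) := by
        refine Real.exp_lt_exp.2 ?_
        nlinarith
      have h4 : 0 < k u * (Real.exp (-(m / 2 * u)) - Real.exp (-(m / 2 * s))) *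
          Real.exp (-(κ * u)) := mul_pos (mul_pos h2 (sub_pos.2 h3)) (Real.exp_pos _)
      exact h4.ne'
    refine lt_of_lt_of_le ?_ (measure_mono h1)
    rw [Real.volume_Icc]
    simp
  rw [integral_sub i2 (i1.const_mul _), integral_const_mul, h0, mul_zero, sub_zero] at hpos
  exact hpos

/-- The tail of the kernel on the left. -/
private lemma r1d_tail (ha : 0 < a) (hk : Kern a b C k) {κ : ℝ} (h0 : 0 < κ) (hκ : κ < b) {y : ℝ}
    (hy : 0 ≤ y) : ∫ u in Iic (-y), k u * Real.exp (-(κ * u)) ≤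
      C / (b - κ) * Real.exp (-((b - κ) * y)) := by
  have h1 : ∫ u in Iic (-y), k u * Real.exp (-(κ * u)) ≤
      ∫ u in Iic (-y), C * Real.exp ((b - κ) * u) := by
    refine setIntegral_mono_on (r1d_int hk h0 hκ ha).integrableOn
      ((integrableOn_exp_mul_Iic (by linarith) _).const_mul C) measurableSet_Iic fun u hu => ?_
    have hu1 : u ≤ -y := hu
    have h2 := hk.up u
    rw [w_nonpos_eq (by linarith)] at h2
    calc k u * Real.exp (-(κ * u)) ≤ C * Real.exp (b * u) * Real.exp (-(κ * u)) :=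
          mul_le_mul_of_nonneg_right h2 (Real.exp_pos _).le
      _ = C * Real.exp ((b - κ) * u) := by
          rw [mul_assoc, ← Real.exp_add]
          congr 2
          ring
  refine h1.trans (le_of_eq ?_)
  rw [integral_const_mul, integral_exp_mul_Iic (by linarith)]
  have h3 : (b - κ) * -y = -((b - κ) * y) := by ring
  rw [h3]
  ring

/-- Substitution. -/
private lemma r1d_subst (k : ℝ → ℝ) (κ y : ℝ) : ∫ x in Ioi (0 : ℝ), k (x - y) * Real.exp (-(κ * x)) =
    Real.exp (-(κ * y)) * ∫ u in Ioi (-y), k u * Real.exp (-(κ * u)) := by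
  rw [← integral_indicator measurableSet_Ioi, ← integral_indicator measurableSet_Ioi,
    ← integral_const_mul, ← integral_sub_right_eq_self (fun u => Real.exp (-(κ * y)) *
      (Ioi (-y)).indicator (fun u => k u * Real.exp (-(κ * u))) u) y]
  refine integral_congr_ae (Eventually.of_forall fun x => ?_)
  simp only [indicator, mem_Ioi]
  by_cases h : 0 < x
  · rw [if_pos h, if_pos (by linarith)]
    have h1 : Real.exp (-(κ * x)) = Real.exp (-(κ * y)) * Real.exp (-(κ * (x - y))) := by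
      rw [← Real.exp_add]
      congr 1
      ring
    rw [h1]
    ring
  · rw [if_neg h, if_neg (by linarith), mul_zero]

private lemma r1d_intexp (hk : Kern a b C k) (ha : 0 < a) (hb : 0 < b) {κ : ℝ} (h0 : 0 < κ)
    (y : ℝ) : IntegrableOn (fun x => k (x - y) * Real.exp (-(κ * x))) (Ioi 0) := by
  have h1 : IntegrableOn (fun x => k (x - y)) (Ioi 0) :=
    ((hk.integrable ha hb).comp_sub_right y).integrableOn
  refine Integrable.mono' h1.norm ?_ ?_
  · exact h1.aestronglyMeasurable.mul (by fun_prop : Measurable fun x : ℝ =>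
      Real.exp (-(κ * x))).aestronglyMeasurable
  · refine (ae_restrict_mem measurableSet_Ioi).mono fun x hx => ?_
    have hx1 : 0 < x := hx
    rw [norm_mul, Real.norm_eq_abs (Real.exp _), abs_of_pos (Real.exp_pos _)]
    have h2 : Real.exp (-(κ * x)) ≤ 1 := by
      rw [Real.exp_le_one_iff]
      have := mul_pos h0 hx1
      linarith
    exact mul_le_of_le_one_right (norm_nonneg _) h2

/-- Bound of the added term near and to the left of the origin. -/
private lemma r1d_left (hk : Kern a b C k) (ha : 0 < a) (hb : 0 < b) (hab : a + b = 1)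
    (hC : 0 ≤ C) {κ y₀ y : ℝ} (h0 : 0 < κ) (hy₀ : 0 ≤ y₀) (hy : y ≤ y₀) :
    |∫ x in Ioi (0 : ℝ), k (x - y) * Real.exp (-(κ * x))| ≤
      C * (1 + 1 / a + 1 / b) * Real.exp (1 + y₀) * w a b (-y) := by
  have h1 : |∫ x in Ioi (0 : ℝ), k (x - y) * Real.exp (-(κ * x))| ≤
      ∫ x in Ioi (0 : ℝ), |k (x - y)| := by
    refine (abs_integral_le_integral_abs).trans ?_
    refine setIntegral_mono_on (r1d_intexp hk ha hb h0 y).abs
      ((hk.integrable ha hb).comp_sub_right y).integrableOn.abs measurableSet_Ioi fun x hx => ?_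
    have hx1 : 0 < x := hx
    rw [abs_mul, abs_of_pos (Real.exp_pos _)]
    have h2 : Real.exp (-(κ * x)) ≤ 1 := by
      rw [Real.exp_le_one_iff]
      have := mul_pos h0 hx1
      linarith
    exact mul_le_of_le_one_right (abs_nonneg _) h2
  have hia : 0 < 1 / a := by positivity
  have hib : 0 < 1 / b := by positivity
  have hS : 0 ≤ C * (1 + 1 / a + 1 / b) := by positivity
  rcases le_or_gt y (-1) with h | h
  · -- to the left
    have h2 : ∫ x in Ioi (0 : ℝ), |k (x - y)| ≤
        ∫ x in Ioi (0 : ℝ), C * Real.exp (a * y) * Real.exp (-a * x) := by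
      refine setIntegral_mono_on ((hk.integrable ha hb).comp_sub_right y).integrableOn.abs
        ((integrableOn_exp_mul_Ioi (by linarith) _).const_mul _) measurableSet_Ioi fun x hx => ?_
      have hx1 : 0 < x := hx
      have h3 := hk.abs (x - y) (by rw [abs_of_pos] <;> linarith)
      rw [w_nonneg_eq (by linarith)] at h3
      refine h3.trans (le_of_eq ?_)
      rw [mul_assoc, ← Real.exp_add]
      congr 2
      ring
    rw [integral_const_mul, integral_exp_mul_Ioi (by linarith)] at h2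
    refine (h1.trans h2).trans ?_
    rw [w_nonneg_eq (by linarith)]
    have h4 : Real.exp (-(a * -y)) = Real.exp (a * y) := by
      congr 1
      ring
    rw [h4]
    have h5 : C * Real.exp (a * y) * (-Real.exp (-a * 0) / -a) =
        C * (1 / a) * Real.exp (a * y) := by
      rw [mul_zero, Real.exp_zero]
      field_simp
    rw [h5]
    have h6 : (1 : ℝ) ≤ Real.exp (1 + y₀) := Real.one_le_exp (by linarith)
    have h7 : C * (1 / a) ≤ C * (1 + 1 / a + 1 / b) * Real.exp (1 + y₀) := by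
      calc C * (1 / a) ≤ C * (1 + 1 / a + 1 / b) :=
            mul_le_mul_of_nonneg_left (by linarith) hC
        _ ≤ C * (1 + 1 / a + 1 / b) * Real.exp (1 + y₀) := le_mul_of_one_le_right hS h6
    exact mul_le_mul_of_nonneg_right h7 (Real.exp_pos _).le
  · have h2 : ∫ x in Ioi (0 : ℝ), |k (x - y)| ≤ C * (1 + 1 / a + 1 / b) := by
      have h3 : ∫ x in Ioi (0 : ℝ), |k (x - y)| ≤ ∫ x, |k (x - y)| :=
        setIntegral_le_integral ((hk.integrable ha hb).comp_sub_right y).abs
          (Eventually.of_forall fun x => abs_nonneg _)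
      have h4 : ∫ x, |k (x - y)| = ∫ u, |k u| := integral_sub_right_eq_self (fun u => |k u|) y
      rw [h4] at h3
      exact h3.trans (hk.int_abs_le ha hb)
    refine (h1.trans h2).trans ?_
    have h4 : Real.exp (-(1 + y₀)) ≤ w a b (-y) := by
      unfold w
      refine Real.exp_le_exp.2 ?_
      have h5 : max (-y) 0 ≤ 1 := max_le (by linarith) (by norm_num)
      have h6 : max (- -y) 0 ≤ y₀ := max_le (by linarith) hy₀
      have h7 : 0 ≤ max (-y) 0 := le_max_right _ _
      have h8 : 0 ≤ max (- -y) 0 := le_max_right _ _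
      nlinarith
    calc C * (1 + 1 / a + 1 / b) = C * (1 + 1 / a + 1 / b) * Real.exp (1 + y₀) *
          Real.exp (-(1 + y₀)) := by
          rw [mul_assoc, ← Real.exp_add, add_neg_cancel, Real.exp_zero, mul_one]
      _ ≤ _ := mul_le_mul_of_nonneg_left h4 (by positivity)

/-- The exponential density. -/
private noncomputable def r1dE (q κ : ℝ) : Measure ℝ :=
  (volume.restrict (Ioi 0)).withDensity fun x => ENNReal.ofReal (q * Real.exp (-(κ * x)))

private lemma r1dE_finite (q : ℝ) {κ : ℝ} (h0 : 0 < κ) : IsFiniteMeasure (r1dE q κ) := by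
  unfold r1dE
  refine isFiniteMeasure_withDensity_ofReal ?_
  have h1 : Integrable (fun x => q * Real.exp (-κ * x)) (volume.restrict (Ioi 0)) :=
    (integrableOn_exp_mul_Ioi (by linarith) 0).const_mul q
  have h2 := h1.2
  simp only [neg_mul] at h2
  exact h2

private lemma r1dE_int (hk : Kern a b C k) (ha : 0 < a) (hb : 0 < b) {q κ : ℝ} (hq : 0 ≤ q)
    (h0 : 0 < κ) (y : ℝ) : Integrable (fun x => k (x - y)) (r1dE q κ) ∧
      ∫ x, k (x - y) ∂(r1dE q κ) =
        q * ∫ x in Ioi (0 : ℝ), k (x - y) * Real.exp (-(κ * x)) := by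
  have hm : Measurable fun x : ℝ => ENNReal.ofReal (q * Real.exp (-(κ * x))) := by fun_prop
  have ht : ∀ᵐ x ∂(volume.restrict (Ioi (0 : ℝ))),
      ENNReal.ofReal (q * Real.exp (-(κ * x))) < ⊤ :=
    Eventually.of_forall fun x => ENNReal.ofReal_lt_top
  have he : ∀ x : ℝ, (ENNReal.ofReal (q * Real.exp (-(κ * x)))).toReal • k (x - y) =
      q * (k (x - y) * Real.exp (-(κ * x))) := by
    intro x
    rw [ENNReal.toReal_ofReal (mul_nonneg hq (Real.exp_pos _).le), smul_eq_mul]
    ring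
  constructor
  · unfold r1dE
    rw [integrable_withDensity_iff_integrable_smul' hm ht]
    simp only [he]
    exact (r1d_intexp hk ha hb h0 y).const_mul q
  · unfold r1dE
    rw [integral_withDensity_eq_integral_toReal_smul hm ht]
    simp only [he]
    exact integral_const_mul q _

private lemma tauf_pos (κ m a Y x : ℝ) : 0 < tauf κ m a Y x := Real.exp_pos _

private lemma tauf_int {κ m a Y : ℝ} (hκ : 0 < κ + m) (ha : 0 < a) (μ : Measure ℝ)
    [IsFiniteMeasure μ] : Integrable (tauf κ m a Y) μ := by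
  have hm : Measurable (tauf κ m a Y) := by
    unfold tauf
    fun_prop
  refine (integrable_const (Real.exp ((κ + m) * Y))).mono' hm.aestronglyMeasurable
    (Eventually.of_forall fun x => ?_)
  rw [Real.norm_eq_abs, abs_of_pos (tauf_pos κ m a Y x)]
  unfold tauf
  refine Real.exp_le_exp.2 ?_
  have h1 := mul_le_mul_of_nonneg_left (min_le_right x Y) hκ.le
  have h2 := mul_nonneg ha.le (le_max_right (x - Y) 0)
  linarith

/-- The weight is bounded by the test function to the right of `Y - 1`. -/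
private lemma r1d_w {κ m Y x y : ℝ} (ha : 0 < a) (hb : 0 < b) (hab : a + b = 1) (hκ : 0 < κ + m)
    (hκ1 : κ + m < b) (hx : Y - 1 < x) (hy : y ≤ Y) :
    w a b (x - y) ≤ Real.exp 2 * Real.exp (-((κ + m) * Y)) * Real.exp (-(a * (Y - y))) *
      tauf κ m a Y x := by
  have ha1 : a ≤ 1 := by linarith
  have hb1 : b ≤ 1 := by linarith
  rcases le_total Y x with h | h
  · rw [w_nonneg_eq (by linarith)]
    unfold tauf
    rw [min_eq_right h, max_eq_left (by linarith), ← Real.exp_add, ← Real.exp_add,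
      ← Real.exp_add]
    refine Real.exp_le_exp.2 ?_
    nlinarith
  · have h1 := w_shift ha.le hb.le ha1 hb1 (Y - y) (x - Y)
    have h2 : Y - y + (x - Y) = x - y := by ring
    rw [h2, w_nonneg_eq (by linarith : 0 ≤ Y - y), abs_of_nonpos (by linarith)] at h1
    refine h1.trans ?_
    unfold tauf
    rw [min_eq_left h, max_eq_right (by linarith), ← Real.exp_add, ← Real.exp_add,
      ← Real.exp_add, ← Real.exp_add]
    refine Real.exp_le_exp.2 ?_
    nlinarith

theorem r1d {ι : Type} [Fintype ι] (S : Sys ι) {κ m : ℝ} (hκ : S.CritRate κ) (hm : 0 < m)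
    (hb : κ + m < S.b) :
    ∃ K Y₀ : ℝ, 1 ≤ K ∧ 1 ≤ Y₀ ∧ ∀ (T Y₂ B η : ℝ) (n : ι → Measure ℝ), Y₀ ≤ Y₂ → Y₂ < T → 1 ≤ B →
      0 < η → (∀ i, IsFiniteMeasure (n i)) →
      (∀ᵐ y : ℝ, y < T → η * w S.a S.b (-y) ≤ G S.k S.kt n y) →
      ∑ i, ∫ x, tauf κ m S.a Y₂ x ∂(n i) ≤ B → K * B * Real.exp (-(m / 2 * Y₂)) ≤ η →
      S.Strict := by
  classical
  obtain ⟨⟨β, hβP, hβκ⟩, -, hκ0, hκb⟩ := hκ
  have ha := S.ha
  have hb0 := S.hb
  have hab := S.hab
  have hc := S.hc
  have hC1 := S.hC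
  have hC0 : 0 < S.C := by linarith
  have ha1 : S.a ≤ 1 := by linarith
  have hb1 : S.b ≤ 1 := by linarith
  have hint0 := S.intP β hβP
  rw [hβκ] at hint0
  have hpos := r1d_pos ha hc (S.hk β) (S.patP β hβP) hκ0 hm hb hint0
  have hκm : 0 < κ + m := by linarith
  obtain ⟨κ', hκ'⟩ : ∃ κ', κ' = κ + m / 2 := ⟨_, rfl⟩
  rw [← hκ'] at hpos
  have hκ'0 : 0 < κ' := by linarith
  have hκ'b : κ' < S.b := by linarith
  obtain ⟨c5, hc5⟩ : ∃ c5, c5 = (∫ u, S.k β u * Real.exp (-(κ' * u))) / 2 := ⟨_, rfl⟩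
  have hc5p : 0 < c5 := by rw [hc5]; linarith
  -- the threshold `y₀`
  obtain ⟨y₀, hy₀0, hy₀⟩ : ∃ y₀, 0 ≤ y₀ ∧
      S.C / (S.b - κ') * Real.exp (-((S.b - κ') * y₀)) ≤ c5 := by
    have hbk : 0 < S.b - κ' := by linarith
    refine ⟨S.C / (S.b - κ') / c5 / (S.b - κ'), by positivity, ?_⟩
    have h1 : (S.b - κ') * (S.C / (S.b - κ') / c5 / (S.b - κ')) = S.C / (S.b - κ') / c5 := by
      field_simp
    rw [h1, Real.exp_neg, ← div_eq_mul_inv, div_le_iff₀ (Real.exp_pos _)]
    have h2 := Real.add_one_le_exp (S.C / (S.b - κ') / c5)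
    have h3 : S.C / (S.b - κ') = c5 * (S.C / (S.b - κ') / c5) := by field_simp
    calc S.C / (S.b - κ') = c5 * (S.C / (S.b - κ') / c5) := h3
      _ ≤ c5 * Real.exp (S.C / (S.b - κ') / c5) :=
        mul_le_mul_of_nonneg_left (by linarith) hc5p.le
  have hA : ∀ y, y₀ ≤ y → c5 * Real.exp (-(κ' * y)) ≤
      ∫ x in Ioi (0 : ℝ), S.k β (x - y) * Real.exp (-(κ' * x)) := by
    intro y hy
    rw [r1d_subst, mul_comm]
    refine mul_le_mul_of_nonneg_left ?_ (Real.exp_pos _).le
    have h1 := integral_add_compl (s := Iic (-y)) measurableSet_Iic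
      (r1d_int (S.hk β) hκ'0 hκ'b ha)
    rw [compl_Iic] at h1
    have h2 := r1d_tail ha (S.hk β) hκ'0 hκ'b (hy₀0.trans hy)
    have h3 : S.C / (S.b - κ') * Real.exp (-((S.b - κ') * y)) ≤
        S.C / (S.b - κ') * Real.exp (-((S.b - κ') * y₀)) := by
      have hbk : 0 < S.b - κ' := by linarith
      exact mul_le_mul_of_nonneg_left (Real.exp_le_exp.2 (neg_le_neg
        (mul_le_mul_of_nonneg_left hy hbk.le))) (by positivity)
    linarith
  -- the constants
  obtain ⟨K6, hK6⟩ : ∃ K6, K6 = (S.C * Real.exp 2 + 3 * S.C) / c5 := ⟨_, rfl⟩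
  have hK6p : 0 < K6 := by rw [hK6]; positivity
  have hK6c : c5 * K6 = S.C * Real.exp 2 + 3 * S.C := by
    rw [hK6]
    field_simp
  obtain ⟨KA, hKA⟩ : ∃ KA, KA = S.C * (1 + 1 / S.a + 1 / S.b) * Real.exp (1 + y₀) := ⟨_, rfl⟩
  have hKAp : 0 < KA := by
    rw [hKA]
    have : 0 < 1 / S.a := by positivity
    have : 0 < 1 / S.b := by positivity
    positivity
  obtain ⟨K7, hK7⟩ : ∃ K7, K7 = S.C * Real.exp (2 + y₀) + KA * K6 := ⟨_, rfl⟩
  have hK7p : 0 < K7 := by rw [hK7]; positivity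
  refine ⟨max 1 (2 * K7), y₀ + 1, le_max_left _ _, by linarith, ?_⟩
  intro T Y₂ B η n hY hT hB hη hn hsl hf hK
  have hB0 : 0 < B := by linarith
  obtain ⟨E, hE⟩ : ∃ E, E = Real.exp (-(m / 2 * Y₂)) := ⟨_, rfl⟩
  have hEp : 0 < E := by rw [hE]; exact Real.exp_pos _
  rw [← hE] at hK
  have hK' : 2 * K7 * B * E ≤ η := by
    refine le_trans ?_ hK
    have h1 : 2 * K7 ≤ max 1 (2 * K7) := le_max_right _ _
    gcongr
  obtain ⟨q, hq⟩ : ∃ q, q = K6 * B * E := ⟨_, rfl⟩
  have hq0 : 0 < q := by rw [hq]; positivity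
  have hqc : c5 * q = (S.C * Real.exp 2 + 3 * S.C) * B * E := by
    rw [hq, ← hK6c]
    ring
  have hfin : ∀ i, IsFiniteMeasure ((n i).restrict (Iic (Y₂ - 1)) +
      if i = β then r1dE q κ' else 0) := by
    intro i
    have := hn i
    have : IsFiniteMeasure (if i = β then r1dE q κ' else 0) := by
      split_ifs
      · exact r1dE_finite q hκ'0
      · infer_instance
    infer_instance
  refine ⟨min (η / 2) (S.C * B * E), fun i => (n i).restrict (Iic (Y₂ - 1)) +
      if i = β then r1dE q κ' else 0, lt_min (by linarith) (by positivity), hfin, ?_⟩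
  filter_upwards [ae_integrable_all S.hk ha hb0 n hn, hsl] with y hy hs
  obtain ⟨A, hAd⟩ : ∃ A, A = ∫ x in Ioi (0 : ℝ), S.k β (x - y) * Real.exp (-(κ' * x)) := ⟨_, rfl⟩
  have hG' : G S.k S.kt (fun i => (n i).restrict (Iic (Y₂ - 1)) +
      if i = β then r1dE q κ' else 0) y =
      ∑ i, ∫ x in Iic (Y₂ - 1), S.k i (x - y) ∂(n i) + q * A - S.kt (-y) := by
    unfold G
    congr 1
    have h1 : ∀ i, ∫ x, S.k i (x - y) ∂((n i).restrict (Iic (Y₂ - 1)) +
        if i = β then r1dE q κ' else 0) =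
        (∫ x in Iic (Y₂ - 1), S.k i (x - y) ∂(n i)) + if i = β then q * A else 0 := by
      intro i
      by_cases hij : i = β
      · rw [if_pos hij, if_pos hij, integral_add_measure (hy i).restrict
          (r1dE_int (S.hk i) ha hb0 hq0.le hκ'0 y).1,
          (r1dE_int (S.hk i) ha hb0 hq0.le hκ'0 y).2, hAd, hij]
      · rw [if_neg hij, if_neg hij, add_zero, add_zero]
    rw [Finset.sum_congr rfl fun i _ => h1 i, Finset.sum_add_distrib, Finset.sum_ite_eq',
      if_pos (Finset.mem_univ β)]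
  have hG : G S.k S.kt n y = ∑ i, ∫ x in Iic (Y₂ - 1), S.k i (x - y) ∂(n i) +
      ∑ i, ∫ x in (Iic (Y₂ - 1))ᶜ, S.k i (x - y) ∂(n i) - S.kt (-y) := by
    unfold G
    congr 1
    rw [← Finset.sum_add_distrib]
    exact Finset.sum_congr rfl fun i _ => (integral_add_compl measurableSet_Iic (hy i)).symm
  have hw := w_pos S.a S.b (-y)
  have hfi : ∀ i, Integrable (tauf κ m S.a Y₂) (n i) := fun i => by
    have := hn i
    exact tauf_int hκm ha (n i)
  rw [hG']
  rcases le_or_gt y Y₂ with hyY | hyY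
  · -- to the left of `Y₂`
    have hs1 := hs (by linarith)
    rw [hG] at hs1
    obtain ⟨D, hD⟩ : ∃ D, D = S.C * (Real.exp 2 * Real.exp (-((κ + m) * Y₂)) *
      Real.exp (-(S.a * (Y₂ - y)))) := ⟨_, rfl⟩
    have hD0 : 0 < D := by rw [hD]; positivity
    have hrem : ∑ i, ∫ x in (Iic (Y₂ - 1))ᶜ, S.k i (x - y) ∂(n i) ≤ D * B := by
      have h1 : ∀ i, ∫ x in (Iic (Y₂ - 1))ᶜ, S.k i (x - y) ∂(n i) ≤
          D * ∫ x, tauf κ m S.a Y₂ x ∂(n i) := by
        intro i
        rw [← integral_const_mul]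
        refine le_trans ?_ (setIntegral_le_integral (s := (Iic (Y₂ - 1))ᶜ) ((hfi i).const_mul D)
          (Eventually.of_forall fun x => mul_nonneg hD0.le (tauf_pos _ _ _ _ _).le))
        refine setIntegral_mono_on (hy i).integrableOn ((hfi i).const_mul D).integrableOn
          measurableSet_Iic.compl fun x hx => ?_
        have hx1 : Y₂ - 1 < x := not_le.1 hx
        refine ((S.hk i).up (x - y)).trans ?_
        rw [hD, mul_assoc S.C]
        exact mul_le_mul_of_nonneg_left (r1d_w ha hb0 hab hκm hb hx1 hyY) hC0.le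
      refine (Finset.sum_le_sum fun i _ => h1 i).trans ?_
      rw [← Finset.mul_sum]
      exact mul_le_mul_of_nonneg_left hf hD0.le
    have hmin : min (η / 2) (S.C * B * E) * w S.a S.b (-y) ≤ η / 2 * w S.a S.b (-y) :=
      mul_le_mul_of_nonneg_right (min_le_left _ _) hw.le
    rcases lt_or_ge y y₀ with hy0 | hy0
    · -- left of `y₀`
      have hAl := r1d_left (S.hk β) ha hb0 hab hC0.le hκ'0 hy₀0 hy0.le
      rw [← hAd, ← hKA] at hAl
      have hA1 : -(KA * w S.a S.b (-y)) ≤ A := (abs_le.1 hAl).1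
      have hqA : -(q * (KA * w S.a S.b (-y))) ≤ q * A := by
        rw [← mul_neg]
        exact mul_le_mul_of_nonneg_left hA1 hq0.le
      have hwa : Real.exp (-(S.a * (Y₂ - y))) ≤ Real.exp y₀ * w S.a S.b (-y) := by
        unfold w
        rw [← Real.exp_add]
        refine Real.exp_le_exp.2 ?_
        rcases le_total 0 y with h | h
        · rw [max_eq_right (by linarith), max_eq_left (by linarith)]
          have h1 : 0 ≤ S.a * (Y₂ - y) := mul_nonneg ha.le (by linarith)
          have h2 : S.b * y ≤ y := mul_le_of_le_one_left h hb1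
          linarith
        · rw [max_eq_left (by linarith), max_eq_right (by linarith)]
          have h1 : 0 ≤ S.a * Y₂ := mul_nonneg ha.le (by linarith)
          linarith
      have hEκ : Real.exp (-((κ + m) * Y₂)) ≤ E := by
        rw [hE]
        refine Real.exp_le_exp.2 ?_
        have h1 : 0 ≤ (κ + m / 2) * Y₂ := mul_nonneg (by linarith) (by linarith)
        linarith
      have hDw : D ≤ S.C * Real.exp (2 + y₀) * E * w S.a S.b (-y) := by
        rw [hD, Real.exp_add]
        calc S.C * (Real.exp 2 * Real.exp (-((κ + m) * Y₂)) * Real.exp (-(S.a * (Y₂ - y))))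
            ≤ S.C * (Real.exp 2 * E * (Real.exp y₀ * w S.a S.b (-y))) := by
              gcongr
          _ = S.C * (Real.exp 2 * Real.exp y₀) * E * w S.a S.b (-y) := by ring
      have h5 : D * B ≤ S.C * Real.exp (2 + y₀) * E * w S.a S.b (-y) * B :=
        mul_le_mul_of_nonneg_right hDw hB0.le
      have h6 : S.C * Real.exp (2 + y₀) * E * w S.a S.b (-y) * B +
          q * (KA * w S.a S.b (-y)) = K7 * B * E * w S.a S.b (-y) := by
        rw [hK7, hq]
        ring
      have h7 : K7 * B * E * w S.a S.b (-y) ≤ η / 2 * w S.a S.b (-y) :=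
        mul_le_mul_of_nonneg_right (by linarith) hw.le
      linarith
    · -- between `y₀` and `Y₂`
      have hA1 := hA y hy0
      rw [← hAd] at hA1
      have hqA : (S.C * Real.exp 2 + 3 * S.C) * B * E * Real.exp (-(κ' * y)) ≤ q * A := by
        rw [← hqc]
        calc c5 * q * Real.exp (-(κ' * y)) = q * (c5 * Real.exp (-(κ' * y))) := by ring
          _ ≤ q * A := mul_le_mul_of_nonneg_left hA1 hq0.le
      have hEE : Real.exp (-((κ + m) * Y₂)) ≤ E * Real.exp (-(κ' * y)) := by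
        rw [hE, ← Real.exp_add]
        refine Real.exp_le_exp.2 ?_
        rw [hκ']
        have h1 : 0 ≤ (κ + m / 2) * (Y₂ - y) := mul_nonneg (by linarith) (by linarith)
        linarith
      have hDB : D * B ≤ (S.C * Real.exp 2 + 3 * S.C) * B * E * Real.exp (-(κ' * y)) := by
        have h1 : Real.exp (-(S.a * (Y₂ - y))) ≤ 1 := by
          rw [Real.exp_le_one_iff]
          have := mul_nonneg ha.le (sub_nonneg.2 hyY)
          linarith
        calc D * B = S.C * Real.exp 2 * B * Real.exp (-((κ + m) * Y₂)) *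
              Real.exp (-(S.a * (Y₂ - y))) := by rw [hD]; ring
          _ ≤ S.C * Real.exp 2 * B * Real.exp (-((κ + m) * Y₂)) * 1 :=
              mul_le_mul_of_nonneg_left h1 (by positivity)
          _ ≤ S.C * Real.exp 2 * B * (E * Real.exp (-(κ' * y))) * 1 := by gcongr
          _ ≤ (S.C * Real.exp 2 + 3 * S.C) * B * E * Real.exp (-(κ' * y)) := by
              have h2 : 0 ≤ 3 * S.C * B * (E * Real.exp (-(κ' * y))) := by positivity
              linarith
      have h8 : 0 ≤ η / 2 * w S.a S.b (-y) := by positivity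
      linarith
  · -- to the right of `Y₂`
    have hy00 : y₀ ≤ y := by linarith
    have hyp : 0 < y := by linarith
    have hA1 := hA y hy00
    rw [← hAd] at hA1
    obtain ⟨F, hF⟩ : ∃ F, F = E * Real.exp (-(κ' * y)) := ⟨_, rfl⟩
    have hFp : 0 < F := by rw [hF]; positivity
    have hqA : (S.C * Real.exp 2 + 3 * S.C) * B * F ≤ q * A := by
      calc (S.C * Real.exp 2 + 3 * S.C) * B * F = q * (c5 * Real.exp (-(κ' * y))) := by
            rw [hF, ← mul_assoc, ← hqc]
            ring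
        _ ≤ q * A := mul_le_mul_of_nonneg_left hA1 hq0.le
    have hwe : w S.a S.b (-y) = Real.exp (-(S.b * y)) := by
      rw [w_nonpos_eq (by linarith)]
      congr 1
      ring
    have hF1 : Real.exp (-(S.b * y)) * Real.exp ((S.b - κ - m) * Y₂) ≤ F := by
      rw [hF, hE, ← Real.exp_add, ← Real.exp_add]
      refine Real.exp_le_exp.2 ?_
      rw [hκ']
      have h1 : 0 ≤ (S.b - κ - m / 2) * (y - Y₂) := mul_nonneg (by linarith) (by linarith)
      linarith
    have hF2 : Real.exp (-(S.b * y)) ≤ F := by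
      rw [hF, hE, ← Real.exp_add]
      refine Real.exp_le_exp.2 ?_
      rw [hκ']
      have h1 : 0 ≤ (S.b - κ - m) * y := mul_nonneg (by linarith) (by linarith)
      have h2 : 0 ≤ m / 2 * (y - Y₂) := mul_nonneg (by linarith) (by linarith)
      linarith
    have hkeep : -(S.C * Real.exp (-(S.b * y)) * Real.exp ((S.b - κ - m) * Y₂) * B) ≤
        ∑ i, ∫ x in Iic (Y₂ - 1), S.k i (x - y) ∂(n i) := by
      obtain ⟨D, hD⟩ : ∃ D, D = S.C * Real.exp (-(S.b * y)) * Real.exp ((S.b - κ - m) * Y₂) :=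
        ⟨_, rfl⟩
      have hD0 : 0 < D := by rw [hD]; positivity
      rw [← hD]
      have h1 : ∀ i, -(D * ∫ x, tauf κ m S.a Y₂ x ∂(n i)) ≤
          ∫ x in Iic (Y₂ - 1), S.k i (x - y) ∂(n i) := by
        intro i
        have h2 : ∫ x in Iic (Y₂ - 1), D * tauf κ m S.a Y₂ x ∂(n i) ≤
            D * ∫ x, tauf κ m S.a Y₂ x ∂(n i) := by
          rw [← integral_const_mul]
          exact setIntegral_le_integral ((hfi i).const_mul D)
            (Eventually.of_forall fun x => mul_nonneg hD0.le (tauf_pos _ _ _ _ _).le)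
        refine (neg_le_neg h2).trans ?_
        rw [← integral_neg]
        refine setIntegral_mono_on ((hfi i).const_mul D).neg.integrableOn (hy i).integrableOn
          measurableSet_Iic fun x hx => ?_
        have hx1 : x ≤ Y₂ - 1 := hx
        have h3 := (S.hk i).abs (x - y) (by rw [abs_of_neg] <;> linarith)
        have h4 : -(S.C * w S.a S.b (x - y)) ≤ S.k i (x - y) := (abs_le.1 h3).1
        refine le_trans (neg_le_neg ?_) h4
        rw [hD, w_nonpos_eq (by linarith), mul_assoc, mul_assoc]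
        refine mul_le_mul_of_nonneg_left ?_ hC0.le
        unfold tauf
        rw [min_eq_left (by linarith), max_eq_right (by linarith), ← Real.exp_add,
          ← Real.exp_add]
        refine Real.exp_le_exp.2 ?_
        have h5 : 0 ≤ (S.b - κ - m) * (Y₂ - x) := mul_nonneg (by linarith) (by linarith)
        linarith
      refine le_trans ?_ (Finset.sum_le_sum fun i _ => h1 i)
      rw [Finset.sum_neg_distrib, ← Finset.mul_sum]
      exact neg_le_neg (mul_le_mul_of_nonneg_left hf hD0.le)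
    have hkt : S.kt (-y) ≤ S.C * Real.exp (-(S.b * y)) := by
      have h1 := S.hkt.up (-y)
      rwa [hwe] at h1
    have hmin : min (η / 2) (S.C * B * E) * w S.a S.b (-y) ≤ S.C * B * F := by
      have h1 : min (η / 2) (S.C * B * E) * w S.a S.b (-y) ≤
          (S.C * B * E) * w S.a S.b (-y) := mul_le_mul_of_nonneg_right (min_le_right _ _) hw.le
      refine h1.trans ?_
      rw [hwe, hF, mul_assoc (S.C * B)]
      refine mul_le_mul_of_nonneg_left (mul_le_mul_of_nonneg_left ?_ hEp.le) (by positivity)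
      refine Real.exp_le_exp.2 ?_
      have h2 : 0 ≤ (S.b - κ') * y := mul_nonneg (by linarith) hyp.le
      linarith
    have h5 : S.C * Real.exp (-(S.b * y)) * Real.exp ((S.b - κ - m) * Y₂) * B ≤
        S.C * B * F := by
      calc S.C * Real.exp (-(S.b * y)) * Real.exp ((S.b - κ - m) * Y₂) * B =
          S.C * B * (Real.exp (-(S.b * y)) * Real.exp ((S.b - κ - m) * Y₂)) := by ring
        _ ≤ S.C * B * F := mul_le_mul_of_nonneg_left hF1 (by positivity)
    have h6 : S.C * Real.exp (-(S.b * y)) ≤ S.C * B * F := by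
      calc S.C * Real.exp (-(S.b * y)) ≤ S.C * F := mul_le_mul_of_nonneg_left hF2 hC0.le
        _ ≤ S.C * B * F := by
          refine mul_le_mul_of_nonneg_right ?_ hFp.le
          exact le_mul_of_one_le_right hC0.le hB
    have h7 : (S.C * Real.exp 2 + 3 * S.C) * B * F =
        S.C * Real.exp 2 * B * F + 3 * (S.C * B * F) := by ring
    have h8 : 0 ≤ S.C * Real.exp 2 * B * F := by positivity
    linarith

end INDB
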