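import Pool.Agent.INDB.RDefs
import Pool.Agent.INDB.Cmp

/-!
# INDB, module R1e: the test function `tau` against the critical rays

PROOF. Let `i` be critical: `k = k_i` has the pattern `(+,-)` at `s`, and `F κ' = ∫ k u e^{-κ'(u-s)} du` satisfies `F κ = 0`, `F κ' < 0` for `κ' < κ` (sign pattern) and `F(κ+μ) ≤ K₀ μ` for `0 ≤ μ ≤ μ₁`, `κ + μ₁ < b`
(`|e^{-μ v} - 1| ≤ μ |v| e^{μ₁ |v|}`). Let `T = tau κ μ Y₂`, `x₀ = x - s`, substitute `y = x - u`.
Case `x₀ ≤ Y₂`. `T y ≤ T x₀ e^{(κ+μ)(y-x₀)}` for `y ≥ x₀` (there `u ≤ s`, `k u ≥ 0`), `T y = T x₀ e^{-(κ+μ)(x₀-y)}` for `y ≤ x₀`. So `U k T x ≤ T x₀ F(κ+μ) ≤ K₀ μ T x₀`, and `T x₀ = e^{(κ+μ) x₀} ≤ e^{2|s|} tauf x` (if `x ≤ Y₂`: rate `κ+μ ≤ 1`; if `x > Y₂`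
then `x - Y₂ ≤ |s|`, `tauf x = e^{(κ+μ) Y₂ - a (x-Y₂)} ≥ e^{(κ+μ)x₀ - |s|}`).
Case `x₀ > Y₂`. For `y ≥ Y₂`: `T y = T x₀ e^{(κ-μ)(y-x₀)}`; for `y < Y₂`: `T y = T x₀ e^{(κ-μ)(y-x₀)} + T(Y₂)(e^{-(κ+μ)(Y₂-y)} - e^{-(κ-μ)(Y₂-y)})` and the bracket lies in `[-2 μ (Y₂-y), 0]`. So
`U k T x ≤ T x₀ F(κ-μ) + 2 μ T(Y₂) ∫_{y<Y₂} |k(x-y)| (Y₂-y) dy`, `F(κ-μ) ≤ 0`. The last integral is `≤ K₁ w(x-Y₂)`: cut into the unit intervals `[Y₂-j-1, Y₂-j]`: `∫ |k(x-y)| dy ≤ 31 C w(x-Y₂+j+1)` (`Kern.unit_le'`), and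
`w(x-Y₂+j+1) ≤ e^{2C+2} w(x - Y₂) e^{-a j}` because `x - Y₂ ≥ -C` (`x - Y₂ ≥ s ≥ -C`: if `x ≥ Y₂` both arguments are nonnegative, otherwise `|x - Y₂| ≤ C`), sum `(j+1) e^{-a j}`. Finally `T(Y₂) w(x-Y₂) ≤ e^{2C} tauf x`.
-/

open MeasureTheory Set Filter Topology

namespace INDB

private lemma r1e_mm (y Y₂ : ℝ) : min y Y₂ + max (y - Y₂) 0 = y := by
  rcases le_total y Y₂ with h | h
  · rw [min_eq_left h, max_eq_right (by linarith)]
    ring
  · rw [min_eq_right h, max_eq_left (by linarith)]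
    ring

private lemma r1e_tau_eq (κ μ Y₂ y : ℝ) :
    tau κ μ Y₂ y = Real.exp ((κ + μ) * y - 2 * μ * max (y - Y₂) 0) := by
  unfold tau
  congr 1
  have h := r1e_mm y Y₂
  linear_combination (κ + μ) * h

private lemma r1e_tau_meas (κ μ Y₂ : ℝ) : Measurable (tau κ μ Y₂) := by
  have h : Continuous (tau κ μ Y₂) := by
    unfold tau
    fun_prop
  exact h.measurable

private lemma r1e_tau_gro {κ μ : ℝ} (hμ : 0 ≤ μ) (Y₂ : ℝ) : Gro (κ + μ) (tau κ μ Y₂) := by
  intro x y hxy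
  rw [r1e_tau_eq, r1e_tau_eq, ← Real.exp_add]
  refine Real.exp_le_exp.2 ?_
  have h1 : max (x - Y₂) 0 ≤ max (y - Y₂) 0 := max_le_max (by linarith) le_rfl
  have h2 := mul_le_mul_of_nonneg_left h1 (by linarith : (0 : ℝ) ≤ 2 * μ)
  linarith

private lemma r1e_tau_dec {κ μ : ℝ} (hμ : 0 ≤ μ) (hκ : μ ≤ κ) (Y₂ : ℝ) :
    Dec 0 (tau κ μ Y₂) := by
  intro x y hxy
  rw [zero_mul, neg_zero, Real.exp_zero, mul_one]
  unfold tau
  refine Real.exp_le_exp.2 ?_
  have h1 : max (x - Y₂) 0 ≤ max (y - Y₂) 0 := max_le_max (by linarith) le_rfl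
  have h2 : min x Y₂ ≤ min y Y₂ := min_le_min hxy le_rfl
  have h3 := mul_le_mul_of_nonneg_left h1 (by linarith : (0 : ℝ) ≤ κ - μ)
  have h4 := mul_le_mul_of_nonneg_left h2 (by linarith : (0 : ℝ) ≤ κ + μ)
  linarith

/-- the difference of two exponentials, by convexity -/
private lemma r1e_two {κ μ μ₀ : ℝ} (h0 : 0 ≤ μ) (h1 : μ ≤ μ₀) (hm : 0 < μ₀) (t : ℝ) :
    |Real.exp (-((κ + μ) * t)) - Real.exp (-(κ * t))| ≤
      μ / μ₀ * (Real.exp (-((κ + μ₀) * t)) + Real.exp (-((κ - μ₀) * t))) := by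
  set θ := μ / μ₀ with hθ
  have hθ0 : 0 ≤ θ := div_nonneg h0 hm.le
  have hθ1 : θ ≤ 1 := (div_le_one hm).2 h1
  have hθm : θ * μ₀ = μ := div_mul_cancel₀ μ hm.ne'
  have e1 : 0 < Real.exp (-((κ + μ₀) * t)) := Real.exp_pos _
  have e2 : 0 < Real.exp (-((κ - μ₀) * t)) := Real.exp_pos _
  have e3 : 0 < Real.exp (-(κ * t)) := Real.exp_pos _
  rw [abs_le]
  constructor
  · have hcx := convexOn_exp
    have p1 : 0 ≤ 1 / (1 + θ) := by positivity
    have p2 : 0 ≤ θ / (1 + θ) := by positivity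
    have p3 : 1 / (1 + θ) + θ / (1 + θ) = 1 := by field_simp
    have h := hcx.2 (mem_univ (-((κ + μ) * t))) (mem_univ (-((κ - μ₀) * t))) p1 p2 p3
    simp only [smul_eq_mul] at h
    have e4 : 1 / (1 + θ) * -((κ + μ) * t) + θ / (1 + θ) * -((κ - μ₀) * t) = -(κ * t) := by
      have : (1 + θ) ≠ 0 := by positivity
      field_simp
      linear_combination t * hθm
    rw [e4] at h
    have h5 : (1 + θ) * Real.exp (-(κ * t)) ≤
        Real.exp (-((κ + μ) * t)) + θ * Real.exp (-((κ - μ₀) * t)) := by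
      have h6 := mul_le_mul_of_nonneg_left h (by linarith : (0 : ℝ) ≤ 1 + θ)
      refine h6.trans (le_of_eq ?_)
      have : (1 + θ) ≠ 0 := by positivity
      field_simp
    have h7 := mul_nonneg hθ0 e1.le
    have h8 := mul_nonneg hθ0 e3.le
    linarith
  · have hcx := convexOn_exp
    have p1 : 0 ≤ 1 - θ := by linarith
    have p3 : 1 - θ + θ = 1 := by ring
    have h := hcx.2 (mem_univ (-(κ * t))) (mem_univ (-((κ + μ₀) * t))) p1 hθ0 p3
    simp only [smul_eq_mul] at h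
    have e4 : (1 - θ) * -(κ * t) + θ * -((κ + μ₀) * t) = -((κ + μ) * t) := by
      linear_combination -t * hθm
    rw [e4] at h
    have h7 := mul_nonneg hθ0 e2.le
    have h8 := mul_nonneg hθ0 e3.le
    linarith

variable {a b c C : ℝ} {k : ℝ → ℝ}

private lemma r1e_int (hk : Kern a b C k) {κ : ℝ} (s : ℝ) (h1 : κ < b) (h2 : -a < κ) :
    Integrable (fun u => k u * Real.exp (-(κ * (u - s)))) := by
  have h := (hk.integrable_exp (κ := -κ) (by linarith) (by linarith)).mul_const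
    (Real.exp (κ * s))
  refine h.congr (Eventually.of_forall fun u => ?_)
  show k u * Real.exp (-κ * u) * Real.exp (κ * s) = k u * Real.exp (-(κ * (u - s)))
  rw [mul_assoc, ← Real.exp_add]
  congr 2
  ring

private lemma r1e_F (hk : Kern a b C k) (ha : 0 < a) {s κ μ₀ : ℝ} (hm : 0 < μ₀) (h1 : μ₀ < κ)
    (h2 : κ + μ₀ < b) (hi : ∫ u, k u * Real.exp (-(κ * (u - s))) = 0) :
    ∃ K : ℝ, 0 ≤ K ∧ ∀ μ : ℝ, 0 ≤ μ → μ ≤ μ₀ →
      ∫ u, k u * Real.exp (-((κ + μ) * (u - s))) ≤ K * μ := by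
  have i1 := r1e_int hk s (κ := κ + μ₀) h2 (by linarith)
  have i2 := r1e_int hk s (κ := κ - μ₀) (by linarith) (by linarith)
  have i0 := r1e_int hk s (κ := κ) (by linarith) (by linarith)
  refine ⟨(∫ u, (|k u * Real.exp (-((κ + μ₀) * (u - s)))| +
    |k u * Real.exp (-((κ - μ₀) * (u - s)))|)) / μ₀, ?_, fun μ hμ hμ0 => ?_⟩
  · refine div_nonneg (integral_nonneg fun u => ?_) hm.le
    exact add_nonneg (abs_nonneg _) (abs_nonneg _)
  · have i3 := r1e_int hk s (κ := κ + μ) (by linarith) (by linarith)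
    have e1 : ∫ u, k u * Real.exp (-((κ + μ) * (u - s))) =
        ∫ u, (k u * Real.exp (-((κ + μ) * (u - s))) - k u * Real.exp (-(κ * (u - s)))) := by
      rw [integral_sub i3 i0, hi, sub_zero]
    rw [e1, div_mul_eq_mul_div, mul_div_assoc, ← integral_mul_const]
    refine integral_mono (i3.sub i0) ((i1.abs.add i2.abs).mul_const _) fun u => ?_
    show k u * Real.exp (-((κ + μ) * (u - s))) - k u * Real.exp (-(κ * (u - s))) ≤
      (|k u * Real.exp (-((κ + μ₀) * (u - s)))| + |k u * Real.exp (-((κ - μ₀) * (u - s)))|) *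
        (μ / μ₀)
    rw [← mul_sub, abs_mul, abs_mul, abs_of_pos (Real.exp_pos _), abs_of_pos (Real.exp_pos _)]
    have h3 := r1e_two (κ := κ) hμ hμ0 hm (u - s)
    calc k u * (Real.exp (-((κ + μ) * (u - s))) - Real.exp (-(κ * (u - s))))
        ≤ |k u * (Real.exp (-((κ + μ) * (u - s))) - Real.exp (-(κ * (u - s))))| := le_abs_self _
      _ = |k u| * |Real.exp (-((κ + μ) * (u - s))) - Real.exp (-(κ * (u - s)))| := abs_mul _ _
      _ ≤ |k u| * (μ / μ₀ * (Real.exp (-((κ + μ₀) * (u - s))) +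
          Real.exp (-((κ - μ₀) * (u - s))))) := mul_le_mul_of_nonneg_left h3 (abs_nonneg _)
      _ = _ := by ring

private lemma r1e_J (hk : Kern a b C k) (ha : 0 < a) (hb : 0 < b) (ha1 : a ≤ 1) (hb1 : b ≤ 1)
    (hC : 1 ≤ C) : ∃ K : ℝ, 0 ≤ K ∧ ∀ v : ℝ, -C ≤ v →
      Integrable (fun u => |k u| * max (u - v) 0) ∧
      ∫ u, |k u| * max (u - v) 0 ≤ K * w a b v := by
  have hC0 : 0 ≤ C := by linarith
  have hI := hk.integrable_exp (κ := a / 2) (by linarith) (by linarith)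
  set I := ∫ u, |k u * Real.exp (a / 2 * u)| with hIdef
  have hI0 : 0 ≤ I := integral_nonneg fun _ => abs_nonneg _
  have hmax : ∀ t : ℝ, max t 0 ≤ 2 / a * Real.exp (a / 2 * t) := by
    intro t
    have h1 : a / 2 * t ≤ Real.exp (a / 2 * t) := by linarith [Real.add_one_le_exp (a / 2 * t)]
    refine max_le ?_ (by positivity)
    rw [div_mul_eq_mul_div, le_div_iff₀ ha]
    linarith
  have hpt : ∀ u v : ℝ, |k u| * max (u - v) 0 ≤
      2 / a * Real.exp (-(a / 2 * v)) * |k u * Real.exp (a / 2 * u)| := by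
    intro u v
    have h1 := mul_le_mul_of_nonneg_left (hmax (u - v)) (abs_nonneg (k u))
    refine h1.trans (le_of_eq ?_)
    rw [abs_mul, abs_of_pos (Real.exp_pos _)]
    have e : Real.exp (a / 2 * (u - v)) = Real.exp (-(a / 2 * v)) * Real.exp (a / 2 * u) := by
      rw [← Real.exp_add]
      congr 1
      ring
    rw [e]
    ring
  have hint : ∀ v : ℝ, Integrable (fun u => |k u| * max (u - v) 0) := by
    intro v
    refine (hI.abs.const_mul (2 / a * Real.exp (-(a / 2 * v)))).mono' ?_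
      (Eventually.of_forall fun u => ?_)
    · exact (hk.meas.abs.mul ((measurable_id.sub_const v).max measurable_const)).aestronglyMeasurable
    · rw [Real.norm_eq_abs, abs_of_nonneg (mul_nonneg (abs_nonneg _) (le_max_right _ _))]
      exact hpt u v
  refine ⟨C * (2 / a) * (2 / a + 1) + 2 / a * Real.exp (2 * C) * I, by positivity,
    fun v hv => ⟨hint v, ?_⟩⟩
  have hw := w_pos a b v
  rcases le_total 1 v with h1 | h1
  · have hle : ∫ u, |k u| * max (u - v) 0 ≤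
        ∫ u, C * (2 / a) * w a b v * w (a / 2) 1 (u - v) := by
      refine integral_mono (hint v)
        (((integrable_w (by positivity) one_pos).comp_sub_right v).const_mul _) fun u => ?_
      show |k u| * max (u - v) 0 ≤ C * (2 / a) * w a b v * w (a / 2) 1 (u - v)
      have hw2 := w_pos (a / 2) 1 (u - v)
      rcases le_total u v with h2 | h2
      · rw [max_eq_right (by linarith : u - v ≤ 0), mul_zero]
        positivity
      · have h3 : |k u| ≤ C * w a b u := hk.abs u (by rw [abs_of_nonneg (by linarith)]; linarith)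
        have h4 : w a b u = w a b v * Real.exp (-(a * (u - v))) := by
          rw [w_nonneg_eq (by linarith : 0 ≤ u), w_nonneg_eq (by linarith : 0 ≤ v), ← Real.exp_add]
          congr 1
          ring
        have h5 : w (a / 2) 1 (u - v) = Real.exp (-(a / 2 * (u - v))) :=
          w_nonneg_eq (by linarith)
        calc |k u| * max (u - v) 0 ≤ (C * w a b u) * (2 / a * Real.exp (a / 2 * (u - v))) :=
              mul_le_mul h3 (hmax _) (le_max_right _ _) (mul_nonneg hC0 (w_pos a b u).le)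
          _ = C * (2 / a) * w a b v *
              (Real.exp (-(a * (u - v))) * Real.exp (a / 2 * (u - v))) := by
              rw [h4]
              ring
          _ = C * (2 / a) * w a b v * w (a / 2) 1 (u - v) := by
              rw [h5, ← Real.exp_add]
              congr 2
              ring
    have h6 : ∫ u, w (a / 2) 1 (u - v) = 2 / a + 1 := by
      rw [integral_sub_right_eq_self (fun u => w (a / 2) 1 u) v, int_w (by positivity) one_pos]
      field_simp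
    rw [integral_const_mul, h6] at hle
    have h7 : 0 ≤ 2 / a * Real.exp (2 * C) * I * w a b v := by positivity
    calc _ ≤ C * (2 / a) * w a b v * (2 / a + 1) := hle
      _ ≤ _ := by linarith
  · have hle : ∫ u, |k u| * max (u - v) 0 ≤
        ∫ u, 2 / a * Real.exp (-(a / 2 * v)) * |k u * Real.exp (a / 2 * u)| :=
      integral_mono (hint v) (hI.abs.const_mul _) fun u => hpt u v
    rw [integral_const_mul] at hle
    have h2 : Real.exp (-(a / 2 * v)) ≤ Real.exp C := by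
      refine Real.exp_le_exp.2 ?_
      nlinarith
    have h3 : Real.exp (-C) ≤ w a b v := by
      rcases le_total 0 v with h4 | h4
      · rw [w_nonneg_eq h4]
        refine Real.exp_le_exp.2 ?_
        nlinarith
      · rw [w_nonpos_eq h4]
        refine Real.exp_le_exp.2 ?_
        nlinarith
    have h4 : Real.exp C ≤ Real.exp (2 * C) * w a b v := by
      have h5 : Real.exp C = Real.exp (2 * C) * Real.exp (-C) := by
        rw [← Real.exp_add]
        congr 1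
        ring
      rw [h5]
      exact mul_le_mul_of_nonneg_left h3 (Real.exp_pos _).le
    have h5 : 2 / a * Real.exp (-(a / 2 * v)) * I ≤ 2 / a * (Real.exp (2 * C) * w a b v) * I :=
      mul_le_mul_of_nonneg_right
        (mul_le_mul_of_nonneg_left (h2.trans h4) (by positivity)) hI0
    have h6 : 0 ≤ C * (2 / a) * (2 / a + 1) * w a b v := by positivity
    calc _ ≤ 2 / a * Real.exp (-(a / 2 * v)) * I := hle
      _ ≤ 2 / a * (Real.exp (2 * C) * w a b v) * I := h5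
      _ ≤ _ := by linarith

/-- the pointwise estimate in the second case -/
private lemma r1e_pt {κ μ s Y₂ x : ℝ} (hp : PatPM a b c s k) (hμ : 0 ≤ μ) (hμκ : μ ≤ κ)
    (hx : Y₂ < x - s) (u : ℝ) :
    k u * tau κ μ Y₂ (x - u) ≤ tau κ μ Y₂ (x - s) * (k u * Real.exp (-((κ - μ) * (u - s)))) +
      2 * μ * Real.exp ((κ + μ) * Y₂) * (|k u| * max (u - (x - Y₂)) 0) := by
  have hE : 0 < Real.exp ((κ + μ) * Y₂) := Real.exp_pos _
  have e0 : tau κ μ Y₂ (x - s) = Real.exp ((κ + μ) * Y₂ + (κ - μ) * (x - s - Y₂)) := by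
    unfold tau
    rw [min_eq_right hx.le, max_eq_left (by linarith)]
  rcases le_total Y₂ (x - u) with h | h
  · have e1 : tau κ μ Y₂ (x - u) =
        tau κ μ Y₂ (x - s) * Real.exp (-((κ - μ) * (u - s))) := by
      rw [e0, ← Real.exp_add]
      unfold tau
      rw [min_eq_right h, max_eq_left (by linarith)]
      congr 1
      ring
    rw [e1]
    have h2 : 0 ≤ 2 * μ * Real.exp ((κ + μ) * Y₂) * (|k u| * max (u - (x - Y₂)) 0) := by
      have := le_max_right (u - (x - Y₂)) 0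
      positivity
    linarith
  · have hk0 : k u ≤ 0 := hp.right u (by linarith)
    set t := u - (x - Y₂) with ht
    have ht0 : 0 ≤ t := by linarith
    have e1 : tau κ μ Y₂ (x - u) = Real.exp ((κ + μ) * Y₂) * Real.exp (-((κ + μ) * t)) := by
      unfold tau
      rw [min_eq_left h, max_eq_right (by linarith), ← Real.exp_add]
      congr 1
      rw [ht]
      ring
    have e2 : tau κ μ Y₂ (x - s) * Real.exp (-((κ - μ) * (u - s))) =
        Real.exp ((κ + μ) * Y₂) * Real.exp (-((κ - μ) * t)) := by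
      rw [e0, ← Real.exp_add, ← Real.exp_add]
      congr 1
      rw [ht]
      ring
    have h3 : Real.exp (-((κ - μ) * t)) - Real.exp (-((κ + μ) * t)) ≤ 2 * μ * t := by
      have h4 : Real.exp (-((κ + μ) * t)) =
          Real.exp (-((κ - μ) * t)) * Real.exp (-(2 * μ * t)) := by
        rw [← Real.exp_add]
        congr 1
        ring
      have h5 : Real.exp (-((κ - μ) * t)) ≤ 1 := by
        rw [Real.exp_le_one_iff]
        have := mul_nonneg (by linarith : 0 ≤ κ - μ) ht0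
        linarith
      have h6 : 1 - 2 * μ * t ≤ Real.exp (-(2 * μ * t)) := by
        linarith [Real.add_one_le_exp (-(2 * μ * t))]
      have h7 : 0 ≤ 2 * μ * t := by positivity
      have h8 := Real.exp_pos (-((κ - μ) * t))
      rw [h4]
      nlinarith
    rw [e1, max_eq_left ht0, abs_of_nonpos hk0]
    have e3 : tau κ μ Y₂ (x - s) * (k u * Real.exp (-((κ - μ) * (u - s)))) =
        k u * (Real.exp ((κ + μ) * Y₂) * Real.exp (-((κ - μ) * t))) := by
      rw [← e2]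
      ring
    rw [e3]
    have h9 : 0 ≤ -k u * Real.exp ((κ + μ) * Y₂) := mul_nonneg (by linarith) hE.le
    have h10 := mul_le_mul_of_nonneg_left h3 h9
    linarith

private lemma r1e_one (hk : Kern a b C k) (ha : 0 < a) (hb : 0 < b) (ha1 : a ≤ 1) (hb1 : b ≤ 1)
    (hC : 1 ≤ C) {s κ μ₀ : ℝ} (hs : |s| ≤ C) (hp : PatPM a b c s k) (hm : 0 < μ₀) (h1 : μ₀ < κ)
    (h2 : κ + μ₀ < b) (hi : ∫ u, k u * Real.exp (-(κ * u)) = 0) :
    ∃ K : ℝ, 0 ≤ K ∧ ∀ μ : ℝ, 0 ≤ μ → μ ≤ μ₀ → ∀ Y₂ x : ℝ,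
      U k (tau κ μ Y₂) x ≤ K * μ * tauf κ μ a Y₂ x := by
  have hi' : ∫ u, k u * Real.exp (-(κ * (u - s))) = 0 := by
    have e : (fun u => k u * Real.exp (-(κ * (u - s)))) =
        fun u => k u * Real.exp (-(κ * u)) * Real.exp (κ * s) := by
      funext u
      rw [mul_assoc, ← Real.exp_add]
      congr 2
      ring
    rw [e, integral_mul_const, hi, zero_mul]
  obtain ⟨K₀, hK₀, hF⟩ := r1e_F hk ha hm h1 h2 hi'
  obtain ⟨K₁, hK₁, hJ⟩ := r1e_J hk ha hb ha1 hb1 hC
  refine ⟨K₀ * Real.exp (2 * C) + 2 * K₁ * Real.exp C, by positivity, fun μ hμ hμ0 Y₂ x => ?_⟩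
  have hT : 0 < tauf κ μ a Y₂ x := Real.exp_pos _
  have hκ1 : κ + μ ≤ 1 := by linarith
  have hκ0 : 0 ≤ κ + μ := by linarith
  have hs1 := abs_le.1 hs
  rcases le_or_gt (x - s) Y₂ with h | h
  · have h3 := cmp_PM hk hp le_rfl ha hκ0 (by linarith) (r1e_tau_meas κ μ Y₂)
      (fun y => (Real.exp_pos _).le) (r1e_tau_dec hμ (by linarith) Y₂) (r1e_tau_gro hμ Y₂) x
    have h4 := mul_le_mul_of_nonneg_left (hF μ hμ hμ0)
      (show 0 ≤ tau κ μ Y₂ (x - s) from (Real.exp_pos _).le)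
    have h5 : tau κ μ Y₂ (x - s) ≤ Real.exp (2 * C) * tauf κ μ a Y₂ x := by
      unfold tau tauf
      rw [← Real.exp_add, min_eq_left h, max_eq_right (by linarith : x - s - Y₂ ≤ 0)]
      refine Real.exp_le_exp.2 ?_
      rcases le_total x Y₂ with h6 | h6
      · rw [min_eq_left h6, max_eq_right (by linarith : x - Y₂ ≤ 0)]
        nlinarith [mul_nonneg hκ0 (by linarith : 0 ≤ C + s)]
      · rw [min_eq_right h6, max_eq_left (by linarith : 0 ≤ x - Y₂)]
        have h7 : (κ + μ) * (x - s) ≤ (κ + μ) * Y₂ := mul_le_mul_of_nonneg_left h hκ0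
        have h8 : a * (x - Y₂) ≤ 1 * (x - Y₂) := mul_le_mul_of_nonneg_right ha1 (by linarith)
        linarith
    have h6 : 0 ≤ K₀ * μ := mul_nonneg hK₀ hμ
    have h7 := mul_le_mul_of_nonneg_left h5 h6
    have h8 : 0 ≤ 2 * K₁ * Real.exp C * μ * tauf κ μ a Y₂ x := by positivity
    calc U k (tau κ μ Y₂) x ≤ _ := h3
      _ ≤ _ := h4
      _ = K₀ * μ * tau κ μ Y₂ (x - s) := by ring
      _ ≤ K₀ * μ * (Real.exp (2 * C) * tauf κ μ a Y₂ x) := h7
      _ ≤ _ := by linarith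
  · obtain ⟨j1, j2⟩ := hJ (x - Y₂) (by linarith)
    have i1 := r1e_int hk s (κ := κ - μ) (by linarith) (by linarith)
    have i0 := r1e_int hk s (κ := κ) (by linarith) (by linarith)
    have hF0 : ∫ u, k u * Real.exp (-((κ - μ) * (u - s))) ≤ 0 := by
      rw [← hi']
      refine integral_mono i1 i0 fun u => ?_
      show k u * Real.exp (-((κ - μ) * (u - s))) ≤ k u * Real.exp (-(κ * (u - s)))
      rcases le_total s u with h3 | h3
      · refine mul_le_mul_of_nonpos_left (Real.exp_le_exp.2 ?_) (hp.right u h3)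
        have := mul_nonneg hμ (by linarith : 0 ≤ u - s)
        linarith
      · refine mul_le_mul_of_nonneg_left (Real.exp_le_exp.2 ?_) (hp.left u h3)
        have := mul_nonneg hμ (by linarith : 0 ≤ s - u)
        linarith
    have i2 : Integrable (fun u => k u * tau κ μ Y₂ (x - u)) := by
      have h3 : Integrable (fun y => k (x - y) * tau κ μ Y₂ y) :=
        hk.integrable_mul_of_le hκ0 (by linarith) le_rfl ha (r1e_tau_meas κ μ Y₂)
          (B := tau κ μ Y₂ x)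
          (fun y => lin_of_dec_gro (fun y => (Real.exp_pos _).le)
            (r1e_tau_dec hμ (by linarith) Y₂) (r1e_tau_gro hμ Y₂) le_rfl hκ0 x y)
      have h4 := h3.comp_sub_left x
      simpa using h4
    have hE : 0 < Real.exp ((κ + μ) * Y₂) := Real.exp_pos _
    have h3 : U k (tau κ μ Y₂) x ≤
        tau κ μ Y₂ (x - s) * (∫ u, k u * Real.exp (-((κ - μ) * (u - s)))) +
        2 * μ * Real.exp ((κ + μ) * Y₂) * ∫ u, |k u| * max (u - (x - Y₂)) 0 := by
      rw [U_eq, ← integral_const_mul, ← integral_const_mul,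
        ← integral_add (i1.const_mul _) (j1.const_mul _)]
      refine integral_mono i2 ((i1.const_mul _).add (j1.const_mul _)) fun u => ?_
      exact r1e_pt hp hμ (by linarith) h u
    have h4 := mul_nonpos_of_nonneg_of_nonpos
      (show 0 ≤ tau κ μ Y₂ (x - s) from (Real.exp_pos _).le) hF0
    have h5 := mul_le_mul_of_nonneg_left j2
      (show 0 ≤ 2 * μ * Real.exp ((κ + μ) * Y₂) by positivity)
    have h6 : Real.exp ((κ + μ) * Y₂) * w a b (x - Y₂) ≤ Real.exp C * tauf κ μ a Y₂ x := by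
      unfold tauf
      rw [← Real.exp_add]
      rcases le_total Y₂ x with h7 | h7
      · rw [min_eq_right h7, max_eq_left (by linarith : 0 ≤ x - Y₂),
          w_nonneg_eq (by linarith : 0 ≤ x - Y₂), ← Real.exp_add]
        refine Real.exp_le_exp.2 ?_
        linarith
      · rw [min_eq_left h7, max_eq_right (by linarith : x - Y₂ ≤ 0)]
        have h8 := w_le_one ha.le hb.le (x - Y₂)
        refine (mul_le_of_le_one_right hE.le h8).trans (Real.exp_le_exp.2 ?_)
        have h9 : (κ + μ) * (Y₂ - x) ≤ 1 * (Y₂ - x) :=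
          mul_le_mul_of_nonneg_right hκ1 (by linarith)
        linarith
    have h7 := mul_le_mul_of_nonneg_left h6 (show 0 ≤ 2 * μ * K₁ by positivity)
    have h8 : 0 ≤ K₀ * Real.exp (2 * C) * μ * tauf κ μ a Y₂ x := by positivity
    linarith

theorem r1e {ι : Type} [Fintype ι] (S : Sys ι) {κ : ℝ} (hκ : S.CritRate κ) :
    ∃ μ₀ K : ℝ, 0 < μ₀ ∧ μ₀ ≤ κ / 4 ∧ κ + μ₀ < S.b ∧ 0 < K ∧ ∀ μ : ℝ, 0 ≤ μ → μ ≤ μ₀ → ∀ Y₂ : ℝ,
      ∀ i, S.Crit κ i → ∀ x, U (S.k i) (tau κ μ Y₂) x ≤ K * μ * tauf κ μ S.a Y₂ x := by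
  have hμ₀ : 0 < min (κ / 4) ((S.b - κ) / 2) :=
    lt_min (by linarith [hκ.pos]) (by linarith [hκ.lt])
  set μ₀ := min (κ / 4) ((S.b - κ) / 2) with hdef
  have h1 : μ₀ ≤ κ / 4 := min_le_left _ _
  have h2 : μ₀ ≤ (S.b - κ) / 2 := min_le_right _ _
  have h3 : κ + μ₀ < S.b := by linarith [hκ.lt]
  have h4 : ∀ i, ∃ K : ℝ, 0 ≤ K ∧ (S.Crit κ i → ∀ μ : ℝ, 0 ≤ μ → μ ≤ μ₀ → ∀ Y₂ x : ℝ,
      U (S.k i) (tau κ μ Y₂) x ≤ K * μ * tauf κ μ S.a Y₂ x) := by
    intro i
    by_cases hc : S.Crit κ i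
    · have h5 := S.intP i hc.1
      rw [hc.2] at h5
      obtain ⟨K, hK, h6⟩ := r1e_one (S.hk i) S.ha S.hb (by linarith [S.hab, S.hb])
        (by linarith [S.hab, S.ha]) S.hC (S.hs i) (S.patP i hc.1) hμ₀
        (by linarith [hκ.pos]) h3 h5
      exact ⟨K, hK, fun _ => h6⟩
    · exact ⟨0, le_rfl, fun h => absurd h hc⟩
  choose K hK hKU using h4
  have hsum : 0 ≤ ∑ i, K i := Finset.sum_nonneg fun i _ => hK i
  refine ⟨μ₀, 1 + ∑ i, K i, hμ₀, h1, h3, by linarith, fun μ hμ hμ0 Y₂ i hi x => ?_⟩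
  refine (hKU i hi μ hμ hμ0 Y₂ x).trans ?_
  have h5 : K i ≤ 1 + ∑ i, K i := by
    have := Finset.single_le_sum (f := K) (fun j _ => hK j) (Finset.mem_univ i)
    linarith
  exact mul_le_mul_of_nonneg_right (mul_le_mul_of_nonneg_right h5 hμ) (Real.exp_pos _).le

end INDB
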