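import Pool.Agent.INDB.R1a
import Pool.Agent.INDB.R1e
import Pool.Agent.INDB.R1b
import Pool.Agent.INDB.R1c
import Pool.Agent.INDB.R1d
import Pool.Agent.INDB.CutR

/-!
# INDB, module R1: the right side when there is a ray of kind `P`

PROOF. `κ = min {kap i | kind P}` is a critical rate (`CritRate`; finite set, `kapP`). Let `C₁, c₄` be the constants of `cut_right` for `crit = univ.filter (S.Crit κ)`; `μ₀` = minimum of the `μ₀` of `r1a`, `r1e`; `δ`, `K₁` the constants there (`r1e`: `K * μ * tauf`); `K` of `r1b` for this `μ₀`;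
`K₉ = K (C₁ + 1)`; `m ∈ (0, μ₀]` with `K₁ m K₉ ≤ δ/2`. `σ = κ - m/4` (`Sub`: `0 < σ < κ ≤ kap i`, `σ < b`), `ε = m/64`. Given `RHyp σ ε T n` with `T ≥ T₀`, let `M = ⌊T/8⌋₊`, `Y₂ = M`.
If for some natural `Y`, `1 ≤ Y ≤ M`: `C₁ Or Y ≤ Bt Y`: `cut_right` gives `n'` with `G n' y ≥ c₄ Bt(Y) w(Y-y)` for a.e. `y` (for `y < Y < T`: `G n y ≥ 0`), `w(Y-y) ≥ w(Y) w(-y)`, and `Bt Y ≥ C₁ w(-Y) > 0`: strict.
(The sums of `cut_right` are exactly `Bt`, `Or`.) Otherwise `Bt Y < C₁ Or Y` for all these `Y`, `r1b` (with `C₁`) gives the hypothesis `hd` of `r1c` (`Or`-type sums are nonnegative, `K C₁ ≤ K₉`), `Q = e^{ε T} ≤ e^{mT/2}`: `∑ ∫ tauf ≤ K₁₀ e^{εT} =: B`.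
`r1d` with `η = e^{-εT}`: need `K B e^{-(m/2) M} ≤ e^{-εT}`, true for large `T` because `M ≥ T/8 - 1`, `m/16 > 2 m/64`. Also `Y₀ ≤ M < T` for large `T`.
-/

open MeasureTheory Set Filter Topology

namespace INDB

theorem r1 {ι : Type} [Fintype ι] (S : Sys ι) (hP : ∃ i, S.kind i = Kind.P) :
    ∃ σ ε T₀ : ℝ, S.Sub σ ∧ 0 < ε ∧ ∀ (T : ℝ) (n : ι → Measure ℝ), T₀ ≤ T → S.RHyp σ ε T n →
      S.Strict := by
  classical
  have ha := S.ha
  have hb := S.hb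
  have hab := S.hab
  -- the critical rate
  obtain ⟨κ, hκ⟩ : ∃ κ, S.CritRate κ := by
    obtain ⟨i₁, hi₁⟩ := hP
    obtain ⟨i₀, hi₀, hmin⟩ := Finset.exists_min_image
      (Finset.univ.filter fun i => S.kind i = Kind.P) S.kap
      ⟨i₁, Finset.mem_filter.2 ⟨Finset.mem_univ _, hi₁⟩⟩
    have h0 := (Finset.mem_filter.1 hi₀).2
    exact ⟨S.kap i₀, ⟨i₀, h0, rfl⟩,
      fun i hi => hmin i (Finset.mem_filter.2 ⟨Finset.mem_univ _, hi⟩),
      (S.kapP i₀ h0).1, (S.kapP i₀ h0).2⟩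
  have hκ0 := hκ.pos
  have hκb := hκ.lt
  obtain ⟨μa, δ, ha1, ha2, ha3, hδ, hra⟩ := r1a S hκ
  obtain ⟨μe, K₁, he1, he2, he3, hK₁, hre⟩ := r1e S hκ
  obtain ⟨μ₀, hμ₀⟩ : ∃ μ₀, μ₀ = min μa μe := ⟨_, rfl⟩
  have hμ0 : 0 < μ₀ := by rw [hμ₀]; exact lt_min ha1 he1
  have hμa : μ₀ ≤ μa := by rw [hμ₀]; exact min_le_left _ _
  have hμe : μ₀ ≤ μe := by rw [hμ₀]; exact min_le_right _ _
  obtain ⟨K, hK, hrb⟩ := r1b S hκ0 hμ0.le (by linarith)
  obtain ⟨i0, hi0⟩ := hκ.ex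
  obtain ⟨C₁, c₄, hC₁, hc₄, hcut⟩ := cut_right ha hb hab S.hc S.hC S.k S.kt S.s
    (Finset.univ.filter (S.Crit κ)) i0 (Finset.mem_filter.2 ⟨Finset.mem_univ _, hi0⟩) S.hk S.hkt
    S.hs (fun i hi => S.patP i (Finset.mem_filter.1 hi).2.1)
  obtain ⟨K₉, hK₉d⟩ : ∃ K₉, K₉ = K * (C₁ + 1) := ⟨_, rfl⟩
  have hK₉ : 0 < K₉ := by rw [hK₉d]; positivity
  obtain ⟨m, hm⟩ : ∃ m, m = min μ₀ (δ / (2 * K₁ * K₉)) := ⟨_, rfl⟩
  have hm0 : 0 < m := by rw [hm]; positivity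
  have hmμ : m ≤ μ₀ := by rw [hm]; exact min_le_left _ _
  have hsm : K₁ * m * K₉ ≤ δ / 2 := by
    have h1 : m ≤ δ / (2 * K₁ * K₉) := by rw [hm]; exact min_le_right _ _
    calc K₁ * m * K₉ = m * (K₁ * K₉) := by ring
      _ ≤ δ / (2 * K₁ * K₉) * (K₁ * K₉) := by gcongr
      _ = δ / 2 := by field_simp
  obtain ⟨K₁₀, T₁, hK₁₀, hT₁, hrc⟩ := r1c S (κ := κ) (m := m) hm0 (by linarith) (by linarith) hδ hK₁ hK₉ hsm
  obtain ⟨K₁₁, Y₀, hK₁₁, hY₀, hrd⟩ := r1d S hκ hm0 (by linarith)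
  obtain ⟨T₂, hT₂⟩ : ∃ T₂, T₂ = 32 / m * (Real.log (K₁₁ * K₁₀) + m / 2) := ⟨_, rfl⟩
  refine ⟨κ - m / 4, m / 64, max T₁ (max (8 * (Y₀ + 1)) T₂), ⟨by linarith, by linarith,
    fun i hi => ?_⟩, by linarith, ?_⟩
  · have := hκ.le i hi
    linarith
  intro T n hT hn
  have hTa : T₁ ≤ T := (le_max_left _ _).trans hT
  have hTb : 8 * (Y₀ + 1) ≤ T := (le_max_left _ _).trans ((le_max_right _ _).trans hT)
  have hTc : T₂ ≤ T := (le_max_right _ _).trans ((le_max_right _ _).trans hT)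
  have hfin := hn.fin
  have hT0 : 0 ≤ T / 8 := by linarith
  obtain ⟨M, hM⟩ : ∃ M : ℕ, M = ⌊T / 8⌋₊ := ⟨_, rfl⟩
  have hM1 : (M : ℝ) ≤ T / 8 := by rw [hM]; exact Nat.floor_le hT0
  have hM2 : T / 8 < M + 1 := by rw [hM]; exact Nat.lt_floor_add_one _
  have hM3 : Y₀ ≤ M := by linarith
  have hM4 : 1 ≤ M := by
    have : (1 : ℝ) ≤ M := by linarith
    exact_mod_cast this
  have hG0 : ∀ᵐ y : ℝ, y < T → 0 ≤ G S.k S.kt n y := by
    filter_upwards [hn.slack] with y hy hyT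
    exact (mul_pos (Real.exp_pos _) (w_pos _ _ _)).le.trans (hy hyT)
  by_cases hcase : ∃ Y : ℕ, 1 ≤ Y ∧ Y ≤ M ∧ C₁ * S.Or κ n Y ≤ S.Bt κ n Y
  · -- dominance at `Y`: cut
    obtain ⟨Y, hY1, hYM, hdom⟩ := hcase
    obtain ⟨n', hn'fin, hn1, hn2⟩ := hcut n Y hfin (Nat.cast_nonneg _) hdom
    have hOr : w S.a S.b (-(Y : ℝ)) ≤ S.Or κ n Y := by
      have h1 : 0 ≤ ∑ i ∈ (Finset.univ.filter (S.Crit κ))ᶜ, ∫ x, w S.a S.b (x - Y) ∂(n i) :=
        Finset.sum_nonneg fun i _ => integral_nonneg fun x => (w_pos _ _ _).le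
      unfold Sys.Or
      linarith
    have hBt : 0 < S.Bt κ n Y :=
      lt_of_lt_of_le (mul_pos hC₁ (lt_of_lt_of_le (w_pos _ _ _) hOr)) hdom
    have hYT : (Y : ℝ) < T := by
      have h1 : (Y : ℝ) ≤ M := by exact_mod_cast hYM
      linarith
    refine ⟨c₄ * S.Bt κ n Y * w S.a S.b Y, n', mul_pos (mul_pos hc₄ hBt) (w_pos _ _ _), hn'fin,
      ?_⟩
    have hne : ∀ᵐ y : ℝ, y ≠ (Y : ℝ) := by
      rw [ae_iff]
      simp
    filter_upwards [hn1, hn2, hG0, hne] with y h1 h2 h3 h4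
    have h5 : c₄ * S.Bt κ n Y * w S.a S.b Y * w S.a S.b (-y) ≤
        c₄ * S.Bt κ n Y * w S.a S.b (Y - y) := by
      rw [mul_assoc]
      refine mul_le_mul_of_nonneg_left ?_ (mul_pos hc₄ hBt).le
      rw [sub_eq_add_neg]
      exact w_add_ge ha.le hb.le _ _
    refine h5.trans ?_
    rcases lt_or_gt_of_ne h4 with h6 | h6
    · have h7 := h1 h6
      have h8 := h3 (h6.trans hYT)
      refine le_trans ?_ h7
      have h9 : c₄ * S.Bt κ n Y * w S.a S.b (Y - y) = c₄ * (∑ i ∈ Finset.univ.filter (S.Crit κ),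
          ∫ x in {x | (Y : ℝ) < x - S.s i}, Real.exp (-(S.a * (x - Y))) ∂(n i)) *
          w S.a S.b (Y - y) := rfl
      rw [h9]
      linarith
    · exact h2 h6
  · -- no dominance
    push Not at hcase
    have hb1 := hrb m hm0.le hmμ C₁ M n hC₁.le hfin
      (fun Y h1 h2 => (hcase Y h1 h2).le) hM4
    have hsum0 : 0 ≤ ∑ i ∈ (Finset.univ.filter (S.Crit κ))ᶜ, ∫ x, tauf κ m S.a M x ∂(n i) :=
      Finset.sum_nonneg fun i _ => integral_nonneg fun x => (Real.exp_pos _).le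
    have hb2 : ∑ i ∈ Finset.univ.filter (S.Crit κ),
        ∫ x in {x | 1 < x - S.s i}, tauf κ m S.a M x ∂(n i) ≤
        K₉ * ((∑ i ∈ (Finset.univ.filter (S.Crit κ))ᶜ, ∫ x, tauf κ m S.a M x ∂(n i)) + 1) := by
      refine hb1.trans (mul_le_mul_of_nonneg_right ?_ (by linarith))
      rw [hK₉d]
      nlinarith
    have hQ1 : 1 ≤ Real.exp (m / 64 * T) := Real.one_le_exp (by nlinarith)
    have hc1 := hrc T (Real.exp (m / 64 * T)) M n hTa hQ1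
      (Real.exp_le_exp.2 (by nlinarith)) (Nat.cast_nonneg _) hM1 hfin hG0 hn.mass
      (fun i x hx hxT => by
        rw [← Real.exp_add]
        refine (hn.decay i x hx hxT).trans (Real.exp_le_exp.2 ?_)
        linarith)
      (fun i hi x => hra m hm0.le (hmμ.trans hμa) M i hi x)
      (fun i hi x => hre m hm0.le (hmμ.trans hμe) M i hi x) hb2
    refine hrd T M (K₁₀ * Real.exp (m / 64 * T)) (Real.exp (-(m / 64 * T))) n hM3 (by linarith)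
      (one_le_mul_of_one_le_of_one_le hK₁₀ hQ1) (Real.exp_pos _) hfin hn.slack hc1 ?_
    have hlog : K₁₁ * K₁₀ = Real.exp (Real.log (K₁₁ * K₁₀)) :=
      (Real.exp_log (by positivity)).symm
    rw [← mul_assoc, hlog, ← Real.exp_add, ← Real.exp_add]
    apply Real.exp_le_exp.2
    have h1 : Real.log (K₁₁ * K₁₀) + m / 2 ≤ m / 32 * T := by
      rw [hT₂] at hTc
      calc Real.log (K₁₁ * K₁₀) + m / 2 = m / 32 * (32 / m * (Real.log (K₁₁ * K₁₀) + m / 2)) := by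
            field_simp
        _ ≤ m / 32 * T := mul_le_mul_of_nonneg_left hTc (by positivity)
    have h2 : m / 2 * (T / 8 - 1) ≤ m / 2 * M :=
      mul_le_mul_of_nonneg_left (by linarith) (by positivity)
    linarith

end INDB
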