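import Pool.Agent.INDB.Meas

/-!
# INDB, module RDefs: definitions for the right side
-/

open MeasureTheory Set Filter Topology

namespace INDB

/-- test function: rate `κ + μ` up to `Y₂`, rate `κ - μ` after `Y₂` -/
noncomputable def tau (κ μ Y₂ y : ℝ) : ℝ :=
  Real.exp ((κ + μ) * min y Y₂ + (κ - μ) * max (y - Y₂) 0)

/-- the smaller function: rate `κ + μ` up to `Y₂`, then decay with the rate `a` -/
noncomputable def tauf (κ μ a Y₂ y : ℝ) : ℝ :=
  Real.exp ((κ + μ) * min y Y₂ - a * max (y - Y₂) 0)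

namespace Sys

variable {ι : Type} [Fintype ι] (S : Sys ι)

/-- the critical rays on the right -/
def Crit (κ : ℝ) (i : ι) : Prop := S.kind i = Kind.P ∧ S.kap i = κ

/-- `κ` is the critical rate, attained by a ray of kind `P` -/
structure CritRate (κ : ℝ) : Prop where
  ex : ∃ i, S.kind i = Kind.P ∧ S.kap i = κ
  le : ∀ i, S.kind i = Kind.P → κ ≤ S.kap i
  pos : 0 < κ
  lt : κ < S.b

open Classical in
/-- critical mass to the right of `Y` -/
noncomputable def Bt (κ : ℝ) (n : ι → Measure ℝ) (Y : ℝ) : ℝ :=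
  ∑ i ∈ Finset.univ.filter (S.Crit κ), ∫ x in {x | Y < x - S.s i}, Real.exp (-(S.a * (x - Y))) ∂(n i)

open Classical in
/-- other mass near `Y` -/
noncomputable def Or (κ : ℝ) (n : ι → Measure ℝ) (Y : ℝ) : ℝ :=
  (∑ i ∈ (Finset.univ.filter (S.Crit κ))ᶜ, ∫ x, w S.a S.b (x - Y) ∂(n i)) + w S.a S.b (-Y)

/-- coefficient of `e^{-b y}` at `y`: `-At + ∑ A_i ∫_{x<y} e^{b x} dn_i` over the kinds `L`, `M` -/
noncomputable def Dn (n : ι → Measure ℝ) (y : ℝ) : ℝ :=
  (∑ i, if S.kind i = Kind.L ∨ S.kind i = Kind.M then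
    S.A i * ∫ x in Iio y, Real.exp (S.b * x) ∂(n i) else 0) - S.At

/-- local mass near `y` with the weight `e^{b x}` -/
noncomputable def loc (n : ι → Measure ℝ) (y : ℝ) : ℝ :=
  (∑ i, if S.kind i = Kind.L ∨ S.kind i = Kind.M then
    ∫ x, Real.exp (S.b * x - |x - y|) ∂(n i) else 0) + Real.exp (-y)

/-- mass with the weight `e^{b x}` in `[i, k)` -/
noncomputable def nu (n : ι → Measure ℝ) (y z : ℝ) : ℝ :=
  ∑ i, if S.kind i = Kind.L ∨ S.kind i = Kind.M then
    ∫ x in Ico y z, Real.exp (S.b * x) ∂(n i) else 0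

/-- the hypotheses of the right side: slack on `(-∞, T)`, masses at most `e^{ε T}`, decay `e^{-σ x}` -/
structure RHyp (σ ε T : ℝ) (n : ι → Measure ℝ) : Prop where
  fin : ∀ i, IsFiniteMeasure (n i)
  slack : ∀ᵐ y : ℝ, y < T → Real.exp (-(ε * T)) * w S.a S.b (-y) ≤ G S.k S.kt n y
  mass : ∀ i, (n i).real univ ≤ Real.exp (ε * T)
  decay : ∀ i x, 0 ≤ x → x ≤ T → (n i).real (Ici x) ≤ Real.exp (ε * T - σ * x)

end Sys

end INDB
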