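import Pool.Agent.INDB.Apri
import Pool.Agent.INDB.CaseD
import Pool.Agent.INDB.CNg
import Pool.Agent.INDB.LimB
import Pool.Agent.INDB.Attach

/-!
# INDB, module Stage: every large window is solvable

PROOF. Order of the constants: `σ, ε, T₀` of `rx`; `sg = σ`; `κ ∈ (σ, 1)` with `Sub κ` (finitely many strict upper bounds `b`, `kap i`; `b < 1`); `K', b₀` of `apri`; `C₁, c₆, Y₀` of `case_d`; `μ, K, b₁, X₁` of `cn_tails` (for `C₁, K', Y₀`). `c0 = 1/κ` (`≥ 1`).
`CM = 4/μ + 1`; `lam` large. `X₀` large: then `OK κ C` for `p = ⟨be, X, c0, σ, CM log X, lam CM log X⟩` and all `be ∈ [b₂, X]`, `b₂ = max b₀ b₁`; `T₀ ≤ M'`; `M + 1 ≤ √X`; `Y₀ + 3 ≤ M`; `X₁ ≤ X`.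
Suppose that the conclusion fails for all `X₀`: for every `m` there is `X_m ≥ m` (large) and `be_m ∈ [b₂, X_m]` without solution, `p_m`. `apri` gives `n_m`; `¬ S.Strict` by `attach`; `case_d` gives `NoDom`; `cn_tails` gives the bounds for `hat_m`. `lim_cert` with `W m = M_m → ∞`, `e m = K/X_m`, tightness: given `ε'` choose `R` with
`K (e^{-μ R} + e^{-sg R}) ≤ ε'/2`, then for large `m`: `R ≤ (log X_m)/2`, `R ≤ M'_m/2`, `K/√X_m ≤ ε'/2`. The limit is exact and has cost `≤ t`: contradicts `Cert e` with `e > 0`.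
-/

open MeasureTheory Set Filter Topology

namespace INDB

/-- numeric conditions valid for all large `X` -/
private lemma stage_num {κ σ CM lam ε μ C c0 X₁ T₀ c₆ K' F : ℝ} {Y₀ : ℕ} (hσ : 0 < σ) (hε : 0 < ε)
    (hCM : 1 ≤ CM) (h1 : 5 ≤ ε * lam) (h2 : 3 ≤ σ * lam) (hl : 0 < lam) (hc₆ : 0 < c₆) :
    ∀ᶠ X : ℝ in atTop, C + 1 ≤ CM * Real.log X ∧
      16 * (lam * (CM * Real.log X) + c0 + C + 1) ≤ X ∧ 4 ≤ σ * X ∧
      4 * X ^ 2 ≤ Real.exp (σ * (lam * (CM * Real.log X))) ∧ X₁ ≤ X ∧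
      CM * Real.log X + 1 ≤ Real.sqrt X ∧ (Y₀ : ℝ) + 3 ≤ CM * Real.log X ∧
      T₀ ≤ lam * (CM * Real.log X) ∧
      Real.exp (-(ε * (lam * (CM * Real.log X)))) ≤ c₆ * Real.exp (-(CM * Real.log X)) ∧
      K' * F * (X ^ 2 * Real.exp (CM * Real.log X)) ≤ Real.exp (ε * (lam * (CM * Real.log X))) ∧
      1 ≤ X := by
  have hlog : Tendsto Real.log atTop atTop := Real.tendsto_log_atTop
  have hM : Tendsto (fun X => CM * Real.log X) atTop atTop := hlog.const_mul_atTop (by linarith)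
  have hM' : Tendsto (fun X => lam * (CM * Real.log X)) atTop atTop := hM.const_mul_atTop hl
  have hlo : ∀ D : ℝ, ∀ c > 0, ∀ᶠ X : ℝ in atTop, D * Real.log X ≤ c * X := by
    intro D c hc
    have := (Real.isLittleO_log_id_atTop.def (show 0 < c / (|D| + 1) by positivity))
    filter_upwards [this, eventually_ge_atTop 1] with X hX hX1
    rw [Real.norm_eq_abs, Real.norm_eq_abs, id, abs_of_nonneg (Real.log_nonneg hX1),
      abs_of_nonneg (show (0 : ℝ) ≤ X by linarith)] at hX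
    have hD := le_abs_self D
    have h0 := Real.log_nonneg hX1
    calc D * Real.log X ≤ (|D| + 1) * Real.log X := by (first | linarith | nlinarith)
      _ ≤ (|D| + 1) * (c / (|D| + 1) * X) := by gcongr
      _ = c * X := by field_simp
  have hsq : ∀ D c : ℝ, 0 < c → ∀ᶠ X : ℝ in atTop, D * Real.log X ≤ c * Real.sqrt X := by
    intro D c hc
    have h := (Real.tendsto_sqrt_atTop.eventually (hlo (2 * D) c hc))
    filter_upwards [h, eventually_ge_atTop 0] with X hX hX1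
    rw [Real.log_sqrt hX1] at hX
    linarith
  filter_upwards [hM.eventually_ge_atTop (C + 1), hlo (16 * (lam * CM)) (1 / 2) (by norm_num),
    eventually_ge_atTop (2 * (16 * (c0 + C + 1))), eventually_ge_atTop (4 / σ),
    eventually_ge_atTop 4, eventually_ge_atTop X₁, hsq CM (1 / 2) (by norm_num),
    Real.tendsto_sqrt_atTop.eventually_ge_atTop 2, hM.eventually_ge_atTop ((Y₀ : ℝ) + 3),
    hM'.eventually_ge_atTop T₀, eventually_ge_atTop (1 / c₆), eventually_ge_atTop (|K' * F| + 1)]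
    with X a1 a2 a3 a4 a5 a6 a7 a8 a9 a10 a11 a12
  have hX0 : 0 < X := by linarith
  have hX1 : 1 ≤ X := by linarith
  have hlog0 : 0 ≤ Real.log X := Real.log_nonneg hX1
  have hlog1 : 1 ≤ Real.log X := by
    rw [Real.le_log_iff_exp_le hX0]
    have := Real.exp_one_lt_d9
    linarith
  have hML : Real.log X ≤ CM * Real.log X := by (first | linarith | nlinarith)
  have hX3 : ∀ n : ℕ, Real.exp (n * Real.log X) = X ^ n := by
    intro n
    rw [Real.exp_nat_mul, Real.exp_log hX0]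
  refine ⟨a1, by linarith, ?_, ?_, a6, by linarith, a9, a10, ?_, ?_, hX1⟩
  · rw [div_le_iff₀ hσ] at a4
    linarith
  · have e1 : 3 * Real.log X ≤ σ * (lam * (CM * Real.log X)) := by (first | linarith | nlinarith)
    calc 4 * X ^ 2 ≤ X * X ^ 2 := by (first | linarith [sq_nonneg X] | nlinarith [sq_nonneg X])
      _ = Real.exp ((3 : ℕ) * Real.log X) := by rw [hX3]; ring
      _ ≤ _ := Real.exp_le_exp.2 (by push_cast; linarith)
  · have e1 : 5 * (CM * Real.log X) ≤ ε * (lam * (CM * Real.log X)) := by (first | linarith | nlinarith)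
    have e2 : 1 ≤ c₆ * X := by
      rw [div_le_iff₀ hc₆] at a11
      linarith
    calc Real.exp (-(ε * (lam * (CM * Real.log X))))
        ≤ Real.exp (-(CM * Real.log X) + -Real.log X) := Real.exp_le_exp.2 (by linarith)
      _ = Real.exp (-(CM * Real.log X)) * X⁻¹ := by
          rw [Real.exp_add, Real.exp_neg (Real.log X), Real.exp_log hX0]
      _ ≤ Real.exp (-(CM * Real.log X)) * c₆ := by
          gcongr
          rw [inv_le_iff_one_le_mul₀ hX0]
          exact e2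
      _ = _ := mul_comm _ _
  · have e1 : 5 * (CM * Real.log X) ≤ ε * (lam * (CM * Real.log X)) := by (first | linarith | nlinarith)
    have e3 : K' * F ≤ X := (le_abs_self _).trans (by linarith)
    calc K' * F * (X ^ 2 * Real.exp (CM * Real.log X))
        ≤ X * (X ^ 2 * Real.exp (CM * Real.log X)) := by gcongr
      _ = Real.exp ((3 : ℕ) * Real.log X) * Real.exp (CM * Real.log X) := by rw [hX3]; ring
      _ = Real.exp ((3 : ℕ) * Real.log X + CM * Real.log X) := by rw [Real.exp_add]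
      _ ≤ _ := Real.exp_le_exp.2 (by push_cast; linarith)

theorem stage {ι : Type} [Fintype ι] (S : Sys ι) {e : ℝ} (he : 0 < e) (hcert : S.Cert e) :
    ∃ κ sg c0 CM lam b₂ X₀ : ℝ, S.Sub κ ∧ 0 < sg ∧ sg < κ ∧ 0 < CM ∧ 1 ≤ lam ∧ 1 ≤ b₂ ∧ 1 ≤ X₀ ∧
      ∀ X be : ℝ, X₀ ≤ X → b₂ ≤ be → be ≤ X →
        (⟨be, X, c0, sg, CM * Real.log X, lam * (CM * Real.log X)⟩ : Par).OK κ S.C ∧
        ∃ N, S.Sol ⟨be, X, c0, sg, CM * Real.log X, lam * (CM * Real.log X)⟩ N := by
  classical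
  obtain ⟨σ, ε, T₀, hσ, hε, hrx⟩ := rx S
  have hσ0 := hσ.1
  obtain ⟨κ, hσκ, hκb, hκP⟩ : ∃ κ, σ < κ ∧ κ < S.b ∧ ∀ i, S.kind i = Kind.P → κ < S.kap i := by
    have h1 : ∀ᶠ κ in 𝓝[>] σ, κ < S.b :=
      eventually_nhdsWithin_of_eventually_nhds (eventually_lt_nhds hσ.2.1)
    have h2 : ∀ᶠ κ in 𝓝[>] σ, ∀ i, S.kind i = Kind.P → κ < S.kap i := by
      rw [eventually_all]
      intro i
      by_cases hi : S.kind i = Kind.P
      · exact (eventually_nhdsWithin_of_eventually_nhds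
          (eventually_lt_nhds (hσ.2.2 i hi))).mono fun _ h _ => h
      · exact Eventually.of_forall fun _ h => absurd h hi
    have h0 : ∀ᶠ κ in 𝓝[>] σ, κ ∈ Ioi σ := self_mem_nhdsWithin
    obtain ⟨κ, h3, h4, h5⟩ := (h0.and (h1.and h2)).exists
    exact ⟨κ, h3, h4, h5⟩
  have hκ0 : 0 < κ := hσ0.trans hσκ
  have hκ : S.Sub κ := ⟨hκ0, hκb, hκP⟩
  have hκ1 : κ < 1 := by
    have := S.ha
    have := S.hab
    linarith
  obtain ⟨K', b₀, hK', hb₀, hap⟩ := apri S hκ hσ0 hσκ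
  obtain ⟨C₁, c₆, Y₀, hC₁, hc₆, hY₀, hcd⟩ := case_d (κ := κ) S hσ0 hε hrx
  obtain ⟨μ, K, b₁, X₁, hμ, hK, hb₁, hX₁, htl⟩ := cn_tails (Y₀ := Y₀) S hκ hσ0 hσκ hC₁ hK'
  set CM : ℝ := 4 / μ + 1 with hCMd
  have hCM1 : 1 ≤ CM := by
    have : 0 < 4 / μ := by positivity
    linarith
  have hμCM : 4 ≤ μ * CM := by
    rw [hCMd, mul_add, mul_div_cancel₀ _ hμ.ne']
    linarith
  set lam : ℝ := 2 / (κ - σ) + 5 / ε + 3 / σ + 1 with hlamd
  have hκσ : 0 < κ - σ := sub_pos.2 hσκ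
  have hl1 : 0 < 2 / (κ - σ) := by positivity
  have hl2 : 0 < 5 / ε := by positivity
  have hl3 : 0 < 3 / σ := by positivity
  have hlam1 : 1 ≤ lam := by linarith
  have hεl : 5 ≤ ε * lam := by
    have : ε * (5 / ε) = 5 := mul_div_cancel₀ _ hε.ne'
    (first | linarith | nlinarith)
  have hσl : 3 ≤ σ * lam := by
    have : σ * (3 / σ) = 3 := mul_div_cancel₀ _ hσ0.ne'
    (first | linarith | nlinarith)
  have hκl : 2 ≤ (κ - σ) * lam := by
    have : (κ - σ) * (2 / (κ - σ)) = 2 := mul_div_cancel₀ _ hκσ.ne'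
    (first | linarith | nlinarith)
  have hev := stage_num (κ := κ) (σ := σ) (CM := CM) (lam := lam) (ε := ε) (μ := μ) (C := S.C)
    (c0 := 1 / κ) (X₁ := X₁) (T₀ := T₀) (c₆ := c₆) (K' := K')
    (F := 1 + Fintype.card ι * Real.exp S.C) (Y₀ := Y₀) hσ0 hε hCM1 hεl hσl (by linarith) hc₆
  obtain ⟨X₂, hX₂⟩ := eventually_atTop.1 hev
  have hb₂ : 1 ≤ max b₀ b₁ := hb₀.trans (le_max_left _ _)
  -- the parameters are admissible
  have hOK : ∀ X be : ℝ, X₂ ≤ X → max b₀ b₁ ≤ be → be ≤ X →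
      (⟨be, X, 1 / κ, σ, CM * Real.log X, lam * (CM * Real.log X)⟩ : Par).OK κ S.C := by
    intro X be hX hbe hbeX
    obtain ⟨a1, a2, a3, a4, -, -, -, -, -, -, a5⟩ := hX₂ X hX
    have hC := S.hC
    have hM0 : 0 ≤ CM * Real.log X := by linarith
    refine ⟨hb₂.trans hbe, hbeX, ?_, ?_, hκ1, hσ0, hσκ, hC, a1, ?_, a2, a3, a4⟩
    · show 1 ≤ 1 / κ
      rw [le_div_iff₀ hκ0]
      linarith
    · show 1 ≤ κ * (1 / κ)
      rw [mul_one_div_cancel hκ0.ne']
    · show (1 + 1) * (CM * Real.log X) ≤ (κ - σ) * (lam * (CM * Real.log X))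
      (first | linarith | nlinarith)
  refine ⟨κ, σ, 1 / κ, CM, lam, max b₀ b₁, ?_⟩
  by_contra hcon
  have hfail : ∀ m : ℕ, ∃ X be : ℝ, max (max X₂ 1) m ≤ X ∧ max b₀ b₁ ≤ be ∧ be ≤ X ∧
      ¬ ∃ N, S.Sol ⟨be, X, 1 / κ, σ, CM * Real.log X, lam * (CM * Real.log X)⟩ N := by
    intro m
    by_contra hm
    push Not at hm
    refine hcon ⟨max (max X₂ 1) m, hκ, hσ0, hσκ, by linarith, hlam1, hb₂,
      (le_max_right _ _).trans (le_max_left _ _), ?_⟩
    intro X be hX hbe hbeX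
    refine ⟨hOK X be (((le_max_left _ _).trans (le_max_left _ _)).trans hX) hbe hbeX, ?_⟩
    exact hm X be hX hbe hbeX
  choose X be hXm hbem hbeX hno using hfail
  have hX2 : ∀ m, X₂ ≤ X m := fun m => ((le_max_left _ _).trans (le_max_left _ _)).trans (hXm m)
  have hXge : ∀ m : ℕ, (m : ℝ) ≤ X m := fun m => (le_max_right _ _).trans (hXm m)
  have hXt : Tendsto X atTop atTop := tendsto_atTop_mono hXge tendsto_natCast_atTop_atTop
  set p : ℕ → Par := fun m =>
    ⟨be m, X m, 1 / κ, σ, CM * Real.log (X m), lam * (CM * Real.log (X m))⟩ with hp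
  have hpOK : ∀ m, (p m).OK κ S.C := fun m => hOK _ _ (hX2 m) (hbem m) (hbeX m)
  have hn : ∀ m, ∃ n : ι → Measure ℝ, S.WC (p m) n ∧ S.AP (p m) K' n := fun m =>
    hap (p m) (hpOK m) rfl ((le_max_left _ _).trans (hbem m)) (hno m)
  choose n hWC hAP using hn
  have hns : ¬ S.Strict := fun h => attach S hcert h
  have hND : ∀ m, S.NoDom C₁ Y₀ (p m) (n m) := by
    intro m
    obtain ⟨a1, a2, a3, a4, a5, a6, a7, a8, a9, a10, a11⟩ := hX₂ (X m) (hX2 m)
    exact hcd (p m) K' (n m) (hpOK m) rfl hK' (hWC m) (hAP m) a8 a9 a10 hns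
  have hT : ∀ m, _ := fun m => htl (p m) (n m) (hpOK m) rfl ((le_max_right _ _).trans (hbem m))
    (hX₂ (X m) (hX2 m)).2.2.2.2.1
    (by
      show 4 * Real.log (X m) ≤ μ * (CM * Real.log (X m))
      have h0 := Real.log_nonneg (hX₂ (X m) (hX2 m)).2.2.2.2.2.2.2.2.2.2
      (first | linarith | nlinarith))
    (hX₂ (X m) (hX2 m)).2.2.2.2.2.1 (hX₂ (X m) (hX2 m)).2.2.2.2.2.2.1 (hWC m) (hAP m) (hND m)
  have hlogt : Tendsto (fun m => Real.log (X m)) atTop atTop := Real.tendsto_log_atTop.comp hXt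
  have hMt : Tendsto (fun m => CM * Real.log (X m)) atTop atTop :=
    hlogt.const_mul_atTop (by linarith)
  have hM't : Tendsto (fun m => lam * (CM * Real.log (X m))) atTop atTop :=
    hMt.const_mul_atTop (by linarith)
  have het : Tendsto (fun m => K / X m) atTop (𝓝 0) := hXt.const_div_atTop K
  have htight : ∀ ε' > 0, ∃ R : ℝ, ∃ m₀ : ℕ, ∀ m, m₀ ≤ m → ∀ i,
      (S.hat (p m) (n m) i).real {x | R < |x|} ≤ ε' := by
    intro ε' hε'
    have hK0 : 0 < K := by linarith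
    obtain ⟨R, hR0, hR1, hR2⟩ : ∃ R : ℝ, 0 ≤ R ∧ K * Real.exp (-(μ * R)) ≤ ε' / 3 ∧
        K * Real.exp (-(σ * R)) ≤ ε' / 3 := by
      have h1 : ∀ c > 0, Tendsto (fun R => K * Real.exp (-(c * R))) atTop (𝓝 (K * 0)) := by
        intro c hc
        refine Tendsto.const_mul K ?_
        exact Real.tendsto_exp_neg_atTop_nhds_zero.comp (tendsto_id.const_mul_atTop hc)
      have h2 := (h1 μ hμ).eventually_le_const (show K * 0 < ε' / 3 by linarith [mul_zero K])
      have h3 := (h1 σ hσ0).eventually_le_const (show K * 0 < ε' / 3 by linarith [mul_zero K])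
      obtain ⟨R, h4, h5, h6⟩ := ((eventually_ge_atTop (0 : ℝ)).and (h2.and h3)).exists
      exact ⟨R, h4, h5, h6⟩
    have hsq : Tendsto (fun m => K * (1 / Real.sqrt (X m))) atTop (𝓝 (K * 0)) := by
      refine Tendsto.const_mul K ?_
      exact (Real.tendsto_sqrt_atTop.comp hXt).const_div_atTop 1
    obtain ⟨m₀, hm₀⟩ := eventually_atTop.1
      ((hlogt.eventually_ge_atTop (2 * R)).and ((hM't.eventually_ge_atTop (2 * R)).and
        (hsq.eventually_le_const (show K * 0 < ε' / 3 by linarith [mul_zero K]))))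
    refine ⟨R, m₀, fun m hm i => ?_⟩
    obtain ⟨b1, b2, b3⟩ := hm₀ m hm
    have hfin := (hT m).1 i
    have hsub : {x : ℝ | R < |x|} ⊆ Iio (-R) ∪ Ici R := by
      intro x hx
      rcases lt_abs.1 (show R < |x| from hx) with h | h
      · exact Or.inr h.le
      · exact Or.inl (by show x < -R; linarith)
    calc (S.hat (p m) (n m) i).real {x | R < |x|}
        ≤ (S.hat (p m) (n m) i).real (Iio (-R) ∪ Ici R) := measureReal_mono hsub
      _ ≤ (S.hat (p m) (n m) i).real (Iio (-R)) + (S.hat (p m) (n m) i).real (Ici R) :=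
          measureReal_union_le _ _
      _ ≤ K * (Real.exp (-(μ * R)) + 1 / Real.sqrt (p m).X) + K * Real.exp (-(σ * R)) := by
          refine add_le_add ((hT m).2.2.2.1 i R hR0 ?_) ((hT m).2.2.2.2.1 i R hR0 ?_)
          · show R ≤ Real.log (X m) / 2
            linarith
          · show R ≤ lam * (CM * Real.log (X m)) / 2
            linarith
      _ ≤ ε' := by
          have : K * (Real.exp (-(μ * R)) + 1 / Real.sqrt (p m).X) =
            K * Real.exp (-(μ * R)) + K * (1 / Real.sqrt (X m)) := by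
            show K * (Real.exp (-(μ * R)) + 1 / Real.sqrt (X m)) = _
            ring
          rw [this]
          linarith
  have hpos : ∀ m, ∀ᵐ y : ℝ, |y| < CM * Real.log (X m) → 0 ≤ G S.k S.kt (S.hat (p m) (n m)) y := by
    intro m
    filter_upwards [(hT m).2.2.2.2.2] with y hy hy2
    have hM0 : CM * Real.log (X m) ≤ lam * (CM * Real.log (X m)) := by
      have h0 := Real.log_nonneg (hX₂ (X m) (hX2 m)).2.2.2.2.2.2.2.2.2.2
      have h1 : 0 ≤ CM * Real.log (X m) := by positivity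
      (first | linarith | nlinarith)
    rw [abs_lt] at hy2
    exact hy hy2.1 (lt_of_lt_of_le hy2.2 hM0)
  obtain ⟨n', hn'f, hn'p, hn'c⟩ := lim_cert S.ha S.hb S.k S.kt S.hk S.hkt S.gam S.t K
    (fun m => S.hat (p m) (n m)) (fun m => (hT m).1) (fun m => CM * Real.log (X m))
    (fun m => K / X m) hMt het (fun m => (hT m).2.2.1) htight hpos (fun m => (hT m).2.1)
  have := hcert n' hn'f hn'p
  linarith

end INDB
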