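import Pool.Agent.INDB.Defs

/-!
# INDB, module W: the weight

PROOFS. Unfold `w`. For `u ≥ 0`: `max u 0 = u`, `max (-u) 0 = 0`; for `u ≤ 0` the other way round. `w_add_ge`: `max (u+v) 0 ≤ max u 0 + max v 0`, same for the negative parts, `Real.exp_le_exp`.
`w_add_same`: equality of the maxima for equal signs. `w_shift`: `max u 0 ≤ max (u+v) 0 + max (-v) 0` and `max (-u) 0 ≤ max (-(u+v)) 0 + max v 0`, so
`a u⁺ + b u⁻ ≤ a (u+v)⁺ + b (u+v)⁻ + a v⁻ + b v⁺ ≤ ... + |v|` (`a, b ≤ 1`); `w_shift_ge` is `w_shift` with `u + v`, `-v`. `w_eq`: `a = 1 - b`.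
`int_w_exp`: on `Ici 0` the function is `e^{(κ-a) u}`, on `Iic 0` it is `e^{(b+κ) u}`
(`integrableOn_exp_mul_Ici`-type lemmas / `integral_exp_mul_Ioi`, `integral_exp_mul_Iic`), values `1/(a-κ)` and `1/(b+κ)`.
-/

open MeasureTheory Set Filter Topology

namespace INDB

lemma w_pos (a b u : ℝ) : 0 < w a b u := Real.exp_pos _

lemma w_nonneg_eq {a b u : ℝ} (h : 0 ≤ u) : w a b u = Real.exp (-(a * u)) := by
  unfold w
  rw [max_eq_left h, max_eq_right (by linarith)]
  congr 1
  ring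

lemma w_nonpos_eq {a b u : ℝ} (h : u ≤ 0) : w a b u = Real.exp (b * u) := by
  unfold w
  rw [max_eq_right h, max_eq_left (by linarith)]
  congr 1
  ring

lemma w_neg (a b u : ℝ) : w b a (-u) = w a b u := by
  unfold w
  rw [neg_neg]
  congr 1
  ring

lemma w_le_one {a b : ℝ} (ha : 0 ≤ a) (hb : 0 ≤ b) (u : ℝ) : w a b u ≤ 1 := by
  unfold w
  rw [Real.exp_le_one_iff]
  have h1 := mul_nonneg ha (le_max_right u 0)
  have h2 := mul_nonneg hb (le_max_right (-u) 0)
  linarith

lemma continuous_w (a b : ℝ) : Continuous (w a b) := by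
  unfold w
  fun_prop

private lemma pos_add (u v : ℝ) : max (u + v) 0 ≤ max u 0 + max v 0 := by
  refine max_le ?_ ?_
  · exact add_le_add (le_max_left _ _) (le_max_left _ _)
  · exact add_nonneg (le_max_right _ _) (le_max_right _ _)

private lemma neg_add' (u v : ℝ) : max (-(u + v)) 0 ≤ max (-u) 0 + max (-v) 0 := by
  have h := pos_add (-u) (-v)
  rwa [← neg_add] at h

lemma w_add_ge {a b : ℝ} (ha : 0 ≤ a) (hb : 0 ≤ b) (u v : ℝ) : w a b u * w a b v ≤ w a b (u + v) := by
  unfold w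
  rw [← Real.exp_add]
  refine Real.exp_le_exp.2 ?_
  have h1 := mul_le_mul_of_nonneg_left (pos_add u v) ha
  have h2 := mul_le_mul_of_nonneg_left (neg_add' u v) hb
  linarith

lemma w_add_same {a b u v : ℝ} (h : 0 ≤ u ∧ 0 ≤ v ∨ u ≤ 0 ∧ v ≤ 0) :
    w a b (u + v) = w a b u * w a b v := by
  rcases h with h | h
  · rw [w_nonneg_eq h.1, w_nonneg_eq h.2, w_nonneg_eq (add_nonneg h.1 h.2), ← Real.exp_add]
    congr 1
    ring
  · rw [w_nonpos_eq h.1, w_nonpos_eq h.2, w_nonpos_eq (add_nonpos h.1 h.2), ← Real.exp_add]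
    congr 1
    ring

lemma w_shift {a b : ℝ} (ha : 0 ≤ a) (hb : 0 ≤ b) (ha1 : a ≤ 1) (hb1 : b ≤ 1) (u v : ℝ) :
    w a b (u + v) ≤ Real.exp |v| * w a b u := by
  unfold w
  rw [← Real.exp_add]
  refine Real.exp_le_exp.2 ?_
  have h1 : max u 0 ≤ max (u + v) 0 + max (-v) 0 := by
    have h := pos_add (u + v) (-v)
    rwa [add_neg_cancel_right] at h
  have h2 : max (-u) 0 ≤ max (-(u + v)) 0 + max v 0 := by
    have h := neg_add' (u + v) (-v)
    rwa [add_neg_cancel_right, neg_neg] at h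
  have h3 := mul_le_mul_of_nonneg_left h1 ha
  have h4 := mul_le_mul_of_nonneg_left h2 hb
  have h5 : a * max (-v) 0 ≤ max (-v) 0 := by
    have := mul_le_mul_of_nonneg_right ha1 (le_max_right (-v) 0)
    linarith
  have h6 : b * max v 0 ≤ max v 0 := by
    have := mul_le_mul_of_nonneg_right hb1 (le_max_right v 0)
    linarith
  have h7 : max (-v) 0 + max v 0 = |v| := by
    rcases le_total 0 v with h | h
    · rw [max_eq_right (by linarith), max_eq_left h, abs_of_nonneg h, zero_add]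
    · rw [max_eq_left (by linarith), max_eq_right h, abs_of_nonpos h, add_zero]
  linarith

lemma w_shift_ge {a b : ℝ} (ha : 0 ≤ a) (hb : 0 ≤ b) (ha1 : a ≤ 1) (hb1 : b ≤ 1) (u v : ℝ) :
    Real.exp (-|v|) * w a b u ≤ w a b (u + v) := by
  have h := w_shift ha hb ha1 hb1 (u + v) (-v)
  rw [add_neg_cancel_right, abs_neg] at h
  calc Real.exp (-|v|) * w a b u ≤ Real.exp (-|v|) * (Real.exp |v| * w a b (u + v)) :=
        mul_le_mul_of_nonneg_left h (Real.exp_pos _).le
    _ = w a b (u + v) := by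
        rw [← mul_assoc, ← Real.exp_add, neg_add_cancel, Real.exp_zero, one_mul]

private lemma max_sub_max (u : ℝ) : max u 0 - max (-u) 0 = u := by
  rcases le_total 0 u with h | h
  · rw [max_eq_left h, max_eq_right (by linarith), sub_zero]
  · rw [max_eq_right h, max_eq_left (by linarith)]
    ring

/-- `w(u) = e^{b u} e^{-u⁺}` -/
lemma w_eq {a b : ℝ} (hab : a + b = 1) (u : ℝ) :
    w a b u = Real.exp (b * u) * Real.exp (-(max u 0)) := by
  unfold w
  rw [← Real.exp_add]
  congr 1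
  have h := max_sub_max u
  have ha : a = 1 - b := by linarith
  subst ha
  linear_combination b * h

/-- `w(u) = e^{-a u} e^{-u⁻}` -/
lemma w_eq' {a b : ℝ} (hab : a + b = 1) (u : ℝ) :
    w a b u = Real.exp (-(a * u)) * Real.exp (-(max (-u) 0)) := by
  unfold w
  rw [← Real.exp_add]
  congr 1
  have h := max_sub_max u
  have hb : b = 1 - a := by linarith
  subst hb
  linear_combination (-a) * h

lemma w_mono_left {a b u v : ℝ} (hb : 0 ≤ b) (h : u ≤ v) (hv : v ≤ 0) : w a b u ≤ w a b v := by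
  rw [w_nonpos_eq hv, w_nonpos_eq (h.trans hv)]
  exact Real.exp_le_exp.2 (mul_le_mul_of_nonneg_left h hb)

lemma w_anti_right {a b u v : ℝ} (ha : 0 ≤ a) (h : u ≤ v) (hu : 0 ≤ u) : w a b v ≤ w a b u := by
  rw [w_nonneg_eq hu, w_nonneg_eq (hu.trans h)]
  exact Real.exp_le_exp.2 (neg_le_neg (mul_le_mul_of_nonneg_left h ha))

private lemma eqOn_Ioi (a b κ : ℝ) :
    EqOn (fun u => w a b u * Real.exp (κ * u)) (fun u => Real.exp ((κ - a) * u)) (Ioi 0) := by
  intro u hu
  simp only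
  rw [w_nonneg_eq (le_of_lt hu), ← Real.exp_add]
  congr 1
  ring

private lemma eqOn_Iic (a b κ : ℝ) :
    EqOn (fun u => w a b u * Real.exp (κ * u)) (fun u => Real.exp ((b + κ) * u)) (Iic 0) := by
  intro u hu
  simp only
  rw [w_nonpos_eq hu, ← Real.exp_add]
  congr 1
  ring

private lemma int_Ioi {a b κ : ℝ} (h2 : κ < a) :
    IntegrableOn (fun u => w a b u * Real.exp (κ * u)) (Ioi 0) := by
  rw [integrableOn_congr_fun (eqOn_Ioi a b κ) measurableSet_Ioi]
  exact integrableOn_exp_mul_Ioi (by linarith) 0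

private lemma int_Iic {a b κ : ℝ} (h1 : -b < κ) :
    IntegrableOn (fun u => w a b u * Real.exp (κ * u)) (Iic 0) := by
  rw [integrableOn_congr_fun (eqOn_Iic a b κ) measurableSet_Iic]
  exact integrableOn_exp_mul_Iic (by linarith) 0

lemma integrable_w_exp {a b κ : ℝ} (h1 : -b < κ) (h2 : κ < a) :
    Integrable (fun u => w a b u * Real.exp (κ * u)) := by
  have h := (int_Iic (a := a) h1).union (int_Ioi (b := b) h2)
  rw [Iic_union_Ioi] at h
  exact integrableOn_univ.1 h

lemma int_w_exp {a b κ : ℝ} (h1 : -b < κ) (h2 : κ < a) :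
    ∫ u, w a b u * Real.exp (κ * u) = 1 / (a - κ) + 1 / (b + κ) := by
  have hd : Disjoint (Iic (0:ℝ)) (Ioi 0) :=
    Set.disjoint_left.2 (fun x (hx : x ≤ 0) (hx2 : 0 < x) => absurd hx2 (not_lt.2 hx))
  have h := setIntegral_union hd measurableSet_Ioi (int_Iic (a := a) h1) (int_Ioi (b := b) h2)
  rw [Iic_union_Ioi, Measure.restrict_univ, setIntegral_congr_fun measurableSet_Iic
    (eqOn_Iic a b κ), setIntegral_congr_fun measurableSet_Ioi (eqOn_Ioi a b κ),
    integral_exp_mul_Iic (by linarith), integral_exp_mul_Ioi (by linarith)] at h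
  rw [h]
  have h3 : a - κ ≠ 0 := by linarith
  have h4 : κ - a ≠ 0 := by linarith
  simp only [mul_zero, Real.exp_zero]
  rw [add_comm]
  congr 1
  rw [← neg_sub a κ, neg_div_neg_eq]

lemma integrable_w {a b : ℝ} (ha : 0 < a) (hb : 0 < b) : Integrable (w a b) := by
  have h := integrable_w_exp (a := a) (b := b) (κ := 0) (by linarith) ha
  simpa using h

lemma int_w {a b : ℝ} (ha : 0 < a) (hb : 0 < b) : ∫ u, w a b u = 1 / a + 1 / b := by
  have h := int_w_exp (a := a) (b := b) (κ := 0) (by linarith) ha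
  simpa using h

end INDB
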